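import Mathlib

/-!
MODULE Cover. Homogeneous smooth partitions of unity.

`E` finite dimensional inner product space. Cones: sets invariant under multiplication by positive numbers.
Given open cones `V γ` (`γ` in any index type), finitely many nonzero vectors `v q` with distinct directions,
open cones `H q ∋ v q`, such that every `x ≠ 0` is a positive multiple of some `v q` or lies in some
`V γ`. Then there are a finite set `F` and functions `ψ γ` (`γ ∈ F`), `η q`, smooth on `E \ {0}`,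
homogeneous of degree zero, nonnegative, with sum one on `E \ {0}`, `ψ γ` supported in `V γ`, `η q` in
`H q`, and `η q = 1` near the ray of `v q`.

PROOF. Shrink the `H q`: choose open cones `H' q ∋ v q`, `H' q ⊆ H q`, such that the sets
`H' q ∩ sphere` are pairwise disjoint with closures in `H q`, and smaller open cones
`H'' q ∋ v q` with closure (in `E \ {0}`) inside `H' q`. The compact set `sphere \ ⋃ H'' q` is covered by the `V γ`
minus the closed rays of the `v q`; extract a finite subcover `F`, with the open sets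
`U γ = V γ \ ⋃ closure of small cones around v q`… (it is enough to use
`V γ ∩ (complement of the closure of an even smaller cone H''' q around each ray)`). Then
`SmoothPartitionOfUnity.exists_isSubordinate` for the closed set `sphere 0 1` of the manifold `E`, the open cover
`H' q`, `U γ` gives smooth functions `f_i` on `E` with sum one on the sphere, supports in the
cones. Near the ray of `v q` only `H' q` occurs, so its function is one there (on the sphere). Put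
`χ i x = f_i (‖x‖⁻¹ • x)`; smooth on `E \ {0}` (the norm is smooth away from zero).
-/

open scoped ContDiff Topology

namespace LatLin.B

section aux
variable {E : Type*} [NormedAddCommGroup E]

private theorem nrm_unit [NormedSpace ℝ E] {x : E} (hx : x ≠ 0) : ‖‖x‖⁻¹ • x‖ = 1 := by
  rw [norm_smul, norm_inv, norm_norm, inv_mul_cancel₀ (norm_ne_zero_iff.2 hx)]

private theorem nrm_smul [NormedSpace ℝ E] (x : E) {t : ℝ} (ht : 0 < t) :
    ‖t • x‖⁻¹ • (t • x) = ‖x‖⁻¹ • x := by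
  rw [norm_smul, Real.norm_eq_abs, abs_of_pos ht, mul_inv, smul_smul]
  congr 1
  field_simp

private theorem nrm_back [NormedSpace ℝ E] {x : E} (hx : x ≠ 0) : ‖x‖ • (‖x‖⁻¹ • x) = x := by
  rw [smul_smul, mul_inv_cancel₀ (norm_ne_zero_iff.2 hx), one_smul]

private theorem nrm_contAt [NormedSpace ℝ E] {x : E} (hx : x ≠ 0) :
    ContinuousAt (fun z : E => ‖z‖⁻¹ • z) x :=
  (continuous_norm.continuousAt.inv₀ (norm_ne_zero_iff.2 hx)).smul continuousAt_id

private theorem nrm_smooth [InnerProductSpace ℝ E] {f : E → ℝ} (hf : ContDiff ℝ ∞ f) :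
    ContDiffOn ℝ ∞ (fun z : E => f (‖z‖⁻¹ • z)) {0}ᶜ := by
  intro x hx
  have hx' : x ≠ 0 := hx
  refine ContDiffAt.contDiffWithinAt ?_
  have h1 : ContDiffAt ℝ ∞ (fun z : E => ‖z‖⁻¹ • z) x :=
    ((contDiffAt_norm ℝ hx').inv (norm_ne_zero_iff.2 hx')).smul contDiffAt_id
  exact hf.contDiffAt.comp x h1

private theorem inner_dir [InnerProductSpace ℝ E] {v w : E} (hv : v ≠ 0) (hw : w ≠ 0)
    (h : ∀ c : ℝ, 0 < c → v ≠ c • w) :
    inner ℝ v (‖w‖⁻¹ • w) < inner ℝ v (‖v‖⁻¹ • v) := by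
  have hv' : 0 < ‖v‖ := norm_pos_iff.2 hv
  have hw' : 0 < ‖w‖ := norm_pos_iff.2 hw
  have h1 : inner ℝ v w < ‖v‖ * ‖w‖ := by
    rw [inner_lt_norm_mul_iff_real]
    intro h2
    refine h (‖v‖ / ‖w‖) (div_pos hv' hw') ?_
    rw [div_eq_inv_mul, mul_smul, ← h2, smul_smul, inv_mul_cancel₀ hw'.ne', one_smul]
  rw [real_inner_smul_right, real_inner_smul_right, real_inner_self_eq_norm_sq]
  have h2 : ‖v‖⁻¹ * ‖v‖ ^ 2 = ‖v‖ := by
    field_simp
  rw [h2, inv_mul_lt_iff₀ hw', mul_comm]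
  exact h1

end aux

theorem exists_cover {E : Type*} [NormedAddCommGroup E] [InnerProductSpace ℝ E]
    [FiniteDimensional ℝ E] {G ι : Type*} [Finite ι] (V : G → Set E) (hVo : ∀ γ, IsOpen (V γ))
    (hVc : ∀ γ x, x ∈ V γ → ∀ t : ℝ, 0 < t → t • x ∈ V γ) (v : ι → E) (hv : ∀ q, v q ≠ 0)
    (hvd : ∀ q q' : ι, ∀ c : ℝ, 0 < c → v q = c • v q' → q = q')
    (H : ι → Set E) (hHo : ∀ q, IsOpen (H q))
    (hHc : ∀ q x, x ∈ H q → ∀ t : ℝ, 0 < t → t • x ∈ H q) (hvH : ∀ q, v q ∈ H q)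
    (hcov : ∀ x : E, x ≠ 0 → (∃ q, ∃ c : ℝ, 0 < c ∧ x = c • v q) ∨ ∃ γ, x ∈ V γ) :
    ∃ (F : Finset G) (ψ : G → E → ℝ) (η : ι → E → ℝ),
      (∀ γ, ContDiffOn ℝ ∞ (ψ γ) {0}ᶜ) ∧ (∀ q, ContDiffOn ℝ ∞ (η q) {0}ᶜ) ∧
      (∀ γ x, 0 ≤ ψ γ x) ∧ (∀ q x, 0 ≤ η q x) ∧
      (∀ γ x, ∀ t : ℝ, 0 < t → ψ γ (t • x) = ψ γ x) ∧
      (∀ q x, ∀ t : ℝ, 0 < t → η q (t • x) = η q x) ∧
      (∀ γ x, x ≠ 0 → ψ γ x ≠ 0 → x ∈ V γ ∧ γ ∈ F) ∧
      (∀ q x, x ≠ 0 → η q x ≠ 0 → x ∈ H q) ∧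
      (∀ q x, x ≠ 0 → x ∈ closure {z | η q z ≠ 0} → x ∈ H q) ∧
      (∀ q q' x, x ≠ 0 → η q x ≠ 0 → η q' x ≠ 0 → q = q') ∧
      (∀ q, ∀ᶠ x in 𝓝 (v q), η q x = 1) ∧
      (∀ x, x ≠ 0 → ∑ᶠ q, η q x + ∑ γ ∈ F, ψ γ x = 1) := by
  classical
  have : Fintype ι := Fintype.ofFinite ι
  -- unit vectors
  set u : ι → E := fun q => ‖v q‖⁻¹ • v q with hu
  have hu1 : ∀ q, ‖u q‖ = 1 := fun q => nrm_unit (hv q)
  -- disjoint cones
  let W : ι → Set E := fun q =>
    H q ∩ ⋂ q' : ι, {x | q' ≠ q → inner ℝ x (u q') < inner ℝ x (u q)}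
  have hWmem : ∀ q x, x ∈ W q ↔ x ∈ H q ∧ ∀ q', q' ≠ q → inner ℝ x (u q') < inner ℝ x (u q) := by
    intro q x
    simp only [W, Set.mem_inter_iff, Set.mem_iInter]
    rfl
  have hWo : ∀ q, IsOpen (W q) := by
    intro q
    refine (hHo q).inter (isOpen_iInter_of_finite fun q' => ?_)
    by_cases hq : q' = q
    · have : {x : E | q' ≠ q → inner ℝ x (u q') < inner ℝ x (u q)} = Set.univ := by
        ext x
        simp [hq]
      rw [this]
      exact isOpen_univ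
    · have : {x : E | q' ≠ q → inner ℝ x (u q') < inner ℝ x (u q)} =
          {x : E | inner ℝ x (u q') < inner ℝ x (u q)} := by
        ext x
        simp [hq]
      rw [this]
      exact isOpen_lt (continuous_id.inner continuous_const) (continuous_id.inner continuous_const)
  have hWc : ∀ q x, x ∈ W q → ∀ t : ℝ, 0 < t → t • x ∈ W q := by
    intro q x hx t ht
    rw [hWmem] at hx ⊢
    refine ⟨hHc q x hx.1 t ht, fun q' hq' => ?_⟩
    rw [real_inner_smul_left, real_inner_smul_left]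
    exact mul_lt_mul_of_pos_left (hx.2 q' hq') ht
  have hvW : ∀ q, v q ∈ W q := by
    intro q
    rw [hWmem]
    refine ⟨hvH q, fun q' hq' => ?_⟩
    exact inner_dir (hv q) (hv q') fun c hc h => hq' (hvd q q' c hc h).symm
  have hWd : ∀ q q' x, x ∈ W q → x ∈ W q' → q = q' := by
    intro q q' x h1 h2
    by_contra hne
    rw [hWmem] at h1 h2
    exact lt_asymm (h1.2 q' (Ne.symm hne)) (h2.2 q hne)
  have huW : ∀ q, u q ∈ W q := fun q =>
    hWc q _ (hvW q) _ (inv_pos.2 (norm_pos_iff.2 (hv q)))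
  -- small closed balls
  have hball : ∀ q, ∃ r > (0 : ℝ), Metric.closedBall (u q) r ⊆ W q := fun q =>
    Metric.nhds_basis_closedBall.mem_iff.1 ((hWo q).mem_nhds (huW q))
  choose r hr hrW using hball
  -- the cover
  let Ω : ι ⊕ G → Set E := fun i => Sum.elim W
    (fun γ => V γ \ ⋃ q : ι, Metric.closedBall (u q) (r q)) i
  have hΩo : ∀ i, IsOpen (Ω i) := by
    rintro (q | γ)
    · exact hWo q
    · exact (hVo γ).sdiff (isClosed_iUnion_of_finite fun q => Metric.isClosed_closedBall)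
  have hΩc : Metric.sphere (0 : E) 1 ⊆ ⋃ i, Ω i := by
    intro x hx
    have hx1 : ‖x‖ = 1 := by simpa using hx
    have hx0 : x ≠ 0 := by
      rintro rfl
      simp at hx1
    rw [Set.mem_iUnion]
    rcases hcov x hx0 with ⟨q, c, hc, rfl⟩ | ⟨γ, hγ⟩
    · exact ⟨Sum.inl q, hWc q _ (hvW q) c hc⟩
    · by_cases hb : ∃ q, x ∈ Metric.closedBall (u q) (r q)
      · obtain ⟨q, hq⟩ := hb
        exact ⟨Sum.inl q, hrW q hq⟩
      · refine ⟨Sum.inr γ, hγ, ?_⟩
        rw [Set.mem_iUnion]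
        exact hb
  obtain ⟨f, hf⟩ := SmoothPartitionOfUnity.exists_isSubordinate (modelWithCornersSelf ℝ E)
    (Metric.isClosed_sphere (x := (0 : E)) (ε := 1)) Ω hΩo hΩc
  have hsm : ∀ i, ContDiff ℝ ∞ (f i) := fun i => (f i).contMDiff.contDiff
  have hsupp : ∀ i x, f i x ≠ 0 → x ∈ Ω i := fun i x hx => hf i (subset_tsupport _ hx)
  have hfin : {i | (Function.support (f i) ∩ Metric.sphere (0 : E) 1).Nonempty}.Finite :=
    f.locallyFinite.finite_nonempty_inter_compact (isCompact_sphere _ _)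
  have hFfin : {γ : G | (Function.support (f (Sum.inr γ)) ∩
      Metric.sphere (0 : E) 1).Nonempty}.Finite :=
    Set.Finite.preimage (f := (Sum.inr : G → ι ⊕ G)) Sum.inr_injective.injOn hfin
  have hzero : ∀ γ x, x ≠ 0 → f (Sum.inr γ) (‖x‖⁻¹ • x) ≠ 0 → γ ∈ hFfin.toFinset := by
    intro γ x hx h
    rw [Set.Finite.mem_toFinset]
    exact ⟨‖x‖⁻¹ • x, h, by simpa using nrm_unit hx⟩
  have hsum : ∀ x : E, x ≠ 0 → ∑ q : ι, f (Sum.inl q) (‖x‖⁻¹ • x) +
      ∑ γ ∈ hFfin.toFinset, f (Sum.inr γ) (‖x‖⁻¹ • x) = 1 := by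
    intro x hx
    have h1 : ‖x‖⁻¹ • x ∈ Metric.sphere (0 : E) 1 := by simpa using nrm_unit hx
    have h2 := f.sum_eq_one h1
    rw [finsum_eq_sum_of_support_subset (s := Finset.univ.disjSum hFfin.toFinset),
      Finset.sum_disjSum] at h2
    · exact h2
    rintro (q | γ) hi
    · simp
    · have := hzero γ x hx hi
      simpa using this
  refine ⟨hFfin.toFinset, fun γ x => f (Sum.inr γ) (‖x‖⁻¹ • x),
    fun q x => f (Sum.inl q) (‖x‖⁻¹ • x), fun γ => nrm_smooth (hsm _), fun q => nrm_smooth (hsm _),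
    fun γ x => f.nonneg _ _, fun q x => f.nonneg _ _, fun γ x t ht => ?_, fun q x t ht => ?_,
    fun γ x hx h => ⟨?_, hzero γ x hx h⟩, fun q x hx h => ?_, fun q x hx h => ?_,
    fun q q' x hx h h' => ?_, fun q => ?_, fun x hx => ?_⟩
  · show f (Sum.inr γ) (‖t • x‖⁻¹ • (t • x)) = _
    rw [nrm_smul x ht]
  · show f (Sum.inl q) (‖t • x‖⁻¹ • (t • x)) = _
    rw [nrm_smul x ht]
  · have h1 := (hsupp _ _ h).1
    have h2 := hVc γ _ h1 ‖x‖ (norm_pos_iff.2 hx)
    rwa [nrm_back hx] at h2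
  · have h1 : ‖x‖⁻¹ • x ∈ W q := hsupp _ _ h
    have h2 := hHc q _ ((hWmem _ _).1 h1).1 ‖x‖ (norm_pos_iff.2 hx)
    rwa [nrm_back hx] at h2
  · have h0 : ‖x‖⁻¹ • x ∈ tsupport (f (Sum.inl q)) := by
      have h1 := mem_closure_image (f := fun z : E => ‖z‖⁻¹ • z) (nrm_contAt hx) h
      refine closure_mono ?_ h1
      rintro _ ⟨z, hz, rfl⟩
      exact hz
    have h1 : ‖x‖⁻¹ • x ∈ W q := hf _ h0
    have h2 := hHc q _ ((hWmem _ _).1 h1).1 ‖x‖ (norm_pos_iff.2 hx)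
    rwa [nrm_back hx] at h2
  · exact hWd q q' _ (hsupp _ _ h) (hsupp _ _ h')
  · have h1 : ∀ᶠ x in 𝓝 (v q), ‖x‖⁻¹ • x ∈ Metric.closedBall (u q) (r q) :=
      (nrm_contAt (hv q)).eventually_mem (Metric.closedBall_mem_nhds _ (hr q))
    have h2 : ∀ᶠ x in 𝓝 (v q), x ≠ 0 := isOpen_ne.mem_nhds (hv q)
    filter_upwards [h1, h2] with x hx1 hx2
    have h3 := hsum x hx2
    rw [Finset.sum_eq_single q, Finset.sum_eq_zero, add_zero] at h3
    · exact h3
    · intro γ _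
      by_contra hne
      exact (hsupp _ _ hne).2 (Set.mem_iUnion.2 ⟨q, hx1⟩)
    · intro q' _ hq'
      by_contra hne
      exact hq' (hWd q' q _ (hsupp _ _ hne) (hrW q hx1))
    · intro h4
      exact absurd (Finset.mem_univ q) h4
  · have h3 := hsum x hx
    rw [finsum_eq_sum_of_fintype]
    exact h3

/-- derivatives of smooth homogeneous functions of degree zero: compactness of the sphere and scaling
`iteratedFDeriv j χ (t x) = t^(-j) iteratedFDeriv j χ x` -/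
theorem homog_bound {E F : Type*} [NormedAddCommGroup E] [NormedSpace ℝ E] [NormedAddCommGroup F]
    [NormedSpace ℝ F] [FiniteDimensional ℝ E] (χ : E → F)
    (h : ContDiffOn ℝ ∞ χ {0}ᶜ) (hh : ∀ x, ∀ t : ℝ, 0 < t → χ (t • x) = χ x) (j : ℕ) :
    ∃ C : ℝ, ∀ x : E, x ≠ 0 → ‖iteratedFDeriv ℝ j χ x‖ * ‖x‖ ^ j ≤ C := by
  have hopen : IsOpen ({0}ᶜ : Set E) := isOpen_compl_singleton
  have hcont : ContinuousOn (iteratedFDeriv ℝ j χ) {0}ᶜ := by
    have h1 := h.continuousOn_iteratedFDerivWithin (m := j) (mod_cast le_top)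
      hopen.uniqueDiffOn
    exact h1.congr fun x hx => (iteratedFDerivWithin_of_isOpen j hopen hx).symm
  obtain ⟨C, hC⟩ := (isCompact_sphere (0 : E) 1).exists_bound_of_continuousOn
    (hcont.mono fun x hx => by
      rintro rfl
      simp at hx)
  refine ⟨C, fun x hx => ?_⟩
  have hx' : 0 < ‖x‖ := norm_pos_iff.2 hx
  have hc : ‖x‖⁻¹ ≠ 0 := inv_ne_zero hx'.ne'
  let g : E ≃L[ℝ] E := ContinuousLinearEquiv.smulLeft (Units.mk0 ‖x‖⁻¹ hc)
  have hg : ∀ y, g y = ‖x‖⁻¹ • y := fun y => rfl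
  have hχ : χ ∘ g = χ := by
    funext y
    show χ (g y) = χ y
    rw [hg, hh y _ (inv_pos.2 hx')]
  have h1 := g.iteratedFDerivWithin_comp_right χ uniqueDiffOn_univ (Set.mem_univ (g x)) j
  rw [Set.preimage_univ, iteratedFDerivWithin_univ, iteratedFDerivWithin_univ, hχ] at h1
  rw [h1]
  have h2 := ContinuousMultilinearMap.norm_compContinuousLinearMap_le
    (iteratedFDeriv ℝ j χ (g x)) (fun _ : Fin j => (g : E →L[ℝ] E))
  have h3 : ‖(g : E →L[ℝ] E)‖ ≤ ‖x‖⁻¹ := by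
    refine ContinuousLinearMap.opNorm_le_bound _ (by positivity) fun y => ?_
    show ‖g y‖ ≤ _
    rw [hg, norm_smul, norm_inv, norm_norm]
  have h4 : ‖iteratedFDeriv ℝ j χ (g x)‖ ≤ C := by
    refine hC (g x) ?_
    rw [hg]
    simpa using nrm_unit hx
  rw [Finset.prod_const, Finset.card_univ, Fintype.card_fin] at h2
  have hC0 : 0 ≤ C := (norm_nonneg _).trans h4
  calc _ ≤ (‖iteratedFDeriv ℝ j χ (g x)‖ * ‖(g : E →L[ℝ] E)‖ ^ j) * ‖x‖ ^ j :=
        mul_le_mul_of_nonneg_right h2 (by positivity)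
    _ ≤ (C * ‖x‖⁻¹ ^ j) * ‖x‖ ^ j := by
        refine mul_le_mul_of_nonneg_right ?_ (by positivity)
        exact mul_le_mul h4 (pow_le_pow_left₀ (norm_nonneg _) h3 j) (by positivity) hC0
    _ = C := by
        rw [mul_assoc, ← mul_pow, inv_mul_cancel₀ hx'.ne', one_pow, mul_one]

end LatLin.B
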