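import Pool.Agent.Lib.MP_2392aa_gt.B.WordDefs
import Pool.Agent.Lib.MP_2392aa_gt.B.Cover

/-!
MODULE BqBound. Derivative bounds for the exponents `bq` and for the weights.

PROOF of `bq_bound`. `bq x = -(x.1) • G (x.2)` with `G y = (∑ y_j²)⁻¹ • y`, smooth on `{y ≠ 0}`,
homogeneous of degree `-1`: `‖D^j G y‖ ≤ C ‖y‖^(-1-j)` (compactness of the sphere and
`D^j G (t y) = t^(-1-j) D^j G y`; or apply `homog_bound` to `y ↦ (∑ y_i²)^(1/2) • G y` … any way). Leibniz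
for the product with the linear function `x.1`:
`‖D^j bq x‖ ≤ C (|x.1| ‖x.2‖^(-1-j) + ‖x.2‖^(-j)) ≤ 2 C ‖x‖ / ‖x.2‖^(j+1)`.
PROOF of `weight_bound`. `w x = η x * θ (bq (L x) - b)`: `θ` and its derivatives are bounded (compact
support), `norm_iteratedFDeriv_comp_le` at `x` with `D = C ‖L x‖ / ‖(L x).2‖^2 ≥ …`: for `1 ≤ i ≤ j`,
`‖D^i bq‖ ≤ C ‖x‖ / ‖x.2‖^(i+1) ≤ (C' ‖x‖ / ‖x.2‖^2)^i * (…)`: note `‖x‖ / ‖x.2‖ ≥ 1`, so
`‖x‖/‖x.2‖^(i+1) ≤ (‖x‖/‖x.2‖^2)^i`. Hence `‖D^j (θ ∘ …)‖ ≤ C (‖x‖/‖x.2‖^2)^j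
= C (‖x‖/‖x.2‖)^j / ‖x.2‖^j`. `η` is homogeneous of degree zero: `homog_bound`. Leibniz.
`weight_smooth`: near a point `x0` of `{x ≠ 0}` off the closed ray `{L x = (t, 0), t ≥ 0}`: if `(L x0).2 ≠ 0` clear;
if `(L x0).2 = 0` then `(L x0).1 < 0`, so `x0` is not in the closure of `{η ≠ 0}` and the function is zero
near `x0`.
-/

open scoped ContDiff Topology

namespace LatLin.B

private theorem bqb_open (k : ℕ) : IsOpen {x : E0 k | x.2 ≠ 0} :=
  isOpen_ne.preimage continuous_snd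

private theorem bqb_smooth {k : ℕ} {x : E0 k} (hx : x.2 ≠ 0) : ContDiffAt ℝ ∞ (bq (k := k)) x := by
  have hs : (∑ j, x.2 j ^ 2) ≠ 0 := by
    intro h
    apply hx
    funext j
    have h1 := (Finset.sum_eq_zero_iff_of_nonneg (fun j _ => sq_nonneg (x.2 j))).1 h j
      (Finset.mem_univ j)
    exact (pow_eq_zero_iff two_ne_zero).1 h1
  rw [contDiffAt_pi]
  intro i
  have hc : ∀ j, ContDiff ℝ ∞ (fun z : E0 k => z.2 j) := fun j =>
    (contDiff_apply ℝ ℝ j).comp contDiff_snd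
  refine ContDiffAt.div ?_ ?_ hs
  · exact ((contDiff_fst.mul (hc i)).neg).contDiffAt
  · exact (ContDiff.sum fun j _ => (hc j).pow 2).contDiffAt

private theorem bqb_hom {k : ℕ} {l t : ℝ} (hl : 0 < l) (ht : 0 < t) (x : E0 k) :
    bq x = (l / t) • bq ((l⁻¹ * x.1, t⁻¹ • x.2) : E0 k) := by
  funext i
  show -(x.1 * x.2 i) / ∑ j, x.2 j ^ 2 =
    (l / t) * (-((l⁻¹ * x.1) * (t⁻¹ * x.2 i)) / ∑ j, (t⁻¹ * x.2 j) ^ 2)
  have h1 : ∑ j, (t⁻¹ * x.2 j) ^ 2 = t⁻¹ ^ 2 * ∑ j, x.2 j ^ 2 := by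
    rw [Finset.mul_sum]
    exact Finset.sum_congr rfl fun j _ => mul_pow _ _ _
  rw [h1]
  rcases eq_or_ne (∑ j, x.2 j ^ 2) 0 with h | h
  · rw [h, mul_zero, div_zero, div_zero, mul_zero]
  · field_simp

private theorem bqb_bound (k j : ℕ) : ∃ C : ℝ, 0 ≤ C ∧ ∀ x : E0 k, x.2 ≠ 0 →
    ‖iteratedFDeriv ℝ j (bq (k := k)) x‖ ≤ C * ‖x‖ / ‖x.2‖ ^ (j + 1) := by
  have hsm : ContDiffOn ℝ ∞ (bq (k := k)) {x : E0 k | x.2 ≠ 0} := fun x hx =>
    (bqb_smooth hx).contDiffWithinAt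
  have hcont : ContinuousOn (iteratedFDeriv ℝ j (bq (k := k))) {x : E0 k | x.2 ≠ 0} := by
    have h1 := hsm.continuousOn_iteratedFDerivWithin (m := j) (mod_cast le_top)
      (bqb_open k).uniqueDiffOn
    exact h1.congr fun x hx => (iteratedFDerivWithin_of_isOpen j (bqb_open k) hx).symm
  have hK : IsCompact (Metric.closedBall (0 : ℝ) 1 ×ˢ Metric.sphere (0 : Fin k → ℝ) 1) :=
    (isCompact_closedBall _ _).prod (isCompact_sphere _ _)
  obtain ⟨C, hC⟩ := hK.exists_bound_of_continuousOn (f := iteratedFDeriv ℝ j (bq (k := k)))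
    (hcont.mono fun x hx => by
      intro h0
      have h2 := hx.2
      rw [h0] at h2
      simp at h2)
  refine ⟨max C 0, le_max_right _ _, fun x hx => ?_⟩
  have ht : 0 < ‖x.2‖ := norm_pos_iff.2 hx
  have hlt : ‖x.2‖ ≤ ‖x‖ := norm_snd_le x
  have hl : 0 < ‖x‖ := lt_of_lt_of_le ht hlt
  let g : E0 k ≃L[ℝ] E0 k := ContinuousLinearEquiv.prodCongr
    (ContinuousLinearEquiv.smulLeft (Units.mk0 ‖x‖⁻¹ (inv_ne_zero hl.ne')))
    (ContinuousLinearEquiv.smulLeft (Units.mk0 ‖x.2‖⁻¹ (inv_ne_zero ht.ne')))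
  have hg : ∀ y : E0 k, g y = (‖x‖⁻¹ * y.1, ‖x.2‖⁻¹ • y.2) := fun y => rfl
  have hb : (bq (k := k)) = (‖x‖ / ‖x.2‖) • (bq ∘ g) := by
    funext y
    exact bqb_hom hl ht y
  have hgx : (g x).2 ≠ 0 := by
    rw [hg]
    exact smul_ne_zero (inv_ne_zero ht.ne') hx
  have hcomp : ContDiffAt ℝ ∞ (bq ∘ g) x := (bqb_smooth hgx).comp x g.contDiff.contDiffAt
  have h1 : iteratedFDeriv ℝ j (bq (k := k)) x =
      (‖x‖ / ‖x.2‖) • iteratedFDeriv ℝ j (bq ∘ g) x := by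
    conv_lhs => rw [hb]
    exact iteratedFDeriv_const_smul_apply (hcomp.of_le (mod_cast le_top))
  have h2 := g.iteratedFDerivWithin_comp_right (bq (k := k)) uniqueDiffOn_univ
    (Set.mem_univ (g x)) j
  rw [Set.preimage_univ, iteratedFDerivWithin_univ, iteratedFDerivWithin_univ] at h2
  have h3 := ContinuousMultilinearMap.norm_compContinuousLinearMap_le
    (iteratedFDeriv ℝ j (bq (k := k)) (g x)) (fun _ : Fin j => (g : E0 k →L[ℝ] E0 k))
  rw [Finset.prod_const, Finset.card_univ, Fintype.card_fin] at h3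
  have h4 : ‖(g : E0 k →L[ℝ] E0 k)‖ ≤ ‖x.2‖⁻¹ := by
    refine ContinuousLinearMap.opNorm_le_bound _ (by positivity) fun y => ?_
    show ‖g y‖ ≤ _
    rw [hg, Prod.norm_def]
    refine max_le ?_ ?_
    · rw [norm_mul, norm_inv, norm_norm]
      exact mul_le_mul (inv_anti₀ ht hlt) (norm_fst_le y) (norm_nonneg _) (by positivity)
    · rw [norm_smul, norm_inv, norm_norm]
      exact mul_le_mul_of_nonneg_left (norm_snd_le y) (by positivity)
  have h5 : ‖iteratedFDeriv ℝ j (bq (k := k)) (g x)‖ ≤ max C 0 := by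
    refine (hC (g x) ⟨?_, ?_⟩).trans (le_max_left _ _)
    · rw [hg, mem_closedBall_zero_iff, norm_mul, norm_inv, norm_norm, inv_mul_le_one₀ hl]
      exact norm_fst_le x
    · rw [hg, mem_sphere_zero_iff_norm, norm_smul, norm_inv, norm_norm, inv_mul_cancel₀ ht.ne']
  rw [h1, norm_smul, Real.norm_of_nonneg (by positivity), h2]
  calc ‖x‖ / ‖x.2‖ * _ ≤ ‖x‖ / ‖x.2‖ * (max C 0 * ‖x.2‖⁻¹ ^ j) := by
        refine mul_le_mul_of_nonneg_left (h3.trans ?_) (by positivity)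
        exact mul_le_mul h5 (pow_le_pow_left₀ (norm_nonneg _) h4 j) (by positivity)
          (le_max_right _ _)
    _ = max C 0 * ‖x‖ / ‖x.2‖ ^ (j + 1) := by
        rw [pow_succ, inv_pow]
        field_simp

theorem bq_bound (k j : ℕ) : ∃ C : ℝ, ∀ x : E0 k, x.2 ≠ 0 →
    ContDiffAt ℝ ∞ (bq (k := k)) x ∧ ‖iteratedFDeriv ℝ j (bq (k := k)) x‖ ≤ C * ‖x‖ / ‖x.2‖ ^ (j + 1) := by
  obtain ⟨C, _, hC⟩ := bqb_bound k j
  exact ⟨C, fun x hx => ⟨bqb_smooth hx, hC x hx⟩⟩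

/-- a smooth function vanishing off the unit cube has bounded derivatives -/
private theorem bqb_theta {k : ℕ} (θ : (Fin k → ℝ) → ℝ) (hθ : ContDiff ℝ ∞ θ)
    (hθs : ∀ v : Fin k → ℝ, (∃ i, 1 ≤ |v i|) → θ v = 0) (j : ℕ) :
    ∃ C : ℝ, 0 ≤ C ∧ ∀ i ≤ j, ∀ v, ‖iteratedFDeriv ℝ i θ v‖ ≤ C := by
  have hcs : HasCompactSupport θ := by
    refine HasCompactSupport.intro (isCompact_closedBall (0 : Fin k → ℝ) 1) fun v hv => ?_
    apply hθs
    by_contra hc
    push Not at hc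
    apply hv
    rw [mem_closedBall_zero_iff]
    exact (pi_norm_le_iff_of_nonneg zero_le_one).2 fun i => (hc i).le
  have h1 : ∀ i, ∃ C : ℝ, ∀ v, ‖iteratedFDeriv ℝ i θ v‖ ≤ C := fun i =>
    (hθ.continuous_iteratedFDeriv (m := i) (mod_cast le_top)).bounded_above_of_compact_support
      (hcs.iteratedFDeriv i)
  choose C hC using h1
  refine ⟨∑ i ∈ Finset.range (j + 1), |C i|, Finset.sum_nonneg fun i _ => abs_nonneg _,
    fun i hi v => ?_⟩
  refine (hC i v).trans ((le_abs_self _).trans ?_)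
  exact Finset.single_le_sum (f := fun i => |C i|) (fun i _ => abs_nonneg _)
    (Finset.mem_range.2 (by omega))

private theorem bqb_L_open {k : ℕ} {E : Type*} [NormedAddCommGroup E] [NormedSpace ℝ E]
    (L : E ≃L[ℝ] E0 k) : IsOpen {z : E | (L z).2 ≠ 0} :=
  (bqb_open k).preimage L.continuous

private theorem bqb_f_smooth {k : ℕ} {E : Type*} [NormedAddCommGroup E] [NormedSpace ℝ E]
    (L : E ≃L[ℝ] E0 k) (b : Fin k → ℤ) {x : E} (hx : (L x).2 ≠ 0) :
    ContDiffAt ℝ ∞ (fun z => fun i => bq (L z) i - b i) x := by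
  have h1 : ContDiffAt ℝ ∞ (fun z => bq (L z)) x :=
    (bqb_smooth hx).comp x L.contDiff.contDiffAt
  have h2 : ContDiffAt ℝ ∞ (fun z => bq (L z) - (fun i => (b i : ℝ))) x :=
    h1.sub contDiffAt_const
  exact h2

/-- derivatives of positive order of the exponents along `L` -/
private theorem bqb_f_bound {k : ℕ} {E : Type*} [NormedAddCommGroup E] [NormedSpace ℝ E]
    (L : E ≃L[ℝ] E0 k) (i : ℕ) : ∃ C : ℝ, 0 ≤ C ∧ ∀ (x : E) (b : Fin k → ℤ), (L x).2 ≠ 0 → 1 ≤ i →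
      ‖iteratedFDeriv ℝ i (fun z => fun i => bq (L z) i - b i) x‖ ≤
        C * ‖x‖ / ‖(L x).2‖ ^ (i + 1) := by
  obtain ⟨C, hC0, hC⟩ := bqb_bound k i
  refine ⟨C * ‖(L : E →L[ℝ] E0 k)‖ * ‖(L : E →L[ℝ] E0 k)‖ ^ i, by positivity, fun x b hx hi => ?_⟩
  have ht : 0 < ‖(L x).2‖ := norm_pos_iff.2 hx
  have h1 : ContDiffAt ℝ ∞ (bq ∘ L) x := (bqb_smooth hx).comp x L.contDiff.contDiffAt
  have h2 : iteratedFDeriv ℝ i (fun z => fun i => bq (L z) i - b i) x =
      iteratedFDeriv ℝ i (bq ∘ L) x := by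
    have e : (fun z => fun i => bq (L z) i - b i) = (bq ∘ L) + (fun _ => -(fun i => (b i : ℝ))) := by
      funext z i
      exact sub_eq_add_neg _ _
    rw [e, iteratedFDeriv_add_apply (h1.of_le (mod_cast le_top)) contDiffAt_const,
      iteratedFDeriv_const_of_ne (by omega)]
    exact add_zero _
  have h3 := L.iteratedFDerivWithin_comp_right (bq (k := k)) uniqueDiffOn_univ
    (Set.mem_univ (L x)) i
  rw [Set.preimage_univ, iteratedFDerivWithin_univ, iteratedFDerivWithin_univ] at h3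
  have h4 := ContinuousMultilinearMap.norm_compContinuousLinearMap_le
    (iteratedFDeriv ℝ i (bq (k := k)) (L x)) (fun _ : Fin i => (L : E →L[ℝ] E0 k))
  rw [Finset.prod_const, Finset.card_univ, Fintype.card_fin] at h4
  rw [h2, h3]
  refine h4.trans ?_
  have h5 : ‖L x‖ ≤ ‖(L : E →L[ℝ] E0 k)‖ * ‖x‖ := (L : E →L[ℝ] E0 k).le_opNorm x
  calc _ ≤ (C * (‖(L : E →L[ℝ] E0 k)‖ * ‖x‖) / ‖(L x).2‖ ^ (i + 1)) * ‖(L : E →L[ℝ] E0 k)‖ ^ i := by
        refine mul_le_mul_of_nonneg_right ((hC (L x) hx).trans ?_) (by positivity)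
        exact div_le_div_of_nonneg_right (mul_le_mul_of_nonneg_left h5 hC0) (by positivity)
    _ = _ := by ring

theorem weight_bound {k : ℕ} {E : Type*} [NormedAddCommGroup E] [NormedSpace ℝ E]
    [FiniteDimensional ℝ E] (L : E ≃L[ℝ] E0 k) (η : E → ℝ) (hη : ContDiffOn ℝ ∞ η {0}ᶜ)
    (hh : ∀ x, ∀ t : ℝ, 0 < t → η (t • x) = η x) (θ : (Fin k → ℝ) → ℝ) (hθ : ContDiff ℝ ∞ θ)
    (hθs : ∀ v : Fin k → ℝ, (∃ i, 1 ≤ |v i|) → θ v = 0) (j : ℕ) :
    ∃ (C : ℝ) (c : ℕ), ∀ (x : E) (b : Fin k → ℤ), (L x).2 ≠ 0 →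
      ‖iteratedFDeriv ℝ j (fun z => η z * θ (fun i => bq (L z) i - b i)) x‖
        ≤ C * (‖x‖ / ‖(L x).2‖) ^ c / ‖(L x).2‖ ^ j := by
  obtain ⟨T, hT0, hT⟩ := bqb_theta θ hθ hθs j
  -- constants of the inner function
  have hfi := fun i => bqb_f_bound L i
  choose Cf hCf0 hCf using hfi
  set S : ℝ := 1 + ∑ i ∈ Finset.range (j + 1), Cf i with hS
  have hS1 : 1 ≤ S := by
    rw [hS]
    have := Finset.sum_nonneg (s := Finset.range (j + 1)) fun i _ => hCf0 i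
    linarith
  have hCfS : ∀ i ≤ j, Cf i ≤ S := fun i hi => by
    rw [hS]
    have := Finset.single_le_sum (f := Cf) (fun i _ => hCf0 i) (Finset.mem_range.2 (by omega : i < j + 1))
    linarith
  -- constants of the outer factor
  have hηi := fun i => homog_bound η hη hh i
  choose Ce hCe using hηi
  set M : ℝ := max ‖(L : E →L[ℝ] E0 k)‖ 1 with hM
  have hM1 : 1 ≤ M := le_max_right _ _
  have hM0 : 0 < M := by linarith
  set W : ℝ := M * S with hW
  have hW1 : 1 ≤ W := one_le_mul_of_one_le_of_one_le hM1 hS1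
  refine ⟨∑ i ∈ Finset.range (j + 1), (j.choose i : ℝ) * |Ce i| * (((j - i).factorial : ℝ) * T) *
    W ^ j * M ^ j, j, fun x b hx => ?_⟩
  have hx0 : x ≠ 0 := by
    rintro rfl
    apply hx
    rw [map_zero]
    rfl
  have hxp : 0 < ‖x‖ := norm_pos_iff.2 hx0
  have ht : 0 < ‖(L x).2‖ := norm_pos_iff.2 hx
  set ρ : ℝ := ‖(L x).2‖ with hρ
  have hρM : ρ ≤ M * ‖x‖ := by
    calc ρ ≤ ‖L x‖ := norm_snd_le _
      _ ≤ ‖(L : E →L[ℝ] E0 k)‖ * ‖x‖ := (L : E →L[ℝ] E0 k).le_opNorm x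
      _ ≤ M * ‖x‖ := mul_le_mul_of_nonneg_right (le_max_left _ _) hxp.le
  -- the quotient
  set q : ℝ := M * (‖x‖ / ρ) with hq
  have hq1 : 1 ≤ q := by
    rw [hq, ← mul_div_assoc, le_div_iff₀ ht, one_mul]
    exact hρM
  have hso : IsOpen {z : E | (L z).2 ≠ 0} := bqb_L_open L
  have hfs : ContDiffOn ℝ ∞ (fun z => fun i => bq (L z) i - b i) {z : E | (L z).2 ≠ 0} :=
    fun z hz => (bqb_f_smooth L b hz).contDiffWithinAt
  have hcomp : ∀ m ≤ j, ‖iteratedFDerivWithin ℝ m (θ ∘ fun z => fun i => bq (L z) i - b i)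
      {z : E | (L z).2 ≠ 0} x‖ ≤ m.factorial * T * (W * q / ρ) ^ m := by
    intro m hm
    refine norm_iteratedFDerivWithin_comp_le (N := ∞) (t := Set.univ) hθ.contDiffOn hfs
      (mod_cast le_top) uniqueDiffOn_univ hso.uniqueDiffOn (Set.mapsTo_univ _ _) hx ?_ ?_
    · intro i hi
      rw [iteratedFDerivWithin_univ]
      exact hT i (hi.trans hm) _
    · intro i hi1 hi2
      rw [iteratedFDerivWithin_of_isOpen i hso hx]
      refine (hCf i x b hx hi1).trans ?_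
      have h1 : Cf i * ‖x‖ / ρ ^ (i + 1) = Cf i * (‖x‖ / ρ) / ρ ^ i := by
        rw [pow_succ]
        field_simp
      rw [h1, div_pow]
      refine div_le_div_of_nonneg_right ?_ (by positivity)
      have h2 : ‖x‖ / ρ ≤ q := by
        rw [hq]
        exact le_mul_of_one_le_left (by positivity) hM1
      have h3 : Cf i * (‖x‖ / ρ) ≤ S * q :=
        mul_le_mul (hCfS i (hi2.trans hm)) h2 (by positivity) (by linarith)
      have h4 : S * q ≤ W * q := by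
        refine mul_le_mul_of_nonneg_right ?_ (by linarith)
        rw [hW]
        exact le_mul_of_one_le_left (by linarith) hM1
      have h5 : W * q ≤ (W * q) ^ i :=
        le_self_pow₀ (one_le_mul_of_one_le_of_one_le hW1 hq1) (by omega)
      exact (h3.trans h4).trans h5
  have hηs : ContDiffOn ℝ ∞ η {z : E | (L z).2 ≠ 0} := hη.mono fun z hz => by
    rintro rfl
    apply hz
    rw [map_zero]
    rfl
  have hleib := norm_iteratedFDerivWithin_mul_le (N := ∞) hηs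
    (hθ.comp_contDiffOn hfs) hso.uniqueDiffOn hx (n := j) (mod_cast le_top)
  rw [iteratedFDerivWithin_of_isOpen j hso hx] at hleib
  refine hleib.trans ?_
  have hgoal : (∑ i ∈ Finset.range (j + 1), (j.choose i : ℝ) * |Ce i| * (((j - i).factorial : ℝ) * T) *
      W ^ j * M ^ j) * (‖x‖ / ρ) ^ j / ρ ^ j = ∑ i ∈ Finset.range (j + 1),
      (j.choose i : ℝ) * |Ce i| * (((j - i).factorial : ℝ) * T) * W ^ j * q ^ j / ρ ^ j := by
    rw [hq, Finset.sum_mul, Finset.sum_div]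
    refine Finset.sum_congr rfl fun i _ => ?_
    rw [mul_pow]
    ring
  rw [hgoal]
  refine Finset.sum_le_sum fun i hi => ?_
  have hij : i ≤ j := Nat.lt_succ_iff.1 (Finset.mem_range.1 hi)
  rw [iteratedFDerivWithin_of_isOpen i hso hx]
  have h1 : ‖iteratedFDeriv ℝ i η x‖ ≤ |Ce i| * (M / ρ) ^ i := by
    have h2 := hCe i x hx0
    have h3 : ‖iteratedFDeriv ℝ i η x‖ ≤ |Ce i| / ‖x‖ ^ i := by
      rw [le_div_iff₀ (by positivity)]
      exact h2.trans (le_abs_self _)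
    refine h3.trans ?_
    rw [div_eq_mul_inv]
    refine mul_le_mul_of_nonneg_left ?_ (abs_nonneg _)
    rw [← inv_pow]
    refine pow_le_pow_left₀ (by positivity) ?_ i
    rw [inv_le_iff_one_le_mul₀ hxp, div_mul_eq_mul_div, le_div_iff₀ ht, one_mul]
    exact hρM
  have h2 := hcomp (j - i) (Nat.sub_le j i)
  have h3 : (M / ρ) ^ i * (W * q / ρ) ^ (j - i) ≤ W ^ j * q ^ j / ρ ^ j := by
    have e : (M / ρ) ^ i * (W * q / ρ) ^ (j - i) = M ^ i * (W * q) ^ (j - i) / ρ ^ j := by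
      rw [div_pow, div_pow, div_mul_div_comm, ← pow_add, Nat.add_sub_cancel' hij]
    rw [e, ← mul_pow]
    refine div_le_div_of_nonneg_right ?_ (by positivity)
    have h4 : M ≤ W * q := by
      calc M = M * 1 * 1 := by ring
        _ ≤ M * S * q := by
          refine mul_le_mul (mul_le_mul_of_nonneg_left hS1 hM0.le) hq1 zero_le_one ?_
          positivity
    calc M ^ i * (W * q) ^ (j - i) ≤ (W * q) ^ i * (W * q) ^ (j - i) :=
          mul_le_mul_of_nonneg_right (pow_le_pow_left₀ hM0.le h4 i) (by positivity)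
      _ = (W * q) ^ j := by rw [← pow_add, Nat.add_sub_cancel' hij]
  calc (j.choose i : ℝ) * ‖iteratedFDeriv ℝ i η x‖ * _
      ≤ (j.choose i : ℝ) * (|Ce i| * (M / ρ) ^ i) * ((j - i).factorial * T * (W * q / ρ) ^ (j - i)) := by
        refine mul_le_mul (mul_le_mul_of_nonneg_left h1 (Nat.cast_nonneg _)) h2 (norm_nonneg _) ?_
        positivity
    _ = ((j.choose i : ℝ) * |Ce i| * (((j - i).factorial : ℝ) * T)) *
          ((M / ρ) ^ i * (W * q / ρ) ^ (j - i)) := by ring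
    _ ≤ ((j.choose i : ℝ) * |Ce i| * (((j - i).factorial : ℝ) * T)) * (W ^ j * q ^ j / ρ ^ j) := by
        refine mul_le_mul_of_nonneg_left h3 ?_
        positivity
    _ = _ := by ring

theorem weight_smooth {k : ℕ} {E : Type*} [NormedAddCommGroup E] [NormedSpace ℝ E]
    [FiniteDimensional ℝ E] (L : E ≃L[ℝ] E0 k) (η : E → ℝ) (hη : ContDiffOn ℝ ∞ η {0}ᶜ)
    (hs : ∀ x, x ≠ 0 → x ∈ closure {z | η z ≠ 0} → 0 < (L x).1) (θ : (Fin k → ℝ) → ℝ)
    (hθ : ContDiff ℝ ∞ θ) (b : Fin k → ℤ) (x : E) (hx : x ≠ 0)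
    (hx' : ¬ ∃ t : ℝ, 0 ≤ t ∧ L x = ((t, 0) : E0 k)) :
    ContDiffAt ℝ ∞ (fun z => η z * θ (fun i => bq (L z) i - b i)) x := by
  by_cases h2 : (L x).2 = 0
  · have h1 : (L x).1 < 0 := by
      by_contra hc
      push Not at hc
      exact hx' ⟨(L x).1, hc, Prod.ext rfl h2⟩
    have h3 : x ∉ closure {z | η z ≠ 0} := fun h => absurd (hs x hx h) (by linarith)
    have h4 : ∀ᶠ z in 𝓝 x, z ∉ closure {z | η z ≠ 0} :=
      (isClosed_closure.isOpen_compl).mem_nhds h3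
    have h5 : (fun z => η z * θ (fun i => bq (L z) i - b i)) =ᶠ[𝓝 x] fun _ => (0 : ℝ) := by
      filter_upwards [h4] with z hz
      have h6 : η z = 0 := by
        by_contra hne
        exact hz (subset_closure hne)
      rw [h6, zero_mul]
    exact contDiffAt_const.congr_of_eventuallyEq h5
  · have h3 : ContDiffAt ℝ ∞ η x :=
      (hη x hx).contDiffAt (isOpen_compl_singleton.mem_nhds hx)
    have h4 := bqb_f_smooth L b h2
    exact h3.mul (hθ.contDiffAt.comp x h4)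

end LatLin.B
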