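import Pool.Agent.Lib.MP_2392aa_gt.B.VanOps

/-!
MODULE VanRay. Order of vanishing along the segment.

* `ds_vanR`: at a point of the open segment use that `s ↦ iteratedFDeriv ℝ j f (s, 0)` vanishes on
  `[0, r)`, so its (right) derivative is zero; this is `iteratedFDeriv ℝ (j+1) f (s,0)` applied to
  `(1,0)` in one slot (`fderiv_iteratedFDeriv`); and `iteratedFDeriv ℝ j (fun z => fderiv ℝ f z v) x`
  is the derivative of `iteratedFDeriv ℝ j f` in the direction `v` (symmetry: e.g.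
  `iteratedFDeriv_succ_eq_comp_right` and `ContDiffAt.iteratedFDeriv_comp_perm`; alternatively prove
  this equality by induction on `j` using symmetry of second derivatives).
* `unif`: induction on `m` and mean value inequality along `(s, t y)`, `t ∈ [0,1]`, compactness of
  `[0, r'] × {‖y‖ ≤ 1}`.
* `vanR_of_bound`: at interior points from `van_of_bigO` (`‖y‖ ≤ ‖z - (s,0)‖`); the point `s = 0` is
  treated by the hypothesis `FlatAt`.
-/

open scoped ContDiff Topology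

namespace LatLin.B

variable {F : Type*} [NormedAddCommGroup F] [NormedSpace ℝ F]

private theorem vr_ctd {E G : Type*} [NormedAddCommGroup E] [NormedSpace ℝ E]
    [NormedAddCommGroup G] [NormedSpace ℝ G] {f : E → G} (hf : ContDiff ℝ ∞ f) (j : ℕ) :
    ContDiff ℝ ∞ (iteratedFDeriv ℝ j f) := by
  rw [contDiff_infty]
  intro n
  exact ContDiff.iteratedFDeriv_right (i := j) (m := n) (n := ∞) hf (by
    exact_mod_cast (le_top : ((n + j : ℕ) : ℕ∞) ≤ ⊤))

private theorem vr_fd {E G : Type*} [NormedAddCommGroup E] [NormedSpace ℝ E]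
    [NormedAddCommGroup G] [NormedSpace ℝ G] {g : E → G} (hg : ContDiff ℝ ∞ g) (x v w : E) :
    fderiv ℝ (fun z => fderiv ℝ g z v) x w = fderiv ℝ (fderiv ℝ g) x v w := by
  have hd : ContDiff ℝ ∞ (fderiv ℝ g) := hg.fderiv_right (by simp)
  have h1 := fderiv_clm_apply (hd.differentiable (by simp) x) (differentiableAt_const v)
  rw [h1]
  have h2 : IsSymmSndFDerivAt ℝ g x :=
    (hg.contDiffAt (x := x)).isSymmSndFDerivAt (by
      rw [minSmoothness_of_isRCLikeNormedField]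
      exact WithTop.coe_le_coe.2 (le_top : (2 : ℕ∞) ≤ ⊤))
  rw [h2.eq]
  simp

private theorem vr_fd' {E G : Type*} [NormedAddCommGroup E] [NormedSpace ℝ E]
    [NormedAddCommGroup G] [NormedSpace ℝ G] {g : E → G} (hg : ContDiff ℝ ∞ g) (x v w : E) :
    fderiv ℝ (fun z => fderiv ℝ g z v) x w = fderiv ℝ (fderiv ℝ g) x w v := by
  have hd : ContDiff ℝ ∞ (fderiv ℝ g) := hg.fderiv_right (by simp)
  have h1 := fderiv_clm_apply (hd.differentiable (by simp) x) (differentiableAt_const v)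
  rw [h1]
  simp

private theorem vr_iter_dir {E : Type*} [NormedAddCommGroup E] [NormedSpace ℝ E] {f : E → ℝ}
    (hf : ContDiff ℝ ∞ f) (v : E) (j : ℕ) : ∀ x : E,
    iteratedFDeriv ℝ j (fun z => fderiv ℝ f z v) x = fderiv ℝ (iteratedFDeriv ℝ j f) x v := by
  induction j with
  | zero =>
    intro x
    ext m
    rw [iteratedFDeriv_zero_apply]
    have h1 : iteratedFDeriv ℝ 0 f =
        (continuousMultilinearCurryFin0 ℝ E ℝ).symm ∘ f := iteratedFDeriv_zero_eq_comp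
    rw [h1, LinearIsometryEquiv.comp_fderiv]
    rfl
  | succ j ih =>
    intro x
    ext m
    rw [iteratedFDeriv_succ_apply_left, funext ih, vr_fd (vr_ctd hf j)]
    have h1 := fderiv_continuousMultilinear_apply_const_apply
      (((vr_ctd hf (j + 1)).differentiable (by simp)) x) m v
    have h2 : (fun y => iteratedFDeriv ℝ (j + 1) f y m) =
        fun y => (fderiv ℝ (iteratedFDeriv ℝ j f) y (m 0)) (Fin.tail m) := by
      funext y
      exact iteratedFDeriv_succ_apply_left m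
    have h3 : DifferentiableAt ℝ (fun y => fderiv ℝ (iteratedFDeriv ℝ j f) y (m 0)) x := by
      have hd : ContDiff ℝ ∞ (fderiv ℝ (iteratedFDeriv ℝ j f)) :=
        (vr_ctd hf j).fderiv_right (by simp)
      exact (hd.differentiable (by simp) x).clm_apply (differentiableAt_const _)
    have h4 := fderiv_continuousMultilinear_apply_const_apply h3 (Fin.tail m) v
    rw [← h1, h2, h4, vr_fd' (vr_ctd hf j)]

theorem ds_vanR {k m : ℕ} {r : ℝ} {f : E0 k → ℝ} (hf : ContDiff ℝ ∞ f) (h : VanR m r f) :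
    VanR m r (ds f) := by
  intro s hs hsr j hj
  have h1 : iteratedFDeriv ℝ j (ds f) ((s, 0) : E0 k) =
      fderiv ℝ (iteratedFDeriv ℝ j f) ((s, 0) : E0 k) ((1, 0) : E0 k) :=
    vr_iter_dir hf _ j _
  rw [h1]
  have hd : DifferentiableAt ℝ (iteratedFDeriv ℝ j f) ((s, 0) : E0 k) :=
    (vr_ctd hf _).differentiable (by simp) _
  have hl : HasDerivAt (fun t : ℝ => ((t, 0) : E0 k)) ((1, 0) : E0 k) s :=
    (hasDerivAt_id s).prodMk (hasDerivAt_const s (0 : Fin k → ℝ))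
  have h2 : HasDerivAt (fun t : ℝ => iteratedFDeriv ℝ j f ((t, 0) : E0 k))
      (fderiv ℝ (iteratedFDeriv ℝ j f) ((s, 0) : E0 k) ((1, 0) : E0 k)) s :=
    HasFDerivAt.comp_hasDerivAt (x := s) (f := fun t : ℝ => ((t, 0) : E0 k)) hd.hasFDerivAt hl
  have h3 : HasDerivWithinAt (fun t : ℝ => iteratedFDeriv ℝ j f ((t, 0) : E0 k)) 0
      (Set.Ici s) s := by
    have h4 : HasDerivWithinAt (fun _ : ℝ => (0 : ContinuousMultilinearMap ℝ
        (fun _ : Fin j => E0 k) ℝ)) 0 (Set.Ici s) s := hasDerivWithinAt_const _ _ _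
    refine h4.congr_of_eventuallyEq ?_ ?_
    · have h5 : ∀ᶠ t in 𝓝[Set.Ici s] s, t < r :=
        nhdsWithin_le_nhds (Iio_mem_nhds hsr)
      filter_upwards [h5, self_mem_nhdsWithin] with t ht1 ht2
      exact h t (hs.trans ht2) ht1 j hj
    · exact h s hs hsr j hj
  exact (uniqueDiffWithinAt_Ici s).eq_deriv _ h2.hasDerivWithinAt h3

theorem ds_flat {k : ℕ} {f : E0 k → ℝ} (hf : ContDiff ℝ ∞ f) (h : FlatAt f 0) :
    FlatAt (ds f) 0 :=
  flatAt_iff.2 fun m => Van.dir hf (flatAt_iff.1 h (m + 1)) _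

private theorem vr_unif {k m : ℕ} {r r' : ℝ} (hr : r' < r) {f : E0 k → F} (hf : ContDiff ℝ ∞ f)
    (h : VanR m r f) (i : ℕ) (hi : i ≤ m) :
    ∃ C : ℝ, 0 ≤ C ∧ ∀ s : ℝ, 0 ≤ s → s ≤ r' → ∀ y : Fin k → ℝ, ‖y‖ ≤ 1 →
      ‖iteratedFDeriv ℝ (m - i) f ((s, y) : E0 k)‖ ≤ C * ‖y‖ ^ i := by
  induction i with
  | zero =>
    have hK : IsCompact (Set.Icc (0 : ℝ) r' ×ˢ Metric.closedBall (0 : Fin k → ℝ) 1) :=
      isCompact_Icc.prod (isCompact_closedBall _ _)
    have hc : Continuous (iteratedFDeriv ℝ (m - 0) f) :=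
      (vr_ctd hf _).continuous
    obtain ⟨C, hC⟩ := hK.exists_bound_of_continuousOn hc.continuousOn
    refine ⟨max C 0, le_max_right _ _, fun s h0 h1 y hy => ?_⟩
    rw [pow_zero, mul_one]
    exact (hC (s, y) ⟨⟨h0, h1⟩, by simpa using hy⟩).trans (le_max_left _ _)
  | succ i ih =>
    obtain ⟨C, hC0, hC⟩ := ih (by omega)
    refine ⟨C, hC0, fun s h0 h1 y hy => ?_⟩
    have hn : m - (i + 1) + 1 = m - i := by omega
    have hz : iteratedFDeriv ℝ (m - (i + 1)) f ((s, 0) : E0 k) = 0 :=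
      h s h0 (lt_of_le_of_lt h1 hr) _ (by omega)
    have hconv : Convex ℝ (({s} : Set ℝ) ×ˢ Metric.closedBall (0 : Fin k → ℝ) ‖y‖) :=
      (convex_singleton s).prod (convex_closedBall _ _)
    have h2 := hconv.norm_image_sub_le_of_norm_fderiv_le (𝕜 := ℝ)
      (f := iteratedFDeriv ℝ (m - (i + 1)) f) (C := C * ‖y‖ ^ i)
      (x := ((s, 0) : E0 k)) (y := ((s, y) : E0 k))
      (fun z _ => (vr_ctd hf _).differentiable (by simp) z)
      (fun z hz => ?_) (by simp) (by simp)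
    · rw [hz, sub_zero] at h2
      refine h2.trans (le_of_eq ?_)
      have h3 : ‖((s, y) : E0 k) - ((s, 0) : E0 k)‖ = ‖y‖ := by
        rw [Prod.mk_sub_mk, sub_self, sub_zero, Prod.norm_mk, norm_zero]
        exact max_eq_right (norm_nonneg _)
      rw [h3, pow_succ]
      ring
    · obtain ⟨a, b⟩ := z
      obtain ⟨ha, hb⟩ := hz
      have ha' : a = s := ha
      have hb' : ‖b‖ ≤ ‖y‖ := by simpa using hb
      rw [norm_fderiv_iteratedFDeriv, hn, ha']
      refine (hC s h0 h1 b (hb'.trans hy)).trans ?_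
      exact mul_le_mul_of_nonneg_left (pow_le_pow_left₀ (norm_nonneg _) hb' _) hC0

theorem VanR.unif {k m : ℕ} {r r' : ℝ} (hr : r' < r) {f : E0 k → F} (hf : ContDiff ℝ ∞ f)
    (h : VanR m r f) : ∃ C : ℝ, 0 ≤ C ∧ ∀ s : ℝ, 0 ≤ s → s ≤ r' → ∀ y : Fin k → ℝ, ‖y‖ ≤ 1 →
      ‖f (s, y)‖ ≤ C * ‖y‖ ^ m := by
  obtain ⟨C, hC0, hC⟩ := vr_unif hr hf h m le_rfl
  refine ⟨C, hC0, fun s h0 h1 y hy => ?_⟩
  have h2 := hC s h0 h1 y hy
  rw [Nat.sub_self, norm_iteratedFDeriv_zero] at h2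
  exact h2

theorem vanR_of_bound [CompleteSpace F] {k m : ℕ} {r : ℝ} {f : E0 k → F} (hf : ContDiff ℝ ∞ f)
    (h0 : FlatAt f 0)
    (h : ∀ s0 : ℝ, 0 < s0 → s0 < r → ∃ C δ : ℝ, 0 < δ ∧ ∀ s : ℝ, |s - s0| < δ →
      ∀ y : Fin k → ℝ, ‖y‖ < δ → ‖f (s, y)‖ ≤ C * ‖y‖ ^ m) : VanR m r f := by
  intro s hs hsr
  rcases hs.eq_or_lt with h1 | h1
  · have h2 : ((s, 0) : E0 k) = 0 := by
      rw [← h1]
      rfl
    rw [h2]
    exact flatAt_iff.1 h0 m
  · obtain ⟨C, δ, hδ, hC⟩ := h s h1 hsr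
    refine van_of_bigO hf |C| ?_
    filter_upwards [Metric.ball_mem_nhds ((s, 0) : E0 k) hδ] with z hz
    obtain ⟨a, y⟩ := z
    rw [Metric.mem_ball, Prod.dist_eq, max_lt_iff] at hz
    have h2 : |a - s| < δ := by
      have := hz.1
      rwa [Real.dist_eq] at this
    have h3 : ‖y‖ < δ := by
      have := hz.2
      rwa [dist_zero_right] at this
    refine (hC a h2 y h3).trans ?_
    have h4 : ‖y‖ ≤ ‖((a, y) : E0 k) - ((s, 0) : E0 k)‖ := by
      rw [Prod.mk_sub_mk, sub_zero, Prod.norm_mk]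
      exact le_max_right _ _
    have h5 : ‖y‖ ^ m ≤ ‖((a, y) : E0 k) - ((s, 0) : E0 k)‖ ^ m :=
      pow_le_pow_left₀ (norm_nonneg _) h4 _
    calc C * ‖y‖ ^ m ≤ |C| * ‖y‖ ^ m :=
          mul_le_mul_of_nonneg_right (le_abs_self C) (by positivity)
      _ ≤ |C| * ‖((a, y) : E0 k) - ((s, 0) : E0 k)‖ ^ m :=
          mul_le_mul_of_nonneg_left h5 (abs_nonneg C)

end LatLin.B
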