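import Pool.Agent.Lib.MP_2392aa_gt.B.WordDefs
import Pool.Agent.Lib.MP_2392aa_gt.B.VanRay

/-!
MODULE NearRayU. The same as `nearRay` (proof by helper95), but with a radius which does not depend
on the orders `m` and `N`. The private lemmas are copied from NearRay.lean.

PROOF. The estimate (1) of NearRay holds on the whole ball of radius `min (r0/2) 1`: for `z.1 ≥ 0` by
`VanR.unif`; for `z.1 < 0` near `0` by `Van.bigO`, and away from `0` by compactness. The induction needs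
only that `‖x.2‖` is small depending on `m`, `N`; if `‖x.2‖` is not small, only finitely many words occur
and the estimate is trivial.
-/

open scoped ContDiff Topology

namespace LatLin.B

private theorem nr_near {k : ℕ} {r0 : ℝ} (hr0 : 0 < r0) (N' : ℕ) (j : ℕ) :
    ∀ (G : Type) [NormedAddCommGroup G] [NormedSpace ℝ G] [CompleteSpace G] (f : E0 k → G),
      ContDiff ℝ ∞ f → (∀ s : ℝ, 0 ≤ s → s < r0 → FlatAt f ((s, 0) : E0 k)) →
      ∃ C : ℝ, 0 ≤ C ∧ ∀ z : E0 k, ‖z‖ < min (r0 / 2) 1 →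
        ‖iteratedFDeriv ℝ j f z‖ ≤ C * (max ‖z.2‖ (-z.1)) ^ N' := by
  induction j with
  | zero =>
    intro G _ _ _ f hf hflat
    have h0 : FlatAt f (0 : E0 k) := hflat 0 le_rfl hr0
    obtain ⟨C1, hC1⟩ := Van.bigO hf (flatAt_iff.1 h0 N')
    obtain ⟨ε, hε, hC1'⟩ := Metric.eventually_nhds_iff_ball.1 hC1
    have hR : VanR N' r0 f := fun s hs hsr => flatAt_iff.1 (hflat s hs hsr) N'
    obtain ⟨C2, hC20, hC2⟩ := VanR.unif (r' := r0 / 2) (by linarith) hf hR
    obtain ⟨B, hB⟩ := (isCompact_closedBall (0 : E0 k) 1).exists_bound_of_continuousOn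
      (f := f) hf.continuous.continuousOn
    have hB0 : 0 ≤ B := (norm_nonneg _).trans (hB 0 (Metric.mem_closedBall_self zero_le_one))
    refine ⟨max (max C1 C2) (B / ε ^ N'), le_max_of_le_left (le_max_of_le_right hC20), ?_⟩
    intro z hz2
    rw [norm_iteratedFDeriv_zero]
    rw [lt_min_iff] at hz2
    have hn1 : |z.1| ≤ ‖z‖ := norm_fst_le z
    have hn2 : ‖z.2‖ ≤ ‖z‖ := norm_snd_le z
    have hmx : 0 ≤ max ‖z.2‖ (-z.1) := le_max_of_le_left (norm_nonneg _)
    by_cases hz : 0 ≤ z.1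
    · have h1 := hC2 z.1 hz ((le_abs_self _).trans (hn1.trans hz2.1.le)) z.2
        (hn2.trans hz2.2.le)
      calc ‖f z‖ ≤ C2 * ‖z.2‖ ^ N' := h1
        _ ≤ C2 * (max ‖z.2‖ (-z.1)) ^ N' :=
          mul_le_mul_of_nonneg_left (pow_le_pow_left₀ (norm_nonneg _) (le_max_left _ _) _) hC20
        _ ≤ max (max C1 C2) (B / ε ^ N') * (max ‖z.2‖ (-z.1)) ^ N' :=
          mul_le_mul_of_nonneg_right ((le_max_right _ _).trans (le_max_left _ _))
            (pow_nonneg hmx _)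
    · have h2 : ‖z‖ ≤ max ‖z.2‖ (-z.1) := by
        rw [Prod.norm_def, max_comm]
        refine max_le_max le_rfl ?_
        rw [Real.norm_eq_abs, abs_of_neg (not_le.1 hz)]
      by_cases hze : ‖z‖ < ε
      · have hz1 := hC1' z (by rw [mem_ball_zero_iff]; exact hze)
        rw [sub_zero] at hz1
        calc ‖f z‖ ≤ C1 * ‖z‖ ^ N' := hz1
          _ ≤ max (max C1 C2) (B / ε ^ N') * ‖z‖ ^ N' :=
            mul_le_mul_of_nonneg_right ((le_max_left _ _).trans (le_max_left _ _))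
              (pow_nonneg (norm_nonneg _) _)
          _ ≤ max (max C1 C2) (B / ε ^ N') * (max ‖z.2‖ (-z.1)) ^ N' :=
            mul_le_mul_of_nonneg_left (pow_le_pow_left₀ (norm_nonneg _) h2 _)
              (le_max_of_le_left (le_max_of_le_right hC20))
      · push Not at hze
        have h3 : ε ^ N' ≤ (max ‖z.2‖ (-z.1)) ^ N' := pow_le_pow_left₀ hε.le (hze.trans h2) _
        have h4 : ‖f z‖ ≤ B := hB z (by rw [mem_closedBall_zero_iff]; exact hz2.2.le)
        calc ‖f z‖ ≤ B := h4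
          _ = B / ε ^ N' * ε ^ N' := by
            rw [div_mul_cancel₀ _ (pow_pos hε _).ne']
          _ ≤ B / ε ^ N' * (max ‖z.2‖ (-z.1)) ^ N' :=
            mul_le_mul_of_nonneg_left h3 (by positivity)
          _ ≤ max (max C1 C2) (B / ε ^ N') * (max ‖z.2‖ (-z.1)) ^ N' :=
            mul_le_mul_of_nonneg_right (le_max_right _ _) (pow_nonneg hmx _)
  | succ j ih =>
    intro G _ _ _ f hf hflat
    obtain ⟨C, hC0, hC⟩ := ih (E0 k →L[ℝ] G) (fderiv ℝ f) (hf.fderiv_right (by simp))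
      (fun s hs hsr => flatAt_iff.2 fun m => Van.der (flatAt_iff.1 (hflat s hs hsr) (m + 1)))
    refine ⟨C, hC0, fun z hz => ?_⟩
    have h := hC z hz
    rwa [norm_iteratedFDeriv_fderiv] at h

/-- the sign of a letter -/
private def nrSg {k : ℕ} (p : Fin k × Bool) : ℝ := if p.2 then 1 else -1

private theorem nrSg_abs {k : ℕ} (p : Fin k × Bool) : |nrSg p| = 1 := by
  unfold nrSg
  split_ifs <;> simp

/-- the linear map of a letter -/
private noncomputable def nrC {k : ℕ} (p : Fin k × Bool) : E0 k →L[ℝ] E0 k :=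
  ((ContinuousLinearMap.fst ℝ ℝ (Fin k → ℝ)) +
    nrSg p • ((ContinuousLinearMap.proj (R := ℝ) (φ := fun _ : Fin k => ℝ) p.1).comp
      (ContinuousLinearMap.snd ℝ ℝ (Fin k → ℝ)))).prod (ContinuousLinearMap.snd ℝ ℝ (Fin k → ℝ))

private theorem nrC_apply {k : ℕ} (p : Fin k × Bool) (x : E0 k) :
    nrC p x = (x.1 + nrSg p * x.2 p.1, x.2) := rfl

private theorem nrC_tauB {k : ℕ} (p : Fin k × Bool) (x : E0 k) : tauB p x = nrC p x := rfl

/-- the linear map of a word -/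
private noncomputable def nrW {k : ℕ} : List (Fin k × Bool) → E0 k →L[ℝ] E0 k
  | [] => ContinuousLinearMap.id ℝ (E0 k)
  | (p :: l) => (nrC p).comp (nrW l)

private theorem nrW_eq {k : ℕ} (l : List (Fin k × Bool)) (x : E0 k) :
    wordMap tauB l x = nrW l x := by
  induction l with
  | nil => rfl
  | cons p l ih =>
    rw [wordMap, ih, nrC_tauB]
    rfl

private theorem nrW_snd {k : ℕ} (l : List (Fin k × Bool)) (x : E0 k) : (nrW l x).2 = x.2 := by
  induction l with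
  | nil => rfl
  | cons p l ih => exact ih

private theorem nrW_fst {k : ℕ} (l : List (Fin k × Bool)) (x : E0 k) :
    |(nrW l x).1| ≤ |x.1| + l.length * ‖x.2‖ := by
  induction l with
  | nil => simp [nrW]
  | cons p l ih =>
    have h1 : (nrW (p :: l) x).1 = (nrW l x).1 + nrSg p * x.2 p.1 := by
      have h2 : nrW (p :: l) x = nrC p (nrW l x) := rfl
      rw [h2, nrC_apply, nrW_snd]
    rw [h1]
    have h3 : |nrSg p * x.2 p.1| ≤ ‖x.2‖ := by
      rw [abs_mul, nrSg_abs, one_mul]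
      exact norm_le_pi_norm x.2 p.1
    have h4 := abs_add_le (nrW l x).1 (nrSg p * x.2 p.1)
    rw [List.length_cons, Nat.cast_add, Nat.cast_one, add_mul, one_mul]
    linarith

private theorem nrW_norm {k : ℕ} (l : List (Fin k × Bool)) : ‖nrW l‖ ≤ 1 + l.length := by
  refine ContinuousLinearMap.opNorm_le_bound _ (by positivity) fun x => ?_
  have h1 := nrW_fst l x
  have h2 : |x.1| ≤ ‖x‖ := norm_fst_le x
  have h3 : ‖x.2‖ ≤ ‖x‖ := norm_snd_le x
  rw [Prod.norm_def, nrW_snd]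
  have h4 : (l.length : ℝ) * ‖x.2‖ ≤ l.length * ‖x‖ :=
    mul_le_mul_of_nonneg_left h3 (Nat.cast_nonneg _)
  have h5 : 0 ≤ (l.length : ℝ) * ‖x‖ := by positivity
  refine max_le ?_ ?_
  · rw [Real.norm_eq_abs]
    rw [add_mul, one_mul]
    linarith
  · rw [add_mul, one_mul]
    linarith

private theorem nr_clm {E G : Type*} [NormedAddCommGroup E] [NormedSpace ℝ E]
    [NormedAddCommGroup G] [NormedSpace ℝ G] (A : E →L[ℝ] G) (x : E) (i : ℕ) (hi : 1 ≤ i) :
    ‖iteratedFDeriv ℝ i (fun z => A z) x‖ ≤ ‖A‖ := by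
  obtain ⟨n, rfl⟩ : ∃ n, i = n + 1 := ⟨i - 1, by omega⟩
  rw [← norm_iteratedFDeriv_fderiv]
  have h1 : fderiv ℝ (fun z => A z) = fun _ => A := by
    funext z
    exact A.fderiv
  rw [h1]
  rcases Nat.eq_zero_or_pos n with rfl | hn
  · rw [norm_iteratedFDeriv_zero]
  · rw [iteratedFDeriv_const_of_ne (by omega)]
    simp

private theorem nat_le_inf (j : ℕ) : ((j : ℕ) : WithTop ℕ∞) ≤ ∞ := by
  exact_mod_cast le_top

private theorem nr_add {E G : Type*} [NormedAddCommGroup E] [NormedSpace ℝ E]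
    [NormedAddCommGroup G] [NormedSpace ℝ G] {f g : E → G} (hf : ContDiff ℝ ∞ f)
    (hg : ContDiff ℝ ∞ g) (x : E) (j : ℕ) :
    ‖iteratedFDeriv ℝ j (fun z => f z + g z) x‖ ≤
      ‖iteratedFDeriv ℝ j f x‖ + ‖iteratedFDeriv ℝ j g x‖ := by
  have h1 := fun_iteratedFDeriv_add_apply (x := x) (hf.of_le (nat_le_inf j)).contDiffAt
    (hg.of_le (nat_le_inf j)).contDiffAt
  rw [h1]
  exact norm_add_le _ _

private theorem nr_left {E G H : Type*} [NormedAddCommGroup E] [NormedSpace ℝ E]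
    [NormedAddCommGroup G] [NormedSpace ℝ G] [NormedAddCommGroup H] [NormedSpace ℝ H]
    (A : G →L[ℝ] H) (c : ℝ) (hA : ∀ z, ‖A z‖ ≤ c * ‖z‖) (hc : 0 ≤ c) {f : E → G}
    (hf : ContDiff ℝ ∞ f) (x : E) (j : ℕ) :
    ‖iteratedFDeriv ℝ j (fun z => A (f z)) x‖ ≤ c * ‖iteratedFDeriv ℝ j f x‖ := by
  have h1 := A.norm_iteratedFDeriv_comp_left (x := x) (hf.contDiffAt) (nat_le_inf j)
  refine h1.trans (mul_le_mul_of_nonneg_right ?_ (norm_nonneg _))
  exact A.opNorm_le_bound hc hA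

private theorem nr_smooth {k : ℕ} {F : Fin k × Bool → E0 k → E0 k}
    (hF : ∀ p, ContDiff ℝ ∞ (F p)) (l : List (Fin k × Bool)) :
    ContDiff ℝ ∞ (fun z => wordMap F l z) := by
  induction l with
  | nil => exact contDiff_id
  | cons p l ih => exact (hF p).comp ih

private theorem nr_smoothE {k : ℕ} {F : Fin k × Bool → E0 k → E0 k}
    (hF : ∀ p, ContDiff ℝ ∞ (F p)) (l : List (Fin k × Bool)) :
    ContDiff ℝ ∞ (fun z => wordMap F l z - wordMap tauB l z) := by
  have h1 : (fun z => wordMap F l z - wordMap tauB l z) = fun z => wordMap F l z - nrW l z :=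
    funext fun z => by rw [nrW_eq l z]
  rw [h1]
  exact (nr_smooth hF l).sub (nrW l).contDiff

/-- the norm of the derivatives of a map with values in the product -/
private theorem nr_prod {k : ℕ} {f : E0 k → E0 k} (hf : ContDiff ℝ ∞ f) (x : E0 k) (j : ℕ) :
    ‖iteratedFDeriv ℝ j f x‖ ≤ ‖iteratedFDeriv ℝ j (fun z => (f z).1) x‖ +
      ‖iteratedFDeriv ℝ j (fun z => (f z).2) x‖ := by
  have h1 : f = fun z => (ContinuousLinearMap.inl ℝ ℝ (Fin k → ℝ)) ((f z).1) +
      (ContinuousLinearMap.inr ℝ ℝ (Fin k → ℝ)) ((f z).2) := by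
    funext z
    simp
  have hf1 : ContDiff ℝ ∞ (fun z => (f z).1) := contDiff_fst.comp hf
  have hf2 : ContDiff ℝ ∞ (fun z => (f z).2) := contDiff_snd.comp hf
  have h2 := nr_add (f := fun z => (ContinuousLinearMap.inl ℝ ℝ (Fin k → ℝ)) ((f z).1))
    (g := fun z => (ContinuousLinearMap.inr ℝ ℝ (Fin k → ℝ)) ((f z).2))
    ((ContinuousLinearMap.inl ℝ ℝ (Fin k → ℝ)).contDiff.comp hf1)
    ((ContinuousLinearMap.inr ℝ ℝ (Fin k → ℝ)).contDiff.comp hf2) x j
  rw [← h1] at h2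
  have h3 := nr_left (ContinuousLinearMap.inl ℝ ℝ (Fin k → ℝ)) 1 (fun z => by simp) zero_le_one
    hf1 x j
  have h4 := nr_left (ContinuousLinearMap.inr ℝ ℝ (Fin k → ℝ)) 1 (fun z => by simp) zero_le_one
    hf2 x j
  linarith

private theorem nr_ind {k : ℕ} (F : Fin k × Bool → E0 k → E0 k)
    (hF : ∀ p, ContDiff ℝ ∞ (F p)) (m : ℕ) (C0 c r1 L η : ℝ) (hC0 : 1 ≤ C0) (hc : 0 ≤ c)
    (hη0 : 0 ≤ η) (x : E0 k) (hL0 : 0 ≤ L)
    (hloc : ∀ p, ∀ i ≤ m, ∀ z : E0 k, ‖z‖ < r1 → max ‖z.2‖ (-z.1) ≤ (C0 + 1) * ‖x.2‖ →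
      ‖iteratedFDeriv ℝ i (fun w => F p w - tauB p w) z‖ ≤ c)
    (hη : (m.factorial : ℝ) * c * (L + 2) ^ m ≤ η)
    (hη1 : (L + L ^ 2) * η ≤ ‖x.2‖) (hx1 : ‖x.2‖ ≤ 1) (hxr : (C0 + 1) * ‖x‖ < r1)
    (l : List (Fin k × Bool)) (hlen : (l.length : ℝ) ≤ L)
    (hs : ∀ l', l' <:+ l → -(C0 * ‖x.2‖) ≤ (wordMap tauB l' x).1 ∧
        (wordMap tauB l' x).1 ≤ C0 * ‖x‖) :
    ∀ j ≤ m,
      ‖iteratedFDeriv ℝ j (fun z => (wordMap F l z - wordMap tauB l z).1) x‖
        ≤ (l.length : ℝ) ^ 2 * η ∧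
      ‖iteratedFDeriv ℝ j (fun z => (wordMap F l z - wordMap tauB l z).2) x‖
        ≤ (l.length : ℝ) * η := by
  induction l with
  | nil =>
    intro j _
    have h1 : (fun z : E0 k => (wordMap F [] z - wordMap tauB [] z).1) = fun _ => (0 : ℝ) := by
      funext z
      simp [wordMap]
    have h2 : (fun z : E0 k => (wordMap F [] z - wordMap tauB [] z).2) =
        fun _ => (0 : Fin k → ℝ) := by
      funext z
      simp [wordMap]
    rw [h1, h2, iteratedFDeriv_fun_zero, iteratedFDeriv_fun_zero]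
    simp
  | cons p l ih =>
    intro j hj
    have hlen1 : (l.length : ℝ) ≤ L := by
      rw [List.length_cons, Nat.cast_add, Nat.cast_one] at hlen
      linarith
    have ihl := ih hlen1 (fun l' hl' => hs l' (hl'.trans (List.suffix_cons p l)))
    have ht0 : (0 : ℝ) ≤ (l.length : ℝ) := Nat.cast_nonneg _
    -- the error of the suffix
    set E : E0 k → E0 k := fun z => wordMap F l z - wordMap tauB l z with hE
    have hEs : ContDiff ℝ ∞ E := nr_smoothE hF l
    have hE1s : ContDiff ℝ ∞ (fun z => (E z).1) := contDiff_fst.comp hEs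
    have hE2s : ContDiff ℝ ∞ (fun z => (E z).2) := contDiff_snd.comp hEs
    have hZs : ContDiff ℝ ∞ (fun z => wordMap F l z) := nr_smooth hF l
    have htt : ((l.length : ℝ) ^ 2 + l.length) * η ≤ ‖x.2‖ := by
      refine le_trans (mul_le_mul_of_nonneg_right ?_ hη0) hη1
      have := pow_le_pow_left₀ ht0 hlen1 2
      linarith
    have hEj : ∀ i ≤ m, ‖iteratedFDeriv ℝ i E x‖ ≤ ‖x.2‖ := by
      intro i hi
      have h1 := nr_prod hEs x i
      have h2 := ihl i hi
      have h3 := h2.1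
      have h4 := h2.2
      have h5 : ((l.length : ℝ) ^ 2 + l.length) * η =
        (l.length : ℝ) ^ 2 * η + (l.length : ℝ) * η := by ring
      linarith
    have hZ : (fun z => wordMap F l z) = fun z => E z + nrW l z := by
      funext z
      rw [← nrW_eq]
      simp [hE]
    -- the derivatives of the suffix
    have hZj : ∀ i, 1 ≤ i → i ≤ m →
        ‖iteratedFDeriv ℝ i (fun z => wordMap F l z) x‖ ≤ (L + 2) ^ i := by
      intro i hi1 hi
      rw [hZ]
      have h1 := nr_add hEs (nrW l).contDiff x i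
      have h2 := nr_clm (nrW l) x i hi1
      have h3 := nrW_norm l
      have h4 := hEj i hi
      have h5 : (1 : ℝ) ≤ L + 2 := by linarith
      have h6 : L + 2 ≤ (L + 2) ^ i := by
        calc L + 2 = (L + 2) ^ 1 := (pow_one _).symm
          _ ≤ (L + 2) ^ i := pow_le_pow_right₀ h5 hi1
      have h7 : ‖iteratedFDeriv ℝ i (fun z => nrW l z) x‖ =
        ‖iteratedFDeriv ℝ i (⇑(nrW l)) x‖ := rfl
      linarith
    -- the position of the image
    have hsl := hs l (List.suffix_cons p l)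
    rw [nrW_eq] at hsl
    have hxx : ‖x.2‖ ≤ ‖x‖ := norm_snd_le x
    have hE0 : ‖E x‖ ≤ ‖x.2‖ := by
      have := hEj 0 (Nat.zero_le _)
      rwa [norm_iteratedFDeriv_zero] at this
    have hE01 : |(E x).1| ≤ ‖x.2‖ := (norm_fst_le (E x)).trans hE0
    have hE02 : ‖(E x).2‖ ≤ ‖x.2‖ := (norm_snd_le (E x)).trans hE0
    have hZx : wordMap F l x = E x + nrW l x := congrFun hZ x
    have hy0 : 0 ≤ ‖x.2‖ := norm_nonneg _
    have hx0 : 0 ≤ ‖x‖ := norm_nonneg _
    have hd : max ‖(wordMap F l x).2‖ (-(wordMap F l x).1) ≤ (C0 + 1) * ‖x.2‖ := by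
      rw [hZx, Prod.snd_add, Prod.fst_add, nrW_snd]
      refine max_le ?_ ?_
      · have h1 := norm_add_le (E x).2 x.2
        nlinarith
      · have h1 := (abs_le.1 hE01).1
        nlinarith [hsl.1]
    have hn : ‖wordMap F l x‖ < r1 := by
      refine lt_of_le_of_lt ?_ hxr
      rw [hZx]
      have h1 := norm_add_le (E x) (nrW l x)
      have h2 : ‖nrW l x‖ ≤ C0 * ‖x‖ := by
        rw [Prod.norm_def, nrW_snd]
        refine max_le ?_ ?_
        · rw [Real.norm_eq_abs, abs_le]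
          refine ⟨?_, hsl.2⟩
          have := hsl.1
          nlinarith
        · nlinarith
      nlinarith
    -- the new error
    have hδs : ContDiff ℝ ∞ (fun w => F p w - tauB p w) := (hF p).sub (nrC p).contDiff
    have hcomp : ‖iteratedFDeriv ℝ j (fun z => F p (wordMap F l z) - tauB p (wordMap F l z)) x‖
        ≤ η := by
      have h1 := norm_iteratedFDeriv_comp_le (g := fun w => F p w - tauB p w)
        (f := fun z => wordMap F l z) (n := j) (C := c) (D := L + 2) hδs hZs (nat_le_inf j) x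
        (fun i hi => hloc p i (hi.trans hj) _ hn hd) (fun i hi1 hi => hZj i hi1 (hi.trans hj))
      refine le_trans h1 (le_trans ?_ hη)
      have h2 : (1 : ℝ) ≤ L + 2 := by linarith
      have h3 : (j.factorial : ℝ) ≤ m.factorial := by exact_mod_cast Nat.factorial_le hj
      have h4 : (L + 2) ^ j ≤ (L + 2) ^ m := pow_le_pow_right₀ h2 hj
      exact mul_le_mul (mul_le_mul_of_nonneg_right h3 hc) h4 (by positivity) (by positivity)
    have hΔs : ContDiff ℝ ∞ (fun z => F p (wordMap F l z) - tauB p (wordMap F l z)) :=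
      hδs.comp hZs
    set Δ : E0 k → E0 k := fun z => F p (wordMap F l z) - tauB p (wordMap F l z) with hΔ
    have hΔ1s : ContDiff ℝ ∞ (fun z => (Δ z).1) := contDiff_fst.comp hΔs
    have hΔ2s : ContDiff ℝ ∞ (fun z => (Δ z).2) := contDiff_snd.comp hΔs
    have hΔ1 : ‖iteratedFDeriv ℝ j (fun z => (Δ z).1) x‖ ≤ η := by
      have h1 := nr_left (ContinuousLinearMap.fst ℝ ℝ (Fin k → ℝ)) 1
        (fun z => by rw [one_mul]; exact norm_fst_le z) zero_le_one hΔs x j
      rw [one_mul] at h1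
      exact h1.trans hcomp
    have hΔ2 : ‖iteratedFDeriv ℝ j (fun z => (Δ z).2) x‖ ≤ η := by
      have h1 := nr_left (ContinuousLinearMap.snd ℝ ℝ (Fin k → ℝ)) 1
        (fun z => by rw [one_mul]; exact norm_snd_le z) zero_le_one hΔs x j
      rw [one_mul] at h1
      exact h1.trans hcomp
    have hsplit : ∀ z, wordMap F (p :: l) z - wordMap tauB (p :: l) z =
        Δ z + nrC p (E z) := by
      intro z
      have h1 : wordMap F (p :: l) z = F p (wordMap F l z) := rfl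
      have h2 : wordMap tauB (p :: l) z = nrC p (wordMap tauB l z) := rfl
      have h3 : tauB p (wordMap F l z) = nrC p (wordMap F l z) := rfl
      simp only [h1, h2, hΔ, hE, h3, map_sub]
      abel
    have hf2 : (fun z => (wordMap F (p :: l) z - wordMap tauB (p :: l) z).2) =
        fun z => (Δ z).2 + (E z).2 := by
      funext z
      rw [hsplit]
      rfl
    have hf1 : (fun z => (wordMap F (p :: l) z - wordMap tauB (p :: l) z).1) =
        fun z => (Δ z).1 + ((E z).1 +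
          (nrSg p • (ContinuousLinearMap.proj (R := ℝ) (φ := fun _ : Fin k => ℝ) p.1))
            ((E z).2)) := by
      funext z
      rw [hsplit]
      rfl
    have hproj : ContDiff ℝ ∞ (fun z =>
        (nrSg p • (ContinuousLinearMap.proj (R := ℝ) (φ := fun _ : Fin k => ℝ) p.1))
            ((E z).2)) := (ContinuousLinearMap.contDiff _).comp hE2s
    obtain ⟨ih1, ih2⟩ := ihl j hj
    constructor
    · rw [hf1]
      have h1 := nr_add hΔ1s (hE1s.add hproj) x j
      have h2 := nr_add hE1s hproj x j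
      have h3 := nr_left
        (nrSg p • (ContinuousLinearMap.proj (R := ℝ) (φ := fun _ : Fin k => ℝ) p.1)) 1
        (fun z => by
          rw [smul_apply, norm_smul, Real.norm_eq_abs, nrSg_abs]
          exact mul_le_mul_of_nonneg_left (norm_le_pi_norm z p.1) zero_le_one) zero_le_one
        hE2s x j
      rw [one_mul] at h3
      have h4 : ((p :: l).length : ℝ) = (l.length : ℝ) + 1 := by
        rw [List.length_cons, Nat.cast_add, Nat.cast_one]
      rw [h4]
      have h5 : ((l.length : ℝ) + 1) ^ 2 * η =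
        (l.length : ℝ) ^ 2 * η + 2 * ((l.length : ℝ) * η) + η := by ring
      have h6 : 0 ≤ (l.length : ℝ) * η := mul_nonneg ht0 hη0
      rw [h5]
      linarith
    · rw [hf2]
      have h1 := nr_add hΔ2s hE2s x j
      have h4 : ((p :: l).length : ℝ) = (l.length : ℝ) + 1 := by
        rw [List.length_cons, Nat.cast_add, Nat.cast_one]
      rw [h4, add_mul, one_mul]
      linarith

theorem nearRay_unif {k : ℕ} {r0 : ℝ} (hr0 : 0 < r0) (F : Fin k × Bool → E0 k → E0 k)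
    (hF : ∀ p, ContDiff ℝ ∞ (F p))
    (hflat : ∀ p, ∀ s : ℝ, 0 ≤ s → s < r0 → FlatAt (fun x => F p x - tauB p x) ((s, 0) : E0 k))
    (C0 : ℝ) (hC0 : 1 ≤ C0) :
    ∃ r : ℝ, 0 < r ∧ ∀ m N : ℕ, ∃ C : ℝ, 0 ≤ C ∧
      ∀ (l : List (Fin k × Bool)) (x : E0 k), x.2 ≠ 0 → ‖x‖ < r →
      (l.length : ℝ) * ‖x.2‖ ≤ C0 * ‖x‖ →
      (∀ l', l' <:+ l → -(C0 * ‖x.2‖) ≤ (wordMap tauB l' x).1 ∧
        (wordMap tauB l' x).1 ≤ C0 * ‖x‖) →
      ∀ j ≤ m, ‖iteratedFDeriv ℝ j (fun z => wordMap F l z - wordMap tauB l z) x‖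
        ≤ C * ‖x.2‖ ^ N := by
  have hδs : ∀ p, ContDiff ℝ ∞ (fun w => F p w - tauB p w) :=
    fun p => (hF p).sub (nrC p).contDiff
  have hC00 : 0 < C0 := by linarith
  set r1 : ℝ := min (r0 / 2) 1 with hr1def
  have hr1 : 0 < r1 := lt_min (by linarith) one_pos
  refine ⟨min (min 1 (1 / C0)) (r1 / (C0 + 1)), ?_, ?_⟩
  · have h1 : 0 < 1 / C0 := by positivity
    have h3 : 0 < r1 / (C0 + 1) := by positivity
    exact lt_min (lt_min one_pos h1) h3
  intro m N
  have hA : ∀ p : Fin k × Bool, ∀ i : ℕ, ∃ C : ℝ, 0 ≤ C ∧ ∀ z : E0 k, ‖z‖ < r1 →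
      ‖iteratedFDeriv ℝ i (fun w => F p w - tauB p w) z‖ ≤
        C * (max ‖z.2‖ (-z.1)) ^ (N + m + 4) :=
    fun p i => nr_near hr0 (N + m + 4) i (E0 k) _ (hδs p) (hflat p)
  choose Cf hCf0 hCf using hA
  set C1 : ℝ := ∑ p : Fin k × Bool, ∑ i ∈ Finset.range (m + 1), Cf p i with hC1
  have hC10 : 0 ≤ C1 := Finset.sum_nonneg fun p _ => Finset.sum_nonneg fun i _ => hCf0 p i
  have hC1le : ∀ p, ∀ i ≤ m, Cf p i ≤ C1 := by
    intro p i hi
    have h1 : Cf p i ≤ ∑ i ∈ Finset.range (m + 1), Cf p i :=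
      Finset.single_le_sum (f := fun i => Cf p i) (fun i _ => hCf0 p i)
        (Finset.mem_range.2 (Nat.lt_succ_of_le hi))
    have h2 : ∑ i ∈ Finset.range (m + 1), Cf p i ≤ C1 :=
      Finset.single_le_sum (f := fun p => ∑ i ∈ Finset.range (m + 1), Cf p i)
        (fun p _ => Finset.sum_nonneg fun i _ => hCf0 p i) (Finset.mem_univ p)
    exact h1.trans h2
  set A : ℝ := (m.factorial : ℝ) * (C1 * (C0 + 1) ^ (N + m + 4)) * 3 ^ m with hAdef
  have hA0 : 0 ≤ A := by positivity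
  -- finitely many words
  obtain ⟨Lm, hLm⟩ := exists_nat_ge (2 * A + 1)
  have hfin : {l : List (Fin k × Bool) | l.length ≤ Lm}.Finite := List.finite_length_le _ _
  have hbd : ∀ l : List (Fin k × Bool), ∀ j : ℕ, ∃ B : ℝ, 0 ≤ B ∧ ∀ x : E0 k, ‖x‖ ≤ 1 →
      ‖iteratedFDeriv ℝ j (fun z => wordMap F l z - wordMap tauB l z) x‖ ≤ B := by
    intro l j
    obtain ⟨B, hB⟩ := (isCompact_closedBall (0 : E0 k) 1).exists_bound_of_continuousOn
      (f := iteratedFDeriv ℝ j (fun z => wordMap F l z - wordMap tauB l z))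
      ((nr_smoothE hF l).continuous_iteratedFDeriv (nat_le_inf j)).continuousOn
    have hB0 : 0 ≤ B := (norm_nonneg _).trans (hB 0 (Metric.mem_closedBall_self zero_le_one))
    exact ⟨B, hB0, fun x hx => hB x (by rw [mem_closedBall_zero_iff]; exact hx)⟩
  choose Bf hBf0 hBf using hbd
  set B : ℝ := ∑ l ∈ hfin.toFinset, ∑ j ∈ Finset.range (m + 1), Bf l j with hBdef
  have hB0 : 0 ≤ B := Finset.sum_nonneg fun l _ => Finset.sum_nonneg fun j _ => hBf0 l j
  refine ⟨2 * A + B * (2 * A + 1) ^ N, by positivity, ?_⟩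
  intro l x hx0 hx hlen hs j hj
  rw [lt_min_iff, lt_min_iff] at hx
  obtain ⟨⟨hx1, hx2⟩, hx4⟩ := hx
  have hyx : ‖x.2‖ ≤ ‖x‖ := norm_snd_le x
  have hy0 : 0 < ‖x.2‖ := norm_pos_iff.2 hx0
  have hx2' : C0 * ‖x‖ ≤ 1 := by
    rw [lt_div_iff₀ hC00] at hx2
    linarith
  have hx4' : (C0 + 1) * ‖x‖ < r1 := by
    rw [lt_div_iff₀ (by positivity)] at hx4
    linarith
  by_cases hx3' : (2 * A + 1) * ‖x.2‖ ≤ 1
  swap
  · push Not at hx3'
    have hl : l.length ≤ Lm := by
      have h1 : (l.length : ℝ) * ‖x.2‖ ≤ 1 := hlen.trans hx2'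
      have h2 : (l.length : ℝ) ≤ 2 * A + 1 := by
        by_contra hh
        push Not at hh
        have := mul_lt_mul_of_pos_right hh hy0
        linarith
      exact_mod_cast h2.trans hLm
    have h1 : Bf l j ≤ B := by
      have h2 : Bf l j ≤ ∑ j ∈ Finset.range (m + 1), Bf l j :=
        Finset.single_le_sum (f := fun j => Bf l j) (fun j _ => hBf0 l j)
          (Finset.mem_range.2 (Nat.lt_succ_of_le hj))
      have h3 : ∑ j ∈ Finset.range (m + 1), Bf l j ≤ B :=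
        Finset.single_le_sum (f := fun l => ∑ j ∈ Finset.range (m + 1), Bf l j)
          (fun l _ => Finset.sum_nonneg fun j _ => hBf0 l j) (hfin.mem_toFinset.2 hl)
      exact h2.trans h3
    have h2 : (1 : ℝ) ≤ ((2 * A + 1) * ‖x.2‖) ^ N := one_le_pow₀ hx3'.le
    have h3 : B ≤ B * ((2 * A + 1) * ‖x.2‖) ^ N := le_mul_of_one_le_right hB0 h2
    have h4 : B * ((2 * A + 1) * ‖x.2‖) ^ N = B * (2 * A + 1) ^ N * ‖x.2‖ ^ N := by
      rw [mul_pow]
      ring
    have h5 : 0 ≤ 2 * A * ‖x.2‖ ^ N := by positivity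
    have h6 := hBf l j x hx1.le
    calc _ ≤ Bf l j := h6
      _ ≤ B := h1
      _ ≤ B * (2 * A + 1) ^ N * ‖x.2‖ ^ N := by rw [← h4]; exact h3
      _ ≤ (2 * A + B * (2 * A + 1) ^ N) * ‖x.2‖ ^ N := by
          rw [add_mul]
          linarith
  set L : ℝ := (l.length : ℝ) with hLdef
  have hL0 : 0 ≤ L := Nat.cast_nonneg _
  have hLy : L * ‖x.2‖ ≤ 1 := hlen.trans hx2'
  set c : ℝ := C1 * ((C0 + 1) * ‖x.2‖) ^ (N + m + 4) with hc
  have hc0 : 0 ≤ c := by positivity
  set η : ℝ := (m.factorial : ℝ) * c * (L + 2) ^ m with hη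
  have hη0 : 0 ≤ η := by positivity
  have hηA : η ≤ A * ‖x.2‖ ^ (N + 4) := by
    have h1 : η = (m.factorial : ℝ) * (C1 * (C0 + 1) ^ (N + m + 4)) *
        ((L + 2) * ‖x.2‖) ^ m * ‖x.2‖ ^ (N + 4) := by
      rw [hη, hc, mul_pow, mul_pow]
      ring
    rw [h1, hAdef]
    have h2 : (L + 2) * ‖x.2‖ ≤ 3 := by
      rw [add_mul]
      linarith
    have h3 : ((L + 2) * ‖x.2‖) ^ m ≤ 3 ^ m := pow_le_pow_left₀ (by positivity) h2 m
    exact mul_le_mul_of_nonneg_right (mul_le_mul_of_nonneg_left h3 (by positivity))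
      (by positivity)
  have hkey : (L + L ^ 2) * η ≤ 2 * A * ‖x.2‖ ^ (N + 2) := by
    have h1 : (L + L ^ 2) * η ≤ (L + L ^ 2) * (A * ‖x.2‖ ^ (N + 4)) :=
      mul_le_mul_of_nonneg_left hηA (by positivity)
    have h2 : (L + L ^ 2) * (A * ‖x.2‖ ^ (N + 4)) =
        (L * ‖x.2‖ * ‖x.2‖ + (L * ‖x.2‖) ^ 2) * (A * ‖x.2‖ ^ (N + 2)) := by
      ring
    have h3 : L * ‖x.2‖ * ‖x.2‖ ≤ 1 := by
      have : 0 ≤ L * ‖x.2‖ := by positivity
      nlinarith
    have h4 : (L * ‖x.2‖) ^ 2 ≤ 1 := by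
      have : 0 ≤ L * ‖x.2‖ := by positivity
      nlinarith
    have h5 : (L * ‖x.2‖ * ‖x.2‖ + (L * ‖x.2‖) ^ 2) * (A * ‖x.2‖ ^ (N + 2)) ≤
        2 * (A * ‖x.2‖ ^ (N + 2)) :=
      mul_le_mul_of_nonneg_right (by linarith) (by positivity)
    linarith
  have hyN : ‖x.2‖ ^ (N + 2) ≤ ‖x.2‖ ^ N :=
    pow_le_pow_of_le_one hy0.le (by linarith) (by omega)
  have hy2 : ‖x.2‖ ^ (N + 2) ≤ ‖x.2‖ ^ 2 :=
    pow_le_pow_of_le_one hy0.le (by linarith) (by omega)
  have hη1 : (L + L ^ 2) * η ≤ ‖x.2‖ := by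
    refine hkey.trans ?_
    have h1 : 2 * A * ‖x.2‖ ^ (N + 2) ≤ 2 * A * ‖x.2‖ ^ 2 :=
      mul_le_mul_of_nonneg_left hy2 (by positivity)
    have h3 : 2 * A * ‖x.2‖ ^ 2 ≤ ‖x.2‖ := by
      nlinarith
    linarith
  have hmain := nr_ind F hF m C0 c r1 L η hC0 hc0 hη0 x hL0 (fun p i hi z hz hd => by
      have h1 := hCf p i z hz
      refine h1.trans ?_
      have h0 : 0 ≤ max ‖z.2‖ (-z.1) := le_max_of_le_left (norm_nonneg _)
      exact mul_le_mul (hC1le p i hi) (pow_le_pow_left₀ h0 hd _) (pow_nonneg h0 _) hC10)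
    le_rfl hη1 (by linarith) hx4' l le_rfl hs j hj
  have hp := nr_prod (nr_smoothE hF l) x j
  have h1 : (L + L ^ 2) * η = L ^ 2 * η + L * η := by ring
  have h2 : 2 * A * ‖x.2‖ ^ (N + 2) ≤ 2 * A * ‖x.2‖ ^ N :=
    mul_le_mul_of_nonneg_left hyN (by positivity)
  have h3 := hmain.1
  have h4 := hmain.2
  have h5 : 0 ≤ B * (2 * A + 1) ^ N * ‖x.2‖ ^ N := by positivity
  rw [add_mul]
  linarith

/-- the norm of the linear map of a word -/
theorem wordMap_tauB_fst {k : ℕ} (l : List (Fin k × Bool)) (x : E0 k) :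
    |(wordMap tauB l x).1| ≤ |x.1| + l.length * ‖x.2‖ ∧ (wordMap tauB l x).2 = x.2 := by
  rw [nrW_eq]
  exact ⟨nrW_fst l x, nrW_snd l x⟩

end LatLin.B
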