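import Mathlib

/-!
MP_2392aa_gt, class B: commuting flat perturbations of the unipotents `(s, y) ↦ (s + y i, y)` near the
ray `{(s, 0) : s ≥ 0}` of `ℝ × ℝ^k`. Definitions.
-/

open scoped ContDiff Topology

namespace LatLin.B

/-- the space `ℝ × ℝ^k` -/
abbrev E0 (k : ℕ) : Type := ℝ × (Fin k → ℝ)

/-- the linear unipotent -/
def tau {k : ℕ} (i : Fin k) (x : E0 k) : E0 k := (x.1 + x.2 i, x.2)

section
variable {E F : Type*} [NormedAddCommGroup E] [NormedSpace ℝ E] [NormedAddCommGroup F]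
  [NormedSpace ℝ F]

/-- all derivatives of order less than `m` vanish at `x` -/
def Van (m : ℕ) (f : E → F) (x : E) : Prop := ∀ j < m, iteratedFDeriv ℝ j f x = 0

/-- all derivatives vanish at `x` -/
def FlatAt (f : E → F) (x : E) : Prop := ∀ j : ℕ, iteratedFDeriv ℝ j f x = 0

/-- `f` vanishes to order `m` along the half open segment `{(s, 0) : 0 ≤ s < r}` -/
def VanR {k : ℕ} (m : ℕ) (r : ℝ) (f : E0 k → F) : Prop :=
  ∀ s : ℝ, 0 ≤ s → s < r → Van m f ((s, 0) : E0 k)

end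

/-- the map `(s, y) ↦ (s + y i, y + q i)` -/
def NF {k : ℕ} (q : Fin k → Fin k → E0 k → ℝ) (i : Fin k) (x : E0 k) : E0 k :=
  (x.1 + x.2 i, fun j => x.2 j + q i j x)

/-- the first difference of `σ` along the map `F` -/
def DD {k : ℕ} (F : E0 k → E0 k) (σ : E0 k → ℝ) (x : E0 k) : ℝ := σ (F x) - σ x

/-- a commuting system in normal form on the ball of radius `r` -/
structure NSys (k : ℕ) (r : ℝ) where
  q : Fin k → Fin k → E0 k → ℝ
  smooth : ∀ i j, ContDiff ℝ ∞ (q i j)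
  flat : ∀ i j, FlatAt (q i j) 0
  comm : ∀ i j, ∀ x : E0 k, ‖x‖ < r → NF q i (NF q j x) = NF q j (NF q i x)

/-- the partial derivative in the direction of the ray -/
noncomputable def ds {k : ℕ} (f : E0 k → ℝ) (x : E0 k) : ℝ := fderiv ℝ f x ((1, 0) : E0 k)

/-- the partial derivative in the direction `y b` -/
noncomputable def dy {k : ℕ} (b : Fin k) (f : E0 k → ℝ) (x : E0 k) : ℝ :=
  fderiv ℝ f x ((0, Pi.single b 1) : E0 k)

/-- a smooth family of homogeneous polynomials of degree `m` -/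
structure PolFam (k m : ℕ) where
  c : ℝ → MvPolynomial (Fin k) ℝ
  hom : ∀ s, (c s).IsHomogeneous m
  smooth : ∀ a, ContDiff ℝ ∞ (fun s => MvPolynomial.coeff a (c s))

/-- the function on `ℝ × ℝ^k` defined by a family of polynomials -/
noncomputable def PolFam.fn {k m : ℕ} (P : PolFam k m) (x : E0 k) : ℝ :=
  MvPolynomial.eval x.2 (P.c x.1)

/-- a smaller radius -/
def NSys.restrict {k : ℕ} {r r' : ℝ} (S : NSys k r) (h : r' ≤ r) : NSys k r' where
  q := S.q
  smooth := S.smooth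
  flat := S.flat
  comm := fun i j x hx => S.comm i j x (lt_of_lt_of_le hx h)

/-- two families of germs are conjugate by a flat perturbation of the identity -/
def RConj {k : ℕ} (F F' : Fin k → E0 k → E0 k) : Prop :=
  ∃ A B : E0 k → E0 k, ContDiff ℝ ∞ A ∧ ContDiff ℝ ∞ B ∧ FlatAt (fun x => A x - x) 0 ∧
    FlatAt (fun x => B x - x) 0 ∧ (∀ᶠ x in 𝓝 (0 : E0 k), A (B x) = x) ∧
    (∀ᶠ x in 𝓝 (0 : E0 k), B (A x) = x) ∧
    ∀ i, ∀ᶠ x in 𝓝 (0 : E0 k), A (F i x) = F' i (A x)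

end LatLin.B
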