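import Pool.Agent.Lib.MP_2392aa_gt.B.RayDefs

/-!
MP_2392aa_gt, class B: words in the unipotents and their inverses. Definitions.
-/

open scoped ContDiff Topology

namespace LatLin.B

/-- the linear unipotent or its inverse -/
def tauB {k : ℕ} (p : Fin k × Bool) (x : E0 k) : E0 k :=
  (x.1 + (if p.2 then 1 else -1) * x.2 p.1, x.2)

/-- the composition of the maps of a word (the last letter acts first) -/
def wordMap {k : ℕ} {E : Type*} (F : Fin k × Bool → E → E) : List (Fin k × Bool) → E → E
  | [], x => x
  | (p :: l), x => F p (wordMap F l x)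

/-- the word of an integer vector -/
def bWord {k : ℕ} (b : Fin k → ℤ) : List (Fin k × Bool) :=
  (List.finRange k).flatMap (fun i => List.replicate (b i).natAbs (i, decide (0 ≤ b i)))

/-- the vector of real exponents which brings `(s, y)` to `(0, y)` -/
noncomputable def bq {k : ℕ} (x : E0 k) : Fin k → ℝ := fun i => -(x.1 * x.2 i) / ∑ j, x.2 j ^ 2

end LatLin.B
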