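import Pool.Agent.Lib.MP_2392aa_gt.Defs
import Pool.Agent.Lib.MP_2392aa_gt.B.RayDefs
import Pool.Agent.Lib.MP_2392aa_gt.B.WordDefs

/-!
MP_2392aa_gt: local data which are flat perturbations of the linear action at the fixed point
(`P1`) and along finitely many rays for the unipotents fixing them (`P2`). Definitions.
-/

open scoped ContDiff Topology

namespace LatLin.B

variable {E : Type*} [NormedAddCommGroup E] [NormedSpace ℝ E] {Γ M : Type*} [Group Γ]
  [TopologicalSpace M] [MulAction Γ M]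

/-- the action is a flat perturbation of the linear action at the fixed point -/
def P1 {ρ : Γ →* (E ≃L[ℝ] E)} (D : LocData (M := M) ρ) : Prop :=
  ∀ γ, FlatAt (fun x => D.F γ x - ρ γ x) 0

/-- finitely many rays with unipotents fixing them -/
structure Rays (k : ℕ) (ρ : Γ →* (E ≃L[ℝ] E)) where
  ι : Type
  fin : Finite ι
  L : ι → (E ≃L[ℝ] E0 k)
  u : ι → Fin k → Γ
  comm : ∀ q i j, u q i * u q j = u q j * u q i
  act : ∀ q i x, L q (ρ (u q i) x) = tau i (L q x)
  dist : ∀ (q q' : ι) (c : ℝ), 0 < c →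
    (L q).symm ((1, 0) : E0 k) = c • (L q').symm ((1, 0) : E0 k) → q = q'

/-- the unipotents and their inverses -/
def Rays.uB {k : ℕ} {ρ : Γ →* (E ≃L[ℝ] E)} (R : Rays k ρ) (q : R.ι) (p : Fin k × Bool) : Γ :=
  if p.2 then R.u q p.1 else (R.u q p.1)⁻¹

/-- the unipotents act, to infinite order along their rays, as the linear ones -/
def P2 {k : ℕ} {ρ : Γ →* (E ≃L[ℝ] E)} (R : Rays k ρ) (D : LocData (M := M) ρ) : Prop :=
  ∃ r : ℝ, 0 < r ∧ ∀ (q : R.ι) (p : Fin k × Bool) (s : ℝ), 0 ≤ s → s < r →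
    FlatAt (fun x => D.F (R.uB q p) x - ρ (R.uB q p) x) ((R.L q).symm ((s, 0) : E0 k))

end LatLin.B
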