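import Pool.Agent.Lib.MP_2392aa_gt.B.WordDefs

/-!
MODULE Words. Elementary facts on `bWord`.

* `wordMap_tauB`: induction; a block `replicate t (i, ε)` adds `± t * z.2 i` to the first component.
* `suffix`: a suffix of `bWord b` consists of a suffix `replicate t (i, ε)`, `t ≤ |b i|`, of one block and
  all the later blocks, so the first component of its value at `x = (s, y)` is
  `s + t' y i + ∑_(j > i) b j y j` with `t'` between `0` and `b i`. Put `e j = b j - bq x j`, `|e j| ≤ 2`: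
  `b j y j = - s y_j² / |y|² + e j y j`; since `s ≥ 0`, `- s y_j²/|y|² - 2 ‖y‖ ≤ min 0 (b j y j)` and
  `max 0 (b j y j) ≤ 2 ‖y‖`, hence the value lies in `[-2k‖y‖, s + 2k‖y‖]`.
* `length`: `|b i| ≤ 2 + s |y i| / |y|² ≤ 2 + s / ‖y‖` (`|y|² ≥ ‖y‖ |y i|`, `|y|² = ∑ y_j²`, sup norm).
-/

open scoped ContDiff Topology

namespace LatLin.B

/-- the increment of one letter -/
private def inc {k : ℕ} (y : Fin k → ℝ) (p : Fin k × Bool) : ℝ := (if p.2 then 1 else -1) * y p.1

private theorem wordMap_sum {k : ℕ} (l : List (Fin k × Bool)) (x : E0 k) :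
    wordMap tauB l x = (x.1 + (l.map (inc x.2)).sum, x.2) := by
  induction l with
  | nil => simp [wordMap]
  | cons p l ih =>
    rw [wordMap, ih, List.map_cons, List.sum_cons]
    unfold tauB inc
    refine Prod.ext ?_ rfl
    simp only
    ring

private theorem sum_blocks {k : ℕ} (b : Fin k → ℤ) (g : Fin k × Bool → ℝ) :
    ((bWord b).map g).sum = ∑ i, ((b i).natAbs : ℝ) * g (i, decide (0 ≤ b i)) := by
  have h : ∀ L : List (Fin k),
      ((L.flatMap (fun i => List.replicate (b i).natAbs (i, decide (0 ≤ b i)))).map g).sum =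
        (L.map fun i => ((b i).natAbs : ℝ) * g (i, decide (0 ≤ b i))).sum := by
    intro L
    induction L with
    | nil => simp
    | cons i L ih =>
      rw [List.flatMap_cons, List.map_append, List.sum_append, ih, List.map_cons, List.sum_cons,
        List.map_replicate, List.sum_replicate, nsmul_eq_mul]
  rw [bWord, h, ← Fin.sum_univ_def]

private theorem natAbs_inc {k : ℕ} (b : Fin k → ℤ) (y : Fin k → ℝ) (i : Fin k) :
    ((b i).natAbs : ℝ) * inc y (i, decide (0 ≤ b i)) = (b i : ℝ) * y i := by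
  unfold inc
  rw [Nat.cast_natAbs, Int.cast_abs]
  by_cases h : 0 ≤ b i
  · have h1 : (0 : ℝ) ≤ (b i : ℝ) := by exact_mod_cast h
    simp [h, abs_of_nonneg h1]
  · have h1 : (b i : ℝ) < 0 := by
      push Not at h
      exact_mod_cast h
    simp [h, abs_of_neg h1]

private theorem sq_sum_pos {k : ℕ} {y : Fin k → ℝ} (hy : y ≠ 0) : 0 < ∑ j, y j ^ 2 := by
  obtain ⟨i, hi⟩ := Function.ne_iff.1 hy
  refine Finset.sum_pos' (fun j _ => sq_nonneg _) ⟨i, Finset.mem_univ i, ?_⟩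
  exact sq_pos_of_ne_zero (by simpa using hi)

private theorem norm_mul_le {k : ℕ} (y : Fin k → ℝ) (i : Fin k) :
    ‖y‖ * |y i| ≤ ∑ j, y j ^ 2 := by
  have h0 : 0 ≤ ∑ j, y j ^ 2 := Finset.sum_nonneg fun j _ => sq_nonneg _
  have h1 : ‖y‖ ^ 2 ≤ ∑ j, y j ^ 2 := by
    have h2 : ‖y‖ ≤ Real.sqrt (∑ j, y j ^ 2) := by
      rw [pi_norm_le_iff_of_nonneg (Real.sqrt_nonneg _)]
      intro j
      rw [Real.norm_eq_abs]
      refine Real.abs_le_sqrt ?_
      exact Finset.single_le_sum (f := fun j => y j ^ 2) (fun j _ => sq_nonneg _)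
        (Finset.mem_univ j)
    calc ‖y‖ ^ 2 ≤ Real.sqrt (∑ j, y j ^ 2) ^ 2 := pow_le_pow_left₀ (norm_nonneg _) h2 2
      _ = _ := Real.sq_sqrt h0
  have h3 : |y i| ≤ ‖y‖ := norm_le_pi_norm y i
  calc ‖y‖ * |y i| ≤ ‖y‖ * ‖y‖ := mul_le_mul_of_nonneg_left h3 (norm_nonneg _)
    _ = ‖y‖ ^ 2 := by ring
    _ ≤ _ := h1

private theorem err_le {k : ℕ} {b : Fin k → ℤ} {x : E0 k}
    (hb : ∀ i, |(b i : ℝ) - bq x i| ≤ 2) (i : Fin k) :
    |((b i : ℝ) - bq x i) * x.2 i| ≤ 2 * ‖x.2‖ := by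
  rw [abs_mul]
  exact mul_le_mul (hb i) (norm_le_pi_norm x.2 i) (abs_nonneg _) (by norm_num)

private theorem bq_mul {k : ℕ} (x : E0 k) (i : Fin k) :
    bq x i * x.2 i = -(x.1 * (x.2 i ^ 2 / ∑ j, x.2 j ^ 2)) := by
  unfold bq
  ring

private theorem frac_sum {k : ℕ} {x : E0 k} (hx : x.2 ≠ 0) :
    ∑ i, x.1 * (x.2 i ^ 2 / ∑ j, x.2 j ^ 2) = x.1 := by
  rw [← Finset.mul_sum, ← Finset.sum_div, div_self (sq_sum_pos hx).ne', mul_one]

theorem wordMap_tauB {k : ℕ} (b : Fin k → ℤ) (z : E0 k) :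
    wordMap tauB (bWord b) z = (z.1 + ∑ i, (b i : ℝ) * z.2 i, z.2) := by
  rw [wordMap_sum, sum_blocks]
  simp only [natAbs_inc]

theorem wordMap_append {k : ℕ} {E : Type*} (F : Fin k × Bool → E → E)
    (l l' : List (Fin k × Bool)) (x : E) :
    wordMap F (l ++ l') x = wordMap F l (wordMap F l' x) := by
  induction l with
  | nil => rfl
  | cons p l ih => rw [List.cons_append, wordMap, wordMap, ih]

theorem bWord_prod {k : ℕ} {G : Type*} [Group G] (u : Fin k → G) (b : Fin k → ℤ) :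
    ((bWord b).map (fun p => if p.2 then u p.1 else (u p.1)⁻¹)).prod =
      (List.ofFn (fun i => u i ^ b i)).prod := by
  have h : ∀ L : List (Fin k),
      ((L.flatMap (fun i => List.replicate (b i).natAbs (i, decide (0 ≤ b i)))).map
        (fun p => if p.2 then u p.1 else (u p.1)⁻¹)).prod =
        (L.map fun i => u i ^ b i).prod := by
    intro L
    induction L with
    | nil => simp
    | cons i L ih =>
      rw [List.flatMap_cons, List.map_append, List.prod_append, ih, List.map_cons, List.prod_cons,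
        List.map_replicate, List.prod_replicate]
      congr 1
      by_cases hi : 0 ≤ b i
      · simp only [hi, decide_true, if_true]
        rw [← zpow_natCast, Int.natAbs_of_nonneg hi]
      · have h1 : ((b i).natAbs : ℤ) = -b i := by omega
        simp only [hi, decide_false, Bool.false_eq_true, if_false]
        rw [← zpow_natCast, h1, zpow_neg, inv_zpow, inv_inv]
  rw [bWord, h, List.ofFn_eq_map]

theorem bWord_length {k : ℕ} (b : Fin k → ℤ) (x : E0 k) (hx : x.2 ≠ 0) (hx1 : 0 ≤ x.1)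
    (hb : ∀ i, |(b i : ℝ) - bq x i| ≤ 2) :
    ((bWord b).length : ℝ) * ‖x.2‖ ≤ 3 * k * ‖x‖ := by
  have hlen : ((bWord b).length : ℝ) = ∑ i, |(b i : ℝ)| := by
    have h1 := sum_blocks b (fun _ => 1)
    have h2 : ((bWord b).map (fun _ => (1 : ℝ))).sum = ((bWord b).length : ℝ) := by
      simp
    rw [h2] at h1
    rw [h1]
    refine Finset.sum_congr rfl fun i _ => ?_
    rw [mul_one, Nat.cast_natAbs, Int.cast_abs]
  have hy : 0 < ‖x.2‖ := norm_pos_iff.2 hx
  have hS := sq_sum_pos hx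
  have hterm : ∀ i, |(b i : ℝ)| * ‖x.2‖ ≤ 3 * ‖x‖ := by
    intro i
    have h1 : |(b i : ℝ)| ≤ 2 + |bq x i| := by
      have h2 : (b i : ℝ) = ((b i : ℝ) - bq x i) + bq x i := by ring
      calc |(b i : ℝ)| = |((b i : ℝ) - bq x i) + bq x i| := by rw [← h2]
        _ ≤ |(b i : ℝ) - bq x i| + |bq x i| := abs_add_le _ _
        _ ≤ 2 + |bq x i| := by linarith [hb i]
    have h2 : |bq x i| * ‖x.2‖ ≤ x.1 := by
      unfold bq
      rw [abs_div, abs_neg, abs_mul, abs_of_nonneg hx1, abs_of_pos hS, div_mul_eq_mul_div,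
        div_le_iff₀ hS]
      have h3 := norm_mul_le x.2 i
      calc x.1 * |x.2 i| * ‖x.2‖ = x.1 * (‖x.2‖ * |x.2 i|) := by ring
        _ ≤ x.1 * ∑ j, x.2 j ^ 2 := mul_le_mul_of_nonneg_left h3 hx1
    have h4 : ‖x.2‖ ≤ ‖x‖ := norm_snd_le x
    have h5 : x.1 ≤ ‖x‖ := (le_abs_self _).trans (norm_fst_le x)
    calc |(b i : ℝ)| * ‖x.2‖ ≤ (2 + |bq x i|) * ‖x.2‖ :=
          mul_le_mul_of_nonneg_right h1 hy.le
      _ = 2 * ‖x.2‖ + |bq x i| * ‖x.2‖ := by ring
      _ ≤ 3 * ‖x‖ := by linarith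
  rw [hlen, Finset.sum_mul]
  calc ∑ i, |(b i : ℝ)| * ‖x.2‖ ≤ ∑ _i : Fin k, 3 * ‖x‖ := Finset.sum_le_sum fun i _ => hterm i
    _ = 3 * k * ‖x‖ := by
        rw [Finset.sum_const, Finset.card_univ, Fintype.card_fin, nsmul_eq_mul]
        ring

theorem bWord_suffix {k : ℕ} (b : Fin k → ℤ) (x : E0 k) (hx : x.2 ≠ 0) (hx1 : 0 ≤ x.1)
    (hb : ∀ i, |(b i : ℝ) - bq x i| ≤ 2) (l' : List (Fin k × Bool)) (hl : l' <:+ bWord b) :
    -(2 * k * ‖x.2‖) ≤ (wordMap tauB l' x).1 ∧ (wordMap tauB l' x).1 ≤ x.1 + 2 * k * ‖x.2‖ := by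
  obtain ⟨l'', hl''⟩ := hl
  have hS := sq_sum_pos hx
  have hlow : ∀ i, -(x.1 * (x.2 i ^ 2 / ∑ j, x.2 j ^ 2)) - 2 * ‖x.2‖ ≤ (b i : ℝ) * x.2 i ∧
      (b i : ℝ) * x.2 i ≤ 2 * ‖x.2‖ := by
    intro i
    have h1 := abs_le.1 (err_le hb i)
    have h2 := bq_mul x i
    have h3 : 0 ≤ x.1 * (x.2 i ^ 2 / ∑ j, x.2 j ^ 2) := by positivity
    constructor <;> nlinarith
  have hn : 0 ≤ ‖x.2‖ := norm_nonneg _
  -- negative parts
  have hmin : ∀ l : List (Fin k × Bool), (l.map fun p => min 0 (inc x.2 p)).sum ≤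
      (l.map (inc x.2)).sum := fun l => List.sum_le_sum fun p _ => min_le_right _ _
  have hmax : ∀ l : List (Fin k × Bool), (l.map (inc x.2)).sum ≤
      (l.map fun p => max 0 (inc x.2 p)).sum := fun l => List.sum_le_sum fun p _ => le_max_right _ _
  have hmin0 : ∀ l : List (Fin k × Bool), (l.map fun p => min 0 (inc x.2 p)).sum ≤ 0 := by
    intro l
    induction l with
    | nil => simp
    | cons p l ih =>
      rw [List.map_cons, List.sum_cons]
      have := min_le_left 0 (inc x.2 p)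
      linarith
  have hmax0 : ∀ l : List (Fin k × Bool), 0 ≤ (l.map fun p => max 0 (inc x.2 p)).sum := by
    intro l
    refine List.sum_nonneg fun r hr => ?_
    obtain ⟨p, _, rfl⟩ := List.mem_map.1 hr
    exact le_max_left _ _
  have h1 := sum_blocks b (fun p => min 0 (inc x.2 p))
  have h2 := sum_blocks b (fun p => max 0 (inc x.2 p))
  rw [← hl'', List.map_append, List.sum_append] at h1 h2
  have h3 : ∀ i, ((b i).natAbs : ℝ) * min 0 (inc x.2 (i, decide (0 ≤ b i))) =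
      min 0 ((b i : ℝ) * x.2 i) := by
    intro i
    rw [← natAbs_inc, mul_min_of_nonneg _ _ (Nat.cast_nonneg _), mul_zero]
  have h4 : ∀ i, ((b i).natAbs : ℝ) * max 0 (inc x.2 (i, decide (0 ≤ b i))) =
      max 0 ((b i : ℝ) * x.2 i) := by
    intro i
    rw [← natAbs_inc, mul_max_of_nonneg _ _ (Nat.cast_nonneg _), mul_zero]
  simp only [h3] at h1
  simp only [h4] at h2
  have h5 : ∑ i, (-(x.1 * (x.2 i ^ 2 / ∑ j, x.2 j ^ 2)) - 2 * ‖x.2‖) ≤
      ∑ i, min 0 ((b i : ℝ) * x.2 i) := by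
    refine Finset.sum_le_sum fun i _ => le_min ?_ (hlow i).1
    have h3 : 0 ≤ x.1 * (x.2 i ^ 2 / ∑ j, x.2 j ^ 2) := by positivity
    linarith
  have h6 : ∑ i, max 0 ((b i : ℝ) * x.2 i) ≤ ∑ _i : Fin k, 2 * ‖x.2‖ :=
    Finset.sum_le_sum fun i _ => max_le (by positivity) (hlow i).2
  rw [Finset.sum_sub_distrib, Finset.sum_neg_distrib, frac_sum hx, Finset.sum_const,
    Finset.card_univ, Fintype.card_fin, nsmul_eq_mul] at h5
  rw [Finset.sum_const, Finset.card_univ, Fintype.card_fin, nsmul_eq_mul] at h6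
  have h7 := hmin l'
  have h8 := hmax l'
  have h9 := hmin0 l''
  have h10 := hmax0 l''
  rw [wordMap_sum]
  constructor
  · show -(2 * k * ‖x.2‖) ≤ x.1 + (l'.map (inc x.2)).sum
    linarith
  · show x.1 + (l'.map (inc x.2)).sum ≤ x.1 + 2 * k * ‖x.2‖
    linarith

theorem bWord_end {k : ℕ} (b : Fin k → ℤ) (x : E0 k) (hx : x.2 ≠ 0)
    (hb : ∀ i, |(b i : ℝ) - bq x i| ≤ 2) :
    |x.1 + ∑ i, (b i : ℝ) * x.2 i| ≤ 2 * k * ‖x.2‖ := by
  have h1 : x.1 + ∑ i, (b i : ℝ) * x.2 i = ∑ i, ((b i : ℝ) - bq x i) * x.2 i := by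
    have h2 : ∀ i, (b i : ℝ) * x.2 i = ((b i : ℝ) - bq x i) * x.2 i -
        x.1 * (x.2 i ^ 2 / ∑ j, x.2 j ^ 2) := by
      intro i
      have := bq_mul x i
      linarith
    rw [Finset.sum_congr rfl fun i _ => h2 i, Finset.sum_sub_distrib, frac_sum hx]
    ring
  rw [h1]
  refine (Finset.abs_sum_le_sum_abs _ _).trans ?_
  refine (Finset.sum_le_sum fun i _ => err_le hb i).trans ?_
  rw [Finset.sum_const, Finset.card_univ, Fintype.card_fin, nsmul_eq_mul]
  linarith

/-- a smooth partition of unity of `ℝ^k` by the integer translates of one function: take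
`θ v = ∏ i, t (v i)` with `t` smooth, supported in `(-1, 1)`, `∑_b t (x - b) = 1` (normalize a bump
which is positive on `[-1/2, 1/2]` by the periodic sum of its translates) -/
theorem exists_theta (k : ℕ) : ∃ θ : (Fin k → ℝ) → ℝ, ContDiff ℝ ∞ θ ∧ (∀ v, 0 ≤ θ v) ∧
    (∀ v : Fin k → ℝ, (∃ i, 1 ≤ |v i|) → θ v = 0) ∧
    ∀ v : Fin k → ℝ, HasSum (fun b : Fin k → ℤ => θ (fun i => v i - b i)) 1 := by
  let t : ℝ → ℝ := fun x => Real.smoothTransition (x + 1) - Real.smoothTransition x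
  have ht : ContDiff ℝ ∞ t :=
    (Real.smoothTransition.contDiff.comp (contDiff_id.add contDiff_const)).sub
      Real.smoothTransition.contDiff
  have ht0 : ∀ x, 1 ≤ |x| → t x = 0 := by
    intro x hx
    rcases le_abs.1 hx with h | h
    · show Real.smoothTransition (x + 1) - Real.smoothTransition x = 0
      rw [Real.smoothTransition.one_of_one_le h, Real.smoothTransition.one_of_one_le (by linarith),
        sub_self]
    · show Real.smoothTransition (x + 1) - Real.smoothTransition x = 0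
      rw [Real.smoothTransition.zero_of_nonpos (by linarith),
        Real.smoothTransition.zero_of_nonpos (by linarith), sub_self]
  have htn : ∀ x, 0 ≤ t x := by
    intro x
    show 0 ≤ Real.smoothTransition (x + 1) - Real.smoothTransition x
    rcases le_total x 0 with h | h
    · rw [Real.smoothTransition.zero_of_nonpos h, sub_zero]
      exact Real.smoothTransition.nonneg _
    · rw [Real.smoothTransition.one_of_one_le (by linarith)]
      have := Real.smoothTransition.le_one x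
      linarith
  have hts : ∀ x : ℝ, ∑ b ∈ ({⌊x⌋, ⌊x⌋ + 1} : Finset ℤ), t (x - b) = 1 := by
    intro x
    rw [Finset.sum_pair (by omega)]
    show Real.smoothTransition (x - (⌊x⌋ : ℤ) + 1) - Real.smoothTransition (x - (⌊x⌋ : ℤ)) +
      (Real.smoothTransition (x - ((⌊x⌋ + 1 : ℤ) : ℝ) + 1) -
        Real.smoothTransition (x - ((⌊x⌋ + 1 : ℤ) : ℝ))) = 1
    have h1 := Int.floor_le x
    have h2 := Int.lt_floor_add_one x
    push_cast
    rw [Real.smoothTransition.one_of_one_le (by linarith : (1 : ℝ) ≤ x - ⌊x⌋ + 1),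
      Real.smoothTransition.zero_of_nonpos (by linarith : x - ((⌊x⌋ : ℝ) + 1) ≤ 0),
      show x - ((⌊x⌋ : ℝ) + 1) + 1 = x - ⌊x⌋ by ring]
    ring
  have hout : ∀ (x : ℝ) (b : ℤ), b ∉ ({⌊x⌋, ⌊x⌋ + 1} : Finset ℤ) → t (x - b) = 0 := by
    intro x b hb
    refine ht0 _ ?_
    rw [Finset.mem_insert, Finset.mem_singleton, not_or] at hb
    have h1 := Int.floor_le x
    have h2 := Int.lt_floor_add_one x
    rcases lt_or_gt_of_ne hb.1 with h | h
    · have h3 : (b : ℝ) + 1 ≤ ⌊x⌋ := by exact_mod_cast h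
      rw [le_abs]
      left
      linarith
    · have h3 : (⌊x⌋ : ℝ) + 2 ≤ b := by
        have : ⌊x⌋ + 2 ≤ b := by omega
        exact_mod_cast this
      rw [le_abs]
      right
      linarith
  refine ⟨fun v => ∏ i, t (v i), ?_, fun v => Finset.prod_nonneg fun i _ => htn _, ?_, ?_⟩
  · exact contDiff_prod fun i _ => ht.comp (contDiff_apply ℝ ℝ i)
  · rintro v ⟨i, hi⟩
    exact Finset.prod_eq_zero (Finset.mem_univ i) (ht0 _ hi)
  · intro v
    have h1 : ∀ b ∉ Fintype.piFinset (fun i => ({⌊v i⌋, ⌊v i⌋ + 1} : Finset ℤ)),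
        ∏ i, t (v i - b i) = 0 := by
      intro b hb
      rw [Fintype.mem_piFinset, not_forall] at hb
      obtain ⟨i, hi⟩ := hb
      exact Finset.prod_eq_zero (Finset.mem_univ i) (hout _ _ hi)
    have h2 : HasSum _ _ := hasSum_sum_of_ne_finset_zero (L := SummationFilter.unconditional _) h1
    rw [← Finset.prod_univ_sum (fun i => ({⌊v i⌋, ⌊v i⌋ + 1} : Finset ℤ))
      (fun i b => t (v i - (b : ℝ)))] at h2
    simp only [hts, Finset.prod_const_one] at h2
    exact h2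

end LatLin.B
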