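import Pool.Agent.Lib.MP_2392aa_gt.B.NearRay
import Pool.Agent.Lib.MP_2392aa_gt.B.NearRayU
import Pool.Agent.Lib.MP_2392aa_gt.B.Words
import Pool.Agent.Lib.MP_2392aa_gt.B.Prep
import Pool.Agent.Lib.MP_2392aa_gt.C.Grp

/-!
MODULE BranchRay. The long branches near a ray, for local data with `P1` and `P2`.

PROOF. Let `L = R.L q`, `G p = L ∘ D.F (R.uB q p) ∘ L⁻¹` on `E0 k`: smooth, `G p - tauB p` is flat along
`{(s,0) : 0 ≤ s < r}` by `P2` (linear change of variables; `L ∘ ρ (uB q p) ∘ L⁻¹ = tauB p`, for the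
inverse from `act`). `wordMap G l = L ∘ wordMap (fun p => D.F (R.uB q p)) l ∘ L⁻¹` (induction) and
`wordMap tauB l = L ∘ ρ(word product) ∘ L⁻¹`. Apply `nearRay` with `C0 = 3 k + 3` to
`l = bWord b` at `L x` (`bWord_length`, `bWord_suffix`: `x.1 + 2 k ‖x.2‖ ≤ C0 ‖x‖`), `wordMap_tauB`, `bWord_prod`.
Transfer to `E` with the norms of `L`, `L⁻¹` (`norm_iteratedFDeriv_comp_…` for linear maps).
`ρ (u^b)` in the coordinates is `(s, y) ↦ (s + ∑ b i y i, y)`: at `x` its value has norm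
`≤ (2k + 1) ‖y‖` (`bWord_end`), its norm and the norm of its inverse are `≤ 1 + ∑ |b i| ≤ C ‖L x‖ / ‖y‖`.
Suffixes: `nearRay` (with `m = 0`, `N = 1`) for the suffix `l'` itself (a suffix of a suffix is a suffix),
`‖wordMap tauB l' (L x)‖ ≤ C0 ‖L x‖`. The statement on `χ`: induction on the suffixes, all intermediate points
are in the ball on which `D.F_act` holds for the finitely many elements `uB q p` (choose `r` small).
-/

open scoped ContDiff Topology
open Metric

namespace LatLin.B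

variable {E : Type*} [NormedAddCommGroup E] [InnerProductSpace ℝ E] [FiniteDimensional ℝ E]
  {Γ M : Type*} [Group Γ] [TopologicalSpace M] [MulAction Γ M]

/-- the product of the powers of the unipotents -/
def Rays.ub {k : ℕ} {ρ : Γ →* (E ≃L[ℝ] E)} (R : Rays k ρ) (q : R.ι) (b : Fin k → ℤ) : Γ :=
  (List.ofFn (fun i => R.u q i ^ b i)).prod

/-- the branch: the composition of the maps of the word of `b` -/
def Rays.br {k : ℕ} {ρ : Γ →* (E ≃L[ℝ] E)} (R : Rays k ρ) (D : LocData (M := M) ρ) (q : R.ι)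
    (b : Fin k → ℤ) : E → E := wordMap (fun p => D.F (R.uB q p)) (bWord b)

private theorem rho_mul_apply {ρ : Γ →* (E ≃L[ℝ] E)} (a b : Γ) (x : E) :
    ρ (a * b) x = ρ a (ρ b x) := by
  rw [map_mul]
  rfl

private theorem rho_inv_apply {ρ : Γ →* (E ≃L[ℝ] E)} (a : Γ) (x : E) :
    ρ a (ρ a⁻¹ x) = x := by
  rw [← rho_mul_apply, mul_inv_cancel, map_one]
  rfl

private theorem uB_lin {k : ℕ} {ρ : Γ →* (E ≃L[ℝ] E)} (R : Rays k ρ) (q : R.ι)
    (p : Fin k × Bool) (x : E) : R.L q (ρ (R.uB q p) x) = tauB p (R.L q x) := by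
  obtain ⟨i, ε⟩ := p
  cases ε
  · have h1 : R.uB q (i, false) = (R.u q i)⁻¹ := rfl
    rw [h1]
    have h2 := R.act q i (ρ (R.u q i)⁻¹ x)
    rw [rho_inv_apply] at h2
    rw [h2]
    unfold tauB tau
    refine Prod.ext ?_ rfl
    simp
  · have h1 : R.uB q (i, true) = R.u q i := rfl
    rw [h1, R.act]
    unfold tauB tau
    refine Prod.ext ?_ rfl
    simp

private theorem word_lin {k : ℕ} {ρ : Γ →* (E ≃L[ℝ] E)} (R : Rays k ρ) (q : R.ι)
    (l : List (Fin k × Bool)) (x : E) :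
    wordMap tauB l (R.L q x) = R.L q (ρ ((l.map (R.uB q)).prod) x) := by
  induction l with
  | nil =>
    simp only [wordMap, List.map_nil, List.prod_nil, map_one]
    rfl
  | cons p l ih =>
    rw [List.map_cons, List.prod_cons, rho_mul_apply, uB_lin, ← ih]
    rfl

private theorem word_conj {k : ℕ} {ρ : Γ →* (E ≃L[ℝ] E)} (R : Rays k ρ)
    (D : LocData (M := M) ρ) (q : R.ι) (l : List (Fin k × Bool)) (x : E) :
    wordMap (fun p z => R.L q (D.F (R.uB q p) ((R.L q).symm z))) l (R.L q x) =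
      R.L q (wordMap (fun p => D.F (R.uB q p)) l x) := by
  induction l with
  | nil => rfl
  | cons p l ih =>
    rw [wordMap, ih, wordMap]
    simp only [ContinuousLinearEquiv.symm_apply_apply]

private theorem ub_prod {k : ℕ} {ρ : Γ →* (E ≃L[ℝ] E)} (R : Rays k ρ) (q : R.ι)
    (b : Fin k → ℤ) : ((bWord b).map (R.uB q)).prod = R.ub q b :=
  bWord_prod (R.u q) b

private theorem smooth_word {k : ℕ} {ρ : Γ →* (E ≃L[ℝ] E)} (R : Rays k ρ)
    (D : LocData (M := M) ρ) (q : R.ι) (l : List (Fin k × Bool)) :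
    ContDiff ℝ ∞ (wordMap (fun p => D.F (R.uB q p)) l) := by
  induction l with
  | nil => exact contDiff_id
  | cons p l ih => exact (D.F_smooth _).comp ih

private theorem nat_le_infB (j : ℕ) : ((j : ℕ) : WithTop ℕ∞) ≤ ∞ := by
  exact_mod_cast le_top

private theorem lin_conj {E1 G1 : Type*} [NormedAddCommGroup E1] [NormedSpace ℝ E1]
    [NormedAddCommGroup G1] [NormedSpace ℝ G1] (A : E1 ≃L[ℝ] G1) (h : E1 → E1)
    (hh : ContDiff ℝ ∞ h) (z : G1) (j : ℕ) :
    ‖iteratedFDeriv ℝ j (fun z => A (h (A.symm z))) z‖ ≤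
      ‖(A : E1 →L[ℝ] G1)‖ * (‖iteratedFDeriv ℝ j h (A.symm z)‖ *
        ‖(A.symm : G1 →L[ℝ] E1)‖ ^ j) := by
  have h1 := (A : E1 →L[ℝ] G1).norm_iteratedFDeriv_comp_left (x := z)
    (f := fun z => h (A.symm z)) ((hh.comp A.symm.contDiff).contDiffAt (x := z)) (nat_le_infB j)
  refine h1.trans (mul_le_mul_of_nonneg_left ?_ (norm_nonneg _))
  have h2 := (A.symm : G1 →L[ℝ] E1).iteratedFDeriv_comp_right hh z (nat_le_infB j)
  have h3 : iteratedFDeriv ℝ j (fun z => h (A.symm z)) z =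
      (iteratedFDeriv ℝ j h (A.symm z)).compContinuousLinearMap
        (fun _ => (A.symm : G1 →L[ℝ] E1)) := h2
  rw [h3]
  refine (ContinuousMultilinearMap.norm_compContinuousLinearMap_le _ _).trans ?_
  rw [Finset.prod_const, Finset.card_univ, Fintype.card_fin]

private theorem chi_word {k : ℕ} {ρ : Γ →* (E ≃L[ℝ] E)} (R : Rays k ρ)
    (D : LocData (M := M) ρ) (q : R.ι) (r4 : ℝ)
    (hact : ∀ y ∈ ball (0 : E) r4, ∀ p, R.uB q p • D.χ y = D.χ (D.F (R.uB q p) y))
    (x : E) (l : List (Fin k × Bool))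
    (hx : ∀ l', l' <:+ l → wordMap (fun p => D.F (R.uB q p)) l' x ∈ ball (0 : E) r4) :
    D.χ (wordMap (fun p => D.F (R.uB q p)) l x) = (l.map (R.uB q)).prod • D.χ x := by
  induction l with
  | nil => simp [wordMap]
  | cons p l ih =>
    have h1 := ih (fun l' hl' => hx l' (hl'.trans (List.suffix_cons p l)))
    have h2 := hact _ (hx l (List.suffix_cons p l)) p
    rw [List.map_cons, List.prod_cons, mul_smul, ← h1, h2]
    rfl

theorem branch_ray {k : ℕ} {ρ : Γ →* (E ≃L[ℝ] E)} (R : Rays k ρ) (D : LocData (M := M) ρ)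
    (h1 : P1 D) (h2 : P2 R D) (q : R.ι) : ∃ r C0 : ℝ, 0 < r ∧ 1 ≤ C0 ∧
      (∀ x : E, ‖x‖ < r → 0 ≤ (R.L q x).1 → (R.L q x).2 ≠ 0 → ∀ b : Fin k → ℤ,
        (∀ i, |(b i : ℝ) - bq (R.L q x) i| ≤ 2) →
        D.χ (R.br D q b x) = R.ub q b • D.χ x ∧
        ‖ρ (R.ub q b) x‖ ≤ C0 * ‖(R.L q x).2‖ ∧
        sz (ρ (R.ub q b)) ≤ C0 * (‖x‖ / ‖(R.L q x).2‖) ∧
        (∀ l', l' <:+ bWord b → ‖wordMap (fun p => D.F (R.uB q p)) l' x‖ ≤ C0 * ‖x‖)) ∧
      ∀ j N : ℕ, ∃ C : ℝ, 0 ≤ C ∧ ∀ x : E, ‖x‖ < r → 0 ≤ (R.L q x).1 → (R.L q x).2 ≠ 0 →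
        ∀ b : Fin k → ℤ, (∀ i, |(b i : ℝ) - bq (R.L q x) i| ≤ 2) →
        ‖iteratedFDeriv ℝ j (fun z => R.br D q b z - ρ (R.ub q b) z) x‖
          ≤ C * ‖(R.L q x).2‖ ^ N := by
  obtain ⟨r2, hr2, hP2⟩ := h2
  set L := R.L q with hL
  set G : Fin k × Bool → E0 k → E0 k := fun p z => L (D.F (R.uB q p) (L.symm z)) with hG
  have hGs : ∀ p, ContDiff ℝ ∞ (G p) := fun p =>
    L.contDiff.comp ((D.F_smooth _).comp L.symm.contDiff)
  have hhs : ∀ p, ContDiff ℝ ∞ (fun x => D.F (R.uB q p) x - ρ (R.uB q p) x) := fun p =>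
    (D.F_smooth _).sub (ρ (R.uB q p) : E →L[ℝ] E).contDiff
  have hflat : ∀ p, ∀ s : ℝ, 0 ≤ s → s < r2 →
      FlatAt (fun x => G p x - tauB p x) ((s, 0) : E0 k) := by
    intro p s hs0 hs j
    have e1 : (fun x => G p x - tauB p x) =
        fun z => L ((fun x => D.F (R.uB q p) x - ρ (R.uB q p) x) (L.symm z)) := by
      funext z
      have e2 := uB_lin R q p (L.symm z)
      rw [← hL, ContinuousLinearEquiv.apply_symm_apply] at e2
      simp only [map_sub, hG, e2]
    rw [e1]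
    have e3 := lin_conj L _ (hhs p) ((s, 0) : E0 k) j
    have e4 := hP2 q p s hs0 hs j
    rw [e4, norm_zero, zero_mul, mul_zero] at e3
    exact norm_le_zero_iff.1 e3
  have hk0 : (0 : ℝ) ≤ k := Nat.cast_nonneg _
  obtain ⟨r3, hr3, hnear⟩ := nearRay_unif hr2 G hGs hflat (3 * k + 3) (by linarith)
  obtain ⟨C1, hC10, hC1⟩ := hnear 0 1
  have hev : ∀ᶠ y in 𝓝 (0 : E), ∀ p, R.uB q p • D.χ y = D.χ (D.F (R.uB q p) y) :=
    Filter.eventually_all.2 (fun p => D.F_act _)
  obtain ⟨r4, hr4, hact⟩ := Metric.eventually_nhds_iff_ball.1 hev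
  set a : ℝ := ‖(L : E →L[ℝ] E0 k)‖ with ha
  set a' : ℝ := ‖(L.symm : E0 k →L[ℝ] E)‖ with ha'
  have ha0 : 0 ≤ a := norm_nonneg _
  have ha'0 : 0 ≤ a' := norm_nonneg _
  have hLx : ∀ x, ‖L x‖ ≤ a * ‖x‖ := fun x => (L : E →L[ℝ] E0 k).le_opNorm x
  have hLs : ∀ z, ‖L.symm z‖ ≤ a' * ‖z‖ := fun z => (L.symm : E0 k →L[ℝ] E).le_opNorm z
  have hxL : ∀ x, ‖x‖ ≤ a' * ‖L x‖ := by
    intro x
    have := hLs (L x)
    rwa [ContinuousLinearEquiv.symm_apply_apply] at this
  set C0 : ℝ := 1 + a' * ((C1 + (2 * k + 1)) * a) + a' * (2 * k + 1) +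
    a' * ((3 * k + 1) * a * a) with hC0
  have hC0a : 0 ≤ a' * ((C1 + (2 * k + 1)) * a) := by positivity
  have hC0b : 0 ≤ a' * (2 * (k : ℝ) + 1) := by positivity
  have hC0c : 0 ≤ a' * ((3 * (k : ℝ) + 1) * a * a) := by positivity
  have hC01 : 1 ≤ C0 := by linarith
  -- general facts about a point and an exponent
  have hfacts : ∀ x : E, (R.L q x).2 ≠ 0 → 0 ≤ (R.L q x).1 → ∀ b : Fin k → ℤ,
      (∀ i, |(b i : ℝ) - bq (R.L q x) i| ≤ 2) →
      ((bWord b).length : ℝ) * ‖(L x).2‖ ≤ 3 * k * ‖L x‖ ∧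
      ∀ l', l' <:+ bWord b → ((l'.length : ℝ) * ‖(L x).2‖ ≤ (3 * k + 3) * ‖L x‖ ∧
        (-((3 * k + 3) * ‖(L x).2‖) ≤ (wordMap tauB l' (L x)).1 ∧
        (wordMap tauB l' (L x)).1 ≤ (3 * k + 3) * ‖L x‖) ∧
        ‖wordMap tauB l' (L x)‖ ≤ (2 * k + 1) * ‖L x‖) := by
    intro x hx0 hx1 b hb
    have e1 := bWord_length b (L x) hx0 hx1 hb
    refine ⟨e1, fun l' hl' => ?_⟩
    have e2 := bWord_suffix b (L x) hx0 hx1 hb l' hl'
    have e3 : ‖(L x).2‖ ≤ ‖L x‖ := norm_snd_le _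
    have e4 : (L x).1 ≤ ‖L x‖ := (le_abs_self _).trans (norm_fst_le (L x))
    have e5 : (l'.length : ℝ) ≤ ((bWord b).length : ℝ) := by exact_mod_cast hl'.length_le
    have e6 : 0 ≤ ‖(L x).2‖ := norm_nonneg _
    have e7 : 0 ≤ ‖L x‖ := norm_nonneg _
    have e8 : (l'.length : ℝ) * ‖(L x).2‖ ≤ ((bWord b).length : ℝ) * ‖(L x).2‖ :=
      mul_le_mul_of_nonneg_right e5 e6
    have e9 : (k : ℝ) * ‖(L x).2‖ ≤ k * ‖L x‖ := mul_le_mul_of_nonneg_left e3 hk0
    have e10 : 0 ≤ (k : ℝ) * ‖(L x).2‖ := by positivity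
    refine ⟨by linarith, ⟨by linarith [e2.1], by linarith [e2.2]⟩, ?_⟩
    rw [Prod.norm_def, (wordMap_tauB_fst l' (L x)).2]
    refine max_le ?_ ?_
    · rw [Real.norm_eq_abs, abs_le]
      constructor
      · linarith [e2.1]
      · linarith [e2.2]
    · linarith
  have hr34 : 0 < min (r3 / (a + 1)) (r4 / C0) := lt_min (by positivity) (by positivity)
  have hxr : ∀ x : E, ‖x‖ < min (r3 / (a + 1)) (r4 / C0) → ‖L x‖ < r3 ∧ C0 * ‖x‖ < r4 := by
    intro x hx
    rw [lt_min_iff, lt_div_iff₀ (by positivity), lt_div_iff₀ (by positivity)] at hx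
    constructor
    · have := hLx x
      have := norm_nonneg x
      nlinarith [hx.1]
    · linarith [hx.2]
  refine ⟨min (r3 / (a + 1)) (r4 / C0), C0, hr34, hC01, ?_, ?_⟩
  · intro x hx hx1 hx0 b hb
    obtain ⟨hx3, hx4⟩ := hxr x hx
    obtain ⟨hlen, hsuf⟩ := hfacts x hx0 hx1 b hb
    have hz0 : 0 < ‖(L x).2‖ := norm_pos_iff.2 hx0
    have hz1 : ‖(L x).2‖ ≤ ‖L x‖ := norm_snd_le _
    have hword : ∀ l', l' <:+ bWord b →
        ‖wordMap (fun p => D.F (R.uB q p)) l' x‖ ≤ C0 * ‖x‖ := by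
      intro l' hl'
      obtain ⟨f1, f2, f3⟩ := hsuf l' hl'
      have e1 := hC1 l' (L x) hx0 hx3 f1
        (fun l'' hl'' => (hsuf l'' (hl''.trans hl')).2.1) 0 le_rfl
      rw [norm_iteratedFDeriv_zero, pow_one, word_conj R D q l' x] at e1
      have e2 : ‖L (wordMap (fun p => D.F (R.uB q p)) l' x)‖ ≤
          (C1 + (2 * k + 1)) * ‖L x‖ := by
        have e3 := norm_sub_norm_le (L (wordMap (fun p => D.F (R.uB q p)) l' x))
          (wordMap tauB l' (L x))
        have e4 : C1 * ‖(L x).2‖ ≤ C1 * ‖L x‖ := mul_le_mul_of_nonneg_left hz1 hC10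
        linarith
      have e5 := hxL (wordMap (fun p => D.F (R.uB q p)) l' x)
      calc ‖wordMap (fun p => D.F (R.uB q p)) l' x‖
          ≤ a' * ‖L (wordMap (fun p => D.F (R.uB q p)) l' x)‖ := e5
        _ ≤ a' * ((C1 + (2 * k + 1)) * (a * ‖x‖)) := by
            refine mul_le_mul_of_nonneg_left (e2.trans ?_) ha'0
            exact mul_le_mul_of_nonneg_left (hLx x) (by positivity)
        _ = a' * ((C1 + (2 * k + 1)) * a) * ‖x‖ := by ring
        _ ≤ C0 * ‖x‖ := mul_le_mul_of_nonneg_right (by linarith) (norm_nonneg _)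
    refine ⟨?_, ?_, ?_, hword⟩
    · have e1 := chi_word R D q r4 hact x (bWord b) (fun l' hl' => by
        rw [mem_ball_zero_iff]
        exact lt_of_le_of_lt (hword l' hl') hx4)
      rw [ub_prod] at e1
      exact e1
    · have e1 := word_lin R q (bWord b) x
      rw [ub_prod, ← hL, wordMap_tauB] at e1
      have e2 := bWord_end b (L x) hx0 hb
      have e3 : ‖L (ρ (R.ub q b) x)‖ ≤ (2 * k + 1) * ‖(L x).2‖ := by
        rw [← e1, Prod.norm_def]
        refine max_le ?_ ?_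
        · rw [Real.norm_eq_abs]
          refine e2.trans ?_
          nlinarith
        · have : 0 ≤ (k : ℝ) * ‖(L x).2‖ := by positivity
          change ‖(L x).2‖ ≤ _
          linarith
      calc ‖ρ (R.ub q b) x‖ ≤ a' * ‖L (ρ (R.ub q b) x)‖ := hxL _
        _ ≤ a' * ((2 * k + 1) * ‖(L x).2‖) := mul_le_mul_of_nonneg_left e3 ha'0
        _ = a' * (2 * k + 1) * ‖(L x).2‖ := by ring
        _ ≤ C0 * ‖(L x).2‖ := mul_le_mul_of_nonneg_right (by linarith) hz0.le
    · -- the size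
      set len : ℝ := ((bWord b).length : ℝ) with hlendef
      have hlen0 : 0 ≤ len := Nat.cast_nonneg _
      have hw : ∀ w : E0 k, wordMap tauB (bWord b) w =
          (w.1 + ∑ i, (b i : ℝ) * w.2 i, w.2) := wordMap_tauB b
      have hsum : ∀ y : Fin k → ℝ, |∑ i, (b i : ℝ) * y i| ≤ len * ‖y‖ := by
        intro y
        have e1 := (wordMap_tauB_fst (bWord b) ((0, y) : E0 k)).1
        rw [hw] at e1
        simpa using e1
      have hlin : ∀ v : E, L (ρ (R.ub q b) v) =
          ((L v).1 + ∑ i, (b i : ℝ) * (L v).2 i, (L v).2) := by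
        intro v
        have e1 := word_lin R q (bWord b) v
        rw [ub_prod, ← hL, hw] at e1
        exact e1.symm
      have hq : (1 + len) ≤ (3 * k + 1) * a * (‖x‖ / ‖(L x).2‖) := by
        rw [← mul_div_assoc, le_div_iff₀ hz0]
        have e1 : (3 * (k : ℝ) + 1) * ‖L x‖ ≤ (3 * k + 1) * a * ‖x‖ := by
          rw [mul_assoc]
          exact mul_le_mul_of_nonneg_left (hLx x) (by positivity)
        rw [add_mul, one_mul]
        linarith
      have hb1 : ∀ v : E, ‖ρ (R.ub q b) v‖ ≤ (a' * (1 + len) * a) * ‖v‖ := by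
        intro v
        have e1 : ‖L (ρ (R.ub q b) v)‖ ≤ (1 + len) * ‖L v‖ := by
          rw [hlin, Prod.norm_def]
          have e2 : ‖(L v).2‖ ≤ ‖L v‖ := norm_snd_le _
          have e3 : |(L v).1| ≤ ‖L v‖ := norm_fst_le (L v)
          have e4 : len * ‖(L v).2‖ ≤ len * ‖L v‖ := mul_le_mul_of_nonneg_left e2 hlen0
          refine max_le ?_ ?_
          · rw [Real.norm_eq_abs]
            refine (abs_add_le _ _).trans ?_
            have := hsum (L v).2
            linarith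
          · change ‖(L v).2‖ ≤ _
            have : 0 ≤ len * ‖L v‖ := by positivity
            linarith
        calc ‖ρ (R.ub q b) v‖ ≤ a' * ‖L (ρ (R.ub q b) v)‖ := hxL _
          _ ≤ a' * ((1 + len) * (a * ‖v‖)) := by
              refine mul_le_mul_of_nonneg_left (e1.trans ?_) ha'0
              exact mul_le_mul_of_nonneg_left (hLx v) (by positivity)
          _ = (a' * (1 + len) * a) * ‖v‖ := by ring
      have hb2 : ∀ v : E, ‖ρ (R.ub q b)⁻¹ v‖ ≤ (a' * (1 + len) * a) * ‖v‖ := by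
        intro v
        have e0 := hlin (ρ (R.ub q b)⁻¹ v)
        rw [rho_inv_apply] at e0
        set u : E := ρ (R.ub q b)⁻¹ v with hu
        have e5 : (L v).2 = (L u).2 := by rw [e0]
        have e6 : (L v).1 = (L u).1 + ∑ i, (b i : ℝ) * (L u).2 i := by rw [e0]
        have e1 : ‖L u‖ ≤ (1 + len) * ‖L v‖ := by
          rw [Prod.norm_def (L u)]
          have e2 : ‖(L v).2‖ ≤ ‖L v‖ := norm_snd_le _
          have e3 : |(L v).1| ≤ ‖L v‖ := norm_fst_le (L v)
          have e4 : len * ‖(L v).2‖ ≤ len * ‖L v‖ := mul_le_mul_of_nonneg_left e2 hlen0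
          refine max_le ?_ ?_
          · rw [Real.norm_eq_abs]
            have e7 : (L u).1 = (L v).1 - ∑ i, (b i : ℝ) * (L v).2 i := by
              rw [e5, e6]
              ring
            rw [e7]
            refine (abs_sub _ _).trans ?_
            have := hsum (L v).2
            linarith
          · rw [← e5]
            have : 0 ≤ len * ‖L v‖ := by positivity
            linarith
        calc ‖u‖ ≤ a' * ‖L u‖ := hxL _
          _ ≤ a' * ((1 + len) * (a * ‖v‖)) := by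
              refine mul_le_mul_of_nonneg_left (e1.trans ?_) ha'0
              exact mul_le_mul_of_nonneg_left (hLx v) (by positivity)
          _ = (a' * (1 + len) * a) * ‖v‖ := by ring
      have hfin : a' * (1 + len) * a ≤ C0 * (‖x‖ / ‖(L x).2‖) := by
        have e1 : a' * (1 + len) * a ≤
            a' * ((3 * k + 1) * a * (‖x‖ / ‖(L x).2‖)) * a :=
          mul_le_mul_of_nonneg_right (mul_le_mul_of_nonneg_left hq ha'0) ha0
        refine e1.trans ?_
        have e2 : a' * ((3 * k + 1) * a * (‖x‖ / ‖(L x).2‖)) * a =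
            a' * ((3 * (k : ℝ) + 1) * a * a) * (‖x‖ / ‖(L x).2‖) := by ring
        rw [e2]
        exact mul_le_mul_of_nonneg_right (by linarith) (by positivity)
      unfold sz
      refine max_le ?_ ?_
      · exact (ContinuousLinearMap.opNorm_le_bound _ (by positivity) hb1).trans hfin
      · rw [← map_inv]
        exact (ContinuousLinearMap.opNorm_le_bound _ (by positivity) hb2).trans hfin
  · intro j N
    obtain ⟨C, hC, hCb⟩ := hnear j N
    refine ⟨a' * (C * a ^ j), by positivity, ?_⟩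
    intro x hx hx1 hx0 b hb
    obtain ⟨hx3, hx4⟩ := hxr x hx
    obtain ⟨hlen, hsuf⟩ := hfacts x hx0 hx1 b hb
    have e1 := hCb (bWord b) (L x) hx0 hx3 (hsuf (bWord b) List.suffix_rfl).1
      (fun l'' hl'' => (hsuf l'' hl'').2.1) j le_rfl
    have hWs : ContDiff ℝ ∞ (fun z => wordMap G (bWord b) z - wordMap tauB (bWord b) z) := by
      have e2 : (fun z => wordMap G (bWord b) z - wordMap tauB (bWord b) z) =
          fun z => L (wordMap (fun p => D.F (R.uB q p)) (bWord b) (L.symm z) -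
            ρ (R.ub q b) (L.symm z)) := by
        funext z
        have e3 := word_conj R D q (bWord b) (L.symm z)
        have e4 := word_lin R q (bWord b) (L.symm z)
        rw [← hL, ContinuousLinearEquiv.apply_symm_apply] at e3 e4
        rw [ub_prod] at e4
        rw [map_sub, ← e4, ← e3]
      rw [e2]
      exact L.contDiff.comp (((smooth_word R D q (bWord b)).comp L.symm.contDiff).sub
        ((ρ (R.ub q b) : E →L[ℝ] E).contDiff.comp L.symm.contDiff))
    have e5 : (fun z => R.br D q b z - ρ (R.ub q b) z) =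
        fun z => L.symm ((fun z => wordMap G (bWord b) z - wordMap tauB (bWord b) z)
          (L.symm.symm z)) := by
      funext z
      have e3 := word_conj R D q (bWord b) z
      have e4 := word_lin R q (bWord b) z
      rw [ub_prod] at e4
      simp only [ContinuousLinearEquiv.symm_symm]
      have e6 : wordMap G (bWord b) (L z) =
        L (wordMap (fun p => D.F (R.uB q p)) (bWord b) z) := e3
      rw [e6, e4, ← hL, ← map_sub, ContinuousLinearEquiv.symm_apply_apply]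
      rfl
    rw [e5]
    have e6 := lin_conj L.symm _ hWs x j
    refine e6.trans ?_
    have e7 : L.symm.symm x = L x := by rw [ContinuousLinearEquiv.symm_symm]
    rw [e7]
    have e8 : ‖(L.symm.symm : E →L[ℝ] E0 k)‖ = a := by rw [ContinuousLinearEquiv.symm_symm]
    rw [e8]
    have e9 : a' * (C * a ^ j) * ‖(L x).2‖ ^ N = a' * ((C * ‖(L x).2‖ ^ N) * a ^ j) := by ring
    rw [e9]
    exact mul_le_mul_of_nonneg_left (mul_le_mul_of_nonneg_right e1 (by positivity)) ha'0

theorem br_smooth {k : ℕ} {ρ : Γ →* (E ≃L[ℝ] E)} (R : Rays k ρ) (D : LocData (M := M) ρ)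
    (q : R.ι) (b : Fin k → ℤ) : ContDiff ℝ ∞ (R.br D q b) :=
  smooth_word R D q (bWord b)

/-- equivariance along a word through small points -/
theorem br_equi {k : ℕ} {ρ : Γ →* (E ≃L[ℝ] E)} (R : Rays k ρ) (D : LocData (M := M) ρ)
    (q : R.ι) (w : E → E) (s : ℝ)
    (hw : ∀ p, ∀ y ∈ ball (0 : E) s, w (D.F (R.uB q p) y) = ρ (R.uB q p) (w y))
    (b : Fin k → ℤ) (x : E)
    (hx : ∀ l', l' <:+ bWord b → wordMap (fun p => D.F (R.uB q p)) l' x ∈ ball (0 : E) s) :
    w (R.br D q b x) = ρ (R.ub q b) (w x) := by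
  have key : ∀ l : List (Fin k × Bool),
      (∀ l', l' <:+ l → wordMap (fun p => D.F (R.uB q p)) l' x ∈ ball (0 : E) s) →
      w (wordMap (fun p => D.F (R.uB q p)) l x) = ρ ((l.map (R.uB q)).prod) (w x) := by
    intro l
    induction l with
    | nil =>
      intro _
      simp only [wordMap, List.map_nil, List.prod_nil, map_one]
      rfl
    | cons p l ih =>
      intro hl
      have h1 := ih (fun l' hl' => hl l' (hl'.trans (List.suffix_cons p l)))
      have h2 := hw p _ (hl l (List.suffix_cons p l))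
      rw [List.map_cons, List.prod_cons, rho_mul_apply, ← h1, ← h2]
      rfl
  have h := key (bWord b) hx
  rw [ub_prod] at h
  exact h

end LatLin.B
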