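import Pool.Agent.Lib.MP_2392aa_gt.B.ZGeo
import Pool.Agent.Lib.MP_2392aa_gt.C.Jet
import Pool.Agent.Lib.MP_2392aa_gt.C.Grp

/-!
MODULE DeepB. Expansions of the fixed point near the rays.

PROOF of `lin3_bound`. `flat_bound_set` (C/Jet) for the compact set `{t • toE p : 0 ≤ t ≤ r / 2}` and order
`0`: `‖F γ x - ρ γ x‖ ≤ C ‖x - z‖^N` for `z` in it, `x` in a ball; for small `x` the nearest point
`t • toE p` (`dr_exists`, `t ‖p‖ ≤ 2 ‖x‖`) is in it. The radius does not depend on `N`.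

PROOF of `deep_exc` (`‖p‖ < R`). By `dr_sep` (radius `R`) and `ZB_dist`: if `dr p x < ε ‖x‖` with `ε < c/2` then
`infDist x Z = dr p x`; so `x ∉ Z` if `0 < dr p x`. `fix` gives `φ x` as a convex combination of the
`(ρ g_i)⁻¹ (φ (A_i x))`, `i ∈ act x` (`w_nonneg`, `w_sum`; `Convex.sum_mem` / `Finset.centerMass`…). `Good`:
`A_act`; `‖A_i x‖ ≤ ϱ x ≤ C infDist x Z` (from `ϱ_Z` with a nearest point of `Z`, or all `z`); `g_bound`
with `ϱ ≥ c infDist` (`low`); `A_flat` with `j = 0`; `‖ρ g_i x‖ ≤ ‖A_i x‖ + C_1 ϱ ≤ C δ`.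

PROOF of `deep_two` (`R ≤ ‖p‖ < R'`). Near the ray of `p` (`dr p x < ε ‖x‖`) `infDist x Z ≥ c₀ ‖x‖` by `dr_sep`
with radius `R'` (all `q` with `‖q‖ < R` differ from `p`). So for `i ∈ act x`: `ϱ x ≥ c ‖x‖`, hence `sz (ρ g_i) ≤ B`
for a constant `B`, and there are finitely many elements `γ = g_i` (`finite_nrm`, `sz_rhoG`). `x ∉ Z`.
`‖A_i x‖ ≤ ϱ x ≤ lam ‖x‖`, `A_flat` (`N = 2`): `‖ρ γ x‖ ≤ (lam + C ‖x‖) ‖x‖ ≤ 2 lam ‖x‖` for small `x`; `short_image`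
(`μ = 2 lam`, `ε` small depending on `B`): `‖γ p‖ < 4 lam ‖p‖ ≤ 4 lam R' ≤ R`, i.e. `γ p = q` is `Prim`,
`‖q‖ < R`. For small `x`: `A_i x = F γ x` (both are `γ • χ x` under `χ`, small; finitely many `γ`). `lin3_bound` for
`(γ, p)`: `‖F γ x - ρ γ x‖ ≤ C_N (dr p x)^N`. With `δ = dr p x`: `dr q (ρ γ x) ≤ B δ` and
`δ ≤ B dr q (ρ γ x)` (`dr_map` for `γ`, `γ⁻¹`), so for `x1 = A_i x`: `δ / (2B) ≤ dr q x1 ≤ 2 B δ`,
`‖x‖ / (2 B) ≤ ‖x1‖ ≤ 2 B ‖x‖`; `dr q x1 < ε_q ‖x1‖` for `ε` small. By `deep_exc` for `q`,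
`φ x1 ∈ convexHull {(ρ h)⁻¹ (φ a) : Good x1 …}`; for such `(h, a)` the pair `(h * γ, a)` is good at `x`:
`ρ (hγ) x = ρ h x1 - ρ h (x1 - ρ γ x)`, `‖ρ h‖ ≤ C (‖x1‖ / dr q x1)^c`, `‖x1 - ρ γ x‖ ≤ C_N δ^N` with `N`
replaced by `N + c + 1` (`‖x‖ ≤ 1`). `(ρ γ)⁻¹` is linear, the convex hull of convex combinations is in the convex
hull (`convexHull_min` / `Convex`), finitely many `γ` and `q`: take the worst constants.
-/

open scoped ContDiff Topology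
open Metric

namespace LatLin.B

variable {k : ℕ} {Γ : Subgroup (SLZ (k + 1))} {M : Type*} [TopologicalSpace M] [MulAction Γ M]

/-! ### elementary facts -/

private theorem one_le_toE {p : Fin (k + 1) → ℤ} (hp : Prim p) : 1 ≤ ‖toE p‖ := by
  obtain ⟨g, hg⟩ := hp
  have hp0 : p ≠ 0 := by
    rintro rfl
    have h1 := congrFun hg 0
    simp [actZ] at h1
  obtain ⟨i, hi⟩ := Function.ne_iff.1 hp0
  have h1 : (1 : ℝ) ≤ |(p i : ℝ)| := by exact_mod_cast Int.one_le_abs hi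
  have h2 := PiLp.norm_apply_le (toE p) i
  rw [Real.norm_eq_abs] at h2
  exact h1.trans h2

private theorem actZ_mul (g h : SLZ (k + 1)) (q : Fin (k + 1) → ℤ) :
    actZ (g * h) q = actZ g (actZ h q) := by
  simp [actZ, Matrix.mulVec_mulVec]

private theorem prim_act (γ : SLZ (k + 1)) {p : Fin (k + 1) → ℤ} (hp : Prim p) :
    Prim (actZ γ p) := by
  obtain ⟨g, hg⟩ := hp
  refine ⟨g * γ⁻¹, ?_⟩
  rw [← actZ_mul, inv_mul_cancel_right, hg]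

private theorem dr_nonneg (v x : EE (k + 1)) : 0 ≤ dr v x := infDist_nonneg

private theorem norm_le_sz (g : EE (k + 1) ≃L[ℝ] EE (k + 1)) (x : EE (k + 1)) :
    ‖g x‖ ≤ sz g * ‖x‖ := by
  have h1 : ‖(g : EE (k + 1) →L[ℝ] EE (k + 1)) x‖ ≤
      ‖(g : EE (k + 1) →L[ℝ] EE (k + 1))‖ * ‖x‖ := ContinuousLinearMap.le_opNorm _ _
  exact h1.trans (mul_le_mul_of_nonneg_right (le_max_left _ _) (norm_nonneg _))

private theorem norm_inv_le_sz (g : EE (k + 1) ≃L[ℝ] EE (k + 1)) (x : EE (k + 1)) :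
    ‖x‖ ≤ sz g * ‖g x‖ := by
  have h1 : ‖((g⁻¹ : EE (k + 1) ≃L[ℝ] EE (k + 1)) : EE (k + 1) →L[ℝ] EE (k + 1)) (g x)‖ ≤
      ‖((g⁻¹ : EE (k + 1) ≃L[ℝ] EE (k + 1)) : EE (k + 1) →L[ℝ] EE (k + 1))‖ * ‖g x‖ :=
    ContinuousLinearMap.le_opNorm _ _
  have h2 : ((g⁻¹ : EE (k + 1) ≃L[ℝ] EE (k + 1)) : EE (k + 1) →L[ℝ] EE (k + 1)) (g x) = x :=
    g.symm_apply_apply x
  rw [h2] at h1
  exact h1.trans (mul_le_mul_of_nonneg_right (le_max_right _ _) (norm_nonneg _))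

private theorem sz_mul (g h : EE (k + 1) ≃L[ℝ] EE (k + 1)) : sz (g * h) ≤ sz g * sz h := by
  have hg : 0 ≤ sz g := (norm_nonneg _).trans (le_max_left _ _)
  have hh : 0 ≤ sz h := (norm_nonneg _).trans (le_max_left _ _)
  refine max_le ?_ ?_
  · refine ContinuousLinearMap.opNorm_le_bound _ (by positivity) fun x => ?_
    change ‖g (h x)‖ ≤ _
    calc ‖g (h x)‖ ≤ sz g * ‖h x‖ := norm_le_sz g _
      _ ≤ sz g * (sz h * ‖x‖) := mul_le_mul_of_nonneg_left (norm_le_sz h x) hg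
      _ = _ := by ring
  · refine ContinuousLinearMap.opNorm_le_bound _ (by positivity) fun x => ?_
    have h1 : ((g * h)⁻¹ : EE (k + 1) ≃L[ℝ] EE (k + 1)) x = h.symm (g.symm x) := by
      rw [mul_inv_rev]
      rfl
    change ‖((g * h)⁻¹ : EE (k + 1) ≃L[ℝ] EE (k + 1)) x‖ ≤ _
    rw [h1]
    have h2 := norm_inv_le_sz h (h.symm (g.symm x))
    have h3 := norm_inv_le_sz g (g.symm x)
    rw [h.apply_symm_apply] at h2
    rw [g.apply_symm_apply] at h3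
    calc ‖h.symm (g.symm x)‖ ≤ sz h * ‖g.symm x‖ := h2
      _ ≤ sz h * (sz g * ‖x‖) := mul_le_mul_of_nonneg_left h3 hh
      _ = _ := by ring

private theorem fin_min {ι : Type*} (s : Finset ι) (f : ι → ℝ) (hf : ∀ i ∈ s, 0 < f i) :
    ∃ e : ℝ, 0 < e ∧ ∀ i ∈ s, e ≤ f i := by
  classical
  induction s using Finset.induction_on with
  | empty => exact ⟨1, one_pos, by simp⟩
  | insert a s ha ih =>
    obtain ⟨e, he, hes⟩ := ih fun i hi => hf i (Finset.mem_insert_of_mem hi)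
    refine ⟨min e (f a), lt_min he (hf a (Finset.mem_insert_self _ _)), fun i hi => ?_⟩
    rcases Finset.mem_insert.1 hi with rfl | hi
    · exact min_le_right _ _
    · exact (min_le_left _ _).trans (hes i hi)

private theorem good_mono {D : LocData (M := M) (rhoG Γ)} {x : EE (k + 1)} {δ C C' : ℝ}
    {c c' N : ℕ} {CN CN' : ℝ} {g : Γ} {a : EE (k + 1)} (h : Good D x δ C c N CN g a)
    (hC0 : 0 ≤ C) (hC : C ≤ C') (hc : c ≤ c') (hN : CN ≤ CN') (hδ : 0 < δ) (hx : δ ≤ ‖x‖) :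
    Good D x δ C' c' N CN' g a := by
  obtain ⟨h1, h2, h3, h4, h5⟩ := h
  have h6 : 1 ≤ ‖x‖ / δ := by rwa [one_le_div hδ]
  refine ⟨h1, h2.trans (mul_le_mul_of_nonneg_right hC hδ.le), ?_, ?_,
    h5.trans (mul_le_mul_of_nonneg_right hC hδ.le)⟩
  · refine h3.trans (mul_le_mul hC (pow_le_pow_right₀ h6 hc) (by positivity) (hC0.trans hC))
  · exact h4.trans (mul_le_mul_of_nonneg_right hN (by positivity))

theorem lin3_bound {D : LocData (M := M) (rhoG Γ)} {R' : ℝ} (h : Lin3 D R') (γ : Γ)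
    (p : Fin (k + 1) → ℤ) (hp : Prim p) (hp1 : ‖toE p‖ < R')
    (hp2 : ‖toE (actZ (γ : SLZ (k + 1)) p)‖ < R') : ∃ r : ℝ, 0 < r ∧ ∀ N : ℕ, ∃ C : ℝ, 0 ≤ C ∧
      ∀ x : EE (k + 1), ‖x‖ < r → ‖D.F γ x - rhoG Γ γ x‖ ≤ C * dr (toE p) x ^ N := by
  obtain ⟨r, hr, hfl⟩ := h γ p hp hp1 hp2
  refine ⟨min (r / 2) 1, by positivity, fun N => ?_⟩
  have hsm : ContDiff ℝ ∞ (fun x => D.F γ x - rhoG Γ γ x) :=
    (D.F_smooth γ).sub
      ((rhoG Γ γ : EE (k + 1) ≃L[ℝ] EE (k + 1)) : EE (k + 1) →L[ℝ] EE (k + 1)).contDiff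
  obtain ⟨C, hC0, hC⟩ := flat_bound_set (fun x => D.F γ x - rhoG Γ γ x) hsm
    {z | ∃ t : ℝ, 0 ≤ t ∧ t < r ∧ z = t • toE p} (by
      rintro z ⟨t, ht0, htr, rfl⟩ m
      exact hfl t ht0 htr m) 0 N 2
  refine ⟨C, hC0, fun x hx => ?_⟩
  obtain ⟨t, ht0, ht⟩ := dr_exists (toE p) x
  have hx1 : ‖x‖ < r / 2 := hx.trans_le (min_le_left _ _)
  have hx2 : ‖x‖ < 1 := hx.trans_le (min_le_right _ _)
  have h1 : ‖t • toE p‖ ≤ 2 * ‖x‖ := by
    have e : t • toE p = x - (x - t • toE p) := by abel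
    have h2 := dr_le (toE p) x
    rw [ht] at h2
    calc ‖t • toE p‖ = ‖x - (x - t • toE p)‖ := by rw [← e]
      _ ≤ ‖x‖ + ‖x - t • toE p‖ := norm_sub_le _ _
      _ ≤ 2 * ‖x‖ := by linarith
  have h2 : t ≤ ‖t • toE p‖ := by
    rw [norm_smul, Real.norm_of_nonneg ht0]
    exact le_mul_of_one_le_right ht0 (one_le_toE hp)
  have h3 := hC x (by rw [mem_ball_zero_iff]; linarith) (t • toE p)
    ⟨t, ht0, by linarith, rfl⟩ (by rw [mem_ball_zero_iff]; linarith)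
  rw [norm_iteratedFDeriv_zero, ← ht] at h3
  exact h3

/-- estimates for the branches of the operator -/
private theorem branch_good {D : LocData (M := M) (rhoG Γ)} {T : TData D} {R R' : ℝ}
    (h : CtxB D T R R') {s : ℝ} {φ : EE (k + 1) → EE (k + 1)} (hφ : T.IsSol s φ)
    (p : Fin (k + 1) → ℤ) (hp : Prim p) (hp1 : ‖toE p‖ < R) : ExpB D φ (toE p) := by
  obtain ⟨c0, hc0, hsep⟩ := dr_sep k R
  obtain ⟨Cz, hCz⟩ := T.ϱ_Z
  obtain ⟨cl, hcl, hlow⟩ := h.low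
  obtain ⟨Cg, cg, hg⟩ := T.g_bound
  obtain ⟨C1, hC1⟩ := T.A_flat 0 1
  set Z1 : ℝ := max Cz 1 with hZ1
  have hZ1p : 1 ≤ Z1 := le_max_right _ _
  have hZ1n : 0 ≤ Z1 := zero_le_one.trans hZ1p
  refine ⟨Z1 * (1 + |C1|) + |Cg| * (1 / cl) ^ cg, c0 / 2, s, cg, ?_, by positivity, hφ.s_pos,
    fun N => ?_⟩
  · have h1 : 1 ≤ Z1 * (1 + |C1|) := by nlinarith [abs_nonneg C1]
    have h2 : 0 ≤ |Cg| * (1 / cl) ^ cg := by positivity
    linarith
  obtain ⟨CN, hCN⟩ := T.A_flat 0 N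
  refine ⟨|CN| * Z1 ^ N, by positivity, fun x hx hd0 hd => ?_⟩
  -- the nearest ray is the ray of `p`
  have hdist : infDist x (ZB k R) = dr (toE p) x := by
    obtain ⟨⟨q, hq, hq1, hq2⟩, hle⟩ := ZB_dist k R h.hR x
    by_cases hqp : p = q
    · rw [hq2, hqp]
    · exfalso
      have h1 := hsep p q hp hq hp1 hq1 hqp x
      have h2 := hle p hp hp1
      rw [hq2] at h2
      linarith
  have hxZ : x ∉ T.Z := by
    intro hxz
    rw [h.hZ] at hxz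
    have h1 := infDist_zero_of_mem hxz
    rw [hdist] at h1
    linarith
  have hxs : x ∈ ball (0 : EE (k + 1)) s \ T.Z := ⟨by rwa [mem_ball_zero_iff], hxZ⟩
  have hxr : x ∈ ball (0 : EE (k + 1)) T.r \ T.Z := ⟨ball_subset_ball hφ.s_le hxs.1, hxZ⟩
  set δ : ℝ := dr (toE p) x with hδ
  have hϱ : 0 < T.ϱ x := T.ϱ_pos x hxr
  have hϱZ : T.ϱ x ≤ Z1 * δ := by
    obtain ⟨t, ht0, ht⟩ := dr_exists (toE p) x
    have h1 := hCz x hxr (t • toE p) (by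
      rw [h.hZ]
      exact ⟨p, hp, hp1, t, ht0, rfl⟩)
    rw [← ht] at h1
    exact h1.trans (mul_le_mul_of_nonneg_right (le_max_left _ _) hd0.le)
  have hϱl : cl * δ ≤ T.ϱ x := by
    have h1 := hlow x hxr
    rw [h.hZ, hdist] at h1
    exact h1
  rw [hφ.fix x hxs]
  refine Convex.sum_mem (convex_convexHull ℝ _) (fun i _ => T.w_nonneg i x) (T.w_sum x hxr)
    fun i hi => subset_convexHull ℝ _ ⟨T.g i, T.A i x, ?_, rfl⟩
  have hA := T.A_le x hxr i hi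
  have hF1 := hC1 x hxr i hi
  have hFN := hCN x hxr i hi
  rw [norm_iteratedFDeriv_zero] at hF1 hFN
  rw [pow_one] at hF1
  have hr0 : 0 ≤ |Cg| * (1 / cl) ^ cg := by positivity
  have hr1 : 0 ≤ |Cg| * (1 / cl) ^ cg * δ := by positivity
  have hr2 : 0 ≤ Z1 * |C1| * δ := by positivity
  have hr3 : 0 ≤ Z1 * (1 + |C1|) := by positivity
  refine ⟨(T.A_act x hxr i hi).symm, ?_, ?_, ?_, ?_⟩
  · have e : rhoG Γ (T.g i) x = T.A i x - (T.A i x - rhoG Γ (T.g i) x) := by abel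
    have h1 : C1 * T.ϱ x ≤ |C1| * (Z1 * δ) := by
      calc C1 * T.ϱ x ≤ |C1| * T.ϱ x := mul_le_mul_of_nonneg_right (le_abs_self _) hϱ.le
        _ ≤ |C1| * (Z1 * δ) := mul_le_mul_of_nonneg_left hϱZ (abs_nonneg _)
    calc ‖rhoG Γ (T.g i) x‖ = ‖T.A i x - (T.A i x - rhoG Γ (T.g i) x)‖ := by rw [← e]
      _ ≤ ‖T.A i x‖ + ‖T.A i x - rhoG Γ (T.g i) x‖ := norm_sub_le _ _
      _ ≤ Z1 * δ + |C1| * (Z1 * δ) := by linarith
      _ ≤ (Z1 * (1 + |C1|) + |Cg| * (1 / cl) ^ cg) * δ := by nlinarith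
  · have h1 : ‖x‖ / T.ϱ x ≤ (1 / cl) * (‖x‖ / δ) := by
      rw [one_div, ← div_eq_inv_mul, div_div]
      refine div_le_div_of_nonneg_left (norm_nonneg _) (by positivity) ?_
      rwa [mul_comm]
    have h2 : 0 ≤ ‖x‖ / T.ϱ x := by positivity
    calc sz (rhoG Γ (T.g i)) ≤ Cg * (‖x‖ / T.ϱ x) ^ cg := hg x hxr i hi
      _ ≤ |Cg| * (‖x‖ / T.ϱ x) ^ cg :=
          mul_le_mul_of_nonneg_right (le_abs_self _) (by positivity)
      _ ≤ |Cg| * ((1 / cl) * (‖x‖ / δ)) ^ cg :=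
          mul_le_mul_of_nonneg_left (pow_le_pow_left₀ h2 h1 _) (abs_nonneg _)
      _ = (|Cg| * (1 / cl) ^ cg) * (‖x‖ / δ) ^ cg := by rw [mul_pow]; ring
      _ ≤ _ := mul_le_mul_of_nonneg_right (by linarith) (by positivity)
  · calc ‖T.A i x - rhoG Γ (T.g i) x‖ ≤ CN * T.ϱ x ^ N := hFN
      _ ≤ |CN| * T.ϱ x ^ N := mul_le_mul_of_nonneg_right (le_abs_self _) (by positivity)
      _ ≤ |CN| * (Z1 * δ) ^ N :=
          mul_le_mul_of_nonneg_left (pow_le_pow_left₀ hϱ.le hϱZ _) (abs_nonneg _)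
      _ = _ := by rw [mul_pow]; ring
  · calc ‖T.A i x‖ ≤ T.ϱ x := hA
      _ ≤ Z1 * δ := hϱZ
      _ ≤ _ := by nlinarith

theorem deep_exc {D : LocData (M := M) (rhoG Γ)} {T : TData D} {R R' : ℝ} (h : CtxB D T R R')
    {s : ℝ} {φ : EE (k + 1) → EE (k + 1)} (hφ : T.IsSol s φ) (p : Fin (k + 1) → ℤ) (hp : Prim p)
    (hp1 : ‖toE p‖ < R) : ExpB D φ (toE p) := by
  exact branch_good h hφ p hp hp1

/-- transport of the expansion along one element of the group -/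
private theorem two_one {D : LocData (M := M) (rhoG Γ)} {T : TData D} {R R' : ℝ}
    (h : CtxB D T R R') {s : ℝ} {φ : EE (k + 1) → EE (k + 1)} (hφ : T.IsSol s φ)
    (p : Fin (k + 1) → ℤ) (hp : Prim p) (hp2 : ‖toE p‖ < R') (γ : Γ) :
    ∃ (C ε s1 : ℝ) (c : ℕ), 1 ≤ C ∧ 0 < ε ∧ 0 < s1 ∧ ∀ N : ℕ, ∃ CN : ℝ, 0 ≤ CN ∧
      (‖toE (actZ (γ : SLZ (k + 1)) p)‖ < R → ∀ x : EE (k + 1), ‖x‖ < s1 → 0 < dr (toE p) x →
        dr (toE p) x < ε * ‖x‖ → ∀ x1 : EE (k + 1), ‖x1‖ < D.r0 → γ • D.χ x = D.χ x1 →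
        (rhoG Γ γ)⁻¹ (φ x1) ∈ convexHull ℝ {v | ∃ (g : Γ) (a : EE (k + 1)),
          Good D x (dr (toE p) x) C c N CN g a ∧ v = (rhoG Γ g)⁻¹ (φ a)}) := by
  by_cases hq1 : ‖toE (actZ (γ : SLZ (k + 1)) p)‖ < R
  swap
  · exact ⟨1, 1, 1, 0, le_rfl, one_pos, one_pos, fun N => ⟨0, le_rfl, fun h1 => absurd h1 hq1⟩⟩
  set q : Fin (k + 1) → ℤ := actZ (γ : SLZ (k + 1)) p with hq
  have hqp : Prim q := prim_act _ hp
  have hqE : toE q = rhoG Γ γ (toE p) := toE_actZ _ _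
  obtain ⟨Cq, εq, sq, cq, hCq1, hεq, hsq, hexp⟩ := deep_exc h hφ q hqp hq1
  obtain ⟨r, hr, hlin⟩ := lin3_bound h.lin3 γ p hp hp2 (hq1.trans_le h.hRR)
  obtain ⟨C2, hC20, hC2⟩ := hlin 2
  set B : ℝ := max 1 (sz (rhoG Γ γ)) with hB
  have hB1 : 1 ≤ B := le_max_left _ _
  have hB0 : 0 < B := by linarith
  have hBs : sz (rhoG Γ γ) ≤ B := le_max_right _ _
  have hup : ∀ x : EE (k + 1), ‖rhoG Γ γ x‖ ≤ B * ‖x‖ := fun x =>
    (norm_le_sz _ x).trans (mul_le_mul_of_nonneg_right hBs (norm_nonneg _))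
  have hdn : ∀ x : EE (k + 1), ‖x‖ ≤ B * ‖rhoG Γ γ x‖ := fun x =>
    (norm_inv_le_sz _ x).trans (mul_le_mul_of_nonneg_right hBs (norm_nonneg _))
  have hdr1 : ∀ x : EE (k + 1), dr (toE q) (rhoG Γ γ x) ≤ B * dr (toE p) x := by
    intro x
    rw [hqE]
    exact (dr_map (rhoG Γ γ) (toE p) x).trans (mul_le_mul_of_nonneg_right
      ((le_max_left _ _).trans hBs) (dr_nonneg _ _))
  have hdr2 : ∀ x : EE (k + 1), dr (toE p) x ≤ B * dr (toE q) (rhoG Γ γ x) := by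
    intro x
    have h1 := dr_map (rhoG Γ γ)⁻¹ (toE q) (rhoG Γ γ x)
    have h2 : (rhoG Γ γ)⁻¹ (rhoG Γ γ x) = x := (rhoG Γ γ).symm_apply_apply x
    have h3 : (rhoG Γ γ)⁻¹ (toE q) = toE p := by
      rw [hqE]
      exact (rhoG Γ γ).symm_apply_apply _
    rw [h2, h3] at h1
    exact h1.trans (mul_le_mul_of_nonneg_right ((le_max_right _ _).trans hBs) (dr_nonneg _ _))
  -- the neighbourhood on which the map is described by `F`
  have hFball := (D.F_tendsto γ).eventually (ball_mem_nhds (0 : EE (k + 1)) D.r0_pos)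
  obtain ⟨rF, hrF, hrF'⟩ := Metric.eventually_nhds_iff_ball.1 (hFball.and (D.F_act γ))
  set ε : ℝ := min 1 (εq / (4 * B ^ 2)) with hε
  have hε0 : 0 < ε := by positivity
  set s1 : ℝ := min (min (min r rF) (min 1 D.r0)) (min (sq / (2 * B)) (1 / (2 * B * (C2 + 1))))
    with hs1
  have hs10 : 0 < s1 := by
    have := D.r0_pos
    positivity
  refine ⟨Cq * (2 * B) + Cq * (4 * B ^ 2) ^ cq * (B + (Classical.choose (hlin (cq + 1)))), ε, s1, cq,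
    ?_, hε0, hs10, fun N => ?_⟩
  · have h1 : 0 ≤ Classical.choose (hlin (cq + 1)) := (Classical.choose_spec (hlin (cq + 1))).1
    have h2 : 1 ≤ Cq * (2 * B) := by nlinarith
    have h3 : 0 ≤ Cq * (4 * B ^ 2) ^ cq * (B + (Classical.choose (hlin (cq + 1)))) := by positivity
    linarith
  obtain ⟨CN, hCN0, hCN⟩ := hexp N
  obtain ⟨hCM0, hCM⟩ := Classical.choose_spec (hlin (cq + 1))
  set CM : ℝ := Classical.choose (hlin (cq + 1)) with hCMdef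
  obtain ⟨CP, hCP0, hCP⟩ := hlin (N + cq)
  refine ⟨CN * (2 * B) ^ N + Cq * (4 * B ^ 2) ^ cq * CP, by positivity,
    fun _ x hx hd0 hd x1 hx1r hact => ?_⟩
  -- smallness
  have hxr : ‖x‖ < r := hx.trans_le (((min_le_left _ _).trans (min_le_left _ _)).trans
    (min_le_left _ _))
  have hxF : ‖x‖ < rF := hx.trans_le (((min_le_left _ _).trans (min_le_left _ _)).trans
    (min_le_right _ _))
  have hxone : ‖x‖ < 1 := hx.trans_le (((min_le_left _ _).trans (min_le_right _ _)).trans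
    (min_le_left _ _))
  have hxsq : ‖x‖ < sq / (2 * B) := hx.trans_le ((min_le_right _ _).trans (min_le_left _ _))
  have hxC2 : ‖x‖ < 1 / (2 * B * (C2 + 1)) :=
    hx.trans_le ((min_le_right _ _).trans (min_le_right _ _))
  have hx1F : x1 = D.F γ x := by
    obtain ⟨h1, h2⟩ := hrF' x (by rwa [mem_ball_zero_iff])
    refine D.inj (by rwa [mem_ball_zero_iff]) h1 ?_
    rw [← hact, h2]
  set δ : ℝ := dr (toE p) x with hδ
  have hδx : δ ≤ ‖x‖ := dr_le _ _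
  have hδ1 : δ < 1 := hδx.trans_lt hxone
  have hxpos : 0 < ‖x‖ := hd0.trans_le hδx
  have hsmall : C2 * δ ^ 2 ≤ δ / (2 * B) := by
    have h1 : δ * (2 * B * (C2 + 1)) ≤ 1 := by
      have h2 := hδx.trans hxC2.le
      rwa [le_div_iff₀ (by positivity)] at h2
    rw [le_div_iff₀ (by positivity)]
    have h3 : C2 * δ * (2 * B) ≤ 1 := by nlinarith [mul_pos hd0 hB0]
    nlinarith
  have hdiff : ‖x1 - rhoG Γ γ x‖ ≤ C2 * δ ^ 2 := by
    rw [hx1F]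
    exact hC2 x hxr
  have hx1up : ‖x1‖ ≤ 2 * B * ‖x‖ := by
    have e : x1 = (x1 - rhoG Γ γ x) + rhoG Γ γ x := by abel
    have h1 : δ / (2 * B) ≤ ‖x‖ := by
      rw [div_le_iff₀ (by positivity)]
      nlinarith
    calc ‖x1‖ = ‖(x1 - rhoG Γ γ x) + rhoG Γ γ x‖ := by rw [← e]
      _ ≤ ‖x1 - rhoG Γ γ x‖ + ‖rhoG Γ γ x‖ := norm_add_le _ _
      _ ≤ ‖x‖ + B * ‖x‖ := by linarith [hup x]
      _ ≤ 2 * B * ‖x‖ := by nlinarith
  have hx1dn : ‖x‖ ≤ 2 * B * ‖x1‖ := by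
    have e : rhoG Γ γ x = x1 - (x1 - rhoG Γ γ x) := by abel
    have h1 : ‖rhoG Γ γ x‖ ≤ ‖x1‖ + ‖x1 - rhoG Γ γ x‖ := by
      calc ‖rhoG Γ γ x‖ = ‖x1 - (x1 - rhoG Γ γ x)‖ := by rw [← e]
        _ ≤ _ := norm_sub_le _ _
    have h2 := hdn x
    have h3 : B * (δ / (2 * B)) = δ / 2 := by field_simp
    nlinarith [mul_le_mul_of_nonneg_left h1 hB0.le,
      mul_le_mul_of_nonneg_left (hdiff.trans hsmall) hB0.le]
  set δ1 : ℝ := dr (toE q) x1 with hδ1def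
  have hδ1up : δ1 ≤ 2 * B * δ := by
    have h1 := dr_add (toE q) (rhoG Γ γ x) (x1 - rhoG Γ γ x)
    have e : rhoG Γ γ x + (x1 - rhoG Γ γ x) = x1 := by abel
    rw [e] at h1
    have h2 := hdr1 x
    have h3 : δ / (2 * B) ≤ δ := by
      rw [div_le_iff₀ (by positivity)]
      nlinarith
    nlinarith
  have hδ1dn : δ ≤ 2 * B * δ1 := by
    have h1 := dr_add (toE q) x1 (rhoG Γ γ x - x1)
    have e : x1 + (rhoG Γ γ x - x1) = rhoG Γ γ x := by abel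
    rw [e, norm_sub_rev] at h1
    have h2 := hdr2 x
    have h3 : B * (δ / (2 * B)) = δ / 2 := by field_simp
    nlinarith [mul_le_mul_of_nonneg_left h1 hB0.le,
      mul_le_mul_of_nonneg_left (hdiff.trans hsmall) hB0.le]
  have hδ1pos : 0 < δ1 := by
    by_contra hcon
    push Not at hcon
    nlinarith
  have hx1sq : ‖x1‖ < sq := by
    rw [lt_div_iff₀ (by positivity)] at hxsq
    nlinarith
  have hx1cone : δ1 < εq * ‖x1‖ := by
    have h1 : ε * (4 * B ^ 2) ≤ εq := by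
      have h2 := min_le_right 1 (εq / (4 * B ^ 2))
      rwa [← hε, le_div_iff₀ (by positivity)] at h2
    calc δ1 ≤ 2 * B * δ := hδ1up
      _ < 2 * B * (ε * ‖x‖) := by
          apply mul_lt_mul_of_pos_left hd (by positivity)
      _ ≤ 2 * B * (ε * (2 * B * ‖x1‖)) := by gcongr
      _ = (ε * (4 * B ^ 2)) * ‖x1‖ := by ring
      _ ≤ εq * ‖x1‖ := mul_le_mul_of_nonneg_right h1 (norm_nonneg _)
  have hmem := hCN x1 hx1sq hδ1pos hx1cone
  -- transport of the convex hull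
  have hpre : Convex ℝ ((fun v => (rhoG Γ γ)⁻¹ v) ⁻¹' convexHull ℝ {v | ∃ (g : Γ)
      (a : EE (k + 1)), Good D x δ (Cq * (2 * B) + Cq * (4 * B ^ 2) ^ cq * (B + CM)) cq N
        (CN * (2 * B) ^ N + Cq * (4 * B ^ 2) ^ cq * CP) g a ∧ v = (rhoG Γ g)⁻¹ (φ a)}) :=
    (convex_convexHull ℝ _).linear_preimage
      (((rhoG Γ γ)⁻¹ : EE (k + 1) ≃L[ℝ] EE (k + 1)) : EE (k + 1) →ₗ[ℝ] EE (k + 1))
  refine convexHull_min ?_ hpre hmem
  rintro v ⟨g, a, ⟨g1, g2, g3, g4, g5⟩, rfl⟩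
  refine subset_convexHull ℝ _ ⟨g * γ, a, ?_, ?_⟩
  swap
  · rw [map_mul, mul_inv_rev]
    rfl
  -- the pair `(g γ, a)` is good
  set W : ℝ := Cq * (4 * B ^ 2) ^ cq with hW
  have hW0 : 0 ≤ W := by positivity
  have hδx1 : 1 ≤ ‖x‖ / δ := by rwa [one_le_div hd0]
  have hgsz : sz (rhoG Γ g) ≤ W * (‖x‖ / δ) ^ cq := by
    have h1 : ‖x1‖ / δ1 ≤ 4 * B ^ 2 * (‖x‖ / δ) := by
      rw [div_le_iff₀ hδ1pos]
      have h3 : 2 * B * (‖x‖ / δ) * δ ≤ 2 * B * (‖x‖ / δ) * (2 * B * δ1) :=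
        mul_le_mul_of_nonneg_left hδ1dn (by positivity)
      have h4 : 2 * B * (‖x‖ / δ) * δ = 2 * B * ‖x‖ := by field_simp
      have h5 : 2 * B * (‖x‖ / δ) * (2 * B * δ1) = 4 * B ^ 2 * (‖x‖ / δ) * δ1 := by ring
      linarith
    calc sz (rhoG Γ g) ≤ Cq * (‖x1‖ / δ1) ^ cq := g3
      _ ≤ Cq * (4 * B ^ 2 * (‖x‖ / δ)) ^ cq :=
          mul_le_mul_of_nonneg_left (pow_le_pow_left₀ (by positivity) h1 _) (by linarith)
      _ = _ := by rw [mul_pow, hW]; ring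
  have hgsz1 : sz (rhoG Γ g) ≤ W / δ ^ cq := by
    refine hgsz.trans ?_
    rw [div_pow, mul_div_assoc']
    refine div_le_div_of_nonneg_right ?_ (by positivity)
    have h1 : ‖x‖ ^ cq ≤ 1 := pow_le_one₀ (norm_nonneg _) hxone.le
    nlinarith
  have hCM1 : ‖x1 - rhoG Γ γ x‖ ≤ CM * δ ^ (cq + 1) := by
    rw [hx1F]
    exact hCM x hxr
  have hCP1 : ‖x1 - rhoG Γ γ x‖ ≤ CP * δ ^ (N + cq) := by
    rw [hx1F]
    exact hCP x hxr
  have hmul : rhoG Γ (g * γ) x = rhoG Γ g x1 - rhoG Γ g (x1 - rhoG Γ γ x) := by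
    rw [map_mul, ← map_sub]
    change rhoG Γ g (rhoG Γ γ x) = _
    congr 1
    abel
  have hszg0 : 0 ≤ sz (rhoG Γ g) := (norm_nonneg _).trans (le_max_left _ _)
  have hM : ‖rhoG Γ g (x1 - rhoG Γ γ x)‖ ≤ W * CM * δ := by
    calc ‖rhoG Γ g (x1 - rhoG Γ γ x)‖ ≤ sz (rhoG Γ g) * ‖x1 - rhoG Γ γ x‖ := norm_le_sz _ _
      _ ≤ (W / δ ^ cq) * (CM * δ ^ (cq + 1)) :=
          mul_le_mul hgsz1 hCM1 (norm_nonneg _) (by positivity)
      _ = W * CM * δ := by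
          rw [pow_succ]
          field_simp
  have hP : ‖rhoG Γ g (x1 - rhoG Γ γ x)‖ ≤ W * CP * δ ^ N := by
    calc ‖rhoG Γ g (x1 - rhoG Γ γ x)‖ ≤ sz (rhoG Γ g) * ‖x1 - rhoG Γ γ x‖ := norm_le_sz _ _
      _ ≤ (W / δ ^ cq) * (CP * δ ^ (N + cq)) :=
          mul_le_mul hgsz1 hCP1 (norm_nonneg _) (by positivity)
      _ = W * CP * δ ^ N := by
          rw [pow_add]
          field_simp
  have hCq0 : 0 ≤ Cq := by linarith
  have hCqδ : Cq * δ1 ≤ Cq * (2 * B) * δ := by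
    calc Cq * δ1 ≤ Cq * (2 * B * δ) := mul_le_mul_of_nonneg_left hδ1up hCq0
      _ = _ := by ring
  have hWB : 0 ≤ W * B * δ := by positivity
  have hWC : 0 ≤ W * CM * δ := by positivity
  refine ⟨?_, ?_, ?_, ?_, ?_⟩
  · rw [g1, mul_smul, hact]
  · rw [hmul]
    calc ‖rhoG Γ g x1 - rhoG Γ g (x1 - rhoG Γ γ x)‖ ≤
        ‖rhoG Γ g x1‖ + ‖rhoG Γ g (x1 - rhoG Γ γ x)‖ := norm_sub_le _ _
      _ ≤ Cq * (2 * B) * δ + W * CM * δ := add_le_add (g2.trans hCqδ) hM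
      _ ≤ (Cq * (2 * B) + W * (B + CM)) * δ := by nlinarith
  · rw [map_mul]
    have h1 : sz (rhoG Γ g) * sz (rhoG Γ γ) ≤ W * (‖x‖ / δ) ^ cq * B :=
      mul_le_mul hgsz hBs ((norm_nonneg _).trans (le_max_left _ _)) (by positivity)
    refine ((sz_mul _ _).trans h1).trans ?_
    have h2 : W * (‖x‖ / δ) ^ cq * B = (W * B) * (‖x‖ / δ) ^ cq := by ring
    rw [h2]
    refine mul_le_mul_of_nonneg_right ?_ (by positivity)
    have h3 : 0 ≤ Cq * (2 * B) := by positivity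
    have h4 : 0 ≤ W * CM := by positivity
    nlinarith
  · have e : a - rhoG Γ (g * γ) x = (a - rhoG Γ g x1) + rhoG Γ g (x1 - rhoG Γ γ x) := by
      rw [hmul]
      abel
    have h1 : CN * δ1 ^ N ≤ CN * (2 * B) ^ N * δ ^ N := by
      calc CN * δ1 ^ N ≤ CN * (2 * B * δ) ^ N :=
            mul_le_mul_of_nonneg_left (pow_le_pow_left₀ hδ1pos.le hδ1up _) hCN0
        _ = _ := by rw [mul_pow]; ring
    rw [e]
    calc ‖(a - rhoG Γ g x1) + rhoG Γ g (x1 - rhoG Γ γ x)‖ ≤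
        ‖a - rhoG Γ g x1‖ + ‖rhoG Γ g (x1 - rhoG Γ γ x)‖ := norm_add_le _ _
      _ ≤ CN * (2 * B) ^ N * δ ^ N + W * CP * δ ^ N := add_le_add (g4.trans h1) hP
      _ = _ := by ring
  · calc ‖a‖ ≤ Cq * δ1 := g5
      _ ≤ Cq * (2 * B) * δ := hCqδ
      _ ≤ (Cq * (2 * B) + W * (B + CM)) * δ := by nlinarith

theorem deep_two {D : LocData (M := M) (rhoG Γ)} {T : TData D} {R R' : ℝ} (h : CtxB D T R R')
    {s : ℝ} {φ : EE (k + 1) → EE (k + 1)} (hφ : T.IsSol s φ) (p : Fin (k + 1) → ℤ) (hp : Prim p)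
    (hp1 : R ≤ ‖toE p‖) (hp2 : ‖toE p‖ < R') : ExpB D φ (toE p) := by
  classical
  obtain ⟨c0, hc0, hsep⟩ := dr_sep k R'
  obtain ⟨cl, hcl, hlow⟩ := h.low
  obtain ⟨Cg, cg, hg⟩ := T.g_bound
  obtain ⟨C2, hC2⟩ := T.A_flat 0 2
  set B : ℝ := max 1 (|Cg| * (2 / (cl * c0)) ^ cg) with hB
  have hB1 : 1 ≤ B := le_max_left _ _
  have hB0 : 0 < B := by linarith
  -- finitely many group elements
  have hfin : {γ : Γ | sz (rhoG Γ γ) ≤ B}.Finite := by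
    have h1 := (finite_nrm (k + 1) B).preimage
      (f := fun γ : Γ => (γ : SLZ (k + 1))) (Subtype.val_injective.injOn)
    refine h1.subset fun γ hγ => ?_
    have h2 := sz_rhoG Γ γ
    change nrm (γ : SLZ (k + 1)) ≤ B
    exact (le_max_left _ _).trans (h2.symm.le.trans hγ)
  set G : Finset Γ := hfin.toFinset with hG
  have hGmem : ∀ γ : Γ, sz (rhoG Γ γ) ≤ B → γ ∈ G := fun γ hγ => hfin.mem_toFinset.2 hγ
  choose C ε s1 c hC1 hε0 hs10 CN hCN0 hmain using fun γ : Γ => two_one h hφ p hp hp2 γ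
  obtain ⟨e1, he10, he1⟩ := fin_min G ε fun i _ => hε0 i
  obtain ⟨t1, ht10, ht1⟩ := fin_min G s1 fun i _ => hs10 i
  have hlam := T.lam_pos
  set ε' : ℝ := min (min (c0 / 2) e1) (min (1 / 2) (T.lam / (4 * B))) with hε'
  set s' : ℝ := min (min s t1) (T.lam / (2 * (|C2| + 1))) with hs'
  have hs'0 : 0 < s' := by
    have := hφ.s_pos
    positivity
  refine ⟨1 + ∑ γ ∈ G, C γ, ε', s', ∑ γ ∈ G, c γ, ?_, by positivity, hs'0, fun N => ?_⟩
  · have h1 : 0 ≤ ∑ γ ∈ G, C γ := Finset.sum_nonneg fun i _ => zero_le_one.trans (hC1 i)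
    linarith
  refine ⟨∑ γ ∈ G, CN γ N, Finset.sum_nonneg fun i _ => hCN0 i N, fun x hx hd0 hd => ?_⟩
  set δ : ℝ := dr (toE p) x with hδ
  have hδx : δ ≤ ‖x‖ := dr_le _ _
  have hxpos : 0 < ‖x‖ := hd0.trans_le hδx
  have hx0 : x ≠ 0 := norm_pos_iff.1 hxpos
  have hxs : ‖x‖ < s := hx.trans_le ((min_le_left _ _).trans (min_le_left _ _))
  have hxt : ‖x‖ < t1 := hx.trans_le ((min_le_left _ _).trans (min_le_right _ _))
  have hxl : ‖x‖ < T.lam / (2 * (|C2| + 1)) := hx.trans_le (min_le_right _ _)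
  have hd1 : δ < c0 / 2 * ‖x‖ := hd.trans_le (mul_le_mul_of_nonneg_right
    ((min_le_left _ _).trans (min_le_left _ _)) hxpos.le)
  have hd2 : δ < e1 * ‖x‖ := hd.trans_le (mul_le_mul_of_nonneg_right
    ((min_le_left _ _).trans (min_le_right _ _)) hxpos.le)
  -- distance to the exceptional rays
  have hdist : c0 / 2 * ‖x‖ ≤ infDist x (ZB k R) := by
    obtain ⟨⟨q, hq, hq1, hq2⟩, -⟩ := ZB_dist k R h.hR x
    have hpq : p ≠ q := by
      rintro rfl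
      linarith
    have h1 := hsep p q hp hq hp2 (hq1.trans_le h.hRR) hpq x
    rw [hq2]
    linarith
  have hxZ : x ∉ T.Z := by
    intro hxz
    rw [h.hZ] at hxz
    have h1 := infDist_zero_of_mem hxz
    rw [h1] at hdist
    have h2 : 0 < c0 / 2 * ‖x‖ := by positivity
    linarith
  have hxsm : x ∈ ball (0 : EE (k + 1)) s \ T.Z := ⟨by rwa [mem_ball_zero_iff], hxZ⟩
  have hxr : x ∈ ball (0 : EE (k + 1)) T.r \ T.Z := ⟨ball_subset_ball hφ.s_le hxsm.1, hxZ⟩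
  have hϱ : 0 < T.ϱ x := T.ϱ_pos x hxr
  have hϱu : T.ϱ x ≤ T.lam * ‖x‖ := T.ϱ_le x hxr
  have hϱx : T.ϱ x ≤ ‖x‖ := hϱu.trans (by nlinarith [T.lam_lt])
  have hϱl : cl * c0 / 2 * ‖x‖ ≤ T.ϱ x := by
    have h1 := hlow x hxr
    rw [h.hZ] at h1
    calc cl * c0 / 2 * ‖x‖ = cl * (c0 / 2 * ‖x‖) := by ring
      _ ≤ cl * infDist x (ZB k R) := mul_le_mul_of_nonneg_left hdist hcl.le
      _ ≤ _ := h1
  rw [hφ.fix x hxsm]
  refine Convex.sum_mem (convex_convexHull ℝ _) (fun i _ => T.w_nonneg i x) (T.w_sum x hxr)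
    fun i hi => ?_
  have hA := T.A_le x hxr i hi
  have hF2 := hC2 x hxr i hi
  rw [norm_iteratedFDeriv_zero] at hF2
  -- the group element is one of finitely many
  have hszB : sz (rhoG Γ (T.g i)) ≤ B := by
    refine le_trans ?_ (le_max_right _ _)
    have h1 : ‖x‖ / T.ϱ x ≤ 2 / (cl * c0) := by
      rw [div_le_div_iff₀ hϱ (by positivity)]
      linarith
    calc sz (rhoG Γ (T.g i)) ≤ Cg * (‖x‖ / T.ϱ x) ^ cg := hg x hxr i hi
      _ ≤ |Cg| * (‖x‖ / T.ϱ x) ^ cg :=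
          mul_le_mul_of_nonneg_right (le_abs_self _) (by positivity)
      _ ≤ |Cg| * (2 / (cl * c0)) ^ cg :=
          mul_le_mul_of_nonneg_left (pow_le_pow_left₀ (by positivity) h1 _) (abs_nonneg _)
  have hmemG : T.g i ∈ G := hGmem _ hszB
  -- it maps `p` to a short vector
  have hshort : ‖toE (actZ (T.g i : SLZ (k + 1)) p)‖ < R := by
    have h1 : ‖rhoG Γ (T.g i) x‖ ≤ (3 / 2 * T.lam) * ‖x‖ := by
      have e : rhoG Γ (T.g i) x = T.A i x - (T.A i x - rhoG Γ (T.g i) x) := by abel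
      have h2 : C2 * T.ϱ x ^ 2 ≤ T.lam / 2 * ‖x‖ := by
        have h3 : |C2| * ‖x‖ ≤ T.lam / 2 := by
          rw [lt_div_iff₀ (by positivity)] at hxl
          nlinarith [abs_nonneg C2]
        calc C2 * T.ϱ x ^ 2 ≤ |C2| * T.ϱ x ^ 2 :=
              mul_le_mul_of_nonneg_right (le_abs_self _) (by positivity)
          _ ≤ |C2| * ‖x‖ ^ 2 :=
              mul_le_mul_of_nonneg_left (pow_le_pow_left₀ hϱ.le hϱx _) (abs_nonneg _)
          _ = (|C2| * ‖x‖) * ‖x‖ := by ring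
          _ ≤ T.lam / 2 * ‖x‖ := mul_le_mul_of_nonneg_right h3 hxpos.le
      calc ‖rhoG Γ (T.g i) x‖ = ‖T.A i x - (T.A i x - rhoG Γ (T.g i) x)‖ := by rw [← e]
        _ ≤ ‖T.A i x‖ + ‖T.A i x - rhoG Γ (T.g i) x‖ := norm_sub_le _ _
        _ ≤ T.lam * ‖x‖ + T.lam / 2 * ‖x‖ := by linarith
        _ = _ := by ring
    have h2 := short_image (T.g i : SLZ (k + 1)) p ε' (3 / 2 * T.lam) x hx0 hd h1
    have h3 : nrm (T.g i : SLZ (k + 1)) ≤ B :=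
      (le_max_left _ _).trans ((sz_rhoG Γ (T.g i)).symm.le.trans hszB)
    have hε1 : ε' ≤ 1 / 2 := (min_le_right _ _).trans (min_le_left _ _)
    have hε0' : 0 < ε' := by positivity
    have hε2 : B * ε' ≤ T.lam / 4 := by
      have h4 : ε' ≤ T.lam / (4 * B) := (min_le_right _ _).trans (min_le_right _ _)
      rw [le_div_iff₀ (by positivity)] at h4
      linarith
    have h5 : nrm (T.g i : SLZ (k + 1)) * ε' ≤ T.lam / 4 :=
      (mul_le_mul_of_nonneg_right h3 hε0'.le).trans hε2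
    have h6 := norm_nonneg (toE (actZ (T.g i : SLZ (k + 1)) p))
    have h7 : 0 < ‖toE p‖ := by linarith [one_le_toE hp]
    have h8 := h.two
    nlinarith
  have hx1r : ‖T.A i x‖ < D.r0 := by
    have h1 : ‖x‖ < T.r := by
      have := hxr.1
      rwa [mem_ball_zero_iff] at this
    linarith [T.r_le']
  have hres := hmain (T.g i) N hshort x (hxt.trans_le (ht1 _ hmemG)) hd0
    (hd2.trans_le (mul_le_mul_of_nonneg_right (he1 _ hmemG) hxpos.le)) (T.A i x) hx1r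
    (T.A_act x hxr i hi)
  refine convexHull_mono ?_ hres
  rintro v ⟨g, a, hga, rfl⟩
  refine ⟨g, a, good_mono hga (zero_le_one.trans (hC1 _)) ?_ ?_ ?_ hd0 hδx, rfl⟩
  · have h1 := Finset.single_le_sum (f := C) (fun i _ => zero_le_one.trans (hC1 i)) hmemG
    linarith
  · exact Finset.single_le_sum (f := c) (fun i _ => Nat.zero_le _) hmemG
  · exact Finset.single_le_sum (f := fun γ => CN γ N) (fun i _ => hCN0 i N) hmemG

end LatLin.B
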