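import Pool.Agent.Lib.MP_2392aa_gt.B.PairB
import Pool.Agent.Lib.MP_2392aa_gt.B.DeepB
import Pool.Agent.Lib.MP_2392aa_gt.Geom

/-!
MODULE CaseDeep. Equivariance improves near the rays.

PROOF. `Lb = max (nrm σ) (nrm σ⁻¹)`, `δ = dr p x`, `x' = F σ x`. Constants `C, ε₀, s₀, c` of `ExpB` for `p` and for `σ p`
(take the worst). `lin3_bound` for `(σ, p)`: `‖x' - ρ σ x‖ ≤ C_N δ^N`. `dr_map` for `σ` and `σ⁻¹`:
`δ' := dr (σ p) x'` satisfies `δ / (2 Lb) ≤ δ' ≤ 2 Lb δ`, and `‖x‖/(2 Lb) ≤ ‖x'‖ ≤ 2 Lb ‖x‖`, so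
`δ' < ε₀ ‖x'‖` if `ε ≤ ε₀ / (4 Lb²)`. For small `x`: `σ • χ x = χ x'`.
By `convex_bound` (`ℓ = ρ σ`) it suffices to bound `‖(ρ g')⁻¹ (φ a') - ρ σ ((ρ g)⁻¹ (φ a))‖` for good pairs
`(g, a)` at `x` and `(g', a')` at `x'`. Put `h = g' * σ`: `χ a' = h • χ x`,
`‖ρ h x‖ ≤ ‖ρ g' x'‖ + ‖ρ g'‖ ‖x' - ρ σ x‖ ≤ C'' δ`, `sz (ρ h) ≤ C'' (‖x‖/δ)^c`, and the quantity is
`‖ρ σ ((ρ h)⁻¹ (φ a') - (ρ g)⁻¹ (φ a))‖`. Apply `pair_cost` with `c := C'' δ`,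
`B := C'' (‖x‖/δ)^c` (`≥ 2`), `e := C_(N2) δ^(N2)`, `N2` large (`≥ 6 c Cc + 2`): the smallness hypothesis is
`C (‖x‖/δ)^(c 6 Cc) δ^(N2) ≤ Cc C'' δ`, true for small `x` (`(‖x‖/δ)^j ≤ δ^(-j)`). The result is
`≤ C₃ (‖x‖/δ)^j κ (C₄ δ)^N` with `j` and `C₃, C₄` independent of `N`; and
`Lb C₃ (‖x‖/δ)^j (C₄ δ)^N = Lb C₃ C₄^N (δ/‖x‖)^(N-j) ‖x‖^N ≤ ‖x‖^N / 2` if `C₄ ε ≤ 1/2` and `N ≥ N0`.
`Cc ≥ 1` is assumed.
-/

open scoped ContDiff Topology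
open Metric

namespace LatLin.B

private theorem cd_final {Lb C3 C4 ε κ X δ : ℝ} {j N n0 : ℕ} (hN : j + n0 ≤ N) (hLb : 0 ≤ Lb)
    (hC3 : 0 ≤ C3) (hC4 : 0 < C4) (hκ : 0 ≤ κ) (hδ : 0 < δ) (hδX : δ < ε * X) (hX : 0 < X)
    (hε : C4 * ε ≤ 1 / 2) (hn0 : 2 * (Lb * C3 * C4 ^ j) ≤ 2 ^ n0) :
    Lb * (C3 * (X / δ) ^ j * (κ * (C4 * δ) ^ N)) ≤ κ / 2 * X ^ N := by
  obtain ⟨m, rfl⟩ := Nat.exists_eq_add_of_le (show j ≤ N by omega)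
  have hm : n0 ≤ m := by omega
  have h1 : C4 * δ ≤ X / 2 := by
    have h2 : C4 * δ ≤ C4 * (ε * X) := mul_le_mul_of_nonneg_left hδX.le hC4.le
    nlinarith
  have h2 : (C4 * δ) ^ m ≤ (X / 2) ^ m := pow_le_pow_left₀ (by positivity) h1 m
  have h3 : (X / δ) ^ j * (C4 * δ) ^ j = C4 ^ j * X ^ j := by
    rw [← mul_pow, ← mul_pow]
    congr 1
    field_simp
  have h4 : (2 : ℝ) ^ n0 ≤ 2 ^ m := pow_le_pow_right₀ (by norm_num) hm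
  have h5 : Lb * C3 * C4 ^ j * (X / 2) ^ m ≤ 1 / 2 * X ^ m := by
    rw [div_pow, mul_div_assoc', div_le_iff₀ (by positivity)]
    have h6 : 2 * (Lb * C3 * C4 ^ j) ≤ 2 ^ m := hn0.trans h4
    have h7 : 0 ≤ X ^ m := by positivity
    nlinarith
  calc Lb * (C3 * (X / δ) ^ j * (κ * (C4 * δ) ^ (j + m)))
      = κ * (Lb * C3) * ((X / δ) ^ j * (C4 * δ) ^ j) * (C4 * δ) ^ m := by rw [pow_add]; ring
    _ = κ * (Lb * C3) * (C4 ^ j * X ^ j) * (C4 * δ) ^ m := by rw [h3]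
    _ ≤ κ * (Lb * C3) * (C4 ^ j * X ^ j) * (X / 2) ^ m :=
        mul_le_mul_of_nonneg_left h2 (by positivity)
    _ = κ * X ^ j * (Lb * C3 * C4 ^ j * (X / 2) ^ m) := by ring
    _ ≤ κ * X ^ j * (1 / 2 * X ^ m) := mul_le_mul_of_nonneg_left h5 (by positivity)
    _ = κ / 2 * X ^ (j + m) := by rw [pow_add]; ring

private theorem cd_small {C CN Cp X δ : ℝ} {c Cc : ℕ} (hC : 2 ≤ C) (hCN : 0 ≤ CN) (hCp : 0 ≤ Cp)
    (hCc : 1 ≤ Cc) (hδ : 0 < δ) (hδX : δ ≤ X) (hX1 : X ≤ 1)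
    (hK : C ^ (6 * Cc) * (CN + Cp * (2 * (Cc * C)) ^ (6 * c * Cc + 2)) * X ≤ 1) :
    ((C * (X / δ) ^ c) ^ 2) ^ (2 * Cc) * (CN * δ ^ (6 * c * Cc + 2) +
      ((C * (X / δ) ^ c) ^ 2) ^ Cc * Cp * (2 * (Cc * (C * δ))) ^ (6 * c * Cc + 2)) ≤
        Cc * (C * δ) := by
  have hX : 0 < X := lt_of_lt_of_le hδ hδX
  have hu : 1 ≤ X / δ := by rwa [one_le_div hδ]
  set B : ℝ := C * (X / δ) ^ c with hB
  have hB1 : 1 ≤ B := by
    have := one_le_pow₀ hu (n := c)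
    nlinarith
  have hB2 : 1 ≤ B ^ 2 := one_le_pow₀ hB1
  have hCc' : (1 : ℝ) ≤ Cc := by exact_mod_cast hCc
  have h1 : (B ^ 2) ^ (2 * Cc) ≤ (B ^ 2) ^ (3 * Cc) := pow_le_pow_right₀ hB2 (by omega)
  have h2 : (B ^ 2) ^ (3 * Cc) = C ^ (6 * Cc) * (X / δ) ^ (6 * c * Cc) := by
    rw [hB, ← pow_mul, mul_pow, ← pow_mul]
    congr 2 <;> ring
  have h3 : (B ^ 2) ^ (2 * Cc) * (B ^ 2) ^ Cc = (B ^ 2) ^ (3 * Cc) := by
    rw [← pow_add]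
    congr 1
    ring
  have h4 : (2 * (Cc * (C * δ))) ^ (6 * c * Cc + 2) =
      (2 * (Cc * C)) ^ (6 * c * Cc + 2) * δ ^ (6 * c * Cc + 2) := by
    rw [← mul_pow]
    congr 1
    ring
  have h5 : (X / δ) ^ (6 * c * Cc) * δ ^ (6 * c * Cc + 2) = X ^ (6 * c * Cc) * δ ^ 2 := by
    rw [pow_add, ← mul_assoc, ← mul_pow, div_mul_cancel₀ _ hδ.ne']
  have h6 : X ^ (6 * c * Cc) ≤ 1 := pow_le_one₀ hX.le hX1
  set q : ℝ := CN + Cp * (2 * (Cc * C)) ^ (6 * c * Cc + 2) with hq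
  have hq0 : 0 ≤ q := by positivity
  calc (B ^ 2) ^ (2 * Cc) * (CN * δ ^ (6 * c * Cc + 2) +
        (B ^ 2) ^ Cc * Cp * (2 * (Cc * (C * δ))) ^ (6 * c * Cc + 2))
      = (B ^ 2) ^ (2 * Cc) * (CN * δ ^ (6 * c * Cc + 2)) + ((B ^ 2) ^ (2 * Cc) * (B ^ 2) ^ Cc) *
        (Cp * (2 * (Cc * C)) ^ (6 * c * Cc + 2) * δ ^ (6 * c * Cc + 2)) := by rw [h4]; ring
    _ ≤ (B ^ 2) ^ (3 * Cc) * (CN * δ ^ (6 * c * Cc + 2)) + ((B ^ 2) ^ (2 * Cc) * (B ^ 2) ^ Cc) *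
        (Cp * (2 * (Cc * C)) ^ (6 * c * Cc + 2) * δ ^ (6 * c * Cc + 2)) := by
        gcongr
    _ = C ^ (6 * Cc) * q * ((X / δ) ^ (6 * c * Cc) * δ ^ (6 * c * Cc + 2)) := by
        rw [h3, h2, hq]
        ring
    _ = C ^ (6 * Cc) * q * (X ^ (6 * c * Cc) * δ ^ 2) := by rw [h5]
    _ ≤ C ^ (6 * Cc) * q * (1 * (X * δ)) := by
        refine mul_le_mul_of_nonneg_left ?_ (by positivity)
        refine mul_le_mul h6 ?_ (by positivity) zero_le_one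
        nlinarith
    _ = (C ^ (6 * Cc) * q * X) * δ := by ring
    _ ≤ 1 * δ := mul_le_mul_of_nonneg_right hK hδ.le
    _ ≤ Cc * (C * δ) := by
        have : 1 ≤ Cc * C := by nlinarith
        nlinarith

private theorem cd_a {a b : ℝ} (ha : 1 ≤ a) (hb : 2 ≤ b) : 4 ≤ 2 * (a * b) := by nlinarith

private theorem cd_b {s q : ℝ} (hs : 0 < s) (h : s * (2 * (q + 1)) ≤ 1) : q * s ≤ 1 / 2 := by
  nlinarith

private theorem cd_c {s q : ℝ} (hs : 0 < s) (h : s * (q + 1) ≤ 1) : q * s ≤ 1 := by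
  nlinarith

private theorem cd_d {a b δ : ℝ} (hδ : 0 ≤ δ) (h : a * b * δ ≤ 1 / 2) :
    a * (b * δ ^ 2) ≤ δ / 2 := by
  nlinarith

variable {k : ℕ} {Γ : Subgroup (SLZ (k + 1))} {M : Type*} [TopologicalSpace M] [MulAction Γ M]

private theorem cd_le_sz (g : Γ) (v : EE (k + 1)) : ‖rhoG Γ g v‖ ≤ sz (rhoG Γ g) * ‖v‖ :=
  (((rhoG Γ g : EE (k + 1) ≃L[ℝ] EE (k + 1)) : EE (k + 1) →L[ℝ] EE (k + 1)).le_opNorm v).trans
    (mul_le_mul_of_nonneg_right (le_max_left _ _) (norm_nonneg _))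

private theorem cd_le_sz' (g : Γ) (v : EE (k + 1)) : ‖v‖ ≤ sz (rhoG Γ g) * ‖rhoG Γ g v‖ := by
  have h1 : (rhoG Γ g)⁻¹ (rhoG Γ g v) = v := (rhoG Γ g).symm_apply_apply v
  have h2 : ‖(rhoG Γ g)⁻¹ (rhoG Γ g v)‖ ≤ sz (rhoG Γ g) * ‖rhoG Γ g v‖ :=
    ((((rhoG Γ g)⁻¹ : EE (k + 1) ≃L[ℝ] EE (k + 1)) :
      EE (k + 1) →L[ℝ] EE (k + 1)).le_opNorm (rhoG Γ g v)).trans
    (mul_le_mul_of_nonneg_right (le_max_right _ _) (norm_nonneg _))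
  rwa [h1] at h2

private theorem cd_mul (g h : Γ) (v : EE (k + 1)) :
    rhoG Γ (g * h) v = rhoG Γ g (rhoG Γ h v) := by
  rw [map_mul]
  rfl

private theorem cd_inv (g h : Γ) (v : EE (k + 1)) :
    (rhoG Γ g)⁻¹ v = rhoG Γ h ((rhoG Γ (g * h))⁻¹ v) := by
  have h1 : rhoG Γ (g * h) ((rhoG Γ (g * h))⁻¹ v) = v := (rhoG Γ (g * h)).apply_symm_apply v
  rw [cd_mul] at h1
  have h2 : (rhoG Γ g)⁻¹ (rhoG Γ g (rhoG Γ h ((rhoG Γ (g * h))⁻¹ v))) =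
      rhoG Γ h ((rhoG Γ (g * h))⁻¹ v) := (rhoG Γ g).symm_apply_apply _
  rw [h1] at h2
  exact h2

theorem case_deep {D : LocData (M := M) (rhoG Γ)} (hD : D.IsFlat) {R' : ℝ} (h3 : Lin3 D R')
    (S : Finset (SLZ (k + 1))) (Cc : ℕ) (hCc : 1 ≤ Cc) (hconn : ConnPoly Γ S Cc)
    {φ : EE (k + 1) → EE (k + 1)} (σ : Γ) (p : Fin (k + 1) → ℤ) (hp : Prim p)
    (hp1 : ‖toE p‖ < R') (hp2 : ‖toE (actZ (σ : SLZ (k + 1)) p)‖ < R')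
    (he1 : ExpB D φ (toE p)) (he2 : ExpB D φ (toE (actZ (σ : SLZ (k + 1)) p))) :
    ∃ (ε : ℝ) (N0 : ℕ), 0 < ε ∧ ∀ N ≥ N0, ∃ s1 : ℝ, 0 < s1 ∧ ∀ (κ s2 : ℝ), 0 ≤ κ → s2 ≤ s1 →
      EqB D S φ κ s2 N → ∀ x : EE (k + 1), ‖x‖ < s2 → 0 < dr (toE p) x →
        dr (toE p) x < ε * ‖x‖ → ‖φ (D.F σ x) - rhoG Γ σ (φ x)‖ ≤ κ / 2 * ‖x‖ ^ N := by
  classical
  have hq : toE (actZ (σ : SLZ (k + 1)) p) = rhoG Γ σ (toE p) := toE_actZ _ _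
  obtain ⟨C1, ε1, t1, c1, hC1, hε1, ht1, H1⟩ := he1
  obtain ⟨C2, ε2, t2, c2, hC2, hε2, ht2, H2⟩ := he2
  obtain ⟨r, hr, hlin⟩ := lin3_bound h3 σ p hp hp1 hp2
  obtain ⟨E2, hE2, hlin2⟩ := hlin 2
  obtain ⟨Ec, hEc, hlinc⟩ := hlin (c2 + 1)
  obtain ⟨r1, hr1, hr1r, hr11, hpair⟩ := pair_cost Γ S Cc hconn D hD
  -- constants
  obtain ⟨Lb, hLb, hLbs⟩ : ∃ Lb : ℝ, 1 ≤ Lb ∧ sz (rhoG Γ σ) ≤ Lb :=
    ⟨max 1 (sz (rhoG Γ σ)), le_max_left _ _, le_max_right _ _⟩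
  have hσ1 : ∀ v : EE (k + 1), ‖rhoG Γ σ v‖ ≤ Lb * ‖v‖ := fun v =>
    (cd_le_sz σ v).trans (mul_le_mul_of_nonneg_right hLbs (norm_nonneg _))
  have hσ2 : ∀ v : EE (k + 1), ‖v‖ ≤ Lb * ‖rhoG Γ σ v‖ := fun v =>
    (cd_le_sz' σ v).trans (mul_le_mul_of_nonneg_right hLbs (norm_nonneg _))
  obtain ⟨G, hG⟩ : ∃ G : ℝ, G = C2 * (4 * Lb ^ 2) ^ c2 := ⟨_, rfl⟩
  have hG0 : 0 ≤ G := by rw [hG]; positivity
  obtain ⟨C, hCdef⟩ : ∃ C : ℝ, C = C1 + 2 * Lb * C2 + G * Ec + G * Lb + 2 := ⟨_, rfl⟩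
  have hGE : 0 ≤ G * Ec := by positivity
  have hGL : 0 ≤ G * Lb := by positivity
  have hLC : 0 ≤ 2 * Lb * C2 := by positivity
  have hC2' : 2 ≤ C := by rw [hCdef]; linarith
  obtain ⟨c, hc⟩ : ∃ c : ℕ, c = max c1 c2 := ⟨_, rfl⟩
  have hc1 : c1 ≤ c := by rw [hc]; exact le_max_left _ _
  have hc2 : c2 ≤ c := by rw [hc]; exact le_max_right _ _
  have hCcR : (1 : ℝ) ≤ (Cc : ℝ) := by exact_mod_cast hCc
  obtain ⟨C4, hC4def⟩ : ∃ C4 : ℝ, C4 = 2 * (Cc * C) := ⟨_, rfl⟩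
  have hC4 : 4 ≤ C4 := by rw [hC4def]; exact cd_a hCcR hC2'
  have hC4pos : 0 < C4 := by linarith
  obtain ⟨C3, hC3def⟩ : ∃ C3 : ℝ, C3 = C ^ (4 * Cc + 1) := ⟨_, rfl⟩
  have hC3 : 0 ≤ C3 := by rw [hC3def]; positivity
  obtain ⟨j, hj⟩ : ∃ j : ℕ, j = c * (4 * Cc + 1) := ⟨_, rfl⟩
  obtain ⟨n0, hn0⟩ : ∃ n0 : ℕ, 2 * (Lb * C3 * C4 ^ j) ≤ 2 ^ n0 := by
    obtain ⟨n0, hn0⟩ := pow_unbounded_of_one_lt (2 * (Lb * C3 * C4 ^ j)) (one_lt_two (α := ℝ))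
    exact ⟨n0, hn0.le⟩
  obtain ⟨CN, hCN, H1'⟩ := H1 (6 * c * Cc + 2)
  obtain ⟨CN2, hCN2, H2'⟩ := H2 0
  obtain ⟨Cp, hCp, hpair'⟩ := hpair (6 * c * Cc + 2)
  obtain ⟨K, hK⟩ : ∃ K : ℝ, K = C ^ (6 * Cc) *
    (CN + Cp * (2 * (Cc * C)) ^ (6 * c * Cc + 2)) := ⟨_, rfl⟩
  have hK0 : 0 ≤ K := by rw [hK]; positivity
  -- the cone
  obtain ⟨ε, hε0, hεa, hεb, hεc, hεd⟩ : ∃ ε : ℝ, 0 < ε ∧ ε ≤ ε1 ∧ 4 * Lb ^ 2 * ε ≤ ε2 ∧
      C4 * ε ≤ 1 / 2 ∧ ε ≤ 1 := by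
    refine ⟨min (min ε1 (ε2 / (4 * Lb ^ 2))) (min (1 / (2 * C4)) 1), ?_, ?_, ?_, ?_, ?_⟩
    · positivity
    · exact (min_le_left _ _).trans (min_le_left _ _)
    · have h : min (min ε1 (ε2 / (4 * Lb ^ 2))) (min (1 / (2 * C4)) 1) ≤ ε2 / (4 * Lb ^ 2) :=
        (min_le_left _ _).trans (min_le_right _ _)
      rw [le_div_iff₀ (by positivity)] at h
      linarith
    · have h : min (min ε1 (ε2 / (4 * Lb ^ 2))) (min (1 / (2 * C4)) 1) ≤ 1 / (2 * C4) :=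
        (min_le_right _ _).trans (min_le_left _ _)
      rw [le_div_iff₀ (by positivity)] at h
      linarith
    · exact (min_le_right _ _).trans (min_le_right _ _)
  refine ⟨ε, j + n0, hε0, fun N hN => ?_⟩
  -- the radius
  obtain ⟨t3, ht3, hact⟩ := Metric.eventually_nhds_iff_ball.1 (D.F_act σ)
  obtain ⟨s1, hs1, ha1, ha2, ha3, ha4, ha5, ha6, ha7, ha8⟩ : ∃ s1 : ℝ, 0 < s1 ∧ s1 ≤ r1 ∧
      s1 ≤ r ∧ s1 ≤ t1 ∧ 2 * Lb * s1 ≤ t2 ∧ Lb * E2 * s1 ≤ 1 / 2 ∧ s1 ≤ 1 ∧ K * s1 ≤ 1 ∧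
      s1 ≤ t3 := by
    refine ⟨min (min (min r1 r) (min t1 (t2 / (2 * Lb)))) (min (min (1 / (2 * (Lb * E2 + 1))) 1)
      (min (1 / (K + 1)) t3)), ?_, ?_, ?_, ?_, ?_, ?_, ?_, ?_, ?_⟩
    · positivity
    · exact ((min_le_left _ _).trans (min_le_left _ _)).trans (min_le_left _ _)
    · exact ((min_le_left _ _).trans (min_le_left _ _)).trans (min_le_right _ _)
    · exact ((min_le_left _ _).trans (min_le_right _ _)).trans (min_le_left _ _)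
    · have h : min (min (min r1 r) (min t1 (t2 / (2 * Lb)))) (min (min (1 / (2 * (Lb * E2 + 1))) 1)
        (min (1 / (K + 1)) t3)) ≤ t2 / (2 * Lb) :=
        ((min_le_left _ _).trans (min_le_right _ _)).trans (min_le_right _ _)
      rw [le_div_iff₀ (by positivity)] at h
      linarith
    · have h : min (min (min r1 r) (min t1 (t2 / (2 * Lb)))) (min (min (1 / (2 * (Lb * E2 + 1))) 1)
        (min (1 / (K + 1)) t3)) ≤ 1 / (2 * (Lb * E2 + 1)) :=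
        ((min_le_right _ _).trans (min_le_left _ _)).trans (min_le_left _ _)
      have h0 : 0 < min (min (min r1 r) (min t1 (t2 / (2 * Lb))))
        (min (min (1 / (2 * (Lb * E2 + 1))) 1) (min (1 / (K + 1)) t3)) := by positivity
      rw [le_div_iff₀ (by positivity)] at h
      exact cd_b h0 h
    · exact ((min_le_right _ _).trans (min_le_left _ _)).trans (min_le_right _ _)
    · have h : min (min (min r1 r) (min t1 (t2 / (2 * Lb)))) (min (min (1 / (2 * (Lb * E2 + 1))) 1)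
        (min (1 / (K + 1)) t3)) ≤ 1 / (K + 1) :=
        ((min_le_right _ _).trans (min_le_right _ _)).trans (min_le_left _ _)
      have h0 : 0 < min (min (min r1 r) (min t1 (t2 / (2 * Lb))))
        (min (min (1 / (2 * (Lb * E2 + 1))) 1) (min (1 / (K + 1)) t3)) := by positivity
      rw [le_div_iff₀ (by positivity)] at h
      exact cd_c h0 h
    · exact ((min_le_right _ _).trans (min_le_right _ _)).trans (min_le_right _ _)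
  refine ⟨s1, hs1, fun κ s2 hκ hs2 hEq x hx hδ hδε => ?_⟩
  -- elementary estimates
  obtain ⟨δ, hδdef⟩ : ∃ δ : ℝ, δ = dr (toE p) x := ⟨_, rfl⟩
  obtain ⟨X, hXdef⟩ : ∃ X : ℝ, X = ‖x‖ := ⟨_, rfl⟩
  rw [← hδdef, ← hXdef] at hδε
  rw [← hδdef] at hδ
  have hxs1 : ‖x‖ < s1 := lt_of_lt_of_le hx hs2
  have hXs1 : X < s1 := by rw [hXdef]; exact hxs1
  have hXpos : 0 < X := by
    rcases (norm_nonneg x).lt_or_eq with h | h
    · rw [hXdef]; exact h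
    · exfalso
      rw [hXdef, ← h, mul_zero] at hδε
      linarith
  have hδX : δ ≤ X := hδε.le.trans (mul_le_of_le_one_left hXpos.le hεd)
  have hLδ : δ ≤ Lb * δ := le_mul_of_one_le_left hδ.le hLb
  have hLX : X ≤ Lb * X := le_mul_of_one_le_left hXpos.le hLb
  have hX1 : X ≤ 1 := by linarith
  obtain ⟨x', hx'def⟩ : ∃ x', x' = D.F σ x := ⟨_, rfl⟩
  obtain ⟨δ', hδ'def⟩ : ∃ δ' : ℝ, δ' = dr (rhoG Γ σ (toE p)) x' := ⟨_, rfl⟩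
  have hdiff2 : ‖x' - rhoG Γ σ x‖ ≤ E2 * δ ^ 2 := by
    rw [hx'def, hδdef]; exact hlin2 x (by linarith)
  have hdiffc : ‖x' - rhoG Γ σ x‖ ≤ Ec * δ ^ (c2 + 1) := by
    rw [hx'def, hδdef]; exact hlinc x (by linarith)
  have hE2δ : Lb * E2 * δ ≤ 1 / 2 := by
    have : Lb * E2 * δ ≤ Lb * E2 * s1 := by
      apply mul_le_mul_of_nonneg_left _ (by positivity)
      linarith
    linarith
  have hsm : Lb * (E2 * δ ^ 2) ≤ δ / 2 := cd_d hδ.le hE2δ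
  have hsm0 : E2 * δ ^ 2 ≤ δ / 2 := by
    have : E2 * δ ^ 2 ≤ Lb * (E2 * δ ^ 2) := le_mul_of_one_le_left (by positivity) hLb
    linarith
  have hδ'1 : δ' ≤ 2 * Lb * δ := by
    have h1 : dr (rhoG Γ σ (toE p)) (rhoG Γ σ x + (x' - rhoG Γ σ x)) ≤
        dr (rhoG Γ σ (toE p)) (rhoG Γ σ x) + ‖x' - rhoG Γ σ x‖ := dr_add _ _ _
    have h2 : dr (rhoG Γ σ (toE p)) (rhoG Γ σ x) ≤ Lb * δ := by
      refine (dr_map (rhoG Γ σ) (toE p) x).trans ?_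
      rw [hδdef]
      refine mul_le_mul_of_nonneg_right ((le_max_left _ _).trans hLbs) ?_
      rw [← hδdef]
      exact hδ.le
    rw [add_sub_cancel, ← hδ'def] at h1
    linarith
  have hδδ' : δ ≤ 2 * Lb * δ' := by
    have h1 : dr (rhoG Γ σ (toE p)) (x' + (rhoG Γ σ x - x')) ≤
        dr (rhoG Γ σ (toE p)) x' + ‖rhoG Γ σ x - x'‖ := dr_add _ _ _
    rw [add_sub_cancel, ← hδ'def, norm_sub_rev] at h1
    have h2 : dr ((rhoG Γ σ)⁻¹ (rhoG Γ σ (toE p))) ((rhoG Γ σ)⁻¹ (rhoG Γ σ x)) ≤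
        Lb * dr (rhoG Γ σ (toE p)) (rhoG Γ σ x) := by
      refine (dr_map (rhoG Γ σ)⁻¹ _ _).trans ?_
      exact mul_le_mul_of_nonneg_right ((le_max_right _ _).trans hLbs) infDist_nonneg
    have h4 : (rhoG Γ σ)⁻¹ (rhoG Γ σ (toE p)) = toE p := (rhoG Γ σ).symm_apply_apply _
    have h5 : (rhoG Γ σ)⁻¹ (rhoG Γ σ x) = x := (rhoG Γ σ).symm_apply_apply _
    rw [h4, h5, ← hδdef] at h2
    have h6 : Lb * dr (rhoG Γ σ (toE p)) (rhoG Γ σ x) ≤ Lb * (δ' + E2 * δ ^ 2) :=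
      mul_le_mul_of_nonneg_left (by linarith) (by linarith)
    rw [mul_add] at h6
    linarith
  have hδ'pos : 0 < δ' := by
    by_contra h
    have h7 : 2 * Lb * δ' ≤ 0 := mul_nonpos_of_nonneg_of_nonpos (by linarith) (not_lt.1 h)
    linarith
  have hX'1 : ‖x'‖ ≤ 2 * Lb * X := by
    have h1 : ‖x'‖ ≤ ‖rhoG Γ σ x‖ + ‖x' - rhoG Γ σ x‖ := by
      calc ‖x'‖ = ‖rhoG Γ σ x + (x' - rhoG Γ σ x)‖ := by rw [add_sub_cancel]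
        _ ≤ _ := norm_add_le _ _
    have h2 := hσ1 x
    rw [← hXdef] at h2
    linarith
  have hXX' : X ≤ 2 * Lb * ‖x'‖ := by
    have h1 : ‖rhoG Γ σ x‖ ≤ ‖x'‖ + ‖x' - rhoG Γ σ x‖ := by
      calc ‖rhoG Γ σ x‖ = ‖x' - (x' - rhoG Γ σ x)‖ := by rw [sub_sub_cancel]
        _ ≤ _ := norm_sub_le _ _
    have h2 := hσ2 x
    rw [← hXdef] at h2
    have h4 : Lb * ‖rhoG Γ σ x‖ ≤ Lb * (‖x'‖ + E2 * δ ^ 2) :=
      mul_le_mul_of_nonneg_left (by linarith) (by linarith)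
    rw [mul_add] at h4
    linarith
  have hδ'ε : δ' < ε2 * ‖x'‖ := by
    have h1 : 2 * Lb * δ < 2 * Lb * (ε * X) := mul_lt_mul_of_pos_left hδε (by linarith)
    have h2 : 2 * Lb * (ε * X) ≤ 2 * Lb * (ε * (2 * Lb * ‖x'‖)) :=
      mul_le_mul_of_nonneg_left (mul_le_mul_of_nonneg_left hXX' hε0.le) (by linarith)
    have h4 : 2 * Lb * (ε * (2 * Lb * ‖x'‖)) = 4 * Lb ^ 2 * ε * ‖x'‖ := by ring
    have h5 : 4 * Lb ^ 2 * ε * ‖x'‖ ≤ ε2 * ‖x'‖ :=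
      mul_le_mul_of_nonneg_right hεb (norm_nonneg _)
    linarith
  have hx't2 : ‖x'‖ < t2 := by
    have h1 : 2 * Lb * X < 2 * Lb * s1 := mul_lt_mul_of_pos_left hXs1 (by linarith)
    linarith
  have hmem1 := H1' x (by linarith) (by rw [← hδdef]; exact hδ)
    (by
      rw [← hδdef, ← hXdef]
      exact lt_of_lt_of_le hδε (mul_le_mul_of_nonneg_right hεa hXpos.le))
  have hmem2 := H2' x' hx't2 (by rw [hq, ← hδ'def]; exact hδ'pos)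
    (by rw [hq, ← hδ'def]; exact hδ'ε)
  rw [← hδdef] at hmem1
  rw [hq, ← hδ'def] at hmem2
  rw [← hx'def]
  have hXe : ‖x‖ = X := hXdef.symm
  refine convex_bound _ _ ((rhoG Γ σ : EE (k + 1) ≃L[ℝ] EE (k + 1)) :
    EE (k + 1) →L[ℝ] EE (k + 1)) (κ / 2 * ‖x‖ ^ N) ?_ (φ x) (φ x') hmem1 hmem2
  rintro _ ⟨g, a, ⟨hga1, hga2, hga3, hga4, hga5⟩, rfl⟩ _ ⟨g', a', ⟨hgb1, hgb2, hgb3, hgb4, hgb5⟩, rfl⟩
  rw [hXe] at hga3 ⊢
  have hu : 1 ≤ X / δ := by rwa [one_le_div hδ]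
  have hupos : 0 < X / δ := by linarith
  -- size of `g'`
  have hratio : ‖x'‖ / δ' ≤ 4 * Lb ^ 2 * (X / δ) := by
    rw [div_le_iff₀ hδ'pos]
    have h1 : 2 * Lb * X ≤ 2 * Lb * X * (2 * Lb * δ' / δ) := by
      have h2 : 1 ≤ 2 * Lb * δ' / δ := by rwa [one_le_div hδ]
      exact le_mul_of_one_le_right (by positivity) h2
    calc ‖x'‖ ≤ 2 * Lb * X := hX'1
      _ ≤ 2 * Lb * X * (2 * Lb * δ' / δ) := h1
      _ = 4 * Lb ^ 2 * (X / δ) * δ' := by ring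
  have hszg' : sz (rhoG Γ g') ≤ G * (X / δ) ^ c2 := by
    calc sz (rhoG Γ g') ≤ C2 * (‖x'‖ / δ') ^ c2 := hgb3
      _ ≤ C2 * (4 * Lb ^ 2 * (X / δ)) ^ c2 := by
          refine mul_le_mul_of_nonneg_left ?_ (by linarith)
          exact pow_le_pow_left₀ (by positivity) hratio _
      _ = G * (X / δ) ^ c2 := by rw [hG, mul_pow]; ring
  have hpc1 : (X / δ) ^ c1 ≤ (X / δ) ^ c := pow_le_pow_right₀ hu hc1
  have hpc2 : (X / δ) ^ c2 ≤ (X / δ) ^ c := pow_le_pow_right₀ hu hc2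
  have hpc0 : 1 ≤ (X / δ) ^ c := one_le_pow₀ hu
  -- the element `h`
  have hszh : sz (rhoG Γ (g' * σ)) ≤ C * (X / δ) ^ c := by
    have h1 : sz (rhoG Γ (g' * σ)) ≤ sz (rhoG Γ g') * sz (rhoG Γ σ) := by
      rw [map_mul]
      exact sz_mul _ _
    have h2 : sz (rhoG Γ g') * sz (rhoG Γ σ) ≤ (G * (X / δ) ^ c2) * Lb :=
      mul_le_mul hszg' hLbs (sz_nonneg _) (by positivity)
    have h4 : (G * (X / δ) ^ c2) * Lb ≤ (G * Lb) * (X / δ) ^ c := by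
      have : (G * Lb) * (X / δ) ^ c2 ≤ (G * Lb) * (X / δ) ^ c :=
        mul_le_mul_of_nonneg_left hpc2 hGL
      linarith
    have h5 : (G * Lb) * (X / δ) ^ c ≤ C * (X / δ) ^ c := by
      refine mul_le_mul_of_nonneg_right ?_ (by positivity)
      rw [hCdef]
      linarith
    linarith
  have hszg : sz (rhoG Γ g) ≤ C * (X / δ) ^ c := by
    refine hga3.trans ?_
    refine mul_le_mul ?_ hpc1 (by positivity) (by linarith)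
    rw [hCdef]
    linarith
  have hρh : ‖rhoG Γ (g' * σ) x‖ ≤ C * δ := by
    have h1 : rhoG Γ (g' * σ) x = rhoG Γ g' x' - rhoG Γ g' (x' - rhoG Γ σ x) := by
      rw [cd_mul, map_sub, sub_sub_cancel]
    have h2 : ‖rhoG Γ g' (x' - rhoG Γ σ x)‖ ≤ G * Ec * δ := by
      calc ‖rhoG Γ g' (x' - rhoG Γ σ x)‖ ≤ sz (rhoG Γ g') * ‖x' - rhoG Γ σ x‖ := cd_le_sz _ _
        _ ≤ (G * (X / δ) ^ c2) * (Ec * δ ^ (c2 + 1)) :=
            mul_le_mul hszg' hdiffc (norm_nonneg _) (by positivity)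
        _ = G * Ec * δ * (X / δ * δ) ^ c2 := by rw [mul_pow, pow_succ]; ring
        _ ≤ G * Ec * δ * 1 := by
            refine mul_le_mul_of_nonneg_left ?_ (by positivity)
            rw [div_mul_cancel₀ _ hδ.ne']
            exact pow_le_one₀ hXpos.le hX1
        _ = G * Ec * δ := mul_one _
    have h4 : ‖rhoG Γ g' x'‖ ≤ 2 * Lb * C2 * δ := by
      refine hgb2.trans ?_
      have : C2 * δ' ≤ C2 * (2 * Lb * δ) := mul_le_mul_of_nonneg_left hδ'1 (by linarith)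
      linarith
    rw [h1]
    refine (norm_sub_le _ _).trans ?_
    have h5 : (2 * Lb * C2 + G * Ec) * δ ≤ C * δ := by
      refine mul_le_mul_of_nonneg_right ?_ hδ.le
      rw [hCdef]
      linarith
    linarith
  have hρg : ‖rhoG Γ g x‖ ≤ C * δ := by
    refine hga2.trans (mul_le_mul_of_nonneg_right ?_ hδ.le)
    rw [hCdef]
    linarith
  have ha' : ‖a'‖ ≤ C * δ := by
    refine hgb5.trans ?_
    have h1 : C2 * δ' ≤ C2 * (2 * Lb * δ) := mul_le_mul_of_nonneg_left hδ'1 (by linarith)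
    have h5 : (2 * Lb * C2) * δ ≤ C * δ := by
      refine mul_le_mul_of_nonneg_right ?_ hδ.le
      rw [hCdef]
      linarith
    linarith
  have hCδ : 2 * (Cc * (C * δ)) < s2 := by
    have h1 : 2 * (Cc * (C * δ)) = C4 * δ := by rw [hC4def]; ring
    rw [h1]
    have h2 : C4 * δ ≤ C4 * (ε * X) := mul_le_mul_of_nonneg_left hδε.le hC4pos.le
    have h4 : C4 * (ε * X) ≤ 1 / 2 * X := by
      rw [← mul_assoc]
      exact mul_le_mul_of_nonneg_right hεc hXpos.le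
    rw [hXdef] at h4 h2
    have h5 : 0 < ‖x‖ := by rw [← hXdef]; exact hXpos
    linarith
  have ha'r : a' ∈ ball (0 : EE (k + 1)) D.r0 := by
    rw [mem_ball_zero_iff]
    have h1 : C * δ ≤ Cc * (C * δ) := le_mul_of_one_le_left (by positivity) hCcR
    have : 0 ≤ C * δ := by positivity
    linarith
  have hχ : D.χ a' = (g' * σ) • D.χ x := by
    have h1 : σ • D.χ x = D.χ (D.F σ x) := hact x (by
      rw [mem_ball_zero_iff]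
      linarith)
    rw [hgb1, mul_smul, h1, hx'def]
  have hB2 : 2 ≤ C * (X / δ) ^ c :=
    hC2'.trans (le_mul_of_one_le_right (by linarith) hpc0)
  have hKX : C ^ (6 * Cc) * (CN + Cp * (2 * (Cc * C)) ^ (6 * c * Cc + 2)) * X ≤ 1 := by
    rw [← hK]
    have : K * X ≤ K * s1 := mul_le_mul_of_nonneg_left hXs1.le hK0
    linarith
  have hmain := hpair' φ κ s2 N hκ (by linarith) hEq x a a' g (g' * σ) (C * δ) (C * (X / δ) ^ c)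
    (CN * δ ^ (6 * c * Cc + 2)) (by positivity) hB2 (by positivity) hρg hρh hszg hszh hga4 hga1
    ha'r hχ hCδ (cd_small hC2' hCN hCp hCc hδ hδX hX1 hKX)
  have hkey : (rhoG Γ g')⁻¹ (φ a') - rhoG Γ σ ((rhoG Γ g)⁻¹ (φ a)) =
      rhoG Γ σ ((rhoG Γ (g' * σ))⁻¹ (φ a') - (rhoG Γ g)⁻¹ (φ a)) := by
    rw [cd_inv g' σ, map_sub]
  have hgoal : ‖(rhoG Γ g')⁻¹ (φ a') - rhoG Γ σ ((rhoG Γ g)⁻¹ (φ a))‖ ≤ κ / 2 * X ^ N := by
    rw [hkey]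
    refine (hσ1 _).trans ((mul_le_mul_of_nonneg_left hmain (by linarith)).trans ?_)
    have h1 : ((C * (X / δ) ^ c) ^ 2) ^ Cc * (C * (X / δ) ^ c * ((C * (X / δ) ^ c) ^ 2) ^ Cc) *
        (κ * (2 * (Cc * (C * δ))) ^ N) = C3 * (X / δ) ^ j * (κ * (C4 * δ) ^ N) := by
      have h2 : ((C * (X / δ) ^ c) ^ 2) ^ Cc * (C * (X / δ) ^ c * ((C * (X / δ) ^ c) ^ 2) ^ Cc) =
          (C * (X / δ) ^ c) ^ (4 * Cc + 1) := by
        rw [← pow_mul]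
        ring
      have h4 : 2 * (Cc * (C * δ)) = C4 * δ := by rw [hC4def]; ring
      rw [h2, h4, hC3def, hj, mul_pow, ← pow_mul]
    rw [h1]
    exact cd_final hN (by linarith) hC3 hC4pos hκ hδ hδε hXpos hεc hn0
  exact hgoal

end LatLin.B
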