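import Pool.Agent.Lib.MP_2392aa_gt.B.PairB
import Pool.Agent.Lib.MP_2392aa_gt.C.Grp

/-!
MODULE CaseShallow. Equivariance improves away from the rays.

PROOF. Let `x, x' = F σ x ∉ Z`, `ε ‖x‖ ≤ infDist x Z`, `ε ‖x'‖ ≤ infDist x' Z`. By `low`,
`ϱ x ≥ c ε ‖x‖`, `ϱ x' ≥ c ε ‖x'‖`, so `sz (ρ g_i) ≤ B₁` (a constant) for `i ∈ act x` and for `i ∈ act x'`
(`g_bound`). `fix` at `x` and `x'`: convex combinations (weights nonnegative, sum one), so by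
`convex_bound` (or expanding the double sum) it suffices to bound
`‖(ρ g_j)⁻¹ (φ (A_j x')) - ρ σ ((ρ g_i)⁻¹ (φ (A_i x)))‖ = ‖ρ σ ((ρ h)⁻¹ (φ a') - (ρ g)⁻¹ (φ a))‖`,
`g = g_i`, `h = g_j * σ`, `a = A_i x`, `a' = A_j x'`. `‖a‖ ≤ ϱ x ≤ lam ‖x‖`; `A_flat` (`j = 0`, `N = 2`):
`‖a - ρ g x‖ ≤ C ‖x‖²`, so `‖ρ g x‖ ≤ 2 lam ‖x‖` for small `x`; `‖x'‖ ≤ 2 Lb ‖x‖`,
`‖ρ g_j x'‖ ≤ 2 lam ‖x'‖ ≤ 4 Lb lam ‖x‖` and `‖x' - ρ σ x‖ ≤ C ‖x‖²`, so `‖ρ h x‖ ≤ 5 Lb lam ‖x‖` for small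
`x` (`Lb ≥ 1` bounds `nrm σ`). `pair_cost` with `c := 5 Lb lam ‖x‖`, `B := B₂` constant, `e := C ‖x‖²`,
`N2 = 2`: smallness holds for small `x`. Bound `≤ C₃ κ (10 Cc Lb lam ‖x‖)^N ≤ C₃ κ (1/2)^N ‖x‖^N` as
`20 Cc Lb lam ≤ 1`; times `Lb`: `≤ κ / 2 ‖x‖^N` for `N ≥ N0` (depending on `C₃`, i.e. on `ε`).
-/

open scoped ContDiff Topology
open Metric

namespace LatLin.B

variable {k : ℕ} {Γ : Subgroup (SLZ (k + 1))} {M : Type*} [TopologicalSpace M] [MulAction Γ M]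

private theorem cs_num {P R C2 CA X lam Lb Cc : ℝ} (hP : 0 ≤ P) (hR : 0 ≤ R) (hC2 : 0 ≤ C2)
    (hX : 0 ≤ X) (hlam : 0 ≤ lam) (hLb : 1 ≤ Lb) (hCc : 1 ≤ Cc)
    (hcc0 : 0 ≤ 2 * (Cc * (5 * Lb * lam * X))) (hcc : 2 * (Cc * (5 * Lb * lam * X)) ≤ X / 2)
    (hb : P * (CA + R * C2) * X ≤ lam) :
    P * (CA * X ^ 2 + R * C2 * (2 * (Cc * (5 * Lb * lam * X))) ^ 2) ≤
      Cc * (5 * Lb * lam * X) := by
  have e1 : (2 * (Cc * (5 * Lb * lam * X))) ^ 2 ≤ X ^ 2 :=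
    pow_le_pow_left₀ hcc0 (hcc.trans (by linarith)) 2
  have e2 : R * C2 * (2 * (Cc * (5 * Lb * lam * X))) ^ 2 ≤ R * C2 * X ^ 2 :=
    mul_le_mul_of_nonneg_left e1 (mul_nonneg hR hC2)
  have e3 : P * (CA * X ^ 2 + R * C2 * (2 * (Cc * (5 * Lb * lam * X))) ^ 2) ≤
      P * (CA * X ^ 2 + R * C2 * X ^ 2) :=
    mul_le_mul_of_nonneg_left (add_le_add le_rfl e2) hP
  have e4 : P * (CA * X ^ 2 + R * C2 * X ^ 2) = (P * (CA + R * C2) * X) * X := by ring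
  have e5 : (P * (CA + R * C2) * X) * X ≤ lam * X := mul_le_mul_of_nonneg_right hb hX
  have e6 : Cc * (5 * Lb * lam * X) = (5 * (Cc * Lb)) * (lam * X) := by ring
  have e7 : 1 ≤ Cc * Lb := by nlinarith
  have e8 : 0 ≤ lam * X := mul_nonneg hlam hX
  refine e3.trans (e4.le.trans (e5.trans ?_))
  rw [e6]
  nlinarith

private theorem cs_fin {C3 κ X Lb cc : ℝ} {N N0 : ℕ} (hC3 : 0 < C3) (hκ : 0 ≤ κ) (hX : 0 ≤ X)
    (hLb : 0 < Lb) (hcc0 : 0 ≤ cc) (hcc : cc ≤ X / 2) (hN : N0 ≤ N)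
    (hN0 : (1 / 2 : ℝ) ^ N0 < 1 / (2 * (Lb * C3))) :
    Lb * (C3 * (κ * cc ^ N)) ≤ κ / 2 * X ^ N := by
  have e1 : cc ^ N ≤ (X / 2) ^ N := pow_le_pow_left₀ hcc0 hcc N
  have e2 : (1 / 2 : ℝ) ^ N ≤ 1 / (2 * (Lb * C3)) :=
    (pow_le_pow_of_le_one (by norm_num) (by norm_num) hN).trans hN0.le
  have e3 : (X / 2) ^ N = (1 / 2 : ℝ) ^ N * X ^ N := by
    rw [← mul_pow]
    congr 1
    ring
  rw [e3] at e1
  have e4 : Lb * (C3 * (κ * cc ^ N)) ≤ Lb * (C3 * (κ * ((1 / (2 * (Lb * C3))) * X ^ N))) := by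
    refine mul_le_mul_of_nonneg_left (mul_le_mul_of_nonneg_left
      (mul_le_mul_of_nonneg_left ?_ hκ) hC3.le) hLb.le
    exact e1.trans (mul_le_mul_of_nonneg_right e2 (by positivity))
  refine e4.trans (le_of_eq ?_)
  field_simp

private theorem cs_small {X lam a b c d e : ℝ} (hX : 0 ≤ X) (ha : 0 ≤ a) (hb : 0 ≤ b)
    (hc : 0 ≤ c) (hd : 0 ≤ d) (he : 0 ≤ e) (h : X * (a + b + c + d + e + 1) ≤ lam) :
    a * X ≤ lam ∧ b * X ≤ lam ∧ c * X ≤ lam ∧ d * X ≤ lam ∧ e * X ≤ lam := by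
  have h1 := mul_nonneg ha hX
  have h2 := mul_nonneg hb hX
  have h3 := mul_nonneg hc hX
  have h4 := mul_nonneg hd hX
  have h5 := mul_nonneg he hX
  have h6 : X * (a + b + c + d + e + 1) = a * X + b * X + c * X + d * X + e * X + X := by ring
  rw [h6] at h
  refine ⟨?_, ?_, ?_, ?_, ?_⟩ <;> linarith

private theorem cs_n1 {X lam Lb C' u v w : ℝ} (h1 : w ≤ u + v) (hu : u ≤ C' * X ^ 2)
    (hv : v ≤ Lb * X) (hC : C' * X ≤ lam) (hlam : lam < 1) (hLb : 1 ≤ Lb) (hX : 0 ≤ X) :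
    w ≤ 2 * Lb * X := by
  have h2 : C' * X ^ 2 ≤ lam * X := by
    have := mul_le_mul_of_nonneg_right hC hX
    nlinarith
  have h3 : lam * X ≤ Lb * X := mul_le_mul_of_nonneg_right (by linarith) hX
  linarith

private theorem cs_n2 {Y lam C a b d r : ℝ} (h1 : b ≤ a + d) (ha : a ≤ r) (hr : r ≤ lam * Y)
    (hd : d ≤ C * Y ^ 2) (hC : C * Y ≤ lam) (hY : 0 ≤ Y) : b ≤ 2 * lam * Y := by
  have h2 : C * Y ^ 2 ≤ lam * Y := by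
    have := mul_le_mul_of_nonneg_right hC hY
    nlinarith
  linarith

private theorem cs_n3 {Lb lam X Y : ℝ} (hlam : 0 ≤ lam) (h : Y ≤ 2 * Lb * X) :
    2 * lam * Y ≤ 4 * Lb * lam * X := by
  have := mul_le_mul_of_nonneg_left h (by linarith : 0 ≤ 2 * lam)
  linarith

private theorem cs_n4 {lam a r X R : ℝ} (ha : a ≤ r) (hr : r ≤ lam * X) (hX : 0 ≤ X)
    (hlam : lam < 1) (h : X < R) : a < R := by
  have : lam * X ≤ 1 * X := mul_le_mul_of_nonneg_right hlam.le hX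
  linarith

private theorem cs_n5 {CA Lb X Y lam : ℝ} (hCA : 0 ≤ CA) (hb : CA * (2 * Lb) * X ≤ lam)
    (h : Y ≤ 2 * Lb * X) : CA * Y ≤ lam := by
  have := mul_le_mul_of_nonneg_left h hCA
  linarith

private theorem cs_n6 {lam Lb : ℝ} (hlam : 0 ≤ lam) (hLb : 1 ≤ Lb) :
    2 * lam ≤ 5 * Lb * lam ∧ lam ≤ Lb * lam := by
  have : 1 * lam ≤ Lb * lam := mul_le_mul_of_nonneg_right hLb hlam
  constructor <;> linarith

private theorem cs_n7 {B1 s : ℝ} (hB : 1 ≤ B1) (hs : 0 ≤ s) :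
    B1 ≤ 2 + B1 * (1 + s) ∧ 2 ≤ 2 + B1 * (1 + s) ∧ B1 * s ≤ 2 + B1 * (1 + s) := by
  have : 0 ≤ B1 * s := mul_nonneg (by linarith) hs
  have h2 : B1 * (1 + s) = B1 + B1 * s := by ring
  rw [h2]
  refine ⟨?_, ?_, ?_⟩ <;> linarith

private theorem cs_le_sz (g : Γ) (v : EE (k + 1)) : ‖rhoG Γ g v‖ ≤ sz (rhoG Γ g) * ‖v‖ :=
  ((rhoG Γ g : EE (k + 1) →L[ℝ] EE (k + 1)).le_opNorm v).trans
    (mul_le_mul_of_nonneg_right (le_max_left _ _) (norm_nonneg v))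

private theorem cs_sz_nonneg (g : Γ) : 0 ≤ sz (rhoG Γ g) :=
  (norm_nonneg _).trans (le_max_left _ _)

private theorem cs_sz_mul (g h : Γ) :
    sz (rhoG Γ (g * h)) ≤ sz (rhoG Γ g) * sz (rhoG Γ h) := by
  have hnn : ∀ a : SLZ (k + 1), 0 ≤ nrm a := fun a => norm_nonneg _
  rw [sz_rhoG, sz_rhoG, sz_rhoG]
  refine max_le ?_ ?_
  · refine (nrm_mul _ _).trans ?_
    exact mul_le_mul (le_max_left _ _) (le_max_left _ _) (hnn _)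
      ((hnn _).trans (le_max_left _ _))
  · have h1 : (((g * h : Γ) : SLZ (k + 1)))⁻¹ = (h : SLZ (k + 1))⁻¹ * (g : SLZ (k + 1))⁻¹ := by
      rw [Subgroup.coe_mul, mul_inv_rev]
    rw [h1]
    refine (nrm_mul _ _).trans ?_
    rw [mul_comm]
    exact mul_le_mul (le_max_right _ _) (le_max_right _ _) (hnn _)
      ((hnn _).trans (le_max_left _ _))

private theorem cs_mul_apply (a b : Γ) (x : EE (k + 1)) :
    rhoG Γ (a * b) x = rhoG Γ a (rhoG Γ b x) := by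
  rw [map_mul]; rfl

private theorem cs_hull {ι : Type} (s : Finset ι) (w : ι → ℝ) (f : ι → EE (k + 1))
    (h0 : ∀ i ∈ s, 0 ≤ w i) (h1 : ∑ i ∈ s, w i = 1) :
    ∑ i ∈ s, w i • f i ∈ convexHull ℝ (f '' (s : Set ι)) :=
  (convex_convexHull ℝ _).sum_mem h0 h1 fun i hi =>
    subset_convexHull ℝ _ ⟨i, hi, rfl⟩

theorem case_shallow {D : LocData (M := M) (rhoG Γ)} {T : TData D} {R R' : ℝ}
    (h : CtxB D T R R') (S : Finset (SLZ (k + 1))) (Cc : ℕ) (hCc : 1 ≤ Cc)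
    (hconn : ConnPoly Γ S Cc) {s : ℝ} {φ : EE (k + 1) → EE (k + 1)} (hφ : T.IsSol s φ) (σ : Γ)
    (Lb : ℝ) (hLb : 1 ≤ Lb) (hσ : nrm (σ : SLZ (k + 1)) ≤ Lb)
    (hlam : 20 * Cc * Lb * T.lam ≤ 1) (ε : ℝ) (hε : 0 < ε) :
    ∃ N0 : ℕ, ∀ N ≥ N0, ∃ s1 : ℝ, 0 < s1 ∧ ∀ (κ s2 : ℝ), 0 ≤ κ → s2 ≤ s1 →
      EqB D S φ κ s2 N → ∀ x : EE (k + 1), ‖x‖ < s2 → x ∉ T.Z → D.F σ x ∉ T.Z →
        ε * ‖x‖ ≤ infDist x T.Z → ε * ‖D.F σ x‖ ≤ infDist (D.F σ x) T.Z →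
        ‖φ (D.F σ x) - rhoG Γ σ (φ x)‖ ≤ κ / 2 * ‖x‖ ^ N := by
  have hnn : ∀ a : SLZ (k + 1), 0 ≤ nrm a := fun a => norm_nonneg _
  obtain ⟨c0, hc0, hlow⟩ := h.low
  obtain ⟨Cg, cg, hg⟩ := T.g_bound
  obtain ⟨CA0, hA0⟩ := T.A_flat 0 2
  obtain ⟨r1, hr1, hr1r0, hr11, hpair⟩ := pair_cost Γ S Cc hconn D h.flat
  obtain ⟨C2, hC2, hpair⟩ := hpair 2
  have hlam0 := T.lam_pos
  have hlam1 := T.lam_lt
  have hLb0 : 0 < Lb := by linarith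
  have hCcR : (1 : ℝ) ≤ (Cc : ℝ) := by exact_mod_cast hCc
  -- constants
  set Q : ℝ := 1 / (c0 * ε) with hQ
  have hQ0 : 0 < Q := by positivity
  set B1 : ℝ := 1 + |Cg| * Q ^ cg with hB1
  have hB10 : 1 ≤ B1 := by
    have : 0 ≤ |Cg| * Q ^ cg := by positivity
    linarith
  have hσs := cs_sz_nonneg σ
  set B : ℝ := 2 + B1 * (1 + sz (rhoG Γ σ)) with hB
  obtain ⟨hB1B, hB2, hBσ⟩ : B1 ≤ B ∧ 2 ≤ B ∧ B1 * sz (rhoG Γ σ) ≤ B := cs_n7 hB10 hσs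
  set CA : ℝ := max CA0 0 with hCA
  have hCA0 : 0 ≤ CA := le_max_right _ _
  set C3 : ℝ := (B ^ 2) ^ Cc * (B * (B ^ 2) ^ Cc) with hC3
  have hC30 : 0 < C3 := by positivity
  -- the flat bound for `σ`
  have hsm : ContDiff ℝ ∞ (fun y => D.F σ y - rhoG Γ σ y) :=
    (D.F_smooth σ).sub (rhoG Γ σ : EE (k + 1) →L[ℝ] EE (k + 1)).contDiff
  obtain ⟨C', hC'0, hC'⟩ := flat_bound_set (fun y => D.F σ y - rhoG Γ σ y) hsm {0}
      (by intro z hz j; rw [Set.mem_singleton_iff.1 hz]; exact h.flat σ j) 0 2 1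
  have hflat : ∀ y : EE (k + 1), ‖y‖ < 1 → ‖D.F σ y - rhoG Γ σ y‖ ≤ C' * ‖y‖ ^ 2 := by
    intro y hy
    have h1 := hC' y (by simpa using hy) 0 rfl (mem_ball_self one_pos)
    rw [norm_iteratedFDeriv_zero, sub_zero] at h1
    exact h1
  -- `F σ` maps small balls to small balls and is the action
  obtain ⟨t1, ht1, hF⟩ := Metric.eventually_nhds_iff_ball.1
    ((D.F_tendsto σ).eventually (ball_mem_nhds (0 : EE (k + 1)) hφ.s_pos))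
  obtain ⟨t2, ht2, hact⟩ := Metric.eventually_nhds_iff_ball.1 (D.F_act σ)
  set K1 : ℝ := (B ^ 2) ^ (2 * Cc) * (CA + (B ^ 2) ^ Cc * C2) with hK1
  have hK10 : 0 ≤ K1 := by positivity
  set Kt : ℝ := CA * (2 * Lb) + C' + B1 * C' + K1 + CA + 1 with hKt
  have hKt0 : 0 < Kt := by positivity
  -- the exponent
  obtain ⟨N0, hN0⟩ := exists_pow_lt_of_lt_one (show (0 : ℝ) < 1 / (2 * (Lb * C3)) by positivity)
    (show (1 / 2 : ℝ) < 1 by norm_num)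
  refine ⟨N0, fun N hN => ⟨min (min s (min t1 t2)) (min 1 (min (T.lam / Kt) r1)), ?_, ?_⟩⟩
  · have := hφ.s_pos
    exact lt_min (lt_min this (lt_min ht1 ht2)) (lt_min one_pos (lt_min (by positivity) hr1))
  intro κ s2 hκ hs2 hEq x hx hxZ hx'Z hεx hεx'
  have hs2s : s2 ≤ s := hs2.trans ((min_le_left _ _).trans (min_le_left _ _))
  have hs2t1 : s2 ≤ t1 :=
    hs2.trans ((min_le_left _ _).trans ((min_le_right _ _).trans (min_le_left _ _)))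
  have hs2t2 : s2 ≤ t2 :=
    hs2.trans ((min_le_left _ _).trans ((min_le_right _ _).trans (min_le_right _ _)))
  have hs21 : s2 ≤ 1 := hs2.trans ((min_le_right _ _).trans (min_le_left _ _))
  have hs2K : s2 ≤ T.lam / Kt :=
    hs2.trans ((min_le_right _ _).trans ((min_le_right _ _).trans (min_le_left _ _)))
  have hs2r : s2 ≤ r1 :=
    hs2.trans ((min_le_right _ _).trans ((min_le_right _ _).trans (min_le_right _ _)))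
  set x' := D.F σ x with hx'
  have hx0 : x ≠ 0 := fun h0 => hxZ (h0 ▸ T.zero_mem)
  have hX : 0 < ‖x‖ := norm_pos_iff.2 hx0
  have hXK : ‖x‖ * Kt ≤ T.lam := by
    rw [← le_div_iff₀ hKt0]
    exact hx.le.trans hs2K
  have hX1 : ‖x‖ ≤ 1 := hx.le.trans hs21
  obtain ⟨hb1, hb2, hb3, hb4, hb5⟩ := cs_small hX.le (by positivity) hC'0 (by positivity) hK10
    hCA0 hXK
  -- positions
  have hxs : x ∈ ball (0 : EE (k + 1)) s \ T.Z := ⟨by simpa using hx.trans_le hs2s, hxZ⟩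
  have hx's : x' ∈ ball (0 : EE (k + 1)) s \ T.Z :=
    ⟨hF x (by simpa using hx.trans_le hs2t1), hx'Z⟩
  have hxr : x ∈ ball (0 : EE (k + 1)) T.r \ T.Z := ⟨ball_subset_ball hφ.s_le hxs.1, hxZ⟩
  have hx'r : x' ∈ ball (0 : EE (k + 1)) T.r \ T.Z := ⟨ball_subset_ball hφ.s_le hx's.1, hx'Z⟩
  have hd : ‖x' - rhoG Γ σ x‖ ≤ C' * ‖x‖ ^ 2 := hflat x (hx.trans_le hs21)
  have hσx : ‖rhoG Γ σ x‖ ≤ Lb * ‖x‖ :=
    (((rhoG Γ σ : EE (k + 1) →L[ℝ] EE (k + 1))).le_opNorm x).trans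
      (mul_le_mul_of_nonneg_right hσ hX.le)
  have hx'le : ‖x'‖ ≤ 2 * Lb * ‖x‖ := by
    have h1 : ‖x'‖ ≤ ‖x' - rhoG Γ σ x‖ + ‖rhoG Γ σ x‖ := by
      have := norm_add_le (x' - rhoG Γ σ x) (rhoG Γ σ x)
      rwa [sub_add_cancel] at this
    exact cs_n1 h1 hd hσx hb2 hlam1 hLb hX.le
  have hx'0 : 0 < ‖x'‖ := norm_pos_iff.2 fun h0 => hx'Z (h0 ▸ T.zero_mem)
  -- sizes of the group elements
  have hszg : ∀ y ∈ ball (0 : EE (k + 1)) T.r \ T.Z, 0 < ‖y‖ → ε * ‖y‖ ≤ infDist y T.Z →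
      ∀ i ∈ T.act y, sz (rhoG Γ (T.g i)) ≤ B1 := by
    intro y hy hy0 hεy i hi
    have h1 := hlow y hy
    have h2 : c0 * (ε * ‖y‖) ≤ T.ϱ y := (mul_le_mul_of_nonneg_left hεy hc0.le).trans h1
    have h3 := T.ϱ_pos y hy
    have h4 : ‖y‖ / T.ϱ y ≤ Q := by
      rw [hQ, div_le_div_iff₀ h3 (by positivity)]
      linarith
    refine (hg y hy i hi).trans ?_
    have h5 : Cg * (‖y‖ / T.ϱ y) ^ cg ≤ |Cg| * Q ^ cg :=
      mul_le_mul (le_abs_self _) (pow_le_pow_left₀ (by positivity) h4 cg) (by positivity)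
        (abs_nonneg _)
    linarith
  -- the linear image
  have hgy : ∀ y ∈ ball (0 : EE (k + 1)) T.r \ T.Z, 0 < ‖y‖ → CA * ‖y‖ ≤ T.lam →
      ∀ i ∈ T.act y, ‖T.A i y - rhoG Γ (T.g i) y‖ ≤ CA * ‖y‖ ^ 2 ∧
        ‖rhoG Γ (T.g i) y‖ ≤ 2 * T.lam * ‖y‖ := by
    intro y hy hy0 hCy i hi
    have h1 := hA0 y hy i hi
    rw [norm_iteratedFDeriv_zero] at h1
    have h3 := T.ϱ_pos y hy
    have h4 := T.ϱ_le y hy
    have h5 : T.ϱ y ^ 2 ≤ ‖y‖ ^ 2 := by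
      refine pow_le_pow_left₀ h3.le (h4.trans ?_) 2
      exact mul_le_of_le_one_left hy0.le hlam1.le
    have h6 : CA0 * T.ϱ y ^ 2 ≤ CA * ‖y‖ ^ 2 :=
      mul_le_mul (le_max_left _ _) h5 (by positivity) hCA0
    have h7 := h1.trans h6
    refine ⟨h7, ?_⟩
    have h8 := T.A_le y hy i hi
    have h9 : ‖rhoG Γ (T.g i) y‖ ≤ ‖T.A i y‖ + ‖T.A i y - rhoG Γ (T.g i) y‖ := by
      have := norm_sub_le (T.A i y) (T.A i y - rhoG Γ (T.g i) y)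
      rwa [sub_sub_cancel] at this
    exact cs_n2 h9 h8 h4 h7 hCy hy0.le
  have hCx' : CA * ‖x'‖ ≤ T.lam := cs_n5 hCA0 hb1 hx'le
  -- reduction to the branches
  have hφx := hφ.fix x hxs
  have hφx' := hφ.fix x' hx's
  have hm1 := cs_hull (T.act x) (fun i => T.w i x)
    (fun i => (rhoG Γ (T.g i))⁻¹ (φ (T.A i x))) (fun i _ => T.w_nonneg i x) (T.w_sum x hxr)
  have hm2 := cs_hull (T.act x') (fun i => T.w i x')
    (fun i => (rhoG Γ (T.g i))⁻¹ (φ (T.A i x'))) (fun i _ => T.w_nonneg i x') (T.w_sum x' hx'r)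
  rw [← hφx] at hm1
  rw [← hφx'] at hm2
  refine convex_bound _ _ (rhoG Γ σ : EE (k + 1) →L[ℝ] EE (k + 1)) _ ?_ _ _ hm1 hm2
  rintro _ ⟨i, hi, rfl⟩ _ ⟨j, hj, rfl⟩
  have hi' : i ∈ T.act x := hi
  have hj' : j ∈ T.act x' := hj
  obtain ⟨hA1, hA2⟩ := hgy x hxr hX hb5 i hi'
  obtain ⟨hA1', hA2'⟩ := hgy x' hx'r hx'0 hCx' j hj'
  have hsi := hszg x hxr hX hεx i hi'
  have hsj := hszg x' hx'r hx'0 hεx' j hj'
  set g := T.g i with hgdef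
  set gj := T.g j with hgjdef
  set c : ℝ := 5 * Lb * T.lam * ‖x‖ with hc
  have hLl : 0 < Lb * T.lam := by positivity
  have hc_pos : 0 < c := by positivity
  -- the conditions of `pair_cost`
  have k1 : ‖rhoG Γ g x‖ ≤ c := by
    refine hA2.trans ?_
    rw [hc]
    exact mul_le_mul_of_nonneg_right (cs_n6 hlam0.le hLb).1 hX.le
  have k2 : ‖rhoG Γ (gj * σ) x‖ ≤ c := by
    rw [cs_mul_apply]
    have e1 : rhoG Γ gj (rhoG Γ σ x) = rhoG Γ gj x' - rhoG Γ gj (x' - rhoG Γ σ x) := by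
      rw [map_sub, sub_sub_cancel]
    rw [e1]
    refine (norm_sub_le _ _).trans ?_
    have e2 : ‖rhoG Γ gj (x' - rhoG Γ σ x)‖ ≤ B1 * (C' * ‖x‖ ^ 2) :=
      (cs_le_sz gj _).trans (mul_le_mul hsj hd (norm_nonneg _) (by linarith))
    have e3 : B1 * (C' * ‖x‖ ^ 2) ≤ Lb * T.lam * ‖x‖ := by
      have : B1 * (C' * ‖x‖ ^ 2) = (B1 * C' * ‖x‖) * ‖x‖ := by ring
      rw [this]
      exact mul_le_mul_of_nonneg_right (hb3.trans (cs_n6 hlam0.le hLb).2) hX.le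
    have e4 : 2 * T.lam * ‖x'‖ ≤ 4 * Lb * T.lam * ‖x‖ := cs_n3 hlam0.le hx'le
    rw [hc]
    linarith
  have k3 : sz (rhoG Γ g) ≤ B := hsi.trans hB1B
  have k4 : sz (rhoG Γ (gj * σ)) ≤ B :=
    (cs_sz_mul gj σ).trans ((mul_le_mul_of_nonneg_right hsj hσs).trans hBσ)
  have k5 : D.χ (T.A i x) = g • D.χ x := (T.A_act x hxr i hi').symm
  have k6 : T.A j x' ∈ ball (0 : EE (k + 1)) D.r0 := by
    rw [mem_ball_zero_iff]
    have e1 := T.A_le x' hx'r j hj'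
    have e2 := T.ϱ_le x' hx'r
    have e3 : ‖x'‖ < T.r := by simpa using hx'r.1
    exact cs_n4 e1 e2 hx'0.le hlam1 (e3.trans_le T.r_le')
  have k7 : D.χ (T.A j x') = (gj * σ) • D.χ x := by
    rw [mul_smul, hact x (by simpa using hx.trans_le hs2t2)]
    exact (T.A_act x' hx'r j hj').symm
  have hcc : 2 * ((Cc : ℝ) * c) ≤ ‖x‖ / 2 := by
    rw [hc]
    have : 2 * ((Cc : ℝ) * (5 * Lb * T.lam * ‖x‖)) = (20 * Cc * Lb * T.lam) * (‖x‖ / 2) := by ring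
    rw [this]
    have := mul_le_mul_of_nonneg_right hlam (by positivity : (0 : ℝ) ≤ ‖x‖ / 2)
    linarith
  have hcc0 : 0 ≤ 2 * ((Cc : ℝ) * c) := by positivity
  have k8 : 2 * ((Cc : ℝ) * c) < s2 := by linarith
  have k9 : (B ^ 2) ^ (2 * Cc) * (CA * ‖x‖ ^ 2 + (B ^ 2) ^ Cc * C2 * (2 * (Cc * c)) ^ 2) ≤
      Cc * c := by
    exact cs_num (by positivity) (by positivity) hC2 hX.le hlam0.le hLb hCcR hcc0 hcc hb4
  have hfin := hpair φ κ s2 N hκ hs2r hEq x (T.A i x) (T.A j x') g (gj * σ) c B (CA * ‖x‖ ^ 2)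
    hc_pos hB2 (by positivity) k1 k2 k3 k4 hA1 k5 k6 k7 k8 k9
  -- conclusion
  have hident : (rhoG Γ gj)⁻¹ (φ (T.A j x')) - rhoG Γ σ ((rhoG Γ g)⁻¹ (φ (T.A i x))) =
      rhoG Γ σ ((rhoG Γ (gj * σ))⁻¹ (φ (T.A j x')) - (rhoG Γ g)⁻¹ (φ (T.A i x))) := by
    rw [map_sub]
    congr 1
    rw [map_mul, mul_inv_rev]
    show _ = rhoG Γ σ ((rhoG Γ σ)⁻¹ ((rhoG Γ gj)⁻¹ (φ (T.A j x'))))
    have e1 : ∀ v, rhoG Γ σ ((rhoG Γ σ)⁻¹ v) = v := by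
      intro v
      have e2 : (rhoG Γ σ * (rhoG Γ σ)⁻¹) v = v := by
        rw [mul_inv_cancel]
        rfl
      exact e2
    rw [e1]
  show ‖(rhoG Γ gj)⁻¹ (φ (T.A j x')) - rhoG Γ σ ((rhoG Γ g)⁻¹ (φ (T.A i x)))‖ ≤
    κ / 2 * ‖x‖ ^ N
  rw [hident]
  refine (((rhoG Γ σ : EE (k + 1) →L[ℝ] EE (k + 1))).le_opNorm _).trans ?_
  refine (mul_le_mul hσ hfin (norm_nonneg _) hLb0.le).trans ?_
  exact cs_fin hC30 hκ hX.le hLb0 hcc0 hcc hN hN0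

end LatLin.B
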