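import Pool.Agent.Lib.MP_2392aa_gt.B.SlabBasic

/-!
MODULE SlabCase1. Inductive step, the value of the common vector is very small.

Here `f` is a family of `n + 1` vectors in `ℤ^(n+1)`, `ε = |ev z (f 0)|`, `ε * Y ≤ ρ`.
PROOF. Put `z'' j = ev z (f j.succ)`, `|z'' j| ≤ 2 ρ`. For the rows of `B`:
`|ev z'' (B i)| = |ev z (a i • f 0 + ∑ B i j • f j.succ) - a i * ev z (f 0)| ≤ ρ + Y * ε ≤ 2 ρ`.
Apply the hypothesis `hS` (slab connectivity in dimension `n` with constant `C`) with `X := Y`,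
`ρ := 2 ρ`: moves from `std n` to `B` in `Slab z'' (C * (2 ρ)) (Y ^ C)`. Map them by
`L v = ∑ j, v j • f j.succ` (`MReach.map`; `ev z (L v) = ev z'' v`, coordinates
`≤ n * Y ^ C * Y`), put `f 0` in front (`MReach.cons`), note `Fin.cons (f 0) (fun j => f j.succ) = f`
and `L (std n j) = f j.succ`. Finally `MReach.line` with the coefficients `a`
(values `≤ 2 ρ + ρ`, coordinates `≤ n * Y ^ (C + 1) + Y * Y ≤ (n + 1) * Y ^ (C + 2)`,
number of moves `∑ |a i| ≤ n * Y`).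
-/

namespace LatLin.B

private theorem ev_add' {n : ℕ} (z : Fin n → ℝ) (v w : Fin n → ℤ) :
    ev z (v + w) = ev z v + ev z w := by
  simp only [ev, Pi.add_apply, Int.cast_add, add_mul, Finset.sum_add_distrib]

private noncomputable def evH {n : ℕ} (z : Fin n → ℝ) : (Fin n → ℤ) →+ ℝ where
  toFun := ev z
  map_zero' := by simp [ev]
  map_add' := ev_add' z

private theorem evH_apply {n : ℕ} (z : Fin n → ℝ) (v : Fin n → ℤ) : evH z v = ev z v := rfl

private def LL {n : ℕ} {V : Type*} [AddCommGroup V] (F : Fin n → V) : (Fin n → ℤ) →+ V where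
  toFun v := ∑ j, v j • F j
  map_zero' := by simp
  map_add' v w := by simp [add_smul, Finset.sum_add_distrib]

private theorem LL_apply {n : ℕ} {V : Type*} [AddCommGroup V] (F : Fin n → V) (v : Fin n → ℤ) :
    LL F v = ∑ j, v j • F j := rfl

private theorem sum_bd {n : ℕ} (v : Fin n → ℤ) (x : Fin n → ℝ) (P Y : ℝ) (hP : 0 ≤ P)
    (hv : ∀ j, |(v j : ℝ)| ≤ P) (hx : ∀ j, |x j| ≤ Y) :
    |∑ j, (v j : ℝ) * x j| ≤ n * (P * Y) := by
  calc |∑ j, (v j : ℝ) * x j| ≤ ∑ j, |(v j : ℝ) * x j| := Finset.abs_sum_le_sum_abs _ _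
    _ ≤ ∑ _j : Fin n, P * Y := by
        refine Finset.sum_le_sum (fun j _ => ?_)
        rw [abs_mul]
        exact mul_le_mul (hv j) (hx j) (abs_nonneg _) hP
    _ = n * (P * Y) := by simp

private theorem sum_natAbs {n : ℕ} (c : Fin n → ℤ) (K : ℝ) (hc : ∀ i, |(c i : ℝ)| ≤ K) :
    ((∑ i, (c i).natAbs : ℕ) : ℝ) ≤ n * K := by
  rw [Nat.cast_sum]
  calc ∑ i, (((c i).natAbs : ℕ) : ℝ) ≤ ∑ _i : Fin n, K := by
        refine Finset.sum_le_sum (fun j _ => ?_)
        rw [Nat.cast_natAbs, Int.cast_abs]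
        exact hc j
    _ = n * K := by simp

private theorem conv (x r M : ℝ) (t c : ℤ) (ht : (0 ≤ t ∧ t ≤ c) ∨ (c ≤ t ∧ t ≤ 0)) (h1 : |x| ≤ M)
    (h2 : |x + c * r| ≤ M) : |x + t * r| ≤ M := by
  rw [abs_le] at *
  rcases ht with ⟨a, b⟩ | ⟨a, b⟩
  · have a' : (0 : ℝ) ≤ t := by exact_mod_cast a
    have b' : (t : ℝ) ≤ c := by exact_mod_cast b
    rcases le_total 0 r with hr | hr
    · have h3 := mul_nonneg a' hr
      have h4 := mul_le_mul_of_nonneg_right b' hr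
      constructor <;> linarith [h1.1, h1.2, h2.1, h2.2]
    · have h3 := mul_nonpos_of_nonneg_of_nonpos a' hr
      have h4 := mul_le_mul_of_nonpos_right b' hr
      constructor <;> linarith [h1.1, h1.2, h2.1, h2.2]
  · have a' : (c : ℝ) ≤ t := by exact_mod_cast a
    have b' : (t : ℝ) ≤ 0 := by exact_mod_cast b
    rcases le_total 0 r with hr | hr
    · have h3 := mul_nonpos_of_nonpos_of_nonneg b' hr
      have h4 := mul_le_mul_of_nonneg_right a' hr
      constructor <;> linarith [h1.1, h1.2, h2.1, h2.2]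
    · have h3 := mul_nonneg_of_nonpos_of_nonpos b' hr
      have h4 := mul_le_mul_of_nonpos_right a' hr
      constructor <;> linarith [h1.1, h1.2, h2.1, h2.2]

private theorem coord {n : ℕ} (u w : Fin n → ℤ) (k : ℤ) (l : Fin n) (U K Y : ℝ)
    (hu : |(u l : ℝ)| ≤ U) (hk : |(k : ℝ)| ≤ K) (hw : |(w l : ℝ)| ≤ Y) :
    |(((u + k • w) l : ℤ) : ℝ)| ≤ U + K * Y := by
  have e : (((u + k • w) l : ℤ) : ℝ) = (u l : ℝ) + (k : ℝ) * (w l : ℝ) := by
    simp
  rw [e]
  refine (abs_add_le _ _).trans ?_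
  rw [abs_mul]
  have := mul_le_mul hk hw (abs_nonneg _) ((abs_nonneg _).trans hk)
  linarith

theorem case1 {n : ℕ} (C : ℕ) (hS : ∀ (X ρ : ℝ) (z : Fin n → ℝ) (A : Matrix (Fin n) (Fin n) ℤ),
      2 ≤ X → 0 ≤ ρ → A.det = 1 → (∀ i j, |(A i j : ℝ)| ≤ X) → (∀ i, |z i| ≤ ρ) →
      (∀ i, |ev z (A i)| ≤ ρ) →
      ∃ m : ℕ, (m : ℝ) ≤ X ^ C ∧ MReach (Slab z (C * ρ) (X ^ C)) m (std n) (fun i => A i))
    (z : Fin (n + 1) → ℝ) (ρ Y : ℝ) (hρ : 0 ≤ ρ) (hY : 2 ≤ Y)
    (f : Fin (n + 1) → Fin (n + 1) → ℤ) (hfz : ∀ i, |ev z (f i)| ≤ 2 * ρ)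
    (hfY : ∀ i l, |(f i l : ℝ)| ≤ Y) (a : Fin n → ℤ) (B : Matrix (Fin n) (Fin n) ℤ)
    (hB : B.det = 1) (ha : ∀ i, |(a i : ℝ)| ≤ Y) (hBY : ∀ i j, |(B i j : ℝ)| ≤ Y)
    (hg : ∀ i, |ev z (a i • f 0 + ∑ j, B i j • f j.succ)| ≤ ρ) (hε : |ev z (f 0)| * Y ≤ ρ) :
    ∃ m : ℕ, (m : ℝ) ≤ Y ^ C + n * Y ∧
      MReach (Slab z ((2 * C + 3) * ρ) ((n + 1) * Y ^ (C + 2))) m f
        (Fin.cons (f 0) (fun i => a i • f 0 + ∑ j, B i j • f j.succ) :
          Fin (n + 1) → Fin (n + 1) → ℤ) := by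
  classical
  set F : Fin n → Fin (n + 1) → ℤ := fun j => f j.succ with hF
  set zz := evH z with hzz
  have hY0 : (0 : ℝ) ≤ Y := by linarith
  have hY1 : (1 : ℝ) ≤ Y := by linarith
  have hN : (0 : ℝ) ≤ n := Nat.cast_nonneg n
  set N : ℝ := (n : ℝ) with hNdef
  set P : ℝ := Y ^ C with hP
  have hP1 : (1 : ℝ) ≤ P := one_le_pow₀ hY1
  have hP0 : (0 : ℝ) ≤ P := by linarith
  have hC0 : (0 : ℝ) ≤ (C : ℝ) := Nat.cast_nonneg C
  have hCρ : 0 ≤ (C : ℝ) * ρ := mul_nonneg hC0 hρ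
  set X : ℝ := (N + 1) * Y ^ (C + 2) with hX
  have hXeq : X = N * (P * Y ^ 2) + P * Y ^ 2 := by
    rw [hX, hP, pow_add]
    ring
  have q2 : Y ^ 2 ≤ P * Y ^ 2 := by
    have : (0 : ℝ) ≤ Y ^ 2 := by positivity
    nlinarith
  have q1 : Y ≤ P * Y ^ 2 := (le_self_pow₀ hY1 (by norm_num)).trans q2
  have q3 : N * (P * Y) ≤ N * (P * Y ^ 2) := by
    refine mul_le_mul_of_nonneg_left ?_ hN
    refine mul_le_mul_of_nonneg_left ?_ hP0
    exact le_self_pow₀ hY1 (by norm_num)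
  have hNX : 0 ≤ N * (P * Y ^ 2) := by positivity
  have hlin : ∀ (u : Fin (n + 1) → ℤ) (k : ℤ), zz (u + k • f 0) = zz u + k * zz (f 0) := by
    intro u k
    rw [map_add, map_zsmul, zsmul_eq_mul]
  -- the small problem
  set z'' : Fin n → ℝ := fun j => ev z (F j) with hz''
  have hev : ∀ v : Fin n → ℤ, zz (LL F v) = ev z'' v := by
    intro v
    rw [LL_apply, map_sum]
    refine Finset.sum_congr rfl (fun j _ => ?_)
    rw [map_zsmul, zsmul_eq_mul]
    rfl
  have hBz : ∀ i, |ev z'' (B i)| ≤ 2 * ρ := by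
    intro i
    have e : ev z'' (B i) = ev z (a i • f 0 + ∑ j, B i j • f j.succ) - a i * ev z (f 0) := by
      rw [← hev (B i)]
      have e1 : a i • f 0 + ∑ j, B i j • f j.succ = LL F (B i) + a i • f 0 := add_comm _ _
      rw [e1, ← evH_apply, ← hzz, hlin, ← evH_apply, ← hzz]
      ring
    rw [e]
    refine (abs_sub _ _).trans ?_
    rw [abs_mul]
    have h1 := hg i
    have h2 : |(a i : ℝ)| * |ev z (f 0)| ≤ Y * |ev z (f 0)| :=
      mul_le_mul_of_nonneg_right (ha i) (abs_nonneg _)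
    linarith
  obtain ⟨m₁, hm₁, hR₁⟩ := hS Y (2 * ρ) z'' B hY (by linarith) hB hBY
    (fun j => hfz j.succ) hBz
  set D : (Fin (n + 1) → ℤ) → Prop := fun u => |zz u| ≤ C * (2 * ρ) ∧
    ∀ l, |(u l : ℝ)| ≤ N * (P * Y) with hD
  have hDL : ∀ v, Slab z'' (C * (2 * ρ)) (Y ^ C) v → D (LL F v) := by
    intro v hv
    refine ⟨?_, ?_⟩
    · rw [hev]
      exact hv.1
    · intro l
      have e : (((LL F v) l : ℤ) : ℝ) = ∑ j, (v j : ℝ) * (F j l : ℝ) := by
        rw [LL_apply]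
        simp
      rw [e]
      exact sum_bd v (fun j => (F j l : ℝ)) P Y hP0 hv.2 (fun j => hfY j.succ l)
  have hR₂ := hR₁.map (LL F) hDL
  have hstd : (fun i => LL F (std n i)) = F := by
    funext i
    rw [LL_apply, Finset.sum_eq_single i]
    · simp [std]
    · intro j _ hj
      simp [std, Pi.single_eq_of_ne hj]
    · intro h
      exact absurd (Finset.mem_univ i) h
  rw [hstd] at hR₂
  have hDB := hR₂.target
  have hf0 : Slab z ((2 * C + 3) * ρ) X (f 0) := by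
    refine ⟨?_, ?_⟩
    · have := hfz 0
      linarith
    · intro l
      refine (hfY 0 l).trans ?_
      rw [hXeq]
      linarith
  have hR₃ : MReach (Slab z ((2 * C + 3) * ρ) X) m₁ F (fun i => LL F (B i)) := by
    refine MReach.mono ?_ hR₂
    intro u hu
    refine ⟨?_, ?_⟩
    · have h1 : |ev z u| ≤ C * (2 * ρ) := hu.1
      linarith
    · intro l
      refine (hu.2 l).trans ?_
      rw [hXeq]
      have : (0 : ℝ) ≤ P * Y ^ 2 := by positivity
      linarith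
  have hR₄ := hR₃.cons hf0
  have hL2 := MReach.line (D := Slab z ((2 * C + 3) * ρ) X) hf0 (fun i => LL F (B i)) a (by
    intro i t ht
    refine ⟨?_, ?_⟩
    · have h1 : |zz (LL F (B i))| ≤ (2 * C + 3) * ρ := (hDB i).1.trans (by linarith)
      have h2 : |zz (LL F (B i)) + a i * zz (f 0)| ≤ (2 * C + 3) * ρ := by
        have e : zz (LL F (B i)) + a i * zz (f 0) =
            ev z (a i • f 0 + ∑ j, B i j • f j.succ) := by
          have e1 : a i • f 0 + ∑ j, B i j • f j.succ = LL F (B i) + a i • f 0 := by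
            exact add_comm _ _
          rw [e1, ← evH_apply, ← hzz, hlin]
        rw [e]
        exact (hg i).trans (by linarith)
      have h3 := conv _ (zz (f 0)) _ t (a i) ht h1 h2
      rw [← hlin] at h3
      exact h3
    · intro l
      have ht' : |(t : ℝ)| ≤ Y := by
        refine le_trans ?_ (ha i)
        rcases ht with ⟨a1, a2⟩ | ⟨a1, a2⟩
        · have b1 : (0 : ℝ) ≤ t := by exact_mod_cast a1
          have b2 : (t : ℝ) ≤ a i := by exact_mod_cast a2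
          rw [abs_of_nonneg b1, abs_of_nonneg (b1.trans b2)]
          exact b2
        · have b1 : (a i : ℝ) ≤ t := by exact_mod_cast a1
          have b2 : (t : ℝ) ≤ 0 := by exact_mod_cast a2
          rw [abs_of_nonpos b2, abs_of_nonpos (b1.trans b2)]
          linarith
      refine (coord (LL F (B i)) (f 0) t l _ Y Y ((hDB i).2 l) ht' (hfY 0 l)).trans ?_
      rw [hXeq]
      have : Y * Y = Y ^ 2 := by ring
      linarith)
  have hend : (fun i => LL F (B i) + a i • f 0) =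
      (fun i => a i • f 0 + ∑ j, B i j • f j.succ) := by
    funext i
    exact add_comm _ _
  have hstart : (Fin.cons (f 0) F : Fin (n + 1) → Fin (n + 1) → ℤ) = f := Fin.cons_self_tail f
  rw [hend] at hL2
  rw [hstart] at hR₄
  refine ⟨_, ?_, hR₄.trans hL2⟩
  have s1 := sum_natAbs a Y ha
  rw [Nat.cast_add]
  linarith

end LatLin.B
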