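import Pool.Agent.Lib.MP_2392aa_gt.B.SlabRed

/-!
MODULE SlabCase2. Inductive step, the value of the common vector is not very small.

Here `ε = |ev z (f 0)|`, `ρ < ε * Y`, `ε ≤ 2 ρ`.
PROOF. Write `zz : (Fin (n+1) → ℤ) →+ ℝ` for `ev z`. Apply `hS` with `z := 0`, `ρ := 0`, `X := Y`:
moves from `std n` to `B` through vectors with coordinates `≤ Y ^ C`, `m₁ ≤ Y ^ C` of them. Map by
`L v = ∑ j, v j • f j.succ`: moves from `fun j => f j.succ` to `fun i => ∑ j, B i j • f j.succ` in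
`D u := |ev z u| ≤ U * ρ ∧ ∀ l, |u l| ≤ U`, with `U = 2 * n * Y ^ (C + 1)`; `D 0` holds.
Choose `c i` with `|ev z (f i.succ + c i • f 0)| ≤ ε` between: rounding of `ev z (f i.succ) / ev z (f 0)`
TOWARDS zero, so `|c i| * ε ≤ |ev z (f i.succ)| ≤ 2 ρ`, `|c i| ≤ 2 Y`, and the values
along the line are `≤ 2 ρ` (`MReach.line`, at most `n * 2 Y` moves).
Then `reduce` (`≤ 2 m₁` moves) with `r = f 0`. In its region `v = u + k • f 0`, `D u`, `|ev z v| ≤ 2 ε`:
`|k| ε ≤ 2 ε + U ρ ≤ (2 + U Y) ε`, so the coordinates of `v` are `≤ U + (2 + U Y) Y`, and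
`|ev z v| ≤ 2 ε ≤ 4 ρ`.
Finally `MReach.line` from `∑ j, B i j • f j.succ + c' i • f 0` with coefficients `a i - c' i`:
the values along the line lie between the two end values, `≤ max ε ρ ≤ 2 ρ` (convexity), the
coordinates are `≤ U + (Y + 2 + U Y) Y`, the number of moves is `≤ n * (Y + 2 + U Y)`
(`|c' i| ε ≤ ε + U ρ`).
All together: number of moves `≤ 2 n Y + 2 Y ^ C + n (Y + 2 + U Y)`, which is
`≤ (8 n n + 8 n + 2) * Y ^ (C + 3)`; coordinates `≤ (8 n + 4) * Y ^ (C + 4)` (any crude estimate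
with `2 ≤ Y`).
-/

namespace LatLin.B

private theorem ev_add' {n : ℕ} (z : Fin n → ℝ) (v w : Fin n → ℤ) :
    ev z (v + w) = ev z v + ev z w := by
  simp only [ev, Pi.add_apply, Int.cast_add, add_mul, Finset.sum_add_distrib]

private noncomputable def evH {n : ℕ} (z : Fin n → ℝ) : (Fin n → ℤ) →+ ℝ where
  toFun := ev z
  map_zero' := by simp [ev]
  map_add' := ev_add' z

private theorem evH_apply {n : ℕ} (z : Fin n → ℝ) (v : Fin n → ℤ) : evH z v = ev z v := rfl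

private def LL {n : ℕ} {V : Type*} [AddCommGroup V] (F : Fin n → V) : (Fin n → ℤ) →+ V where
  toFun v := ∑ j, v j • F j
  map_zero' := by simp
  map_add' v w := by simp [add_smul, Finset.sum_add_distrib]

private theorem LL_apply {n : ℕ} {V : Type*} [AddCommGroup V] (F : Fin n → V) (v : Fin n → ℤ) :
    LL F v = ∑ j, v j • F j := rfl

private theorem sum_bd {n : ℕ} (v : Fin n → ℤ) (x : Fin n → ℝ) (P Y : ℝ) (hP : 0 ≤ P)
    (hv : ∀ j, |(v j : ℝ)| ≤ P) (hx : ∀ j, |x j| ≤ Y) :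
    |∑ j, (v j : ℝ) * x j| ≤ n * (P * Y) := by
  calc |∑ j, (v j : ℝ) * x j| ≤ ∑ j, |(v j : ℝ) * x j| := Finset.abs_sum_le_sum_abs _ _
    _ ≤ ∑ _j : Fin n, P * Y := by
        refine Finset.sum_le_sum (fun j _ => ?_)
        rw [abs_mul]
        exact mul_le_mul (hv j) (hx j) (abs_nonneg _) hP
    _ = n * (P * Y) := by simp

private theorem sum_natAbs {n : ℕ} (c : Fin n → ℤ) (K : ℝ) (hc : ∀ i, |(c i : ℝ)| ≤ K) :
    ((∑ i, (c i).natAbs : ℕ) : ℝ) ≤ n * K := by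
  rw [Nat.cast_sum]
  calc ∑ i, (((c i).natAbs : ℕ) : ℝ) ≤ ∑ _i : Fin n, K := by
        refine Finset.sum_le_sum (fun j _ => ?_)
        rw [Nat.cast_natAbs, Int.cast_abs]
        exact hc j
    _ = n * K := by simp

private theorem conv (x r M : ℝ) (t c : ℤ) (ht : (0 ≤ t ∧ t ≤ c) ∨ (c ≤ t ∧ t ≤ 0)) (h1 : |x| ≤ M)
    (h2 : |x + c * r| ≤ M) : |x + t * r| ≤ M := by
  rw [abs_le] at *
  rcases ht with ⟨a, b⟩ | ⟨a, b⟩
  · have a' : (0 : ℝ) ≤ t := by exact_mod_cast a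
    have b' : (t : ℝ) ≤ c := by exact_mod_cast b
    rcases le_total 0 r with hr | hr
    · have h3 := mul_nonneg a' hr
      have h4 := mul_le_mul_of_nonneg_right b' hr
      constructor <;> linarith [h1.1, h1.2, h2.1, h2.2]
    · have h3 := mul_nonpos_of_nonneg_of_nonpos a' hr
      have h4 := mul_le_mul_of_nonpos_right b' hr
      constructor <;> linarith [h1.1, h1.2, h2.1, h2.2]
  · have a' : (c : ℝ) ≤ t := by exact_mod_cast a
    have b' : (t : ℝ) ≤ 0 := by exact_mod_cast b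
    rcases le_total 0 r with hr | hr
    · have h3 := mul_nonpos_of_nonpos_of_nonneg b' hr
      have h4 := mul_le_mul_of_nonneg_right a' hr
      constructor <;> linarith [h1.1, h1.2, h2.1, h2.2]
    · have h3 := mul_nonneg_of_nonpos_of_nonpos b' hr
      have h4 := mul_le_mul_of_nonpos_right a' hr
      constructor <;> linarith [h1.1, h1.2, h2.1, h2.2]

private theorem rnd (x r : ℝ) (hr : r ≠ 0) :
    ∃ c : ℤ, |x + c * r| ≤ |r| ∧ |(c : ℝ)| * |r| ≤ |x| + |r| := by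
  have hr' : 0 < |r| := abs_pos.mpr hr
  have h1 : |x + ((-round (x / r) : ℤ) : ℝ) * r| ≤ |r| := by
    have e : x + ((-round (x / r) : ℤ) : ℝ) * r = (x / r - round (x / r)) * r := by
      push_cast
      field_simp
      ring
    rw [e, abs_mul]
    have := abs_sub_round (x / r)
    nlinarith
  refine ⟨-round (x / r), h1, ?_⟩
  rw [← abs_mul]
  have e : ((-round (x / r) : ℤ) : ℝ) * r = (x + ((-round (x / r) : ℤ) : ℝ) * r) - x := by ring
  rw [e]
  refine (abs_sub _ _).trans ?_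
  linarith

private theorem coord {n : ℕ} (u w : Fin n → ℤ) (k : ℤ) (l : Fin n) (U K Y : ℝ)
    (hu : |(u l : ℝ)| ≤ U) (hk : |(k : ℝ)| ≤ K) (hw : |(w l : ℝ)| ≤ Y) :
    |(((u + k • w) l : ℤ) : ℝ)| ≤ U + K * Y := by
  have e : (((u + k • w) l : ℤ) : ℝ) = (u l : ℝ) + (k : ℝ) * (w l : ℝ) := by
    simp
  rw [e]
  refine (abs_add_le _ _).trans ?_
  rw [abs_mul]
  have := mul_le_mul hk hw (abs_nonneg _) ((abs_nonneg _).trans hk)
  linarith

theorem case2 {n : ℕ} (C : ℕ) (hS : ∀ (X ρ : ℝ) (z : Fin n → ℝ) (A : Matrix (Fin n) (Fin n) ℤ),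
      2 ≤ X → 0 ≤ ρ → A.det = 1 → (∀ i j, |(A i j : ℝ)| ≤ X) → (∀ i, |z i| ≤ ρ) →
      (∀ i, |ev z (A i)| ≤ ρ) →
      ∃ m : ℕ, (m : ℝ) ≤ X ^ C ∧ MReach (Slab z (C * ρ) (X ^ C)) m (std n) (fun i => A i))
    (z : Fin (n + 1) → ℝ) (ρ Y : ℝ) (hρ : 0 ≤ ρ) (hY : 2 ≤ Y)
    (f : Fin (n + 1) → Fin (n + 1) → ℤ) (hfz : ∀ i, |ev z (f i)| ≤ 2 * ρ)
    (hfY : ∀ i l, |(f i l : ℝ)| ≤ Y) (a : Fin n → ℤ) (B : Matrix (Fin n) (Fin n) ℤ)
    (hB : B.det = 1) (ha : ∀ i, |(a i : ℝ)| ≤ Y) (hBY : ∀ i j, |(B i j : ℝ)| ≤ Y)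
    (hg : ∀ i, |ev z (a i • f 0 + ∑ j, B i j • f j.succ)| ≤ ρ) (hε : ρ < |ev z (f 0)| * Y) :
    ∃ m : ℕ, (m : ℝ) ≤ (8 * (n : ℝ) ^ 2 + 8 * n + 2) * Y ^ (C + 3) ∧
      MReach (Slab z (4 * ρ) ((8 * n + 4) * Y ^ (C + 4))) m f
        (Fin.cons (f 0) (fun i => a i • f 0 + ∑ j, B i j • f j.succ) :
          Fin (n + 1) → Fin (n + 1) → ℤ) := by
  classical
  set F : Fin n → Fin (n + 1) → ℤ := fun j => f j.succ with hF
  set zz := evH z with hzz
  have hY0 : (0 : ℝ) ≤ Y := by linarith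
  have hY1 : (1 : ℝ) ≤ Y := by linarith
  have hN : (0 : ℝ) ≤ n := Nat.cast_nonneg n
  set N : ℝ := (n : ℝ) with hNdef
  set P : ℝ := Y ^ C with hP
  have hP1 : (1 : ℝ) ≤ P := one_le_pow₀ hY1
  have hP0 : (0 : ℝ) ≤ P := by linarith
  set ε : ℝ := |zz (f 0)| with hεdef
  have hε' : ρ < ε * Y := hε
  have hεpos : 0 < ε := by
    by_contra hcon
    have h0 : ε = 0 := le_antisymm (not_lt.mp hcon) (abs_nonneg _)
    rw [h0] at hε'
    linarith
  have hr : zz (f 0) ≠ 0 := abs_pos.mp hεpos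
  have hε2 : ε ≤ 2 * ρ := hfz 0
  have hrho : 0 < ρ := by linarith
  set U : ℝ := 2 * N * (P * Y) with hU
  have hU0 : 0 ≤ U := by positivity
  -- numerical facts
  set Q : ℝ := P * Y ^ 4 with hQ
  have q1 : P * Y ≤ Q := by
    rw [hQ]
    have : Y ≤ Y ^ 4 := le_self_pow₀ hY1 (by norm_num)
    exact mul_le_mul_of_nonneg_left this hP0
  have q3 : P * Y ^ 3 ≤ Q := by
    rw [hQ]
    have : Y ^ 3 ≤ Y ^ 4 := pow_le_pow_right₀ hY1 (by norm_num)
    exact mul_le_mul_of_nonneg_left this hP0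
  have qY4 : Y ^ 4 ≤ Q := by
    rw [hQ]
    have : (0 : ℝ) ≤ Y ^ 4 := by positivity
    nlinarith
  have qY : Y ≤ Q := (le_self_pow₀ hY1 (by norm_num)).trans qY4
  have qY2 : Y ^ 2 ≤ Q := (pow_le_pow_right₀ hY1 (by norm_num)).trans qY4
  have hXeq : (8 * N + 4) * Y ^ (C + 4) = (8 * N + 4) * Q := by
    rw [hQ, hP, pow_add]
  have nq1 : N * (P * Y) ≤ N * Q := mul_le_mul_of_nonneg_left q1 hN
  have nq3 : N * (P * Y ^ 3) ≤ N * Q := mul_le_mul_of_nonneg_left q3 hN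
  have hQ0 : 0 ≤ Q := by positivity
  have hNQ : 0 ≤ N * Q := mul_nonneg hN hQ0
  -- step 1
  obtain ⟨m₁, hm₁, hR₁⟩ := hS Y 0 (fun _ => 0) B hY le_rfl hB hBY (by simp) (by intro i; simp [ev])
  set D : (Fin (n + 1) → ℤ) → Prop := fun u => |zz u| ≤ U * ρ ∧ ∀ l, |(u l : ℝ)| ≤ U with hD
  have hD0 : D 0 := by
    refine ⟨?_, ?_⟩
    · rw [map_zero, abs_zero]
      positivity
    · intro l
      simpa using hU0
  have hDL : ∀ v, Slab (fun _ => 0) (C * 0) (Y ^ C) v → D (LL F v) := by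
    intro v hv
    have hv2 := hv.2
    refine ⟨?_, ?_⟩
    · have e : zz (LL F v) = ∑ j, (v j : ℝ) * zz (F j) := by
        rw [LL_apply, map_sum]
        refine Finset.sum_congr rfl (fun j _ => ?_)
        rw [map_zsmul, zsmul_eq_mul]
      rw [e]
      refine (sum_bd v (fun j => zz (F j)) P (2 * ρ) hP0 hv2 (fun j => hfz j.succ)).trans ?_
      rw [hU]
      have h1 : 0 ≤ N * P * ρ := by positivity
      nlinarith
    · intro l
      have e : (((LL F v) l : ℤ) : ℝ) = ∑ j, (v j : ℝ) * (F j l : ℝ) := by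
        rw [LL_apply]
        simp
      rw [e]
      refine (sum_bd v (fun j => (F j l : ℝ)) P Y hP0 hv2 (fun j => hfY j.succ l)).trans ?_
      rw [hU]
      have h1 : 0 ≤ N * (P * Y) := by positivity
      linarith
  have hR₂ := hR₁.map (LL F) hDL
  have hstd : (fun i => LL F (std n i)) = F := by
    funext i
    rw [LL_apply, Finset.sum_eq_single i]
    · simp [std]
    · intro j _ hj
      simp [std, Pi.single_eq_of_ne hj]
    · intro h
      exact absurd (Finset.mem_univ i) h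
  rw [hstd] at hR₂
  have hDB := hR₂.target
  -- step 2 : the coefficients c
  have hex : ∀ i, ∃ c : ℤ, |zz (F i) + c * zz (f 0)| ≤ ε ∧ |(c : ℝ)| * ε ≤ |zz (F i)| + ε :=
    fun i => rnd (zz (F i)) (zz (f 0)) hr
  choose c hc1 hc2 using hex
  have hcY : ∀ i, |(c i : ℝ)| ≤ 2 * Y + 1 := by
    intro i
    have h1 := hc2 i
    have h2 : |zz (F i)| ≤ 2 * ρ := hfz i.succ
    refine le_of_mul_le_mul_right (a := ε) ?_ hεpos
    nlinarith
  have hlin : ∀ (u : Fin (n + 1) → ℤ) (k : ℤ), zz (u + k • f 0) = zz u + k * zz (f 0) := by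
    intro u k
    rw [map_add, map_zsmul, zsmul_eq_mul]
  set X : ℝ := (8 * N + 4) * Y ^ (C + 4) with hX
  have hf0 : Slab z (4 * ρ) X (f 0) := by
    refine ⟨?_, ?_⟩
    · have := hfz 0
      linarith
    · intro l
      refine (hfY 0 l).trans ?_
      rw [hXeq]
      nlinarith
  have hL1 := MReach.line (D := Slab z (4 * ρ) X) hf0 F c (by
    intro i t ht
    refine ⟨?_, ?_⟩
    · have h1 : |zz (F i)| ≤ 4 * ρ := by
        have : |zz (F i)| ≤ 2 * ρ := hfz i.succ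
        linarith
      have h2 : |zz (F i) + c i * zz (f 0)| ≤ 4 * ρ := (hc1 i).trans (by linarith)
      have h3 := conv (zz (F i)) (zz (f 0)) (4 * ρ) t (c i) ht h1 h2
      rw [← hlin] at h3
      exact h3
    · intro l
      have ht' : |(t : ℝ)| ≤ 2 * Y + 1 := by
        refine le_trans ?_ (hcY i)
        rcases ht with ⟨a1, a2⟩ | ⟨a1, a2⟩
        · have b1 : (0 : ℝ) ≤ t := by exact_mod_cast a1
          have b2 : (t : ℝ) ≤ c i := by exact_mod_cast a2
          rw [abs_of_nonneg b1, abs_of_nonneg (b1.trans b2)]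
          exact b2
        · have b1 : (c i : ℝ) ≤ t := by exact_mod_cast a1
          have b2 : (t : ℝ) ≤ 0 := by exact_mod_cast a2
          rw [abs_of_nonpos b2, abs_of_nonpos (b1.trans b2)]
          linarith
      refine (coord (F i) (f 0) t l Y (2 * Y + 1) Y (hfY i.succ l) ht' (hfY 0 l)).trans ?_
      rw [hXeq]
      nlinarith)
  -- step 3 : reduce
  have hcr : ∀ i, |zz (F i + c i • f 0)| ≤ |zz (f 0)| := by
    intro i
    rw [hlin]
    exact hc1 i
  obtain ⟨m₂, c', hm₂, hc', hR₃⟩ := reduce zz (f 0) hr hD0 hR₂ c hcr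
  have hR₄ : MReach (Slab z (4 * ρ) X) m₂ (Fin.cons (f 0) (fun i => F i + c i • f 0) :
      Fin (n + 1) → Fin (n + 1) → ℤ) (Fin.cons (f 0) (fun i => LL F (B i) + c' i • f 0)) := by
    refine MReach.mono ?_ hR₃
    rintro v ⟨hv1, u, k, ⟨hu1, hu2⟩, rfl⟩
    refine ⟨?_, ?_⟩
    · have h1 : |zz (u + k • f 0)| ≤ 2 * ε := hv1
      have h2 : |ev z (u + k • f 0)| ≤ 2 * ε := h1
      linarith
    · intro l
      have hk : |(k : ℝ)| ≤ 2 + U * Y := by
        have h1 : |(k : ℝ) * zz (f 0)| ≤ 2 * ε + U * ρ := by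
          have e : (k : ℝ) * zz (f 0) = zz (u + k • f 0) - zz u := by
            rw [hlin]
            ring
          rw [e]
          refine (abs_sub _ _).trans ?_
          linarith
        rw [abs_mul] at h1
        refine le_of_mul_le_mul_right (a := ε) ?_ hεpos
        have h2 : U * ρ ≤ U * (ε * Y) := mul_le_mul_of_nonneg_left hε'.le hU0
        linarith
      refine (coord u (f 0) k l U (2 + U * Y) Y (hu2 l) hk (hfY 0 l)).trans ?_
      rw [hXeq, hU]
      have e : 2 * N * (P * Y) + (2 + 2 * N * (P * Y) * Y) * Y =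
          2 * (N * (P * Y)) + 2 * Y + 2 * (N * (P * Y ^ 3)) := by ring
      rw [e]
      linarith
  -- step 4 : last line
  have hc'Y : ∀ i, |(c' i : ℝ)| ≤ 1 + U * Y := by
    intro i
    have h0 : |zz (LL F (B i))| ≤ U * ρ := (hDB i).1
    have h1 : |(c' i : ℝ) * zz (f 0)| ≤ ε + U * ρ := by
      have e : (c' i : ℝ) * zz (f 0) = zz (LL F (B i) + c' i • f 0) - zz (LL F (B i)) := by
        rw [hlin]
        ring
      rw [e]
      refine (abs_sub _ _).trans ?_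
      have := hc' i
      linarith
    rw [abs_mul] at h1
    refine le_of_mul_le_mul_right (a := ε) ?_ hεpos
    have h2 : U * ρ ≤ U * (ε * Y) := mul_le_mul_of_nonneg_left hε'.le hU0
    linarith
  have hUY : 0 ≤ U * Y := mul_nonneg hU0 hY0
  have hL2 := MReach.line (D := Slab z (4 * ρ) X) hf0 (fun i => LL F (B i) + c' i • f 0)
    (fun i => a i - c' i) (by
    intro i t ht
    refine ⟨?_, ?_⟩
    · have h1 : |zz (LL F (B i) + c' i • f 0)| ≤ 4 * ρ := (hc' i).trans (by linarith)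
      have h2 : |zz (LL F (B i) + c' i • f 0) + ((a i - c' i : ℤ) : ℝ) * zz (f 0)| ≤ 4 * ρ := by
        have e : zz (LL F (B i) + c' i • f 0) + ((a i - c' i : ℤ) : ℝ) * zz (f 0) =
            ev z (a i • f 0 + ∑ j, B i j • f j.succ) := by
          have e1 : a i • f 0 + ∑ j, B i j • f j.succ = LL F (B i) + a i • f 0 := by
            exact add_comm _ _
          rw [e1, ← evH_apply, ← hzz, hlin, hlin]
          push_cast
          ring
        rw [e]
        exact (hg i).trans (by linarith)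
      have h3 := conv _ (zz (f 0)) (4 * ρ) t (a i - c' i) ht h1 h2
      rw [← hlin] at h3
      exact h3
    · intro l
      have ht' : |((c' i + t : ℤ) : ℝ)| ≤ Y + 1 + U * Y := by
        have h1 := hc'Y i
        have h2 := ha i
        rw [abs_le] at h1 h2 ⊢
        push_cast
        rcases ht with ⟨a1, a2⟩ | ⟨a1, a2⟩
        · have b1 : (0 : ℝ) ≤ t := by exact_mod_cast a1
          have b2 : (t : ℝ) ≤ a i - c' i := by exact_mod_cast a2
          constructor <;> linarith [h1.1, h1.2, h2.1, h2.2]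
        · have b1 : (a i - c' i : ℝ) ≤ t := by exact_mod_cast a1
          have b2 : (t : ℝ) ≤ 0 := by exact_mod_cast a2
          constructor <;> linarith [h1.1, h1.2, h2.1, h2.2]
      have e : LL F (B i) + c' i • f 0 + t • f 0 = LL F (B i) + (c' i + t) • f 0 := by
        rw [add_smul, add_assoc]
      show |(((LL F (B i) + c' i • f 0 + t • f 0) l : ℤ) : ℝ)| ≤ X
      rw [e]
      refine (coord (LL F (B i)) (f 0) (c' i + t) l U (Y + 1 + U * Y) Y ((hDB i).2 l) ht'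
        (hfY 0 l)).trans ?_
      rw [hXeq, hU]
      have e : 2 * N * (P * Y) + (Y + 1 + 2 * N * (P * Y) * Y) * Y =
          2 * (N * (P * Y)) + Y ^ 2 + Y + 2 * (N * (P * Y ^ 3)) := by ring
      rw [e]
      linarith)
  have hend : (fun i => LL F (B i) + c' i • f 0 + (a i - c' i) • f 0) =
      (fun i => a i • f 0 + ∑ j, B i j • f j.succ) := by
    funext i
    rw [LL_apply, sub_smul]
    show (∑ j, B i j • f j.succ) + c' i • f 0 + (a i • f 0 - c' i • f 0) = _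
    abel
  have hstart : (Fin.cons (f 0) F : Fin (n + 1) → Fin (n + 1) → ℤ) = f := Fin.cons_self_tail f
  rw [hend] at hL2
  rw [hstart] at hL1
  refine ⟨_, ?_, (hL1.trans hR₄).trans hL2⟩
  have s1 := sum_natAbs c (2 * Y + 1) hcY
  have s2 := sum_natAbs (fun i => a i - c' i) (Y + 1 + U * Y) (by
    intro i
    push_cast
    refine (abs_sub _ _).trans ?_
    have h1 := hc'Y i
    have h2 := ha i
    linarith)
  have s3 : (m₂ : ℝ) ≤ 2 * P := by
    have : (m₂ : ℝ) ≤ 2 * (m₁ : ℝ) := by exact_mod_cast hm₂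
    linarith
  rw [Nat.cast_add, Nat.cast_add]
  have hY3 : Y ^ (C + 3) = P * Y ^ 3 := by rw [hP, pow_add]
  rw [hY3]
  set T : ℝ := P * Y ^ 3 with hT
  have t0 : P ≤ T := by
    rw [hT]
    have : (1 : ℝ) ≤ Y ^ 3 := one_le_pow₀ hY1
    nlinarith
  have t1 : Y ≤ T := by
    rw [hT]
    have h1 : Y ≤ Y ^ 3 := le_self_pow₀ hY1 (by norm_num)
    have h2 : (0 : ℝ) ≤ Y ^ 3 := by positivity
    nlinarith
  have t2 : P * Y ^ 2 ≤ T := by
    rw [hT]
    have : Y ^ 2 ≤ Y ^ 3 := pow_le_pow_right₀ hY1 (by norm_num)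
    exact mul_le_mul_of_nonneg_left this hP0
  have t3 : (1 : ℝ) ≤ T := hP1.trans t0
  have u1 : N * Y ≤ N * T := mul_le_mul_of_nonneg_left t1 hN
  have u2 : N * 1 ≤ N * T := mul_le_mul_of_nonneg_left t3 hN
  have u3 : N ^ 2 * (P * Y ^ 2) ≤ N ^ 2 * T := mul_le_mul_of_nonneg_left t2 (by positivity)
  have e1 : N * (Y + 1 + U * Y) = N * Y + N * 1 + 2 * (N ^ 2 * (P * Y ^ 2)) := by
    rw [hU]
    ring
  have e2 : (n : ℝ) * (2 * Y + 1) = 2 * (N * Y) + N * 1 := by ring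
  rw [e2] at s1
  have s2' : ((∑ i, ((fun i => a i - c' i) i).natAbs : ℕ) : ℝ) ≤
      N * Y + N * 1 + 2 * (N ^ 2 * (P * Y ^ 2)) := by
    rw [← e1]
    exact s2
  have u4 : 0 ≤ N ^ 2 * T := by positivity
  have u5 : 0 ≤ N * T := by positivity
  have e3 : (8 * N ^ 2 + 8 * N + 2) * T = 8 * (N ^ 2 * T) + 8 * (N * T) + 2 * T := by ring
  rw [e3]
  linarith

end LatLin.B
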