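import Pool.Agent.Lib.MP_2392aa_gt.B.SlabDefs

/-!
MODULE SlabFactor. If `A` and `P` have determinant one and the same row `0`, then the other rows of
`A` are `a i • P 0 + ∑ j, B i j • P j.succ` with `det B = 1` and polynomial bounds.

PROOF. `A' = A * P.adjugate`, so `A = A' * P` (`Matrix.adjugate_mul`, `det P = 1`). Row `0`:
`A' 0 = (P 0) ᵥ* adjugate P = (P * adjugate P) 0 = 1 0`. Put `a i = A' i.succ 0`,
`B i j = A' i.succ j.succ`. `det A' = 1` and expansion along row `0`
(`Matrix.det_succ_row_zero`) give `det B = 1`. Bounds: `Matrix.adjugate_apply` and `Matrix.det_le`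
with `x = 2 X` (entries of the updated matrix are `≤ 2 X` since `1 ≤ 2 X`), so the entries of the
adjugate are `≤ (n+1)! (2X)^(n+1)`.
-/

namespace LatLin.B

/-- the size bound for the coefficients -/
noncomputable def YY (n : ℕ) (X : ℝ) : ℝ :=
  ((n : ℝ) + 1) * X * (((n + 1).factorial : ℝ) * (2 * X) ^ (n + 1))

private theorem adj_le {n : ℕ} {X : ℝ} (hX : 1 ≤ X) {P : Matrix (Fin (n + 1)) (Fin (n + 1)) ℤ}
    (hPX : ∀ i j, |(P i j : ℝ)| ≤ 2 * X) (k j : Fin (n + 1)) :
    |(P.adjugate k j : ℝ)| ≤ ((n + 1).factorial : ℝ) * (2 * X) ^ (n + 1) := by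
  have hinj : Function.Injective (Int.castRingHom ℝ) := fun a b h => by simpa using h
  have h := Matrix.det_le (A := P.updateRow j (Pi.single k 1))
    (abv := (AbsoluteValue.abs : AbsoluteValue ℝ ℝ).comp hinj) (x := 2 * X) (by
      intro a b
      have h1 : ((AbsoluteValue.abs : AbsoluteValue ℝ ℝ).comp hinj) (P.updateRow j (Pi.single k 1) a b) =
          |((P.updateRow j (Pi.single k 1) a b : ℤ) : ℝ)| := rfl
      rw [h1]
      by_cases ha : a = j
      · rw [ha, Matrix.updateRow_self]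
        by_cases hb : b = k
        · rw [hb, Pi.single_eq_same]
          simp only [Int.cast_one, abs_one]
          linarith
        · rw [Pi.single_eq_of_ne hb]
          simp only [Int.cast_zero, abs_zero]
          linarith
      · rw [Matrix.updateRow_ne ha]
        exact hPX a b)
  have h2 : ((AbsoluteValue.abs : AbsoluteValue ℝ ℝ).comp hinj) (P.updateRow j (Pi.single k 1)).det =
      |((P.updateRow j (Pi.single k 1)).det : ℝ)| := rfl
  rw [h2, nsmul_eq_mul, Fintype.card_fin] at h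
  rw [Matrix.adjugate_apply]
  exact h

theorem factor {n : ℕ} (X : ℝ) (hX : 1 ≤ X) (A P : Matrix (Fin (n + 1)) (Fin (n + 1)) ℤ)
    (hA : A.det = 1) (hP : P.det = 1) (hAX : ∀ i j, |(A i j : ℝ)| ≤ X)
    (hPX : ∀ i j, |(P i j : ℝ)| ≤ 2 * X) (h0 : A 0 = P 0) :
    ∃ (a : Fin n → ℤ) (B : Matrix (Fin n) (Fin n) ℤ), B.det = 1 ∧
      (∀ i, A i.succ = a i • P 0 + ∑ j, B i j • P j.succ) ∧
      (∀ i, |(a i : ℝ)| ≤ YY n X) ∧ (∀ i j, |(B i j : ℝ)| ≤ YY n X) := by
  set A' : Matrix (Fin (n + 1)) (Fin (n + 1)) ℤ := A * P.adjugate with hA'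
  have hmul : A' * P = A := by
    rw [hA', Matrix.mul_assoc, Matrix.adjugate_mul, hP, one_smul, Matrix.mul_one]
  have hrow0 : ∀ j, A' 0 j = if 0 = j then 1 else 0 := by
    intro j
    have h1 : A' 0 j = (P * P.adjugate) 0 j := by
      rw [hA', Matrix.mul_apply, Matrix.mul_apply, h0]
    rw [h1, Matrix.mul_adjugate, hP, one_smul, Matrix.one_apply]
  have hdet : A'.det = 1 := by
    have h1 := congrArg Matrix.det hmul
    rw [Matrix.det_mul, hP, hA, mul_one] at h1
    exact h1
  have hbd : ∀ i j, |(A' i j : ℝ)| ≤ YY n X := by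
    intro i j
    rw [hA', Matrix.mul_apply, Int.cast_sum]
    refine (Finset.abs_sum_le_sum_abs _ _).trans ?_
    have h1 : ∀ k ∈ (Finset.univ : Finset (Fin (n + 1))), |((A i k * P.adjugate k j : ℤ) : ℝ)| ≤
        X * (((n + 1).factorial : ℝ) * (2 * X) ^ (n + 1)) := by
      intro k _
      rw [Int.cast_mul, abs_mul]
      exact mul_le_mul (hAX i k) (adj_le hX hPX k j) (abs_nonneg _) (by linarith)
    refine (Finset.sum_le_sum h1).trans (le_of_eq ?_)
    rw [Finset.sum_const, Finset.card_univ, Fintype.card_fin, nsmul_eq_mul]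
    unfold YY
    push_cast
    ring
  refine ⟨fun i => A' i.succ 0, Matrix.of fun i j => A' i.succ j.succ, ?_, ?_, fun i => hbd _ _, fun i j => hbd _ _⟩
  · rw [← hdet, Matrix.det_succ_row_zero, Finset.sum_eq_single 0]
    · rw [hrow0 0, if_pos rfl]
      simp only [Fin.val_zero, pow_zero, one_mul]
      rfl
    · intro j _ hj
      rw [hrow0 j, if_neg (Ne.symm hj)]
      simp
    · intro h
      exact absurd (Finset.mem_univ _) h
  · intro i
    funext k
    have h1 : A i.succ k = (A' * P) i.succ k := by rw [hmul]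
    rw [h1, Matrix.mul_apply, Fin.sum_univ_succ, Pi.add_apply, Pi.smul_apply, Finset.sum_apply, smul_eq_mul]
    rfl

end LatLin.B
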