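import Pool.Agent.Lib.MP_2392aa_gt.B.SlabA
import Pool.Agent.Lib.MP_2392aa_gt.B.SlabFactor
import Pool.Agent.Lib.MP_2392aa_gt.B.SlabCase1
import Pool.Agent.Lib.MP_2392aa_gt.B.SlabCase2

/-!
MODULE SlabFinal. `SlabConn n` for all `n ≥ 1`.

PROOF. Induction on `n`. `n = 1`: `det A = A 0 0 = 1` (`Matrix.det_fin_one`), so the family `A` is
`std 1`, `MReach.refl`, constant `C = 1`.
`n → n + 1` (`n ≥ 1`): given `X, ρ, z, A`. Row `0` of `A` is primitive: `∑ l, (adjugate A) l 0 * A 0 l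
= 1` (from `A * adjugate A = 1`, entry `(0, 0)`). `stepA` with `r = A 0` gives `f₁` in `Slab z ρ X` with
`f₁ i = ± A 0`, `rotate` (`i0 = 0`) gives `f₂` with `f₂ 0 = A 0` in `Slab z (2ρ) (2X)`.
`MReach.det` for `f₂` (`mono`, `trans`) and `factor` with `P = Matrix.of f₂` give `a`, `B`,
bounds `Y := YY n X` (`Y ≥ 2`, `2 X ≤ Y`). Apply `case1` or `case2` to `f := f₂` according to
`|ev z (f₂ 0)| * Y ≤ ρ` or not. The final family `Fin.cons (f₂ 0) (…)` is `A`.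
All bounds are `≤ X ^ C'` with `C'` depending only on `n` and `C` because `2 ≤ X`: use
`(K : ℝ) ≤ 2 ^ K ≤ X ^ K` for constants (`Nat.lt_two_pow_self`), `Y ≤ X ^ c` for some `c`.
Choose `C'` larger than all exponents and than `2 C + 3`.
-/

namespace LatLin.B

private theorem nat_le_pow (K : ℕ) (X : ℝ) (hX : 2 ≤ X) : (K : ℝ) ≤ X ^ K := by
  have h1 : (K : ℝ) ≤ 2 ^ K := by exact_mod_cast (Nat.lt_two_pow_self (n := K)).le
  exact h1.trans (pow_le_pow_left₀ (by norm_num) hX K)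

private theorem YY_ge (n : ℕ) (X : ℝ) (hX : 2 ≤ X) : 2 * X ≤ YY n X := by
  unfold YY
  have h1 : (1 : ℝ) ≤ (n : ℝ) + 1 := by
    have := Nat.cast_nonneg (α := ℝ) n
    linarith
  have h2 : (1 : ℝ) ≤ ((n + 1).factorial : ℝ) := by
    exact_mod_cast Nat.succ_le_of_lt (Nat.factorial_pos (n + 1))
  have h3 : (2 : ℝ) ≤ (2 * X) ^ (n + 1) := by
    calc (2 : ℝ) ≤ 2 * X := by linarith
      _ = (2 * X) ^ 1 := (pow_one _).symm
      _ ≤ (2 * X) ^ (n + 1) := pow_le_pow_right₀ (by linarith) (by omega)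
  have h4 : (2 : ℝ) ≤ ((n + 1).factorial : ℝ) * (2 * X) ^ (n + 1) := by nlinarith
  have h5 : X ≤ ((n : ℝ) + 1) * X := by nlinarith
  nlinarith [mul_nonneg (by linarith : (0 : ℝ) ≤ ((n : ℝ) + 1) * X)
    (by linarith : (0 : ℝ) ≤ ((n + 1).factorial : ℝ) * (2 * X) ^ (n + 1) - 2)]

private theorem YY_le (n : ℕ) (X : ℝ) (hX : 2 ≤ X) :
    YY n X ≤ X ^ ((n + 1) + 1 + ((n + 1).factorial + 2 * (n + 1))) := by
  unfold YY
  have h0 : (0 : ℝ) ≤ X := by linarith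
  have h1 : (n : ℝ) + 1 ≤ X ^ (n + 1) := by exact_mod_cast nat_le_pow (n + 1) X hX
  have h2 : ((n + 1).factorial : ℝ) ≤ X ^ (n + 1).factorial := nat_le_pow _ X hX
  have h3 : (2 * X) ^ (n + 1) ≤ X ^ (2 * (n + 1)) := by
    rw [pow_mul]
    exact pow_le_pow_left₀ (by linarith) (by nlinarith) _
  have h4 : X ^ ((n + 1) + 1 + ((n + 1).factorial + 2 * (n + 1))) =
      X ^ (n + 1) * X * (X ^ (n + 1).factorial * X ^ (2 * (n + 1))) := by
    rw [pow_add X ((n + 1) + 1), pow_succ X (n + 1), pow_add X (n + 1).factorial]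
  rw [h4]
  exact mul_le_mul (mul_le_mul_of_nonneg_right h1 h0)
    (mul_le_mul h2 h3 (by positivity) (by positivity)) (by positivity) (by positivity)

private theorem one_case : SlabConn 1 := by
  refine ⟨1, ?_⟩
  intro X ρ z A hX hρ hA hAX hz hAz
  have hA1 : A 0 0 = 1 := by rw [← Matrix.det_fin_one A]; exact hA
  have hf : (fun i => A i) = std 1 := by
    funext i l
    have hi : i = 0 := Subsingleton.elim _ _
    have hl : l = 0 := Subsingleton.elim _ _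
    subst hi hl
    simp [std, hA1]
  refine ⟨0, by simp; linarith, ?_⟩
  rw [hf]
  refine MReach.refl _ ?_
  intro i
  have h1 := hAz i
  have h2 := hAX i
  have h3 : A i = std 1 i := congrFun hf i
  rw [h3] at h1 h2
  refine ⟨by simpa using h1, fun l => by simpa using h2 l⟩

private theorem step_case (n : ℕ) (hn : 1 ≤ n) (hS : SlabConn n) : SlabConn (n + 1) := by
  obtain ⟨C, hS⟩ := hS
  set c : ℕ := (n + 1) + 1 + ((n + 1).factorial + 2 * (n + 1)) with hcdef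
  set E : ℕ := c * (C + 4) with hE
  set K : ℕ := 8 * n ^ 2 + 20 * n + 20 with hK
  refine ⟨K + 2 * C + E, ?_⟩
  intro X ρ z A hX hρ hA hAX hz hAz
  have hX0 : (0 : ℝ) ≤ X := by linarith
  have hX1 : (1 : ℝ) ≤ X := by linarith
  -- the row is primitive
  have hprim : ∃ a : Fin (n + 1) → ℤ, ∑ l, a l * A 0 l = 1 := by
    refine ⟨fun l => A.adjugate l 0, ?_⟩
    have h := congrFun (congrFun (Matrix.mul_adjugate A) 0) 0
    rw [hA, one_smul, Matrix.one_apply_eq, Matrix.mul_apply] at h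
    rw [← h]
    exact Finset.sum_congr rfl fun l _ => mul_comm _ _
  obtain ⟨m₁, f₁, hm₁, hr₁, i, hi⟩ := stepA z ρ X (A 0) hX1 hz (hAz 0) (hAX 0) hprim
  obtain ⟨m₂, f₂, hm₂, hr₂, hf₂⟩ := rotate (by omega) z ρ X f₁ hr₁.target (A 0) 0 i hi
  have hr₁' : MReach (Slab z (2 * ρ) (2 * X)) m₁ (std (n + 1)) f₁ := by
    refine hr₁.mono ?_
    intro v hv
    exact ⟨hv.1.trans (by linarith), fun l => (hv.2 l).trans (by linarith)⟩
  have hr₁₂ := hr₁'.trans hr₂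
  have hdet : (Matrix.of f₂).det = 1 := hr₁₂.det
  have htar := hr₂.target
  obtain ⟨a, B, hB, hAB, ha, hBY⟩ := factor X hX1 A (Matrix.of f₂) hA hdet hAX
    (fun i j => (htar i).2 j) hf₂.symm
  have hAB' : ∀ i : Fin n, A i.succ = a i • f₂ 0 + ∑ j, B i j • f₂ j.succ := hAB
  set Y : ℝ := YY n X with hYdef
  have hYX : 2 * X ≤ Y := YY_ge n X hX
  have hY2 : 2 ≤ Y := by linarith
  have hY0 : 0 ≤ Y := by linarith
  have hY1 : 1 ≤ Y := by linarith
  have hYc : Y ≤ X ^ c := YY_le n X hX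
  have hXE1 : 1 ≤ X ^ E := one_le_pow₀ hX1
  have hYpow : ∀ k : ℕ, k ≤ C + 4 → Y ^ k ≤ X ^ E := by
    intro k hk
    calc Y ^ k ≤ (X ^ c) ^ k := pow_le_pow_left₀ hY0 hYc k
      _ = X ^ (c * k) := (pow_mul _ _ _).symm
      _ ≤ X ^ E := pow_le_pow_right₀ hX1 (Nat.mul_le_mul_left c hk)
  have hYE : Y ≤ X ^ E := by simpa using hYpow 1 (by omega)
  have hKE : (K : ℝ) * X ^ E ≤ X ^ (K + 2 * C + E) := by
    calc (K : ℝ) * X ^ E ≤ X ^ K * X ^ E :=
          mul_le_mul_of_nonneg_right (nat_le_pow K X hX) (by positivity)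
      _ = X ^ (K + E) := (pow_add _ _ _).symm
      _ ≤ X ^ (K + 2 * C + E) := pow_le_pow_right₀ hX1 (by omega)
  have hKr : (K : ℝ) = 8 * (n : ℝ) ^ 2 + 20 * n + 20 := by
    rw [hK]; push_cast; ring
  have hn0 : (0 : ℝ) ≤ (n : ℝ) := Nat.cast_nonneg n
  have hn2 : (0 : ℝ) ≤ (n : ℝ) ^ 2 := by positivity
  have hρC : ∀ t : ℝ, t ≤ 2 * C + 4 → t * ρ ≤ ((K + 2 * C + E : ℕ) : ℝ) * ρ := by
    intro t ht
    refine mul_le_mul_of_nonneg_right (ht.trans ?_) hρ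
    push_cast
    rw [hKr]
    have : (0 : ℝ) ≤ (E : ℝ) := Nat.cast_nonneg E
    nlinarith
  have hC0 : (0 : ℝ) ≤ (C : ℝ) := Nat.cast_nonneg C
  have hcons : ∀ g : Fin n → Fin (n + 1) → ℤ, (∀ i, A i.succ = g i) →
      (Fin.cons (f₂ 0) g : Fin (n + 1) → Fin (n + 1) → ℤ) = fun i => A i := by
    intro g hg
    funext i
    refine Fin.cases ?_ ?_ i
    · simpa using hf₂
    · intro j
      simpa using (hg j).symm
  have hm₁₂ : ((m₁ + m₂ : ℕ) : ℝ) ≤ (n + 7) * X ^ E := by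
    push_cast
    have h1 : (m₂ : ℝ) ≤ 6 := by exact_mod_cast hm₂
    have h2 : (m₁ : ℝ) ≤ ((n : ℝ) + 1) * X := by exact_mod_cast hm₁
    have h3 : X ≤ X ^ E := by linarith
    nlinarith
  have hr₁₂' : MReach (Slab z (((K + 2 * C + E : ℕ) : ℝ) * ρ) (X ^ (K + 2 * C + E))) (m₁ + m₂)
      (std (n + 1)) f₂ := by
    refine hr₁₂.mono ?_
    intro v hv
    refine ⟨hv.1.trans (hρC 2 (by linarith)), fun l => (hv.2 l).trans ?_⟩
    have : 2 * X ≤ X ^ E := hYX.trans hYE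
    nlinarith
  have hfz : ∀ i, |ev z (f₂ i)| ≤ 2 * ρ := fun i => (htar i).1
  have hfY : ∀ i l, |(f₂ i l : ℝ)| ≤ Y := fun i l => ((htar i).2 l).trans hYX
  have hg : ∀ i : Fin n, |ev z (a i • f₂ 0 + ∑ j, B i j • f₂ j.succ)| ≤ ρ := by
    intro i
    rw [← hAB' i]
    exact hAz i.succ
  rcases le_or_gt (|ev z (f₂ 0)| * Y) ρ with hε | hε
  · obtain ⟨m₃, hm₃, hr₃⟩ := case1 C hS z ρ Y hρ hY2 f₂ hfz hfY a B hB ha hBY hg hε
    rw [hcons _ hAB'] at hr₃
    refine ⟨m₁ + m₂ + m₃, ?_, hr₁₂'.trans (hr₃.mono ?_)⟩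
    · refine le_trans ?_ hKE
      rw [Nat.cast_add]
      have h1 := hYpow C (by omega)
      rw [hKr]
      nlinarith
    · intro v hv
      refine ⟨hv.1.trans (hρC _ (by linarith)), fun l => (hv.2 l).trans (le_trans ?_ hKE)⟩
      have h1 := hYpow (C + 2) (by omega)
      rw [hKr]
      nlinarith
  · obtain ⟨m₃, hm₃, hr₃⟩ := case2 C hS z ρ Y hρ hY2 f₂ hfz hfY a B hB ha hBY hg hε
    rw [hcons _ hAB'] at hr₃
    refine ⟨m₁ + m₂ + m₃, ?_, hr₁₂'.trans (hr₃.mono ?_)⟩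
    · refine le_trans ?_ hKE
      rw [Nat.cast_add]
      have h1 := hYpow (C + 3) (by omega)
      rw [hKr]
      have h2 : (8 * (n : ℝ) ^ 2 + 8 * n + 2) * Y ^ (C + 3) ≤
          (8 * (n : ℝ) ^ 2 + 8 * n + 2) * X ^ E :=
        mul_le_mul_of_nonneg_left h1 (by positivity)
      nlinarith
    · intro v hv
      refine ⟨hv.1.trans (hρC _ (by linarith)), fun l => (hv.2 l).trans (le_trans ?_ hKE)⟩
      have h1 := hYpow (C + 4) (by omega)
      rw [hKr]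
      have h2 : (8 * (n : ℝ) + 4) * Y ^ (C + 4) ≤ (8 * (n : ℝ) + 4) * X ^ E :=
        mul_le_mul_of_nonneg_left h1 (by positivity)
      nlinarith [mul_nonneg hn0 (by linarith : (0 : ℝ) ≤ X ^ E),
        mul_nonneg hn2 (by linarith : (0 : ℝ) ≤ X ^ E)]

theorem slabConn (n : ℕ) (hn : 1 ≤ n) : SlabConn n := by
  induction n with
  | zero => omega
  | succ n ih =>
    rcases Nat.eq_zero_or_pos n with h0 | h0
    · subst h0
      exact one_case
    · exact step_case n h0 (ih h0)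

end LatLin.B
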