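import Pool.Agent.Lib.MP_2392aa_gt.B.GroupDefs
import Pool.Agent.Lib.MP_2392aa_gt.B.SlabFinal

/-!
MODULE ConnB. Connectivity of `{g : ‖g x‖ ≤ w}` with polynomial bounds, for `SL_n(ℤ)` and for finite index
subgroups.

PROOF of `conn_SL`. Apply `slabConn (k + 1)` to `z := rhoZ g x` (coordinates `≤ w`, `ev z v = ∑ v l z l`),
`A := g' * g⁻¹` (entries `≤ X` because an entry is `⟪e_i, A e_j⟫`; `ev z (A i) = (rhoZ g' x) i`),
`ρ := w`. The families `f_t` along the path are the rows of matrices `P_t` of determinant one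
(a move multiplies on the left by a transvection: `mv i j c f` are the rows of
`Matrix.transvection i j c * P`); put `γ t = P_t * g`. From `MReach` extract the sequence
(induction on the relation; state: `∃ P : ℕ → SLZ (k+1)`, `P 0 = P₀`, `P m = …`, consecutive quotients are
transvections, all in the slab). `‖rhoZ (γ t) x‖ ≤ √n * max |ev z (P_t i)| ≤ n C w`; operator norms
are `≤ n * max entry`; for `(P_t)⁻¹ = adjugate` entries `≤ n! * (X^C)^n` (`Matrix.det_le`). All constants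
are `≤ X ^ C'` as `2 ≤ X`.

PROOF of `conn_B`. Finite set `T` of representatives with `1 ∈ T`: every `P ∈ SL` is `P = t * γ'`, `t ∈ T`,
`γ' ∈ Γ` (left cosets). Choose `t = 1` for `P ∈ Γ`. For the path `γ t` of `conn_SL` write `γ t = τ_t * γ'_t`;
then `γ'_(t+1) = τ_(t+1)⁻¹ * e * τ_t * γ'_t` with `e` a transvection with entry `±1`. `S` = all elements of `Γ` of the
form `t'⁻¹ * e * t` (finite). Norms change by constants.
-/

open scoped ContDiff Topology

namespace LatLin.B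

/-- elementary matrices with entry `± 1` -/
def IsElem {n : ℕ} (s : SLZ n) : Prop :=
  ∃ i j, i ≠ j ∧ ∃ c : ℤ, (c = 1 ∨ c = -1) ∧
    (s : Matrix (Fin n) (Fin n) ℤ) = Matrix.transvection i j c

/-- the norm of the linear action -/
noncomputable def nrm {n : ℕ} (g : SLZ n) : ℝ := ‖((rhoZ n g : EE n ≃L[ℝ] EE n) : EE n →L[ℝ] EE n)‖

variable {n : ℕ}

private theorem rho_mul (g h : SLZ n) (v : EE n) : rhoZ n (g * h) v = rhoZ n g (rhoZ n h v) := by
  rw [map_mul]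
  rfl

private theorem nrm_nonneg (g : SLZ n) : 0 ≤ nrm g := norm_nonneg _

private theorem le_nrm (g : SLZ n) (v : EE n) : ‖rhoZ n g v‖ ≤ nrm g * ‖v‖ :=
  ContinuousLinearMap.le_opNorm ((rhoZ n g : EE n ≃L[ℝ] EE n) : EE n →L[ℝ] EE n) v

private theorem nrm_le (g : SLZ n) {M : ℝ} (hM : 0 ≤ M) (h : ∀ v, ‖rhoZ n g v‖ ≤ M * ‖v‖) :
    nrm g ≤ M :=
  ContinuousLinearMap.opNorm_le_bound _ hM h

private theorem nrm_mul (g h : SLZ n) : nrm (g * h) ≤ nrm g * nrm h := by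
  refine nrm_le _ (mul_nonneg (nrm_nonneg g) (nrm_nonneg h)) fun v => ?_
  rw [rho_mul, mul_assoc]
  exact (le_nrm g _).trans (mul_le_mul_of_nonneg_left (le_nrm h v) (nrm_nonneg g))

private theorem coord_le (v : EE n) (i : Fin n) : |v i| ≤ ‖v‖ := by
  have h1 := PiLp.norm_apply_le v i
  rwa [Real.norm_eq_abs] at h1

private theorem norm_le_of_coord (v : EE n) {B : ℝ} (hB : 0 ≤ B) (h : ∀ i, |v i| ≤ B) :
    ‖v‖ ≤ n * B := by
  rw [EuclideanSpace.norm_eq]
  refine Real.sqrt_le_iff.mpr ⟨by positivity, ?_⟩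
  calc ∑ i, ‖v i‖ ^ 2 ≤ ∑ _i : Fin n, B ^ 2 := by
        refine Finset.sum_le_sum fun i _ => ?_
        rw [Real.norm_eq_abs]
        exact pow_le_pow_left₀ (abs_nonneg _) (h i) 2
    _ = n * B ^ 2 := by simp
    _ ≤ (n * B) ^ 2 := by
        rw [mul_pow]
        refine mul_le_mul_of_nonneg_right ?_ (by positivity)
        rcases Nat.eq_zero_or_pos n with h0 | h0
        · rw [h0]
          simp
        · have h1 : (1 : ℝ) ≤ n := by exact_mod_cast h0
          nlinarith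

private theorem entry_le (g : SLZ n) (i j : Fin n) :
    |((g : Matrix (Fin n) (Fin n) ℤ) i j : ℝ)| ≤ nrm g := by
  have h1 : rhoZ n g (EuclideanSpace.single j (1 : ℝ)) i =
      ((g : Matrix (Fin n) (Fin n) ℤ) i j : ℝ) := by
    rw [rhoZ_apply]
    simp [Pi.single_apply]
  rw [← h1]
  refine (coord_le _ i).trans ((le_nrm g _).trans ?_)
  rw [EuclideanSpace.norm_single, norm_one, mul_one]

private theorem nrm_of_entry (g : SLZ n) {B : ℝ} (hB : 0 ≤ B)
    (h : ∀ i j, |((g : Matrix (Fin n) (Fin n) ℤ) i j : ℝ)| ≤ B) : nrm g ≤ (n : ℝ) ^ 2 * B := by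
  refine nrm_le g (by positivity) fun v => ?_
  have h1 : ∀ i, |rhoZ n g v i| ≤ n * B * ‖v‖ := by
    intro i
    rw [rhoZ_apply]
    calc |∑ j, ((g : Matrix (Fin n) (Fin n) ℤ) i j : ℝ) * v j|
        ≤ ∑ j, |((g : Matrix (Fin n) (Fin n) ℤ) i j : ℝ) * v j| := Finset.abs_sum_le_sum_abs _ _
      _ ≤ ∑ _j : Fin n, B * ‖v‖ := by
          refine Finset.sum_le_sum fun j _ => ?_
          rw [abs_mul]
          exact mul_le_mul (h i j) (coord_le v j) (abs_nonneg _) hB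
      _ = n * B * ‖v‖ := by
          simp
          ring
  have h2 := norm_le_of_coord (rhoZ n g v) (by positivity) h1
  calc ‖rhoZ n g v‖ ≤ n * (n * B * ‖v‖) := h2
    _ = (n : ℝ) ^ 2 * B * ‖v‖ := by ring

private theorem nrm_inv_of_entry (g : SLZ n) {B : ℝ} (hB : 1 ≤ B)
    (h : ∀ i j, |((g : Matrix (Fin n) (Fin n) ℤ) i j : ℝ)| ≤ B) :
    nrm g⁻¹ ≤ (n : ℝ) ^ 2 * (n.factorial * B ^ n) := by
  refine nrm_of_entry g⁻¹ (by positivity) fun i j => ?_
  rw [Matrix.SpecialLinearGroup.coe_inv, Matrix.adjugate_apply]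
  have h1 : ((((g : Matrix (Fin n) (Fin n) ℤ).updateRow j (Pi.single i 1)).det : ℤ) : ℝ) =
      (((g : Matrix (Fin n) (Fin n) ℤ).updateRow j (Pi.single i 1)).map
        (Int.castRingHom ℝ)).det := by
    have h2 := RingHom.map_det (Int.castRingHom ℝ)
      ((g : Matrix (Fin n) (Fin n) ℤ).updateRow j (Pi.single i 1))
    simpa using h2
  rw [h1]
  have h3 := Matrix.det_le (A := ((g : Matrix (Fin n) (Fin n) ℤ).updateRow j (Pi.single i 1)).map
        (Int.castRingHom ℝ)) (abv := AbsoluteValue.abs) (x := B) (by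
      intro a b
      rw [AbsoluteValue.abs_apply, Matrix.map_apply]
      by_cases ha : a = j
      · subst ha
        rw [Matrix.updateRow_self]
        by_cases hb : b = i
        · subst hb
          simp [hB]
        · rw [Pi.single_eq_of_ne hb]
          simp
          linarith
      · rw [Matrix.updateRow_ne ha]
        exact h a b)
  rw [AbsoluteValue.abs_apply, Fintype.card_fin, nsmul_eq_mul] at h3
  exact h3

private theorem natpow (K : ℕ) (X : ℝ) (hX : 2 ≤ X) : (K : ℝ) ≤ X ^ K := by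
  have h1 : (K : ℝ) ≤ 2 ^ K := by exact_mod_cast (Nat.lt_two_pow_self (n := K)).le
  exact h1.trans (pow_le_pow_left₀ (by norm_num) hX K)

private theorem mv_rows {i j : Fin n} (hij : i ≠ j) (c : ℤ) (P : Matrix (Fin n) (Fin n) ℤ) :
    (fun a => (Matrix.transvection i j c * P) a) = mv i j c (fun a => P a) := by
  funext a
  unfold mv
  by_cases ha : a = i
  · subst ha
    rw [Function.update_self]
    funext b
    rw [Matrix.transvection_mul_apply_same]
    simp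
  · rw [Function.update_of_ne ha]
    funext b
    rw [Matrix.transvection_mul_apply_of_ne _ _ _ _ ha]

private theorem extract {D : (Fin n → ℤ) → Prop} {m : ℕ} {f f' : Fin n → Fin n → ℤ}
    (h : MReach D m f f') :
    ∀ P : SLZ n, (fun i => (P : Matrix (Fin n) (Fin n) ℤ) i) = f → ∃ γ : ℕ → SLZ n, γ 0 = P ∧
      (fun i => (γ m : Matrix (Fin n) (Fin n) ℤ) i) = f' ∧
      (∀ t < m, IsElem (γ (t + 1) * (γ t)⁻¹)) ∧
      ∀ t ≤ m, ∀ i, D ((γ t : Matrix (Fin n) (Fin n) ℤ) i) := by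
  induction h with
  | refl f h =>
    intro P hP
    refine ⟨fun _ => P, rfl, hP, fun t ht => absurd ht (Nat.not_lt_zero t), fun t _ i => ?_⟩
    have h1 := h i
    rw [← hP] at h1
    exact h1
  | @step m f g i j c h hij hc hD ih =>
    intro P hP
    obtain ⟨γ, h0, hm, hel, hDD⟩ := ih P hP
    let T : SLZ n := ⟨Matrix.transvection i j c, Matrix.det_transvection_of_ne i j hij c⟩
    obtain ⟨γ', e1, e2⟩ : ∃ γ' : ℕ → SLZ n, (∀ t, t ≤ m → γ' t = γ t) ∧ γ' (m + 1) = T * γ m :=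
      ⟨fun t => if t ≤ m then γ t else T * γ m, fun t ht => if_pos ht,
        if_neg (Nat.not_succ_le_self m)⟩
    have hT : (fun a => ((T * γ m : SLZ n) : Matrix (Fin n) (Fin n) ℤ) a) = mv i j c g := by
      rw [← hm, ← mv_rows hij]
      rfl
    refine ⟨γ', ?_, ?_, ?_, ?_⟩
    · rw [e1 0 (Nat.zero_le m)]
      exact h0
    · rw [e2]
      exact hT
    · intro t ht
      rcases Nat.lt_succ_iff_lt_or_eq.mp ht with h1 | h1
      · rw [e1 (t + 1) h1, e1 t h1.le]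
        exact hel t h1
      · subst h1
        rw [e2, e1 t le_rfl, mul_assoc, mul_inv_cancel, mul_one]
        exact ⟨i, j, hij, c, hc, rfl⟩
    · intro t ht a
      rcases Nat.lt_succ_iff_lt_or_eq.mp (Nat.lt_succ_of_le ht) with h1 | h1
      · rw [e1 t (Nat.lt_succ_iff.mp h1)]
        exact hDD t (Nat.lt_succ_iff.mp h1) a
      · subst h1
        rw [e2]
        have h3 : ((T * γ m : SLZ n) : Matrix (Fin n) (Fin n) ℤ) a = mv i j c g a :=
          congrFun hT a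
        rw [h3]
        unfold mv
        by_cases ha : a = i
        · subst ha
          rw [Function.update_self]
          exact hD
        · rw [Function.update_of_ne ha, ← hm]
          exact hDD m le_rfl a

theorem conn_SL (k : ℕ) : ∃ C : ℕ, ∀ (X w : ℝ) (x : EE (k + 1)) (g g' : SLZ (k + 1)), 2 ≤ X →
    ‖rhoZ _ g x‖ ≤ w → ‖rhoZ _ g' x‖ ≤ w → nrm (g' * g⁻¹) ≤ X →
    ∃ (m : ℕ) (γ : ℕ → SLZ (k + 1)), (m : ℝ) ≤ X ^ C ∧ γ 0 = g ∧ γ m = g' ∧
      (∀ t < m, IsElem (γ (t + 1) * (γ t)⁻¹)) ∧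
      ∀ t ≤ m, ‖rhoZ _ (γ t) x‖ ≤ C * w ∧ nrm (γ t * g⁻¹) ≤ X ^ C ∧ nrm (g * (γ t)⁻¹) ≤ X ^ C := by
  obtain ⟨C, hC⟩ := slabConn (k + 1) (Nat.succ_le_succ (Nat.zero_le k))
  set n := k + 1 with hn
  refine ⟨n * C + (C + n ^ 2 + (n ^ 2 + n.factorial + C * n)), ?_⟩
  intro X w x g g' hX hg hg' hA
  set K : ℕ := n * C + (C + n ^ 2 + (n ^ 2 + n.factorial + C * n)) with hK
  have hX1 : (1 : ℝ) ≤ X := by linarith
  have hX0 : (0 : ℝ) ≤ X := by linarith
  have hw : 0 ≤ w := (norm_nonneg _).trans hg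
  set z : Fin n → ℝ := fun i => rhoZ n g x i with hz
  have hev : ∀ (P : SLZ n) (i : Fin n), ev z ((P : Matrix (Fin n) (Fin n) ℤ) i) =
      rhoZ n (P * g) x i := by
    intro P i
    rw [rho_mul, rhoZ_apply]
    rfl
  obtain ⟨m, hm, hreach⟩ := hC X w z (g' * g⁻¹ : SLZ n) hX hw (g' * g⁻¹ : SLZ n).2
    (fun i j => (entry_le _ i j).trans hA) (fun i => (coord_le _ i).trans hg) (fun i => by
      rw [hev, inv_mul_cancel_right]
      exact (coord_le _ i).trans hg')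
  obtain ⟨γ, h0, hmm, hel, hD⟩ := extract hreach 1 (by
    funext i j
    rw [Matrix.SpecialLinearGroup.coe_one]
    unfold std
    rw [Matrix.one_apply, Pi.single_apply]
    by_cases hij : i = j
    · rw [if_pos hij, if_pos hij.symm]
    · rw [if_neg hij, if_neg (fun h => hij h.symm)])
  have hXC : (1 : ℝ) ≤ X ^ C := one_le_pow₀ hX1
  have hmono : ∀ a b : ℕ, a ≤ b → X ^ a ≤ X ^ b := fun a b hab => pow_le_pow_right₀ hX1 hab
  refine ⟨m, fun t => γ t * g, hm.trans (hmono _ _ (by omega)), ?_, ?_, ?_, ?_⟩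
  · show γ 0 * g = g
    rw [h0, one_mul]
  · show γ m * g = g'
    have h1 : γ m = g' * g⁻¹ := by
      apply Subtype.ext
      exact hmm
    rw [h1, inv_mul_cancel_right]
  · intro t ht
    show IsElem (γ (t + 1) * g * (γ t * g)⁻¹)
    rw [mul_inv_rev, mul_assoc, mul_inv_cancel_left]
    exact hel t ht
  · intro t ht
    have hent : ∀ i j, |((γ t : Matrix (Fin n) (Fin n) ℤ) i j : ℝ)| ≤ X ^ C := fun i j =>
      (hD t ht i).2 j
    have hn2 : ((n ^ 2 : ℕ) : ℝ) ≤ X ^ (n ^ 2) := natpow _ X hX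
    push_cast at hn2
    refine ⟨?_, ?_, ?_⟩
    · have h1 := norm_le_of_coord (rhoZ n (γ t * g) x) (B := C * w) (by positivity) (fun i => by
        rw [← hev]
        exact (hD t ht i).1)
      refine h1.trans ?_
      rw [← mul_assoc]
      refine mul_le_mul_of_nonneg_right ?_ hw
      rw [hK]
      push_cast
      have h2 : (0 : ℝ) ≤ (C : ℝ) + (n : ℝ) ^ 2 + ((n : ℝ) ^ 2 + (n.factorial : ℝ) + C * n) := by
        positivity
      linarith
    · show nrm (γ t * g * g⁻¹) ≤ X ^ K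
      rw [mul_inv_cancel_right]
      refine (nrm_of_entry (γ t) (by positivity) hent).trans ?_
      calc (n : ℝ) ^ 2 * X ^ C ≤ X ^ (n ^ 2) * X ^ C :=
            mul_le_mul_of_nonneg_right hn2 (by positivity)
        _ = X ^ (n ^ 2 + C) := (pow_add _ _ _).symm
        _ ≤ X ^ K := hmono _ _ (by omega)
    · show nrm (g * (γ t * g)⁻¹) ≤ X ^ K
      rw [mul_inv_rev, mul_inv_cancel_left]
      refine (nrm_inv_of_entry (γ t) hXC hent).trans ?_
      have h3 : (n.factorial : ℝ) ≤ X ^ n.factorial := natpow _ X hX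
      calc (n : ℝ) ^ 2 * (n.factorial * (X ^ C) ^ n)
          ≤ X ^ (n ^ 2) * (X ^ n.factorial * (X ^ C) ^ n) := by
            refine mul_le_mul hn2 ?_ (by positivity) (by positivity)
            exact mul_le_mul_of_nonneg_right h3 (by positivity)
        _ = X ^ (n ^ 2 + n.factorial + C * n) := by
            rw [← pow_mul, ← pow_add, ← pow_add]
            congr 1
            ring
        _ ≤ X ^ K := hmono _ _ (by omega)

private theorem elem_finite : {s : SLZ n | IsElem s}.Finite := by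
  have h1 : (Set.range fun p : Fin n × Fin n × Bool =>
      Matrix.transvection p.1 p.2.1 (if p.2.2 then (1 : ℤ) else -1)).Finite := Set.finite_range _
  refine Set.Finite.subset (h1.preimage (f := fun s : SLZ n => (s : Matrix (Fin n) (Fin n) ℤ))
    (Subtype.val_injective.injOn)) ?_
  rintro s ⟨i, j, _, c, hc, hs⟩
  rcases hc with rfl | rfl
  · exact ⟨(i, j, true), by simp [hs]⟩
  · exact ⟨(i, j, false), by simp [hs]⟩

theorem conn_B {k : ℕ} (Γ : Subgroup (SLZ (k + 1))) [Γ.FiniteIndex] :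
    ∃ (S : Finset (SLZ (k + 1))) (C : ℕ), (∀ s ∈ S, s ∈ Γ) ∧
      ∀ (X w : ℝ) (x : EE (k + 1)) (g g' : SLZ (k + 1)), g ∈ Γ → g' ∈ Γ → 2 ≤ X →
        ‖rhoZ _ g x‖ ≤ w → ‖rhoZ _ g' x‖ ≤ w → nrm (g' * g⁻¹) ≤ X →
        ∃ (m : ℕ) (γ : ℕ → SLZ (k + 1)), (m : ℝ) ≤ X ^ C ∧ γ 0 = g ∧ γ m = g' ∧
          (∀ t < m, γ (t + 1) * (γ t)⁻¹ ∈ S) ∧
          ∀ t ≤ m, γ t ∈ Γ ∧ ‖rhoZ _ (γ t) x‖ ≤ C * w ∧ nrm (γ t * g⁻¹) ≤ X ^ C ∧
            nrm (g * (γ t)⁻¹) ≤ X ^ C := by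
  classical
  obtain ⟨C, hC⟩ := conn_SL k
  haveI : Finite (SLZ (k + 1) ⧸ Γ) := Subgroup.finite_quotient_of_finiteIndex
  haveI : Fintype (SLZ (k + 1) ⧸ Γ) := Fintype.ofFinite _
  set rep : SLZ (k + 1) → SLZ (k + 1) := fun P =>
    if P ∈ Γ then 1 else Quotient.out (P : SLZ (k + 1) ⧸ Γ) with hrep
  set T : Finset (SLZ (k + 1)) := insert 1 (Finset.univ.image
    (fun q : SLZ (k + 1) ⧸ Γ => Quotient.out q)) with hT
  have hrepT : ∀ P, rep P ∈ T := by
    intro P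
    rw [hrep, hT]
    show (if P ∈ Γ then 1 else Quotient.out (P : SLZ (k + 1) ⧸ Γ)) ∈ _
    split_ifs
    · exact Finset.mem_insert_self _ _
    · exact Finset.mem_insert_of_mem (Finset.mem_image_of_mem _ (Finset.mem_univ _))
  have hrepΓ : ∀ P, (rep P)⁻¹ * P ∈ Γ := by
    intro P
    by_cases hP : P ∈ Γ
    · have h1 : rep P = 1 := if_pos hP
      rw [h1, inv_one, one_mul]
      exact hP
    · have h1 : rep P = Quotient.out (P : SLZ (k + 1) ⧸ Γ) := if_neg hP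
      rw [h1, ← QuotientGroup.eq]
      exact QuotientGroup.out_eq' _
  have hrep1 : ∀ P ∈ Γ, rep P = 1 := fun P hP => if_pos hP
  obtain ⟨M, hM⟩ : ∃ M : ℕ, ∀ t ∈ T, nrm t ≤ M ∧ nrm t⁻¹ ≤ M := by
    obtain ⟨M, hM⟩ := exists_nat_ge (∑ t ∈ T, (nrm t + nrm t⁻¹))
    refine ⟨M, fun t ht => ?_⟩
    have h1 : nrm t + nrm t⁻¹ ≤ ∑ t ∈ T, (nrm t + nrm t⁻¹) :=
      Finset.single_le_sum (f := fun t => nrm t + nrm t⁻¹)
        (fun t _ => add_nonneg (nrm_nonneg t) (nrm_nonneg _)) ht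
    have h2 := nrm_nonneg t
    have h3 := nrm_nonneg t⁻¹
    constructor <;> linarith
  set E : Finset (SLZ (k + 1)) := elem_finite.toFinset with hE
  set S : Finset (SLZ (k + 1)) := (((T ×ˢ (E ×ˢ T)).image
    (fun p => p.1⁻¹ * p.2.1 * p.2.2))).filter (fun s => s ∈ Γ) with hS
  refine ⟨S, C + M + M * C, fun s hs => (Finset.mem_filter.mp hs).2, ?_⟩
  intro X w x g g' hg hg' hX hgw hg'w hA
  have hX1 : (1 : ℝ) ≤ X := by linarith
  have hw : 0 ≤ w := (norm_nonneg _).trans hgw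
  have hmono : ∀ a b : ℕ, a ≤ b → X ^ a ≤ X ^ b := fun a b hab => pow_le_pow_right₀ hX1 hab
  have hMX : (M : ℝ) ≤ X ^ M := natpow M X hX
  obtain ⟨m, γ, hm, h0, hmm, hel, hb⟩ := hC X w x g g' hX hgw hg'w hA
  refine ⟨m, fun t => (rep (γ t))⁻¹ * γ t, hm.trans (hmono _ _ (by omega)), ?_, ?_, ?_, ?_⟩
  · show (rep (γ 0))⁻¹ * γ 0 = g
    rw [h0, hrep1 g hg, inv_one, one_mul]
  · show (rep (γ m))⁻¹ * γ m = g'
    rw [hmm, hrep1 g' hg', inv_one, one_mul]
  · intro t ht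
    show (rep (γ (t + 1)))⁻¹ * γ (t + 1) * ((rep (γ t))⁻¹ * γ t)⁻¹ ∈ S
    rw [hS, Finset.mem_filter]
    refine ⟨?_, Γ.mul_mem (hrepΓ _) (Γ.inv_mem (hrepΓ _))⟩
    rw [Finset.mem_image]
    refine ⟨(rep (γ (t + 1)), γ (t + 1) * (γ t)⁻¹, rep (γ t)), ?_, ?_⟩
    · rw [Finset.mem_product, Finset.mem_product]
      refine ⟨hrepT _, ?_, hrepT _⟩
      rw [hE, Set.Finite.mem_toFinset]
      exact hel t ht
    · show (rep (γ (t + 1)))⁻¹ * (γ (t + 1) * (γ t)⁻¹) * rep (γ t) = _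
      group
  · intro t ht
    obtain ⟨b1, b2, b3⟩ := hb t ht
    obtain ⟨hM1, hM2⟩ := hM (rep (γ t)) (hrepT _)
    have hM0 : (0 : ℝ) ≤ M := Nat.cast_nonneg M
    have hXC0 : (0 : ℝ) ≤ X ^ C := by positivity
    refine ⟨hrepΓ _, ?_, ?_, ?_⟩
    · show ‖rhoZ _ ((rep (γ t))⁻¹ * γ t) x‖ ≤ ((C + M + M * C : ℕ) : ℝ) * w
      rw [rho_mul]
      refine (le_nrm _ _).trans ?_
      calc nrm (rep (γ t))⁻¹ * ‖rhoZ _ (γ t) x‖ ≤ M * (C * w) :=
            mul_le_mul hM2 b1 (norm_nonneg _) hM0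
        _ ≤ ((C + M + M * C : ℕ) : ℝ) * w := by
            push_cast
            have h1 : (0 : ℝ) ≤ (C : ℝ) * w := by positivity
            have h2 : (0 : ℝ) ≤ (M : ℝ) * w := by positivity
            nlinarith
    · show nrm ((rep (γ t))⁻¹ * γ t * g⁻¹) ≤ X ^ (C + M + M * C)
      rw [mul_assoc]
      refine (nrm_mul _ _).trans ?_
      calc nrm (rep (γ t))⁻¹ * nrm (γ t * g⁻¹) ≤ X ^ M * X ^ C :=
            mul_le_mul (hM2.trans hMX) b2 (nrm_nonneg _) (by positivity)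
        _ = X ^ (M + C) := (pow_add _ _ _).symm
        _ ≤ X ^ (C + M + M * C) := hmono _ _ (by omega)
    · show nrm (g * ((rep (γ t))⁻¹ * γ t)⁻¹) ≤ X ^ (C + M + M * C)
      rw [mul_inv_rev, inv_inv, ← mul_assoc]
      refine (nrm_mul _ _).trans ?_
      calc nrm (g * (γ t)⁻¹) * nrm (rep (γ t)) ≤ X ^ C * X ^ M :=
            mul_le_mul b3 (hM1.trans hMX) (nrm_nonneg _) (by positivity)
        _ = X ^ (C + M) := (pow_add _ _ _).symm
        _ ≤ X ^ (C + M + M * C) := hmono _ _ (by omega)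

end LatLin.B
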