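import Pool.Agent.Lib.MP_2392aa_gt.B.GroupDefs

/-!
MODULE ContrB. Contraction by finite index subgroups of `SL_n(ℤ)`, `n = k + 1 ≥ 2`.

PROOF of `inf_or_rational`. Let `N(g) = ∑ i |(g x) i|`, `δ = inf N`. If `δ = 0`: first alternative
(`‖·‖ ≤ N`). If `δ > 0` choose `g` with `N(g) < (1 + 1/(2n)) δ`, `y = g x`, let `i` be an index with `|y i|`
maximal, so `|y i| ≥ δ / n`. If `y j ≠ 0` for some `j ≠ i`: adding an integer multiple of row `j` to row `i`
replaces `y i` by `y'` with `|y'| ≤ |y j| / 2 ≤ |y i| / 2`, so `N` drops by at least `δ / (2 n)`,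
contradiction. So `y = y i e_i`; with signed permutations of determinant one (`n ≥ 2`) `y` becomes
`c e_0` with `c = |y i| > 0`.

PROOF of `contract_B`. `T` finite with: for every `g ∈ SL` some `t ∈ T` with `t * g ∈ Γ` (right cosets,
finite index). `M = max ‖rhoZ t‖`. If `x` satisfies the first alternative choose
`ε = λ ‖x‖ / (M + 1)`. If `g x = c e_0`: `x = c • toE q`, `q = g⁻¹ e_0` is `Prim`, `c = ‖x‖ / ‖toE q‖`, so some
`t g ∈ Γ` has `‖t g x‖ ≤ M c < λ ‖x‖` as soon as `‖toE q‖ > M / λ`. `R = M / λ + 1`.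
-/

open scoped ContDiff Topology

namespace LatLin.B

/-- elementary matrices -/
private def tv {n : ℕ} (i j : Fin n) (h : i ≠ j) (c : ℤ) : SLZ n :=
  ⟨Matrix.transvection i j c, Matrix.det_transvection_of_ne i j h c⟩

private theorem rho_tv {n : ℕ} (i j : Fin n) (h : i ≠ j) (c : ℤ) (x : EE n) (l : Fin n) :
    rhoZ n (tv i j h c) x l = x l + if l = i then c * x j else 0 := by
  rw [rhoZ_apply]
  have : ∀ m, (((tv i j h c : SLZ n) : Matrix (Fin n) (Fin n) ℤ) l m : ℝ) * x m =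
      (if l = m then x m else 0) + if l = i ∧ j = m then c * x j else 0 := by
    intro m
    show ((Matrix.transvection i j c l m : ℤ) : ℝ) * x m = _
    rw [Matrix.transvection, Matrix.add_apply, Matrix.one_apply, Matrix.single_apply]
    by_cases h1 : l = m <;> by_cases h2 : i = l ∧ j = m
    · have h3 : l = i ∧ j = m := ⟨h2.1.symm, h2.2⟩
      rw [if_pos h1, if_pos h2, if_pos h1, if_pos h3, h2.2]
      push_cast
      ring
    · have h3 : ¬ (l = i ∧ j = m) := fun h => h2 ⟨h.1.symm, h.2⟩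
      rw [if_pos h1, if_neg h2, if_pos h1, if_neg h3]
      push_cast
      ring
    · have h3 : l = i ∧ j = m := ⟨h2.1.symm, h2.2⟩
      rw [if_neg h1, if_pos h2, if_neg h1, if_pos h3, h2.2]
      push_cast
      ring
    · have h3 : ¬ (l = i ∧ j = m) := fun h => h2 ⟨h.1.symm, h.2⟩
      rw [if_neg h1, if_neg h2, if_neg h1, if_neg h3]
      push_cast
      ring
  rw [Finset.sum_congr rfl fun m _ => this m, Finset.sum_add_distrib]
  congr 1
  · simp
  · by_cases h1 : l = i
    · simp [h1]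
    · simp [h1]

theorem toE_actZ {n : ℕ} (g : SLZ n) (q : Fin n → ℤ) : toE (actZ g q) = rhoZ n g (toE q) := by
  ext i
  rw [rhoZ_apply]
  simp [toE, actZ, Matrix.mulVec, dotProduct]

private theorem actZ_mul {n : ℕ} (g h : SLZ n) (q : Fin n → ℤ) :
    actZ (g * h) q = actZ g (actZ h q) := by
  simp [actZ, Matrix.mulVec_mulVec]

private theorem actZ_one {n : ℕ} (q : Fin n → ℤ) : actZ (1 : SLZ n) q = q := by
  simp [actZ]

/-- a signed unit vector can be moved to the first unit vector -/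
private theorem move_unit {k : ℕ} (hk : 1 ≤ k) (i : Fin (k + 1)) (s : ℝ) (hs : s = 1 ∨ s = -1) :
    ∃ g : SLZ (k + 1), ∀ y : EE (k + 1), (∀ l, l ≠ i → y l = 0) →
      rhoZ _ g y = (s * y i) • toE (Pi.single 0 1) := by
  have key : ∀ (i : Fin (k + 1)) (s : ℤ), i ≠ 0 → (s = 1 ∨ s = -1) → ∃ g : SLZ (k + 1),
      ∀ y : EE (k + 1), (∀ l, l ≠ i → y l = 0) → rhoZ _ g y = ((s : ℝ) * y i) • toE (Pi.single 0 1) := by
    intro i s hi hs
    refine ⟨tv i 0 hi (-s) * tv 0 i hi.symm s, fun y hy => ?_⟩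
    have hss : (s : ℝ) * s = 1 := by
      rcases hs with rfl | rfl <;> norm_num
    rw [map_mul]
    ext l
    show rhoZ _ (tv i 0 hi (-s)) (rhoZ _ (tv 0 i hi.symm s) y) l = _
    rw [rho_tv, rho_tv, rho_tv]
    by_cases h0 : l = 0
    · subst h0
      rw [if_pos rfl, if_neg hi.symm, hy 0 hi.symm]
      simp [toE]
    · by_cases hl : l = i
      · subst hl
        rw [if_neg h0, if_pos rfl, if_pos rfl, hy 0 hi.symm]
        have : (s : ℝ) * (s * y l) = y l := by rw [← mul_assoc, hss, one_mul]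
        simp [toE, h0]
        linarith
      · rw [if_neg h0, if_neg hl, hy l hl]
        simp [toE, h0]
  by_cases hi : i = 0
  · subst hi
    have h1 : (1 : Fin (k + 1)) ≠ 0 := by
      obtain ⟨k', rfl⟩ : ∃ k', k = k' + 1 := ⟨k - 1, by omega⟩
      exact Fin.zero_ne_one.symm
    obtain ⟨g, hg⟩ := key 1 1 h1 (Or.inl rfl)
    rcases hs with rfl | rfl
    · refine ⟨1, fun y hy => ?_⟩
      ext l
      rw [map_one]
      show y l = _
      by_cases h0 : l = 0
      · subst h0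
        simp [toE]
      · rw [hy l h0]
        simp [toE, h0]
    · refine ⟨g * (tv 0 1 h1.symm 1 * tv 1 0 h1 (-1)), fun y hy => ?_⟩
      have h2 : ∀ l, rhoZ _ (tv 0 1 h1.symm 1) (rhoZ _ (tv 1 0 h1 (-1)) y) l =
          if l = 1 then - y 0 else 0 := by
        intro l
        rw [rho_tv, rho_tv, rho_tv]
        by_cases h0 : l = 0
        · subst h0
          rw [if_neg h1.symm, if_pos rfl, if_pos rfl, if_neg h1.symm, hy 1 h1]
          push_cast
          ring
        · by_cases hl : l = 1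
          · subst hl
            rw [if_neg h0, if_pos rfl, if_pos rfl, hy 1 h1]
            push_cast
            ring
          · rw [if_neg h0, if_neg hl, if_neg hl, hy l h0]
            simp
      rw [map_mul, map_mul]
      show rhoZ _ g (rhoZ _ (tv 0 1 h1.symm 1) (rhoZ _ (tv 1 0 h1 (-1)) y)) = _
      rw [hg _ fun l hl => by rw [h2, if_neg hl], h2, if_pos rfl]
      push_cast
      rw [one_mul, neg_one_mul]
  · rcases hs with rfl | rfl
    · obtain ⟨g, hg⟩ := key i 1 hi (Or.inl rfl)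
      exact ⟨g, fun y hy => by simpa using hg y hy⟩
    · obtain ⟨g, hg⟩ := key i (-1) hi (Or.inr rfl)
      exact ⟨g, fun y hy => by simpa using hg y hy⟩

theorem inf_or_rational {k : ℕ} (hk : 1 ≤ k) (x : EE (k + 1)) (hx : x ≠ 0) :
    (∀ ε > 0, ∃ g : SLZ (k + 1), ‖rhoZ _ g x‖ < ε) ∨
      ∃ c > (0 : ℝ), ∃ g : SLZ (k + 1), rhoZ _ g x = c • toE (Pi.single 0 1) := by
  by_cases hε : ∀ ε > 0, ∃ g : SLZ (k + 1), ‖rhoZ _ g x‖ < ε
  · exact Or.inl hε
  right
  push Not at hε
  obtain ⟨ε, hε0, hε⟩ := hε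
  let N : SLZ (k + 1) → ℝ := fun g => ∑ i, |rhoZ _ g x i|
  have hle : ∀ y : EE (k + 1), ‖y‖ ≤ ∑ i, |y i| := by
    intro y
    have h1 : (0 : ℝ) ≤ ∑ i, |y i| := Finset.sum_nonneg fun i _ => abs_nonneg _
    rw [EuclideanSpace.norm_eq]
    refine (Real.sqrt_le_left h1).2 ?_
    calc ∑ i, ‖y i‖ ^ 2 ≤ ∑ i, |y i| * ∑ j, |y j| := by
          refine Finset.sum_le_sum fun i _ => ?_
          rw [Real.norm_eq_abs, pow_two]
          exact mul_le_mul_of_nonneg_left
            (Finset.single_le_sum (f := fun j => |y j|) (fun j _ => abs_nonneg _) (Finset.mem_univ i))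
            (abs_nonneg _)
      _ = (∑ i, |y i|) ^ 2 := by rw [← Finset.sum_mul, pow_two]
  have hN : ∀ g, ε ≤ N g := fun g => (hε g).trans (hle _)
  have hbdd : BddBelow (Set.range N) := ⟨ε, by rintro _ ⟨g, rfl⟩; exact hN g⟩
  obtain ⟨g, hg⟩ : ∃ g, N g < iInf N + ε / (2 * (k + 1)) :=
    exists_lt_of_ciInf_lt (lt_add_of_pos_right _ (by positivity))
  have hinf : ε ≤ iInf N := le_ciInf hN
  obtain ⟨i, -, hi⟩ := Finset.exists_max_image Finset.univ (fun i => |rhoZ _ g x i|)
    Finset.univ_nonempty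
  have hi' : ∀ j, |rhoZ _ g x j| ≤ |rhoZ _ g x i| := fun j => hi j (Finset.mem_univ j)
  have hsum : N g ≤ (k + 1) * |rhoZ _ g x i| := by
    calc N g ≤ ∑ _j : Fin (k + 1), |rhoZ _ g x i| := Finset.sum_le_sum fun j _ => hi' j
      _ = (k + 1) * |rhoZ _ g x i| := by
        rw [Finset.sum_const, Finset.card_univ, Fintype.card_fin, nsmul_eq_mul]
        push_cast
        ring
  have hbig : ε / (k + 1) ≤ |rhoZ _ g x i| := by
    rw [div_le_iff₀ (by positivity), mul_comm]
    exact (hN g).trans hsum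
  have hzero : ∀ j, j ≠ i → rhoZ _ g x j = 0 := by
    intro j hj
    by_contra hne
    set y := rhoZ _ g x with hy
    let m : ℤ := -round (y i / y j)
    have h1 : |y i + m * y j| ≤ |y j| / 2 := by
      have h2 : y i + m * y j = (y i / y j - round (y i / y j)) * y j := by
        have : y i / y j * y j = y i := div_mul_cancel₀ _ hne
        rw [sub_mul, this]
        simp only [m]
        push_cast
        ring
      rw [h2, abs_mul]
      have h3 := abs_sub_round (y i / y j)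
      have h4 := abs_nonneg (y j)
      nlinarith
    have h2 : N (tv i j hj.symm m * g) = N g - |y i| + |y i + m * y j| := by
      simp only [N]
      rw [map_mul]
      have h3 : ∀ l, |(rhoZ (k + 1) (tv i j hj.symm m) * rhoZ (k + 1) g) x l| =
          |y l| + if l = i then |y i + m * y j| - |y i| else 0 := by
        intro l
        show |rhoZ _ (tv i j hj.symm m) (rhoZ _ g x) l| = _
        rw [rho_tv, ← hy]
        by_cases hl : l = i
        · subst hl
          rw [if_pos rfl, if_pos rfl]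
          ring
        · rw [if_neg hl, if_neg hl, add_zero, add_zero]
      rw [Finset.sum_congr rfl fun l _ => h3 l, Finset.sum_add_distrib, Finset.sum_ite_eq']
      simp
      ring
    have h3 : iInf N ≤ N (tv i j hj.symm m * g) := ciInf_le hbdd _
    have h4 := hi' j
    have h5 : ε / (2 * (k + 1)) = ε / (k + 1) / 2 := by
      field_simp
    rw [h5] at hg
    linarith
  have hne : rhoZ _ g x i ≠ 0 := by
    intro h
    rw [h, abs_zero] at hbig
    have : 0 < ε / (k + 1) := by positivity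
    linarith
  obtain ⟨s, hs, hs'⟩ : ∃ s : ℝ, (s = 1 ∨ s = -1) ∧ 0 < s * rhoZ _ g x i := by
    rcases lt_or_gt_of_ne hne with h | h
    · exact ⟨-1, Or.inr rfl, by linarith⟩
    · exact ⟨1, Or.inl rfl, by linarith⟩
  obtain ⟨h, hh⟩ := move_unit hk i s hs
  refine ⟨_, hs', h * g, ?_⟩
  rw [map_mul]
  exact hh _ hzero

theorem finite_short {n : ℕ} (R : ℝ) : {q : Fin n → ℤ | ‖toE q‖ < R}.Finite := by
  refine (Set.finite_Icc (fun _ : Fin n => -⌈R⌉) (fun _ => ⌈R⌉)).subset ?_
  intro q hq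
  have h1 : ∀ i, |(q i : ℝ)| ≤ R := by
    intro i
    have h2 := PiLp.norm_apply_le (toE q) i
    exact h2.trans (le_of_lt hq)
  constructor
  · intro i
    have h3 := (abs_le.1 (h1 i)).1
    have h4 : (-(q i) : ℤ) ≤ ⌈R⌉ := by
      rw [← Int.cast_le (R := ℝ)]
      push_cast
      exact (by linarith : -(q i : ℝ) ≤ R).trans (Int.le_ceil _)
    show -⌈R⌉ ≤ q i
    linarith
  · intro i
    have h3 := (abs_le.1 (h1 i)).2
    rw [← Int.cast_le (R := ℝ)]
    exact h3.trans (Int.le_ceil _)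

theorem contract_B {k : ℕ} (hk : 1 ≤ k) (Γ : Subgroup (SLZ (k + 1))) [Γ.FiniteIndex] (lam : ℝ)
    (hlam : 0 < lam) : ∃ R0 > 0, ∀ R ≥ R0, ∀ x : EE (k + 1), x ≠ 0 →
      (∃ γ ∈ Γ, ‖rhoZ _ γ x‖ < lam * ‖x‖) ∨
        ∃ q : Fin (k + 1) → ℤ, Prim q ∧ ‖toE q‖ < R ∧ ∃ c > (0 : ℝ), x = c • toE q := by
  have hfin : Finite (SLZ (k + 1) ⧸ Γ) := inferInstance
  let τ : SLZ (k + 1) ⧸ Γ → SLZ (k + 1) := fun q => (Quotient.out q)⁻¹
  have hτ : ∀ g : SLZ (k + 1), τ g * g ∈ Γ := by
    intro g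
    rw [← QuotientGroup.eq]
    exact Quotient.out_eq _
  obtain ⟨M, hM⟩ := (Set.finite_range fun q : SLZ (k + 1) ⧸ Γ =>
    ‖((rhoZ _ (τ q) : EE (k + 1) ≃L[ℝ] EE (k + 1)) : EE (k + 1) →L[ℝ] EE (k + 1))‖).bddAbove
  have hM' : ∀ (g : SLZ (k + 1)) (x : EE (k + 1)),
      ‖rhoZ _ (τ g * g) x‖ ≤ max M 0 * ‖rhoZ _ g x‖ := by
    intro g x
    rw [map_mul]
    refine (((rhoZ _ (τ g) : EE (k + 1) ≃L[ℝ] EE (k + 1)) :
      EE (k + 1) →L[ℝ] EE (k + 1)).le_opNorm (rhoZ _ g x)).trans ?_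
    exact mul_le_mul_of_nonneg_right ((hM ⟨_, rfl⟩).trans (le_max_left _ _)) (norm_nonneg _)
  have hM0 : 0 ≤ max M 0 := le_max_right _ _
  generalize max M 0 = L at hM' hM0
  refine ⟨L / lam + 1, by positivity, fun R hR x hx => ?_⟩
  have hxn : 0 < ‖x‖ := norm_pos_iff.2 hx
  rcases inf_or_rational hk x hx with h | ⟨c, hc, g, hg⟩
  · left
    obtain ⟨g, hg⟩ := h (lam * ‖x‖ / (L + 1)) (by positivity)
    refine ⟨τ g * g, hτ g, (hM' g x).trans_lt ?_⟩
    rw [lt_div_iff₀ (by positivity)] at hg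
    nlinarith [norm_nonneg (rhoZ _ g x)]
  · have hgx : x = c • toE (actZ g⁻¹ (Pi.single 0 1)) := by
      rw [toE_actZ, ← map_smul, ← hg]
      show x = (rhoZ _ g⁻¹ * rhoZ _ g) x
      rw [← map_mul, inv_mul_cancel, map_one]
      rfl
    by_cases hR' : ‖toE (actZ g⁻¹ (Pi.single 0 1))‖ < R
    · right
      refine ⟨_, ⟨g, ?_⟩, hR', c, hc, hgx⟩
      rw [← actZ_mul, mul_inv_cancel, actZ_one]
    · left
      refine ⟨τ g * g, hτ g, (hM' g x).trans_lt ?_⟩
      have h1 : ‖rhoZ _ g x‖ = c := by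
        rw [hg, norm_smul, Real.norm_eq_abs, abs_of_pos hc]
        have : (toE (Pi.single 0 1 : Fin (k + 1) → ℤ)) = EuclideanSpace.single 0 (1 : ℝ) := by
          ext i
          by_cases hi : i = 0
          · subst hi
            simp [toE]
          · simp [toE, hi]
        rw [this]
        simp
      have h2 : ‖x‖ = c * ‖toE (actZ g⁻¹ (Pi.single 0 1))‖ := by
        conv_lhs => rw [hgx]
        rw [norm_smul, Real.norm_eq_abs, abs_of_pos hc]
      rw [h1, h2]
      have h3 := (hR.le.trans (not_lt.1 hR') : L / lam + 1 ≤ _)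
      calc L * c < lam * (c * (L / lam + 1)) := by
            have : lam * (c * (L / lam + 1)) = L * c + lam * c := by
              field_simp
            rw [this]
            have : 0 < lam * c := by positivity
            linarith
        _ ≤ _ := by
            refine mul_le_mul_of_nonneg_left (mul_le_mul_of_nonneg_left h3 hc.le) hlam.le

theorem Prim.act {k : ℕ} {q : Fin (k + 1) → ℤ} (hq : Prim q) (g : SLZ (k + 1)) :
    Prim (actZ g q) := by
  obtain ⟨h, hh⟩ := hq
  refine ⟨h * g⁻¹, ?_⟩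
  rw [← actZ_mul, mul_assoc, inv_mul_cancel, mul_one, hh]

/-- distinct primitive vectors are not positive multiples of each other (a primitive vector has
coprime coordinates) -/
theorem Prim.eq_of_smul {k : ℕ} {q q' : Fin (k + 1) → ℤ} (hq : Prim q) (hq' : Prim q') (c : ℝ)
    (hc : 0 < c) (h : toE q = c • toE q') : q = q' := by
  have hi : ∀ i, (q i : ℝ) = c * q' i := by
    intro i
    have := congrArg (fun v : EE (k + 1) => v i) h
    simpa [toE] using this
  obtain ⟨g, hg⟩ := hq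
  obtain ⟨g', hg'⟩ := hq'
  have h1 : ∑ j, (g : Matrix (Fin (k + 1)) (Fin (k + 1)) ℤ) 0 j * q j = 1 := by
    have := congrFun hg 0
    simpa [actZ, Matrix.mulVec, dotProduct] using this
  have h2 : ∑ j, (g' : Matrix (Fin (k + 1)) (Fin (k + 1)) ℤ) 0 j * q' j = 1 := by
    have := congrFun hg' 0
    simpa [actZ, Matrix.mulVec, dotProduct] using this
  have h3 : c * ((∑ j, (g : Matrix (Fin (k + 1)) (Fin (k + 1)) ℤ) 0 j * q' j : ℤ) : ℝ) = 1 := by
    have h4 : ((∑ j, (g : Matrix (Fin (k + 1)) (Fin (k + 1)) ℤ) 0 j * q j : ℤ) : ℝ) = 1 := by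
      rw [h1]; norm_num
    rw [← h4]
    push_cast
    rw [Finset.mul_sum]
    refine Finset.sum_congr rfl fun j _ => ?_
    rw [hi j]
    ring
  have h4 : ((∑ j, (g' : Matrix (Fin (k + 1)) (Fin (k + 1)) ℤ) 0 j * q j : ℤ) : ℝ) = c := by
    have h5 : ((∑ j, (g' : Matrix (Fin (k + 1)) (Fin (k + 1)) ℤ) 0 j * q' j : ℤ) : ℝ) = 1 := by
      rw [h2]; norm_num
    rw [← mul_one c, ← h5]
    push_cast
    rw [Finset.mul_sum]
    refine Finset.sum_congr rfl fun j _ => ?_
    rw [hi j]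
    ring
  generalize (∑ j, (g : Matrix (Fin (k + 1)) (Fin (k + 1)) ℤ) 0 j * q' j : ℤ) = a at h3
  generalize (∑ j, (g' : Matrix (Fin (k + 1)) (Fin (k + 1)) ℤ) 0 j * q j : ℤ) = b at h4
  rw [← h4] at h3 hc hi
  have h5 : b * a = 1 := by exact_mod_cast h3
  have h6 : 0 < b := by exact_mod_cast hc
  have h7 : b = 1 := by
    rcases Int.eq_one_or_neg_one_of_mul_eq_one h5 with h | h
    · exact h
    · omega
  funext i
  have h8 := hi i
  rw [h7] at h8
  push_cast at h8
  rw [one_mul] at h8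
  exact_mod_cast h8

end LatLin.B
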