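import Pool.Agent.Lib.MP_2392aa_gt.B.VanRay

/-!
MODULE RayPol. Families of homogeneous polynomials as leading terms along the ray.

* `fn_smooth`, `fn_van`: `P.fn x = ∑ over monomials a of degree m of coeff a (P.c x.1) * ∏ x.2 j ^ a j`
  (finite set of monomials of degree `m` in `k` variables; `MvPolynomial.eval_eq'`, the support is
  contained in that finite set by homogeneity).
* `fn_uniq`: fix `s ∈ (0, r)` and `y`: `P.fn (s, t y) = t^m P.fn (s, y)`, and `= O(t^(m+1))` by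
  `Van.bigO`, so `P.fn (s, y) = 0` for all `y`; `MvPolynomial.funext`. For `s = 0` use continuity
  of the coefficients.
* `leading`: `P.c s = ∑ ι : Fin m → Fin k, (1/m!) (D^m f (s,0)) (e_ι) * ∏ X (ι t)` with
  `e_ι t = (0, Pi.single (ι t) 1)`. Its value at `y` is `(1/m!) D^m f (s,0) [(0,y),…,(0,y)]`. Taylor
  formula of order `m` at `(s,0)` in the direction `(0,y)` gives `|f(s,y) - P.fn (s,y)| ≤ C ‖y‖^(m+1)`
  near every point of the segment; then `vanR_of_bound` with `m + 1` (the difference is flat at `0`: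
  the coefficients are flat at `0` since `f` is, and `C^∞` functions of `s` flat at `0` times polynomials
  are flat at the origin).
* `der`: coefficientwise derivative; `ds P.fn = P.der.fn`.
* `flatfn`: if all coefficients are flat at `0` then `P.fn` is flat at `0`.
* `algR3`: `X l * P i j = X i * P l j`, `k ≥ 2`: choose `l ≠ i`, `X i` is prime and does not divide `X l`, so
  `P i j = X i * S i j`, `S i j = S l j =: S j`; symmetry `X i * S j = X j * S i` gives `X j ∣ S j`,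
  `S j = X j * H j`, `H j = H i`. `H` homogeneous of degree `m - 2`; `P i j = X i * X j * H`.
  The coefficients of `H` are those of `P 0 1`: `coeff a H = coeff (a + e_0 + e_1) (P 0 1)`.
-/

open scoped ContDiff Topology

namespace LatLin.B

variable {k m : ℕ}

private theorem fn_eq (P : PolFam k m) (x : E0 k) :
    P.fn x = ∑ a ∈ Finset.finsuppAntidiag (Finset.univ : Finset (Fin k)) m,
      MvPolynomial.coeff a (P.c x.1) * ∏ i, x.2 i ^ a i := by
  unfold PolFam.fn
  rw [MvPolynomial.eval_eq']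
  refine Finset.sum_subset ?_ ?_
  · intro a ha
    rw [Finset.mem_finsuppAntidiag]
    refine ⟨?_, Finset.subset_univ _⟩
    have h1 := (P.hom x.1) (MvPolynomial.mem_support_iff.mp ha)
    rw [← h1, Finsupp.weight_apply, Finsupp.sum_fintype _ _ (by simp)]
    simp
  · intro a _ ha
    rw [MvPolynomial.notMem_support_iff.mp ha, zero_mul]

theorem PolFam.fn_smooth (P : PolFam k m) : ContDiff ℝ ∞ P.fn := by
  have h : P.fn = fun x : E0 k => ∑ a ∈ Finset.finsuppAntidiag (Finset.univ : Finset (Fin k)) m,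
      MvPolynomial.coeff a (P.c x.1) * ∏ i, x.2 i ^ a i := funext (fn_eq P)
  rw [h]
  refine ContDiff.sum fun a _ => ContDiff.mul ((P.smooth a).comp contDiff_fst) ?_
  refine contDiff_prod fun i _ => ContDiff.pow ?_ _
  exact (contDiff_apply ℝ ℝ i).comp contDiff_snd

private theorem mono_bound (a : Fin k →₀ ℕ)
    (ha : a ∈ Finset.finsuppAntidiag (Finset.univ : Finset (Fin k)) m) (y : Fin k → ℝ) :
    |∏ i, y i ^ a i| ≤ ‖y‖ ^ m := by
  rw [Finset.abs_prod]
  rw [Finset.mem_finsuppAntidiag] at ha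
  calc ∏ i, |y i ^ a i| ≤ ∏ i, ‖y‖ ^ a i := by
        refine Finset.prod_le_prod (fun i _ => abs_nonneg _) fun i _ => ?_
        rw [abs_pow]
        exact pow_le_pow_left₀ (abs_nonneg _) (norm_le_pi_norm y i) _
    _ = ‖y‖ ^ m := by rw [Finset.prod_pow_eq_pow_sum, ha.1]

theorem PolFam.fn_van (P : PolFam k m) (s : ℝ) : Van m P.fn ((s, 0) : E0 k) := by
  refine van_of_bigO P.fn_smooth
    (∑ a ∈ Finset.finsuppAntidiag (Finset.univ : Finset (Fin k)) m,
      (|MvPolynomial.coeff a (P.c s)| + 1)) ?_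
  have h1 : ∀ᶠ z : E0 k in 𝓝 ((s, 0) : E0 k),
      ∀ a ∈ Finset.finsuppAntidiag (Finset.univ : Finset (Fin k)) m,
      |MvPolynomial.coeff a (P.c z.1)| < |MvPolynomial.coeff a (P.c s)| + 1 := by
    rw [Filter.eventually_all_finset]
    intro a _
    have hc : Continuous fun z : E0 k => |MvPolynomial.coeff a (P.c z.1)| :=
      ((P.smooth a).continuous.comp continuous_fst).abs
    exact hc.continuousAt.eventually_lt continuousAt_const (lt_add_one _)
  filter_upwards [h1] with z hz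
  rw [fn_eq, Real.norm_eq_abs, Finset.sum_mul]
  refine (Finset.abs_sum_le_sum_abs _ _).trans (Finset.sum_le_sum fun a ha => ?_)
  rw [abs_mul]
  refine mul_le_mul (hz a ha).le ?_ (abs_nonneg _) (by positivity)
  refine (mono_bound a ha z.2).trans (pow_le_pow_left₀ (norm_nonneg _) ?_ _)
  have h2 : z.2 = (z - ((s, 0) : E0 k)).2 := by simp
  rw [h2]
  exact norm_snd_le _

private theorem fn_scale (P : PolFam k m) (s t : ℝ) (y : Fin k → ℝ) :
    P.fn ((s, t • y) : E0 k) = t ^ m * P.fn ((s, y) : E0 k) := by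
  rw [fn_eq, fn_eq, Finset.mul_sum]
  refine Finset.sum_congr rfl fun a ha => ?_
  rw [Finset.mem_finsuppAntidiag] at ha
  have h1 : ∏ i, (t • y) i ^ a i = t ^ m * ∏ i, y i ^ a i := by
    simp only [Pi.smul_apply, smul_eq_mul, mul_pow]
    rw [Finset.prod_mul_distrib, Finset.prod_pow_eq_pow_sum, ha.1]
  show MvPolynomial.coeff a (P.c s) * ∏ i, (t • y) i ^ a i =
    t ^ m * (MvPolynomial.coeff a (P.c s) * ∏ i, y i ^ a i)
  rw [h1]
  ring

theorem PolFam.fn_uniq (P : PolFam k m) {r : ℝ} (hr : 0 < r) (h : VanR (m + 1) r P.fn) :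
    ∀ s : ℝ, 0 ≤ s → s < r → P.c s = 0 := by
  intro s hs hsr
  obtain ⟨C, hC⟩ := (h s hs hsr).bigO P.fn_smooth
  apply MvPolynomial.funext
  intro y
  rw [map_zero]
  show P.fn ((s, y) : E0 k) = 0
  have h1 : Filter.Tendsto (fun t : ℝ => ((s, t • y) : E0 k)) (𝓝[>] 0) (𝓝 ((s, 0) : E0 k)) := by
    have h2 : Continuous fun t : ℝ => ((s, t • y) : E0 k) := by fun_prop
    have h3 := h2.tendsto 0
    rw [zero_smul] at h3
    exact h3.mono_left nhdsWithin_le_nhds
  have h2 := h1.eventually hC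
  have h3 : ∀ᶠ t : ℝ in 𝓝[>] 0, |P.fn ((s, y) : E0 k)| ≤ C * ‖y‖ ^ (m + 1) * t := by
    filter_upwards [h2, self_mem_nhdsWithin] with t ht ht0
    have ht0' : (0 : ℝ) < t := ht0
    rw [fn_scale, norm_mul, Real.norm_eq_abs, Real.norm_eq_abs, abs_pow, abs_of_pos ht0'] at ht
    have h4 : ‖((s, t • y) : E0 k) - ((s, 0) : E0 k)‖ = t * ‖y‖ := by
      rw [Prod.mk_sub_mk, sub_self, sub_zero, Prod.norm_def, norm_zero, norm_smul, Real.norm_eq_abs,
        abs_of_pos ht0']
      exact max_eq_right (by positivity)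
    rw [h4, mul_pow] at ht
    have h5 : t ^ m * |P.fn ((s, y) : E0 k)| ≤ t ^ m * (C * ‖y‖ ^ (m + 1) * t) := by
      calc t ^ m * |P.fn ((s, y) : E0 k)| ≤ C * (t ^ (m + 1) * ‖y‖ ^ (m + 1)) := ht
        _ = t ^ m * (C * ‖y‖ ^ (m + 1) * t) := by ring
    exact le_of_mul_le_mul_left h5 (by positivity)
  have h4 : Filter.Tendsto (fun t : ℝ => C * ‖y‖ ^ (m + 1) * t) (𝓝[>] 0) (𝓝 0) := by
    have h5 : Continuous fun t : ℝ => C * ‖y‖ ^ (m + 1) * t := by fun_prop
    have h6 := h5.tendsto 0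
    rw [mul_zero] at h6
    exact h6.mono_left nhdsWithin_le_nhds
  have h5 : |P.fn ((s, y) : E0 k)| ≤ 0 := ge_of_tendsto h4 h3
  exact abs_eq_zero.mp (le_antisymm h5 (abs_nonneg _))

theorem PolFam.flatfn (P : PolFam k m)
    (h : ∀ a, FlatAt (fun s : ℝ => MvPolynomial.coeff a (P.c s)) 0) : FlatAt P.fn 0 := by
  have h0 : P.fn = fun x : E0 k => ∑ a ∈ Finset.finsuppAntidiag (Finset.univ : Finset (Fin k)) m,
      MvPolynomial.coeff a (P.c x.1) * ∏ i, x.2 i ^ a i := funext (fn_eq P)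
  rw [h0, flatAt_iff]
  intro n
  have hs2 : ∀ a : Fin k →₀ ℕ, ContDiff ℝ ∞ fun x : E0 k => ∏ i, x.2 i ^ a i := fun a =>
    contDiff_prod fun i _ => ContDiff.pow ((contDiff_apply ℝ ℝ i).comp contDiff_snd) _
  have hs1 : ∀ a : Fin k →₀ ℕ, ContDiff ℝ ∞ fun x : E0 k => MvPolynomial.coeff a (P.c x.1) :=
    fun a => (P.smooth a).comp contDiff_fst
  refine Van.sum _ (fun a _ => (hs1 a).mul (hs2 a)) fun a _ => ?_
  have h1 : Van n (fun x : E0 k => MvPolynomial.coeff a (P.c x.1)) (0 : E0 k) :=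
    Van.comp (g := fun x : E0 k => x.1) (P.smooth a) contDiff_fst (flatAt_iff.mp (h a) n)
  have h2 : Van 0 (fun x : E0 k => ∏ i, x.2 i ^ a i) (0 : E0 k) := fun j hj =>
    absurd hj (Nat.not_lt_zero j)
  exact Van.mul (hs1 a) (hs2 a) h1 h2

private theorem iter_smooth {f : E0 k → ℝ} (hf : ContDiff ℝ ∞ f) (m : ℕ) (v : Fin m → E0 k) :
    ContDiff ℝ ∞ (fun z => iteratedFDeriv ℝ m f z v) := by
  have h1 : ContDiff ℝ ∞ (iteratedFDeriv ℝ m f) := hf.iteratedFDeriv_right le_rfl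
  have h3 : ContDiff ℝ ∞ fun z : E0 k =>
      (ContinuousMultilinearMap.apply ℝ (fun _ : Fin m => E0 k) ℝ v) (iteratedFDeriv ℝ m f z) :=
    (ContinuousLinearMap.contDiff _).comp h1
  exact h3

private theorem van_iter {f : E0 k → ℝ} (hf : ContDiff ℝ ∞ f) {x : E0 k} (m : ℕ) :
    ∀ (n : ℕ) (v : Fin m → E0 k), Van (n + m) f x →
      Van n (fun z => iteratedFDeriv ℝ m f z v) x := by
  induction m with
  | zero =>
    intro n v h
    have h1 : (fun z => iteratedFDeriv ℝ 0 f z v) = f := by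
      funext z
      rw [iteratedFDeriv_zero_apply]
    rw [h1]
    exact h
  | succ m ih =>
    intro n v h
    have h1 := ih (n + 1) (Fin.tail v) (by
      rw [show n + 1 + m = n + (m + 1) by ring]
      exact h)
    have h3 := Van.dir (iter_smooth hf m (Fin.tail v)) h1 (v 0)
    have h4 : (fun z => iteratedFDeriv ℝ (m + 1) f z v) =
        fun z => fderiv ℝ (fun y => iteratedFDeriv ℝ m f y (Fin.tail v)) z (v 0) := by
      funext z
      refine DifferentiableAt.iteratedFDeriv_succ_apply_left' ?_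
      have h5 : ContDiff ℝ ∞ (iteratedFDeriv ℝ m f) := hf.iteratedFDeriv_right le_rfl
      exact h5.differentiable (by simp) z
    rw [h4]
    exact h3

/-- the test vectors -/
private def ev (ι : Fin m → Fin k) : Fin m → E0 k := fun t => ((0, Pi.single (ι t) 1) : E0 k)

private noncomputable def ldc (f : E0 k → ℝ) (m : ℕ) (ι : Fin m → Fin k) (s : ℝ) : ℝ :=
  ((m.factorial : ℝ))⁻¹ * iteratedFDeriv ℝ m f ((s, 0) : E0 k) (ev ι)

private theorem ldc_smooth {f : E0 k → ℝ} (hf : ContDiff ℝ ∞ f) (m : ℕ) (ι : Fin m → Fin k) :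
    ContDiff ℝ ∞ (ldc f m ι) := by
  have h2 : ContDiff ℝ ∞ fun s : ℝ => ((s, 0) : E0 k) := contDiff_id.prodMk contDiff_const
  exact contDiff_const.mul ((iter_smooth hf m (ev ι)).comp h2)

private theorem ldc_flat {f : E0 k → ℝ} (hf : ContDiff ℝ ∞ f) (hf0 : FlatAt f 0) (m : ℕ)
    (ι : Fin m → Fin k) : FlatAt (ldc f m ι) 0 := by
  rw [flatAt_iff] at hf0 ⊢
  intro n
  have h2 : ContDiff ℝ ∞ fun s : ℝ => ((s, 0) : E0 k) := contDiff_id.prodMk contDiff_const
  have h3 : Van n (fun z => iteratedFDeriv ℝ m f z (ev ι)) ((0, 0) : E0 k) :=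
    van_iter hf m n (ev ι) (hf0 (n + m))
  have h4 : Van n (fun s : ℝ => iteratedFDeriv ℝ m f ((s, 0) : E0 k) (ev ι)) 0 :=
    Van.comp (f := fun z => iteratedFDeriv ℝ m f z (ev ι)) (g := fun s : ℝ => ((s, 0) : E0 k))
      (iter_smooth hf m (ev ι)) h2 h3
  have h8 := Van.mul (a := 0) (b := n) (f := fun _ : ℝ => ((m.factorial : ℝ))⁻¹)
      (g := fun s : ℝ => iteratedFDeriv ℝ m f ((s, 0) : E0 k) (ev ι)) (x := 0)
      contDiff_const ((iter_smooth hf m (ev ι)).comp h2)
      (fun j hj => absurd hj (Nat.not_lt_zero j)) h4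
  rw [zero_add] at h8
  exact h8

private noncomputable def leadFam {f : E0 k → ℝ} (hf : ContDiff ℝ ∞ f) (m : ℕ) : PolFam k m where
  c := fun s => ∑ ι : Fin m → Fin k, MvPolynomial.C (ldc f m ι s) * ∏ t, MvPolynomial.X (ι t)
  hom := fun s => by
    refine MvPolynomial.IsHomogeneous.sum _ _ _ fun ι _ => ?_
    have h1 : (∏ t, MvPolynomial.X (ι t) : MvPolynomial (Fin k) ℝ).IsHomogeneous
        (∑ _t : Fin m, 1) :=
      MvPolynomial.IsHomogeneous.prod _ _ _ fun t _ => MvPolynomial.isHomogeneous_X ℝ (ι t)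
    have h2 := (MvPolynomial.isHomogeneous_C (Fin k) (ldc f m ι s)).mul h1
    simpa using h2
  smooth := fun a => by
    have h1 : (fun s => MvPolynomial.coeff a (∑ ι : Fin m → Fin k,
        MvPolynomial.C (ldc f m ι s) * ∏ t, MvPolynomial.X (ι t))) = fun s =>
        ∑ ι : Fin m → Fin k, ldc f m ι s *
          MvPolynomial.coeff a (∏ t, MvPolynomial.X (ι t) : MvPolynomial (Fin k) ℝ) := by
      funext s
      rw [MvPolynomial.coeff_sum]
      exact Finset.sum_congr rfl fun ι _ => MvPolynomial.coeff_C_mul _ _ _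
    rw [h1]
    exact ContDiff.sum fun ι _ => (ldc_smooth hf m ι).mul contDiff_const

private theorem lead_coeff {f : E0 k → ℝ} (hf : ContDiff ℝ ∞ f) (m : ℕ) (a : Fin k →₀ ℕ) :
    (fun s => MvPolynomial.coeff a ((leadFam hf m).c s)) = fun s =>
        ∑ ι : Fin m → Fin k, ldc f m ι s *
          MvPolynomial.coeff a (∏ t, MvPolynomial.X (ι t) : MvPolynomial (Fin k) ℝ) := by
  funext s
  show MvPolynomial.coeff a (∑ ι : Fin m → Fin k,
        MvPolynomial.C (ldc f m ι s) * ∏ t, MvPolynomial.X (ι t)) = _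
  rw [MvPolynomial.coeff_sum]
  exact Finset.sum_congr rfl fun ι _ => MvPolynomial.coeff_C_mul _ _ _

private theorem lead_eval {f : E0 k → ℝ} (hf : ContDiff ℝ ∞ f) (m : ℕ) (s : ℝ) (y : Fin k → ℝ) :
    (leadFam hf m).fn ((s, y) : E0 k) =
      ((m.factorial : ℝ))⁻¹ * iteratedFDeriv ℝ m f ((s, 0) : E0 k) (fun _ => ((0, y) : E0 k)) := by
  show MvPolynomial.eval y (∑ ι : Fin m → Fin k,
        MvPolynomial.C (ldc f m ι s) * ∏ t, MvPolynomial.X (ι t)) = _
  have h1 : ((0, y) : E0 k) = ∑ j : Fin k, y j • ((0, Pi.single j 1) : E0 k) := by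
    have h2 : ∀ j : Fin k, y j • ((0, Pi.single j 1) : E0 k) = ((0, Pi.single j (y j)) : E0 k) := by
      intro j
      rw [Prod.smul_mk, smul_zero]
      congr 1
      rw [← Pi.single_smul, smul_eq_mul, mul_one]
    simp only [h2]
    rw [Prod.ext_iff]
    constructor
    · rw [Prod.fst_sum]
      simp
    · rw [Prod.snd_sum]
      funext i
      rw [Finset.sum_apply]
      simp [Pi.single_apply]
  rw [h1, ContinuousMultilinearMap.map_sum, map_sum, Finset.mul_sum]
  refine Finset.sum_congr rfl fun ι _ => ?_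
  rw [ContinuousMultilinearMap.map_smul_univ, map_mul, MvPolynomial.eval_C, map_prod]
  simp only [MvPolynomial.eval_X, smul_eq_mul]
  unfold ldc ev
  ring

theorem leading {r : ℝ} {f : E0 k → ℝ} (hf : ContDiff ℝ ∞ f) (hf0 : FlatAt f 0)
    (h : VanR m r f) : ∃ P : PolFam k m,
      (∀ a, FlatAt (fun s : ℝ => MvPolynomial.coeff a (P.c s)) 0) ∧
      VanR (m + 1) r (fun x => f x - P.fn x) := by
  have hflat : ∀ a, FlatAt (fun s : ℝ => MvPolynomial.coeff a ((leadFam hf m).c s)) 0 := by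
    intro a
    rw [lead_coeff, flatAt_iff]
    intro n
    refine Van.sum _ (fun ι _ => (ldc_smooth hf m ι).mul contDiff_const) fun ι _ => ?_
    exact Van.mul (ldc_smooth hf m ι) contDiff_const (flatAt_iff.mp (ldc_flat hf hf0 m ι) n)
      (fun j hj => absurd hj (Nat.not_lt_zero j))
  refine ⟨leadFam hf m, hflat, ?_⟩
  refine vanR_of_bound (hf.sub (leadFam hf m).fn_smooth) ?_ ?_
  · rw [flatAt_iff]
    intro n
    exact Van.sub hf (leadFam hf m).fn_smooth (flatAt_iff.mp hf0 n)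
      (flatAt_iff.mp ((leadFam hf m).flatfn hflat) n)
  intro s0 hs0 hs0r
  have hD : Continuous (iteratedFDeriv ℝ (m + 1) f) :=
    hf.continuous_iteratedFDeriv (by exact_mod_cast le_top)
  have hev : ∀ᶠ z : E0 k in 𝓝 ((s0, 0) : E0 k), ‖iteratedFDeriv ℝ (m + 1) f z‖ <
      ‖iteratedFDeriv ℝ (m + 1) f ((s0, 0) : E0 k)‖ + 1 :=
    hD.norm.continuousAt.eventually_lt continuousAt_const (lt_add_one _)
  obtain ⟨δ₁, hδ₁, hball⟩ := Metric.eventually_nhds_iff.mp hev
  set M := ‖iteratedFDeriv ℝ (m + 1) f ((s0, 0) : E0 k)‖ + 1 with hM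
  refine ⟨((m.factorial : ℝ))⁻¹ * M, min δ₁ (min s0 (r - s0)),
    lt_min hδ₁ (lt_min hs0 (by linarith)), fun s hs y hy => ?_⟩
  have hs1 : |s - s0| < δ₁ := lt_of_lt_of_le hs (min_le_left _ _)
  have hs2 : |s - s0| < s0 := lt_of_lt_of_le hs ((min_le_right _ _).trans (min_le_left _ _))
  have hs3 : |s - s0| < r - s0 := lt_of_lt_of_le hs ((min_le_right _ _).trans (min_le_right _ _))
  have hy1 : ‖y‖ < δ₁ := lt_of_lt_of_le hy (min_le_left _ _)
  rw [abs_lt] at hs2 hs3
  have hvan := h s (by linarith) (by linarith)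
  have htay := map_add_eq_sum_add_integral_iteratedFDeriv (f := f) (x := ((s, 0) : E0 k))
    (y := ((0, y) : E0 k)) (n := m) (fun t _ => (hf.contDiffAt).of_le (by exact_mod_cast le_top))
  have hsum : ∑ j ∈ Finset.range (m + 1), ((j.factorial : ℝ))⁻¹ •
      (iteratedFDeriv ℝ j f ((s, 0) : E0 k) (fun _ => ((0, y) : E0 k))) =
      (leadFam hf m).fn ((s, y) : E0 k) := by
    rw [Finset.sum_range_succ, lead_eval, Finset.sum_eq_zero, zero_add, smul_eq_mul]
    intro j hj
    rw [hvan j (Finset.mem_range.mp hj)]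
    simp
  have hadd : ((s, 0) : E0 k) + ((0, y) : E0 k) = ((s, y) : E0 k) := by
    rw [Prod.mk_add_mk, add_zero, zero_add]
  rw [hsum, hadd] at htay
  have hdiff : f ((s, y) : E0 k) - (leadFam hf m).fn ((s, y) : E0 k) = ((m.factorial : ℝ))⁻¹ •
      ∫ t in (0 : ℝ)..1, (1 - t) ^ m • iteratedFDeriv ℝ (m + 1) f
        (((s, 0) : E0 k) + t • ((0, y) : E0 k)) (fun _ => ((0, y) : E0 k)) := by
    rw [htay]
    ring
  show ‖f ((s, y) : E0 k) - (leadFam hf m).fn ((s, y) : E0 k)‖ ≤ _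
  rw [hdiff, norm_smul, norm_inv, Real.norm_natCast, mul_assoc]
  refine mul_le_mul_of_nonneg_left ?_ (by positivity)
  have hint := intervalIntegral.norm_integral_le_of_norm_le_const (a := (0 : ℝ)) (b := 1)
    (C := M * ‖y‖ ^ (m + 1)) (f := fun t : ℝ => (1 - t) ^ m • iteratedFDeriv ℝ (m + 1) f
        (((s, 0) : E0 k) + t • ((0, y) : E0 k)) (fun _ => ((0, y) : E0 k))) ?_
  · simpa using hint
  intro t ht
  rw [Set.uIoc_of_le zero_le_one] at ht
  have h0y : ‖((0, y) : E0 k)‖ = ‖y‖ := by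
    rw [Prod.norm_def, norm_zero]
    exact max_eq_right (norm_nonneg _)
  have hz : ‖iteratedFDeriv ℝ (m + 1) f (((s, 0) : E0 k) + t • ((0, y) : E0 k))‖ < M := by
    apply hball
    rw [dist_eq_norm]
    have h1 : ((s, 0) : E0 k) + t • ((0, y) : E0 k) - ((s0, 0) : E0 k) =
        ((s - s0, t • y) : E0 k) := by
      rw [Prod.smul_mk, Prod.mk_add_mk, Prod.mk_sub_mk]
      simp
    rw [h1, Prod.norm_def]
    refine max_lt hs1 ?_
    rw [norm_smul, Real.norm_eq_abs, abs_of_pos ht.1]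
    exact lt_of_le_of_lt (mul_le_of_le_one_left (norm_nonneg _) ht.2) hy1
  rw [norm_smul, norm_pow, Real.norm_eq_abs, abs_of_nonneg (by linarith [ht.2] : (0 : ℝ) ≤ 1 - t)]
  have h2 := ContinuousMultilinearMap.le_opNorm
    (iteratedFDeriv ℝ (m + 1) f (((s, 0) : E0 k) + t • ((0, y) : E0 k)))
    (fun _ => ((0, y) : E0 k))
  rw [Finset.prod_const, Finset.card_univ, Fintype.card_fin, h0y] at h2
  have h3 : (1 - t) ^ m ≤ 1 := pow_le_one₀ (by linarith [ht.2]) (by linarith [ht.1])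
  calc (1 - t) ^ m * ‖iteratedFDeriv ℝ (m + 1) f (((s, 0) : E0 k) + t • ((0, y) : E0 k))
        (fun _ => ((0, y) : E0 k))‖ ≤ 1 * (M * ‖y‖ ^ (m + 1)) := by
        refine mul_le_mul h3 (h2.trans ?_) (norm_nonneg _) zero_le_one
        exact mul_le_mul_of_nonneg_right hz.le (by positivity)
    _ = M * ‖y‖ ^ (m + 1) := one_mul _

theorem PolFam.exists_der (P : PolFam k m) : ∃ P' : PolFam k m, ds P.fn = P'.fn ∧
    ∀ a s, MvPolynomial.coeff a (P'.c s) = deriv (fun s => MvPolynomial.coeff a (P.c s)) s := by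
  classical
  have hT : ∀ a : Fin k →₀ ℕ, a ∉ Finset.finsuppAntidiag (Finset.univ : Finset (Fin k)) m →
      (fun s => MvPolynomial.coeff a (P.c s)) = fun _ => (0 : ℝ) := by
    intro a ha
    funext s
    by_contra hne
    apply ha
    rw [Finset.mem_finsuppAntidiag]
    refine ⟨?_, Finset.subset_univ _⟩
    have h1 := (P.hom s) hne
    rw [← h1, Finsupp.weight_apply, Finsupp.sum_fintype _ _ (by simp)]
    simp
  have hcoef : ∀ (a : Fin k →₀ ℕ) (s : ℝ), MvPolynomial.coeff a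
      (∑ b ∈ Finset.finsuppAntidiag (Finset.univ : Finset (Fin k)) m,
        MvPolynomial.monomial b (deriv (fun s => MvPolynomial.coeff b (P.c s)) s)) =
      deriv (fun s => MvPolynomial.coeff a (P.c s)) s := by
    intro a s
    rw [MvPolynomial.coeff_sum]
    simp only [MvPolynomial.coeff_monomial]
    rw [Finset.sum_ite_eq']
    split_ifs with ha
    · rfl
    · rw [hT a ha]
      simp
  have hsm : ∀ a : Fin k →₀ ℕ, ContDiff ℝ ∞
      (fun s => deriv (fun s => MvPolynomial.coeff a (P.c s)) s) := by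
    intro a
    have h1 := P.smooth a
    rw [show (∞ : WithTop ℕ∞) = ∞ + 1 by rfl, contDiff_succ_iff_deriv] at h1
    exact h1.2.2
  let P' : PolFam k m :=
    { c := fun s => ∑ b ∈ Finset.finsuppAntidiag (Finset.univ : Finset (Fin k)) m,
        MvPolynomial.monomial b (deriv (fun s => MvPolynomial.coeff b (P.c s)) s)
      hom := fun s => by
        refine MvPolynomial.IsHomogeneous.sum _ _ _ fun b hb => ?_
        refine MvPolynomial.isHomogeneous_monomial _ ?_
        rw [Finset.mem_finsuppAntidiag] at hb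
        rw [← hb.1, Finsupp.degree_eq_sum]
      smooth := fun a => by
        simp only [hcoef]
        exact hsm a }
  refine ⟨P', ?_, fun a s => hcoef a s⟩
  funext x
  unfold ds
  have h1 : HasDerivAt (fun s : ℝ => ((s, x.2) : E0 k)) ((1, 0) : E0 k) x.1 :=
    (hasDerivAt_id x.1).prodMk (hasDerivAt_const x.1 x.2)
  have h2 : HasFDerivAt P.fn (fderiv ℝ P.fn x) ((x.1, x.2) : E0 k) :=
    (P.fn_smooth.differentiable (by simp) x).hasFDerivAt
  have h3 : HasDerivAt (fun s : ℝ => P.fn ((s, x.2) : E0 k)) (fderiv ℝ P.fn x ((1, 0) : E0 k)) x.1 :=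
    HasFDerivAt.comp_hasDerivAt (f := fun s : ℝ => ((s, x.2) : E0 k)) (l := P.fn) x.1 h2 h1
  have h4 : HasDerivAt (fun s : ℝ => ∑ a ∈ Finset.finsuppAntidiag (Finset.univ : Finset (Fin k)) m,
      MvPolynomial.coeff a (P.c s) * ∏ i, x.2 i ^ a i)
      (∑ a ∈ Finset.finsuppAntidiag (Finset.univ : Finset (Fin k)) m,
        deriv (fun s => MvPolynomial.coeff a (P.c s)) x.1 * ∏ i, x.2 i ^ a i) x.1 := by
    refine HasDerivAt.fun_sum fun a _ => HasDerivAt.mul_const ?_ _
    exact ((P.smooth a).differentiable (by simp) x.1).hasDerivAt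
  have h5 : (fun s : ℝ => P.fn ((s, x.2) : E0 k)) = fun s : ℝ =>
      ∑ a ∈ Finset.finsuppAntidiag (Finset.univ : Finset (Fin k)) m,
      MvPolynomial.coeff a (P.c s) * ∏ i, x.2 i ^ a i := by
    funext s
    exact fn_eq P _
  rw [h5] at h3
  rw [h3.unique h4, fn_eq P']
  exact Finset.sum_congr rfl fun a _ => by rw [hcoef]

theorem algR3 (hk : 2 ≤ k) (P : Fin k → Fin k → MvPolynomial (Fin k) ℝ) (hm : 2 ≤ m)
    (hhom : ∀ i j, (P i j).IsHomogeneous m) (hsym : ∀ i j, P i j = P j i)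
    (h : ∀ i j l, MvPolynomial.X l * P i j = MvPolynomial.X i * P l j) :
    ∃ H : MvPolynomial (Fin k) ℝ, H.IsHomogeneous (m - 2) ∧
      (∀ i j, P i j = MvPolynomial.X i * MvPolynomial.X j * H) ∧
      ∀ a, MvPolynomial.coeff a H = MvPolynomial.coeff
        (a + Finsupp.single (⟨0, by omega⟩ : Fin k) 1 + Finsupp.single (⟨1, by omega⟩ : Fin k) 1)
        (P ⟨0, by omega⟩ ⟨1, by omega⟩) := by
  classical
  have hX0 : ∀ i : Fin k, (MvPolynomial.X i : MvPolynomial (Fin k) ℝ) ≠ 0 := fun i =>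
    MvPolynomial.X_ne_zero i
  have hpr : ∀ i : Fin k, Prime (MvPolynomial.X i : MvPolynomial (Fin k) ℝ) := fun i =>
    MvPolynomial.X_prime
  have hnd : ∀ i j : Fin k, i ≠ j →
      ¬ (MvPolynomial.X i : MvPolynomial (Fin k) ℝ) ∣ MvPolynomial.X j := by
    intro i j hij hdv
    obtain ⟨q, hq⟩ := hdv
    have h1 := congrArg (MvPolynomial.eval (fun l => if l = i then (0 : ℝ) else 1)) hq
    rw [map_mul, MvPolynomial.eval_X, MvPolynomial.eval_X, if_pos rfl, if_neg hij.symm,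
      zero_mul] at h1
    exact one_ne_zero h1
  have hne : ∀ i : Fin k, ∃ l : Fin k, l ≠ i := by
    intro i
    by_cases hi : i = ⟨0, by omega⟩
    · refine ⟨⟨1, by omega⟩, ?_⟩
      rw [hi]
      intro h2
      rw [Fin.mk.injEq] at h2
      omega
    · exact ⟨⟨0, by omega⟩, fun h2 => hi h2.symm⟩
  have h1 : ∀ i j : Fin k, ∃ S : MvPolynomial (Fin k) ℝ, P i j = MvPolynomial.X i * S := by
    intro i j
    obtain ⟨l, hl⟩ := hne i
    have h2 : (MvPolynomial.X i : MvPolynomial (Fin k) ℝ) ∣ MvPolynomial.X l * P i j :=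
      ⟨P l j, h i j l⟩
    rcases (hpr i).dvd_or_dvd h2 with h3 | h3
    · exact absurd h3 (hnd i l hl.symm)
    · exact h3
  choose S hS using h1
  have h2 : ∀ i l j : Fin k, S i j = S l j := by
    intro i l j
    have h3 := h i j l
    rw [hS i j, hS l j] at h3
    apply mul_left_cancel₀ (hX0 i)
    apply mul_left_cancel₀ (hX0 l)
    rw [h3]
    ring
  have h3 : ∀ j : Fin k, ∃ H : MvPolynomial (Fin k) ℝ, S j j = MvPolynomial.X j * H := by
    intro j
    obtain ⟨i, hi⟩ := hne j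
    have h4 : MvPolynomial.X i * S j j = MvPolynomial.X j * S i i := by
      have h5 := hsym i j
      rw [hS i j, hS j i, h2 i j j, h2 j i i] at h5
      exact h5
    rcases (hpr j).dvd_or_dvd (⟨S i i, h4⟩ : (MvPolynomial.X j : MvPolynomial (Fin k) ℝ) ∣
      MvPolynomial.X i * S j j) with h5 | h5
    · exact absurd h5 (hnd j i hi.symm)
    · exact h5
  choose H hH using h3
  have h4 : ∀ i j : Fin k, H i = H j := by
    intro i j
    have h5 := hsym i j
    rw [hS i j, hS j i, h2 i j j, h2 j i i, hH i, hH j] at h5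
    apply mul_left_cancel₀ (hX0 i)
    apply mul_left_cancel₀ (hX0 j)
    linear_combination -h5
  have h5 : ∀ i j : Fin k, P i j = MvPolynomial.X i * MvPolynomial.X j * H ⟨0, by omega⟩ := by
    intro i j
    rw [hS i j, h2 i j j, hH j, h4 j ⟨0, by omega⟩]
    ring
  have h6 : ∀ a, MvPolynomial.coeff a (H ⟨0, by omega⟩) = MvPolynomial.coeff
        (a + Finsupp.single (⟨0, by omega⟩ : Fin k) 1 + Finsupp.single (⟨1, by omega⟩ : Fin k) 1)
        (P ⟨0, by omega⟩ ⟨1, by omega⟩) := by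
    intro a
    rw [h5 ⟨0, by omega⟩ ⟨1, by omega⟩]
    have h7 : (MvPolynomial.X (⟨0, by omega⟩ : Fin k) * MvPolynomial.X (⟨1, by omega⟩ : Fin k) *
        H ⟨0, by omega⟩ : MvPolynomial (Fin k) ℝ) =
        H ⟨0, by omega⟩ * MvPolynomial.X (⟨0, by omega⟩ : Fin k) *
          MvPolynomial.X (⟨1, by omega⟩ : Fin k) := by ring
    rw [h7, MvPolynomial.coeff_mul_X, MvPolynomial.coeff_mul_X]
  refine ⟨H ⟨0, by omega⟩, ?_, h5, h6⟩
  intro d hd
  rw [h6 d] at hd
  have h7 := hhom _ _ hd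
  rw [map_add, map_add, Finsupp.weight_single, Finsupp.weight_single] at h7
  simp only [Pi.one_apply, smul_eq_mul, mul_one] at h7
  omega

end LatLin.B
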