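import Pool.Agent.Lib.MP_2392aa_gt.B.VanRay
import Pool.Agent.Lib.MP_2392aa_gt.B.RayPol

/-!
MODULE RayRigid. A flat perturbation of the identity which conjugates one system of flat (along the ray)
perturbations of the unipotents to another one is flat along the ray.

PROOF. (a) For small `s ≥ 0` the point `e (s,0)` is on the ray: it is fixed by all `F' i`
(`F' i (e (s,0)) = e (F i (s,0)) = e (s,0)`, `F i (s,0) = (s,0)` since `F i - tau i` vanishes there).
Let `z = e (s,0) = (s', y')`, `‖z - (s,0)‖ ≤ C s^2`, so `s' > 0`, `‖y'‖ ≤ s'`. `F' i - tau i` is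
`O(‖y'‖^2)` at `z` (`VanR.unif`, order 2), so `|y' i| = |(tau i z - z).1| ≤ C ‖y'‖^2` for all `i`,
`‖y'‖ ≤ C ‖y'‖^2`, `y' = 0` for small `s`.
(b) Hence near `(s,0)`: `e ∘ F i - e ∘ tau i` is flat at `(s,0)` (`Van.comp_sub`), and
`F' i ∘ e - tau i ∘ e` is flat at `(s,0)` (`Van.comp`, `e (s,0)` is on the ray, and `s'` small), so
`e ∘ tau i - tau i ∘ e` is flat at `(s,0)` for all `i` and `0 ≤ s < r'`.
(c) Let `E = e - id`, with components `E^s`, `E^a` (`a : Fin k`). (b) says: to infinite order at the ray,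
 (1) `E^s (s + y i, y) - E^s (s, y) = E^i (s, y)`, (2) `E^a (s + y i, y) = E^a (s, y)`.
Show by induction on `m`: all components vanish to order `m` along the ray. Step: let them vanish to order `m`.
From (1): the left side vanishes to order `m + 1` (see (S) below), so all `E^i` vanish to order
`m + 1`. From (2) for a function `f` vanishing to order `m + 1` along the ray with
`f (s + y i, y) = f (s,y) + (flat)`: `f (s + y i, y) - f (s, y) = y i ds f + O(order m + 3)`, so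
`y i * ds f` vanishes to order `m + 3`, hence `ds f` to order `m + 2`, and the leading coefficients
(order `m + 1`) of `f` are constant along the ray, `= 0` because `f` is flat at `0`: so
`E^a` vanishes to order `m + 2`. Back to (1): `y i * ds E^s + O(order m + 2) = E^i` gives
`y i * ds E^s = O(order m + 2)`, `ds E^s` vanishes to order `m + 1`, the leading coefficients of
`E^s` are constant, `= 0`: order `m + 1`.
(S): for `f` of order `m` along the ray `f (s + y i, y) - f (s,y) - y i * ds f` vanishes to order `m + 2` (Taylor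
in `s`, `ds (ds f)` is of order `m` by `ds_vanR`; or `symbol` with `q = 0`). For leading coefficients use
`leading`, `PolFam.exists_der`, `PolFam.fn_uniq`, or `iteratedFDeriv ℝ j f (s,0)` directly:
its derivative in `s` vanishes. Division by `y i`: `y i * g = O(‖y‖^(m+1))` for smooth `g` implies
`g` of order `m` (leading homogeneous polynomial of `g`: `X i * G = 0` implies `G = 0`).
-/

open scoped ContDiff Topology

namespace LatLin.B

private theorem rr_clm {E F G : Type*} [NormedAddCommGroup E] [NormedSpace ℝ E]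
    [NormedAddCommGroup F] [NormedSpace ℝ F] [NormedAddCommGroup G] [NormedSpace ℝ G]
    (L : F →L[ℝ] G) {f : E → F} (hf : ContDiff ℝ ∞ f) {x : E} (h : FlatAt f x) :
    FlatAt (fun z => L (f z)) x := by
  intro j
  have h1 := L.iteratedFDeriv_comp_left (hf.contDiffAt (x := x)) (i := j)
    (by exact_mod_cast (le_top : ((j : ℕ) : ℕ∞) ≤ ⊤))
  have h2 : (fun z => L (f z)) = L ∘ f := rfl
  rw [h2, h1, h j]
  ext v
  simp

private theorem rr_add {E F : Type*} [NormedAddCommGroup E] [NormedSpace ℝ E]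
    [NormedAddCommGroup F] [NormedSpace ℝ F] {f g : E → F} (hf : ContDiff ℝ ∞ f)
    (hg : ContDiff ℝ ∞ g) {x : E} (h : FlatAt f x) (h' : FlatAt g x) :
    FlatAt (fun z => f z + g z) x :=
  flatAt_iff.2 fun m => Van.add hf hg (flatAt_iff.1 h m) (flatAt_iff.1 h' m)

private theorem rr_sub {E F : Type*} [NormedAddCommGroup E] [NormedSpace ℝ E]
    [NormedAddCommGroup F] [NormedSpace ℝ F] {f g : E → F} (hf : ContDiff ℝ ∞ f)
    (hg : ContDiff ℝ ∞ g) {x : E} (h : FlatAt f x) (h' : FlatAt g x) :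
    FlatAt (fun z => f z - g z) x :=
  flatAt_iff.2 fun m => Van.sub hf hg (flatAt_iff.1 h m) (flatAt_iff.1 h' m)

private theorem rr_congr {E F : Type*} [NormedAddCommGroup E] [NormedSpace ℝ E]
    [NormedAddCommGroup F] [NormedSpace ℝ F] {f g : E → F} {x : E} (hfg : f =ᶠ[𝓝 x] g)
    (h : FlatAt f x) : FlatAt g x :=
  flatAt_iff.2 fun m => Van.congr hfg (flatAt_iff.1 h m)

private theorem rr_val {E F : Type*} [NormedAddCommGroup E] [NormedSpace ℝ E]
    [NormedAddCommGroup F] [NormedSpace ℝ F] {f : E → F} {x : E} (h : FlatAt f x) : f x = 0 := by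
  have h1 := h 0
  have h2 : ‖iteratedFDeriv ℝ 0 f x‖ = ‖f x‖ := norm_iteratedFDeriv_zero
  rw [h1, norm_zero] at h2
  exact norm_eq_zero.1 h2.symm

private theorem rr_tau_smooth {k : ℕ} (i : Fin k) : ContDiff ℝ ∞ (tau i : E0 k → E0 k) := by
  have h1 : ContDiff ℝ ∞ (fun x : E0 k => x.2 i) :=
    (ContinuousLinearMap.proj (R := ℝ) (φ := fun _ : Fin k => ℝ) i).contDiff.comp contDiff_snd
  exact (contDiff_fst.add h1).prodMk contDiff_snd

private theorem rr_max {k : ℕ} (hk : 1 ≤ k) (y : Fin k → ℝ) : ∃ i, |y i| = ‖y‖ := by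
  obtain ⟨i, -, hi⟩ := Finset.univ.exists_max_image (fun i => |y i|)
    ⟨(⟨0, by omega⟩ : Fin k), Finset.mem_univ _⟩
  exact ⟨i, le_antisymm (norm_le_pi_norm y i)
    ((pi_norm_le_iff_of_nonneg (abs_nonneg _)).2 fun j => hi j (Finset.mem_univ _))⟩

/-- telescoping along the steps `s ↦ s + ‖y‖` -/
private theorem rr_tele {k : ℕ} {F : Type*} [NormedAddCommGroup F] {f : E0 k → F} {r C0 C1 : ℝ}
    {N : ℕ} {y : Fin k → ℝ} {h : ℝ} (hh : 0 < h) (hC1 : 0 ≤ C1)
    (hbase : ∀ s : ℝ, 0 ≤ s → s < h → ‖f (s, y)‖ ≤ C0 * h ^ N)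
    (hstep : ∀ s : ℝ, h ≤ s → s ≤ r → ‖f (s, y) - f (s - h, y)‖ ≤ C1 * h ^ (N + 1)) (n : ℕ) :
    ∀ s : ℝ, 0 ≤ s → s ≤ r → s < (n + 1) * h →
      ‖f (s, y)‖ ≤ C0 * h ^ N + n * (C1 * h ^ (N + 1)) := by
  induction n with
  | zero =>
    intro s hs _ hsh
    have := hbase s hs (by simpa using hsh)
    simpa using this
  | succ n ih =>
    intro s hs hsr hsh
    have hpos : 0 ≤ C1 * h ^ (N + 1) := by positivity
    rcases lt_or_ge s h with h1 | h1
    · have h2 := hbase s hs h1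
      have h3 : (0 : ℝ) ≤ ((n + 1 : ℕ) : ℝ) * (C1 * h ^ (N + 1)) := by positivity
      linarith
    · have h2 := ih (s - h) (by linarith) (by linarith) (by push_cast at hsh; linarith)
      have h3 := hstep s h1 hsr
      have h4 : f (s, y) = (f (s, y) - f (s - h, y)) + f (s - h, y) := by abel
      calc ‖f (s, y)‖ = ‖(f (s, y) - f (s - h, y)) + f (s - h, y)‖ := by rw [← h4]
        _ ≤ C1 * h ^ (N + 1) + (C0 * h ^ N + n * (C1 * h ^ (N + 1))) :=
          (norm_add_le _ _).trans (add_le_add h3 h2)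
        _ = C0 * h ^ N + ((n + 1 : ℕ) : ℝ) * (C1 * h ^ (N + 1)) := by push_cast; ring

private theorem rr_key {k : ℕ} (hk : 1 ≤ k) {r : ℝ} {F : Type*} [NormedAddCommGroup F]
    [NormedSpace ℝ F] [CompleteSpace F] {f : E0 k → F} (hf : ContDiff ℝ ∞ f)
    (h0 : FlatAt f 0)
    (h : ∀ i : Fin k, ∀ s : ℝ, 0 ≤ s → s < r →
      FlatAt (fun x => f (tau i x) - f x) ((s, 0) : E0 k)) :
    ∀ s : ℝ, 0 ≤ s → s < r → FlatAt f ((s, 0) : E0 k) := by
  intro s1 hs1 hs1r
  rw [flatAt_iff]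
  intro N
  refine (vanR_of_bound (m := N) hf h0 ?_) s1 hs1 hs1r
  intro s0 hs0 hs0r
  set r2 : ℝ := (s0 + r) / 2 with hr2
  have hr2a : s0 < r2 := by rw [hr2]; linarith
  have hr2b : r2 < r := by rw [hr2]; linarith
  have hg : ∀ i : Fin k, ContDiff ℝ ∞ (fun x => f (tau i x) - f x) := fun i =>
    (hf.comp (rr_tau_smooth i)).sub hf
  have hunif := fun i : Fin k => VanR.unif (m := N + 1) hr2b (hg i)
    (fun s hs hsr => flatAt_iff.1 (h i s hs hsr) (N + 1))
  choose C hC0 hC using hunif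
  set C1 : ℝ := ∑ i, C i with hC1
  have hC1i : ∀ i, C i ≤ C1 := fun i =>
    Finset.single_le_sum (f := C) (fun j _ => hC0 j) (Finset.mem_univ i)
  have hC10 : 0 ≤ C1 := Finset.sum_nonneg fun j _ => hC0 j
  obtain ⟨C0, hC0'⟩ := Van.bigO hf (flatAt_iff.1 h0 N)
  obtain ⟨η, hη, hηC⟩ := Metric.eventually_nhds_iff_ball.1 hC0'
  set δ : ℝ := min (min (r2 - s0) s0) (min η 1) with hδ
  have hδ0 : 0 < δ := lt_min (lt_min (by linarith) hs0) (lt_min hη one_pos)
  have hδ1 : δ ≤ r2 - s0 := (min_le_left _ _).trans (min_le_left _ _)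
  have hδ2 : δ ≤ s0 := (min_le_left _ _).trans (min_le_right _ _)
  have hδ3 : δ ≤ η := (min_le_right _ _).trans (min_le_left _ _)
  have hδ4 : δ ≤ 1 := (min_le_right _ _).trans (min_le_right _ _)
  refine ⟨|C0| + r2 * C1, δ, hδ0, fun s hs y hy => ?_⟩
  obtain ⟨hsl, hsu⟩ := abs_lt.1 hs
  have hs0' : 0 ≤ s := by linarith
  have hsr2 : s ≤ r2 := by linarith
  have hmain : ∀ y : Fin k → ℝ, y ≠ 0 → ‖y‖ < δ →
      ‖f (s, y)‖ ≤ (|C0| + r2 * C1) * ‖y‖ ^ N := by
    intro y hy0 hyδ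
    have hh : 0 < ‖y‖ := norm_pos_iff.2 hy0
    obtain ⟨i, hi⟩ := rr_max hk y
    have hbase : ∀ s : ℝ, 0 ≤ s → s < ‖y‖ → ‖f (s, y)‖ ≤ |C0| * ‖y‖ ^ N := by
      intro t ht hty
      have hn : ‖((t, y) : E0 k)‖ = ‖y‖ := by
        rw [Prod.norm_mk, Real.norm_of_nonneg ht]
        exact max_eq_right hty.le
      have h1 := hηC (t, y) (by
        rw [Metric.mem_ball, dist_zero_right, hn]
        linarith)
      rw [sub_zero, hn] at h1
      exact h1.trans (by gcongr; exact le_abs_self _)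
    have hstep : ∀ s : ℝ, ‖y‖ ≤ s → s ≤ r2 →
        ‖f (s, y) - f (s - ‖y‖, y)‖ ≤ C1 * ‖y‖ ^ (N + 1) := by
      intro t ht htr
      have hCi : ∀ t : ℝ, 0 ≤ t → t ≤ r2 →
          ‖f (tau i (t, y)) - f (t, y)‖ ≤ C1 * ‖y‖ ^ (N + 1) := fun t h1 h2 =>
        (hC i t h1 h2 y (by linarith)).trans (by gcongr; exact hC1i i)
      rcases abs_cases (y i) with h1 | h1
      · have h2 : tau i ((t - ‖y‖, y) : E0 k) = (t, y) := by
          have h3 : t - ‖y‖ + y i = t := by rw [← hi, h1.1]; ring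
          simp only [tau, h3]
        have h4 := hCi (t - ‖y‖) (by linarith) (by linarith)
        rwa [h2] at h4
      · have h2 : tau i ((t, y) : E0 k) = (t - ‖y‖, y) := by
          have h3 : t + y i = t - ‖y‖ := by rw [← hi, h1.1]; ring
          simp only [tau, h3]
        have h4 := hCi t (by linarith) htr
        rw [h2, norm_sub_rev] at h4
        exact h4
    obtain ⟨n, hn1, hn2⟩ : ∃ n : ℕ, (n : ℝ) * ‖y‖ ≤ s ∧ s < (n + 1) * ‖y‖ := by
      refine ⟨⌊s / ‖y‖⌋₊, ?_, ?_⟩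
      · have := Nat.floor_le (show 0 ≤ s / ‖y‖ by positivity)
        rwa [le_div_iff₀ hh] at this
      · have := Nat.lt_floor_add_one (s / ‖y‖)
        rwa [div_lt_iff₀ hh] at this
    have h1 := rr_tele hh hC10 hbase hstep n s hs0' hsr2 hn2
    refine h1.trans ?_
    have h2 : (n : ℝ) * (C1 * ‖y‖ ^ (N + 1)) = (n : ℝ) * ‖y‖ * (C1 * ‖y‖ ^ N) := by
      rw [pow_succ]; ring
    have h3 : (n : ℝ) * ‖y‖ * (C1 * ‖y‖ ^ N) ≤ r2 * (C1 * ‖y‖ ^ N) := by
      gcongr
      exact hn1.trans hsr2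
    rw [h2, add_mul]
    linarith
  by_cases hy0 : y = 0
  · subst hy0
    have hone : ‖(fun _ : Fin k => (1 : ℝ))‖ = 1 := by
      haveI : Nonempty (Fin k) := ⟨⟨0, by omega⟩⟩
      rw [pi_norm_const, norm_one]
    have hcu : Continuous fun t : ℝ => t • (fun _ : Fin k => (1 : ℝ)) :=
      continuous_id.smul continuous_const
    have hl : Filter.Tendsto (fun t : ℝ => ‖f (s, t • (fun _ : Fin k => (1 : ℝ)))‖) (𝓝[>] 0)
        (𝓝 ‖f (s, 0)‖) := by
      have h1 : Continuous fun t : ℝ => ‖f (s, t • (fun _ : Fin k => (1 : ℝ)))‖ :=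
        (hf.continuous.comp (continuous_const.prodMk hcu)).norm
      have h2 := (h1.tendsto 0).mono_left (nhdsWithin_le_nhds (s := Set.Ioi (0 : ℝ)))
      simpa using h2
    have hr : Filter.Tendsto (fun t : ℝ => (|C0| + r2 * C1) *
        ‖t • (fun _ : Fin k => (1 : ℝ))‖ ^ N) (𝓝[>] 0)
        (𝓝 ((|C0| + r2 * C1) * ‖(0 : Fin k → ℝ)‖ ^ N)) := by
      have h1 : Continuous fun t : ℝ => (|C0| + r2 * C1) *
          ‖t • (fun _ : Fin k => (1 : ℝ))‖ ^ N := continuous_const.mul ((hcu.norm).pow N)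
      have h2 := (h1.tendsto 0).mono_left (nhdsWithin_le_nhds (s := Set.Ioi (0 : ℝ)))
      rw [zero_smul] at h2
      exact h2
    refine le_of_tendsto_of_tendsto hl hr ?_
    have hmem : Set.Ioo (0 : ℝ) δ ∈ 𝓝[>] (0 : ℝ) := Ioo_mem_nhdsGT hδ0
    filter_upwards [hmem] with t ht
    have hn : ‖t • (fun _ : Fin k => (1 : ℝ))‖ = t := by
      rw [norm_smul, hone, mul_one, Real.norm_of_nonneg ht.1.le]
    refine hmain _ ?_ ?_
    · intro h1
      rw [h1, norm_zero] at hn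
      exact ht.1.ne hn
    · rw [hn]
      exact ht.2
  · exact hmain y hy0 hy

theorem ray_rigid {k : ℕ} (hk : 1 ≤ k) {r : ℝ} (hr : 0 < r) (F F' : Fin k → E0 k → E0 k)
    (hF : ∀ i, ContDiff ℝ ∞ (F i)) (hF' : ∀ i, ContDiff ℝ ∞ (F' i))
    (hf : ∀ i, ∀ s : ℝ, 0 ≤ s → s < r → FlatAt (fun x => F i x - tau i x) ((s, 0) : E0 k))
    (hf' : ∀ i, ∀ s : ℝ, 0 ≤ s → s < r → FlatAt (fun x => F' i x - tau i x) ((s, 0) : E0 k))
    (e : E0 k → E0 k) (he : ContDiff ℝ ∞ e) (hef : FlatAt (fun x => e x - x) 0)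
    (hc : ∀ i, ∀ᶠ x in 𝓝 (0 : E0 k), e (F i x) = F' i (e x)) :
    ∃ r' : ℝ, 0 < r' ∧ ∀ s : ℝ, 0 ≤ s → s < r' →
      FlatAt (fun x => e x - x) ((s, 0) : E0 k) := by
  have hes : ContDiff ℝ ∞ (fun x : E0 k => e x - x) := he.sub contDiff_id
  have hgs : ∀ i, ContDiff ℝ ∞ (fun x => F i x - tau i x) := fun i =>
    (hF i).sub (rr_tau_smooth i)
  have hgs' : ∀ i, ContDiff ℝ ∞ (fun x => F' i x - tau i x) := fun i =>
    (hF' i).sub (rr_tau_smooth i)
  -- the constants
  obtain ⟨δc, hδc, hcc⟩ := Metric.eventually_nhds_iff_ball.1 (Filter.eventually_all.2 hc)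
  obtain ⟨Ce, hCe⟩ := Van.bigO hes (flatAt_iff.1 hef 2)
  obtain ⟨δe, hδe, hee⟩ := Metric.eventually_nhds_iff_ball.1 hCe
  have hunif := fun i : Fin k => VanR.unif (m := 2) (show r / 2 < r by linarith) (hgs' i)
    (fun s hs hsr => flatAt_iff.1 (hf' i s hs hsr) 2)
  choose C hC0 hC using hunif
  set C1 : ℝ := ∑ i, C i with hC1
  have hC1i : ∀ i, C i ≤ C1 := fun i =>
    Finset.single_le_sum (f := C) (fun j _ => hC0 j) (Finset.mem_univ i)
  have hC10 : 0 ≤ C1 := Finset.sum_nonneg fun j _ => hC0 j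
  have hCe0 : 0 ≤ |Ce| := abs_nonneg _
  set r' : ℝ := min (min δc δe) (min (min 1 (r / 3)) (min (1 / (2 * (|Ce| + 1))) (1 / (C1 + 1))))
    with hr'
  have hr'0 : 0 < r' := by
    refine lt_min (lt_min hδc hδe) (lt_min (lt_min one_pos (by linarith)) (lt_min ?_ ?_)) <;>
    positivity
  have b1 : r' ≤ δc := (min_le_left _ _).trans (min_le_left _ _)
  have b2 : r' ≤ δe := (min_le_left _ _).trans (min_le_right _ _)
  have b3 : r' ≤ 1 := (min_le_right _ _).trans ((min_le_left _ _).trans (min_le_left _ _))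
  have b4 : r' ≤ r / 3 := (min_le_right _ _).trans ((min_le_left _ _).trans (min_le_right _ _))
  have b5 : r' ≤ 1 / (2 * (|Ce| + 1)) :=
    (min_le_right _ _).trans ((min_le_right _ _).trans (min_le_left _ _))
  have b6 : r' ≤ 1 / (C1 + 1) :=
    (min_le_right _ _).trans ((min_le_right _ _).trans (min_le_right _ _))
  have htau0 : ∀ (i : Fin k) (s : ℝ), tau i ((s, 0) : E0 k) = (s, 0) := fun i s => by
    simp [tau]
  have hnorm : ∀ s : ℝ, 0 ≤ s → ‖((s, 0) : E0 k)‖ = s := fun s hs => by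
    rw [Prod.norm_mk, norm_zero, Real.norm_of_nonneg hs]
    exact max_eq_left hs
  -- (a)
  have ha : ∀ s : ℝ, 0 ≤ s → s < r' → (e (s, 0)).2 = 0 ∧ 0 ≤ (e (s, 0)).1 ∧ (e (s, 0)).1 < r := by
    intro s hs hsr
    set z := e (s, 0) with hz
    have hball : ((s, 0) : E0 k) ∈ Metric.ball (0 : E0 k) δc := by
      rw [Metric.mem_ball, dist_zero_right, hnorm s hs]
      linarith
    have hballe : ((s, 0) : E0 k) ∈ Metric.ball (0 : E0 k) δe := by
      rw [Metric.mem_ball, dist_zero_right, hnorm s hs]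
      linarith
    have h1 : ‖z - (s, 0)‖ ≤ s / 2 := by
      have h2 := hee _ hballe
      rw [sub_zero, hnorm s hs] at h2
      have h3 : s * (|Ce| + 1) ≤ 1 / 2 := by
        have h4 : s ≤ 1 / (2 * (|Ce| + 1)) := hsr.le.trans b5
        rw [le_div_iff₀ (by positivity)] at h4
        linarith
      calc ‖z - (s, 0)‖ ≤ Ce * s ^ 2 := h2
        _ ≤ |Ce| * s ^ 2 := by gcongr; exact le_abs_self _
        _ = s * (s * |Ce|) := by ring
        _ ≤ s * (1 / 2) := by
          gcongr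
          nlinarith
        _ = s / 2 := by ring
    have h2 : |z.1 - s| ≤ s / 2 := by
      have : ‖(z - (s, 0)).1‖ ≤ s / 2 := (norm_fst_le _).trans h1
      simpa using this
    have h3 : ‖z.2‖ ≤ s / 2 := by
      have : ‖(z - (s, 0)).2‖ ≤ s / 2 := (norm_snd_le _).trans h1
      simpa using this
    obtain ⟨h2a, h2b⟩ := abs_le.1 h2
    have hz0 : 0 ≤ z.1 := by linarith
    have hzr : z.1 ≤ r / 2 := by linarith
    refine ⟨?_, hz0, by linarith⟩
    have hfix : ∀ i, F' i z = z := by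
      intro i
      have h4 := hcc _ hball i
      have h5 : F i (s, 0) = ((s, 0) : E0 k) := by
        have h6 := rr_val (hf i s hs (by linarith))
        rw [sub_eq_zero.1 h6, htau0]
      rw [h5] at h4
      exact h4.symm
    have h4 : ∀ i, |z.2 i| ≤ C1 * ‖z.2‖ ^ 2 := by
      intro i
      have h5 := hC i z.1 hz0 hzr z.2 (by linarith)
      have h6 : F' i (z.1, z.2) - tau i (z.1, z.2) = z - tau i z := by
        have : ((z.1, z.2) : E0 k) = z := rfl
        rw [this, hfix i]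
      rw [h6] at h5
      have h7 : (z - tau i z).1 = -z.2 i := by
        simp [tau]
      have h8 := (norm_fst_le (z - tau i z)).trans h5
      rw [h7, norm_neg] at h8
      exact h8.trans (by gcongr; exact hC1i i)
    have h5 : ‖z.2‖ ≤ C1 * ‖z.2‖ ^ 2 :=
      (pi_norm_le_iff_of_nonneg (by positivity)).2 h4
    by_contra hne
    have h6 : 0 < ‖z.2‖ := norm_pos_iff.2 hne
    have h7 : 1 ≤ C1 * ‖z.2‖ := by
      by_contra h8
      push Not at h8
      have : C1 * ‖z.2‖ ^ 2 < ‖z.2‖ := by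
        calc C1 * ‖z.2‖ ^ 2 = (C1 * ‖z.2‖) * ‖z.2‖ := by ring
          _ < 1 * ‖z.2‖ := by gcongr
          _ = ‖z.2‖ := one_mul _
      linarith
    have h8 : (C1 + 1) * s ≤ 1 := by
      have h9 : s ≤ 1 / (C1 + 1) := hsr.le.trans b6
      rw [le_div_iff₀ (by positivity)] at h9
      linarith
    have h9 : C1 * ‖z.2‖ ≤ C1 * (s / 2) := by gcongr
    nlinarith
  -- (b)
  have hb : ∀ (i : Fin k) (s : ℝ), 0 ≤ s → s < r' →
      FlatAt (fun x => e (tau i x) - tau i (e x)) ((s, 0) : E0 k) := by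
    intro i s hs hsr
    obtain ⟨hz2, hz0, hzr⟩ := ha s hs hsr
    have hball : Metric.ball (0 : E0 k) δc ∈ 𝓝 ((s, 0) : E0 k) := by
      apply Metric.isOpen_ball.mem_nhds
      rw [Metric.mem_ball, dist_zero_right, hnorm s hs]
      linarith
    have h1 : FlatAt (fun x => e (F i x) - e (tau i x)) ((s, 0) : E0 k) :=
      flatAt_iff.2 fun m => Van.comp_sub he (hF i) (rr_tau_smooth i)
        (flatAt_iff.1 (hf i s hs (by linarith)) m)
    have h2 : FlatAt (fun x => F' i (e x) - tau i (e x)) ((s, 0) : E0 k) := by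
      refine flatAt_iff.2 fun m => ?_
      have hz : e (s, 0) = (((e (s, 0)).1, 0) : E0 k) := Prod.ext rfl hz2
      have h3 : Van m (fun x => F' i x - tau i x) (e (s, 0)) := by
        rw [hz]
        exact flatAt_iff.1 (hf' i _ hz0 hzr) m
      exact Van.comp (hgs' i) he h3
    have h3 : FlatAt (fun x => (F' i (e x) - tau i (e x)) - (e (F i x) - e (tau i x)))
        ((s, 0) : E0 k) :=
      rr_sub ((hgs' i).comp he) ((he.comp (hF i)).sub (he.comp (rr_tau_smooth i))) h2 h1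
    refine rr_congr ?_ h3
    filter_upwards [hball] with x hx
    rw [hcc x hx i]
    abel
  -- (c)
  have hG : ∀ i, ContDiff ℝ ∞ (fun x => e (tau i x) - tau i (e x)) := fun i =>
    (he.comp (rr_tau_smooth i)).sub ((rr_tau_smooth i).comp he)
  have hE2s : ContDiff ℝ ∞ (fun x : E0 k => (e x - x).2) := contDiff_snd.comp hes
  have hE1s : ContDiff ℝ ∞ (fun x : E0 k => (e x - x).1) := contDiff_fst.comp hes
  have hE2 : ∀ s : ℝ, 0 ≤ s → s < r' → FlatAt (fun x => (e x - x).2) ((s, 0) : E0 k) := by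
    refine rr_key hk hE2s (rr_clm (ContinuousLinearMap.snd ℝ ℝ (Fin k → ℝ)) hes hef) ?_
    intro i s hs hsr
    have h1 := rr_clm (ContinuousLinearMap.snd ℝ ℝ (Fin k → ℝ)) (hG i) (hb i s hs hsr)
    refine rr_congr (Filter.Eventually.of_forall fun x => ?_) h1
    simp [tau]
  have hE1 : ∀ s : ℝ, 0 ≤ s → s < r' → FlatAt (fun x => (e x - x).1) ((s, 0) : E0 k) := by
    refine rr_key hk hE1s (rr_clm (ContinuousLinearMap.fst ℝ ℝ (Fin k → ℝ)) hes hef) ?_
    intro i s hs hsr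
    have h1 := rr_clm (ContinuousLinearMap.fst ℝ ℝ (Fin k → ℝ)) (hG i) (hb i s hs hsr)
    have h2 := rr_clm (ContinuousLinearMap.proj (R := ℝ) (φ := fun _ : Fin k => ℝ) i) hE2s
      (hE2 s hs hsr)
    have h3 := rr_add (contDiff_fst.comp (hG i))
      ((ContinuousLinearMap.proj (R := ℝ) (φ := fun _ : Fin k => ℝ) i).contDiff.comp hE2s) h1 h2
    refine rr_congr (Filter.Eventually.of_forall fun x => ?_) h3
    simp [tau]
    ring
  refine ⟨r', hr'0, fun s hs hsr => ?_⟩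
  have h1 := rr_clm (ContinuousLinearMap.inl ℝ ℝ (Fin k → ℝ)) hE1s (hE1 s hs hsr)
  have h2 := rr_clm (ContinuousLinearMap.inr ℝ ℝ (Fin k → ℝ)) hE2s (hE2 s hs hsr)
  have h3 := rr_add ((ContinuousLinearMap.inl ℝ ℝ (Fin k → ℝ)).contDiff.comp hE1s)
    ((ContinuousLinearMap.inr ℝ ℝ (Fin k → ℝ)).contDiff.comp hE2s) h1 h2
  refine rr_congr (Filter.Eventually.of_forall fun x => ?_) h3
  refine Prod.ext ?_ ?_
  · simp
  · simp

end LatLin.B
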