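import Pool.Agent.Lib.MP_2392aa_gt.B.Prep
import Pool.Agent.Lib.MP_2392aa_gt.B.RayRigid

/-!
MODULE P3. Elements of the group which map one ray of the family to another one are linear to infinite order
along the ray.

PROOF. (a) If `w` is in the subgroup generated by the `u q' j`, then `F w - ρ w` is flat along the
ray of `q'` near `0` (radius depending on `w`): induction on the subgroup (`Subgroup.closure_induction`, closed
under products and inverses): near `0`, `F (w₁ w₂) = F w₁ ∘ F w₂` (both give `(w₁ w₂) • χ x`,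
injectivity of `χ`, continuity), `F w₁ ∘ F w₂ - ρ w₁ ∘ ρ w₂` is flat at the points `x0` of the ray
(`Van.comp`, `Van.comp_sub`, `ρ w` and `F w` fix `x0`); inverses: `uB` for the generators, and
`(F w⁻¹ - ρ w⁻¹) ∘ F w = -ρ w⁻¹ (F w - ρ w)` near `0`.
(b) In the linear coordinates `L = L q` put `e = L ∘ (ρ h)⁻¹ ∘ F h ∘ L⁻¹`, `A i = L ∘ F (u q i) ∘ L⁻¹`,
`B i = L ∘ (ρ h)⁻¹ ∘ F (h * u q i * h⁻¹) ∘ ρ h ∘ L⁻¹`. `e - id` is flat at `0` by `P1`; `A i - tau i` is flat along
the ray by `P2`; `B i - tau i` is flat along the ray by (a), because `ρ h` maps the ray of `q` to the ray of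
`q'` and `(ρ h)⁻¹ ρ (h u h⁻¹) ρ h = ρ u`. Near `0`: `e ∘ A i = B i ∘ e`, because
`F h ∘ F u = F (h u h⁻¹) ∘ F h` near `0` (both give `(h u) • χ x`). Apply `ray_rigid`.
-/

open scoped ContDiff Topology

namespace LatLin.B

variable {E : Type*} [NormedAddCommGroup E] [InnerProductSpace ℝ E] [FiniteDimensional ℝ E]
  {Γ M : Type*} [Group Γ] [TopologicalSpace M] [MulAction Γ M]

private theorem F_tendsto {ρ : Γ →* (E ≃L[ℝ] E)} (D : LocData (M := M) ρ) (g : Γ) :
    Filter.Tendsto (D.F g) (𝓝 0) (𝓝 0) := by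
  have h := (D.F_smooth g).continuous.tendsto 0
  rwa [D.F_zero g] at h

private theorem ball_ev {ρ : Γ →* (E ≃L[ℝ] E)} (D : LocData (M := M) ρ) :
    ∀ᶠ x in 𝓝 (0 : E), x ∈ Metric.ball (0 : E) D.r0 :=
  Metric.ball_mem_nhds _ D.r0_pos

/-- near the fixed point the local maps compose as the group elements -/
theorem LocData.comp_near {ρ : Γ →* (E ≃L[ℝ] E)} (D : LocData (M := M) ρ) (g h : Γ) :
    ∀ᶠ x in 𝓝 (0 : E), D.F (g * h) x = D.F g (D.F h x) := by
  filter_upwards [D.F_act (g * h), D.F_act h, (F_tendsto D h).eventually (D.F_act g),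
    (F_tendsto D (g * h)).eventually (ball_ev D),
    ((F_tendsto D g).comp (F_tendsto D h)).eventually (ball_ev D)] with x h1 h2 h3 h4 h5
  apply D.inj h4 h5
  rw [← h1, mul_smul, h2, h3]
  rfl

theorem LocData.one_near {ρ : Γ →* (E ≃L[ℝ] E)} (D : LocData (M := M) ρ) :
    ∀ᶠ x in 𝓝 (0 : E), D.F 1 x = x := by
  filter_upwards [D.F_act 1, (F_tendsto D 1).eventually (ball_ev D), ball_ev D] with x h1 h2 h3
  apply D.inj h2 h3
  rw [← h1, one_smul]

private theorem rho_mul (ρ : Γ →* (E ≃L[ℝ] E)) (a b : Γ) (x : E) :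
    ρ (a * b) x = ρ a (ρ b x) := by
  rw [map_mul]
  rfl

private theorem rho_one (ρ : Γ →* (E ≃L[ℝ] E)) (x : E) : ρ 1 x = x := by
  rw [map_one]
  rfl

private theorem rho_inv (ρ : Γ →* (E ≃L[ℝ] E)) (a : Γ) (x : E) : ρ a⁻¹ (ρ a x) = x := by
  rw [← rho_mul, inv_mul_cancel, rho_one]

private theorem rho_inv' (ρ : Γ →* (E ≃L[ℝ] E)) (a : Γ) (x : E) : ρ a (ρ a⁻¹ x) = x := by
  rw [← rho_mul, mul_inv_cancel, rho_one]

private theorem ev_iff (Q : ℝ → Prop) : (∃ r : ℝ, 0 < r ∧ ∀ s : ℝ, 0 ≤ s → s < r → Q s) ↔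
    ∀ᶠ s in 𝓝[≥] (0 : ℝ), Q s := by
  constructor
  · rintro ⟨r, hr, h⟩
    filter_upwards [Ico_mem_nhdsGE hr] with s hs
    exact h s hs.1 hs.2
  · intro h
    obtain ⟨r, hr, h'⟩ := (mem_nhdsGE_iff_exists_Ico_subset).1 h
    exact ⟨r, hr, fun s hs hs' => h' ⟨hs, hs'⟩⟩

/-- the ray -/
private noncomputable def pt {k : ℕ} {ρ : Γ →* (E ≃L[ℝ] E)} (R : Rays k ρ) (q : R.ι) (s : ℝ) : E :=
  (R.L q).symm ((s, 0) : E0 k)

private theorem pt_cont {k : ℕ} {ρ : Γ →* (E ≃L[ℝ] E)} (R : Rays k ρ) (q : R.ι) :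
    Filter.Tendsto (pt R q) (𝓝[≥] (0 : ℝ)) (𝓝 0) := by
  have h1 : Continuous (pt R q) :=
    (R.L q).symm.continuous.comp (Continuous.prodMk continuous_id continuous_const)
  have h2 : pt R q 0 = 0 := by
    have : ((0, 0) : E0 k) = 0 := rfl
    rw [pt, this, map_zero]
  have h3 := h1.tendsto 0
  rw [h2] at h3
  exact h3.mono_left nhdsWithin_le_nhds

private theorem flat_congr {A F : Type*} [NormedAddCommGroup A] [NormedSpace ℝ A]
    [NormedAddCommGroup F] [NormedSpace ℝ F] {f g : A → F}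
    {x : A} (h : f =ᶠ[𝓝 x] g) (hf : FlatAt f x) : FlatAt g x := by
  rw [flatAt_iff] at hf ⊢
  exact fun m => (hf m).congr h

private theorem flat_val {A F : Type*} [NormedAddCommGroup A] [NormedSpace ℝ A]
    [NormedAddCommGroup F] [NormedSpace ℝ F] {f : A → F} {x : A}
    (hf : FlatAt f x) : f x = 0 := by
  have h := hf 0
  rw [← norm_eq_zero, norm_iteratedFDeriv_zero] at h
  exact norm_eq_zero.1 h

private theorem flat_comp {A B C : Type*} [NormedAddCommGroup A] [NormedSpace ℝ A]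
    [NormedAddCommGroup B] [NormedSpace ℝ B] [NormedAddCommGroup C] [NormedSpace ℝ C]
    {f : B → C} {g : A → B} {x : A} (hf : ContDiff ℝ ∞ f) (hg : ContDiff ℝ ∞ g)
    (h : FlatAt f (g x)) : FlatAt (fun z => f (g z)) x := by
  rw [flatAt_iff] at h ⊢
  exact fun m => Van.comp hf hg (h m)

private theorem flat_comp_sub {A B C : Type*} [NormedAddCommGroup A] [NormedSpace ℝ A]
    [NormedAddCommGroup B] [NormedSpace ℝ B] [NormedAddCommGroup C] [NormedSpace ℝ C]
    [FiniteDimensional ℝ B] [CompleteSpace C]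
    {f : B → C} {g h : A → B} {x : A} (hf : ContDiff ℝ ∞ f) (hg : ContDiff ℝ ∞ g)
    (hh : ContDiff ℝ ∞ h) (h' : FlatAt (fun z => g z - h z) x) :
    FlatAt (fun z => f (g z) - f (h z)) x := by
  rw [flatAt_iff] at h' ⊢
  exact fun m => Van.comp_sub hf hg hh (h' m)

private theorem flat_add {A C : Type*} [NormedAddCommGroup A] [NormedSpace ℝ A]
    [NormedAddCommGroup C] [NormedSpace ℝ C]
    {f g : A → C} {x : A} (hf : ContDiff ℝ ∞ f) (hg : ContDiff ℝ ∞ g)
    (h : FlatAt f x) (h' : FlatAt g x) : FlatAt (fun z => f z + g z) x := by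
  rw [flatAt_iff] at h h' ⊢
  exact fun m => Van.add hf hg (h m) (h' m)

private theorem flat_zero {A C : Type*} [NormedAddCommGroup A] [NormedSpace ℝ A]
    [NormedAddCommGroup C] [NormedSpace ℝ C] (x : A) : FlatAt (fun _ : A => (0 : C)) x := by
  intro j
  exact congrFun (iteratedFDeriv_zero_fun (𝕜 := ℝ) (E := A) (F := C) (n := j)) x

private theorem fix_pt {k : ℕ} {ρ : Γ →* (E ≃L[ℝ] E)} (R : Rays k ρ) (q : R.ι) (s : ℝ) {w : Γ}
    (hw : w ∈ Subgroup.closure (Set.range (R.u q))) : ρ w (pt R q s) = pt R q s := by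
  induction hw using Subgroup.closure_induction with
  | mem y hy =>
    obtain ⟨i, rfl⟩ := hy
    apply (R.L q).injective
    rw [R.act, pt, ContinuousLinearEquiv.apply_symm_apply]
    simp [tau]
  | one => exact rho_one ρ _
  | mul a b _ _ ha hb => rw [rho_mul, hb, ha]
  | inv a _ ha =>
    conv_lhs => rw [← ha]
    exact rho_inv ρ a _

private theorem sub_smooth {ρ : Γ →* (E ≃L[ℝ] E)} (D : LocData (M := M) ρ) (w : Γ) :
    ContDiff ℝ ∞ (fun x => D.F w x - ρ w x) := (D.F_smooth w).sub (ρ w).contDiff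

private theorem flat_word {k : ℕ} {ρ : Γ →* (E ≃L[ℝ] E)} (R : Rays k ρ)
    (D : LocData (M := M) ρ) (h2 : P2 R D) (q : R.ι) {w : Γ}
    (hw : w ∈ Subgroup.closure (Set.range (R.u q))) :
    ∀ᶠ s in 𝓝[≥] (0 : ℝ), FlatAt (fun x => D.F w x - ρ w x) (pt R q s) := by
  induction hw using Subgroup.closure_induction with
  | mem y hy =>
    obtain ⟨i, rfl⟩ := hy
    obtain ⟨r, hr, h⟩ := h2
    rw [← ev_iff]
    refine ⟨r, hr, fun s hs hs' => ?_⟩
    have h3 := h q (i, true) s hs hs'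
    exact h3
  | one =>
    filter_upwards [(pt_cont R q).eventually (LocData.one_near D).eventually_nhds] with s hs
    refine flat_congr (f := fun _ => (0 : E)) ?_ (flat_zero _)
    filter_upwards [hs] with x hx
    rw [hx, rho_one, sub_self]
  | mul a b ha' hb' ha hb =>
    filter_upwards [ha, hb, (pt_cont R q).eventually (LocData.comp_near D a b).eventually_nhds]
      with s h1 h2 h3
    have hb0 : D.F b (pt R q s) = pt R q s := by
      have h4 := flat_val h2
      rw [sub_eq_zero] at h4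
      rw [h4, fix_pt R q s hb']
    have e1 : FlatAt (fun x => (fun y => D.F a y - ρ a y) (D.F b x)) (pt R q s) := by
      refine flat_comp (sub_smooth D a) (D.F_smooth b) ?_
      rw [hb0]
      exact h1
    have e2 : FlatAt (fun x => ρ a (D.F b x) - ρ a (ρ b x)) (pt R q s) :=
      flat_comp_sub (ρ a).contDiff (D.F_smooth b) (ρ b).contDiff h2
    have e3 := flat_add ((sub_smooth D a).comp (D.F_smooth b))
      (((ρ a).contDiff.comp (D.F_smooth b)).sub ((ρ a).contDiff.comp (ρ b).contDiff)) e1 e2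
    refine flat_congr ?_ e3
    filter_upwards [h3] with x hx
    rw [hx, rho_mul]
    change (D.F a (D.F b x) - ρ a (D.F b x)) + (ρ a (D.F b x) - ρ a (ρ b x)) = _
    abel
  | inv a ha' ha =>
    have c1 := LocData.comp_near D a a⁻¹
    have c2 := LocData.comp_near D a⁻¹ a
    rw [mul_inv_cancel] at c1
    rw [inv_mul_cancel] at c2
    filter_upwards [ha, (pt_cont R q).eventually c1.eventually_nhds,
      (pt_cont R q).eventually c2.eventually_nhds,
      (pt_cont R q).eventually (LocData.one_near D).eventually_nhds] with s h1 h3 h4 h5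
    have ha0 : D.F a (pt R q s) = pt R q s := by
      have h6 := flat_val h1
      rw [sub_eq_zero] at h6
      rw [h6, fix_pt R q s ha']
    have ha1 : D.F a⁻¹ (pt R q s) = pt R q s := by
      have h6 := h4.self_of_nhds
      rw [h5.self_of_nhds, ha0] at h6
      exact h6.symm
    have e1 : FlatAt (fun y => ρ a⁻¹ (ρ a y) - ρ a⁻¹ (D.F a y)) (pt R q s) := by
      refine flat_comp_sub (ρ a⁻¹).contDiff (ρ a).contDiff (D.F_smooth a) ?_
      have e2 := flat_comp_sub (f := fun z : E => -z) contDiff_neg (D.F_smooth a)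
        (ρ a).contDiff h1
      refine flat_congr (Filter.Eventually.of_forall fun x => ?_) e2
      change -(D.F a x) - -(ρ a x) = ρ a x - D.F a x
      abel
    have e2 : FlatAt (fun x => (fun y => ρ a⁻¹ (ρ a y) - ρ a⁻¹ (D.F a y)) (D.F a⁻¹ x))
        (pt R q s) := by
      refine flat_comp (((ρ a⁻¹).contDiff.comp (ρ a).contDiff).sub
        ((ρ a⁻¹).contDiff.comp (D.F_smooth a))) (D.F_smooth a⁻¹) ?_
      rw [ha1]
      exact e1
    refine flat_congr ?_ e2
    filter_upwards [h3, h5] with x hx hx'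
    rw [rho_inv, ← hx, hx']

theorem p3 {k : ℕ} (hk : 1 ≤ k) {ρ : Γ →* (E ≃L[ℝ] E)} (R : Rays k ρ) (D : LocData (M := M) ρ)
    (h1 : P1 D) (h2 : P2 R D) (h : Γ) (q q' : R.ι)
    (hv : ∃ c : ℝ, 0 < c ∧
      ρ h ((R.L q).symm ((1, 0) : E0 k)) = c • (R.L q').symm ((1, 0) : E0 k))
    (hconj : ∀ i, h * R.u q i * h⁻¹ ∈ Subgroup.closure (Set.range (R.u q'))) :
    ∃ r : ℝ, 0 < r ∧ ∀ s : ℝ, 0 ≤ s → s < r →
      FlatAt (fun x => D.F h x - ρ h x) ((R.L q).symm ((s, 0) : E0 k)) := by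
  obtain ⟨c, hc, hc'⟩ := hv
  have hpt : ∀ s : ℝ, ρ h (pt R q s) = pt R q' (s * c) := by
    intro s
    have e1 : ((s, 0) : E0 k) = s • ((1, 0) : E0 k) := by
      ext <;> simp
    have e2 : ((s * c, 0) : E0 k) = (s * c) • ((1, 0) : E0 k) := by
      ext <;> simp
    rw [pt, pt, e1, e2, map_smul, map_smul, hc', map_smul, smul_smul]
  -- the words are flat
  have hw : ∀ᶠ s in 𝓝[≥] (0 : ℝ), ∀ i,
      FlatAt (fun x => D.F (h * R.u q i * h⁻¹) x - ρ (h * R.u q i * h⁻¹) x) (pt R q' (s * c)) := by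
    rw [Filter.eventually_all]
    intro i
    have h3 := flat_word R D h2 q' (hconj i)
    have ht : Filter.Tendsto (fun s : ℝ => s * c) (𝓝[≥] 0) (𝓝[≥] 0) := by
      refine tendsto_nhdsWithin_iff.2 ⟨?_, ?_⟩
      · have h4 : Filter.Tendsto (fun s : ℝ => s * c) (𝓝 0) (𝓝 (0 * c)) :=
          (continuous_id.mul continuous_const).tendsto 0
        rw [zero_mul] at h4
        exact h4.mono_left nhdsWithin_le_nhds
      · filter_upwards [self_mem_nhdsWithin] with s hs
        exact mul_nonneg hs hc.le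
    exact ht.eventually h3
  have hu : ∀ᶠ s in 𝓝[≥] (0 : ℝ), ∀ i,
      FlatAt (fun x => D.F (R.u q i) x - ρ (R.u q i) x) (pt R q s) := by
    rw [Filter.eventually_all]
    intro i
    exact flat_word R D h2 q (Subgroup.subset_closure ⟨i, rfl⟩)
  obtain ⟨r, hr, hrw⟩ := (ev_iff _).2 (hw.and hu)
  set L := R.L q with hL
  have sL : ContDiff ℝ ∞ (L : E → E0 k) := L.contDiff
  have sL' : ContDiff ℝ ∞ (L.symm : E0 k → E) := L.symm.contDiff
  have sρ : ∀ g : Γ, ContDiff ℝ ∞ (ρ g : E → E) := fun g => (ρ g).contDiff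
  have sT : ContDiff ℝ ∞ (fun y : E => L (ρ h⁻¹ y)) := sL.comp (sρ h⁻¹)
  have sS : ContDiff ℝ ∞ (fun x : E0 k => ρ h (L.symm x)) := (sρ h).comp sL'
  have sS' : ContDiff ℝ ∞ (fun y : E0 k => ρ h (L.symm y)) := sS
  have key := ray_rigid hk hr (fun i x => L (D.F (R.u q i) (L.symm x)))
    (fun i x => L (ρ h⁻¹ (D.F (h * R.u q i * h⁻¹) (ρ h (L.symm x)))))
    (fun i => sL.comp ((D.F_smooth _).comp sL'))
    (fun i => sT.comp ((D.F_smooth _).comp sS)) ?_ ?_
    (fun x => L (ρ h⁻¹ (D.F h (L.symm x)))) (sT.comp ((D.F_smooth h).comp sL')) ?_ ?_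
  · obtain ⟨r', hr', hf⟩ := key
    refine ⟨r', hr', fun s hs hs' => ?_⟩
    have e1 := hf s hs hs'
    have e2 : FlatAt (fun z => ρ h (L.symm (L (ρ h⁻¹ (D.F h (L.symm z))))) - ρ h (L.symm z))
        ((s, 0) : E0 k) :=
      flat_comp_sub (f := fun y : E0 k => ρ h (L.symm y))
        (g := fun z => L (ρ h⁻¹ (D.F h (L.symm z)))) (h := fun z => z) sS' (sT.comp ((D.F_smooth h).comp sL')) contDiff_id e1
    have e3 : FlatAt (fun y : E => (fun z => ρ h (L.symm (L (ρ h⁻¹ (D.F h (L.symm z))))) -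
        ρ h (L.symm z)) (L y)) (L.symm ((s, 0) : E0 k)) := by
      refine flat_comp ((sS'.comp (sT.comp ((D.F_smooth h).comp sL'))).sub sS') sL ?_
      rw [ContinuousLinearEquiv.apply_symm_apply]
      exact e2
    refine flat_congr (Filter.Eventually.of_forall fun y => ?_) e3
    change ρ h (L.symm (L (ρ h⁻¹ (D.F h (L.symm (L y)))))) - ρ h (L.symm (L y)) = _
    rw [ContinuousLinearEquiv.symm_apply_apply, ContinuousLinearEquiv.symm_apply_apply, rho_inv']
  · intro i s hs hs'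
    have e1 := (hrw s hs hs').2 i
    have e2 : FlatAt (fun y => L (D.F (R.u q i) y) - L (ρ (R.u q i) y)) (L.symm ((s, 0) : E0 k)) :=
      flat_comp_sub sL (D.F_smooth _) (sρ _) e1
    have e3 := flat_comp ((sL.comp (D.F_smooth _)).sub (sL.comp (sρ _))) sL' e2
    refine flat_congr (Filter.Eventually.of_forall fun x => ?_) e3
    change L (D.F (R.u q i) (L.symm x)) - L (ρ (R.u q i) (L.symm x)) = _
    rw [hL, R.act, ContinuousLinearEquiv.apply_symm_apply]
  · intro i s hs hs'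
    have e1 := (hrw s hs hs').1 i
    have e2 : FlatAt (fun y => L (ρ h⁻¹ (D.F (h * R.u q i * h⁻¹) y)) -
        L (ρ h⁻¹ (ρ (h * R.u q i * h⁻¹) y))) (pt R q' (s * c)) :=
      flat_comp_sub (f := fun y : E => L (ρ h⁻¹ y)) sT (D.F_smooth _) (sρ _) e1
    have e3 : FlatAt (fun x : E0 k => (fun y => L (ρ h⁻¹ (D.F (h * R.u q i * h⁻¹) y)) -
        L (ρ h⁻¹ (ρ (h * R.u q i * h⁻¹) y))) (ρ h (L.symm x))) ((s, 0) : E0 k) := by
      refine flat_comp ((sT.comp (D.F_smooth _)).sub (sT.comp (sρ _))) sS ?_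
      have e4 : ρ h (L.symm ((s, 0) : E0 k)) = pt R q' (s * c) := hpt s
      rw [e4]
      exact e2
    refine flat_congr (Filter.Eventually.of_forall fun x => ?_) e3
    change L (ρ h⁻¹ (D.F (h * R.u q i * h⁻¹) (ρ h (L.symm x)))) -
      L (ρ h⁻¹ (ρ (h * R.u q i * h⁻¹) (ρ h (L.symm x)))) = _
    rw [rho_mul ρ (h * R.u q i) h⁻¹, rho_inv, rho_mul ρ h, rho_inv]
    rw [hL, R.act, ContinuousLinearEquiv.apply_symm_apply]
  · have e1 : FlatAt (fun y => L (ρ h⁻¹ (D.F h y)) - L (ρ h⁻¹ (ρ h y))) 0 :=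
      flat_comp_sub (f := fun y : E => L (ρ h⁻¹ y)) sT (D.F_smooth _) (sρ _) (h1 h)
    have e3 : FlatAt (fun x : E0 k => (fun y => L (ρ h⁻¹ (D.F h y)) - L (ρ h⁻¹ (ρ h y)))
        (L.symm x)) 0 := by
      refine flat_comp ((sT.comp (D.F_smooth _)).sub (sT.comp (sρ _))) sL' ?_
      rw [map_zero]
      exact e1
    refine flat_congr (Filter.Eventually.of_forall fun x => ?_) e3
    change L (ρ h⁻¹ (D.F h (L.symm x))) - L (ρ h⁻¹ (ρ h (L.symm x))) = _
    rw [rho_inv, ContinuousLinearEquiv.apply_symm_apply]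
  · intro i
    have ht : Filter.Tendsto (L.symm : E0 k → E) (𝓝 0) (𝓝 0) := by
      have := L.symm.continuous.tendsto 0
      rwa [map_zero] at this
    have c1 := LocData.comp_near D h (R.u q i)
    have c2 := LocData.comp_near D (h * R.u q i * h⁻¹) h
    have c3 : h * R.u q i * h⁻¹ * h = h * R.u q i := by group
    rw [c3] at c2
    filter_upwards [ht.eventually c1, ht.eventually c2] with x hx1 hx2
    simp only [ContinuousLinearEquiv.symm_apply_apply]
    rw [← hx1, hx2, rho_inv']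

end LatLin.B
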