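import Pool.Agent.Lib.MP_2392aa_gt.B.GroupDefs
import Pool.Agent.Lib.MP_2392aa_gt.B.RayDefs

/-!
MODULE RayData. The unipotents of a finite index subgroup fixing a primitive vector.

PROOF. There is `N ≥ 1` with `γ ^ N ∈ Γ` for all `γ` (index of the normal core,
`Subgroup.pow_index_mem`). Let `g q = e_0`, `u i = g⁻¹ * transvection 0 i.succ N * g`
(`= (g⁻¹ * transvection 0 i.succ 1 * g)^N ∈ Γ`), `L x = ((g x) 0 / N, fun i => (g x) i.succ)`. Then
`L (u i x) = tau i (L x)`, `L (toE q) = (1/N, 0)`, and the transvections `0 ← i.succ` commute.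
As a matrix `u i = 1 + N • vecMulVec q l_i` with `l_i` = row `i.succ` of `g` (`g⁻¹ e_0 = q`,
`E_{0,i.succ} g` has only the row `0`, equal to the row `i.succ` of `g`), `l_i · q = 0`. The
product of `1 + N q ⊗ l` and `1 + N q ⊗ l'` is `1 + N q ⊗ (l + l')` when `l · q = 0`, so the
elements of this form are a subgroup, isomorphic to `{l : l · q = 0}` (`q ≠ 0`), and the `l_i` generate
`{l ∈ ℤ^n : l · q = 0}`: `l = (l g⁻¹) g`, the coordinate `0` of `l g⁻¹` is `l · (g⁻¹ e_0) = l · q = 0`.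
-/

open scoped ContDiff Topology

namespace LatLin.B

open Matrix in
private theorem core_mul {n : ℕ} (a b : ℤ) (q l l' : Fin n → ℤ) (h : ∑ i, l i * q i = 0) :
    ((1 : Matrix (Fin n) (Fin n) ℤ) + a • vecMulVec q l) * (1 + b • vecMulVec q l') =
      1 + a • vecMulVec q l + b • vecMulVec q l' := by
  have h1 : vecMulVec q l * vecMulVec q l' = 0 := by
    rw [vecMulVec_mul_vecMulVec]
    have h2 : l ⬝ᵥ q = 0 := h
    rw [h2, zero_smul, vecMulVec_zero]
  rw [mul_add, mul_one, add_mul, one_mul, smul_mul_smul_comm, h1, smul_zero, add_zero]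

open Matrix in
private def unip {n : ℕ} (N : ℤ) (q l : Fin n → ℤ) (h : ∑ i, l i * q i = 0) : SLZ n :=
  ⟨1 + N • vecMulVec q l, by
    have h1 := det_one_add_replicateCol_mul_replicateRow (ι := Unit) (N • q) l
    rw [← vecMulVec_eq, smul_vecMulVec] at h1
    have h2 : l ⬝ᵥ q = 0 := h
    rw [h1, dotProduct_smul, h2, smul_zero, add_zero]⟩

open Matrix in
private theorem unip_coe {n : ℕ} (N : ℤ) (q l : Fin n → ℤ) (h : ∑ i, l i * q i = 0) :
    (unip N q l h : Matrix (Fin n) (Fin n) ℤ) = 1 + N • vecMulVec q l := rfl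

open Matrix in
private theorem unip_pow {n : ℕ} (q l : Fin n → ℤ) (h : ∑ i, l i * q i = 0) (m : ℕ) :
    ((unip 1 q l h ^ m : SLZ n) : Matrix (Fin n) (Fin n) ℤ) = 1 + (m : ℤ) • vecMulVec q l := by
  induction m with
  | zero => simp
  | succ m ih =>
    rw [pow_succ, Matrix.SpecialLinearGroup.coe_mul, ih, unip_coe, core_mul _ _ _ _ _ h,
      add_assoc, ← add_smul]
    push_cast
    rfl

/-- the splitting of the first coordinate -/
private noncomputable def spl (k : ℕ) (c : ℝ) (hc : c ≠ 0) : EE (k + 1) ≃L[ℝ] E0 k :=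
  LinearEquiv.toContinuousLinearEquiv
    { toFun := fun x => (x 0 * c, fun i => x i.succ)
      map_add' := by
        intro x y
        refine Prod.ext ?_ ?_
        · change (x 0 + y 0) * c = x 0 * c + y 0 * c
          ring
        · rfl
      map_smul' := by
        intro t x
        refine Prod.ext ?_ ?_
        · change (t * x 0) * c = t * (x 0 * c)
          ring
        · rfl
      invFun := fun p => WithLp.toLp 2 (Fin.cons (p.1 / c) p.2)
      left_inv := by
        intro x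
        ext i
        refine Fin.cases ?_ ?_ i
        · change x 0 * c / c = x 0
          field_simp
        · intro j
          rfl
      right_inv := by
        intro p
        refine Prod.ext ?_ ?_
        · change p.1 / c * c = p.1
          field_simp
        · rfl }

private theorem spl_apply (k : ℕ) (c : ℝ) (hc : c ≠ 0) (x : EE (k + 1)) :
    spl k c hc x = (x 0 * c, fun i => x i.succ) := rfl

private theorem inv_coe_mul {n : ℕ} (g : SLZ n) :
    ((g⁻¹ : SLZ n) : Matrix (Fin n) (Fin n) ℤ) * (g : Matrix (Fin n) (Fin n) ℤ) = 1 := by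
  rw [← Matrix.SpecialLinearGroup.coe_mul, inv_mul_cancel, Matrix.SpecialLinearGroup.coe_one]

private theorem coe_mul_inv {n : ℕ} (g : SLZ n) :
    (g : Matrix (Fin n) (Fin n) ℤ) * ((g⁻¹ : SLZ n) : Matrix (Fin n) (Fin n) ℤ) = 1 := by
  rw [← Matrix.SpecialLinearGroup.coe_mul, mul_inv_cancel, Matrix.SpecialLinearGroup.coe_one]

open Matrix in
theorem ray_data {k : ℕ} (Γ : Subgroup (SLZ (k + 1))) [Γ.FiniteIndex] : ∃ N : ℕ, 0 < N ∧
    ∀ q : Fin (k + 1) → ℤ, Prim q → ∃ (L : EE (k + 1) ≃L[ℝ] E0 k) (u : Fin k → SLZ (k + 1))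
      (c : ℝ), 0 < c ∧ (∀ i, u i ∈ Γ) ∧ (∀ i j, u i * u j = u j * u i) ∧
      (∀ i x, L (rhoZ _ (u i) x) = tau i (L x)) ∧ L (toE q) = ((c, 0) : E0 k) ∧
      ∀ g : SLZ (k + 1), g ∈ Subgroup.closure (Set.range u) ↔
        ∃ l : Fin (k + 1) → ℤ, ∑ i, l i * q i = 0 ∧
          (g : Matrix (Fin (k + 1)) (Fin (k + 1)) ℤ) = 1 + (N : ℤ) • Matrix.vecMulVec q l := by
  set N : ℕ := Γ.normalCore.index with hN
  have hN0 : 0 < N := Nat.pos_of_ne_zero Subgroup.FiniteIndex.index_ne_zero
  have hNΓ : ∀ g : SLZ (k + 1), g ^ N ∈ Γ := fun g =>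
    Γ.normalCore_le (Subgroup.pow_index_mem _ g)
  refine ⟨N, hN0, ?_⟩
  intro q hq
  obtain ⟨g, hg⟩ := hq
  have hNR : (0 : ℝ) < N := by exact_mod_cast hN0
  -- the rows
  have hrow : ∀ i : Fin k, ∑ a, (g : Matrix (Fin (k + 1)) (Fin (k + 1)) ℤ) i.succ a * q a = 0 := by
    intro i
    have h := congrFun hg i.succ
    rw [Pi.single_eq_of_ne (Fin.succ_ne_zero i)] at h
    exact h
  set l : Fin k → Fin (k + 1) → ℤ := fun i a =>
    (g : Matrix (Fin (k + 1)) (Fin (k + 1)) ℤ) i.succ a with hl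
  set u : Fin k → SLZ (k + 1) := fun i => unip N q (l i) (hrow i) with hu
  have huc : ∀ i, (u i : Matrix (Fin (k + 1)) (Fin (k + 1)) ℤ) = 1 + (N : ℤ) • vecMulVec q (l i) :=
    fun i => rfl
  refine ⟨(rhoZ (k + 1) g).trans (spl k (1 / N) (by positivity)), u, 1 / N, by positivity,
    ?_, ?_, ?_, ?_, ?_⟩
  · intro i
    have h : u i = unip 1 q (l i) (hrow i) ^ N := by
      apply Subtype.ext
      rw [huc]
      exact (unip_pow q (l i) (hrow i) N).symm
    rw [h]
    exact hNΓ _
  · intro i j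
    apply Subtype.ext
    change (u i : Matrix (Fin (k + 1)) (Fin (k + 1)) ℤ) * (u j : Matrix _ _ ℤ) =
      (u j : Matrix (Fin (k + 1)) (Fin (k + 1)) ℤ) * (u i : Matrix _ _ ℤ)
    rw [huc, huc, core_mul _ _ _ _ _ (hrow i), core_mul _ _ _ _ _ (hrow j)]
    abel
  · intro i x
    have h1 : ∀ a, rhoZ (k + 1) g (rhoZ (k + 1) (u i) x) a =
        rhoZ (k + 1) g x a + (N : ℝ) * ((Pi.single 0 1 : Fin (k + 1) → ℤ) a : ℝ) *
          rhoZ (k + 1) g x i.succ := by
      intro a
      have h2 : rhoZ (k + 1) g (rhoZ (k + 1) (u i) x) = rhoZ (k + 1) (g * u i) x := by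
        rw [map_mul]
        rfl
      have h3 : ((g * u i : SLZ (k + 1)) : Matrix (Fin (k + 1)) (Fin (k + 1)) ℤ) =
          (g : Matrix _ _ ℤ) + (N : ℤ) • vecMulVec (Pi.single 0 1) (l i) := by
        rw [Matrix.SpecialLinearGroup.coe_mul, huc, mul_add, mul_one, Matrix.mul_smul,
          mul_vecMulVec]
        have : (g : Matrix (Fin (k + 1)) (Fin (k + 1)) ℤ) *ᵥ q = Pi.single 0 1 := hg
        rw [this]
      rw [h2, rhoZ_apply, rhoZ_apply, rhoZ_apply, Finset.mul_sum, ← Finset.sum_add_distrib]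
      refine Finset.sum_congr rfl fun b _ => ?_
      rw [h3]
      simp only [Matrix.add_apply, Matrix.smul_apply, vecMulVec_apply, smul_eq_mul]
      push_cast
      simp only [hl]
      ring
    rw [ContinuousLinearEquiv.trans_apply, ContinuousLinearEquiv.trans_apply, spl_apply,
      spl_apply]
    refine Prod.ext ?_ ?_
    · change rhoZ (k + 1) g (rhoZ (k + 1) (u i) x) 0 * (1 / (N : ℝ)) =
        rhoZ (k + 1) g x 0 * (1 / (N : ℝ)) + rhoZ (k + 1) g x i.succ
      rw [h1, Pi.single_eq_same]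
      push_cast
      field_simp
    · funext j
      change rhoZ (k + 1) g (rhoZ (k + 1) (u i) x) j.succ = rhoZ (k + 1) g x j.succ
      rw [h1, Pi.single_eq_of_ne (Fin.succ_ne_zero j)]
      push_cast
      ring
  · have h1 : ∀ a, rhoZ (k + 1) g (toE q) a = ((Pi.single 0 1 : Fin (k + 1) → ℤ) a : ℝ) := by
      intro a
      rw [rhoZ_apply]
      have h2 : (Pi.single 0 1 : Fin (k + 1) → ℤ) a =
          ∑ b, (g : Matrix (Fin (k + 1)) (Fin (k + 1)) ℤ) a b * q b := (congrFun hg a).symm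
      rw [h2]
      push_cast
      rfl
    rw [ContinuousLinearEquiv.trans_apply, spl_apply]
    refine Prod.ext ?_ ?_
    · change rhoZ (k + 1) g (toE q) 0 * (1 / (N : ℝ)) = 1 / N
      rw [h1, Pi.single_eq_same]
      push_cast
      ring
    · funext j
      change rhoZ (k + 1) g (toE q) j.succ = 0
      rw [h1, Pi.single_eq_of_ne (Fin.succ_ne_zero j)]
      push_cast
      rfl
  · intro x
    constructor
    · intro hx
      induction hx using Subgroup.closure_induction with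
      | mem y hy =>
        obtain ⟨i, rfl⟩ := hy
        exact ⟨l i, hrow i, rfl⟩
      | one => exact ⟨0, by simp, by simp⟩
      | mul a b _ _ ha hb =>
        obtain ⟨l1, h1, h1'⟩ := ha
        obtain ⟨l2, h2, h2'⟩ := hb
        refine ⟨l1 + l2, ?_, ?_⟩
        · simp only [Pi.add_apply, add_mul, Finset.sum_add_distrib, h1, h2, add_zero]
        · rw [Matrix.SpecialLinearGroup.coe_mul, h1', h2', core_mul _ _ _ _ _ h1, vecMulVec_add,
            smul_add, add_assoc]
      | inv a _ ha =>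
        obtain ⟨l1, h1, h1'⟩ := ha
        have hneg : ∑ i, (-l1) i * q i = 0 := by
          simp only [Pi.neg_apply, neg_mul, Finset.sum_neg_distrib, h1, neg_zero]
        refine ⟨-l1, hneg, ?_⟩
        have h3 : a * unip N q (-l1) hneg = 1 := by
          apply Subtype.ext
          rw [Matrix.SpecialLinearGroup.coe_mul, h1', unip_coe, core_mul _ _ _ _ _ h1,
            vecMulVec_neg, smul_neg, add_neg_cancel_right]
          rfl
        rw [← eq_inv_of_mul_eq_one_right h3]
        rfl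
    · rintro ⟨l0, h0, hx⟩
      let S : AddSubgroup (Fin (k + 1) → ℤ) :=
        { carrier := {m | ∑ i, m i * q i = 0 ∧ ∃ y ∈ Subgroup.closure (Set.range u),
            (y : Matrix (Fin (k + 1)) (Fin (k + 1)) ℤ) = 1 + (N : ℤ) • vecMulVec q m}
          zero_mem' := ⟨by simp, 1, one_mem _, by simp⟩
          add_mem' := by
            rintro a b ⟨ha, y, hy, hy'⟩ ⟨hb, z, hz, hz'⟩
            refine ⟨?_, y * z, mul_mem hy hz, ?_⟩
            · simp only [Pi.add_apply, add_mul, Finset.sum_add_distrib, ha, hb, add_zero]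
            · rw [Matrix.SpecialLinearGroup.coe_mul, hy', hz', core_mul _ _ _ _ _ ha,
                vecMulVec_add, smul_add, add_assoc]
          neg_mem' := by
            rintro a ⟨ha, y, hy, hy'⟩
            have hneg : ∑ i, (-a) i * q i = 0 := by
              simp only [Pi.neg_apply, neg_mul, Finset.sum_neg_distrib, ha, neg_zero]
            refine ⟨hneg, y⁻¹, inv_mem hy, ?_⟩
            have h3 : y * unip N q (-a) hneg = 1 := by
              apply Subtype.ext
              rw [Matrix.SpecialLinearGroup.coe_mul, hy', unip_coe, core_mul _ _ _ _ _ ha,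
                vecMulVec_neg, smul_neg, add_neg_cancel_right]
              rfl
            rw [← eq_inv_of_mul_eq_one_right h3]
            rfl }
      have hSl : ∀ i, l i ∈ S := fun i =>
        ⟨hrow i, u i, Subgroup.subset_closure ⟨i, rfl⟩, rfl⟩
      have hl0 : l0 ∈ S := by
        set gi : Matrix (Fin (k + 1)) (Fin (k + 1)) ℤ :=
          ((g⁻¹ : SLZ (k + 1)) : Matrix (Fin (k + 1)) (Fin (k + 1)) ℤ) with hgi
        have e1 : (l0 ᵥ* gi) ᵥ* (g : Matrix (Fin (k + 1)) (Fin (k + 1)) ℤ) = l0 := by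
          rw [vecMul_vecMul, inv_coe_mul, vecMul_one]
        have e2 : (l0 ᵥ* gi) 0 = 0 := by
          have e3 : q = gi *ᵥ Pi.single 0 1 := by
            have : (g : Matrix (Fin (k + 1)) (Fin (k + 1)) ℤ) *ᵥ q = Pi.single 0 1 := hg
            rw [← this, mulVec_mulVec, inv_coe_mul, one_mulVec]
          have e4 : l0 ⬝ᵥ q = 0 := h0
          rw [e3, dotProduct_mulVec, dotProduct_single, mul_one] at e4
          exact e4
        rw [← e1, vecMul_eq_sum, Fin.sum_univ_succ, e2, zero_smul, zero_add]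
        exact sum_mem fun i _ => zsmul_mem (hSl i) _
      obtain ⟨-, y, hy, hy'⟩ := hl0
      have : x = y := Subtype.ext (hx.trans hy'.symm)
      rw [this]
      exact hy

open Matrix in
/-- conjugation: `h (1 + N q ⊗ l) h⁻¹ = 1 + N (h q) ⊗ (l h⁻¹)` -/
theorem conj_unip {k : ℕ} (h g : SLZ (k + 1)) (N : ℤ) (q l : Fin (k + 1) → ℤ)
    (hl : ∑ i, l i * q i = 0)
    (hg : (g : Matrix (Fin (k + 1)) (Fin (k + 1)) ℤ) = 1 + N • Matrix.vecMulVec q l) :
    ∃ l' : Fin (k + 1) → ℤ, ∑ i, l' i * (actZ h q) i = 0 ∧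
      ((h * g * h⁻¹ : SLZ (k + 1)) : Matrix (Fin (k + 1)) (Fin (k + 1)) ℤ) =
        1 + N • Matrix.vecMulVec (actZ h q) l' := by
  refine ⟨l ᵥ* ((h⁻¹ : SLZ (k + 1)) : Matrix (Fin (k + 1)) (Fin (k + 1)) ℤ), ?_, ?_⟩
  · change (l ᵥ* ((h⁻¹ : SLZ (k + 1)) : Matrix (Fin (k + 1)) (Fin (k + 1)) ℤ)) ⬝ᵥ
      ((h : Matrix (Fin (k + 1)) (Fin (k + 1)) ℤ) *ᵥ q) = 0
    rw [dotProduct_mulVec, vecMul_vecMul, inv_coe_mul, vecMul_one]
    exact hl
  · rw [Matrix.SpecialLinearGroup.coe_mul, Matrix.SpecialLinearGroup.coe_mul, hg, mul_add, mul_one,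
      add_mul, coe_mul_inv, Matrix.mul_smul, Matrix.smul_mul, mul_vecMulVec, vecMulVec_mul]
    rfl

end LatLin.B
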