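import Pool.Agent.Lib.MP_2392aa_gt.B.GeoDefs
import Pool.Agent.Lib.MP_2392aa_gt.B.RayData
import Pool.Agent.Lib.MP_2392aa_gt.B.ContrB
import Pool.Agent.Lib.MP_2392aa_gt.B.P3

/-!
MODULE RaysEx. The rays of the short primitive vectors; property `Lin3` from `P1` and `P2`.

PROOF of `exists_raysB`. `ι = {v // Prim v ∧ ‖toE v‖ < R'}` (finite, `finite_short`), `ray_data` for `Γ`
(choose `L`, `u`; the `u i` are elements of the subgroup `Γ`; the closure statement is
transported to the subgroup type: `Subgroup.closure (Set.range u)` in `Γ` maps onto the closure in `SLZ`,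
`Subgroup.map` of the injective `Γ.subtype`, `MonoidHom.map_closure`). `dist`: `(L q).symm (1,0)` is
a positive multiple of `toE (vec q)`, `Prim.eq_of_smul`.
PROOF of `lin3_of_P2`. Given `γ`, `p`: `p = vec q`, `γ p = vec q'` (`surj`, `Prim.act`). `p3` for `h = γ`:
`hv`: `rhoZ γ (toE p) = toE (actZ γ p)` (`toE_actZ`) and `dir`; `hconj`: `R.u q i` is in the closure for `q`,
so of the form `1 + N vec q ⊗ l`; `conj_unip`; `clos q'`. Flatness at `(L q).symm (s, 0) = t • toE p` with
`s = t c`.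
-/

open scoped ContDiff Topology
open Metric

namespace LatLin.B

/-- the unit vector of the ray -/
private theorem symm_one {k : ℕ} (L : EE (k + 1) ≃L[ℝ] E0 k) {x : EE (k + 1)} {c : ℝ} (hc : 0 < c)
    (h : L x = ((c, 0) : E0 k)) (s : ℝ) : L.symm ((s, 0) : E0 k) = (s * c⁻¹) • x := by
  rw [ContinuousLinearEquiv.symm_apply_eq, map_smul, h]
  refine Prod.ext ?_ ?_
  · change s = s * c⁻¹ * c
    field_simp
  · change (0 : Fin k → ℝ) = (s * c⁻¹) • (0 : Fin k → ℝ)
    rw [smul_zero]

theorem exists_raysB {k : ℕ} (Γ : Subgroup (SLZ (k + 1))) [Γ.FiniteIndex] (R' : ℝ) :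
    Nonempty (RaysB k Γ R') := by
  obtain ⟨N, -, h⟩ := ray_data Γ
  choose L u c hc hu hcomm hact hL hclos using
    fun q : {v : Fin (k + 1) → ℤ // Prim v ∧ ‖toE v‖ < R'} => h q.1 q.2.1
  refine ⟨{ R := { ι := {v : Fin (k + 1) → ℤ // Prim v ∧ ‖toE v‖ < R'}
                   fin := ?_
                   L := L
                   u := fun q i => ⟨u q i, hu q i⟩
                   comm := fun q i j => Subtype.ext (hcomm q i j)
                   act := fun q i x => hact q i x
                   dist := ?_ }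
            N := N
            vec := fun q => q.1
            prim := fun q => q.2.1
            short := fun q => q.2.2
            surj := fun v hv hv' => ⟨⟨v, hv, hv'⟩, rfl⟩
            inj := Subtype.val_injective
            dir := fun q => ⟨c q, hc q, hL q⟩
            clos := ?_ }⟩
  · exact ((finite_short R').subset fun v hv => hv.2 : {v | Prim v ∧ ‖toE v‖ < R'}.Finite)
  · intro q q' d hd hqq
    rw [symm_one _ (hc q) (hL q), symm_one _ (hc q') (hL q'), smul_smul, one_mul, one_mul] at hqq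
    refine Subtype.ext (q.2.1.eq_of_smul q'.2.1 (c q * (d * (c q')⁻¹)) ?_ ?_)
    · have := hc q
      have := hc q'
      positivity
    · rw [← smul_smul, ← hqq, smul_smul, mul_inv_cancel₀ (hc q).ne', one_smul]
  · intro q g
    rw [← hclos q]
    have h1 : (Subgroup.closure (Set.range fun i => (⟨u q i, hu q i⟩ : Γ))).map Γ.subtype =
        Subgroup.closure (Set.range (u q)) := by
      rw [MonoidHom.map_closure, ← Set.range_comp]
      rfl
    rw [← h1]
    exact (Subgroup.mem_map_iff_mem Γ.subtype_injective).symm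

theorem lin3_of_P2 {k : ℕ} (hk : 1 ≤ k) (Γ : Subgroup (SLZ (k + 1))) [Γ.FiniteIndex] (R' : ℝ)
    (B : RaysB k Γ R') {M : Type*} [TopologicalSpace M] [MulAction Γ M]
    (D : LocData (M := M) (rhoG Γ)) (h1 : P1 D) (h2 : P2 B.R D) : Lin3 D R' := by
  intro γ p hp hpR hpR'
  obtain ⟨q, hq⟩ := B.surj p hp hpR
  obtain ⟨q', hq'⟩ := B.surj _ (hp.act (γ : SLZ (k + 1))) hpR'
  obtain ⟨c, hc, hL⟩ := B.dir q
  obtain ⟨c', hc', hL'⟩ := B.dir q'
  have hact : rhoG Γ γ (toE p) = toE (actZ (γ : SLZ (k + 1)) p) := (toE_actZ _ _).symm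
  have hv : ∃ c : ℝ, 0 < c ∧ rhoG Γ γ ((B.R.L q).symm ((1, 0) : E0 k)) =
      c • (B.R.L q').symm ((1, 0) : E0 k) := by
    refine ⟨c⁻¹ * c', by positivity, ?_⟩
    rw [symm_one _ hc hL, symm_one _ hc' hL', map_smul, hq, hq', hact, smul_smul]
    congr 1
    field_simp
  have hconj : ∀ i, γ * B.R.u q i * γ⁻¹ ∈ Subgroup.closure (Set.range (B.R.u q')) := by
    intro i
    obtain ⟨l, hl, hg⟩ := (B.clos q (B.R.u q i)).mp (Subgroup.subset_closure ⟨i, rfl⟩)
    obtain ⟨l', hl', hg'⟩ := conj_unip (γ : SLZ (k + 1)) _ _ _ l hl hg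
    rw [hq, ← hq'] at hl' hg'
    exact (B.clos q' _).mpr ⟨l', hl', hg'⟩
  obtain ⟨r, hr, hflat⟩ := p3 hk B.R D h1 h2 γ q q' hv hconj
  refine ⟨r / c, by positivity, fun t ht0 ht => ?_⟩
  have h3 := hflat (t * c) (by positivity) ((lt_div_iff₀ hc).mp ht)
  rw [symm_one _ hc hL, hq, mul_assoc, mul_inv_cancel₀ hc.ne', mul_one] at h3
  exact h3

end LatLin.B
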