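import Pool.Agent.Lib.MP_2392aa_gt.B.VanOps
import Pool.Agent.Lib.MP_2392aa_gt.B.Cover

/-!
MODULE HomFlat. Extension by zero of functions which are small to infinite order at a closed set.

PROOF of `ext_zero`. Induction on `m`. At `x ∈ K`: `‖f z‖ ≤ C ‖z - x‖^2` near `x` (order `m + 1 ≥ 2`
when `m ≥ 1`; for `m = 0` continuity only), so `f` has derivative `0` at `x`; outside `K` `fderiv f` is
`C^(m-1)` with the bounds `‖iteratedFDeriv j (fderiv f) x‖ = ‖iteratedFDeriv (j+1) f x‖`
(`norm_iteratedFDeriv_fderiv`) and it vanishes on `K`: apply the induction hypothesis to `fderiv f` with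
`m - 1`, then `contDiff_succ_iff_fderiv`. (`infDist` may be replaced by any `d x ≤ ‖x - z‖`, `z ∈ K`.)
PROOF of `hom_flat`. `K = {0}`; all derivatives of `η` of order `j` are `≤ C ‖x‖^(-j)` (`homog_bound`), those of
`f` are `≤ C_N ‖x‖^N` on the unit ball (`Van.bigO` for the function `iteratedFDeriv j f`), product rule
`norm_iteratedFDeriv_smul_le` on `{0}ᶜ` (locally). Multiply by a bump function to have global bounds, or
apply `ext_zero` locally. Flatness at `0`: all derivatives of order `j` are `O(‖x‖)`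
and continuous, so they vanish at `0`.
-/

open scoped ContDiff Topology

namespace LatLin.B

/-- a function which is smooth outside a closed set `K`, zero on `K`, with derivatives of order
`j ≤ m` bounded near `K` by `dist (x, K)^(m + 1 - j)`, is of class `C^m`, and its derivatives vanish on
`K` -/
theorem ext_zero {E F : Type*} [NormedAddCommGroup E] [NormedSpace ℝ E] [NormedAddCommGroup F]
    [NormedSpace ℝ F] {K : Set E} (hK : IsClosed K) (m : ℕ) {f : E → F}
    (hf : ∀ x, x ∉ K → ContDiffAt ℝ m f x) (h0 : ∀ x ∈ K, f x = 0)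
    (hb : ∀ x0 ∈ K, ∃ C : ℝ, ∀ᶠ x in 𝓝 x0, x ∉ K → ∀ j ≤ m,
      ‖iteratedFDeriv ℝ j f x‖ ≤ C * Metric.infDist x K ^ (m + 1 - j)) :
    ContDiff ℝ m f ∧ ∀ x ∈ K, ∀ j ≤ m, iteratedFDeriv ℝ j f x = 0 := by
  -- bound near a point of `K`
  have hb' : ∀ j ≤ m, (∀ x ∈ K, iteratedFDeriv ℝ j f x = 0) → ∀ x0 ∈ K, ∃ C : ℝ, ∀ᶠ x in 𝓝 x0,
      ‖iteratedFDeriv ℝ j f x‖ ≤ C * ‖x - x0‖ ^ (m + 1 - j) := by
    intro j hj hz x0 hx0
    obtain ⟨C, hC⟩ := hb x0 hx0
    refine ⟨|C|, ?_⟩
    filter_upwards [hC] with x hx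
    by_cases hxK : x ∈ K
    · rw [hz x hxK, norm_zero]
      positivity
    · have h1 := hx hxK j hj
      have h2 : Metric.infDist x K ≤ ‖x - x0‖ := by
        rw [← dist_eq_norm]
        exact Metric.infDist_le_dist_of_mem hx0
      have h3 : Metric.infDist x K ^ (m + 1 - j) ≤ ‖x - x0‖ ^ (m + 1 - j) :=
        pow_le_pow_left₀ Metric.infDist_nonneg h2 _
      calc ‖iteratedFDeriv ℝ j f x‖ ≤ C * Metric.infDist x K ^ (m + 1 - j) := h1
        _ ≤ |C| * Metric.infDist x K ^ (m + 1 - j) :=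
            mul_le_mul_of_nonneg_right (le_abs_self C) (pow_nonneg Metric.infDist_nonneg _)
        _ ≤ |C| * ‖x - x0‖ ^ (m + 1 - j) := mul_le_mul_of_nonneg_left h3 (abs_nonneg C)
  have hfd : ∀ j < m, (∀ x ∈ K, iteratedFDeriv ℝ j f x = 0) → ∀ x0 ∈ K,
      HasFDerivAt (iteratedFDeriv ℝ j f) (0 : E →L[ℝ] (E [×j]→L[ℝ] F)) x0 := by
    intro j hj hz x0 hx0
    obtain ⟨C, hC⟩ := hb' j hj.le hz x0 hx0
    refine Asymptotics.IsBigO.hasFDerivAt (n := m + 1 - j) ?_ (by omega)
    refine Asymptotics.IsBigO.of_bound C ?_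
    filter_upwards [hC] with x hx
    rwa [norm_pow, norm_norm]
  have hz : ∀ j ≤ m, ∀ x ∈ K, iteratedFDeriv ℝ j f x = 0 := by
    intro j
    induction j with
    | zero =>
      intro _ x hx
      rw [← norm_eq_zero, norm_iteratedFDeriv_zero, h0 x hx, norm_zero]
    | succ j ih =>
      intro hj x hx
      have h1 := (hfd j (by omega) (ih (by omega)) x hx).fderiv
      have h2 : ‖fderiv ℝ (iteratedFDeriv ℝ j f) x‖ = 0 := by
        rw [h1]
        exact norm_zero (E := E →L[ℝ] (E [×j]→L[ℝ] F))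
      rw [← norm_eq_zero, ← norm_fderiv_iteratedFDeriv]
      exact h2
  refine ⟨?_, fun x hx j hj => hz j hj x hx⟩
  have key : ContDiff ℝ ((m : ℕ∞) : WithTop ℕ∞) f := by
    rw [contDiff_iff_continuous_differentiable]
    constructor
    · intro j hj
      have hj' : j ≤ m := by exact_mod_cast hj
      rw [continuous_iff_continuousAt]
      intro x
      by_cases hx : x ∈ K
      · obtain ⟨C, hC⟩ := hb' j hj' (hz j hj') x hx
        have h1 : Filter.Tendsto (fun y => C * ‖y - x‖ ^ (m + 1 - j)) (𝓝 x) (𝓝 0) := by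
          have h2 : Continuous (fun y : E => C * ‖y - x‖ ^ (m + 1 - j)) := by fun_prop
          have h3 := h2.tendsto x
          have h4 : m + 1 - j ≠ 0 := by omega
          simpa [h4] using h3
        have h5 : Filter.Tendsto (iteratedFDeriv ℝ j f) (𝓝 x) (𝓝 0) :=
          squeeze_zero_norm' hC h1
        have h6 : Filter.Tendsto (iteratedFDeriv ℝ j f) (𝓝 x) (𝓝 (iteratedFDeriv ℝ j f x)) := by
          rw [hz j hj' x hx]
          exact h5
        exact h6
      · have h1 : ContDiffAt ℝ 0 (iteratedFDeriv ℝ j f) x :=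
          (hf x hx).iteratedFDeriv_right (by rw [zero_add]; exact_mod_cast hj')
        exact h1.continuousAt
    · intro j hj
      have hj' : j < m := by exact_mod_cast hj
      intro x
      by_cases hx : x ∈ K
      · exact (hfd j hj' (hz j hj'.le) x hx).differentiableAt
      · exact (hf x hx).differentiableAt_iteratedFDeriv (by exact_mod_cast hj')
  exact key

private theorem flat_all {E F : Type*} [NormedAddCommGroup E] [NormedSpace ℝ E]
    [FiniteDimensional ℝ E] [NormedAddCommGroup F] [NormedSpace ℝ F] {f : E → F}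
    (hf : ContDiff ℝ ∞ f) (h0 : FlatAt f 0) (N l : ℕ) :
    ∃ C : ℝ, 0 ≤ C ∧ ∀ x : E, ‖x‖ ≤ 1 → ‖iteratedFDeriv ℝ l f x‖ ≤ C * ‖x‖ ^ N := by
  induction N generalizing l with
  | zero =>
    have hc : Continuous (iteratedFDeriv ℝ l f) :=
      hf.continuous_iteratedFDeriv (by exact_mod_cast le_top)
    obtain ⟨C, hC⟩ := (isCompact_closedBall (0 : E) 1).exists_bound_of_continuousOn
      hc.continuousOn
    refine ⟨|C|, abs_nonneg _, fun x hx => ?_⟩
    rw [pow_zero, mul_one]
    exact (hC x (mem_closedBall_zero_iff.2 hx)).trans (le_abs_self C)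
  | succ N ih =>
    obtain ⟨C, hC0, hC⟩ := ih (l + 1)
    refine ⟨C, hC0, fun x hx => ?_⟩
    have hd : ∀ y ∈ Metric.closedBall (0 : E) ‖x‖, DifferentiableAt ℝ (iteratedFDeriv ℝ l f) y := by
      intro y _
      refine (hf.differentiable_iteratedFDeriv ?_) y
      exact_mod_cast ENat.natCast_lt_top l
    have hbd : ∀ y ∈ Metric.closedBall (0 : E) ‖x‖,
        ‖fderiv ℝ (iteratedFDeriv ℝ l f) y‖ ≤ C * ‖x‖ ^ N := by
      intro y hy
      rw [mem_closedBall_zero_iff] at hy
      rw [norm_fderiv_iteratedFDeriv]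
      exact (hC y (hy.trans hx)).trans
        (mul_le_mul_of_nonneg_left (pow_le_pow_left₀ (norm_nonneg _) hy _) hC0)
    have h1 := (convex_closedBall (0 : E) ‖x‖).norm_image_sub_le_of_norm_fderiv_le hd hbd
      (Metric.mem_closedBall_self (norm_nonneg x)) (mem_closedBall_zero_iff.2 le_rfl)
    rw [h0 l, sub_zero, sub_zero] at h1
    rw [pow_succ, ← mul_assoc]
    exact h1

theorem hom_flat {E F : Type*} [NormedAddCommGroup E] [NormedSpace ℝ E] [FiniteDimensional ℝ E]
    [NormedAddCommGroup F] [NormedSpace ℝ F] [CompleteSpace F] {η : E → ℝ} {f : E → F}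
    (hη : ContDiffOn ℝ ∞ η {0}ᶜ) (hh : ∀ x, ∀ t : ℝ, 0 < t → η (t • x) = η x)
    (hf : ContDiff ℝ ∞ f) (h0 : FlatAt f 0) :
    ContDiff ℝ ∞ (fun x => η x • f x) ∧ FlatAt (fun x => η x • f x) 0 := by
  have hopen : IsOpen ({0}ᶜ : Set E) := isOpen_compl_singleton
  have hf00 : f 0 = 0 := by
    have h1 := h0 0
    rw [← norm_eq_zero, norm_iteratedFDeriv_zero, norm_eq_zero] at h1
    exact h1
  have key : ∀ m : ℕ, ContDiff ℝ m (fun x => η x • f x) ∧
      ∀ x ∈ ({0} : Set E), ∀ j ≤ m, iteratedFDeriv ℝ j (fun x => η x • f x) x = 0 := by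
    intro m
    refine ext_zero isClosed_singleton m ?_ ?_ ?_
    · intro x hx
      have h1 : ContDiffAt ℝ ∞ η x := hη.contDiffAt (hopen.mem_nhds hx)
      exact (h1.smul hf.contDiffAt).of_le (by exact_mod_cast le_top)
    · intro x hx
      rw [Set.mem_singleton_iff] at hx
      rw [hx, hf00, smul_zero]
    · intro x0 hx0
      rw [Set.mem_singleton_iff] at hx0
      subst hx0
      choose A hA using fun i => homog_bound η hη hh i
      choose B hB0 hB using fun l => flat_all hf h0 (m + 1) l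
      have hA' : ∀ i, ∀ x : E, x ≠ 0 → ‖iteratedFDeriv ℝ i η x‖ * ‖x‖ ^ i ≤ |A i| :=
        fun i x hx => (hA i x hx).trans (le_abs_self _)
      refine ⟨∑ j ∈ Finset.range (m + 1), ∑ i ∈ Finset.range (j + 1),
        (j.choose i : ℝ) * |A i| * B (j - i), ?_⟩
      have hball : ∀ᶠ x in 𝓝 (0 : E), ‖x‖ ≤ 1 := by
        filter_upwards [Metric.closedBall_mem_nhds (0 : E) one_pos] with x hx
        exact mem_closedBall_zero_iff.1 hx
      filter_upwards [hball] with x hx1 hx0 j hj
      have hxne : x ≠ 0 := hx0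
      have hxp : 0 < ‖x‖ := norm_pos_iff.2 hxne
      rw [Metric.infDist_singleton, dist_zero_right]
      have hle := norm_iteratedFDerivWithin_smul_le (n := j) (N := ∞) (s := ({0}ᶜ : Set E)) hη
        hf.contDiffOn hopen.uniqueDiffOn hx0 (by exact_mod_cast le_top)
      rw [iteratedFDerivWithin_of_isOpen j hopen hx0] at hle
      have hterm : ∀ i ∈ Finset.range (j + 1), (j.choose i : ℝ) *
          ‖iteratedFDerivWithin ℝ i η {0}ᶜ x‖ * ‖iteratedFDerivWithin ℝ (j - i) f {0}ᶜ x‖ ≤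
          ((j.choose i : ℝ) * |A i| * B (j - i)) * ‖x‖ ^ (m + 1 - j) := by
        intro i hi
        rw [Finset.mem_range] at hi
        rw [iteratedFDerivWithin_of_isOpen i hopen hx0,
          iteratedFDerivWithin_of_isOpen (j - i) hopen hx0]
        have h1 := hA' i x hxne
        have h2 := hB (j - i) x hx1
        have h3 : ‖x‖ ^ (m + 1) = ‖x‖ ^ i * ‖x‖ ^ (m + 1 - i) := by
          rw [← pow_add]; congr 1; omega
        have h4 : ‖x‖ ^ (m + 1 - i) ≤ ‖x‖ ^ (m + 1 - j) :=
          pow_le_pow_of_le_one hxp.le hx1 (by omega)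
        have h5 : ‖iteratedFDeriv ℝ i η x‖ * ‖iteratedFDeriv ℝ (j - i) f x‖ ≤
            |A i| * (B (j - i) * ‖x‖ ^ (m + 1 - j)) := by
          calc ‖iteratedFDeriv ℝ i η x‖ * ‖iteratedFDeriv ℝ (j - i) f x‖
              ≤ ‖iteratedFDeriv ℝ i η x‖ * (B (j - i) * ‖x‖ ^ (m + 1)) :=
                mul_le_mul_of_nonneg_left h2 (norm_nonneg _)
            _ = (‖iteratedFDeriv ℝ i η x‖ * ‖x‖ ^ i) * (B (j - i) * ‖x‖ ^ (m + 1 - i)) := by
                rw [h3]; ring
            _ ≤ |A i| * (B (j - i) * ‖x‖ ^ (m + 1 - j)) := by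
                refine mul_le_mul h1 (mul_le_mul_of_nonneg_left h4 (hB0 _)) ?_ (abs_nonneg _)
                exact mul_nonneg (hB0 _) (by positivity)
        calc (j.choose i : ℝ) * ‖iteratedFDeriv ℝ i η x‖ * ‖iteratedFDeriv ℝ (j - i) f x‖
            = (j.choose i : ℝ) * (‖iteratedFDeriv ℝ i η x‖ * ‖iteratedFDeriv ℝ (j - i) f x‖) := by
              ring
          _ ≤ (j.choose i : ℝ) * (|A i| * (B (j - i) * ‖x‖ ^ (m + 1 - j))) :=
              mul_le_mul_of_nonneg_left h5 (by positivity)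
          _ = _ := by ring
      have hsum := hle.trans (Finset.sum_le_sum hterm)
      rw [← Finset.sum_mul] at hsum
      refine hsum.trans (mul_le_mul_of_nonneg_right ?_ (by positivity))
      refine Finset.single_le_sum (f := fun j => ∑ i ∈ Finset.range (j + 1),
        (j.choose i : ℝ) * |A i| * B (j - i)) (fun j _ => ?_) (Finset.mem_range.2 (by omega))
      exact Finset.sum_nonneg fun i _ => mul_nonneg (by positivity) (hB0 _)
  exact ⟨contDiff_infty.2 fun m => (key m).1, fun j => (key j).2 0 rfl j le_rfl⟩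

end LatLin.B
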