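import Pool.Agent.Lib.MP_2392aa_gt.B.RayPol

/-!
MODULE RayBorel. Borel's lemma along the ray.

PROOF. Let `χ : (Fin k → ℝ) → ℝ` be smooth with compact support, equal to one near `0`
(`ContDiffBump`), and `u_m x = χ (δ_m⁻¹ • x.2) * (V m).fn x`, `0 < δ_m ≤ 1`. All derivatives of `u_m` of
order `j ≤ m` are bounded by `C_(m,j) δ_m^(m+1-j)` (the coefficients of `V m` have compact support in
`s`, on the support of `u_m` one has `‖y‖ ≤ R δ_m`, the derivatives of order `i` of `(V m).fn` are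
`≤ C ‖y‖^(m+1-i)`), so for `δ_m` small `‖iteratedFDeriv ℝ j u_m x‖ ≤ 2^(-m)` for all `j ≤ m`. Hence
`v = ∑' m, u_m` is smooth (`contDiff_tsum_of_eventually`) and can be differentiated term by term
(`iteratedFDeriv_tsum` for the tail). Near `(s, 0)`: `u_m = (V m).fn` for each fixed `m`, and the tail
`∑_(m ≥ M) u_m` has zero derivatives of order `≤ M` at `(s,0)` since `(V m).fn` vanishes to order `m+1`.
Flatness at `0`: `D^j v (0) = ∑ D^j u_m (0) = 0` (`PolFam.flatfn`).
-/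

open scoped ContDiff Topology

namespace LatLin.B

private theorem rb_fn_eq {k m : ℕ} (P : PolFam k m) (x : E0 k) :
    P.fn x = ∑ a ∈ Finset.finsuppAntidiag (Finset.univ : Finset (Fin k)) m,
      MvPolynomial.coeff a (P.c x.1) * ∏ i, x.2 i ^ a i := by
  unfold PolFam.fn
  rw [MvPolynomial.eval_eq']
  refine Finset.sum_subset ?_ ?_
  · intro a ha
    rw [Finset.mem_finsuppAntidiag]
    refine ⟨?_, Finset.subset_univ _⟩
    have h1 := (P.hom x.1) (MvPolynomial.mem_support_iff.mp ha)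
    rw [← h1, Finsupp.weight_apply, Finsupp.sum_fintype _ _ (by simp)]
    simp
  · intro a _ ha
    rw [MvPolynomial.notMem_support_iff.mp ha, zero_mul]

private theorem rb_fn_scale {k m : ℕ} (P : PolFam k m) (s t : ℝ) (y : Fin k → ℝ) :
    P.fn ((s, t • y) : E0 k) = t ^ m * P.fn ((s, y) : E0 k) := by
  rw [rb_fn_eq, rb_fn_eq, Finset.mul_sum]
  refine Finset.sum_congr rfl fun a ha => ?_
  rw [Finset.mem_finsuppAntidiag] at ha
  have h1 : ∏ i, (t • y) i ^ a i = t ^ m * ∏ i, y i ^ a i := by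
    simp only [Pi.smul_apply, smul_eq_mul, mul_pow]
    rw [Finset.prod_mul_distrib, Finset.prod_pow_eq_pow_sum, ha.1]
  show MvPolynomial.coeff a (P.c s) * ∏ i, (t • y) i ^ a i =
    t ^ m * (MvPolynomial.coeff a (P.c s) * ∏ i, y i ^ a i)
  rw [h1]
  ring

/-- bound of the derivatives of a smooth function with compact support -/
private theorem rb_bd {k : ℕ} {f : E0 k → ℝ} (hf : ContDiff ℝ ∞ f) (hs : HasCompactSupport f)
    (j : ℕ) : ∃ B : ℝ, 1 ≤ B ∧ ∀ i ≤ j, ∀ y, ‖iteratedFDeriv ℝ i f y‖ ≤ B := by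
  have h1 : ∀ i : ℕ, ∃ C : ℝ, ∀ y, ‖iteratedFDeriv ℝ i f y‖ ≤ C := by
    intro i
    have hc : Continuous (iteratedFDeriv ℝ i f) :=
      hf.continuous_iteratedFDeriv (by exact_mod_cast le_top)
    exact hc.bounded_above_of_compact_support (hs.iteratedFDeriv i)
  choose C hC using h1
  refine ⟨1 + ∑ i ∈ Finset.range (j + 1), |C i|, ?_, ?_⟩
  · have : 0 ≤ ∑ i ∈ Finset.range (j + 1), |C i| := Finset.sum_nonneg fun i _ => abs_nonneg _
    linarith
  · intro i hi y
    have h2 : |C i| ≤ ∑ i ∈ Finset.range (j + 1), |C i| :=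
      Finset.single_le_sum (f := fun i => |C i|) (fun i _ => abs_nonneg _)
        (Finset.mem_range.2 (by omega))
    have h3 := hC i y
    have h4 := le_abs_self (C i)
    linarith

/-- the scaling in the direction `y` -/
private noncomputable def rbL (k : ℕ) (c : ℝ) : E0 k →L[ℝ] E0 k :=
  (ContinuousLinearMap.fst ℝ ℝ (Fin k → ℝ)).prod (c • ContinuousLinearMap.snd ℝ ℝ (Fin k → ℝ))

private theorem rbL_apply {k : ℕ} (c : ℝ) (x : E0 k) : rbL k c x = (x.1, c • x.2) := rfl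

private theorem rbL_norm {k : ℕ} {c : ℝ} (hc : 1 ≤ c) : ‖rbL k c‖ ≤ c := by
  refine ContinuousLinearMap.opNorm_le_bound _ (by linarith) fun x => ?_
  rw [rbL_apply, Prod.norm_def, norm_smul, Real.norm_of_nonneg (by linarith : (0 : ℝ) ≤ c)]
  refine max_le ?_ ?_
  · have h1 : ‖x.1‖ ≤ ‖x‖ := norm_fst_le x
    nlinarith [norm_nonneg x]
  · exact mul_le_mul_of_nonneg_left (norm_snd_le x) (by linarith)

/-- bounded coefficients: a family with compact support is bounded by the homogeneous norm -/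
private theorem rb_hom {k m : ℕ} (P : PolFam k m) (R : ℝ)
    (hsupp : ∀ s, (s ≤ 0 ∨ R ≤ s) → P.c s = 0) :
    ∃ B : ℝ, 0 ≤ B ∧ ∀ x : E0 k, ‖P.fn x‖ ≤ B * ‖x.2‖ ^ m := by
  obtain ⟨C, hC⟩ := ((isCompact_Icc (a := (0 : ℝ)) (b := R)).prod
    (isCompact_closedBall (0 : Fin k → ℝ) 1)).exists_bound_of_continuousOn
    (f := P.fn) P.fn_smooth.continuous.continuousOn
  refine ⟨|C|, abs_nonneg _, fun x => ?_⟩
  obtain ⟨s, y⟩ := x
  by_cases hs : s ≤ 0 ∨ R ≤ s
  · have h1 : P.fn ((s, y) : E0 k) = 0 := by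
      unfold PolFam.fn
      rw [hsupp s hs, map_zero]
    rw [h1, norm_zero]
    positivity
  · rw [not_or, not_le, not_le] at hs
    have hsI : s ∈ Set.Icc (0 : ℝ) R := ⟨hs.1.le, hs.2.le⟩
    by_cases hy : y = 0
    · subst hy
      have h1 := rb_fn_scale P s 0 0
      rw [smul_zero] at h1
      rcases Nat.eq_zero_or_pos m with rfl | hm
      · rw [pow_zero, mul_one]
        exact (hC ((s, 0) : E0 k) ⟨hsI, by simp⟩).trans (le_abs_self _)
      · rw [zero_pow hm.ne', zero_mul] at h1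
        rw [h1, norm_zero]
        positivity
    · have hn : ‖y‖ ≠ 0 := norm_ne_zero_iff.2 hy
      have h1 := rb_fn_scale P s ‖y‖ (‖y‖⁻¹ • y)
      rw [smul_smul, mul_inv_cancel₀ hn, one_smul] at h1
      have h2 := hC ((s, ‖y‖⁻¹ • y) : E0 k) ⟨hsI, by
        rw [mem_closedBall_zero_iff, norm_smul, norm_inv, norm_norm, inv_mul_cancel₀ hn]⟩
      rw [h1, norm_mul, norm_pow, norm_norm, mul_comm]
      exact mul_le_mul_of_nonneg_right (h2.trans (le_abs_self _)) (by positivity)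

theorem borel_ray {k : ℕ} (R : ℝ) (V : ∀ m : ℕ, PolFam k (m + 1))
    (hsupp : ∀ m s, (s ≤ 0 ∨ R ≤ s) → (V m).c s = 0)
    (hflat : ∀ m a, FlatAt (fun s : ℝ => MvPolynomial.coeff a ((V m).c s)) 0) :
    ∃ v : E0 k → ℝ, ContDiff ℝ ∞ v ∧ FlatAt v 0 ∧ ∀ (M : ℕ) (s : ℝ),
      Van (M + 1) (fun x => v x - ∑ m ∈ Finset.range M, (V m).fn x) ((s, 0) : E0 k) := by
  let b : ContDiffBump (0 : Fin k → ℝ) := ⟨1, 2, one_pos, one_lt_two⟩
  have hb1 : b.rIn = 1 := rfl
  have hb2 : b.rOut = 2 := rfl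
  have hbs : ContDiff ℝ ∞ (fun y => b y) := b.contDiff
  let q : ℕ → E0 k → ℝ := fun j x => b x.2 * (V j).fn x
  have hq : ∀ j, ContDiff ℝ ∞ (q j) := fun j => (hbs.comp contDiff_snd).mul (V j).fn_smooth
  have hqs : ∀ j, HasCompactSupport (q j) := by
    intro j
    refine HasCompactSupport.intro ((isCompact_Icc (a := (0 : ℝ)) (b := R)).prod
      (isCompact_closedBall (0 : Fin k → ℝ) 2)) fun x hx => ?_
    obtain ⟨s, y⟩ := x
    simp only [q]
    by_cases hs : s ≤ 0 ∨ R ≤ s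
    · have h1 : (V j).fn ((s, y) : E0 k) = 0 := by
        unfold PolFam.fn
        rw [hsupp j s hs, map_zero]
      rw [h1, mul_zero]
    · rw [not_or, not_le, not_le] at hs
      have h2 : b y = 0 := by
        apply b.zero_of_le_dist
        rw [hb2]
        by_contra hcon
        rw [not_le] at hcon
        exact hx ⟨⟨hs.1.le, hs.2.le⟩, Metric.mem_closedBall.2 hcon.le⟩
      rw [h2, zero_mul]
  choose B hB1 hB using fun j => rb_bd (hq j) (hqs j) j
  choose B' hB'0 hB' using fun j => rb_hom (V j) R (hsupp j)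
  let ε : ℕ → ℝ := fun j => min ((2 ^ j * B j)⁻¹) ((4 ^ j * (B' j + 1))⁻¹)
  have hBp : ∀ j, 0 < B j := fun j => lt_of_lt_of_le one_pos (hB1 j)
  have hBp' : ∀ j, 0 < B' j + 1 := fun j => by have := hB'0 j; linarith
  have hε0 : ∀ j, 0 < ε j := fun j => by
    have h1 := hBp j
    have h2 := hBp' j
    exact lt_min (by positivity) (by positivity)
  have hε1 : ∀ j, ε j * B j ≤ (1 / 2) ^ j := fun j => by
    have h1 := hBp j
    calc ε j * B j ≤ (2 ^ j * B j)⁻¹ * B j :=
          mul_le_mul_of_nonneg_right (min_le_left _ _) h1.le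
      _ = (1 / 2) ^ j := by
          rw [mul_inv, mul_assoc, inv_mul_cancel₀ h1.ne', mul_one, one_div, inv_pow]
  have hε2 : ∀ j, ε j * (B' j) ≤ (1 / 4) ^ j := fun j => by
    have h1 := hBp' j
    calc ε j * B' j ≤ ε j * (B' j + 1) :=
          mul_le_mul_of_nonneg_left (by linarith) (hε0 j).le
      _ ≤ (4 ^ j * (B' j + 1))⁻¹ * (B' j + 1) :=
          mul_le_mul_of_nonneg_right (min_le_right _ _) h1.le
      _ = (1 / 4) ^ j := by
          rw [mul_inv, mul_assoc, inv_mul_cancel₀ h1.ne', mul_one, one_div, inv_pow]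
  have hεle : ∀ j, ε j ≤ 1 := fun j => by
    have h1 := hε1 j
    have h2 : ((1 : ℝ) / 2) ^ j ≤ 1 := pow_le_one₀ (by norm_num) (by norm_num)
    nlinarith [hε0 j, hB1 j]
  have hεi : ∀ j, 1 ≤ (ε j)⁻¹ := fun j => (one_le_inv₀ (hε0 j)).2 (hεle j)
  let u : ℕ → E0 k → ℝ := fun j x => b ((ε j)⁻¹ • x.2) * (V j).fn x
  have hu : ∀ j, u j = fun x => (ε j) ^ (j + 1) • ((q j) ∘ (rbL k (ε j)⁻¹)) x := by
    intro j
    funext x
    have hne : ε j ≠ 0 := (hε0 j).ne'
    simp only [u, q, Function.comp_apply, rbL_apply, smul_eq_mul]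
    rw [rb_fn_scale]
    have h1 : ε j ^ (j + 1) * (ε j)⁻¹ ^ (j + 1) = 1 := by
      rw [← mul_pow, mul_inv_cancel₀ hne, one_pow]
    calc b ((ε j)⁻¹ • x.2) * (V j).fn x
        = (ε j ^ (j + 1) * (ε j)⁻¹ ^ (j + 1)) * (b ((ε j)⁻¹ • x.2) * (V j).fn x) := by
          rw [h1, one_mul]
      _ = _ := by ring
  have husm : ∀ j, ContDiff ℝ ∞ (u j) := by
    intro j
    have h1 : ContDiff ℝ ∞ (fun x : E0 k => b ((ε j)⁻¹ • x.2)) :=
      hbs.comp ((contDiff_const_smul _).comp contDiff_snd)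
    exact h1.mul (V j).fn_smooth
  have hder : ∀ i j : ℕ, i ≤ j → ∀ x, ‖iteratedFDeriv ℝ i (u j) x‖ ≤ (1 / 2) ^ j := by
    intro i j hij x
    have hqi : ContDiff ℝ i (q j) := (hq j).of_le (by exact_mod_cast le_top)
    have h2 : ContDiffAt ℝ i ((q j) ∘ (rbL k (ε j)⁻¹)) x :=
      (hqi.comp (rbL k (ε j)⁻¹).contDiff).contDiffAt
    rw [hu j, iteratedFDeriv_const_smul_apply' h2,
      (rbL k (ε j)⁻¹).iteratedFDeriv_comp_right hqi x le_rfl, norm_smul, norm_pow,
      Real.norm_of_nonneg (hε0 j).le]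
    have h3 := hB j i hij (rbL k (ε j)⁻¹ x)
    have hne : ε j ≠ 0 := (hε0 j).ne'
    have hni := rbL_norm (k := k) (hεi j)
    have h6 : ‖(iteratedFDeriv ℝ i (q j) (rbL k (ε j)⁻¹ x)).compContinuousLinearMap
        (fun _ => rbL k (ε j)⁻¹)‖ ≤ B j * (ε j)⁻¹ ^ i := by
      refine (ContinuousMultilinearMap.norm_compContinuousLinearMap_le _ _).trans ?_
      rw [Finset.prod_const, Finset.card_univ, Fintype.card_fin]
      exact mul_le_mul h3 (pow_le_pow_left₀ (norm_nonneg _) hni _) (by positivity) (hBp j).le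
    have h4 : ε j ^ (j + 1) * (ε j)⁻¹ ^ i = ε j ^ (j + 1 - i) := by
      rw [inv_pow, pow_sub₀ _ hne (by omega)]
    have h5 : ε j ^ (j + 1 - i) ≤ ε j := by
      calc ε j ^ (j + 1 - i) ≤ ε j ^ 1 := pow_le_pow_of_le_one (hε0 j).le (hεle j) (by omega)
        _ = ε j := pow_one _
    refine (mul_le_mul_of_nonneg_left h6 (pow_pos (hε0 j) _).le).trans ?_
    calc ε j ^ (j + 1) * (B j * (ε j)⁻¹ ^ i)
        = ε j ^ (j + 1 - i) * B j := by rw [← h4]; ring
      _ ≤ ε j * B j := mul_le_mul_of_nonneg_right h5 (hBp j).le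
      _ ≤ _ := hε1 j
  have hvsm : ContDiff ℝ ∞ (fun x => ∑' j, u j x) := by
    refine contDiff_tsum_of_eventually (v := fun _ j => (1 / 2 : ℝ) ^ j) husm
      (fun k _ => summable_geometric_of_lt_one (by norm_num) (by norm_num)) ?_
    intro k _
    rw [Nat.cofinite_eq_atTop]
    filter_upwards [Filter.eventually_ge_atTop k] with j hj x
    exact hder k j hj x
  have hSsm : ∀ M : ℕ, ContDiff ℝ ∞ (fun x => ∑ m ∈ Finset.range M, (V m).fn x) := fun M =>
    ContDiff.sum fun m _ => (V m).fn_smooth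
  have hvan : ∀ (M : ℕ) (s : ℝ),
      Van (M + 1) (fun x => (∑' j, u j x) - ∑ m ∈ Finset.range M, (V m).fn x)
        ((s, 0) : E0 k) := by
    intro M s
    refine van_of_bigO (hvsm.sub (hSsm M)) (B' M + 2) ?_
    have hnear : ∀ᶠ x in 𝓝 ((s, 0) : E0 k), ∀ j ∈ Finset.range (M + 1), ‖x.2‖ ≤ ε j := by
      rw [Filter.eventually_all_finset]
      intro j _
      have h1 : Metric.closedBall ((s, 0) : E0 k) (ε j) ∈ 𝓝 ((s, 0) : E0 k) :=
        Metric.closedBall_mem_nhds _ (hε0 j)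
      filter_upwards [h1] with x hx
      rw [mem_closedBall_iff_norm] at hx
      have h2 : ‖x.2‖ ≤ ‖x - ((s, 0) : E0 k)‖ := by
        have h3 := norm_snd_le (x - ((s, 0) : E0 k))
        simpa using h3
      exact h2.trans hx
    filter_upwards [hnear] with x hx
    have hx1 : ‖x.2‖ ≤ 1 := (hx 0 (Finset.mem_range.2 (by omega))).trans (hεle 0)
    have hup : ∀ j ∈ Finset.range (M + 1), u j x = (V j).fn x := by
      intro j hj
      have h1 : b ((ε j)⁻¹ • x.2) = 1 := by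
        apply b.one_of_mem_closedBall
        rw [hb1, mem_closedBall_zero_iff, norm_smul, norm_inv, Real.norm_of_nonneg (hε0 j).le,
          inv_mul_le_iff₀ (hε0 j), mul_one]
        exact hx j hj
      simp only [u, h1, one_mul]
    have htail : ∀ j, ‖u (j + (M + 1)) x‖ ≤ ‖x.2‖ ^ (M + 1) * (1 / 2) ^ j := by
      intro j
      set J := j + (M + 1) with hJ
      by_cases h0 : b ((ε J)⁻¹ • x.2) = 0
      · simp only [u, h0, zero_mul, norm_zero]
        positivity
      · have h1 : ‖x.2‖ < 2 * ε J := by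
          by_contra hcon
          rw [not_lt] at hcon
          apply h0
          apply b.zero_of_le_dist
          rw [hb2, dist_zero_right, norm_smul, norm_inv, Real.norm_of_nonneg (hε0 J).le,
            le_inv_mul_iff₀ (hε0 J)]
          linarith
        have h2 : ‖u J x‖ ≤ ‖(V J).fn x‖ := by
          simp only [u]
          rw [norm_mul, Real.norm_of_nonneg b.nonneg]
          exact mul_le_of_le_one_left (norm_nonneg _) b.le_one
        have h3 := hB' J x
        have h4 : ‖x.2‖ ^ (J + 1) = ‖x.2‖ ^ (M + 1) * ‖x.2‖ ^ (j + 1) := by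
          rw [← pow_add]; congr 1; omega
        have h5 : ‖x.2‖ ^ (j + 1) ≤ 2 * ε J := by
          calc ‖x.2‖ ^ (j + 1) ≤ ‖x.2‖ ^ 1 :=
                pow_le_pow_of_le_one (norm_nonneg _) hx1 (by omega)
            _ = ‖x.2‖ := pow_one _
            _ ≤ 2 * ε J := h1.le
        have h6 := hε2 J
        have h7 : (2 : ℝ) * (1 / 4) ^ J ≤ (1 / 2) ^ j := by
          have e1 : (1 / 4 : ℝ) ^ J ≤ (1 / 4) ^ (j + 1) :=
            pow_le_pow_of_le_one (by norm_num) (by norm_num) (by omega)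
          have e2 : (1 / 4 : ℝ) ^ j ≤ (1 / 2) ^ j :=
            pow_le_pow_left₀ (by norm_num) (by norm_num) _
          have e3 : (0 : ℝ) ≤ (1 / 4 : ℝ) ^ j := by positivity
          rw [pow_succ] at e1
          nlinarith
        calc ‖u J x‖ ≤ B' J * (‖x.2‖ ^ (M + 1) * ‖x.2‖ ^ (j + 1)) := by
              rw [← h4]; exact h2.trans h3
          _ = ‖x.2‖ ^ (M + 1) * (B' J * ‖x.2‖ ^ (j + 1)) := by ring
          _ ≤ ‖x.2‖ ^ (M + 1) * (B' J * (2 * ε J)) := by
              refine mul_le_mul_of_nonneg_left ?_ (by positivity)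
              exact mul_le_mul_of_nonneg_left h5 (hB'0 J)
          _ ≤ ‖x.2‖ ^ (M + 1) * (1 / 2) ^ j := by
              refine mul_le_mul_of_nonneg_left ?_ (by positivity)
              nlinarith
    have hgs : Summable fun j : ℕ => ‖x.2‖ ^ (M + 1) * (1 / 2 : ℝ) ^ j :=
      (summable_geometric_of_lt_one (by norm_num) (by norm_num)).mul_left _
    have hsum : Summable fun j => u j x :=
      (summable_nat_add_iff (M + 1)).1 (Summable.of_norm_bounded hgs htail)
    have hg : HasSum (fun j : ℕ => ‖x.2‖ ^ (M + 1) * (1 / 2 : ℝ) ^ j) (‖x.2‖ ^ (M + 1) * 2) := by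
      have := hasSum_geometric_two
      exact this.mul_left _
    have htl := tsum_of_norm_bounded hg htail
    have hsplit := hsum.sum_add_tsum_nat_add (M + 1)
    rw [Finset.sum_congr rfl hup, Finset.sum_range_succ] at hsplit
    have hlast := hB' M x
    have e : (∑' j, u j x) - ∑ j ∈ Finset.range M, (V j).fn x
        = (V M).fn x + ∑' j, u (j + (M + 1)) x := by
      rw [← hsplit]; ring
    have h8 : ‖x.2‖ ≤ ‖x - ((s, 0) : E0 k)‖ := by
      have h3 := norm_snd_le (x - ((s, 0) : E0 k))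
      simpa using h3
    rw [e]
    calc ‖(V M).fn x + ∑' j, u (j + (M + 1)) x‖
        ≤ ‖(V M).fn x‖ + ‖∑' j, u (j + (M + 1)) x‖ := norm_add_le _ _
      _ ≤ B' M * ‖x.2‖ ^ (M + 1) + ‖x.2‖ ^ (M + 1) * 2 := add_le_add hlast htl
      _ = (B' M + 2) * ‖x.2‖ ^ (M + 1) := by ring
      _ ≤ (B' M + 2) * ‖x - ((s, 0) : E0 k)‖ ^ (M + 1) := by
          refine mul_le_mul_of_nonneg_left (pow_le_pow_left₀ (norm_nonneg _) h8 _) ?_
          have := hB'0 M
          linarith
  refine ⟨fun x => ∑' j, u j x, hvsm, ?_, hvan⟩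
  rw [flatAt_iff]
  intro m
  have h1 := hvan m 0
  have h2 : Van (m + 1) (fun x => ∑ m ∈ Finset.range m, (V m).fn x) ((0, 0) : E0 k) :=
    Van.sum _ (fun i _ => (V i).fn_smooth) fun i _ => flatAt_iff.1 ((V i).flatfn (hflat i)) (m + 1)
  have h3 := Van.add (hvsm.sub (hSsm m)) (hSsm m) h1 h2
  have h4 : (fun z => (∑' j, u j z) - ∑ m ∈ Finset.range m, (V m).fn z +
      ∑ m ∈ Finset.range m, (V m).fn z) = fun z => ∑' j, u j z := by
    funext z
    ring
  rw [h4] at h3
  exact h3.mono (by omega)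

end LatLin.B
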