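import Pool.Agent.Lib.MP_2392aa_gt.B.VanRay

/-!
MODULE RayR1. The maps `NF q i` fix the ray pointwise and are tangent there to the linear ones.

PROOF. Write `g i j = S.q i j`, `F l = NF S.q l`. For `‖x‖ < r`:
 (1) `g i j x = g j i x` (first component of `comm`),
 (2) `g i j (F l x) - g i j x = g l j (F i x) - g l j x` (component `j` of `comm i l`).
Fix `s ∈ [0, r')`, put `η i j = g i j (s,0)`, `Λ i j [y] = fderiv (g i j) (s,0) (0,y)`,
`ε = max` of all `|η i j|`, `‖Λ i j‖`. For `y ∈ ℝ^k` let `c_l(t) = F l (s, t y)`, so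
`c_l(0) = (s, η l ·)`, `c_l'(0) = (y l, y + Λ l · [y])`, `c_l''(0) = (0, D²g l · (s,0)[y,y])`.
Differentiate (2) at `x = (s, t y)` once and twice in `t` at `t = 0`:
 (I1) `Dg i j (s,η l)[c_l'] - Dg i j (s,0)[(0,y)] = Dg l j (s,η i)[c_i'] - Dg l j (s,0)[(0,y)]`,
 (I2) `D²g i j (s,η l)[c_l',c_l'] + Dg i j (s,η l)[c_l''] - D²g i j (s,0)[(0,y),(0,y)]`
      `= ` the same with `i` and `l` exchanged.
Let `M` bound the derivatives of order `≤ 3` of all `g i j` on a ball of radius `2 r'` (`M` is as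
small as we like if `r'` is small, because the `g i j` are flat at `0`). Replacing `(s, η l)` by
`(s, 0)` and `y + Λ l[y]` by `y` costs `O(M ε)`, so with `' = d/ds` along the ray
 (J1) `|y l * η i j' - y i * η l j'| ≤ C M ε ‖y‖`,
 (J2) `|y l ^ 2 η i j'' + 2 y l Λ i j'[y] - y i ^ 2 η l j'' - 2 y i Λ l j'[y]| ≤ C M ε ‖y‖²`
(`∂_s g i j (s,0) = η i j'`, `∂_s ∂_y g i j (s,0)[y] = Λ i j'[y]`, terms `D_y²g[y,y]` cancel).
(J1) with `y = e_l`, `l ≠ i`: `|η i j'| ≤ C M ε` (such `l` exists, `k ≥ 2`).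
For `i ≠ l` put `U i j l = η i j' + 2 Λ i j [e_l]`, `V i j l = Λ i j [e_i] - Λ l j [e_l]`.
(J2) with `y = e_l`: `|U'| ≤ C M ε`; with `y = e_i + e_l` and the bounds for `U`: `|V'| ≤ C M ε`.
Now `ε ≤ C (|η| + |U| + |V|)` if `M` is small: for `l ≠ i`, `2 Λ i j[e_l] = U i j l - η i j'`; by
symmetry `Λ i j = Λ j i` this covers all `Λ i j [e_l]` except `Λ i i [e_i] = V i i l + Λ l i [e_l]`,
`Λ l i [e_l] = Λ i l [e_l]`; and `|η'| ≤ C M ε` is absorbed.
So the vector `Y = (η, U, V)` satisfies `‖Y'‖ ≤ K ‖Y‖` on `[0, r')`, `Y(0) = 0`, and Gronwall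
(`norm_le_gronwallBound_of_norm_deriv_right_le` with `δ = 0`, `ε = 0`) gives `Y = 0`, so `η = 0` and
`Λ = 0` on `[0, r')`; since `η` vanishes identically also `∂_s g i j (s,0) = 0`. Hence `Van 2`.
-/

open scoped ContDiff Topology

namespace LatLin.B

theorem NSys.symm {k : ℕ} {r : ℝ} (S : NSys k r) (i j : Fin k) (x : E0 k) (hx : ‖x‖ < r) :
    S.q i j x = S.q j i x := by
  have h := congrArg Prod.fst (S.comm i j x hx)
  simp only [NF] at h
  linarith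

theorem NSys.cross {k : ℕ} {r : ℝ} (S : NSys k r) (i j l : Fin k) (x : E0 k) (hx : ‖x‖ < r) :
    DD (NF S.q l) (S.q i j) x = DD (NF S.q i) (S.q l j) x := by
  have h : (x.2 j + S.q l j x) + S.q i j (NF S.q l x) =
      (x.2 j + S.q i j x) + S.q l j (NF S.q i x) :=
    congrFun (congrArg Prod.snd (S.comm i l x hx)) j
  unfold DD
  linarith

private theorem curve_aux {k : ℕ} {f : E0 k → ℝ} (hf : ContDiff ℝ ∞ f) {c c1 : ℝ → E0 k}
    {c2 : E0 k} (hc : ∀ t, HasDerivAt c (c1 t) t) (hc1 : HasDerivAt c1 c2 0) :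
    (∀ t, HasDerivAt (fun t => f (c t)) (fderiv ℝ f (c t) (c1 t)) t) ∧
    HasDerivAt (fun t => fderiv ℝ f (c t) (c1 t))
      (fderiv ℝ (fderiv ℝ f) (c 0) (c1 0) (c1 0) + fderiv ℝ f (c 0) c2) 0 := by
  have h1 : Differentiable ℝ f := hf.differentiable (by simp)
  have h2 : Differentiable ℝ (fderiv ℝ f) :=
    (hf.fderiv_right (m := ∞) (by simp)).differentiable (by simp)
  refine ⟨fun t => (h1 (c t)).hasFDerivAt.comp_hasDerivAt t (hc t), ?_⟩
  exact ((h2 (c 0)).hasFDerivAt.comp_hasDerivAt 0 (hc 0)).clm_apply hc1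

private theorem straight {k : ℕ} (s : ℝ) (y : Fin k → ℝ) (t : ℝ) :
    HasDerivAt (fun t : ℝ => ((s, t • y) : E0 k)) ((0, y) : E0 k) t := by
  have h1 : HasDerivAt (fun t : ℝ => t • y) y t := by
    simpa using (hasDerivAt_id t).smul_const y
  exact (hasDerivAt_const t s).prodMk h1

private theorem along {k : ℕ} {f : E0 k → ℝ} (hf : ContDiff ℝ ∞ f) (s : ℝ) :
    HasDerivAt (fun s : ℝ => f ((s, 0) : E0 k)) (fderiv ℝ f (s, 0) (1, 0)) s ∧
    ∀ v : E0 k, HasDerivAt (fun s : ℝ => fderiv ℝ f ((s, 0) : E0 k) v)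
      (fderiv ℝ (fderiv ℝ f) (s, 0) (1, 0) v) s := by
  have h1 : Differentiable ℝ f := hf.differentiable (by simp)
  have h2 : Differentiable ℝ (fderiv ℝ f) :=
    (hf.fderiv_right (m := ∞) (by simp)).differentiable (by simp)
  have hc : HasDerivAt (fun s : ℝ => ((s, 0) : E0 k)) ((1, 0) : E0 k) s :=
    (hasDerivAt_id s).prodMk (hasDerivAt_const s 0)
  refine ⟨(h1 _).hasFDerivAt.comp_hasDerivAt s hc, fun v => ?_⟩
  have h3 := ((h2 (s, 0)).hasFDerivAt.comp_hasDerivAt s hc).clm_apply (hasDerivAt_const s v)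
  simpa using h3

/-- the velocity of the curve `NF q l (s, t y)` at `t = 0` -/
private noncomputable def vel {k : ℕ} {r : ℝ} (S : NSys k r) (l : Fin k) (s : ℝ)
    (y : Fin k → ℝ) : E0 k := (y l, fun b => y b + fderiv ℝ (S.q l b) (s, 0) (0, y))

/-- its acceleration -/
private noncomputable def acc {k : ℕ} {r : ℝ} (S : NSys k r) (l : Fin k) (s : ℝ)
    (y : Fin k → ℝ) : Fin k → ℝ := fun b => fderiv ℝ (fderiv ℝ (S.q l b)) (s, 0) (0, y) (0, y)

private theorem nf_curve {k : ℕ} {r : ℝ} (S : NSys k r) (l : Fin k) (s : ℝ) (y : Fin k → ℝ) :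
    (∀ t, HasDerivAt (fun t : ℝ => NF S.q l ((s, t • y) : E0 k))
      ((y l, fun b => y b + fderiv ℝ (S.q l b) (s, t • y) (0, y)) : E0 k) t) ∧
    HasDerivAt (fun t : ℝ => ((y l, fun b => y b + fderiv ℝ (S.q l b) (s, t • y) (0, y)) : E0 k))
      ((0, acc S l s y) : E0 k) 0 := by
  have hlin : ∀ (b : Fin k) (t : ℝ), HasDerivAt (fun t : ℝ => (t • y) b) (y b) t := by
    intro b t
    simpa using (hasDerivAt_id t).mul_const (y b)
  constructor
  · intro t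
    refine HasDerivAt.prodMk ?_ ?_
    · exact (hlin l t).const_add s
    · rw [hasDerivAt_pi]
      intro b
      exact (hlin b t).add ((curve_aux (S.smooth l b) (straight s y) (hasDerivAt_const 0 _)).1 t)
  · refine (hasDerivAt_const 0 (y l)).prodMk ?_
    rw [hasDerivAt_pi]
    intro b
    have h := (curve_aux (S.smooth l b) (straight s y) (hasDerivAt_const 0 _)).2
    rw [map_zero, add_zero, zero_smul] at h
    exact h.const_add (y b)

private theorem zero_jets {φ φ1 : ℝ → ℝ} {φ2 : ℝ} (h : ∀ᶠ t in 𝓝 (0 : ℝ), φ t = 0)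
    (h1 : ∀ t, HasDerivAt φ (φ1 t) t) (h2 : HasDerivAt φ1 φ2 0) : φ1 0 = 0 ∧ φ2 = 0 := by
  have h3 : φ1 =ᶠ[𝓝 (0 : ℝ)] fun _ => 0 := by
    have h4 : φ =ᶠ[𝓝 (0 : ℝ)] fun _ => 0 := h
    filter_upwards [h4.deriv] with t ht
    rw [(h1 t).deriv] at ht
    rw [ht]
    simp
  refine ⟨h3.eq_of_nhds, ?_⟩
  exact h2.unique ((hasDerivAt_const (0 : ℝ) (0 : ℝ)).congr_of_eventuallyEq h3)

private theorem idents {k : ℕ} {r : ℝ} (S : NSys k r) (i j l : Fin k) (s : ℝ) (hs : |s| < r)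
    (y : Fin k → ℝ) :
    (fderiv ℝ (S.q i j) (NF S.q l (s, 0)) (vel S l s y) - fderiv ℝ (S.q i j) (s, 0) (0, y) =
      fderiv ℝ (S.q l j) (NF S.q i (s, 0)) (vel S i s y) - fderiv ℝ (S.q l j) (s, 0) (0, y)) ∧
    (fderiv ℝ (fderiv ℝ (S.q i j)) (NF S.q l (s, 0)) (vel S l s y) (vel S l s y) +
        fderiv ℝ (S.q i j) (NF S.q l (s, 0)) (0, acc S l s y) -
        fderiv ℝ (fderiv ℝ (S.q i j)) (s, 0) (0, y) (0, y) =
      fderiv ℝ (fderiv ℝ (S.q l j)) (NF S.q i (s, 0)) (vel S i s y) (vel S i s y) +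
        fderiv ℝ (S.q l j) (NF S.q i (s, 0)) (0, acc S i s y) -
        fderiv ℝ (fderiv ℝ (S.q l j)) (s, 0) (0, y) (0, y)) := by
  have hev : ∀ᶠ t : ℝ in 𝓝 0, ‖((s, t • y) : E0 k)‖ < r := by
    have hcont : Continuous fun t : ℝ => ‖((s, t • y) : E0 k)‖ := by fun_prop
    have h0 : ‖((s, (0 : ℝ) • y) : E0 k)‖ < r := by
      rw [zero_smul, Prod.norm_def]
      simpa using hs
    exact hcont.continuousAt.eventually_lt continuousAt_const h0
  have hφ : ∀ᶠ t : ℝ in 𝓝 0,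
      (S.q i j (NF S.q l (s, t • y)) - S.q i j (s, t • y)) -
        (S.q l j (NF S.q i (s, t • y)) - S.q l j (s, t • y)) = 0 := by
    filter_upwards [hev] with t ht
    have := S.cross i j l _ ht
    unfold DD at this
    rw [this]
    ring
  have A1 := curve_aux (S.smooth i j) (nf_curve S l s y).1 (nf_curve S l s y).2
  have A2 := curve_aux (S.smooth i j) (straight s y) (hasDerivAt_const 0 _)
  have A3 := curve_aux (S.smooth l j) (nf_curve S i s y).1 (nf_curve S i s y).2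
  have A4 := curve_aux (S.smooth l j) (straight s y) (hasDerivAt_const 0 _)
  have key := zero_jets hφ (fun t => ((A1.1 t).sub (A2.1 t)).sub ((A3.1 t).sub (A4.1 t)))
    ((A1.2.sub A2.2).sub (A3.2.sub A4.2))
  rw [map_zero, map_zero, add_zero, add_zero] at key
  simp only [zero_smul] at key
  exact ⟨sub_eq_zero.1 key.1, sub_eq_zero.1 key.2⟩

private theorem est1 {k : ℕ} (L L₀ : E0 k →L[ℝ] ℝ) (a w : E0 k) (M ε : ℝ)
    (hL : ‖L‖ ≤ M) (hLL : ‖L - L₀‖ ≤ M * ε) (ha : ‖a‖ ≤ 1) (hw : ‖w‖ ≤ 2 * ε) :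
    |L (a + w) - L₀ a| ≤ 3 * (M * ε) := by
  have e : L (a + w) - L₀ a = (L - L₀) a + L w := by
    rw [map_add, ContinuousLinearMap.sub_apply]
    ring
  have hM : 0 ≤ M := (norm_nonneg L).trans hL
  have hMe : 0 ≤ M * ε := (norm_nonneg _).trans hLL
  have h1 : |(L - L₀) a| ≤ M * ε := by
    have h := (L - L₀).le_opNorm a
    rw [Real.norm_eq_abs] at h
    nlinarith [norm_nonneg a, norm_nonneg (L - L₀)]
  have h2 : |L w| ≤ M * (2 * ε) := by
    have h := L.le_opNorm w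
    rw [Real.norm_eq_abs] at h
    exact h.trans (mul_le_mul hL hw (norm_nonneg _) hM)
  rw [e]
  have h3 := abs_add_le ((L - L₀) a) (L w)
  linarith

private theorem est2 {k : ℕ} (A A₀ : E0 k →L[ℝ] E0 k →L[ℝ] ℝ) (a w : E0 k) (M ε : ℝ)
    (hε0 : 0 ≤ ε) (hε1 : ε ≤ 1)
    (hA : ‖A‖ ≤ M) (hAA : ‖A - A₀‖ ≤ M * ε) (ha : ‖a‖ ≤ 1) (hw : ‖w‖ ≤ 2 * ε) :
    |A (a + w) (a + w) - A₀ a a| ≤ 9 * (M * ε) := by
  have e : A (a + w) (a + w) - A₀ a a = (A - A₀) a a + A a w + A w a + A w w := by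
    simp only [map_add, ContinuousLinearMap.add_apply, ContinuousLinearMap.sub_apply]
    ring
  have hM : 0 ≤ M := (norm_nonneg A).trans hA
  have hMe : 0 ≤ M * ε := mul_nonneg hM hε0
  have hb : ∀ u v : E0 k, |A u v| ≤ M * ‖u‖ * ‖v‖ := by
    intro u v
    have h := A.le_opNorm₂ u v
    rw [Real.norm_eq_abs] at h
    refine h.trans ?_
    exact mul_le_mul_of_nonneg_right (mul_le_mul_of_nonneg_right hA (norm_nonneg _))
      (norm_nonneg _)
  have h1 : |(A - A₀) a a| ≤ M * ε := by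
    have h := (A - A₀).le_opNorm₂ a a
    rw [Real.norm_eq_abs] at h
    have h' : ‖A - A₀‖ * ‖a‖ * ‖a‖ ≤ M * ε * 1 * 1 :=
      mul_le_mul (mul_le_mul hAA ha (norm_nonneg _) hMe) ha (norm_nonneg _) (by linarith)
    linarith
  have h2 : |A a w| ≤ 2 * (M * ε) := by
    have h' : M * ‖a‖ * ‖w‖ ≤ M * 1 * (2 * ε) :=
      mul_le_mul (mul_le_mul_of_nonneg_left ha hM) hw (norm_nonneg _) (by linarith)
    linarith [hb a w]
  have h3 : |A w a| ≤ 2 * (M * ε) := by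
    have h' : M * ‖w‖ * ‖a‖ ≤ M * (2 * ε) * 1 :=
      mul_le_mul (mul_le_mul_of_nonneg_left hw hM) ha (norm_nonneg _) (by nlinarith)
    linarith [hb w a]
  have h4 : |A w w| ≤ 4 * (M * ε) := by
    have h' : M * ‖w‖ * ‖w‖ ≤ M * (2 * ε) * (2 * ε) :=
      mul_le_mul (mul_le_mul_of_nonneg_left hw hM) hw (norm_nonneg _) (by nlinarith)
    have h'' : M * (2 * ε) * (2 * ε) ≤ 4 * (M * ε) := by nlinarith
    linarith [hb w w]
  rw [e]
  have h5 := abs_add_le ((A - A₀) a a + A a w + A w a) (A w w)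
  have h6 := abs_add_le ((A - A₀) a a + A a w) (A w a)
  have h7 := abs_add_le ((A - A₀) a a) (A a w)
  linarith

private theorem est3 {k : ℕ} (L L₀ : E0 k →L[ℝ] ℝ) (B : Fin k → ℝ) (M ε : ℝ)
    (hε0 : 0 ≤ ε) (hM1 : M ≤ 1) (hLL : ‖L - L₀‖ ≤ M * ε) (hB : ‖B‖ ≤ 1)
    (h0 : ∀ b, |L₀ (0, Pi.single b 1)| ≤ ε) :
    |L (0, B)| ≤ (k + 1) * ε := by
  have e : L (0, B) = (L - L₀) (0, B) + L₀ (0, B) := by
    rw [ContinuousLinearMap.sub_apply]
    ring
  have hn : ‖((0, B) : E0 k)‖ ≤ 1 := by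
    rw [Prod.norm_def]
    simpa using hB
  have h1 : |(L - L₀) (0, B)| ≤ ε := by
    have h := (L - L₀).le_opNorm ((0, B) : E0 k)
    rw [Real.norm_eq_abs] at h
    have h' : ‖L - L₀‖ * ‖((0, B) : E0 k)‖ ≤ M * ε * 1 :=
      mul_le_mul hLL hn (norm_nonneg _) ((norm_nonneg _).trans hLL)
    nlinarith
  have h2 : L₀ (0, B) = ∑ b, B b * L₀ (0, Pi.single b 1) := by
    have h3 : ((0, B) : E0 k) = ContinuousLinearMap.inr ℝ ℝ (Fin k → ℝ) B := rfl
    have h4 : L₀ (0, B) = (L₀.comp (ContinuousLinearMap.inr ℝ ℝ (Fin k → ℝ))) B := rfl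
    rw [h4]
    conv_lhs => rw [pi_eq_sum_univ' B]
    rw [map_sum]
    refine Finset.sum_congr rfl fun b _ => ?_
    rw [map_smul, smul_eq_mul]
    congr 1
  have h5 : |L₀ (0, B)| ≤ k * ε := by
    rw [h2]
    refine (Finset.abs_sum_le_sum_abs _ _).trans ?_
    calc ∑ b, |B b * L₀ (0, Pi.single b 1)| ≤ ∑ _b : Fin k, ε := by
          refine Finset.sum_le_sum fun b _ => ?_
          rw [abs_mul]
          have h6 : |B b| ≤ 1 := by
            have := norm_le_pi_norm B b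
            rw [Real.norm_eq_abs] at this
            exact this.trans hB
          have h7 := h0 b
          nlinarith [abs_nonneg (B b), abs_nonneg (L₀ (0, Pi.single b 1))]
      _ = k * ε := by simp
  rw [e]
  have h8 := abs_add_le ((L - L₀) (0, B)) (L₀ (0, B))
  linarith

private theorem expand2 {k : ℕ} (A : E0 k →L[ℝ] E0 k →L[ℝ] ℝ) (hA : ∀ v w, A v w = A w v)
    (u : ℝ) (y : Fin k → ℝ) :
    A (u, y) (u, y) - A (0, y) (0, y) = u ^ 2 * A (1, 0) (1, 0) + 2 * u * A (1, 0) (0, y) := by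
  have e : ((u, y) : E0 k) = u • ((1, 0) : E0 k) + ((0, y) : E0 k) := by
    ext <;> simp
  rw [e]
  simp only [map_add, map_smul, ContinuousLinearMap.add_apply, ContinuousLinearMap.smul_apply,
    smul_eq_mul]
  rw [hA (0, y) (1, 0)]
  ring

private theorem expand1 {k : ℕ} (L : E0 k →L[ℝ] ℝ) (u : ℝ) (y : Fin k → ℝ) :
    L (u, y) - L (0, y) = u * L (1, 0) := by
  have e : ((u, y) : E0 k) = u • ((1, 0) : E0 k) + ((0, y) : E0 k) := by
    ext <;> simp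
  rw [e, map_add, map_smul, smul_eq_mul]
  ring

/-- the estimates at a point of the ray -/
private structure Hyp {k : ℕ} {r : ℝ} (S : NSys k r) (s M ε : ℝ) : Prop where
  hs : |s| < r
  e0 : 0 ≤ ε
  e1 : ε ≤ 1
  M1 : M ≤ 1
  L : ∀ i j l, ‖fderiv ℝ (S.q i j) (NF S.q l (s, 0))‖ ≤ M
  LL : ∀ i j l, ‖fderiv ℝ (S.q i j) (NF S.q l (s, 0)) - fderiv ℝ (S.q i j) (s, 0)‖ ≤ M * ε
  A : ∀ i j l, ‖fderiv ℝ (fderiv ℝ (S.q i j)) (NF S.q l (s, 0))‖ ≤ M
  AA : ∀ i j l, ‖fderiv ℝ (fderiv ℝ (S.q i j)) (NF S.q l (s, 0)) -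
    fderiv ℝ (fderiv ℝ (S.q i j)) (s, 0)‖ ≤ M * ε
  A0 : ∀ i j, ‖fderiv ℝ (fderiv ℝ (S.q i j)) (s, 0)‖ ≤ M
  lam : ∀ i j b, |fderiv ℝ (S.q i j) (s, 0) (0, Pi.single b 1)| ≤ ε

private theorem jets {k : ℕ} {r : ℝ} {S : NSys k r} {s M ε : ℝ} (H : Hyp S s M ε)
    (y : Fin k → ℝ) (hy : ‖y‖ ≤ 1) (hyl : ∀ i j, |fderiv ℝ (S.q i j) (s, 0) (0, y)| ≤ 2 * ε)
    (i j l : Fin k) :
    |y l * fderiv ℝ (S.q i j) (s, 0) (1, 0) - y i * fderiv ℝ (S.q l j) (s, 0) (1, 0)| ≤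
      6 * (M * ε) ∧
    |(y l ^ 2 * fderiv ℝ (fderiv ℝ (S.q i j)) (s, 0) (1, 0) (1, 0) +
        2 * y l * fderiv ℝ (fderiv ℝ (S.q i j)) (s, 0) (1, 0) (0, y)) -
      (y i ^ 2 * fderiv ℝ (fderiv ℝ (S.q l j)) (s, 0) (1, 0) (1, 0) +
        2 * y i * fderiv ℝ (fderiv ℝ (S.q l j)) (s, 0) (1, 0) (0, y))| ≤
      18 * (M * ε) + 2 * ((k + 1) * ε) := by
  obtain ⟨h1, h2⟩ := idents S i j l s H.hs y
  have hsym : ∀ a b : Fin k, ∀ v w : E0 k, fderiv ℝ (fderiv ℝ (S.q a b)) (s, 0) v w =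
      fderiv ℝ (fderiv ℝ (S.q a b)) (s, 0) w v := by
    intro a b v w
    have := ((S.smooth a b).contDiffAt (x := (s, 0))).isSymmSndFDerivAt (by
      rw [minSmoothness_of_isRCLikeNormedField]
      exact WithTop.coe_le_coe.2 (le_top : (2 : ℕ∞) ≤ ⊤))
    exact this.eq v w
  have hvel : ∀ a : Fin k, vel S a s y = ((y a, y) : E0 k) +
      ((0, fun b => fderiv ℝ (S.q a b) (s, 0) (0, y)) : E0 k) := by
    intro a
    ext
    · simp [vel]
    · rfl
  have hna : ∀ a : Fin k, ‖((y a, y) : E0 k)‖ ≤ 1 := by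
    intro a
    rw [Prod.norm_def]
    exact max_le ((norm_le_pi_norm y a).trans hy) hy
  have hnw : ∀ a : Fin k, ‖((0, fun b => fderiv ℝ (S.q a b) (s, 0) (0, y)) : E0 k)‖ ≤ 2 * ε := by
    intro a
    rw [Prod.norm_def]
    refine max_le ?_ ?_
    · simpa using H.e0
    · rw [pi_norm_le_iff_of_nonneg (by linarith [H.e0])]
      intro b
      exact hyl a b
  have hny : ‖((0, y) : E0 k)‖ ≤ 1 := by
    rw [Prod.norm_def]
    simpa using hy
  have hM0 : 0 ≤ M :=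
    (norm_nonneg (fderiv ℝ (fderiv ℝ (S.q i j)) (s, 0))).trans (H.A0 i j)
  have hacc : ∀ a : Fin k, ‖acc S a s y‖ ≤ 1 := by
    intro a
    rw [pi_norm_le_iff_of_nonneg zero_le_one]
    intro b
    have h := (fderiv ℝ (fderiv ℝ (S.q a b)) (s, 0)).le_opNorm₂ (0, y) (0, y)
    refine h.trans ?_
    have h' := mul_le_mul (mul_le_mul (H.A0 a b) hny (norm_nonneg _) hM0) hny (norm_nonneg _)
      (by linarith)
    linarith [H.M1]
  constructor
  · have a1 := est1 _ _ _ _ M ε (H.L i j l) (H.LL i j l) (hna l) (hnw l)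
    have a2 := est1 _ _ _ _ M ε (H.L l j i) (H.LL l j i) (hna i) (hnw i)
    rw [← hvel] at a1 a2
    have b1 := expand1 (fderiv ℝ (S.q i j) (s, 0)) (y l) y
    have b2 := expand1 (fderiv ℝ (S.q l j) (s, 0)) (y i) y
    rw [abs_le] at a1 a2 ⊢
    constructor <;> linarith [a1.1, a1.2, a2.1, a2.2]
  · have a1 := est2 _ _ _ _ M ε H.e0 H.e1 (H.A i j l) (H.AA i j l) (hna l) (hnw l)
    have a2 := est2 _ _ _ _ M ε H.e0 H.e1 (H.A l j i) (H.AA l j i) (hna i) (hnw i)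
    rw [← hvel] at a1 a2
    have b1 := expand2 (fderiv ℝ (fderiv ℝ (S.q i j)) (s, 0)) (hsym i j) (y l) y
    have b2 := expand2 (fderiv ℝ (fderiv ℝ (S.q l j)) (s, 0)) (hsym l j) (y i) y
    have c1 := est3 _ _ _ M ε H.e0 H.M1 (H.LL i j l) (hacc l) (H.lam i j)
    have c2 := est3 _ _ _ M ε H.e0 H.M1 (H.LL l j i) (hacc i) (H.lam l j)
    rw [abs_le] at a1 a2 c1 c2 ⊢
    constructor <;> linarith [a1.1, a1.2, a2.1, a2.2, c1.1, c1.2, c2.1, c2.2]

private theorem jets_basis {k : ℕ} {r : ℝ} {S : NSys k r} {s M ε : ℝ} (H : Hyp S s M ε) :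
    (∀ i j l : Fin k, l ≠ i → |fderiv ℝ (S.q i j) (s, 0) (1, 0)| ≤ 6 * (M * ε)) ∧
    (∀ i j l : Fin k, l ≠ i → |fderiv ℝ (fderiv ℝ (S.q i j)) (s, 0) (1, 0) (1, 0) +
      2 * fderiv ℝ (fderiv ℝ (S.q i j)) (s, 0) (1, 0) (0, Pi.single l 1)| ≤
        18 * (M * ε) + 2 * ((k + 1) * ε)) ∧
    (∀ i j l : Fin k, l ≠ i → |fderiv ℝ (fderiv ℝ (S.q i j)) (s, 0) (1, 0) (0, Pi.single i 1) -
      fderiv ℝ (fderiv ℝ (S.q l j)) (s, 0) (1, 0) (0, Pi.single l 1)| ≤
        2 * (18 * (M * ε) + 2 * ((k + 1) * ε))) := by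
  have hy1 : ∀ l : Fin k, ‖(Pi.single l 1 : Fin k → ℝ)‖ ≤ 1 := by
    intro l
    rw [pi_norm_le_iff_of_nonneg zero_le_one]
    intro b
    rcases eq_or_ne b l with h | h
    · subst h; simp
    · simp [h]
  have hl1 : ∀ l i j : Fin k, |fderiv ℝ (S.q i j) (s, 0) (0, Pi.single l 1)| ≤ 2 * ε :=
    fun l i j => (H.lam i j l).trans (by linarith [H.e0])
  have hU : ∀ i j l : Fin k, l ≠ i → |fderiv ℝ (fderiv ℝ (S.q i j)) (s, 0) (1, 0) (1, 0) +
      2 * fderiv ℝ (fderiv ℝ (S.q i j)) (s, 0) (1, 0) (0, Pi.single l 1)| ≤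
        18 * (M * ε) + 2 * ((k + 1) * ε) := by
    intro i j l h
    have h1 := (jets H (Pi.single l 1) (hy1 l) (hl1 l) i j l).2
    simp only [Pi.single_eq_same, Pi.single_eq_of_ne h.symm] at h1
    convert! h1 using 2
    ring
  refine ⟨?_, hU, ?_⟩
  · intro i j l h
    have h1 := (jets H (Pi.single l 1) (hy1 l) (hl1 l) i j l).1
    simp only [Pi.single_eq_same, Pi.single_eq_of_ne h.symm] at h1
    convert! h1 using 2
    ring
  · intro i j l h
    have e : ((0, Pi.single i 1 + Pi.single l 1) : E0 k) =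
        ((0, Pi.single i 1) : E0 k) + ((0, Pi.single l 1) : E0 k) := by
      ext <;> simp
    have hy : ‖(Pi.single i 1 + Pi.single l 1 : Fin k → ℝ)‖ ≤ 1 := by
      rw [pi_norm_le_iff_of_nonneg zero_le_one]
      intro b
      rcases eq_or_ne b l with hb | hb
      · subst hb
        simp [h]
      · rcases eq_or_ne b i with hb' | hb'
        · subst hb'
          simp [hb]
        · simp [hb, hb']
    have hyl : ∀ a b, |fderiv ℝ (S.q a b) (s, 0) (0, Pi.single i 1 + Pi.single l 1)| ≤ 2 * ε := by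
      intro a b
      rw [e, map_add]
      have h1 := abs_add_le (fderiv ℝ (S.q a b) (s, 0) (0, Pi.single i 1))
        (fderiv ℝ (S.q a b) (s, 0) (0, Pi.single l 1))
      linarith [H.lam a b i, H.lam a b l]
    have h1 := (jets H _ hy hyl i j l).2
    have v1 : (Pi.single i 1 + Pi.single l 1 : Fin k → ℝ) l = 1 := by simp [h]
    have v2 : (Pi.single i 1 + Pi.single l 1 : Fin k → ℝ) i = 1 := by simp [h.symm]
    rw [v1, v2, e, map_add, map_add] at h1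
    have h2 := hU i j l h
    have h3 := hU l j i h.symm
    have h4 : 0 ≤ 18 * (M * ε) + 2 * (((k : ℝ) + 1) * ε) := (abs_nonneg _).trans h2
    rw [abs_le] at h1 h2 h3 ⊢
    constructor <;> linarith [h1.1, h1.2, h2.1, h2.2, h3.1, h3.2]

private noncomputable def YV {k : ℕ} {r : ℝ} (S : NSys k r) (s : ℝ) :
    (Fin k → Fin k → ℝ) × (Fin k → Fin k → Fin k → ℝ) × (Fin k → Fin k → Fin k → ℝ) :=
  (fun i j => S.q i j (s, 0),
   fun i j l => if l = i then 0 else fderiv ℝ (S.q i j) (s, 0) (1, 0) +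
      2 * fderiv ℝ (S.q i j) (s, 0) (0, Pi.single l 1),
   fun i j l => fderiv ℝ (S.q i j) (s, 0) (0, Pi.single i 1) -
      fderiv ℝ (S.q l j) (s, 0) (0, Pi.single l 1))

private noncomputable def YV' {k : ℕ} {r : ℝ} (S : NSys k r) (s : ℝ) :
    (Fin k → Fin k → ℝ) × (Fin k → Fin k → Fin k → ℝ) × (Fin k → Fin k → Fin k → ℝ) :=
  (fun i j => fderiv ℝ (S.q i j) (s, 0) (1, 0),
   fun i j l => if l = i then 0 else fderiv ℝ (fderiv ℝ (S.q i j)) (s, 0) (1, 0) (1, 0) +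
      2 * fderiv ℝ (fderiv ℝ (S.q i j)) (s, 0) (1, 0) (0, Pi.single l 1),
   fun i j l => fderiv ℝ (fderiv ℝ (S.q i j)) (s, 0) (1, 0) (0, Pi.single i 1) -
      fderiv ℝ (fderiv ℝ (S.q l j)) (s, 0) (1, 0) (0, Pi.single l 1))

private noncomputable def ZV {k : ℕ} {r : ℝ} (S : NSys k r) (s : ℝ) :
    (Fin k → Fin k → ℝ) × (Fin k → Fin k → Fin k → ℝ) :=
  (fun i j => S.q i j (s, 0), fun i j l => fderiv ℝ (S.q i j) (s, 0) (0, Pi.single l 1))

private theorem YV_deriv {k : ℕ} {r : ℝ} (S : NSys k r) (s : ℝ) :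
    HasDerivAt (YV S) (YV' S s) s := by
  refine HasDerivAt.prodMk ?_ (HasDerivAt.prodMk ?_ ?_)
  · rw [hasDerivAt_pi]
    intro i
    rw [hasDerivAt_pi]
    intro j
    exact (along (S.smooth i j) s).1
  · rw [hasDerivAt_pi]
    intro i
    rw [hasDerivAt_pi]
    intro j
    rw [hasDerivAt_pi]
    intro l
    by_cases h : l = i
    · simp only [h, if_true]
      exact hasDerivAt_const s 0
    · simp only [h, if_false]
      exact ((along (S.smooth i j) s).2 _).add (((along (S.smooth i j) s).2 _).const_mul 2)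
  · rw [hasDerivAt_pi]
    intro i
    rw [hasDerivAt_pi]
    intro j
    rw [hasDerivAt_pi]
    intro l
    exact ((along (S.smooth i j) s).2 _).sub ((along (S.smooth l j) s).2 _)

private theorem lam_symm {k : ℕ} {r : ℝ} (S : NSys k r) {s : ℝ} (hs : |s| < r) (i j : Fin k) :
    fderiv ℝ (S.q i j) (s, 0) = fderiv ℝ (S.q j i) (s, 0) := by
  apply Filter.EventuallyEq.fderiv_eq
  have h0 : ‖((s, 0) : E0 k)‖ < r := by
    rw [Prod.norm_def]
    simpa using hs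
  have hev : ∀ᶠ x : E0 k in 𝓝 (s, 0), ‖x‖ < r :=
    continuous_norm.continuousAt.eventually_lt continuousAt_const h0
  filter_upwards [hev] with x hx
  exact S.symm i j x hx

private theorem exists_ne' {k : ℕ} (hk : 2 ≤ k) (i : Fin k) : ∃ l : Fin k, l ≠ i := by
  have : Nontrivial (Fin k) := Fin.nontrivial_iff_two_le.2 hk
  exact exists_ne i

private theorem norm_YV' {k : ℕ} (hk : 2 ≤ k) {r : ℝ} {S : NSys k r} {s e : ℝ}
    (H : Hyp S s (1 / 6) e) : ‖YV' S s‖ ≤ (4 * k + 10) * e := by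
  obtain ⟨h1, h2, h3⟩ := jets_basis H
  have he := H.e0
  have hk0 : (0 : ℝ) ≤ k := Nat.cast_nonneg k
  have hke : 0 ≤ (k : ℝ) * e := mul_nonneg hk0 he
  have hK : 0 ≤ (4 * (k : ℝ) + 10) * e := by nlinarith
  refine norm_prod_le_iff.2 ⟨?_, norm_prod_le_iff.2 ⟨?_, ?_⟩⟩
  · refine (pi_norm_le_iff_of_nonneg hK).2 fun i => (pi_norm_le_iff_of_nonneg hK).2 fun j => ?_
    obtain ⟨l, hl⟩ := exists_ne' hk i
    have h := h1 i j l hl
    change |fderiv ℝ (S.q i j) (s, 0) (1, 0)| ≤ _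
    linarith
  · refine (pi_norm_le_iff_of_nonneg hK).2 fun i => (pi_norm_le_iff_of_nonneg hK).2 fun j =>
      (pi_norm_le_iff_of_nonneg hK).2 fun l => ?_
    change ‖(if l = i then (0 : ℝ) else _)‖ ≤ _
    split_ifs with h
    · simpa using hK
    · have h' := h2 i j l h
      rw [Real.norm_eq_abs]
      linarith
  · refine (pi_norm_le_iff_of_nonneg hK).2 fun i => (pi_norm_le_iff_of_nonneg hK).2 fun j =>
      (pi_norm_le_iff_of_nonneg hK).2 fun l => ?_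
    by_cases h : l = i
    · subst h
      change ‖fderiv ℝ (fderiv ℝ (S.q l j)) (s, 0) (1, 0) (0, Pi.single l 1) -
        fderiv ℝ (fderiv ℝ (S.q l j)) (s, 0) (1, 0) (0, Pi.single l 1)‖ ≤ _
      rw [sub_self]
      simpa using hK
    · have h' := h3 i j l h
      change |_| ≤ _
      refine h'.trans ?_
      linarith

private theorem ZV_le {k : ℕ} (hk : 2 ≤ k) {r : ℝ} {S : NSys k r} {s : ℝ}
    (H : Hyp S s (1 / 6) ‖ZV S s‖) : ‖ZV S s‖ ≤ 3 * ‖YV S s‖ := by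
  obtain ⟨h1, -, -⟩ := jets_basis H
  set e := ‖ZV S s‖ with he
  set y := ‖YV S s‖ with hy
  have he0 : 0 ≤ e := norm_nonneg _
  have hy0 : 0 ≤ y := norm_nonneg _
  have hη : ∀ i j, |S.q i j (s, 0)| ≤ y := by
    intro i j
    have a1 : ‖(YV S s).1‖ ≤ y := norm_fst_le _
    exact ((norm_le_pi_norm ((YV S s).1 i) j).trans (norm_le_pi_norm (YV S s).1 i)).trans a1
  have hU : ∀ i j l, l ≠ i → |fderiv ℝ (S.q i j) (s, 0) (1, 0) +
      2 * fderiv ℝ (S.q i j) (s, 0) (0, Pi.single l 1)| ≤ y := by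
    intro i j l h
    have a1 : ‖(YV S s).2.1‖ ≤ y := (norm_fst_le _).trans (norm_snd_le _)
    have a2 := ((norm_le_pi_norm ((YV S s).2.1 i j) l).trans
      ((norm_le_pi_norm ((YV S s).2.1 i) j).trans (norm_le_pi_norm (YV S s).2.1 i))).trans a1
    change ‖(if l = i then (0 : ℝ) else _)‖ ≤ _ at a2
    rwa [if_neg h] at a2
  have hV : ∀ i j l, |fderiv ℝ (S.q i j) (s, 0) (0, Pi.single i 1) -
      fderiv ℝ (S.q l j) (s, 0) (0, Pi.single l 1)| ≤ y := by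
    intro i j l
    have a1 : ‖(YV S s).2.2‖ ≤ y := (norm_snd_le _).trans (norm_snd_le _)
    exact ((norm_le_pi_norm ((YV S s).2.2 i j) l).trans
      ((norm_le_pi_norm ((YV S s).2.2 i) j).trans (norm_le_pi_norm (YV S s).2.2 i))).trans a1
  have hΛ1 : ∀ i j l, l ≠ i → |fderiv ℝ (S.q i j) (s, 0) (0, Pi.single l 1)| ≤ y / 2 + e / 2 := by
    intro i j l h
    have a1 := h1 i j l h
    have a2 := hU i j l h
    rw [abs_le] at a1 a2 ⊢
    constructor <;> linarith [a1.1, a1.2, a2.1, a2.2]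
  have hΛ : ∀ i j l, |fderiv ℝ (S.q i j) (s, 0) (0, Pi.single l 1)| ≤ 3 / 2 * y + e / 2 := by
    intro i j l
    by_cases h : l = i
    · subst h
      by_cases h' : l = j
      · subst h'
        obtain ⟨m, hm⟩ := exists_ne' hk l
        have a1 := hV l l m
        have a2 := hΛ1 l m m hm
        rw [lam_symm S H.hs l m] at a2
        rw [abs_le] at a1 a2 ⊢
        constructor <;> linarith [a1.1, a1.2, a2.1, a2.2]
      · have a1 := hΛ1 j l l h'
        rw [lam_symm S H.hs j l] at a1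
        linarith
    · have a1 := hΛ1 i j l h
      linarith
  have hK : 0 ≤ 3 / 2 * y + e / 2 := by linarith
  have hZ : e ≤ 3 / 2 * y + e / 2 := by
    refine norm_prod_le_iff.2 ⟨?_, ?_⟩
    · refine (pi_norm_le_iff_of_nonneg hK).2 fun i => (pi_norm_le_iff_of_nonneg hK).2 fun j => ?_
      have a1 := hη i j
      change |S.q i j (s, 0)| ≤ _
      linarith
    · exact (pi_norm_le_iff_of_nonneg hK).2 fun i => (pi_norm_le_iff_of_nonneg hK).2 fun j =>
        (pi_norm_le_iff_of_nonneg hK).2 fun l => hΛ i j l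
  linarith

private theorem lin_zero {k : ℕ} (L : E0 k →L[ℝ] ℝ) (h1 : L (1, 0) = 0)
    (h2 : ∀ b, L (0, Pi.single b 1) = 0) : L = 0 := by
  refine ContinuousLinearMap.ext fun v => ?_
  have e : v = ((v.1, v.2) : E0 k) := rfl
  have h3 := expand1 L v.1 v.2
  have h4 : L (0, v.2) = (L.comp (ContinuousLinearMap.inr ℝ ℝ (Fin k → ℝ))) v.2 := rfl
  have h5 : L (0, v.2) = 0 := by
    rw [h4, pi_eq_sum_univ' v.2, map_sum]
    refine Finset.sum_eq_zero fun b _ => ?_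
    rw [map_smul]
    have h6 : (L.comp (ContinuousLinearMap.inr ℝ ℝ (Fin k → ℝ))) (Pi.single b (1 : ℝ)) = 0 :=
      h2 b
    rw [smul_eq_zero]
    exact Or.inr h6
  rw [h1, h5, mul_zero, sub_zero] at h3
  rw [e, h3]
  rfl

private theorem cont2 {E : Type*} [NormedAddCommGroup E] [NormedSpace ℝ E] {f : E → ℝ}
    (hf : ContDiff ℝ ∞ f) : Continuous (fun x => ‖fderiv ℝ (fderiv ℝ f) x‖) := by
  have h : (fun x => ‖fderiv ℝ (fderiv ℝ f) x‖) = fun x => ‖iteratedFDeriv ℝ 2 f x‖ := by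
    funext x
    rw [← norm_iteratedFDeriv_one, norm_iteratedFDeriv_fderiv]
  have c2 : Continuous (fun x => iteratedFDeriv ℝ 2 f x) :=
    hf.continuous_iteratedFDeriv (WithTop.coe_le_coe.2 (le_top : (2 : ℕ∞) ≤ ⊤))
  rw [h]
  exact c2.norm

private theorem mv2 {E : Type*} [NormedAddCommGroup E] [NormedSpace ℝ E] {f : E → ℝ}
    (hf : ContDiff ℝ ∞ f) {s : Set E} (hs : Convex ℝ s) {C : ℝ}
    (hb : ∀ x ∈ s, ‖iteratedFDeriv ℝ 3 f x‖ ≤ C) {x y : E} (hx : x ∈ s) (hy : y ∈ s) :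
    ‖fderiv ℝ (fderiv ℝ f) y - fderiv ℝ (fderiv ℝ f) x‖ ≤ C * ‖y - x‖ := by
  have c1 : ContDiff ℝ ∞ (fderiv ℝ f) := hf.fderiv_right (m := ∞) (by simp)
  have c2 : ContDiff ℝ ∞ (fderiv ℝ (fderiv ℝ f)) := c1.fderiv_right (m := ∞) (by simp)
  have d2 : Differentiable ℝ (fderiv ℝ (fderiv ℝ f)) := c2.differentiable (by simp)
  refine hs.norm_image_sub_le_of_norm_fderiv_le (𝕜 := ℝ) (f := fderiv ℝ (fderiv ℝ f)) (C := C)
    (fun z _ => d2 z) ?_ hx hy
  intro z hz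
  rw [← norm_iteratedFDeriv_one, norm_iteratedFDeriv_fderiv, norm_iteratedFDeriv_fderiv]
  exact hb z hz

private theorem ray_point {k : ℕ} {r : ℝ} (S : NSys k r) {δ : ℝ} (hδ1 : δ ≤ 1) (hδr : δ ≤ r)
    (hb : ∀ i j, ∀ x : E0 k, ‖x‖ < δ → ‖fderiv ℝ (S.q i j) x‖ ≤ 1 / 6 ∧
      ‖fderiv ℝ (fderiv ℝ (S.q i j)) x‖ ≤ 1 / 6 ∧
      ‖iteratedFDeriv ℝ 3 (S.q i j) x‖ ≤ 1 / 6)
    (h0 : ∀ i j, S.q i j 0 = 0) {s : ℝ} (hs0 : 0 ≤ s) (hs : s < δ) :
    Hyp S s (1 / 6) ‖ZV S s‖ := by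
  have hd1 : ∀ i j, Differentiable ℝ (S.q i j) := fun i j =>
    (S.smooth i j).differentiable (by simp)
  have hc2 : ∀ i j, ContDiff ℝ ∞ (fderiv ℝ (S.q i j)) := fun i j =>
    (S.smooth i j).fderiv_right (m := ∞) (by simp)
  have hd2 : ∀ i j, Differentiable ℝ (fderiv ℝ (S.q i j)) := fun i j =>
    (hc2 i j).differentiable (by simp)
  have hδ : 0 < δ := lt_of_le_of_lt hs0 hs
  have hns : ‖((s, 0) : E0 k)‖ = s := by
    rw [Prod.norm_def]
    simp [abs_of_nonneg hs0, hs0]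
  have hx0 : ((s, 0) : E0 k) ∈ Metric.ball (0 : E0 k) δ := by
    rw [mem_ball_zero_iff, hns]
    exact hs
  have h00 : (0 : E0 k) ∈ Metric.ball (0 : E0 k) δ := Metric.mem_ball_self hδ
  have hconv : Convex ℝ (Metric.ball (0 : E0 k) δ) := convex_ball _ _
  have hq : ∀ i j, |S.q i j (s, 0)| ≤ 1 / 6 * s := by
    intro i j
    have h := hconv.norm_image_sub_le_of_norm_fderiv_le (𝕜 := ℝ) (f := S.q i j) (C := 1 / 6)
      (fun x _ => hd1 i j x)
      (fun x hx => (hb i j x (mem_ball_zero_iff.1 hx)).1) h00 hx0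
    rw [h0 i j, sub_zero, sub_zero, hns] at h
    exact h
  have hη : ∀ i j, |S.q i j (s, 0)| ≤ ‖ZV S s‖ := by
    intro i j
    exact ((norm_le_pi_norm ((ZV S s).1 i) j).trans (norm_le_pi_norm (ZV S s).1 i)).trans
      (norm_fst_le _)
  have hP : ∀ l, NF S.q l (s, 0) - (s, 0) = ((0, fun b => S.q l b (s, 0)) : E0 k) := by
    intro l
    ext <;> simp [NF]
  have hPn : ∀ l, ‖NF S.q l (s, 0) - (s, 0)‖ ≤ ‖ZV S s‖ := by
    intro l
    rw [hP, Prod.norm_def]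
    refine max_le (by simp) ?_
    exact (pi_norm_le_iff_of_nonneg (norm_nonneg _)).2 fun b => hη l b
  have hPb : ∀ l, NF S.q l (s, 0) ∈ Metric.ball (0 : E0 k) δ := by
    intro l
    rw [mem_ball_zero_iff, Prod.norm_def]
    refine max_lt ?_ ?_
    · change |s + (0 : Fin k → ℝ) l| < δ
      rw [Pi.zero_apply, add_zero, abs_of_nonneg hs0]
      exact hs
    · rw [pi_norm_lt_iff hδ]
      intro b
      change |(0 : Fin k → ℝ) b + S.q l b (s, 0)| < δ
      rw [Pi.zero_apply, zero_add]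
      have := hq l b
      linarith
  have hΛ : ∀ i j b, |fderiv ℝ (S.q i j) (s, 0) (0, Pi.single b 1)| ≤ 1 / 6 := by
    intro i j b
    have h := (fderiv ℝ (S.q i j) (s, 0)).le_opNorm ((0, Pi.single b 1) : E0 k)
    have hn : ‖((0, Pi.single b 1) : E0 k)‖ ≤ 1 := by
      rw [Prod.norm_def]
      refine max_le (by simp) ((pi_norm_le_iff_of_nonneg zero_le_one).2 fun c => ?_)
      rcases eq_or_ne c b with h | h
      · subst h; simp
      · simp [h]
    have h' := (hb i j _ (mem_ball_zero_iff.1 hx0)).1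
    rw [Real.norm_eq_abs] at h
    nlinarith [norm_nonneg ((0, Pi.single b 1) : E0 k), norm_nonneg (fderiv ℝ (S.q i j) (s, 0))]
  refine ⟨?_, norm_nonneg _, ?_, by norm_num, ?_, ?_, ?_, ?_, ?_, ?_⟩
  · rw [abs_of_nonneg hs0]
    linarith
  · refine norm_prod_le_iff.2 ⟨?_, ?_⟩
    · refine (pi_norm_le_iff_of_nonneg zero_le_one).2 fun i =>
        (pi_norm_le_iff_of_nonneg zero_le_one).2 fun j => ?_
      change |S.q i j (s, 0)| ≤ 1
      linarith [hq i j]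
    · refine (pi_norm_le_iff_of_nonneg zero_le_one).2 fun i =>
        (pi_norm_le_iff_of_nonneg zero_le_one).2 fun j =>
        (pi_norm_le_iff_of_nonneg zero_le_one).2 fun l => ?_
      change |fderiv ℝ (S.q i j) (s, 0) (0, Pi.single l 1)| ≤ 1
      linarith [hΛ i j l]
  · intro i j l
    exact (hb i j _ (mem_ball_zero_iff.1 (hPb l))).1
  · intro i j l
    refine (hconv.norm_image_sub_le_of_norm_fderiv_le (𝕜 := ℝ) (f := fderiv ℝ (S.q i j))
      (C := 1 / 6) (fun x _ => hd2 i j x)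
      (fun x hx => (hb i j x (mem_ball_zero_iff.1 hx)).2.1) hx0 (hPb l)).trans ?_
    exact mul_le_mul_of_nonneg_left (hPn l) (by norm_num)
  · intro i j l
    exact (hb i j _ (mem_ball_zero_iff.1 (hPb l))).2.1
  · intro i j l
    refine (mv2 (S.smooth i j) hconv (C := 1 / 6)
      (fun x hx => (hb i j x (mem_ball_zero_iff.1 hx)).2.2) hx0 (hPb l)).trans ?_
    exact mul_le_mul_of_nonneg_left (hPn l) (by norm_num)
  · intro i j
    exact (hb i j _ (mem_ball_zero_iff.1 hx0)).2.1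
  · intro i j b
    have a1 : ‖(ZV S s).2‖ ≤ ‖ZV S s‖ := norm_snd_le _
    exact ((norm_le_pi_norm ((ZV S s).2 i j) b).trans
      ((norm_le_pi_norm ((ZV S s).2 i) j).trans (norm_le_pi_norm (ZV S s).2 i))).trans a1

private theorem small_ball {k : ℕ} {r : ℝ} (hr : 0 < r) (S : NSys k r) :
    ∃ δ : ℝ, 0 < δ ∧ δ ≤ 1 ∧ δ ≤ r ∧
      ∀ i j, ∀ x : E0 k, ‖x‖ < δ → ‖fderiv ℝ (S.q i j) x‖ ≤ 1 / 6 ∧
      ‖fderiv ℝ (fderiv ℝ (S.q i j)) x‖ ≤ 1 / 6 ∧
      ‖iteratedFDeriv ℝ 3 (S.q i j) x‖ ≤ 1 / 6 := by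
  have hev : ∀ᶠ x : E0 k in 𝓝 0, ∀ i j, ‖fderiv ℝ (S.q i j) x‖ ≤ 1 / 6 ∧
      ‖fderiv ℝ (fderiv ℝ (S.q i j)) x‖ ≤ 1 / 6 ∧
      ‖iteratedFDeriv ℝ 3 (S.q i j) x‖ ≤ 1 / 6 := by
    rw [Filter.eventually_all]
    intro i
    rw [Filter.eventually_all]
    intro j
    have c1 : ContDiff ℝ ∞ (fderiv ℝ (S.q i j)) :=
      (S.smooth i j).fderiv_right (m := ∞) (by simp)
    have c2 : ContDiff ℝ ∞ (fderiv ℝ (fderiv ℝ (S.q i j))) :=
      c1.fderiv_right (m := ∞) (by simp)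
    have c3 : Continuous (fun x => iteratedFDeriv ℝ 3 (S.q i j) x) :=
      (S.smooth i j).continuous_iteratedFDeriv (WithTop.coe_le_coe.2 (le_top : (3 : ℕ∞) ≤ ⊤))
    have z1 : ‖fderiv ℝ (S.q i j) 0‖ = 0 := by
      rw [← norm_iteratedFDeriv_one, S.flat i j 1, norm_zero]
    have z2 : ‖fderiv ℝ (fderiv ℝ (S.q i j)) 0‖ = 0 := by
      rw [← norm_iteratedFDeriv_one, norm_iteratedFDeriv_fderiv, S.flat i j 2, norm_zero]
    have z3 : ‖iteratedFDeriv ℝ 3 (S.q i j) 0‖ = 0 := by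
      rw [S.flat i j 3, norm_zero]
    have e1 : ∀ᶠ x in 𝓝 (0 : E0 k), ‖fderiv ℝ (S.q i j) x‖ < 1 / 6 := by
      have hc : Continuous (fun x => ‖fderiv ℝ (S.q i j) x‖) := c1.continuous.norm
      exact hc.continuousAt.eventually_lt continuousAt_const (by rw [z1]; norm_num)
    have e2 : ∀ᶠ x in 𝓝 (0 : E0 k), ‖fderiv ℝ (fderiv ℝ (S.q i j)) x‖ < 1 / 6 := by
      have hc : Continuous (fun x => ‖fderiv ℝ (fderiv ℝ (S.q i j)) x‖) :=
        cont2 (S.smooth i j)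
      exact hc.continuousAt.eventually_lt continuousAt_const (by rw [z2]; norm_num)
    have e3 : ∀ᶠ x in 𝓝 (0 : E0 k), ‖iteratedFDeriv ℝ 3 (S.q i j) x‖ < 1 / 6 := by
      have hc : Continuous (fun x => ‖iteratedFDeriv ℝ 3 (S.q i j) x‖) := c3.norm
      exact hc.continuousAt.eventually_lt continuousAt_const (by rw [z3]; norm_num)
    filter_upwards [e1, e2, e3] with x h1 h2 h3
    exact ⟨h1.le, h2.le, h3.le⟩
  obtain ⟨δ, hδ, hδb⟩ := Metric.eventually_nhds_iff_ball.1 hev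
  refine ⟨min δ (min 1 r), by positivity, ?_, ?_, ?_⟩
  · exact (min_le_right _ _).trans (min_le_left _ _)
  · exact (min_le_right _ _).trans (min_le_right _ _)
  · intro i j x hx
    exact hδb x (mem_ball_zero_iff.2 (lt_of_lt_of_le hx (min_le_left _ _))) i j

theorem ray_R1 {k : ℕ} (hk : 2 ≤ k) {r : ℝ} (hr : 0 < r) (S : NSys k r) :
    ∃ r' : ℝ, 0 < r' ∧ r' ≤ r ∧ ∀ i j, VanR 2 r' (S.q i j) := by
  obtain ⟨δ, hδ, hδ1, hδr, hb⟩ := small_ball hr S
  refine ⟨δ, hδ, hδr, ?_⟩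
  have h0 : ∀ i j, S.q i j 0 = 0 := by
    intro i j
    have h : ‖S.q i j 0‖ = 0 := by
      rw [← norm_iteratedFDeriv_zero (𝕜 := ℝ), S.flat i j 0, norm_zero]
    exact norm_eq_zero.1 h
  have h0' : ∀ i j, fderiv ℝ (S.q i j) (0, 0) = 0 := by
    intro i j
    have h : ‖fderiv ℝ (S.q i j) 0‖ = 0 := by
      rw [← norm_iteratedFDeriv_one, S.flat i j 1, norm_zero]
    exact norm_eq_zero.1 h
  have hY0 : YV S 0 = 0 := by
    have h0'' : ∀ i j, S.q i j (0, 0) = 0 := h0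
    refine Prod.ext ?_ (Prod.ext ?_ ?_)
    · funext i j
      exact h0'' i j
    · funext i j l
      change (if l = i then (0 : ℝ) else _) = 0
      rw [h0']
      simp
    · funext i j l
      change fderiv ℝ (S.q i j) (0, 0) (0, Pi.single i 1) -
        fderiv ℝ (S.q l j) (0, 0) (0, Pi.single l 1) = 0
      rw [h0', h0']
      simp
  have hY : ∀ s : ℝ, 0 ≤ s → s < δ → YV S s = 0 := by
    intro s hs0 hs
    have hcont : Continuous (YV S) :=
      continuous_iff_continuousAt.2 fun x => (YV_deriv S x).continuousAt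
    refine eq_zero_of_abs_deriv_le_mul_abs_self_of_eq_zero_right (f := YV S) (f' := YV' S)
      (K := (4 * k + 10) * 3) (a := 0) (b := s) hcont.continuousOn
      (fun x _ => (YV_deriv S x).hasDerivWithinAt) hY0 ?_ s ⟨hs0, le_rfl⟩
    intro x hx
    have H := ray_point S hδ1 hδr hb h0 hx.1 (hx.2.trans hs)
    have a1 := norm_YV' hk H
    have a2 := ZV_le hk H
    have hk0 : (0 : ℝ) ≤ k := Nat.cast_nonneg k
    calc ‖YV' S x‖ ≤ (4 * k + 10) * ‖ZV S x‖ := a1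
      _ ≤ (4 * k + 10) * (3 * ‖YV S x‖) := mul_le_mul_of_nonneg_left a2 (by linarith)
      _ = (4 * k + 10) * 3 * ‖YV S x‖ := by ring
  intro i j s hs0 hs m hm
  have H := ray_point S hδ1 hδr hb h0 hs0 hs
  have hZ : ‖ZV S s‖ ≤ 0 := by
    have := ZV_le hk H
    rwa [hY s hs0 hs, norm_zero, mul_zero] at this
  have hq : S.q i j (s, 0) = 0 := congrFun (congrFun (congrArg Prod.fst (hY s hs0 hs)) i) j
  have hd : fderiv ℝ (S.q i j) (s, 0) = 0 := by
    apply lin_zero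
    · obtain ⟨l, hl⟩ := exists_ne' hk i
      have h := (jets_basis H).1 i j l hl
      have h' : |fderiv ℝ (S.q i j) (s, 0) (1, 0)| ≤ 0 := by linarith
      exact abs_nonpos_iff.1 h'
    · intro b
      exact abs_nonpos_iff.1 ((H.lam i j b).trans hZ)
  interval_cases m
  · rw [← norm_eq_zero, norm_iteratedFDeriv_zero, hq, norm_zero]
  · rw [← norm_eq_zero, norm_iteratedFDeriv_one, hd, norm_zero]

end LatLin.B
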