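import Pool.Agent.Lib.MP_2392aa_gt.B.VanRay

/-!
MODULE RayS. The symbol of the difference operators along the ray.

PROOF of `symbol`. Put `v = (x.2 i, q i ·)`. `vanR_of_bound` (flatness at `0` of the difference: all
terms are flat at `0`, `Van.comp`, `NF q i 0 = 0` because `q` is flat). Near `(s0, 0)`, `0 < s0 < r`,
use the Taylor formula of order two for `f (x + v) - f x - Df(x) v`,
remainder `≤ sup |D²f (x + t v)[v, v]|`; write `v = (x.2 i) (1,0) + (0, q i x)`, `|q i x| ≤ C ‖y‖²`: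
`D²f[(1,0),(1,0)] = ds (ds f) = O(‖y‖^m)` times `‖y‖²`; mixed terms: `ds (dy b f) = O(‖y‖^(m-1))`
times `‖y‖ * ‖y‖²`; `dy dy f = O(‖y‖^(m-2))` times `‖y‖⁴` (for `m = 0, 1` replace negative exponents by
`0`; `VanR.unif` for these functions, evaluated at `x + t v`, whose second component has norm
`≤ 2 ‖y‖`). All are `O(‖y‖^(m+2))`.
`symbol3`: if `q` vanishes to order three then `∑ b, q i b * dy b f` vanishes to order `m + 2`.
`raise`: `x.2 i * ds f` and `∑ b, q i b * dy b f` vanish to order `m + 1`.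
-/

open scoped ContDiff Topology

namespace LatLin.B

private theorem nf_smooth {k : ℕ} {q : Fin k → Fin k → E0 k → ℝ}
    (hq : ∀ i j, ContDiff ℝ ∞ (q i j)) (i : Fin k) : ContDiff ℝ ∞ (NF q i) := by
  have h1 : ContDiff ℝ ∞ (fun x : E0 k => x.1 + x.2 i) :=
    contDiff_fst.add ((contDiff_apply ℝ ℝ i).comp contDiff_snd)
  have h2 : ContDiff ℝ ∞ (fun x : E0 k => fun j => x.2 j + q i j x) := by
    rw [contDiff_pi]
    intro j
    exact ((contDiff_apply ℝ ℝ j).comp contDiff_snd).add (hq i j)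
  exact h1.prodMk h2

private theorem ds_smooth {k : ℕ} {f : E0 k → ℝ} (hf : ContDiff ℝ ∞ f) : ContDiff ℝ ∞ (ds f) :=
  (hf.fderiv_right (m := ∞) (by simp)).clm_apply contDiff_const

private theorem dy_smooth {k : ℕ} {f : E0 k → ℝ} (hf : ContDiff ℝ ∞ f) (b : Fin k) :
    ContDiff ℝ ∞ (dy b f) :=
  (hf.fderiv_right (m := ∞) (by simp)).clm_apply contDiff_const

private theorem co_smooth {k : ℕ} (i : Fin k) : ContDiff ℝ ∞ (fun x : E0 k => x.2 i) :=
  (contDiff_apply ℝ ℝ i).comp contDiff_snd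

theorem DD_smooth {k : ℕ} {q : Fin k → Fin k → E0 k → ℝ} (hq : ∀ i j, ContDiff ℝ ∞ (q i j))
    {f : E0 k → ℝ} (hf : ContDiff ℝ ∞ f) (i : Fin k) : ContDiff ℝ ∞ (DD (NF q i) f) :=
  (hf.comp (nf_smooth hq i)).sub hf

theorem DD_flat {k : ℕ} {q : Fin k → Fin k → E0 k → ℝ} (hq : ∀ i j, ContDiff ℝ ∞ (q i j))
    (hqf : ∀ i j, FlatAt (q i j) 0) {f : E0 k → ℝ} (hf : ContDiff ℝ ∞ f) (hf0 : FlatAt f 0)
    (i : Fin k) : FlatAt (DD (NF q i) f) 0 := by
  rw [flatAt_iff] at hf0 ⊢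
  intro m
  have hq0 : ∀ j, q i j 0 = 0 := by
    intro j
    have h : ‖q i j 0‖ = 0 := by
      rw [← norm_iteratedFDeriv_zero (𝕜 := ℝ), hqf i j 0, norm_zero]
    exact norm_eq_zero.1 h
  have h0 : NF q i 0 = 0 := by
    ext
    · simp [NF]
    · simp [NF, hq0]
  have h1 : Van m (fun z => f (NF q i z)) 0 := by
    apply Van.comp hf (nf_smooth hq i)
    rw [h0]
    exact hf0 m
  exact Van.sub (hf.comp (nf_smooth hq i)) hf h1 (hf0 m)

private theorem taylor2 {k : ℕ} {f : E0 k → ℝ} (hf : ContDiff ℝ ∞ f) (x v : E0 k) (B : ℝ)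
    (hB : ∀ t : ℝ, 0 ≤ t → t ≤ 1 → |fderiv ℝ (fderiv ℝ f) (x + t • v) v v| ≤ B) :
    |f (x + v) - f x - fderiv ℝ f x v| ≤ B := by
  have h1 : Differentiable ℝ f := hf.differentiable (by simp)
  have h2 : Differentiable ℝ (fderiv ℝ f) :=
    (hf.fderiv_right (m := ∞) (by simp)).differentiable (by simp)
  have hc : ∀ t : ℝ, HasDerivAt (fun t : ℝ => x + t • v) v t := by
    intro t
    have h : HasDerivAt (fun t : ℝ => t • v) v t := by
      simpa using (hasDerivAt_id t).smul_const v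
    exact h.const_add x
  have d1 : ∀ t : ℝ, HasDerivAt (fun t : ℝ => f (x + t • v)) (fderiv ℝ f (x + t • v) v) t :=
    fun t => (h1 _).hasFDerivAt.comp_hasDerivAt t (hc t)
  have d2 : ∀ t : ℝ, HasDerivAt (fun t : ℝ => fderiv ℝ f (x + t • v) v)
      (fderiv ℝ (fderiv ℝ f) (x + t • v) v v) t := by
    intro t
    have h := ((h2 _).hasFDerivAt.comp_hasDerivAt t (hc t)).clm_apply (hasDerivAt_const t v)
    simpa using h
  have hI0 : (0 : ℝ) ∈ Set.Icc (0 : ℝ) 1 := by simp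
  have hI1 : (1 : ℝ) ∈ Set.Icc (0 : ℝ) 1 := by simp
  have hB0 : 0 ≤ B := (abs_nonneg _).trans (hB 0 le_rfl zero_le_one)
  have e1 : ∀ t ∈ Set.Icc (0 : ℝ) 1, |fderiv ℝ f (x + t • v) v - fderiv ℝ f x v| ≤ B := by
    intro t ht
    have h := (convex_Icc (0 : ℝ) 1).norm_image_sub_le_of_norm_hasDerivWithin_le
      (f := fun t : ℝ => fderiv ℝ f (x + t • v) v)
      (f' := fun t : ℝ => fderiv ℝ (fderiv ℝ f) (x + t • v) v v) (C := B)
      (fun u _ => (d2 u).hasDerivWithinAt)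
      (fun u hu => hB u hu.1 hu.2) hI0 ht
    simp only [zero_smul, add_zero, sub_zero] at h
    rw [Real.norm_eq_abs, Real.norm_eq_abs, abs_of_nonneg ht.1] at h
    nlinarith [ht.2]
  have h := (convex_Icc (0 : ℝ) 1).norm_image_sub_le_of_norm_hasDerivWithin_le
    (f := fun t : ℝ => f (x + t • v) - t * fderiv ℝ f x v)
    (f' := fun t : ℝ => fderiv ℝ f (x + t • v) v - fderiv ℝ f x v) (C := B)
    (fun u _ => ((d1 u).sub (by simpa using (hasDerivAt_id u).mul_const (fderiv ℝ f x v))).hasDerivWithinAt)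
    e1 hI0 hI1
  simp only [zero_smul, add_zero, sub_zero, one_smul, zero_mul, one_mul, norm_one, mul_one] at h
  rw [Real.norm_eq_abs] at h
  have e2 : f (x + v) - f x - fderiv ℝ f x v = f (x + v) - fderiv ℝ f x v - f x := by ring
  rw [e2]
  exact h

private theorem ds_der {k : ℕ} {f : E0 k → ℝ} (hf : ContDiff ℝ ∞ f) (z w : E0 k) :
    fderiv ℝ (ds f) z w = fderiv ℝ (fderiv ℝ f) z w (1, 0) := by
  have h2 : Differentiable ℝ (fderiv ℝ f) :=
    (hf.fderiv_right (m := ∞) (by simp)).differentiable (by simp)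
  have h := ((h2 z).hasFDerivAt.clm_apply (hasFDerivAt_const ((1, 0) : E0 k) z)).fderiv
  have e : ds f = fun y => fderiv ℝ f y (1, 0) := rfl
  rw [e, h]
  simp

private theorem quad_bound {k : ℕ} {f : E0 k → ℝ} (hf : ContDiff ℝ ∞ f) (z : E0 k) (u : ℝ)
    (w : Fin k → ℝ) : |fderiv ℝ (fderiv ℝ f) z (u, w) (u, w)| ≤
      |u| ^ 2 * |ds (ds f) z| + 2 * (|u| * (‖fderiv ℝ (ds f) z‖ * ‖w‖)) +
        ‖fderiv ℝ (fderiv ℝ f) z‖ * ‖w‖ * ‖w‖ := by
  have hsym : ∀ v v' : E0 k, fderiv ℝ (fderiv ℝ f) z v v' = fderiv ℝ (fderiv ℝ f) z v' v := by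
    intro v v'
    have := (hf.contDiffAt (x := z)).isSymmSndFDerivAt (by
      rw [minSmoothness_of_isRCLikeNormedField]
      exact WithTop.coe_le_coe.2 (le_top : (2 : ℕ∞) ≤ ⊤))
    exact this.eq v v'
  have e : ((u, w) : E0 k) = u • ((1, 0) : E0 k) + ((0, w) : E0 k) := by
    ext <;> simp
  have hn : ‖((0, w) : E0 k)‖ = ‖w‖ := by
    rw [Prod.norm_def]
    simp
  have e1 : fderiv ℝ (fderiv ℝ f) z (u, w) (u, w) = u ^ 2 * ds (ds f) z +
      2 * (u * fderiv ℝ (ds f) z (0, w)) + fderiv ℝ (fderiv ℝ f) z (0, w) (0, w) := by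
    have e3 : ds (ds f) z = fderiv ℝ (fderiv ℝ f) z (1, 0) (1, 0) := by
      change fderiv ℝ (ds f) z (1, 0) = _
      exact ds_der hf z _
    rw [e3, ds_der hf, e]
    simp only [map_add, map_smul, ContinuousLinearMap.add_apply, ContinuousLinearMap.smul_apply,
      smul_eq_mul]
    rw [hsym (1, 0) (0, w)]
    ring
  rw [e1]
  have a1 : |fderiv ℝ (ds f) z (0, w)| ≤ ‖fderiv ℝ (ds f) z‖ * ‖w‖ := by
    have h := (fderiv ℝ (ds f) z).le_opNorm ((0, w) : E0 k)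
    rwa [hn] at h
  have a2 : |fderiv ℝ (fderiv ℝ f) z (0, w) (0, w)| ≤ ‖fderiv ℝ (fderiv ℝ f) z‖ * ‖w‖ * ‖w‖ := by
    have h := (fderiv ℝ (fderiv ℝ f) z).le_opNorm₂ ((0, w) : E0 k) ((0, w) : E0 k)
    rwa [hn] at h
  have b1 := abs_add_le (u ^ 2 * ds (ds f) z + 2 * (u * fderiv ℝ (ds f) z (0, w)))
    (fderiv ℝ (fderiv ℝ f) z (0, w) (0, w))
  have b2 := abs_add_le (u ^ 2 * ds (ds f) z) (2 * (u * fderiv ℝ (ds f) z (0, w)))
  have b3 : |u ^ 2 * ds (ds f) z| = |u| ^ 2 * |ds (ds f) z| := by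
    rw [abs_mul, abs_pow]
  have b4 : |2 * (u * fderiv ℝ (ds f) z (0, w))| = 2 * (|u| * |fderiv ℝ (ds f) z (0, w)|) := by
    rw [abs_mul, abs_mul, abs_of_pos (by norm_num : (0 : ℝ) < 2)]
  have b5 : |u| * |fderiv ℝ (ds f) z (0, w)| ≤ |u| * (‖fderiv ℝ (ds f) z‖ * ‖w‖) :=
    mul_le_mul_of_nonneg_left a1 (abs_nonneg _)
  linarith

private theorem lin_expand {k : ℕ} (L : E0 k →L[ℝ] ℝ) (u : ℝ) (w : Fin k → ℝ) :
    L (u, w) = u * L (1, 0) + ∑ b, w b * L (0, Pi.single b 1) := by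
  have e : ((u, w) : E0 k) = u • ((1, 0) : E0 k) + ((0, w) : E0 k) := by
    ext <;> simp
  have h4 : L (0, w) = (L.comp (ContinuousLinearMap.inr ℝ ℝ (Fin k → ℝ))) w := rfl
  rw [e, map_add, map_smul, smul_eq_mul, h4]
  congr 1
  conv_lhs => rw [pi_eq_sum_univ' w]
  rw [map_sum]
  refine Finset.sum_congr rfl fun b _ => ?_
  rw [map_smul, smul_eq_mul]
  rfl

private theorem vanR_fderiv {k m : ℕ} {r : ℝ} {F : Type*} [NormedAddCommGroup F]
    [NormedSpace ℝ F] {f : E0 k → F} (h : VanR m r f) :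
    VanR (m - 1) r (fun z => fderiv ℝ f z) := by
  intro s hs hs'
  cases m with
  | zero =>
    intro j hj
    omega
  | succ m => exact (h s hs hs').der

private theorem unif2 {k m : ℕ} {r r' : ℝ} (hr : r' < r) {f : E0 k → ℝ} (hf : ContDiff ℝ ∞ f)
    (h : VanR m r f) : ∃ C : ℝ, 0 ≤ C ∧ ∀ s : ℝ, 0 ≤ s → s ≤ r' → ∀ y : Fin k → ℝ, ‖y‖ ≤ 1 →
      ‖fderiv ℝ (fderiv ℝ f) (s, y)‖ ≤ C * ‖y‖ ^ (m - 2) := by
  have c1 : ContDiff ℝ ∞ (fderiv ℝ f) := hf.fderiv_right (m := ∞) (by simp)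
  have c2 : ContDiff ℝ ∞ (fderiv ℝ (fderiv ℝ f)) := c1.fderiv_right (m := ∞) (by simp)
  have h1 : VanR (m - 1) r (fderiv ℝ f) := vanR_fderiv h
  have h2 : VanR (m - 1 - 1) r (fderiv ℝ (fderiv ℝ f)) := vanR_fderiv h1
  have h3 := h2.unif hr c2
  rwa [Nat.sub_sub] at h3

private theorem unif1 {k m : ℕ} {r r' : ℝ} (hr : r' < r) {f : E0 k → ℝ} (hf : ContDiff ℝ ∞ f)
    (h : VanR m r f) : ∃ C : ℝ, 0 ≤ C ∧ ∀ s : ℝ, 0 ≤ s → s ≤ r' → ∀ y : Fin k → ℝ, ‖y‖ ≤ 1 →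
      ‖fderiv ℝ (ds f) (s, y)‖ ≤ C * ‖y‖ ^ (m - 1) := by
  have c1 : ContDiff ℝ ∞ (ds f) := ds_smooth hf
  have c2 : ContDiff ℝ ∞ (fderiv ℝ (ds f)) := c1.fderiv_right (m := ∞) (by simp)
  have h1 : VanR (m - 1) r (fderiv ℝ (ds f)) := vanR_fderiv (ds_vanR hf h)
  exact h1.unif hr c2

private theorem unif0 {k m : ℕ} {r r' : ℝ} (hr : r' < r) {f : E0 k → ℝ} (hf : ContDiff ℝ ∞ f)
    (h : VanR m r f) : ∃ C : ℝ, 0 ≤ C ∧ ∀ s : ℝ, 0 ≤ s → s ≤ r' → ∀ y : Fin k → ℝ, ‖y‖ ≤ 1 →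
      |ds (ds f) (s, y)| ≤ C * ‖y‖ ^ m := by
  have c1 : ContDiff ℝ ∞ (ds f) := ds_smooth hf
  exact (ds_vanR c1 (ds_vanR hf h)).unif hr (ds_smooth c1)

private theorem pow_le' {p : ℝ} (hp0 : 0 ≤ p) (hp1 : p ≤ 1) {a b : ℕ} (h : b ≤ a) :
    p ^ a ≤ p ^ b := pow_le_pow_of_le_one hp0 hp1 h

private theorem final_bound {p n C0 C1 C2 D a b c d w : ℝ} {m : ℕ} (hp0 : 0 ≤ p) (hp1 : p ≤ 1)
    (hn0 : 0 ≤ n) (hn : n ≤ 2 * p) (hC0 : 0 ≤ C0) (hC1 : 0 ≤ C1) (hC2 : 0 ≤ C2) (hD : 0 ≤ D)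
    (ha0 : 0 ≤ a) (ha : a ≤ p) (hb : b ≤ C0 * n ^ m) (hc : c ≤ C1 * n ^ (m - 1))
    (hc0 : 0 ≤ c) (hd0 : 0 ≤ d) (hb0 : 0 ≤ b)
    (hd : d ≤ C2 * n ^ (m - 2)) (hw0 : 0 ≤ w) (hw : w ≤ D * p ^ 2) :
    a ^ 2 * b + 2 * (a * (c * w)) + d * w * w ≤
      (C0 * 2 ^ m + 2 * (C1 * 2 ^ (m - 1) * D) + C2 * 2 ^ (m - 2) * D * D) * p ^ (m + 2) := by
  have hnp : ∀ e : ℕ, n ^ e ≤ 2 ^ e * p ^ e := by
    intro e
    rw [← mul_pow]
    exact pow_le_pow_left₀ hn0 hn e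
  have e1 : a ^ 2 * b ≤ C0 * 2 ^ m * p ^ (m + 2) := by
    have h1 : a ^ 2 ≤ p ^ 2 := pow_le_pow_left₀ ha0 ha 2
    have h2 : b ≤ C0 * (2 ^ m * p ^ m) := hb.trans (mul_le_mul_of_nonneg_left (hnp m) hC0)
    calc a ^ 2 * b ≤ p ^ 2 * (C0 * (2 ^ m * p ^ m)) := mul_le_mul h1 h2 hb0 (by positivity)
      _ = C0 * 2 ^ m * p ^ (m + 2) := by ring
  have e2 : a * (c * w) ≤ C1 * 2 ^ (m - 1) * D * p ^ (m + 2) := by
    have h2 : c ≤ C1 * (2 ^ (m - 1) * p ^ (m - 1)) :=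
      hc.trans (mul_le_mul_of_nonneg_left (hnp (m - 1)) hC1)
    have h3 : c * w ≤ (C1 * (2 ^ (m - 1) * p ^ (m - 1))) * (D * p ^ 2) :=
      mul_le_mul h2 hw hw0 (by positivity)
    calc a * (c * w) ≤ p * ((C1 * (2 ^ (m - 1) * p ^ (m - 1))) * (D * p ^ 2)) :=
          mul_le_mul ha h3 (by positivity) hp0
      _ = C1 * 2 ^ (m - 1) * D * p ^ (m - 1 + 3) := by ring
      _ ≤ C1 * 2 ^ (m - 1) * D * p ^ (m + 2) :=
          mul_le_mul_of_nonneg_left (pow_le' hp0 hp1 (by omega)) (by positivity)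
  have e3 : d * w * w ≤ C2 * 2 ^ (m - 2) * D * D * p ^ (m + 2) := by
    have h2 : d ≤ C2 * (2 ^ (m - 2) * p ^ (m - 2)) :=
      hd.trans (mul_le_mul_of_nonneg_left (hnp (m - 2)) hC2)
    calc d * w * w ≤ (C2 * (2 ^ (m - 2) * p ^ (m - 2))) * (D * p ^ 2) * (D * p ^ 2) :=
          mul_le_mul (mul_le_mul h2 hw hw0 (by positivity)) hw hw0 (by positivity)
      _ = C2 * 2 ^ (m - 2) * D * D * p ^ (m - 2 + 4) := by ring
      _ ≤ C2 * 2 ^ (m - 2) * D * D * p ^ (m + 2) :=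
          mul_le_mul_of_nonneg_left (pow_le' hp0 hp1 (by omega)) (by positivity)
  nlinarith

theorem symbol {k m : ℕ} {r : ℝ} {q : Fin k → Fin k → E0 k → ℝ}
    (hq : ∀ i j, ContDiff ℝ ∞ (q i j)) (hqf : ∀ i j, FlatAt (q i j) 0)
    (hq2 : ∀ i j, VanR 2 r (q i j)) {f : E0 k → ℝ} (hf : ContDiff ℝ ∞ f) (hf0 : FlatAt f 0)
    (h : VanR m r f) (i : Fin k) :
    VanR (m + 2) r (fun x => DD (NF q i) f x - x.2 i * ds f x - ∑ b, q i b x * dy b f x) := by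
  have hs1 : ContDiff ℝ ∞ (fun x : E0 k => x.2 i * ds f x) := (co_smooth i).mul (ds_smooth hf)
  have hs2 : ∀ b : Fin k, ContDiff ℝ ∞ (fun x : E0 k => q i b x * dy b f x) :=
    fun b => (hq i b).mul (dy_smooth hf b)
  have hs3 : ContDiff ℝ ∞ (fun x : E0 k => ∑ b, q i b x * dy b f x) :=
    ContDiff.sum fun b _ => hs2 b
  have hs4 : ContDiff ℝ ∞ (fun x => DD (NF q i) f x - x.2 i * ds f x) :=
    (DD_smooth hq hf i).sub hs1
  refine vanR_of_bound (hs4.sub hs3) ?_ ?_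
  · -- flat at zero
    rw [flatAt_iff]
    intro n
    have hf0' := flatAt_iff.1 hf0
    refine Van.sub hs4 hs3 (Van.sub (DD_smooth hq hf i) hs1
      (flatAt_iff.1 (DD_flat hq hqf hf hf0 i) n) ?_) (Van.sum _ (fun b _ => hs2 b) ?_)
    · have h1 : Van 0 (fun x : E0 k => x.2 i) 0 := fun j hj => by omega
      have h2 := Van.mul (co_smooth i) (ds_smooth hf) h1 (Van.dir hf (hf0' (n + 1)) (1, 0))
      rwa [zero_add] at h2
    · intro b _
      have h1 : Van 0 (q i b) 0 := fun j hj => by omega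
      have h2 := Van.mul (hq i b) (dy_smooth hf b) h1
        (Van.dir hf (hf0' (n + 1)) (0, Pi.single b 1))
      rwa [zero_add] at h2
  · intro s0 hs0 hs0r
    obtain ⟨C0, hC0, h0⟩ := unif0 (r' := (s0 + r) / 2) (by linarith) hf h
    obtain ⟨C1, hC1, h1⟩ := unif1 (r' := (s0 + r) / 2) (by linarith) hf h
    obtain ⟨C2, hC2, h2⟩ := unif2 (r' := (s0 + r) / 2) (by linarith) hf h
    choose Cq hCq hq' using fun j => (hq2 i j).unif (r' := (s0 + r) / 2) (by linarith) (hq i j)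
    set D : ℝ := ∑ j, Cq j with hD
    have hD0 : 0 ≤ D := Finset.sum_nonneg fun j _ => hCq j
    have hqn : ∀ s : ℝ, 0 ≤ s → s ≤ (s0 + r) / 2 → ∀ y : Fin k → ℝ, ‖y‖ ≤ 1 →
        ‖fun b => q i b (s, y)‖ ≤ D * ‖y‖ ^ 2 := by
      intro s hs hs' y hy
      refine (pi_norm_le_iff_of_nonneg (by positivity)).2 fun b => ?_
      refine (hq' b s hs hs' y hy).trans ?_
      exact mul_le_mul_of_nonneg_right
        (Finset.single_le_sum (f := Cq) (fun j _ => hCq j) (Finset.mem_univ b)) (by positivity)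
    refine ⟨C0 * 2 ^ m + 2 * (C1 * 2 ^ (m - 1) * D) + C2 * 2 ^ (m - 2) * D * D,
      min (min (1 / 2) (1 / (D + 1))) (min (s0 / 2) ((r - s0) / 4)), ?_, ?_⟩
    · have : 0 < r - s0 := by linarith
      positivity
    · intro s hs y hy
      have hy1 : ‖y‖ < 1 / 2 := lt_of_lt_of_le hy ((min_le_left _ _).trans (min_le_left _ _))
      have hy2 : ‖y‖ < 1 / (D + 1) :=
        lt_of_lt_of_le hy ((min_le_left _ _).trans (min_le_right _ _))
      have hy3 : ‖y‖ < s0 / 2 := lt_of_lt_of_le hy ((min_le_right _ _).trans (min_le_left _ _))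
      have hy4 : ‖y‖ < (r - s0) / 4 :=
        lt_of_lt_of_le hy ((min_le_right _ _).trans (min_le_right _ _))
      have hs3' : |s - s0| < s0 / 2 := lt_of_lt_of_le hs ((min_le_right _ _).trans (min_le_left _ _))
      have hs4' : |s - s0| < (r - s0) / 4 :=
        lt_of_lt_of_le hs ((min_le_right _ _).trans (min_le_right _ _))
      rw [abs_lt] at hs3' hs4'
      have hyD : ‖y‖ * D ≤ 1 := by
        rw [lt_div_iff₀ (by linarith)] at hy2
        nlinarith [norm_nonneg y]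
      have hyi : |y i| ≤ ‖y‖ := norm_le_pi_norm y i
      have hyi' := abs_le.1 hyi
      have hyn := norm_nonneg y
      set w : Fin k → ℝ := fun b => q i b (s, y) with hw
      have hwn : ‖w‖ ≤ D * ‖y‖ ^ 2 := hqn s (by linarith) (by linarith) y (by linarith)
      have hwy : ‖w‖ ≤ ‖y‖ := by nlinarith
      have hNF : NF q i (s, y) = (s, y) + ((y i, w) : E0 k) := rfl
      have hR : DD (NF q i) f (s, y) - y i * ds f (s, y) - ∑ b, q i b (s, y) * dy b f (s, y) =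
          f ((s, y) + ((y i, w) : E0 k)) - f (s, y) - fderiv ℝ f (s, y) (y i, w) := by
        rw [lin_expand, DD, hNF]
        have e1 : ds f (s, y) = fderiv ℝ f (s, y) (1, 0) := rfl
        have e2 : ∀ b, dy b f (s, y) = fderiv ℝ f (s, y) (0, Pi.single b 1) := fun b => rfl
        simp only [e1, e2, hw]
        ring
      change ‖DD (NF q i) f (s, y) - y i * ds f (s, y) - ∑ b, q i b (s, y) * dy b f (s, y)‖ ≤ _
      rw [hR, Real.norm_eq_abs]
      refine taylor2 hf _ _ _ ?_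
      intro t ht0 ht1
      have hz : ((s, y) + t • ((y i, w) : E0 k)) = ((s + t * y i, y + t • w) : E0 k) := rfl
      rw [hz]
      have hz1 : ‖y + t • w‖ ≤ 2 * ‖y‖ := by
        have a1 := norm_add_le y (t • w)
        rw [norm_smul, Real.norm_eq_abs, abs_of_nonneg ht0] at a1
        nlinarith [norm_nonneg w]
      have hty : |t * y i| ≤ ‖y‖ := by
        rw [abs_mul, abs_of_nonneg ht0]
        nlinarith [abs_nonneg (y i)]
      have hty' := abs_le.1 hty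
      have hz2 : 0 ≤ s + t * y i := by linarith
      have hz3 : s + t * y i ≤ (s0 + r) / 2 := by linarith
      have hz4 : ‖y + t • w‖ ≤ 1 := by linarith
      refine (quad_bound hf _ _ _).trans ?_
      exact final_bound hyn (by linarith) (norm_nonneg (y + t • w)) hz1 hC0 hC1 hC2 hD0
        (abs_nonneg _) hyi (h0 _ hz2 hz3 _ hz4) (h1 _ hz2 hz3 _ hz4) (norm_nonneg _)
        (norm_nonneg (fderiv ℝ (fderiv ℝ f) (s + t * y i, y + t • w))) (abs_nonneg _)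
        (h2 _ hz2 hz3 _ hz4) (norm_nonneg _) hwn

private theorem dir_van {k m : ℕ} {f : E0 k → ℝ} (hf : ContDiff ℝ ∞ f) {x : E0 k}
    (h : Van m f x) (b : Fin k) : Van (m - 1) (dy b f) x := by
  cases m with
  | zero =>
    intro j hj
    omega
  | succ m => exact Van.dir hf h _

private theorem sum_van {k m a : ℕ} {r : ℝ} {q : Fin k → Fin k → E0 k → ℝ}
    (hq : ∀ i j, ContDiff ℝ ∞ (q i j)) (hq2 : ∀ i j, VanR a r (q i j)) {f : E0 k → ℝ}
    (hf : ContDiff ℝ ∞ f) (h : VanR m r f) (i : Fin k) :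
    VanR (a + (m - 1)) r (fun x => ∑ b, q i b x * dy b f x) := by
  intro s hs hs'
  refine Van.sum _ (fun b _ => (hq i b).mul (dy_smooth hf b)) fun b _ => ?_
  exact Van.mul (hq i b) (dy_smooth hf b) (hq2 i b s hs hs') (dir_van hf (h s hs hs') b)

theorem raise {k m : ℕ} {r : ℝ} {q : Fin k → Fin k → E0 k → ℝ}
    (hq : ∀ i j, ContDiff ℝ ∞ (q i j)) (hqf : ∀ i j, FlatAt (q i j) 0)
    (hq2 : ∀ i j, VanR 2 r (q i j)) {f : E0 k → ℝ} (hf : ContDiff ℝ ∞ f) (hf0 : FlatAt f 0)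
    (h : VanR m r f) (i : Fin k) : VanR (m + 1) r (DD (NF q i) f) := by
  intro s hs hs'
  have h1 := (symbol hq hqf hq2 hf hf0 h i s hs hs').mono (m' := m + 1) (by omega)
  have h2 := (sum_van hq hq2 hf h i s hs hs').mono (m' := m + 1) (by omega)
  have hs1 : ContDiff ℝ ∞ (fun x : E0 k => x.2 i * ds f x) := (co_smooth i).mul (ds_smooth hf)
  have hs3 : ContDiff ℝ ∞ (fun x : E0 k => ∑ b, q i b x * dy b f x) :=
    ContDiff.sum fun b _ => (hq i b).mul (dy_smooth hf b)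
  have hs4 : ContDiff ℝ ∞ (fun x => DD (NF q i) f x - x.2 i * ds f x) :=
    (DD_smooth hq hf i).sub hs1
  have h3 : Van (m + 1) (fun x : E0 k => x.2 i * ds f x) (s, 0) := by
    have h4 : Van 1 (fun x : E0 k => x.2 i) (s, 0) := by
      intro j hj
      interval_cases j
      rw [← norm_eq_zero, norm_iteratedFDeriv_zero]
      simp
    have h5 := Van.mul (co_smooth i) (ds_smooth hf) h4 (ds_vanR hf h s hs hs')
    rwa [add_comm 1 m] at h5
  have h6 := Van.add ((hs4.sub hs3).add hs1) hs3 (Van.add (hs4.sub hs3) hs1 h1 h3) h2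
  refine h6.congr (Filter.Eventually.of_forall fun x => ?_)
  change DD (NF q i) f x - x.2 i * ds f x - ∑ b, q i b x * dy b f x + x.2 i * ds f x +
    ∑ b, q i b x * dy b f x = DD (NF q i) f x
  ring

theorem symbol3 {k m : ℕ} {r : ℝ} {q : Fin k → Fin k → E0 k → ℝ}
    (hq : ∀ i j, ContDiff ℝ ∞ (q i j)) (hqf : ∀ i j, FlatAt (q i j) 0)
    (hq3 : ∀ i j, VanR 3 r (q i j)) {f : E0 k → ℝ} (hf : ContDiff ℝ ∞ f) (hf0 : FlatAt f 0)
    (h : VanR m r f) (i : Fin k) :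
    VanR (m + 2) r (fun x => DD (NF q i) f x - x.2 i * ds f x) := by
  intro s hs hs'
  have hq2 : ∀ i j, VanR 2 r (q i j) := fun i j s hs hs' => (hq3 i j s hs hs').mono (by omega)
  have h1 := symbol hq hqf hq2 hf hf0 h i s hs hs'
  have h2 := (sum_van hq hq3 hf h i s hs hs').mono (m' := m + 2) (by omega)
  have hs1 : ContDiff ℝ ∞ (fun x : E0 k => x.2 i * ds f x) := (co_smooth i).mul (ds_smooth hf)
  have hs3 : ContDiff ℝ ∞ (fun x : E0 k => ∑ b, q i b x * dy b f x) :=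
    ContDiff.sum fun b _ => (hq i b).mul (dy_smooth hf b)
  have hs4 : ContDiff ℝ ∞ (fun x => DD (NF q i) f x - x.2 i * ds f x) :=
    (DD_smooth hq hf i).sub hs1
  have h6 := Van.add (hs4.sub hs3) hs3 h1 h2
  refine h6.congr (Filter.Eventually.of_forall fun x => ?_)
  change DD (NF q i) f x - x.2 i * ds f x - ∑ b, q i b x * dy b f x +
    ∑ b, q i b x * dy b f x = DD (NF q i) f x - x.2 i * ds f x
  ring

end LatLin.B
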