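import Pool.Agent.Lib.MP_2392aa_gt.B.RayR1
import Pool.Agent.Lib.MP_2392aa_gt.B.RayS

/-!
MODULE RayR2. The second order terms along the ray, once the normalization
`dy 0 (dy 1 (q 0 1)) (s, 0) = 0` holds.

PROOF of `algR2`. `O(ε)` denotes a quantity bounded by a constant times `ε`. (1) If `b, c ≠ i`: choose
`l ≠ i` and the triple `(l, b, c)`: no minus terms, so `B i j b c = O(ε)` (one, two or three equal
plus terms). By symmetry also if `b, c ≠ j`. Remaining: `i ≠ j`, `{b, c} = {i, j}`, and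
`i = j`, `i ∈ {b, c}`. (2) `c ≠ i`: `(i, i, l = c)` and the triple `(c, i, c)`:
`2 B i i i c - B c i c c = O(ε)`, and `B c i c c = B i c c c = O(ε)` by (1). (3) For distinct
`i, j, l` the triple `(l, i, j)`: `B i j i j - B l j l j = O(ε)`; with the symmetries all
`B i j i j`, `i ≠ j`, are equal up to `O(ε)` to `B 0 1 0 1 = 0`. (4) `l ≠ i`, `(i, i, l)`, triple
`(l, i, i)`: `B i i i i - 2 B l i l i = O(ε)`.

PROOF of `ray_R2b`. Let `B(s) i j a b = dy a (dy b (q i j)) (s,0)`; it is symmetric (`NSys.symm`,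
symmetry of second derivatives). By `NSys.cross` and `symbol` (`m = 2`) the function
`h = y l * ds q i j + ∑ d, q l d * dy d (q i j) - (y i * ds q l j + ∑ d, q i d * dy d (q l j))`
vanishes to order `4` on the segment. Its third derivative at `(s,0)` in the directions
`y a, y b, y c` is (`q` vanishes to order 2, `y l` is linear)
`P (B'(s)) i j l a b c + N(s)`, `|N(s)| ≤ C ‖B(s)‖²`, where `N` is a sum of products
`B l d (b,c) * B i j (d,a)`; here `B'` is the derivative in `s`
(`ds` commutes with `dy`). So `|P (B') | ≤ C ‖B‖²`, `algR2` applied to `B'(s)`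
(`B' 0 1 0 1 = 0` on `[0, r)`) gives `‖B'‖ ≤ C' ‖B‖` on `[0, r']` for every `r' < r`, `B(0) = 0`, and
Gronwall gives `B = 0`. Since all first derivatives vanish on the ray (`VanR 2`), also
the second derivatives involving `s` vanish: `Van 3`.
-/

open scoped ContDiff Topology

namespace LatLin.B

/-- the linear map of the cubic relation -/
def PP {k : ℕ} (B : Fin k → Fin k → Fin k → Fin k → ℝ) (i j l a b c : Fin k) : ℝ :=
  (if a = l then B i j b c else 0) + (if b = l then B i j a c else 0) +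
    (if c = l then B i j a b else 0) - (if a = i then B l j b c else 0) -
    (if b = i then B l j a c else 0) - (if c = i then B l j a b else 0)

private theorem alg_one {k : ℕ} {B : Fin k → Fin k → Fin k → Fin k → ℝ} {ε : ℝ}
    (hb : ∀ i j a b, B i j a b = B i j b a)
    (h : ∀ i j l a b c, |PP B i j l a b c| ≤ ε) (i j b c : Fin k) (hbi : b ≠ i) (hci : c ≠ i) :
    |B i j b c| ≤ ε := by
  obtain ⟨l, hl⟩ : ∃ l : Fin k, l ≠ i := ⟨b, hbi⟩
  have h1 := h i j l l b c
  unfold PP at h1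
  rw [if_pos rfl, if_neg hl, if_neg hbi, if_neg hci] at h1
  by_cases hbl : b = l
  · subst hbl
    rw [if_pos rfl] at h1
    by_cases hcl : c = b
    · subst hcl
      rw [if_pos rfl] at h1
      rw [abs_le] at h1 ⊢
      constructor <;> linarith
    · rw [if_neg hcl] at h1
      rw [abs_le] at h1 ⊢
      constructor <;> linarith
  · rw [if_neg hbl] at h1
    by_cases hcl : c = l
    · subst hcl
      rw [if_pos rfl, hb i j c b] at h1
      rw [abs_le] at h1 ⊢
      constructor <;> linarith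
    · rw [if_neg hcl] at h1
      rw [abs_le] at h1 ⊢
      constructor <;> linarith

private theorem alg_tri {k : ℕ} {B : Fin k → Fin k → Fin k → Fin k → ℝ} {ε : ℝ}
    (h : ∀ i j l a b c, |PP B i j l a b c| ≤ ε) (i j l : Fin k) (hij : i ≠ j) (hil : i ≠ l)
    (hjl : j ≠ l) : |B i j i j - B l j l j| ≤ ε := by
  have h1 := h i j l l i j
  unfold PP at h1
  rw [if_pos rfl, if_neg hil, if_neg hjl, if_neg hil.symm, if_pos rfl, if_neg hij.symm] at h1
  rw [abs_le] at h1 ⊢
  constructor <;> linarith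

theorem algR2 {k : ℕ} (hk : 2 ≤ k) : ∃ K : ℝ, ∀ (B : Fin k → Fin k → Fin k → Fin k → ℝ) (ε : ℝ),
    (∀ i j a b, B i j a b = B j i a b) → (∀ i j a b, B i j a b = B i j b a) →
    B ⟨0, by omega⟩ ⟨1, by omega⟩ ⟨0, by omega⟩ ⟨1, by omega⟩ = 0 →
    (∀ i j l a b c, |PP B i j l a b c| ≤ ε) → ∀ i j a b, |B i j a b| ≤ K * ε := by
  refine ⟨5, fun B ε ha hb h0 h => ?_⟩
  set o : Fin k := ⟨0, by omega⟩ with ho
  set e : Fin k := ⟨1, by omega⟩ with he
  have hoe : o ≠ e := by
    intro h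
    have := congrArg Fin.val h
    simp [ho, he] at this
  have hε : 0 ≤ ε := (abs_nonneg _).trans (h o o o o o o)
  have hsym : ∀ i j, B i j i j = B j i j i := fun i j => by rw [ha, hb]
  -- pairs with `o`
  have p1 : ∀ j, j ≠ o → |B o j o j| ≤ ε := by
    intro j hj
    by_cases hje : j = e
    · rw [hje, h0, abs_zero]
      exact hε
    · have h1 := alg_tri h j o e hj hje hoe
      rw [hsym e o, h0, sub_zero, hsym] at h1
      exact h1
  have p2 : ∀ i j, i ≠ j → |B i j i j| ≤ 2 * ε := by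
    intro i j hij
    by_cases hj : j = o
    · subst hj
      rw [hsym]
      exact (p1 i hij).trans (by linarith)
    · by_cases hi : i = o
      · subst hi
        exact (p1 j hj).trans (by linarith)
      · have h1 := alg_tri h i j o hij hi hj
        have h2 := p1 j hj
        rw [abs_le] at h1 h2 ⊢
        constructor <;> linarith
  have p3 : ∀ i c, c ≠ i → |B i i i c| ≤ ε := by
    intro i c hc
    have h1 := h i i c c i c
    unfold PP at h1
    rw [if_pos rfl, if_neg hc.symm, if_pos rfl, if_neg hc, if_pos rfl, if_neg hc] at h1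
    have h2 := alg_one hb h i c c c hc hc
    rw [hb i i c i, ha c i] at h1
    rw [abs_le] at h1 h2 ⊢
    constructor <;> linarith
  have p4 : ∀ i, |B i i i i| ≤ 5 * ε := by
    intro i
    obtain ⟨l, hl⟩ : ∃ l : Fin k, l ≠ i := by
      by_cases hi : i = o
      · exact ⟨e, fun h => hoe (hi.symm.trans h.symm)⟩
      · exact ⟨o, fun h => hi h.symm⟩
    have h1 := h i i l l i i
    unfold PP at h1
    rw [if_pos rfl, if_neg hl.symm, if_neg hl, if_pos rfl] at h1
    have h2 := p2 l i hl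
    rw [abs_le] at h1 h2 ⊢
    constructor <;> linarith
  intro i j b c
  by_cases h1 : b ≠ i ∧ c ≠ i
  · exact (alg_one hb h i j b c h1.1 h1.2).trans (by linarith)
  by_cases h2 : b ≠ j ∧ c ≠ j
  · rw [ha]
    exact (alg_one hb h j i b c h2.1 h2.2).trans (by linarith)
  by_cases hij : i = j
  · subst hij
    by_cases hbi : b = i
    · subst hbi
      by_cases hc : c = b
      · subst hc
        exact p4 c
      · exact (p3 b c hc).trans (by linarith)
    · have hci : c = i := by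
        by_contra hc
        exact h1 ⟨hbi, hc⟩
      subst hci
      rw [hb]
      exact (p3 c b hbi).trans (by linarith)
  · by_cases hbi : b = i
    · subst hbi
      have hc : c = j := by
        by_contra hc
        exact h2 ⟨hij, hc⟩
      subst hc
      exact (p2 b c hij).trans (by linarith)
    · have hci : c = i := by
        by_contra hc
        exact h1 ⟨hbi, hc⟩
      subst hci
      have hbj : b = j := by
        by_contra hb'
        exact h2 ⟨hb', hij⟩
      subst hbj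
      rw [hb]
      exact (p2 c b hij).trans (by linarith)

section r2calc
variable {k : ℕ}

private theorem r2_smooth {f : E0 k → ℝ} (hf : ContDiff ℝ ∞ f) (v : E0 k) :
    ContDiff ℝ ∞ (fun x => fderiv ℝ f x v) :=
  (hf.fderiv_right (m := ∞) (by simp)).clm_apply contDiff_const

private theorem r2_dy {f : E0 k → ℝ} (hf : ContDiff ℝ ∞ f) (b : Fin k) : ContDiff ℝ ∞ (dy b f) :=
  r2_smooth hf _

private theorem r2_ds {f : E0 k → ℝ} (hf : ContDiff ℝ ∞ f) : ContDiff ℝ ∞ (ds f) :=
  r2_smooth hf _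

private theorem r2_diff {f : E0 k → ℝ} (hf : ContDiff ℝ ∞ f) (x : E0 k) : DifferentiableAt ℝ f x :=
  hf.differentiable (by simp) x

private theorem r2_snd {f : E0 k → ℝ} (hf : ContDiff ℝ ∞ f) (x v w : E0 k) :
    fderiv ℝ (fun z => fderiv ℝ f z w) x v = fderiv ℝ (fderiv ℝ f) x v w := by
  have h := ((hf.fderiv_right (m := ∞) (by simp)).differentiable (by simp) x).hasFDerivAt.clm_apply
    (hasFDerivAt_const w x)
  rw [h.fderiv]
  simp

private theorem r2_comm {f : E0 k → ℝ} (hf : ContDiff ℝ ∞ f) (v w : E0 k) :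
    (fun x => fderiv ℝ (fun z => fderiv ℝ f z w) x v) =
      fun x => fderiv ℝ (fun z => fderiv ℝ f z v) x w := by
  funext x
  rw [r2_snd hf, r2_snd hf]
  have h2 : minSmoothness ℝ 2 ≤ (∞ : WithTop ℕ∞) := by
    rw [minSmoothness_of_isRCLikeNormedField]
    show ((2 : ℕ∞) : WithTop ℕ∞) ≤ ((⊤ : ℕ∞) : WithTop ℕ∞)
    exact WithTop.coe_le_coe.2 le_top
  exact (hf.contDiffAt.isSymmSndFDerivAt h2).eq v w

private theorem r2_yy {f : E0 k → ℝ} (hf : ContDiff ℝ ∞ f) (a b : Fin k) :
    dy a (dy b f) = dy b (dy a f) := r2_comm hf _ _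

private theorem r2_ys {f : E0 k → ℝ} (hf : ContDiff ℝ ∞ f) (a : Fin k) :
    dy a (ds f) = ds (dy a f) := r2_comm hf _ _

private theorem r2_mul {f g : E0 k → ℝ} (hf : ContDiff ℝ ∞ f) (hg : ContDiff ℝ ∞ g) (a : Fin k) :
    dy a (fun z => f z * g z) = fun z => dy a f z * g z + f z * dy a g z := by
  funext z
  have h : HasFDerivAt (fun z => f z * g z) _ z :=
    (r2_diff hf z).hasFDerivAt.mul (r2_diff hg z).hasFDerivAt
  unfold dy
  rw [h.fderiv]
  simp
  ring

private theorem r2_add {f g : E0 k → ℝ} (hf : ContDiff ℝ ∞ f) (hg : ContDiff ℝ ∞ g) (a : Fin k) :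
    dy a (fun z => f z + g z) = fun z => dy a f z + dy a g z := by
  funext z
  have h : HasFDerivAt (fun z => f z + g z) _ z :=
    (r2_diff hf z).hasFDerivAt.add (r2_diff hg z).hasFDerivAt
  unfold dy
  rw [h.fderiv]
  simp

private theorem r2_sub {f g : E0 k → ℝ} (hf : ContDiff ℝ ∞ f) (hg : ContDiff ℝ ∞ g) (a : Fin k) :
    dy a (fun z => f z - g z) = fun z => dy a f z - dy a g z := by
  funext z
  have h : HasFDerivAt (fun z => f z - g z) _ z :=
    (r2_diff hf z).hasFDerivAt.sub (r2_diff hg z).hasFDerivAt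
  unfold dy
  rw [h.fderiv]
  simp

private theorem r2_sum {ι : Type} (s : Finset ι) {f : ι → E0 k → ℝ} (hf : ∀ i, ContDiff ℝ ∞ (f i))
    (a : Fin k) : dy a (fun z => ∑ i ∈ s, f i z) = fun z => ∑ i ∈ s, dy a (f i) z := by
  funext z
  have h := HasFDerivAt.fun_sum (u := s) fun i _ => (r2_diff (hf i) z).hasFDerivAt
  unfold dy
  rw [h.fderiv]
  simp

private theorem r2_coord_smooth (l : Fin k) : ContDiff ℝ ∞ (fun x : E0 k => x.2 l) := by
  fun_prop

private theorem r2_coord (a l : Fin k) :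
    dy a (fun x : E0 k => x.2 l) = fun _ => if a = l then 1 else 0 := by
  funext z
  have h : HasFDerivAt (fun x : E0 k => x.2 l)
      ((ContinuousLinearMap.proj l).comp (ContinuousLinearMap.snd ℝ ℝ (Fin k → ℝ))) z :=
    ((ContinuousLinearMap.proj (R := ℝ) (φ := fun _ : Fin k => ℝ) l).comp
      (ContinuousLinearMap.snd ℝ ℝ (Fin k → ℝ))).hasFDerivAt
  unfold dy
  rw [h.fderiv]
  simp [Pi.single_apply, eq_comm]

private theorem r2_third {u v : E0 k → ℝ} (hu : ContDiff ℝ ∞ u) (hv : ContDiff ℝ ∞ v) (x : E0 k)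
    (h0 : u x = 0) (h1 : ∀ a, dy a u x = 0) (hv0 : v x = 0) (a b c : Fin k) :
    dy a (dy b (dy c (fun z => u z * v z))) x =
      dy a (dy b u) x * dy c v x + dy a (dy c u) x * dy b v x + dy b (dy c u) x * dy a v x := by
  have e1 := r2_mul hu hv c
  have e2 : dy b (dy c (fun z => u z * v z)) = fun z => (dy b (dy c u) z * v z +
      dy c u z * dy b v z) + (dy b u z * dy c v z + u z * dy b (dy c v) z) := by
    rw [e1, r2_add ((r2_dy hu c).mul hv) (hu.mul (r2_dy hv c)), r2_mul (r2_dy hu c) hv,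
      r2_mul hu (r2_dy hv c)]
  have e3 : dy a (dy b (dy c (fun z => u z * v z))) = fun z =>
      ((dy a (dy b (dy c u)) z * v z + dy b (dy c u) z * dy a v z) +
        (dy a (dy c u) z * dy b v z + dy c u z * dy a (dy b v) z)) +
      ((dy a (dy b u) z * dy c v z + dy b u z * dy a (dy c v) z) +
        (dy a u z * dy b (dy c v) z + u z * dy a (dy b (dy c v)) z)) := by
    rw [e2, r2_add (((r2_dy (r2_dy hu c) b).mul hv).add ((r2_dy hu c).mul (r2_dy hv b)))
        (((r2_dy hu b).mul (r2_dy hv c)).add (hu.mul (r2_dy (r2_dy hv c) b))),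
      r2_add ((r2_dy (r2_dy hu c) b).mul hv) ((r2_dy hu c).mul (r2_dy hv b)),
      r2_add ((r2_dy hu b).mul (r2_dy hv c)) (hu.mul (r2_dy (r2_dy hv c) b)),
      r2_mul (r2_dy (r2_dy hu c) b) hv, r2_mul (r2_dy hu c) (r2_dy hv b),
      r2_mul (r2_dy hu b) (r2_dy hv c), r2_mul hu (r2_dy (r2_dy hv c) b)]
  rw [e3]
  simp only [h0, h1, hv0]
  ring

private theorem r2_ev {f g : E0 k → ℝ} {x : E0 k} (h : f =ᶠ[𝓝 x] g) (v : E0 k) :
    (fun z => fderiv ℝ f z v) =ᶠ[𝓝 x] fun z => fderiv ℝ g z v := by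
  filter_upwards [h.fderiv (𝕜 := ℝ)] with z hz
  rw [hz]

private theorem r2_van0 {f : E0 k → ℝ} {x : E0 k} {m : ℕ} (h : Van (m + 1) f x) : f x = 0 := by
  have h1 := h 0 (by omega)
  have h2 := iteratedFDeriv_zero_apply (𝕜 := ℝ) (f := f) (x := x) (fun _ => 0)
  rw [← h2, h1]
  rfl

private theorem r2_van3 {f : E0 k → ℝ} (hf : ContDiff ℝ ∞ f) {x : E0 k} (h : Van 4 f x)
    (a b c : Fin k) : dy a (dy b (dy c f)) x = 0 :=
  r2_van0 (m := 0) (((h.dir hf _).dir (r2_dy hf c) _).dir (r2_dy (r2_dy hf c) b) _)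

private theorem r2_3add {f g : E0 k → ℝ} (hf : ContDiff ℝ ∞ f) (hg : ContDiff ℝ ∞ g) (x : E0 k)
    (a b c : Fin k) : dy a (dy b (dy c (fun z => f z + g z))) x =
      dy a (dy b (dy c f)) x + dy a (dy b (dy c g)) x := by
  rw [r2_add hf hg, r2_add (r2_dy hf c) (r2_dy hg c),
    r2_add (r2_dy (r2_dy hf c) b) (r2_dy (r2_dy hg c) b)]

private theorem r2_3sub {f g : E0 k → ℝ} (hf : ContDiff ℝ ∞ f) (hg : ContDiff ℝ ∞ g) (x : E0 k)
    (a b c : Fin k) : dy a (dy b (dy c (fun z => f z - g z))) x =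
      dy a (dy b (dy c f)) x - dy a (dy b (dy c g)) x := by
  rw [r2_sub hf hg, r2_sub (r2_dy hf c) (r2_dy hg c),
    r2_sub (r2_dy (r2_dy hf c) b) (r2_dy (r2_dy hg c) b)]

private theorem r2_3sum {ι : Type} (s : Finset ι) {f : ι → E0 k → ℝ} (hf : ∀ i, ContDiff ℝ ∞ (f i))
    (x : E0 k) (a b c : Fin k) : dy a (dy b (dy c (fun z => ∑ i ∈ s, f i z))) x =
      ∑ i ∈ s, dy a (dy b (dy c (f i))) x := by
  rw [r2_sum s hf, r2_sum s fun i => r2_dy (hf i) c, r2_sum s fun i => r2_dy (r2_dy (hf i) c) b]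

private theorem r2_near {r s : ℝ} (h0 : 0 ≤ s) (hs : s < r) :
    ∀ᶠ x in 𝓝 ((s, 0) : E0 k), ‖x‖ < r := by
  have h : ‖((s, 0) : E0 k)‖ < r := by
    rw [Prod.norm_def]
    simp only [norm_zero, Real.norm_eq_abs, abs_of_nonneg h0]
    exact max_lt hs (lt_of_le_of_lt h0 hs)
  exact (continuous_norm.tendsto _).eventually (gt_mem_nhds h)

/-- the cubic relation -/
private theorem r2_rel {r : ℝ} (S : NSys k r) (h2 : ∀ i j, VanR 2 r (S.q i j)) {s : ℝ} (h0 : 0 ≤ s)
    (hs : s < r) (i j l a b c : Fin k) :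
    PP (fun i j a b => ds (dy a (dy b (S.q i j))) ((s, 0) : E0 k)) i j l a b c =
      (∑ d, (dy a (dy b (S.q i d)) ((s, 0) : E0 k) * dy c (dy d (S.q l j)) ((s, 0) : E0 k) +
        dy a (dy c (S.q i d)) ((s, 0) : E0 k) * dy b (dy d (S.q l j)) ((s, 0) : E0 k) +
        dy b (dy c (S.q i d)) ((s, 0) : E0 k) * dy a (dy d (S.q l j)) ((s, 0) : E0 k))) -
      ∑ d, (dy a (dy b (S.q l d)) ((s, 0) : E0 k) * dy c (dy d (S.q i j)) ((s, 0) : E0 k) +
        dy a (dy c (S.q l d)) ((s, 0) : E0 k) * dy b (dy d (S.q i j)) ((s, 0) : E0 k) +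
        dy b (dy c (S.q l d)) ((s, 0) : E0 k) * dy a (dy d (S.q i j)) ((s, 0) : E0 k)) := by
  have sm := S.smooth
  -- the terms with the coordinate functions
  have t1 : ∀ i j l : Fin k, dy a (dy b (dy c (fun x : E0 k => x.2 l * ds (S.q i j) x)))
      ((s, 0) : E0 k) = ds (dy a (dy b (S.q i j))) ((s, 0) : E0 k) * (if c = l then 1 else 0) +
        ds (dy a (dy c (S.q i j))) ((s, 0) : E0 k) * (if b = l then 1 else 0) +
        ds (dy b (dy c (S.q i j))) ((s, 0) : E0 k) * (if a = l then 1 else 0) := by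
    intro i j l
    have e1 : (fun x : E0 k => x.2 l * ds (S.q i j) x) = fun x => ds (S.q i j) x * x.2 l :=
      funext fun x => mul_comm _ _
    have v := ds_vanR (sm i j) (h2 i j) s h0 hs
    rw [e1, r2_third (r2_ds (sm i j)) (r2_coord_smooth l) _ (r2_van0 v)
      (fun a => r2_van0 (m := 0) (v.dir (r2_ds (sm i j)) _)) rfl]
    rw [r2_coord, r2_coord, r2_coord, r2_ys (sm i j) b, r2_ys (sm i j) c,
      r2_ys (r2_dy (sm i j) b) a, r2_ys (r2_dy (sm i j) c) a, r2_ys (r2_dy (sm i j) c) b]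
  have t2 : ∀ i j l d : Fin k, dy a (dy b (dy c (fun x : E0 k => S.q l d x * dy d (S.q i j) x)))
      ((s, 0) : E0 k) =
        dy a (dy b (S.q l d)) ((s, 0) : E0 k) * dy c (dy d (S.q i j)) ((s, 0) : E0 k) +
        dy a (dy c (S.q l d)) ((s, 0) : E0 k) * dy b (dy d (S.q i j)) ((s, 0) : E0 k) +
        dy b (dy c (S.q l d)) ((s, 0) : E0 k) * dy a (dy d (S.q i j)) ((s, 0) : E0 k) := by
    intro i j l d
    have v := h2 l d s h0 hs
    exact r2_third (sm l d) (r2_dy (sm i j) d) _ (r2_van0 v)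
      (fun a => r2_van0 (m := 0) (v.dir (sm l d) _)) (r2_van0 (m := 0) ((h2 i j s h0 hs).dir (sm i j) _))
      a b c
  have s1 : ∀ i j l : Fin k, ContDiff ℝ ∞ (fun x : E0 k => x.2 l * ds (S.q i j) x) := fun i j l =>
    (r2_coord_smooth l).mul (r2_ds (sm i j))
  have s2 : ∀ i j l d : Fin k, ContDiff ℝ ∞ (fun x : E0 k => S.q l d x * dy d (S.q i j) x) :=
    fun i j l d => (sm l d).mul (r2_dy (sm i j) d)
  have s3 : ∀ i j l : Fin k, ContDiff ℝ ∞ (fun x : E0 k => ∑ d, S.q l d x * dy d (S.q i j) x) :=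
    fun i j l => ContDiff.sum fun d _ => s2 i j l d
  have s4 : ∀ i j l : Fin k, ContDiff ℝ ∞ (fun x : E0 k => x.2 l * ds (S.q i j) x +
      ∑ d, S.q l d x * dy d (S.q i j) x) := fun i j l => (s1 i j l).add (s3 i j l)
  have s5 : ∀ i j l : Fin k, ContDiff ℝ ∞ (fun x : E0 k => DD (NF S.q l) (S.q i j) x -
      x.2 l * ds (S.q i j) x - ∑ d, S.q l d x * dy d (S.q i j) x) := fun i j l =>
    ((DD_smooth sm (sm i j) l).sub (s1 i j l)).sub (s3 i j l)
  have v1 := symbol (m := 2) sm S.flat h2 (sm i j) (S.flat i j) (h2 i j) l s h0 hs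
  have v2 := symbol (m := 2) sm S.flat h2 (sm l j) (S.flat l j) (h2 l j) i s h0 hs
  have v3 : Van 4 (fun x : E0 k => (x.2 l * ds (S.q i j) x + ∑ d, S.q l d x * dy d (S.q i j) x) -
      (x.2 i * ds (S.q l j) x + ∑ d, S.q i d x * dy d (S.q l j) x)) ((s, 0) : E0 k) := by
    refine Van.congr ?_ (Van.sub (s5 l j i) (s5 i j l) v2 v1)
    filter_upwards [r2_near h0 hs] with x hx
    have h := S.cross i j l x hx
    linarith
  have v4 := r2_van3 ((s4 i j l).sub (s4 l j i)) v3 a b c
  rw [r2_3sub (s4 i j l) (s4 l j i), r2_3add (s1 i j l) (s3 i j l), r2_3add (s1 l j i) (s3 l j i),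
    r2_3sum _ (s2 i j l), r2_3sum _ (s2 l j i), t1, t1] at v4
  simp only [t2] at v4
  unfold PP
  simp only [mul_ite, mul_one, mul_zero] at v4
  linarith

end r2calc

theorem ray_R2b {k : ℕ} (hk : 2 ≤ k) {r : ℝ} (hr : 0 < r) (S : NSys k r)
    (h2 : ∀ i j, VanR 2 r (S.q i j))
    (hμ : ∀ s : ℝ, 0 ≤ s → s < r →
      dy ⟨0, by omega⟩ (dy ⟨1, by omega⟩ (S.q ⟨0, by omega⟩ ⟨1, by omega⟩)) ((s, 0) : E0 k) = 0) :
    ∀ i j, VanR 3 r (S.q i j) := by
  obtain ⟨K, hK⟩ := algR2 hk
  set o : Fin k := ⟨0, by omega⟩ with ho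
  set e : Fin k := ⟨1, by omega⟩ with he
  have sm := S.smooth
  have hD2 : ∀ i j a b, ContDiff ℝ ∞ (dy a (dy b (S.q i j))) := fun i j a b =>
    r2_dy (r2_dy (sm i j) b) a
  set B : ℝ → Fin k → Fin k → Fin k → Fin k → ℝ :=
    fun s i j a b => dy a (dy b (S.q i j)) ((s, 0) : E0 k) with hB
  set B' : ℝ → Fin k → Fin k → Fin k → Fin k → ℝ :=
    fun s i j a b => ds (dy a (dy b (S.q i j))) ((s, 0) : E0 k) with hB'
  have hder : ∀ s, HasDerivAt B (B' s) s := by
    intro s
    refine hasDerivAt_pi.2 fun i => hasDerivAt_pi.2 fun j => hasDerivAt_pi.2 fun a =>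
      hasDerivAt_pi.2 fun b => ?_
    have h1 : HasDerivAt (fun s : ℝ => ((s, 0) : E0 k)) ((1, 0) : E0 k) s :=
      (hasDerivAt_id s).prodMk (hasDerivAt_const s 0)
    exact (r2_diff (hD2 i j a b) (s, 0)).hasFDerivAt.comp_hasDerivAt s h1
  have hcont : Continuous B := continuous_iff_continuousAt.2 fun s => (hder s).continuousAt
  -- symmetries
  have y1 : ∀ s, 0 ≤ s → s < r → ∀ i j a b, B' s i j a b = B' s j i a b := by
    intro s h0 hs i j a b
    have h : S.q i j =ᶠ[𝓝 ((s, 0) : E0 k)] S.q j i := by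
      filter_upwards [r2_near h0 hs] with x hx
      exact S.symm i j x hx
    exact (r2_ev (r2_ev (r2_ev h _) _) _).eq_of_nhds
  have y2 : ∀ s i j a b, B' s i j a b = B' s i j b a := by
    intro s i j a b
    show ds (dy a (dy b (S.q i j))) ((s, 0) : E0 k) = ds (dy b (dy a (S.q i j))) ((s, 0) : E0 k)
    rw [r2_yy (sm i j)]
  have y3 : ∀ s, 0 ≤ s → s < r → B' s o e o e = 0 := by
    intro s h0 hs
    have g1 : HasDerivWithinAt (fun s => B s o e o e) (B' s o e o e) (Set.Ici s) s := by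
      have h := (hder s)
      rw [hasDerivAt_pi] at h
      have h := (hasDerivAt_pi.1 (hasDerivAt_pi.1 (hasDerivAt_pi.1 (h o) e) o) e)
      exact h.hasDerivWithinAt
    have g2 : HasDerivWithinAt (fun s => B s o e o e) 0 (Set.Ici s) s := by
      refine (hasDerivWithinAt_const s (Set.Ici s) (0 : ℝ)).congr_of_eventuallyEq ?_ (hμ s h0 hs)
      have h3 : ∀ᶠ t in 𝓝[Set.Ici s] s, t < r := nhdsWithin_le_nhds (gt_mem_nhds hs)
      filter_upwards [h3, self_mem_nhdsWithin] with t ht ht'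
      exact hμ t (h0.trans ht') ht
    exact (uniqueDiffOn_Ici s s Set.self_mem_Ici).eq_deriv _ g1 g2
  -- norms
  have nb : ∀ s i j a b, |B s i j a b| ≤ ‖B s‖ := by
    intro s i j a b
    exact (norm_le_pi_norm (B s i j a) b).trans ((norm_le_pi_norm (B s i j) a).trans
      ((norm_le_pi_norm (B s i) j).trans (norm_le_pi_norm (B s) i)))
  have key : ∀ s, 0 ≤ s → s < r → ∀ i j l a b c, |PP (B' s) i j l a b c| ≤
      6 * k * (‖B s‖ * ‖B s‖) := by
    intro s h0 hs i j l a b c
    rw [hB', r2_rel S h2 h0 hs]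
    have pr : ∀ i j a b i' j' a' b', |B s i j a b * B s i' j' a' b'| ≤ ‖B s‖ * ‖B s‖ := by
      intro i j a b i' j' a' b'
      rw [abs_mul]
      exact mul_le_mul (nb _ _ _ _ _) (nb _ _ _ _ _) (abs_nonneg _) (norm_nonneg _)
    have su : ∀ i l j, |∑ d, (B s i d a b * B s l j c d + B s i d a c * B s l j b d +
        B s i d b c * B s l j a d)| ≤ k * (3 * (‖B s‖ * ‖B s‖)) := by
      intro i l j
      refine (Finset.abs_sum_le_sum_abs _ _).trans ?_
      have h := Finset.sum_le_card_nsmul (Finset.univ : Finset (Fin k))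
        (fun d => |B s i d a b * B s l j c d + B s i d a c * B s l j b d +
          B s i d b c * B s l j a d|) (3 * (‖B s‖ * ‖B s‖)) fun d _ => ?_
      · rwa [Finset.card_univ, Fintype.card_fin, nsmul_eq_mul] at h
      · have h1 := pr i d a b l j c d
        have h2 := pr i d a c l j b d
        have h3 := pr i d b c l j a d
        refine (abs_add_three _ _ _).trans ?_
        linarith
    have h1 := su i l j
    have h3 := su l i j
    refine (abs_sub _ _).trans ?_
    refine (add_le_add h1 h3).trans ?_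
    nlinarith [mul_nonneg (norm_nonneg (B s)) (norm_nonneg (B s))]
  -- Gronwall
  have hzero : ∀ s, 0 ≤ s → s < r → B s = 0 := by
    intro s₁ h0 hs₁
    obtain ⟨M, hM⟩ := (isCompact_Icc (a := (0 : ℝ)) (b := s₁)).exists_bound_of_continuousOn
      hcont.continuousOn
    have hg := norm_le_gronwallBound_of_norm_deriv_right_le (f := B) (f' := B') (δ := 0)
      (K := K * (6 * k * M)) (ε := 0) (a := 0) (b := s₁) hcont.continuousOn
      (fun x _ => (hder x).hasDerivWithinAt) ?_ ?_ s₁ ⟨h0, le_rfl⟩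
    · rw [gronwallBound_ε0_δ0] at hg
      exact norm_le_zero_iff.1 hg
    · rw [norm_le_zero_iff]
      funext i j a b
      have hv : Van 3 (S.q i j) ((0, 0) : E0 k) := fun m _ => S.flat i j m
      have hv2 : Van 1 (dy a (dy b (S.q i j))) ((0, 0) : E0 k) :=
        (hv.dir (sm i j) _).dir (r2_dy (sm i j) b) _
      have hv3 := r2_van0 (m := 0) hv2
      exact hv3
    · intro x hx
      have hxr : x < r := hx.2.trans hs₁
      have hMx := hM x ⟨hx.1, hx.2.le⟩
      have hb : ∀ i j a b, |B' x i j a b| ≤ K * (6 * k * M) * ‖B x‖ + 0 := by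
        intro i j a b
        have h := hK (B' x) (6 * k * (M * ‖B x‖)) (y1 x hx.1 hxr) (y2 x) (y3 x hx.1 hxr)
          (fun i j l a b c => (key x hx.1 hxr i j l a b c).trans ?_) i j a b
        · refine h.trans_eq ?_
          ring
        · have h1 := mul_le_mul_of_nonneg_right hMx (norm_nonneg (B x))
          exact mul_le_mul_of_nonneg_left h1 (by positivity)
      have h00 := (abs_nonneg _).trans (hb o o o o)
      refine (pi_norm_le_iff_of_nonneg h00).2 fun i => (pi_norm_le_iff_of_nonneg h00).2 fun j =>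
        (pi_norm_le_iff_of_nonneg h00).2 fun a => (pi_norm_le_iff_of_nonneg h00).2 fun b => ?_
      exact hb i j a b
  intro i j s h0 hs m hm
  by_cases hm2 : m < 2
  · exact h2 i j s h0 hs m hm2
  · obtain rfl : m = 2 := by omega
    have f0 : fderiv ℝ (fderiv ℝ (S.q i j)) ((s, 0) : E0 k) = 0 := by
      have g1 : ∀ v, fderiv ℝ (fderiv ℝ (S.q i j)) ((s, 0) : E0 k) v ((1, 0) : E0 k) = 0 := by
        intro v
        rw [← r2_snd (sm i j)]
        have hv : Van 1 (fun z => fderiv ℝ (ds (S.q i j)) z v) ((s, 0) : E0 k) :=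
          (ds_vanR (sm i j) (h2 i j) s h0 hs).dir (r2_ds (sm i j)) v
        have hv3 := r2_van0 (m := 0) hv
        exact hv3
      have g2 : ∀ v, fderiv ℝ (fderiv ℝ (S.q i j)) ((s, 0) : E0 k) ((1, 0) : E0 k) v = 0 := by
        intro v
        have h3 := congrFun (r2_comm (sm i j) ((1, 0) : E0 k) v) ((s, 0) : E0 k)
        simp only [r2_snd (sm i j)] at h3
        rw [h3]
        exact g1 v
      have g3 : ∀ a b : Fin k, fderiv ℝ (fderiv ℝ (S.q i j)) ((s, 0) : E0 k)
          ((0, Pi.single a 1) : E0 k) ((0, Pi.single b 1) : E0 k) = 0 := by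
        intro a b
        rw [← r2_snd (sm i j)]
        exact congrFun (congrFun (congrFun (congrFun (hzero s h0 hs) i) j) a) b
      have dec : ∀ v : E0 k, v = v.1 • ((1, 0) : E0 k) + ∑ a, v.2 a • ((0, Pi.single a 1) : E0 k) := by
        intro v
        refine Prod.ext ?_ ?_
        · simp [Prod.fst_sum]
        · funext a
          simp [Prod.snd_sum, Finset.sum_apply, Pi.single_apply]
      refine ContinuousLinearMap.ext fun v => ContinuousLinearMap.ext fun w => ?_
      rw [dec v, dec w]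
      simp only [map_add, map_smul, map_sum, _root_.add_apply,
        _root_.smul_apply, _root_.sum_apply, g1, g2, g3, smul_zero,
        Finset.sum_const_zero, add_zero, _root_.zero_apply]
    ext w
    rw [iteratedFDeriv_two_apply, f0]
    rfl

end LatLin.B
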