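import Pool.Agent.Lib.MP_2392aa_gt.B.RayCL

/-!
MODULE RayR2a. Normalization of the second order term by a change of the parameter of the ray.

PROOF. `μ(s) = dy 0 (dy 1 (q 0 1)) (s, 0)` is smooth on `ℝ` and flat at `0` (derivatives of a flat
function restricted to a line). Let `f(s) = ∫_0^s exp (-∫_0^t μ)`; `f' = exp(-∫ μ)`, `f'' = -μ f'`,
`f - id` is flat at `0` (`FlatAt` for functions on `ℝ`: `f' - 1` is smooth and flat). Apply `rayCL` to
`F = NF S.q` and `σ x = f x.1`. On `‖x‖ < r` small: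
`D_i D_j σ (x) = f(s + y i + y j + q j i) - f(s + y i) - f(s + y j) + f(s)`
`= f'(s) q j i + f''(s) y i y j + O(‖y‖³)` near each point `(s0, 0)` of the segment (Taylor; `q`
vanishes to order 2), so it vanishes to order 2 on the segment, and its second derivative in
the directions `y 0, y 1` for `(i,j) = (0,1)` is `f'(s) μ(s) + f''(s) = 0` (`q 0 1 = q 1 0` near the
segment). `Σ (s, 0) = (f s, 0)`, `DΣ (s,0) (0, e_b) = (0, f'(s) e_b)`. From `S'.q i j ∘ Σ = D_i D_j σ`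
near `0`: near `(f s, 0)` one has `S'.q i j = (D_i D_j σ) ∘ K` so it vanishes to order 2 (`Van.comp`,
`K (f s, 0) = (s, 0)`), and the chain rule for the second derivative of `S'.q 0 1 ∘ Σ` at `(s,0)` (the
first derivative of `S'.q 0 1` vanishes there) gives
`f'(s)² * dy 0 (dy 1 (S'.q 0 1)) (f s, 0) = 0`. `f` maps `[0, δ)` onto a neighbourhood of `0` in
`[0, ∞)` (it is increasing). Choose `r'` small (and `S'.restrict`).
-/

open scoped ContDiff Topology

namespace LatLin.B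

section
variable {E F : Type*} [NormedAddCommGroup E] [NormedSpace ℝ E] [NormedAddCommGroup F]
  [NormedSpace ℝ F]

private theorem ra_two {f : E → F} {x : E} (h0 : f x = 0) (h1 : fderiv ℝ f x = 0) : Van 2 f x := by
  intro j hj
  interval_cases j
  · rw [← norm_eq_zero, norm_iteratedFDeriv_zero, h0, norm_zero]
  · rw [← norm_eq_zero, norm_iteratedFDeriv_one, h1, norm_zero]

private theorem ra_two_val {f : E → F} {x : E} (h : Van 2 f x) : f x = 0 ∧ fderiv ℝ f x = 0 := by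
  constructor
  · rw [← norm_eq_zero, ← norm_iteratedFDeriv_zero (𝕜 := ℝ), h 0 (by norm_num), norm_zero]
  · rw [← norm_eq_zero, ← norm_iteratedFDeriv_one, h 1 (by norm_num), norm_zero]

end

private theorem ra_prim (μ : ℝ → ℝ) (hμ : ContDiff ℝ ∞ μ) : ∃ g : ℝ → ℝ, ContDiff ℝ ∞ g ∧ g 0 = 0 ∧
    ∀ s, HasDerivAt g (μ s) s := by
  have hd : ∀ s, HasDerivAt (fun s => ∫ t in (0:ℝ)..s, μ t) (μ s) s := fun s =>
    intervalIntegral.integral_hasDerivAt_right (hμ.continuous.intervalIntegrable _ _)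
      (hμ.continuous.stronglyMeasurableAtFilter _ _) hμ.continuous.continuousAt
  refine ⟨fun s => ∫ t in (0:ℝ)..s, μ t, ?_, by simp, hd⟩
  rw [contDiff_infty_iff_deriv]
  refine ⟨fun s => (hd s).differentiableAt, ?_⟩
  have : deriv (fun s => ∫ t in (0:ℝ)..s, μ t) = μ := funext fun s => (hd s).deriv
  rw [this]; exact hμ

private theorem ra_flat_prim {g μ : ℝ → ℝ} (hd : ∀ s, HasDerivAt g (μ s) s) (h0 : g 0 = 0)
    (hμ : FlatAt μ 0) : FlatAt g 0 := by
  intro j
  rw [← norm_eq_zero]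
  cases j with
  | zero => rw [norm_iteratedFDeriv_zero, h0, norm_zero]
  | succ j =>
    have hdg : deriv g = μ := funext fun s => (hd s).deriv
    rw [norm_iteratedFDeriv_eq_norm_iteratedDeriv, iteratedDeriv_succ', hdg,
      ← norm_iteratedFDeriv_eq_norm_iteratedDeriv, hμ j, norm_zero]

private theorem ra_exists_f (μ : ℝ → ℝ) (hμ : ContDiff ℝ ∞ μ) (hμ0 : FlatAt μ 0) :
    ∃ f f' : ℝ → ℝ, ContDiff ℝ ∞ f ∧ f 0 = 0 ∧ (∀ s, HasDerivAt f (f' s) s) ∧
      (∀ s, HasDerivAt f' (-(μ s) * f' s) s) ∧ (∀ s, 0 < f' s) ∧ FlatAt (fun s => f s - s) 0 := by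
  obtain ⟨g, hg, hg0, hgd⟩ := ra_prim μ hμ
  have hgf : FlatAt g 0 := ra_flat_prim hgd hg0 hμ0
  have hE : ContDiff ℝ ∞ (fun s => Real.exp (-(g s))) := Real.contDiff_exp.comp hg.neg
  obtain ⟨f, hf, hf0, hfd⟩ := ra_prim _ hE
  refine ⟨f, fun s => Real.exp (-(g s)), hf, hf0, hfd, ?_, fun s => Real.exp_pos _, ?_⟩
  · intro s
    have := (hgd s).neg.exp
    convert this using 1
    simp only [Pi.neg_apply]
    ring_nf
    rfl
  · apply ra_flat_prim (μ := fun s => Real.exp (-(g s)) - 1)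
    · intro s; exact (hfd s).sub (hasDerivAt_id s)
    · simp [hf0]
    · rw [flatAt_iff]; intro m
      have hv : Van m (fun z => (0:ℝ) - g z) (0:ℝ) := by
        have h1 : Van m (fun _ : ℝ => (0:ℝ)) (0:ℝ) := by
          intro j _
          rw [← norm_eq_zero, norm_iteratedFDeriv_eq_norm_iteratedDeriv]
          simp
        exact Van.sub contDiff_const hg h1 (flatAt_iff.1 hgf m)
      have h2 := Van.comp_sub (f := Real.exp) (g := fun s => -(g s)) (h := fun _ => (0:ℝ))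
        (m := m) (x := (0:ℝ)) Real.contDiff_exp hg.neg contDiff_const (by simpa using hv)
      simpa using h2

/-- the second difference of `f` -/
private def raG {k : ℕ} (f : ℝ → ℝ) (q : E0 k → ℝ) (i j : Fin k) (x : E0 k) : ℝ :=
  f (x.1 + x.2 j + (x.2 i + q x)) - f (x.1 + x.2 i) - f (x.1 + x.2 j) + f x.1

private theorem ra_sm {k : ℕ} (i : Fin k) : ContDiff ℝ ∞ (fun x : E0 k => x.2 i) :=
  (contDiff_apply ℝ ℝ i).comp contDiff_snd

private theorem raG_smooth {k : ℕ} {f : ℝ → ℝ} (hf : ContDiff ℝ ∞ f) {q : E0 k → ℝ}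
    (hq : ContDiff ℝ ∞ q) (i j : Fin k) : ContDiff ℝ ∞ (raG f q i j) := by
  have h1 : ContDiff ℝ ∞ (fun x : E0 k => x.1) := contDiff_fst
  unfold raG
  exact (((hf.comp ((h1.add (ra_sm j)).add ((ra_sm i).add hq))).sub
    (hf.comp (h1.add (ra_sm i)))).sub (hf.comp (h1.add (ra_sm j)))).add (hf.comp h1)

private theorem raG_van {k : ℕ} {f f' : ℝ → ℝ}
    (hfd : ∀ s, HasDerivAt f (f' s) s) {q : E0 k → ℝ}
    (hq : ContDiff ℝ ∞ q) (i j : Fin k) (s : ℝ) (hv : Van 2 q ((s, 0) : E0 k)) :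
    Van 2 (raG f q i j) ((s, 0) : E0 k) := by
  obtain ⟨hq0, hq1⟩ := ra_two_val hv
  have hqd : HasFDerivAt q (0 : E0 k →L[ℝ] ℝ) ((s, 0) : E0 k) := by
    rw [← hq1]
    exact (hq.differentiable (by simp) _).hasFDerivAt
  have hF : HasFDerivAt (fun x : E0 k => x.1) (ContinuousLinearMap.fst ℝ ℝ (Fin k → ℝ))
      ((s, 0) : E0 k) := hasFDerivAt_fst
  have hp : ∀ i : Fin k, HasFDerivAt (fun x : E0 k => x.2 i)
      ((ContinuousLinearMap.proj i : (Fin k → ℝ) →L[ℝ] ℝ).comp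
        (ContinuousLinearMap.snd ℝ ℝ (Fin k → ℝ))) ((s, 0) : E0 k) := fun i =>
    ((ContinuousLinearMap.proj i : (Fin k → ℝ) →L[ℝ] ℝ).comp
        (ContinuousLinearMap.snd ℝ ℝ (Fin k → ℝ))).hasFDerivAt
  have a1 := HasDerivAt.comp_hasFDerivAt (f := fun x : E0 k => x.1 + x.2 j + (x.2 i + q x))
    ((s, 0) : E0 k) (by
      have := hfd s
      simpa [hq0] using this) ((hF.add (hp j)).add ((hp i).add hqd))
  have a2 := HasDerivAt.comp_hasFDerivAt (f := fun x : E0 k => x.1 + x.2 i)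
    ((s, 0) : E0 k) (by
      have := hfd s
      simpa using this) (hF.add (hp i))
  have a3 := HasDerivAt.comp_hasFDerivAt (f := fun x : E0 k => x.1 + x.2 j)
    ((s, 0) : E0 k) (by
      have := hfd s
      simpa using this) (hF.add (hp j))
  have a4 := HasDerivAt.comp_hasFDerivAt (f := fun x : E0 k => x.1)
    ((s, 0) : E0 k) (by
      have := hfd s
      simpa using this) hF
  have a5 := ((a1.sub a2).sub a3).add a4
  apply ra_two
  · simp [raG, hq0]
  · have h6 := a5.fderiv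
    have h7 : raG f q i j = (((f ∘ fun x : E0 k => x.1 + x.2 j + (x.2 i + q x)) -
        (f ∘ fun x : E0 k => x.1 + x.2 i)) - (f ∘ fun x : E0 k => x.1 + x.2 j)) +
        (f ∘ fun x : E0 k => x.1) := rfl
    rw [h7]
    refine h6.trans ?_
    ext v
    · simp
      try ring
    · simp
      try ring

/-- derivative in the direction of a coordinate as a derivative along a line -/
private theorem ra_dy {k : ℕ} {g : E0 k → ℝ} (hg : ContDiff ℝ ∞ g) (b : Fin k) (x : E0 k) {c : ℝ}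
    (h : HasDerivAt (fun t : ℝ => g (x.1, x.2 + t • Pi.single b 1)) c 0) : dy b g x = c := by
  have h1 : HasDerivAt (fun t : ℝ => ((x.1, x.2 + t • Pi.single b 1) : E0 k))
      ((0, Pi.single b 1) : E0 k) 0 := by
    have h2 : HasDerivAt (fun t : ℝ => x.2 + t • (Pi.single b 1 : Fin k → ℝ)) (Pi.single b 1) 0 := by
      have := ((hasDerivAt_id (0:ℝ)).smul_const (Pi.single b 1 : Fin k → ℝ)).const_add x.2
      simpa using this
    exact (hasDerivAt_const (0:ℝ) x.1).prodMk h2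
  have h3 : HasFDerivAt g (fderiv ℝ g x) ((fun t : ℝ => ((x.1, x.2 + t • Pi.single b 1) : E0 k)) 0) := by
    have : (fun t : ℝ => ((x.1, x.2 + t • Pi.single b 1) : E0 k)) 0 = x := by simp
    rw [this]
    exact (hg.differentiable (by simp) x).hasFDerivAt
  have h4 := HasFDerivAt.comp_hasDerivAt (0:ℝ) h3 h1
  exact h4.unique h

private theorem ra_line {k : ℕ} {g : E0 k → ℝ} (hg : ContDiff ℝ ∞ g) (b : Fin k) (x : E0 k) :
    HasDerivAt (fun t : ℝ => g (x.1, x.2 + t • Pi.single b 1)) (dy b g x) 0 := by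
  have h1 : HasDerivAt (fun t : ℝ => ((x.1, x.2 + t • Pi.single b 1) : E0 k))
      ((0, Pi.single b 1) : E0 k) 0 := by
    have h2 : HasDerivAt (fun t : ℝ => x.2 + t • (Pi.single b 1 : Fin k → ℝ)) (Pi.single b 1) 0 := by
      have := ((hasDerivAt_id (0:ℝ)).smul_const (Pi.single b 1 : Fin k → ℝ)).const_add x.2
      simpa using this
    exact (hasDerivAt_const (0:ℝ) x.1).prodMk h2
  have h3 : HasFDerivAt g (fderiv ℝ g x) ((fun t : ℝ => ((x.1, x.2 + t • Pi.single b 1) : E0 k)) 0) := by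
    have : (fun t : ℝ => ((x.1, x.2 + t • Pi.single b 1) : E0 k)) 0 = x := by simp
    rw [this]
    exact (hg.differentiable (by simp) x).hasFDerivAt
  exact HasFDerivAt.comp_hasDerivAt (0:ℝ) h3 h1

private theorem ra_dy_smooth {k : ℕ} {g : E0 k → ℝ} (hg : ContDiff ℝ ∞ g) (b : Fin k) :
    ContDiff ℝ ∞ (dy b g) := by
  have hd : ContDiff ℝ ∞ (fderiv ℝ g) := hg.fderiv_right (by simp)
  exact hd.clm_apply contDiff_const

private theorem ra_dyG {k : ℕ} {f f' : ℝ → ℝ} (hf : ContDiff ℝ ∞ f)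
    (hfd : ∀ s, HasDerivAt f (f' s) s) {q : E0 k → ℝ} (hq : ContDiff ℝ ∞ q) {i j : Fin k}
    (hij : i ≠ j) (x : E0 k) :
    dy j (raG f q i j) x =
      f' (x.1 + x.2 j + (x.2 i + q x)) * (1 + dy j q x) - f' (x.1 + x.2 j) := by
  apply ra_dy (raG_smooth hf hq i j)
  have hl := ra_line hq j x
  have e3 : HasDerivAt (fun t : ℝ => x.1 + (x.2 j + t)) 1 0 :=
    ((hasDerivAt_id (0:ℝ)).const_add (x.2 j)).const_add x.1
  have e1 : HasDerivAt (fun t : ℝ => x.1 + (x.2 j + t) +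
      (x.2 i + q (x.1, x.2 + t • Pi.single j 1))) (1 + dy j q x) 0 :=
    e3.add (hl.const_add (x.2 i))
  have a1 := HasDerivAt.comp (0:ℝ) (hfd _) e1
  have a3 := HasDerivAt.comp (0:ℝ) (hfd _) e3
  have a := ((a1.sub (hasDerivAt_const (0:ℝ) (f (x.1 + x.2 i)))).sub a3).add
    (hasDerivAt_const (0:ℝ) (f x.1))
  refine HasDerivAt.congr_deriv (a.congr_of_eventuallyEq (Filter.Eventually.of_forall ?_)) ?_
  · intro t
    simp [raG, hij]
  · simp

private theorem ra_ddyG {k : ℕ} {f f' f'' : ℝ → ℝ} (hf : ContDiff ℝ ∞ f)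
    (hfd : ∀ s, HasDerivAt f (f' s) s) (hfd' : ∀ s, HasDerivAt f' (f'' s) s) {q : E0 k → ℝ}
    (hq : ContDiff ℝ ∞ q) {i j : Fin k} (hij : i ≠ j) (s : ℝ) (hv : Van 2 q ((s, 0) : E0 k)) :
    dy i (dy j (raG f q i j)) ((s, 0) : E0 k) = f'' s + f' s * dy i (dy j q) ((s, 0) : E0 k) := by
  obtain ⟨hq0, hq1⟩ := ra_two_val hv
  have hqi : dy i q ((s, 0) : E0 k) = 0 := by rw [dy, hq1]; rfl
  have hqj : dy j q ((s, 0) : E0 k) = 0 := by rw [dy, hq1]; rfl
  apply ra_dy (ra_dy_smooth (raG_smooth hf hq i j) j)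
  have hl := ra_line hq i ((s, 0) : E0 k)
  have hl2 := ra_line (ra_dy_smooth hq j) i ((s, 0) : E0 k)
  rw [hqi] at hl
  simp only [zero_add] at hl hl2
  have e1 : HasDerivAt (fun t : ℝ => s + (t + q (s, t • Pi.single i 1))) 1 0 := by
    have := ((hasDerivAt_id (0:ℝ)).add hl).const_add s
    simpa using this
  have a1 : HasDerivAt (fun t : ℝ => f' (s + (t + q (s, t • Pi.single i 1)))) (f'' s) 0 := by
    have h2 : HasDerivAt f' (f'' s) (s + ((0:ℝ) + q (s, (0:ℝ) • Pi.single i 1))) := by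
      rw [zero_smul, hq0]
      simpa using hfd' s
    have := HasDerivAt.comp (0:ℝ) h2 e1
    rw [mul_one] at this
    exact this
  have a2 := (a1.mul (hl2.const_add 1)).sub (hasDerivAt_const (0:ℝ) (f' s))
  refine HasDerivAt.congr_deriv (a2.congr_of_eventuallyEq (Filter.Eventually.of_forall ?_)) ?_
  · intro t
    simp only
    rw [ra_dyG hf hfd hq hij]
    simp [hij.symm]
  · simp [hq0, hqj]

/-- the second derivative of a composition at a point where the outer function vanishes to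
order two -/
private theorem ra_chain {k : ℕ} {h : E0 k → ℝ} (hh : ContDiff ℝ ∞ h) {T : E0 k → E0 k}
    (hS : ContDiff ℝ ∞ T) (x : E0 k) (hv : Van 2 h (T x)) (a b : Fin k) (c : ℝ)
    (ha : fderiv ℝ T x ((0, Pi.single a 1) : E0 k) = c • ((0, Pi.single a 1) : E0 k))
    (hb : fderiv ℝ T x ((0, Pi.single b 1) : E0 k) = c • ((0, Pi.single b 1) : E0 k)) :
    dy a (dy b (fun z => h (T z))) x = c * c * dy a (dy b h) (T x) := by
  obtain ⟨_, hh1⟩ := ra_two_val hv
  have hd : ContDiff ℝ ∞ (fderiv ℝ h) := hh.fderiv_right (by simp)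
  have hdS : ContDiff ℝ ∞ (fderiv ℝ T) := hS.fderiv_right (by simp)
  have h1 : dy b (fun z => h (T z)) = fun z => fderiv ℝ h (T z)
      (fderiv ℝ T z ((0, Pi.single b 1) : E0 k)) := by
    funext z
    have := fderiv_comp z (hh.differentiable (by simp) (T z)) (hS.differentiable (by simp) z)
    have h2 : (fun z => h (T z)) = h ∘ T := rfl
    rw [dy, h2, this]
    rfl
  have h3 : HasFDerivAt (fun z => fderiv ℝ h (T z))
      ((fderiv ℝ (fderiv ℝ h) (T x)).comp (fderiv ℝ T x)) x :=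
    HasFDerivAt.comp x (hd.differentiable (by simp) (T x)).hasFDerivAt
      (hS.differentiable (by simp) x).hasFDerivAt
  have h4 : HasFDerivAt (fun z => fderiv ℝ T z ((0, Pi.single b 1) : E0 k))
      ((fderiv ℝ (fun z => fderiv ℝ T z ((0, Pi.single b 1) : E0 k)) x)) x :=
    ((hdS.clm_apply contDiff_const).differentiable (by simp) x).hasFDerivAt
  have h5 := h3.clm_apply h4
  have h6 : dy b h = fun z => fderiv ℝ h z ((0, Pi.single b 1) : E0 k) := rfl
  have h7 : fderiv ℝ (fun z => fderiv ℝ h z ((0, Pi.single b 1) : E0 k)) (T x) =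
      (fderiv ℝ (fderiv ℝ h) (T x)).flip ((0, Pi.single b 1) : E0 k) := by
    have := ((hd.differentiable (by simp) (T x)).hasFDerivAt).clm_apply
      (hasFDerivAt_const ((0, Pi.single b 1) : E0 k) (T x))
    rw [this.fderiv]
    ext v <;> simp
  rw [h1]
  conv_lhs => rw [dy]
  rw [h5.fderiv]
  conv_rhs => rw [dy, h6, h7]
  rw [hh1]
  simp only [ContinuousLinearMap.zero_comp, zero_add, ContinuousLinearMap.flip_apply,
    ContinuousLinearMap.comp_apply, ha, hb, map_smul, _root_.smul_apply, smul_eq_mul]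
  ring

private theorem ra_NF_smooth {k : ℕ} {q : Fin k → Fin k → E0 k → ℝ}
    (hq : ∀ i j, ContDiff ℝ ∞ (q i j)) (i : Fin k) : ContDiff ℝ ∞ (NF q i) := by
  have h1 : ContDiff ℝ ∞ (fun x : E0 k => x.1) := contDiff_fst
  exact (h1.add (ra_sm i)).prodMk (contDiff_pi.2 fun j => (ra_sm j).add (hq i j))

private theorem ra_NF_flat {k : ℕ} {q : Fin k → Fin k → E0 k → ℝ}
    (hq : ∀ i j, ContDiff ℝ ∞ (q i j)) (hqf : ∀ i j, FlatAt (q i j) 0) (i : Fin k) :
    FlatAt (fun x => NF q i x - tau i x) 0 := by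
  rw [flatAt_iff]
  intro m
  have h1 : (fun x : E0 k => NF q i x - tau i x) =
      fun x => ∑ j, q i j x • ((0, Pi.single j 1) : E0 k) := by
    funext x
    refine Prod.ext ?_ ?_
    · simp [NF, tau, Prod.fst_sum]
    · funext l
      simp [NF, tau, Prod.snd_sum, Finset.sum_apply, Pi.single_apply]
  rw [h1]
  apply Van.sum
  · intro j _
    exact (hq i j).smul contDiff_const
  · intro j _
    have h2 := Van.smul (a := m) (b := 0) (f := q i j) (g := fun _ : E0 k => ((0, Pi.single j 1) : E0 k))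
      (x := (0 : E0 k)) (hq i j) contDiff_const (flatAt_iff.1 (hqf i j) m)
      (fun j hj => absurd hj (Nat.not_lt_zero j))
    exact h2

private theorem ra_T_deriv {k : ℕ} {f f' : ℝ → ℝ} {T : E0 k → E0 k} (hT : ContDiff ℝ ∞ T)
    (hTe : ∀ x, T x = (f x.1, fun j => f (x.1 + x.2 j) - f x.1))
    (hfd : ∀ s, HasDerivAt f (f' s) s) (s : ℝ) (b : Fin k) :
    fderiv ℝ T ((s, 0) : E0 k) ((0, Pi.single b 1) : E0 k) =
      f' s • ((0, Pi.single b 1) : E0 k) := by
  have h1 : HasDerivAt (fun t : ℝ => ((s, t • Pi.single b 1) : E0 k))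
      ((0, Pi.single b 1) : E0 k) 0 := by
    have h2 : HasDerivAt (fun t : ℝ => t • (Pi.single b 1 : Fin k → ℝ)) (Pi.single b 1) 0 := by
      have := ((hasDerivAt_id (0:ℝ)).smul_const (Pi.single b 1 : Fin k → ℝ))
      simpa using this
    exact (hasDerivAt_const (0:ℝ) s).prodMk h2
  have h3 : HasFDerivAt T (fderiv ℝ T ((s, 0) : E0 k))
      ((fun t : ℝ => ((s, t • Pi.single b 1) : E0 k)) 0) := by
    have : (fun t : ℝ => ((s, t • Pi.single b 1) : E0 k)) 0 = ((s, 0) : E0 k) := by simp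
    rw [this]
    exact (hT.differentiable (by simp) _).hasFDerivAt
  have h4 := HasFDerivAt.comp_hasDerivAt (0:ℝ) h3 h1
  refine h4.unique ?_
  have h5 : (T ∘ fun t : ℝ => ((s, t • Pi.single b 1) : E0 k)) =
      fun t : ℝ => ((f s, fun j => f (s + t * (Pi.single b 1 : Fin k → ℝ) j) - f s) : E0 k) := by
    funext t
    simp only [Function.comp_apply]
    rw [hTe]
    simp only [Pi.smul_apply, smul_eq_mul]
  rw [h5]
  have h6 : f' s • ((0, Pi.single b 1) : E0 k) =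
      ((0, fun j => f' s * (Pi.single b 1 : Fin k → ℝ) j) : E0 k) := by
    refine Prod.ext ?_ ?_
    · simp
    · funext j
      simp
  rw [h6]
  refine (hasDerivAt_const (0:ℝ) (f s)).prodMk ?_
  rw [hasDerivAt_pi]
  intro j
  have h7 : HasDerivAt (fun t : ℝ => s + t * (Pi.single b 1 : Fin k → ℝ) j)
      ((Pi.single b 1 : Fin k → ℝ) j) 0 := by
    have := ((hasDerivAt_id (0:ℝ)).mul_const ((Pi.single b 1 : Fin k → ℝ) j)).const_add s
    simpa using this
  have h8 : HasDerivAt f (f' s) (s + (0:ℝ) * (Pi.single b 1 : Fin k → ℝ) j) := by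
    rw [zero_mul, add_zero]
    exact hfd s
  have h9 := (HasDerivAt.comp (0:ℝ) h8 h7).sub (hasDerivAt_const (0:ℝ) (f s))
  rw [sub_zero] at h9
  exact h9

theorem ray_R2a {k : ℕ} (hk : 2 ≤ k) {r : ℝ} (hr : 0 < r) (S : NSys k r)
    (h2 : ∀ i j, VanR 2 r (S.q i j)) :
    ∃ (r' : ℝ) (_ : 0 < r') (S' : NSys k r'), RConj (NF S.q) (NF S'.q) ∧
      (∀ i j, VanR 2 r' (S'.q i j)) ∧
      ∀ s : ℝ, 0 ≤ s → s < r' → dy ⟨0, by omega⟩
        (dy ⟨1, by omega⟩ (S'.q ⟨0, by omega⟩ ⟨1, by omega⟩)) ((s, 0) : E0 k) = 0 := by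
  have hk0 : 0 < k := by omega
  have hk1 : 1 < k := by omega
  set i0 : Fin k := ⟨0, hk0⟩ with hi0
  set i1 : Fin k := ⟨1, hk1⟩ with hi1
  have hne : i0 ≠ i1 := by
    intro h
    have := congrArg Fin.val h
    simp [hi0, hi1] at this
  set q : E0 k → ℝ := S.q i1 i0 with hq
  have hqs : ContDiff ℝ ∞ q := S.smooth i1 i0
  set μ : ℝ → ℝ := fun s => dy i0 (dy i1 q) ((s, 0) : E0 k) with hμdef
  have hline : ContDiff ℝ ∞ (fun s : ℝ => ((s, 0) : E0 k)) := contDiff_id.prodMk contDiff_const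
  have hdd : ContDiff ℝ ∞ (dy i0 (dy i1 q)) := ra_dy_smooth (ra_dy_smooth hqs i1) i0
  have hμ : ContDiff ℝ ∞ μ := hdd.comp hline
  have hμ0 : FlatAt μ 0 := by
    rw [flatAt_iff]
    intro m
    have h1 : Van (m + 1 + 1) q 0 := flatAt_iff.1 (S.flat i1 i0) (m + 1 + 1)
    have h2 : Van (m + 1) (dy i1 q) 0 := Van.dir hqs h1 _
    have h3 : Van m (dy i0 (dy i1 q)) 0 := Van.dir (ra_dy_smooth hqs i1) h2 _
    exact Van.comp (f := dy i0 (dy i1 q)) (g := fun s : ℝ => ((s, 0) : E0 k)) (x := (0:ℝ))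
      hdd hline h3
  obtain ⟨f, f', hf, hf0, hfd, hfd', hfpos, hfid⟩ := ra_exists_f μ hμ hμ0
  have hσ : ContDiff ℝ ∞ (fun x : E0 k => f x.1) := hf.comp contDiff_fst
  have hσflat : FlatAt (fun x : E0 k => f x.1 - x.1) 0 := by
    rw [flatAt_iff]
    intro m
    exact Van.comp (f := fun s => f s - s) (g := fun x : E0 k => x.1) (x := (0 : E0 k))
      (hf.sub contDiff_id) contDiff_fst (flatAt_iff.1 hfid m)
  have hcomm : ∀ i j, ∀ᶠ x in 𝓝 (0 : E0 k), NF S.q i (NF S.q j x) = NF S.q j (NF S.q i x) := by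
    intro i j
    filter_upwards [Metric.ball_mem_nhds (0 : E0 k) hr] with x hx
    exact S.comm i j x (by simpa using hx)
  obtain ⟨r1, hr1, S1, K, hK, hKf, hSf, hSK, hKS, hconj, hq1⟩ := rayCL (NF S.q)
    (ra_NF_smooth S.smooth) (ra_NF_flat S.smooth S.flat) hcomm (fun x : E0 k => f x.1) hσ hσflat
  set T : E0 k → E0 k := SigMap (NF S.q) (fun x : E0 k => f x.1) with hTdef
  have hTe : ∀ x, T x = (f x.1, fun j => f (x.1 + x.2 j) - f x.1) := fun x => rfl
  have h1s : ContDiff ℝ ∞ (fun x : E0 k => x.1) := contDiff_fst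
  have hT : ContDiff ℝ ∞ T := by
    have : T = fun x => (f x.1, fun j => f (x.1 + x.2 j) - f x.1) := funext hTe
    rw [this]
    exact (hf.comp h1s).prodMk (contDiff_pi.2 fun j =>
      (hf.comp (h1s.add (ra_sm j))).sub (hf.comp h1s))
  have hK0 : K 0 = 0 := by
    have h1 := hKf 0
    rw [← norm_eq_zero, norm_iteratedFDeriv_zero, norm_eq_zero, sub_zero] at h1
    exact h1
  have hev1 : ∀ᶠ x in 𝓝 (0 : E0 k), K (T x) = x ∧
      ∀ i j, S1.q i j (T x) = raG f (S.q j i) i j x := by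
    have h1 : ∀ᶠ x in 𝓝 (0 : E0 k), ∀ i j, S1.q i j (T x) = raG f (S.q j i) i j x :=
      Filter.eventually_all.2 fun i => Filter.eventually_all.2 fun j => hq1 i j
    exact hKS.and h1
  obtain ⟨δ, hδ, hδ'⟩ := Metric.eventually_nhds_iff_ball.1 hev1
  have hev2 : ∀ᶠ z in 𝓝 (0 : E0 k), T (K z) = z ∧ K z ∈ Metric.ball (0 : E0 k) δ := by
    have h1 : ∀ᶠ z in 𝓝 (0 : E0 k), K z ∈ Metric.ball (0 : E0 k) δ := by
      have h2 : Filter.Tendsto K (𝓝 0) (𝓝 0) := by
        have := hK.continuous.tendsto 0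
        rwa [hK0] at this
      exact h2 (Metric.ball_mem_nhds _ hδ)
    exact hSK.and h1
  obtain ⟨δ2, hδ2, hδ2'⟩ := Metric.eventually_nhds_iff_ball.1 hev2
  set δ3 : ℝ := min δ r / 2 with hδ3def
  have hδ3 : 0 < δ3 := by
    have := lt_min hδ hr
    positivity
  have hδ3δ : δ3 < δ := by
    have h1 := min_le_left δ r
    have h2 := lt_min hδ hr
    rw [hδ3def]; linarith
  have hδ3r : δ3 < r := by
    have h1 := min_le_right δ r
    have h2 := lt_min hδ hr
    rw [hδ3def]; linarith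
  have hmono : StrictMono f := strictMono_of_hasDerivAt_pos hfd hfpos
  have hfδ : 0 < f δ3 := by
    have := hmono hδ3
    rwa [hf0] at this
  have hr' : 0 < min (min (f δ3) δ2) r1 := lt_min (lt_min hfδ hδ2) hr1
  have key : ∀ s' : ℝ, 0 ≤ s' → s' < min (min (f δ3) δ2) r1 → ∃ s : ℝ, 0 ≤ s ∧ s < r ∧
      ‖((s, 0) : E0 k)‖ < δ ∧ T (s, 0) = (s', 0) ∧ ‖((s', 0) : E0 k)‖ < δ2 := by
    intro s' h0 h1
    have h2 : s' < f δ3 := lt_of_lt_of_le h1 ((min_le_left _ _).trans (min_le_left _ _))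
    have h3 : s' < δ2 := lt_of_lt_of_le h1 ((min_le_left _ _).trans (min_le_right _ _))
    have h4 : s' ∈ Set.Icc (f 0) (f δ3) := ⟨by rw [hf0]; exact h0, h2.le⟩
    obtain ⟨s, ⟨hs0, hs1⟩, hs2⟩ := intermediate_value_Icc hδ3.le hf.continuous.continuousOn h4
    refine ⟨s, hs0, by linarith, ?_, ?_, ?_⟩
    · rw [Prod.norm_mk, norm_zero, max_eq_left (norm_nonneg _), Real.norm_eq_abs, abs_of_nonneg hs0]
      linarith
    · rw [hTe]
      simp [hs2]
      rfl
    · rw [Prod.norm_mk, norm_zero, max_eq_left (norm_nonneg _), Real.norm_eq_abs, abs_of_nonneg h0]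
      exact h3
  have hvan : ∀ i j, VanR 2 (min (min (f δ3) δ2) r1) (S1.q i j) := by
    intro i j s' h0 h1
    obtain ⟨s, hs0, hsr, hsδ, hTs, hs'⟩ := key s' h0 h1
    have hG : Van 2 (raG f (S.q j i) i j) ((s, 0) : E0 k) :=
      raG_van hfd (S.smooth j i) i j s (h2 j i s hs0 hsr)
    have hKs : K (s', 0) = (s, 0) := by
      rw [← hTs]
      exact (hδ' (s, 0) (by rw [mem_ball_zero_iff]; exact hsδ)).1
    have hevn : (fun z => raG f (S.q j i) i j (K z)) =ᶠ[𝓝 ((s', 0) : E0 k)] S1.q i j := by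
      have h3 : Metric.ball (0 : E0 k) δ2 ∈ 𝓝 ((s', 0) : E0 k) :=
        Metric.isOpen_ball.mem_nhds (by rw [mem_ball_zero_iff]; exact hs')
      filter_upwards [h3] with z hz
      obtain ⟨h4, h5⟩ := hδ2' z hz
      have h6 := (hδ' (K z) h5).2 i j
      rw [h4] at h6
      exact h6.symm
    refine Van.congr hevn ?_
    apply Van.comp (raG_smooth hf (S.smooth j i) i j) hK
    rw [hKs]
    exact hG
  refine ⟨min (min (f δ3) δ2) r1, hr', S1.restrict (min_le_right _ _), ?_, hvan, ?_⟩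
  · exact ⟨T, K, hT, hK, hSf, hKf, hSK, hKS, hconj⟩
  · intro s' h0 h1
    change dy i0 (dy i1 (S1.q i0 i1)) ((s', 0) : E0 k) = 0
    obtain ⟨s, hs0, hsr, hsδ, hTs, hs'⟩ := key s' h0 h1
    have hch := ra_chain (S1.smooth i0 i1) hT ((s, 0) : E0 k)
      (by rw [hTs]; exact hvan i0 i1 s' h0 h1) i0 i1 (f' s)
      (ra_T_deriv hT hTe hfd s i0) (ra_T_deriv hT hTe hfd s i1)
    have hevn : (fun z => S1.q i0 i1 (T z)) =ᶠ[𝓝 ((s, 0) : E0 k)] raG f q i0 i1 := by
      have h3 : Metric.ball (0 : E0 k) δ ∈ 𝓝 ((s, 0) : E0 k) :=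
        Metric.isOpen_ball.mem_nhds (by rw [mem_ball_zero_iff]; exact hsδ)
      filter_upwards [h3] with z hz
      exact (hδ' z hz).2 i0 i1
    have h4 : dy i1 (fun z => S1.q i0 i1 (T z)) =ᶠ[𝓝 ((s, 0) : E0 k)] dy i1 (raG f q i0 i1) := by
      filter_upwards [hevn.fderiv (𝕜 := ℝ)] with z hz
      rw [dy, dy, hz]
    have h5 : dy i0 (dy i1 (fun z => S1.q i0 i1 (T z))) ((s, 0) : E0 k) =
        dy i0 (dy i1 (raG f q i0 i1)) ((s, 0) : E0 k) := by
      rw [dy, dy, h4.fderiv_eq]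
    rw [h5, ra_ddyG hf hfd hfd' hqs hne s (h2 i1 i0 s hs0 hsr), hTs] at hch
    have h6 : -(μ s) * f' s + f' s * dy i0 (dy i1 q) ((s, 0) : E0 k) = 0 := by
      rw [hμdef]
      ring
    rw [h6] at hch
    have h7 := hfpos s
    have h8 : f' s * f' s ≠ 0 := (mul_pos h7 h7).ne'
    exact (mul_eq_zero.1 hch.symm).resolve_left h8

end LatLin.B
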