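import Pool.Agent.Lib.MP_2392aa_gt.B.RayR1
import Pool.Agent.Lib.MP_2392aa_gt.B.RayS
import Pool.Agent.Lib.MP_2392aa_gt.B.RayPol

/-!
MODULE RayR3. The inductive step: improving the order of `D_i D_j σ` by one.

PROOF. Write `D_i = DD (NF S.q i)`, `g i j = D_i (D_j σ)`. For `‖x‖` small (all `x` near the segment;
`r1 < r`) the `NF S.q i` commute, so `g` is symmetric and `D_l (g i j) = D_i (g l j)` near the segment.
`g i j` is smooth and flat at `0` (`σ = s + flat`, `D_i D_j s = q j i`, `DD_flat`). By `leading`,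
`g i j = (G i j).fn + (order m + 1)`, coefficients flat at `0`; `G i j (s)` is symmetric for
`s ∈ [0, r1)` by `fn_uniq`. By `symbol3`: `D_l (g i j) - y l * ds (g i j)` vanishes to order
`m + 2`, and `ds (g i j) - ds (G i j).fn` to order `m + 1` (`ds_vanR`). Hence
`x ↦ y l * (ds (G i j).fn) x - y i * (ds (G l j).fn) x` vanishes to order `m + 2`; it is the function of
the family `X l * G' i j - X i * G' l j` of degree `m + 1` (`exists_der`), so by `fn_uniq`
`X l * G' i j (s) = X i * G' l j (s)` for `s ∈ [0, r1)`; integrating the coefficients from `0`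
(`G (0) = 0`), `X l * G i j (s) = X i * G l j (s)` on `[0, r1)`. `algR3` (for each `s`) gives `H(s)` with
`G i j = X i X j H`, coefficients `coeff a H(s) = coeff (a + e_0 + e_1) (G 0 1 (s)) =: h_a(s)`, smooth on
`ℝ`, flat at `0`. Let `θ` be smooth with `θ = 1` on `[0, r1]`, support in `(-1, r1 + 1)`, and
`v_a(s) = θ(s) ∫_0^s ∫_0^t h_a` for `s > 0`, `v_a(s) = 0` for `s ≤ 0`: smooth since the double integral is
flat at `0` (`smooth_pos`), `v_a'' = h_a` on `[0, r1)`. `V.c s = ∑ a of degree m - 2, v_a(s) X^a`.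
With `v = V.fn` (order `m - 2`, flat at `0`) `symbol3` gives `D_j v = y j * ds v + w`, `w` of order `m`,
`D_i w` of order `m + 1` (`raise`), `D_i (y j * ds v) = y i * ds (y j * ds v) + (order m + 1)
= y i y j ds (ds v) + …`. So `D_i D_j (σ - v) = g i j - y i y j ds (ds v) + (order m + 1)`, and
`y i y j ds ds v = (G i j).fn` at the points with `0 ≤ s < r1` (so the difference vanishes to order
`m + 1` on the segment; near interior points the functions agree).
-/

open scoped ContDiff Topology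

namespace LatLin.B

variable {k : ℕ}

private theorem flat1 {h : ℝ → ℝ} : FlatAt h 0 ↔ ∀ n : ℕ, iteratedDeriv n h 0 = 0 := by
  constructor
  · intro H n
    rw [iteratedDeriv_eq_iteratedFDeriv, H n]
    rfl
  · intro H n
    rw [← norm_eq_zero, norm_iteratedFDeriv_eq_norm_iteratedDeriv, H n, norm_zero]

private theorem sp_deriv {h : ℝ → ℝ} (hh : ContDiff ℝ ∞ h) (h0 : h 0 = 0) (h1 : deriv h 0 = 0)
    (s : ℝ) : HasDerivAt (fun s => if 0 < s then h s else 0) (if 0 < s then deriv h s else 0) s := by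
  have hdiff : Differentiable ℝ h := hh.differentiable (by simp)
  rcases lt_trichotomy s 0 with hs | hs | hs
  · rw [if_neg (not_lt.mpr hs.le)]
    refine (hasDerivAt_const s (0 : ℝ)).congr_of_eventuallyEq ?_
    filter_upwards [Iio_mem_nhds hs] with t ht
    have ht' : t < 0 := ht
    show (if 0 < t then h t else 0) = 0
    rw [if_neg (not_lt.mpr ht'.le)]
  · subst hs
    rw [if_neg (lt_irrefl 0)]
    have hd : HasDerivAt h 0 0 := by
      have h2 := (hdiff 0).hasDerivAt
      rwa [h1] at h2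
    rw [hasDerivAt_iff_isLittleO] at hd ⊢
    have hb : (fun x' : ℝ => (if 0 < x' then h x' else 0) - (if (0 : ℝ) < 0 then h 0 else 0) -
        (x' - 0) • (0 : ℝ)) =O[𝓝 0] (fun x' : ℝ => h x' - h 0 - (x' - 0) • (0 : ℝ)) := by
      refine Asymptotics.IsBigO.of_bound 1 (Filter.Eventually.of_forall fun x => ?_)
      rw [if_neg (lt_irrefl 0), h0, smul_zero, sub_zero, sub_zero, sub_zero, one_mul]
      by_cases hx : 0 < x
      · rw [if_pos hx, sub_zero]
      · rw [if_neg hx, norm_zero]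
        exact norm_nonneg _
    exact hb.trans_isLittleO hd
  · rw [if_pos hs]
    refine ((hdiff s).hasDerivAt).congr_of_eventuallyEq ?_
    filter_upwards [Ioi_mem_nhds hs] with t ht
    exact if_pos ht

private theorem deriv_smooth {h : ℝ → ℝ} (hh : ContDiff ℝ ∞ h) : ContDiff ℝ ∞ (deriv h) := by
  rw [show (∞ : WithTop ℕ∞) = ∞ + 1 by rfl, contDiff_succ_iff_deriv] at hh
  exact hh.2.2

private theorem deriv_flat {h : ℝ → ℝ} (h0 : FlatAt h 0) : FlatAt (deriv h) 0 := by
  rw [flat1] at h0 ⊢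
  intro n
  rw [← iteratedDeriv_succ']
  exact h0 (n + 1)

private theorem flat_val {E : Type*} [NormedAddCommGroup E] [NormedSpace ℝ E] {h : E → ℝ}
    {x : E} (h0 : FlatAt h x) : h x = 0 := by
  have h1 := h0 0
  have h2 : iteratedFDeriv ℝ 0 h x (fun _ => 0) = 0 := by rw [h1]; rfl
  rwa [iteratedFDeriv_zero_apply] at h2

private theorem sp_cont (n : ℕ) : ∀ {h : ℝ → ℝ}, ContDiff ℝ ∞ h → FlatAt h 0 →
    ContDiff ℝ n (fun s => if 0 < s then h s else 0) := by
  induction n with
  | zero =>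
    intro h hh h0
    have hd : Differentiable ℝ (fun s => if 0 < s then h s else 0) := fun s =>
      (sp_deriv hh (flat_val h0) (flat_val (deriv_flat h0)) s).differentiableAt
    exact contDiff_zero.mpr hd.continuous
  | succ n ih =>
    intro h hh h0
    have hd := sp_deriv hh (flat_val h0) (flat_val (deriv_flat h0))
    have h1 : deriv (fun s => if 0 < s then h s else 0) = fun s => if 0 < s then deriv h s else 0 :=
      funext fun s => (hd s).deriv
    rw [Nat.cast_add, Nat.cast_one, contDiff_succ_iff_deriv]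
    refine ⟨fun s => (hd s).differentiableAt, fun hn => ?_, ?_⟩
    · exact absurd hn (by simp)
    · rw [h1]
      exact ih (deriv_smooth hh) (deriv_flat h0)

/-- a smooth function flat at `0`, cut off on the negative side, is smooth and flat -/
theorem smooth_pos {h : ℝ → ℝ} (hh : ContDiff ℝ ∞ h) (h0 : FlatAt h 0) :
    ContDiff ℝ ∞ (fun s => if 0 < s then h s else 0) ∧
      FlatAt (fun s => if 0 < s then h s else 0) 0 := by
  refine ⟨contDiff_infty.mpr fun n => sp_cont n hh h0, ?_⟩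
  rw [flat1]
  have key : ∀ n : ℕ, ∀ {h : ℝ → ℝ}, ContDiff ℝ ∞ h → FlatAt h 0 →
      iteratedDeriv n (fun s => if 0 < s then h s else 0) =
        fun s => if 0 < s then iteratedDeriv n h s else 0 := by
    intro n
    induction n with
    | zero =>
      intro h hh h0
      simp only [iteratedDeriv_zero]
    | succ n ih =>
      intro h hh h0
      have hd := sp_deriv hh (flat_val h0) (flat_val (deriv_flat h0))
      have h1 : deriv (fun s => if 0 < s then h s else 0) =
          fun s => if 0 < s then deriv h s else 0 := funext fun s => (hd s).deriv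
      rw [iteratedDeriv_succ', h1, ih (deriv_smooth hh) (deriv_flat h0)]
      funext s
      rw [iteratedDeriv_succ']
  intro n
  rw [key n hh h0]
  simp

private theorem prim {h : ℝ → ℝ} (hh : ContDiff ℝ ∞ h) (h0 : FlatAt h 0) :
    ∃ J : ℝ → ℝ, ContDiff ℝ ∞ J ∧ FlatAt J 0 ∧ deriv J = h := by
  have hc : Continuous h := hh.continuous
  have hd : ∀ s, HasDerivAt (fun t => ∫ u in (0 : ℝ)..t, h u) (h s) s := fun s =>
    intervalIntegral.integral_hasDerivAt_right (hc.intervalIntegrable _ _)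
      (hc.stronglyMeasurableAtFilter _ _) hc.continuousAt
  have h1 : deriv (fun t => ∫ u in (0 : ℝ)..t, h u) = h := funext fun s => (hd s).deriv
  refine ⟨fun t => ∫ u in (0 : ℝ)..t, h u, ?_, ?_, h1⟩
  · rw [show (∞ : WithTop ℕ∞) = ∞ + 1 by rfl, contDiff_succ_iff_deriv]
    refine ⟨fun s => (hd s).differentiableAt, fun hn => ?_, ?_⟩
    · exact absurd hn (by simp)
    · rw [h1]
      exact hh
  · rw [flat1]
    intro n
    cases n with
    | zero => simp
    | succ n =>
      rw [iteratedDeriv_succ', h1]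
      exact flat1.mp h0 n

private theorem vr_add {m : ℕ} {r : ℝ} {f g : E0 k → ℝ} (hf : ContDiff ℝ ∞ f)
    (hg : ContDiff ℝ ∞ g) (h : VanR m r f) (h' : VanR m r g) : VanR m r (fun x => f x + g x) :=
  fun s hs hsr => Van.add hf hg (h s hs hsr) (h' s hs hsr)

private theorem vr_sub {m : ℕ} {r : ℝ} {f g : E0 k → ℝ} (hf : ContDiff ℝ ∞ f)
    (hg : ContDiff ℝ ∞ g) (h : VanR m r f) (h' : VanR m r g) : VanR m r (fun x => f x - g x) :=
  fun s hs hsr => Van.sub hf hg (h s hs hsr) (h' s hs hsr)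

private theorem co_smooth (l : Fin k) : ContDiff ℝ ∞ fun x : E0 k => x.2 l :=
  (contDiff_apply ℝ ℝ l).comp contDiff_snd

private theorem van_one {x : E0 k} {f : E0 k → ℝ} (h : f x = 0) : Van 1 f x := by
  intro j hj
  have hj0 : j = 0 := by omega
  subst hj0
  ext v
  rw [iteratedFDeriv_zero_apply, h]
  rfl

private theorem vr_mul {m : ℕ} {r : ℝ} {f : E0 k → ℝ} (hf : ContDiff ℝ ∞ f)
    (h : VanR m r f) (l : Fin k) : VanR (m + 1) r (fun x => x.2 l * f x) := by
  intro s hs hsr
  have h1 := Van.mul (co_smooth l) hf (van_one (x := ((s, 0) : E0 k)) rfl) (h s hs hsr)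
  rwa [add_comm] at h1

private theorem vr_congr {m : ℕ} {r : ℝ} {f g : E0 k → ℝ}
    (hfg : ∀ s : ℝ, 0 ≤ s → s < r → f =ᶠ[𝓝 ((s, 0) : E0 k)] g) (h : VanR m r f) : VanR m r g :=
  fun s hs hsr => (h s hs hsr).congr (hfg s hs hsr)

private theorem ds_sub {f g : E0 k → ℝ} (hf : ContDiff ℝ ∞ f) (hg : ContDiff ℝ ∞ g) :
    ds (fun x => f x - g x) = fun x => ds f x - ds g x := by
  funext x
  unfold ds
  rw [fderiv_fun_sub (hf.differentiable (by simp) x) (hg.differentiable (by simp) x)]
  rfl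

private theorem ds_mul {f : E0 k → ℝ} (hf : ContDiff ℝ ∞ f) (l : Fin k) :
    ds (fun x => x.2 l * f x) = fun x => x.2 l * ds f x := by
  funext x
  unfold ds
  have h1 : HasFDerivAt (fun x : E0 k => x.2 l)
      ((ContinuousLinearMap.proj l).comp (ContinuousLinearMap.snd ℝ ℝ (Fin k → ℝ))) x :=
    ((ContinuousLinearMap.proj l).comp (ContinuousLinearMap.snd ℝ ℝ (Fin k → ℝ))).hasFDerivAt
  have h2 := (hf.differentiable (by simp) x).hasFDerivAt
  have h3 : HasFDerivAt (fun x : E0 k => x.2 l * f x) _ x := h1.mul h2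
  rw [h3.fderiv]
  simp

private theorem ds_smooth {f : E0 k → ℝ} (hf : ContDiff ℝ ∞ f) : ContDiff ℝ ∞ (ds f) := by
  have h1 : ContDiff ℝ ∞ (fderiv ℝ f) := hf.fderiv_right le_rfl
  exact h1.clm_apply contDiff_const

private noncomputable def subF {m : ℕ} (P Q : PolFam k m) : PolFam k m where
  c := fun s => P.c s - Q.c s
  hom := fun s => (P.hom s).sub (Q.hom s)
  smooth := fun a => by
    have h1 : (fun s => MvPolynomial.coeff a (P.c s - Q.c s)) =
        fun s => MvPolynomial.coeff a (P.c s) - MvPolynomial.coeff a (Q.c s) :=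
      funext fun s => by rw [MvPolynomial.coeff_sub]
    rw [h1]
    exact (P.smooth a).sub (Q.smooth a)

private theorem subF_fn {m : ℕ} (P Q : PolFam k m) :
    (subF P Q).fn = fun x => P.fn x - Q.fn x := by
  funext x
  unfold PolFam.fn subF
  exact map_sub _ _ _

private noncomputable def xmul {m : ℕ} (l : Fin k) (P : PolFam k m) : PolFam k (m + 1) where
  c := fun s => MvPolynomial.X l * P.c s
  hom := fun s => by
    have h1 := (MvPolynomial.isHomogeneous_X ℝ l).mul (P.hom s)
    rwa [add_comm] at h1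
  smooth := fun a => by
    classical
    simp only [MvPolynomial.coeff_X_mul']
    split_ifs
    · exact P.smooth _
    · exact contDiff_const

private theorem xmul_fn {m : ℕ} (l : Fin k) (P : PolFam k m) :
    (xmul l P).fn = fun x => x.2 l * P.fn x := by
  funext x
  unfold PolFam.fn xmul
  rw [map_mul, MvPolynomial.eval_X]

private theorem near_seg {r r1 : ℝ} (hr : r1 < r) (s : ℝ) (hs : 0 ≤ s) (hsr : s < r1) :
    ∀ᶠ x : E0 k in 𝓝 ((s, 0) : E0 k), ‖x‖ < r := by
  have h1 : ‖((s, 0) : E0 k)‖ < r := by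
    rw [Prod.norm_def, norm_zero, Real.norm_eq_abs, abs_of_nonneg hs]
    exact max_lt (hsr.trans hr) (lt_of_le_of_lt hs (hsr.trans hr))
  exact continuous_norm.continuousAt.eventually_lt continuousAt_const h1

private theorem DD_comm {r : ℝ} (S : NSys k r) (i j : Fin k) (f : E0 k → ℝ) {x : E0 k}
    (hx : ‖x‖ < r) : DD (NF S.q i) (DD (NF S.q j) f) x = DD (NF S.q j) (DD (NF S.q i) f) x := by
  unfold DD
  rw [S.comm i j x hx]
  ring

private theorem vr_restrict {m : ℕ} {r r1 : ℝ} (hr : r1 ≤ r) {f : E0 k → ℝ} (h : VanR m r f) :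
    VanR m r1 f := fun s hs hsr => h s hs (lt_of_lt_of_le hsr hr)

private theorem DD_add (F : E0 k → E0 k) (f g : E0 k → ℝ) :
    DD F (fun x => f x + g x) = fun x => DD F f x + DD F g x := by
  funext x
  unfold DD
  ring

private theorem DD_sub (F : E0 k → E0 k) (f g : E0 k → ℝ) :
    DD F (fun x => f x - g x) = fun x => DD F f x - DD F g x := by
  funext x
  unfold DD
  ring

/-- the family with given coefficient functions -/
private noncomputable def famOf (n : ℕ) (v : (Fin k →₀ ℕ) → ℝ → ℝ)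
    (hv : ∀ a, ContDiff ℝ ∞ (v a)) : PolFam k n where
  c := fun s => ∑ a ∈ Finset.finsuppAntidiag (Finset.univ : Finset (Fin k)) n,
    MvPolynomial.monomial a (v a s)
  hom := fun s => by
    refine MvPolynomial.IsHomogeneous.sum _ _ _ fun b hb => ?_
    refine MvPolynomial.isHomogeneous_monomial _ ?_
    rw [Finset.mem_finsuppAntidiag] at hb
    rw [← hb.1, Finsupp.degree_eq_sum]
  smooth := fun a => by
    classical
    have h1 : (fun s => MvPolynomial.coeff a
        (∑ b ∈ Finset.finsuppAntidiag (Finset.univ : Finset (Fin k)) n,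
          MvPolynomial.monomial b (v b s))) = fun s =>
        if a ∈ Finset.finsuppAntidiag (Finset.univ : Finset (Fin k)) n then v a s else 0 := by
      funext s
      rw [MvPolynomial.coeff_sum]
      simp only [MvPolynomial.coeff_monomial]
      rw [Finset.sum_ite_eq']
    rw [h1]
    split_ifs
    · exact hv a
    · exact contDiff_const

open Classical in
private theorem famOf_coeff (n : ℕ) (v : (Fin k →₀ ℕ) → ℝ → ℝ)
    (hv : ∀ a, ContDiff ℝ ∞ (v a)) (a : Fin k →₀ ℕ) :
    (fun s => MvPolynomial.coeff a ((famOf n v hv).c s)) = fun s =>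
      if a ∈ Finset.finsuppAntidiag (Finset.univ : Finset (Fin k)) n then v a s else 0 := by
  funext s
  show MvPolynomial.coeff a
    (∑ b ∈ Finset.finsuppAntidiag (Finset.univ : Finset (Fin k)) n,
          MvPolynomial.monomial b (v b s)) = _
  rw [MvPolynomial.coeff_sum]
  simp only [MvPolynomial.coeff_monomial]
  rw [Finset.sum_ite_eq']

private theorem not_mem_coeff {n : ℕ} {p : MvPolynomial (Fin k) ℝ} (hp : p.IsHomogeneous n)
    {a : Fin k →₀ ℕ} (ha : a ∉ Finset.finsuppAntidiag (Finset.univ : Finset (Fin k)) n) :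
    MvPolynomial.coeff a p = 0 := by
  by_contra hne
  apply ha
  rw [Finset.mem_finsuppAntidiag]
  refine ⟨?_, Finset.subset_univ _⟩
  have h1 := hp hne
  rw [← h1, Finsupp.weight_apply, Finsupp.sum_fintype _ _ (by simp)]
  simp

/-- a family whose derivative vanishes on `[0, r)` and which is flat at `0` vanishes there -/
private theorem fam_zero {n : ℕ} {r : ℝ} (P P' : PolFam k n)
    (hP : ∀ a s, MvPolynomial.coeff a (P'.c s) = deriv (fun s => MvPolynomial.coeff a (P.c s)) s)
    (h0 : P.c 0 = 0) (h : ∀ s : ℝ, 0 ≤ s → s < r → P'.c s = 0) :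
    ∀ s : ℝ, 0 ≤ s → s < r → P.c s = 0 := by
  intro s hs hsr
  ext a
  rw [MvPolynomial.coeff_zero]
  have h1 := constant_of_has_deriv_right_zero (f := fun s => MvPolynomial.coeff a (P.c s))
    (a := 0) (b := s) (P.smooth a).continuous.continuousOn (fun t ht => by
      have h2 := ((P.smooth a).differentiable (by simp) t).hasDerivAt
      rw [← hP a t, h t ht.1 (ht.2.trans hsr), MvPolynomial.coeff_zero] at h2
      exact h2.hasDerivWithinAt)
  have h2 := h1 s ⟨hs, le_rfl⟩
  have h3 : MvPolynomial.coeff a (P.c s) = MvPolynomial.coeff a (P.c 0) := h2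
  rw [h3, h0, MvPolynomial.coeff_zero]

theorem ray_R3 {k : ℕ} (hk : 2 ≤ k) {r r1 : ℝ} (hr1 : 0 < r1) (hr : r1 < r) (S : NSys k r)
    (h3 : ∀ i j, VanR 3 r (S.q i j)) {m : ℕ} (hm : 3 ≤ m) {σ : E0 k → ℝ} (hσ : ContDiff ℝ ∞ σ)
    (hσ0 : FlatAt (fun x => σ x - x.1) 0)
    (hg : ∀ i j, VanR m r1 (DD (NF S.q i) (DD (NF S.q j) σ))) :
    ∃ V : PolFam k (m - 2), (∀ a, FlatAt (fun s : ℝ => MvPolynomial.coeff a (V.c s)) 0) ∧
      (∀ s, (s ≤ 0 ∨ r1 + 1 ≤ s) → V.c s = 0) ∧
      ∀ i j, VanR (m + 1) r1 (DD (NF S.q i) (DD (NF S.q j) (fun x => σ x - V.fn x))) := by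
  classical
  have hq3 : ∀ i j, VanR 3 r1 (S.q i j) := fun i j => vr_restrict hr.le (h3 i j)
  have hq2 : ∀ i j, VanR 2 r1 (S.q i j) := fun i j s hs hsr =>
    Van.mono (by norm_num) (hq3 i j s hs hsr)
  have hgs : ∀ i j, ContDiff ℝ ∞ (DD (NF S.q i) (DD (NF S.q j) σ)) := fun i j =>
    DD_smooth S.smooth (DD_smooth S.smooth hσ j) i
  -- flatness of the second differences
  have hgf : ∀ i j, FlatAt (DD (NF S.q i) (DD (NF S.q j) σ)) 0 := by
    intro i j
    have hτs : ContDiff ℝ ∞ fun x : E0 k => σ x - x.1 := hσ.sub contDiff_fst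
    have e1 : DD (NF S.q i) (DD (NF S.q j) σ) = fun x =>
        DD (NF S.q i) (DD (NF S.q j) (fun x => σ x - x.1)) x + S.q i j x := by
      funext x
      unfold DD NF
      ring
    rw [e1, flatAt_iff]
    intro n
    refine Van.add (DD_smooth S.smooth (DD_smooth S.smooth hτs j) i) (S.smooth i j) ?_
      (flatAt_iff.mp (S.flat i j) n)
    exact flatAt_iff.mp (DD_flat S.smooth S.flat (DD_smooth S.smooth hτs j)
      (DD_flat S.smooth S.flat hτs hσ0 j) i) n
  -- leading terms
  choose G hGf hG using fun i j => leading (hgs i j) (hgf i j) (hg i j)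
  have hGfn : ∀ i j, FlatAt (G i j).fn 0 := fun i j => (G i j).flatfn (hGf i j)
  have hG0 : ∀ i j, (G i j).c 0 = 0 := by
    intro i j
    ext a
    rw [MvPolynomial.coeff_zero]
    exact flat_val (h := fun s => MvPolynomial.coeff a ((G i j).c s)) (x := 0) (hGf i j a)
  have hGs : ∀ i j, ContDiff ℝ ∞ (G i j).fn := fun i j => (G i j).fn_smooth
  have hsym : ∀ i j, ∀ s : ℝ, 0 ≤ s → s < r1 → (G i j).c s = (G j i).c s := by
    intro i j s hs hsr
    have h1 : VanR (m + 1) r1 (subF (G i j) (G j i)).fn := by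
      have h2 := vr_sub ((hgs j i).sub (hGs j i)) ((hgs i j).sub (hGs i j)) (hG j i) (hG i j)
      refine vr_congr (fun t ht htr => ?_) h2
      filter_upwards [near_seg hr t ht htr] with x hx
      rw [subF_fn, DD_comm S i j σ hx]
      ring
    have h2 := (subF (G i j) (G j i)).fn_uniq hr1 h1 s hs hsr
    exact sub_eq_zero.mp h2
  have hD : ∀ i j l, VanR (m + 2) r1 (fun x => DD (NF S.q l) (DD (NF S.q i) (DD (NF S.q j) σ)) x -
      x.2 l * ds (DD (NF S.q i) (DD (NF S.q j) σ)) x) := fun i j l =>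
    symbol3 S.smooth S.flat hq3 (hgs i j) (hgf i j) (hg i j) l
  have hds : ∀ i j, VanR (m + 1) r1 (fun x => ds (DD (NF S.q i) (DD (NF S.q j) σ)) x -
      ds (G i j).fn x) := by
    intro i j
    have h1 := ds_vanR ((hgs i j).sub (hGs i j)) (hG i j)
    rwa [ds_sub (hgs i j) (hGs i j)] at h1
  have hcross : ∀ i j l, ∀ s : ℝ, 0 ≤ s → s < r1 →
      MvPolynomial.X l * (G i j).c s = MvPolynomial.X i * (G l j).c s := by
    intro i j l s hs hsr
    obtain ⟨K', hK1, hK2⟩ := (subF (xmul l (G i j)) (xmul i (G l j))).exists_der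
    have e1 : K'.fn = fun x => x.2 l * ds (G i j).fn x - x.2 i * ds (G l j).fn x := by
      rw [← hK1, subF_fn, xmul_fn, xmul_fn, ds_sub ((co_smooth l).mul (hGs i j))
        ((co_smooth i).mul (hGs l j)), ds_mul (hGs i j), ds_mul (hGs l j)]
    have s1 : ∀ i j l, ContDiff ℝ ∞ (fun x : E0 k => x.2 l *
        (ds (DD (NF S.q i) (DD (NF S.q j) σ)) x - ds (G i j).fn x)) := fun i j l =>
      (co_smooth l).mul ((ds_smooth (hgs i j)).sub (ds_smooth (hGs i j)))
    have s2 : ∀ i j l, ContDiff ℝ ∞ (fun x => DD (NF S.q l) (DD (NF S.q i) (DD (NF S.q j) σ)) x -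
        x.2 l * ds (DD (NF S.q i) (DD (NF S.q j) σ)) x) := fun i j l =>
      (DD_smooth S.smooth (hgs i j) l).sub ((co_smooth l).mul (ds_smooth (hgs i j)))
    have s3 : ∀ i j l, VanR (m + 2) r1 (fun x : E0 k => x.2 l *
        (ds (DD (NF S.q i) (DD (NF S.q j) σ)) x - ds (G i j).fn x)) := fun i j l =>
      vr_mul ((ds_smooth (hgs i j)).sub (ds_smooth (hGs i j))) (hds i j) l
    have h1 : VanR (m + 1 + 1) r1 K'.fn := by
      have h4 := vr_sub ((s1 l j i).add (s2 l j i)) ((s1 i j l).add (s2 i j l))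
        (vr_add (s1 l j i) (s2 l j i) (s3 l j i) (hD l j i))
        (vr_add (s1 i j l) (s2 i j l) (s3 i j l) (hD i j l))
      refine vr_congr (fun t ht htr => ?_) h4
      filter_upwards [near_seg hr t ht htr] with x hx
      rw [e1, DD_comm S l i (DD (NF S.q j) σ) hx]
      ring
    have h2 := fam_zero (r := r1) _ K' hK2 (by
      show MvPolynomial.X l * (G i j).c 0 - MvPolynomial.X i * (G l j).c 0 = 0
      rw [hG0, hG0, mul_zero, mul_zero, sub_zero]) (K'.fn_uniq hr1 h1) s hs hsr
    exact sub_eq_zero.mp h2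
  -- the coefficients
  have hk0 : 0 < k := by omega
  have hk1 : 1 < k := by omega
  set ha : (Fin k →₀ ℕ) → ℝ → ℝ := fun a s => MvPolynomial.coeff
    (a + Finsupp.single (⟨0, hk0⟩ : Fin k) 1 + Finsupp.single (⟨1, hk1⟩ : Fin k) 1)
    ((G ⟨0, hk0⟩ ⟨1, hk1⟩).c s) with hadef
  have has : ∀ a, ContDiff ℝ ∞ (ha a) := fun a => (G ⟨0, hk0⟩ ⟨1, hk1⟩).smooth _
  have haf : ∀ a, FlatAt (ha a) 0 := fun a => hGf _ _ _
  choose J hJs hJf hJd using fun a => prim (has a) (haf a)
  choose I hIs hIf hId using fun a => prim (hJs a) (hJf a)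
  set θ : ℝ → ℝ := fun s => Real.smoothTransition (r1 + 1 - s) with hθdef
  have hθs : ContDiff ℝ ∞ θ := Real.smoothTransition.contDiff.comp (contDiff_const.sub contDiff_id)
  have hθ1 : ∀ s, s ≤ r1 → θ s = 1 := fun s hs =>
    Real.smoothTransition.one_of_one_le (by linarith)
  have hθ0 : ∀ s, r1 + 1 ≤ s → θ s = 0 := fun s hs =>
    Real.smoothTransition.zero_of_nonpos (by linarith)
  have hpos := fun a => smooth_pos (h := fun s => θ s * I a s) (hθs.mul (hIs a)) (by
    rw [flatAt_iff]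
    intro n
    have h4 := Van.mul (a := 0) (b := n) hθs (hIs a) (fun j hj => absurd hj (Nat.not_lt_zero j))
      (flatAt_iff.mp (hIf a) n)
    rwa [zero_add] at h4)
  set v : (Fin k →₀ ℕ) → ℝ → ℝ := fun a s => if 0 < s then θ s * I a s else 0 with hvdef
  have hvs : ∀ a, ContDiff ℝ ∞ (v a) := fun a => (hpos a).1
  have hvf : ∀ a, FlatAt (v a) 0 := fun a => (hpos a).2
  set V : PolFam k (m - 2) := famOf (m - 2) v hvs with hV
  have hVf : ∀ a, FlatAt (fun s : ℝ => MvPolynomial.coeff a (V.c s)) 0 := by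
    intro a
    rw [hV, famOf_coeff]
    split_ifs
    · exact hvf a
    · intro j
      rw [iteratedFDeriv_fun_zero]
      rfl
  refine ⟨V, hVf, ?_, ?_⟩
  · intro s hs
    rw [hV]
    refine Finset.sum_eq_zero fun a _ => ?_
    have h4 : v a s = 0 := by
      rcases hs with hs | hs
      · exact if_neg (not_lt.mpr hs)
      · show (if 0 < s then θ s * I a s else 0) = 0
        rw [hθ0 s hs, zero_mul]
        split_ifs <;> rfl
    rw [h4, map_zero]
  intro i j
  -- second derivatives of the family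
  obtain ⟨V1, hV1, hV1c⟩ := V.exists_der
  obtain ⟨V2, hV2, hV2c⟩ := V1.exists_der
  have hVs : ContDiff ℝ ∞ V.fn := V.fn_smooth
  have hVfn : FlatAt V.fn 0 := V.flatfn hVf
  have hV2v : ∀ s : ℝ, 0 < s → s < r1 → ∀ a ∈ Finset.finsuppAntidiag
      (Finset.univ : Finset (Fin k)) (m - 2), MvPolynomial.coeff a (V2.c s) = ha a s := by
    intro s hs hsr a haT
    have e0 : (fun s => MvPolynomial.coeff a (V.c s)) = v a := by
      rw [hV, famOf_coeff]
      simp only [if_pos haT]
    have e1 : (fun s => MvPolynomial.coeff a (V1.c s)) = deriv (v a) := by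
      funext t
      rw [hV1c a t, e0]
    rw [hV2c a s, e1]
    have e2 : ∀ t : ℝ, 0 < t → t < r1 → v a =ᶠ[𝓝 t] I a := by
      intro t ht htr
      filter_upwards [Ioi_mem_nhds ht, Iio_mem_nhds htr] with u hu hu'
      have hu1 : 0 < u := hu
      have hu2 : u < r1 := hu'
      show (if 0 < u then θ u * I a u else 0) = I a u
      rw [if_pos hu1, hθ1 u hu2.le, one_mul]
    have e3 : deriv (v a) =ᶠ[𝓝 s] J a := by
      filter_upwards [Ioi_mem_nhds hs, Iio_mem_nhds hsr] with u hu hu'
      rw [(e2 u hu hu').deriv_eq, hId a]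
    rw [e3.deriv_eq, hJd a]
  have hV2G : ∀ s : ℝ, 0 < s → s < r1 →
      (G i j).c s = MvPolynomial.X i * MvPolynomial.X j * V2.c s := by
    intro s hs hsr
    obtain ⟨H, hH1, hH2, hH3⟩ := algR3 (m := m) hk (fun i j => (G i j).c s) (by omega)
      (fun i j => (G i j).hom s) (fun i j => hsym i j s hs.le hsr)
      (fun i j l => hcross i j l s hs.le hsr)
    have e1 : H = V2.c s := by
      ext a
      by_cases haT : a ∈ Finset.finsuppAntidiag (Finset.univ : Finset (Fin k)) (m - 2)
      · rw [hV2v s hs hsr a haT, hH3 a]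
      · rw [not_mem_coeff hH1 haT, not_mem_coeff (V2.hom s) haT]
    rw [← e1]
    exact hH2 i j
  -- the difference of `x i x j ds ds v` and the leading term
  have hdsV : ContDiff ℝ ∞ (ds V.fn) := ds_smooth hVs
  have hdsdsV : ContDiff ℝ ∞ (ds (ds V.fn)) := ds_smooth hdsV
  have hA : VanR (m + 1) r1 (fun x => (G i j).fn x - x.2 i * (x.2 j * ds (ds V.fn) x)) := by
    intro s hs hsr
    rcases hs.eq_or_lt with hs0 | hs0
    · rw [← hs0]
      refine Van.sub (hGs i j) ((co_smooth i).mul ((co_smooth j).mul hdsdsV))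
        (flatAt_iff.mp (hGfn i j) _) ?_
      have h4 := flatAt_iff.mp (ds_flat hdsV (ds_flat hVs hVfn)) (m + 1)
      have h5 := Van.mul (a := 0) (co_smooth j) hdsdsV
        (fun j hj => absurd hj (Nat.not_lt_zero j)) h4
      have h6 := Van.mul (a := 0) (co_smooth i) ((co_smooth j).mul hdsdsV)
        (fun j hj => absurd hj (Nat.not_lt_zero j)) h5
      rw [zero_add, zero_add] at h6
      exact h6
    · have h4 : (fun _ : E0 k => (0 : ℝ)) =ᶠ[𝓝 ((s, 0) : E0 k)]
          fun x => (G i j).fn x - x.2 i * (x.2 j * ds (ds V.fn) x) := by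
        have h5 : ∀ᶠ x : E0 k in 𝓝 ((s, 0) : E0 k), 0 < x.1 :=
          continuous_fst.continuousAt.eventually (Ioi_mem_nhds hs0)
        have h6 : ∀ᶠ x : E0 k in 𝓝 ((s, 0) : E0 k), x.1 < r1 :=
          continuous_fst.continuousAt.eventually (Iio_mem_nhds hsr)
        filter_upwards [h5, h6] with x hx1 hx2
        rw [hV1, hV2]
        unfold PolFam.fn
        rw [hV2G x.1 hx1 hx2, map_mul, map_mul, MvPolynomial.eval_X, MvPolynomial.eval_X]
        ring
      refine Van.congr h4 ?_
      intro n _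
      rw [iteratedFDeriv_fun_zero]
      rfl
  -- the second differences of `v`
  have hv0 : VanR (m - 2) r1 V.fn := fun s _ _ => V.fn_van s
  have hw : VanR (m - 2 + 2) r1 (fun x => DD (NF S.q j) V.fn x - x.2 j * ds V.fn x) :=
    symbol3 S.smooth S.flat hq3 hVs hVfn hv0 j
  rw [show m - 2 + 2 = m by omega] at hw
  have hws : ContDiff ℝ ∞ (fun x => DD (NF S.q j) V.fn x - x.2 j * ds V.fn x) :=
    (DD_smooth S.smooth hVs j).sub ((co_smooth j).mul hdsV)
  have hjf : FlatAt (fun x : E0 k => x.2 j * ds V.fn x) 0 := by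
    rw [flatAt_iff]
    intro n
    have h5 := Van.mul (a := 0) (co_smooth j) hdsV
        (fun j hj => absurd hj (Nat.not_lt_zero j)) (flatAt_iff.mp (ds_flat hVs hVfn) n)
    rwa [zero_add] at h5
  have hwf : FlatAt (fun x => DD (NF S.q j) V.fn x - x.2 j * ds V.fn x) 0 := by
    rw [flatAt_iff]
    intro n
    exact Van.sub (DD_smooth S.smooth hVs j) ((co_smooth j).mul hdsV)
      (flatAt_iff.mp (DD_flat S.smooth S.flat hVs hVfn j) n) (flatAt_iff.mp hjf n)
  have hB : VanR (m + 1) r1 (DD (NF S.q i) (fun x => DD (NF S.q j) V.fn x - x.2 j * ds V.fn x)) :=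
    raise S.smooth S.flat hq2 hws hwf hw i
  have hj1 : VanR (m - 2 + 1) r1 (fun x : E0 k => x.2 j * ds V.fn x) :=
    vr_mul hdsV (ds_vanR hVs hv0) j
  have hC := symbol3 S.smooth S.flat hq3 ((co_smooth j).mul hdsV) hjf hj1 i
  rw [show m - 2 + 1 + 2 = m + 1 by omega, ds_mul hdsV j] at hC
  have hjs : ContDiff ℝ ∞ (fun x : E0 k => x.2 j * ds V.fn x) := (co_smooth j).mul hdsV
  have hCs : ContDiff ℝ ∞ (fun x => DD (NF S.q i) (fun x : E0 k => x.2 j * ds V.fn x) x -
      x.2 i * (x.2 j * ds (ds V.fn) x)) :=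
    (DD_smooth S.smooth hjs i).sub ((co_smooth i).mul ((co_smooth j).mul hdsdsV))
  have hBs : ContDiff ℝ ∞ (DD (NF S.q i) (fun x => DD (NF S.q j) V.fn x - x.2 j * ds V.fn x)) :=
    DD_smooth S.smooth hws i
  have hAs : ContDiff ℝ ∞ (fun x => (G i j).fn x - x.2 i * (x.2 j * ds (ds V.fn) x)) :=
    (hGs i j).sub ((co_smooth i).mul ((co_smooth j).mul hdsdsV))
  have hfin := vr_sub (((hgs i j).sub (hGs i j)).add hAs) (hBs.add hCs)
    (vr_add ((hgs i j).sub (hGs i j)) hAs (hG i j) hA) (vr_add hBs hCs hB hC)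
  have e : DD (NF S.q i) (DD (NF S.q j) (fun x => σ x - V.fn x)) = fun x =>
      DD (NF S.q i) (DD (NF S.q j) σ) x - (G i j).fn x +
        ((G i j).fn x - x.2 i * (x.2 j * ds (ds V.fn) x)) -
      (DD (NF S.q i) (fun x => DD (NF S.q j) V.fn x - x.2 j * ds V.fn x) x +
        (DD (NF S.q i) (fun x : E0 k => x.2 j * ds V.fn x) x -
          x.2 i * (x.2 j * ds (ds V.fn) x))) := by
    funext x
    rw [DD_sub, DD_sub, DD_sub]
    ring
  rw [e]
  exact hfin

end LatLin.B
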