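import Pool.Agent.Lib.MP_2392aa_gt.B.RayCL
import Pool.Agent.Lib.MP_2392aa_gt.B.RayR1
import Pool.Agent.Lib.MP_2392aa_gt.B.RayR2
import Pool.Agent.Lib.MP_2392aa_gt.B.RayR2a
import Pool.Agent.Lib.MP_2392aa_gt.B.RayR3
import Pool.Agent.Lib.MP_2392aa_gt.B.RayBorel

/-!
MODULE RayMain. The chart near a ray: `F i ∘ K - K ∘ tau i` is flat along the ray.

PROOF. (a) `rayCL` with `σ x = x.1` gives `S₁`, conjugate to `F`. `ray_R1` and `restrict`: order 2.
(b) `ray_R2a`, then `ray_R2b`: a conjugate system `S` (radius `r`) of order 3. (c) Put `r1 = r / 2`.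
Choose recursively (`ray_R3` with `m + 3`) families `V m` of degree `m + 1` with
`D_i D_j (s - ∑_(l < m) (V l).fn)` of order `m + 3` on `[0, r1)` (start: `D_i D_j s = q j i`, order
`3`). `borel_ray` gives `v`; `σ = s - v` satisfies: `D_i D_j σ` vanishes to every order
on `[0, r1)`, because `D_i D_j (v - ∑_(l<m) (V l).fn)` vanishes to order `m + 3` (`raise` twice).
(d) `rayCL` with this `σ` gives `S'` with `S'.q i j ∘ SigMap = D_i D_j σ` near `0`; `v (s,0) = 0` so
`SigMap (s,0) = (s,0)` for `0 ≤ s < r1` (`NF q j (s,0) = (s,0)`), and `S'.q i j = (D_i D_j σ) ∘ K'` is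
flat at `(s,0)` for small `s ≥ 0`. (e) Compose the conjugacies (`RConj` is transitive): there is `K`
(smooth, `K - id` flat) with `F i (K x) = K (NF S'.q i x)` near `0`. `NF S'.q i - tau i = (0, S'.q i ·)` is
flat at `(s,0)`, so `K ∘ NF S'.q i - K ∘ tau i` is flat there (`Van.comp_sub`). Choose `r` so small that
the equality `F i (K x) = K (NF S'.q i x)` holds near `(s,0)`, `0 ≤ s < r`.
-/

open scoped ContDiff Topology

namespace LatLin.B

section flat
variable {E F G : Type*} [NormedAddCommGroup E] [NormedSpace ℝ E] [NormedAddCommGroup F]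
  [NormedSpace ℝ F] [NormedAddCommGroup G] [NormedSpace ℝ G]

private theorem rm_add {f g : E → F} {x : E} (hf : ContDiff ℝ ∞ f) (hg : ContDiff ℝ ∞ g)
    (h : FlatAt f x) (h' : FlatAt g x) : FlatAt (fun z => f z + g z) x :=
  flatAt_iff.2 fun m => Van.add hf hg (flatAt_iff.1 h m) (flatAt_iff.1 h' m)

private theorem rm_sub {f g : E → F} {x : E} (hf : ContDiff ℝ ∞ f) (hg : ContDiff ℝ ∞ g)
    (h : FlatAt f x) (h' : FlatAt g x) : FlatAt (fun z => f z - g z) x :=
  flatAt_iff.2 fun m => Van.sub hf hg (flatAt_iff.1 h m) (flatAt_iff.1 h' m)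

private theorem rm_comp {f : F → G} {g : E → F} {x : E} (hf : ContDiff ℝ ∞ f) (hg : ContDiff ℝ ∞ g)
    (h : FlatAt f (g x)) : FlatAt (fun z => f (g z)) x :=
  flatAt_iff.2 fun m => Van.comp hf hg (flatAt_iff.1 h m)

private theorem rm_congr {f g : E → F} {x : E} (hfg : f =ᶠ[𝓝 x] g) (h : FlatAt f x) :
    FlatAt g x :=
  flatAt_iff.2 fun m => Van.congr hfg (flatAt_iff.1 h m)

private theorem rm_vval {f : E → F} {x : E} {m : ℕ} (hm : 0 < m) (h : Van m f x) : f x = 0 := by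
  have h1 : ‖f x‖ = 0 := by
    rw [← norm_iteratedFDeriv_zero (𝕜 := ℝ), h 0 hm, norm_zero]
  exact norm_eq_zero.1 h1

private theorem rm_val {f : E → F} {x : E} (h : FlatAt f x) : f x = 0 :=
  rm_vval one_pos (flatAt_iff.1 h 1)

private theorem rm_zero (x : E) : FlatAt (fun _ : E => (0 : F)) x := by
  intro j
  rw [iteratedFDeriv_fun_zero]
  rfl

private theorem rm_neg {f : E → F} {x : E} (hf : ContDiff ℝ ∞ f) (h : FlatAt f x) :
    FlatAt (fun z => - f z) x := by
  have h1 := rm_sub (contDiff_const (c := (0 : F))) hf (rm_zero x) h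
  refine rm_congr (Filter.Eventually.of_forall fun z => ?_) h1
  change (0 : F) - f z = - f z
  rw [zero_sub]

private theorem rm_tendsto {f : E → E} (hf : ContDiff ℝ ∞ f) (h : FlatAt (fun x => f x - x) 0) :
    Filter.Tendsto f (𝓝 0) (𝓝 0) := by
  have h1 := rm_val h
  rw [sub_zero] at h1
  have h2 := hf.continuous.continuousAt (x := (0 : E)) |>.tendsto
  rwa [h1] at h2

end flat

theorem RConj.trans {k : ℕ} {F F' F'' : Fin k → E0 k → E0 k}
    (h : RConj F F') (h' : RConj F' F'') : RConj F F'' := by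
  obtain ⟨A, B, hA, hB, fA, fB, hAB, hBA, hc⟩ := h
  obtain ⟨A', B', hA', hB', fA', fB', hAB', hBA', hc'⟩ := h'
  have tA := rm_tendsto hA fA
  have tB' := rm_tendsto hB' fB'
  have hA0 : A 0 = 0 := by
    have h1 := rm_val fA
    rwa [sub_zero] at h1
  have hB0' : B' 0 = 0 := by
    have h1 := rm_val fB'
    rwa [sub_zero] at h1
  refine ⟨fun x => A' (A x), fun x => B (B' x), hA'.comp hA, hB.comp hB', ?_, ?_, ?_, ?_, ?_⟩
  · have h1 : FlatAt (fun x => A' (A x) - A x) 0 :=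
      rm_comp (f := fun x => A' x - x) (g := A) (hA'.sub contDiff_id) hA (by rw [hA0]; exact fA')
    have h2 := rm_add ((hA'.comp hA).sub hA) (hA.sub contDiff_id) h1 fA
    refine rm_congr (Filter.Eventually.of_forall fun z => ?_) h2
    change A' (A z) - A z + (A z - z) = A' (A z) - z
    abel
  · have h1 : FlatAt (fun x => B (B' x) - B' x) 0 :=
      rm_comp (f := fun x => B x - x) (g := B') (hB.sub contDiff_id) hB' (by rw [hB0']; exact fB)
    have h2 := rm_add ((hB.comp hB').sub hB') (hB'.sub contDiff_id) h1 fB'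
    refine rm_congr (Filter.Eventually.of_forall fun z => ?_) h2
    change B (B' z) - B' z + (B' z - z) = B (B' z) - z
    abel
  · filter_upwards [tB'.eventually hAB, hAB'] with x h1 h2
    rw [h1, h2]
  · filter_upwards [tA.eventually hBA', hBA] with x h1 h2
    rw [h1, h2]
  · intro i
    filter_upwards [hc i, tA.eventually (hc' i)] with x h1 h2
    rw [h1, h2]

private theorem rm_nf_smooth {k : ℕ} {q : Fin k → Fin k → E0 k → ℝ}
    (hq : ∀ i j, ContDiff ℝ ∞ (q i j)) (i : Fin k) : ContDiff ℝ ∞ (NF q i) := by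
  have h1 : ContDiff ℝ ∞ (fun x : E0 k => x.1 + x.2 i) :=
    contDiff_fst.add ((contDiff_apply ℝ ℝ i).comp contDiff_snd)
  have h2 : ContDiff ℝ ∞ (fun x : E0 k => fun j => x.2 j + q i j x) := by
    rw [contDiff_pi]
    intro j
    exact ((contDiff_apply ℝ ℝ j).comp contDiff_snd).add (hq i j)
  exact h1.prodMk h2

private theorem rm_tau_smooth {k : ℕ} (i : Fin k) : ContDiff ℝ ∞ (tau i : E0 k → E0 k) := by
  unfold tau
  fun_prop

private theorem rm_nf_flat {k : ℕ} {q : Fin k → Fin k → E0 k → ℝ}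
    (hq : ∀ i j, ContDiff ℝ ∞ (q i j)) (i : Fin k) {x : E0 k} (h : ∀ j, FlatAt (q i j) x) :
    FlatAt (fun z => NF q i z - tau i z) x := by
  rw [flatAt_iff]
  intro m
  have h1 : Van m (fun z : E0 k => ∑ j, q i j z • ((0, Pi.single j 1) : E0 k)) x := by
    refine Van.sum _ (fun j _ => (hq i j).smul contDiff_const) fun j _ => ?_
    have h2 := Van.smul (a := m) (b := 0) (hq i j)
      (contDiff_const (c := ((0, Pi.single j 1) : E0 k))) (flatAt_iff.1 (h j) m)
      (fun _ hj => absurd hj (Nat.not_lt_zero _))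
    exact h2
  refine Van.congr (Filter.Eventually.of_forall fun z => ?_) h1
  refine Prod.ext ?_ ?_
  · simp [NF, tau, Prod.fst_sum]
  · funext l
    simp [NF, tau, Prod.snd_sum, Finset.sum_apply, Pi.single_apply]

private theorem rm_DD_sub {k : ℕ} (F G : E0 k → E0 k) (f g : E0 k → ℝ) :
    DD F (DD G (fun x => f x - g x)) = fun x => DD F (DD G f) x - DD F (DD G g) x := by
  funext x
  simp only [DD]
  ring

theorem ray_main {k : ℕ} (hk : 2 ≤ k) (F : Fin k → E0 k → E0 k) (hF : ∀ i, ContDiff ℝ ∞ (F i))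
    (hflat : ∀ i, FlatAt (fun x => F i x - tau i x) 0)
    (hcomm : ∀ i j, ∀ᶠ x in 𝓝 (0 : E0 k), F i (F j x) = F j (F i x)) :
    ∃ (K : E0 k → E0 k) (r : ℝ), 0 < r ∧ ContDiff ℝ ∞ K ∧ FlatAt (fun x => K x - x) 0 ∧
      ∀ i, ∀ s : ℝ, 0 ≤ s → s < r →
        FlatAt (fun x => F i (K x) - K (tau i x)) ((s, 0) : E0 k) := by
  have hfst : ContDiff ℝ ∞ (fun x : E0 k => x.1) := contDiff_fst
  -- (a)
  have hfl0 : FlatAt (fun x : E0 k => x.1 - x.1) 0 := by
    refine rm_congr (Filter.Eventually.of_forall fun z => ?_) (rm_zero (F := ℝ) (0 : E0 k))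
    exact (sub_self _).symm
  obtain ⟨r0, hr0, S0, K0, hK0, fK0, fS0, hSK0, hKS0, hc0, -⟩ :=
    rayCL F hF hflat hcomm (fun x => x.1) hfst hfl0
  have hsig : ∀ (F : Fin k → E0 k → E0 k) (σ : E0 k → ℝ), (∀ i, ContDiff ℝ ∞ (F i)) →
      ContDiff ℝ ∞ σ → ContDiff ℝ ∞ (SigMap F σ) := by
    intro F σ hF hσ
    refine hσ.prodMk ?_
    rw [contDiff_pi]
    intro j
    exact (hσ.comp (hF j)).sub hσ
  have C0 : RConj F (NF S0.q) :=
    ⟨SigMap F (fun x => x.1), K0, hsig _ _ hF hfst, hK0, fS0, fK0, hSK0, hKS0, hc0⟩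
  obtain ⟨r1, hr1, hr10, hV1⟩ := ray_R1 hk hr0 S0
  -- (b)
  obtain ⟨r, hr, S, C1, hV2, hμ⟩ := ray_R2a hk hr1 (S0.restrict hr10) hV1
  have h3 : ∀ i j, VanR 3 r (S.q i j) := ray_R2b hk hr S hV2 hμ
  have C01 : RConj F (NF S.q) := C0.trans C1
  -- (c)
  have hρ : 0 < r / 2 := by linarith
  have hρr : r / 2 < r := by linarith
  let P : ℕ → (E0 k → ℝ) → Prop := fun m σ => ContDiff ℝ ∞ σ ∧ FlatAt (fun x => σ x - x.1) 0 ∧
    ∀ i j, VanR (m + 3) (r / 2) (DD (NF S.q i) (DD (NF S.q j) σ))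
  have step : ∀ (m : ℕ) (σ : E0 k → ℝ), P m σ → ∃ V : PolFam k (m + 1),
      (∀ a, FlatAt (fun s : ℝ => MvPolynomial.coeff a (V.c s)) 0) ∧
      (∀ s, (s ≤ 0 ∨ r / 2 + 1 ≤ s) → V.c s = 0) ∧ P (m + 1) (fun x => σ x - V.fn x) := by
    intro m σ hσ
    obtain ⟨V, hV1, hV2, hV3⟩ := ray_R3 hk hρ hρr S h3 (m := m + 3) (by omega) hσ.1 hσ.2.1 hσ.2.2
    refine ⟨V, hV1, hV2, hσ.1.sub (PolFam.fn_smooth V), ?_, ?_⟩
    · have h4 := rm_sub (hσ.1.sub hfst) (PolFam.fn_smooth V) hσ.2.1 (PolFam.flatfn V hV1)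
      refine rm_congr (Filter.Eventually.of_forall fun z => ?_) h4
      change σ z - z.1 - _ = σ z - _ - z.1
      ring
    · intro i j
      have h5 := hV3 i j
      have h6 : m + 3 + 1 = m + 1 + 3 := by omega
      rw [h6] at h5
      exact h5
  have hP0 : P 0 (fun x => x.1) := by
    refine ⟨hfst, hfl0, fun i j => ?_⟩
    have h4 : DD (NF S.q i) (DD (NF S.q j) (fun x => x.1)) = S.q i j := by
      funext x
      simp only [DD, NF]
      ring
    rw [h4]
    exact fun s hs hs' => h3 i j s hs (hs'.trans hρr)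
  choose g hg using step
  let st : ∀ m : ℕ, {σ : E0 k → ℝ // P m σ} := fun m => Nat.rec
    (motive := fun m => {σ : E0 k → ℝ // P m σ}) ⟨fun x => x.1, hP0⟩
    (fun m σ => ⟨fun x => σ.1 x - (g m σ.1 σ.2).fn x, (hg m σ.1 σ.2).2.2⟩) m
  let V : ∀ m : ℕ, PolFam k (m + 1) := fun m => g m (st m).1 (st m).2
  have hst : ∀ M x, (st M).1 x = x.1 - ∑ m ∈ Finset.range M, (V m).fn x := by
    intro M
    induction M with
    | zero =>
      intro x
      simp [st]
    | succ M ih =>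
      intro x
      have h4 : (st (M + 1)).1 x = (st M).1 x - (V M).fn x := rfl
      rw [h4, ih x, Finset.sum_range_succ]
      ring
  have hVc : ∀ m s, (s ≤ 0 ∨ r / 2 + 1 ≤ s) → (V m).c s = 0 := fun m => (hg m _ (st m).2).2.1
  have hVf : ∀ m a, FlatAt (fun s : ℝ => MvPolynomial.coeff a ((V m).c s)) 0 :=
    fun m => (hg m _ (st m).2).1
  obtain ⟨v, hv, fv, hvM⟩ := borel_ray (r / 2 + 1) V hVc hVf
  set σ : E0 k → ℝ := fun x => x.1 - v x with hσdef
  have hσ : ContDiff ℝ ∞ σ := hfst.sub hv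
  have fσ : FlatAt (fun x => σ x - x.1) 0 := by
    refine rm_congr (Filter.Eventually.of_forall fun z => ?_) (rm_neg hv fv)
    change - v z = z.1 - v z - z.1
    ring
  have hS2 : ∀ i j, VanR 2 (r / 2) (S.q i j) := fun i j s hs hs' =>
    (h3 i j s hs (hs'.trans hρr)).mono (by norm_num)
  have hDD : ∀ i j, ∀ s : ℝ, 0 ≤ s → s < r / 2 →
      FlatAt (DD (NF S.q i) (DD (NF S.q j) σ)) ((s, 0) : E0 k) := by
    intro i j s hs hs'
    rw [flatAt_iff]
    intro M
    set w : E0 k → ℝ := fun x => v x - ∑ m ∈ Finset.range M, (V m).fn x with hw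
    have hsum : ContDiff ℝ ∞ (fun x : E0 k => ∑ m ∈ Finset.range M, (V m).fn x) :=
      ContDiff.sum fun m _ => PolFam.fn_smooth (V m)
    have hws : ContDiff ℝ ∞ w := hv.sub hsum
    have fw : FlatAt w 0 := by
      refine rm_sub hv hsum fv ?_
      rw [flatAt_iff]
      intro n
      exact Van.sum _ (fun m _ => PolFam.fn_smooth (V m)) fun m _ =>
        flatAt_iff.1 (PolFam.flatfn (V m) (hVf m)) n
    have vw : VanR (M + 1) (r / 2) w := fun s _ _ => hvM M s
    have vw1 : VanR (M + 1 + 1) (r / 2) (DD (NF S.q j) w) :=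
      raise S.smooth S.flat hS2 hws fw vw j
    have vw2 : VanR (M + 1 + 1 + 1) (r / 2) (DD (NF S.q i) (DD (NF S.q j) w)) :=
      raise S.smooth S.flat hS2 (DD_smooth S.smooth hws j) (DD_flat S.smooth S.flat hws fw j) vw1 i
    have e1 : σ = fun x => (st M).1 x - w x := by
      funext x
      rw [hst M x]
      simp only [hσdef, hw]
      ring
    rw [e1, rm_DD_sub]
    have h4 := (st M).2.2.2 i j s hs hs'
    have h5 := vw2 s hs hs'
    exact Van.sub (DD_smooth S.smooth (DD_smooth S.smooth (st M).2.1 j) i)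
      (DD_smooth S.smooth (DD_smooth S.smooth hws j) i) (h4.mono (by omega)) (h5.mono (by omega))
  -- (d)
  have hNs : ∀ i, ContDiff ℝ ∞ (NF S.q i) := rm_nf_smooth S.smooth
  have hNf : ∀ i, FlatAt (fun x => NF S.q i x - tau i x) 0 := fun i =>
    rm_nf_flat S.smooth i (S.flat i)
  have hNc : ∀ i j, ∀ᶠ x in 𝓝 (0 : E0 k), NF S.q i (NF S.q j x) = NF S.q j (NF S.q i x) := by
    intro i j
    filter_upwards [Metric.ball_mem_nhds (0 : E0 k) hr] with x hx
    exact S.comm i j x (by simpa using hx)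
  obtain ⟨r', hr', S', K', hK', fK', fS', hSK', hKS', hc', hq'⟩ := rayCL (NF S.q) hNs hNf hNc σ hσ fσ
  have C2 : RConj (NF S.q) (NF S'.q) :=
    ⟨SigMap (NF S.q) σ, K', hsig _ _ hNs hσ, hK', fS', fK', hSK', hKS', hc'⟩
  obtain ⟨A, B, hA, hB, fA, fB, hAB, hBA, hc⟩ := C01.trans C2
  have tK' := rm_tendsto hK' fK'
  have tB := rm_tendsto hB fB
  have hF0 : ∀ i, F i 0 = 0 := by
    intro i
    have h1 := rm_val (hflat i)
    have h2 : tau i (0 : E0 k) = 0 := by
      simp [tau]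
    rw [h2, sub_zero] at h1
    exact h1
  have tF : ∀ i, Filter.Tendsto (F i) (𝓝 0) (𝓝 0) := by
    intro i
    have h1 := (hF i).continuous.continuousAt (x := (0 : E0 k)) |>.tendsto
    rwa [hF0] at h1
  -- the functions q'
  have hqK : ∀ᶠ y in 𝓝 (0 : E0 k), ∀ i j, S'.q i j y = DD (NF S.q j) (DD (NF S.q i) σ) (K' y) := by
    have h1 : ∀ᶠ x in 𝓝 (0 : E0 k), ∀ i j, S'.q i j (SigMap (NF S.q) σ x) =
        DD (NF S.q j) (DD (NF S.q i) σ) x := by
      refine Filter.eventually_all.2 fun i => Filter.eventually_all.2 fun j => ?_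
      filter_upwards [hq' i j] with x hx
      rw [hx]
      simp only [DD]
      ring
    filter_upwards [tK'.eventually h1, hSK'] with y h2 h3 i j
    have h4 := h2 i j
    rwa [h3] at h4
  have hK'c : ∀ᶠ y in 𝓝 (0 : E0 k), K' (SigMap (NF S.q) σ y) = y := hKS'
  have hmain : ∀ᶠ x in 𝓝 (0 : E0 k), ∀ i, F i (B x) = B (NF S'.q i x) := by
    refine Filter.eventually_all.2 fun i => ?_
    filter_upwards [tB.eventually (hc i), hAB, tB.eventually ((tF i).eventually hBA)] with x h1 h2 h3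
    rw [← h3, h1, h2]
  obtain ⟨ε, hε, hball⟩ := Metric.eventually_nhds_iff_ball.1 (hqK.and (hK'c.and hmain))
  refine ⟨B, min ε (r / 2), lt_min hε hρ, hB, fB, ?_⟩
  intro i s hs hs'
  have hsε : s < ε := hs'.trans_le (min_le_left _ _)
  have hsr : s < r / 2 := hs'.trans_le (min_le_right _ _)
  have hmem : ((s, 0) : E0 k) ∈ Metric.ball (0 : E0 k) ε := by
    rw [mem_ball_zero_iff, Prod.norm_def]
    simp only [norm_zero]
    rw [max_lt_iff]
    exact ⟨by rw [Real.norm_eq_abs, abs_of_nonneg hs]; exact hsε, hε⟩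
  have hev : ∀ᶠ x in 𝓝 ((s, 0) : E0 k), x ∈ Metric.ball (0 : E0 k) ε :=
    Metric.isOpen_ball.mem_nhds hmem
  have hq0 : ∀ i j, S.q i j ((s, 0) : E0 k) = 0 := fun i j =>
    rm_vval (by norm_num) (h3 i j s hs (hsr.trans hρr))
  have hN0 : ∀ j, NF S.q j ((s, 0) : E0 k) = (s, 0) := by
    intro j
    refine Prod.ext ?_ ?_
    · simp [NF]
    · funext l
      simp [NF, hq0]
  have hv0 : v ((s, 0) : E0 k) = 0 := by
    have h1 := rm_vval one_pos (hvM 0 s)
    simpa using h1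
  have hS0 : SigMap (NF S.q) σ ((s, 0) : E0 k) = (s, 0) := by
    refine Prod.ext ?_ ?_
    · change s - v ((s, 0) : E0 k) = s
      rw [hv0, sub_zero]
    · funext j
      change σ (NF S.q j ((s, 0) : E0 k)) - σ ((s, 0) : E0 k) = 0
      rw [hN0, sub_self]
  have hK0' : K' ((s, 0) : E0 k) = (s, 0) := by
    have h1 := (hball _ hmem).2.1
    rwa [hS0] at h1
  have hfq : ∀ j, FlatAt (S'.q i j) ((s, 0) : E0 k) := by
    intro j
    have h1 : FlatAt (fun y => DD (NF S.q j) (DD (NF S.q i) σ) (K' y)) ((s, 0) : E0 k) :=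
      rm_comp (DD_smooth S.smooth (DD_smooth S.smooth hσ i) j) hK'
        (by rw [hK0']; exact hDD j i s hs hsr)
    refine rm_congr ?_ h1
    filter_upwards [hev] with y hy
    exact ((hball y hy).1 i j).symm
  have hfin : FlatAt (fun x => B (NF S'.q i x) - B (tau i x)) ((s, 0) : E0 k) := by
    rw [flatAt_iff]
    intro m
    exact Van.comp_sub hB (rm_nf_smooth S'.smooth i) (rm_tau_smooth i)
      (flatAt_iff.1 (rm_nf_flat S'.smooth i hfq) m)
  refine rm_congr ?_ hfin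
  filter_upwards [hev] with y hy
  change B (NF S'.q i y) - B (tau i y) = F i (B y) - B (tau i y)
  rw [(hball y hy).2.2 i]

end LatLin.B
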