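import Pool.Agent.Lib.MP_2392aa_gt.B.Prep
import Pool.Agent.Lib.MP_2392aa_gt.B.HomFlat
import Pool.Agent.Lib.MP_2392aa_gt.B.RayMain

/-!
MODULE RaysLoc. `(P1) ⇒ (P1) + (P2)` by one change of coordinates.

PROOF of `LocData.change`. `κ` is a local diffeomorphism at `0` (derivative the identity), let `κ'` be a
globally smooth map with `κ' (κ x) = x`, `κ (κ' x) = x` near `0` (inverse function theorem and a bump
function, as in `rayCL`: `κ' x = x + ξ x • (κ⁻¹ x - x)`), `κ' - id` flat at `0`. New data: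
`χ' = χ ∘ κ`, small radius, `F' γ = κ' ∘ F γ ∘ κ`. `F_act`: near `0`,
`γ • χ (κ y) = χ (F γ (κ y)) = χ (κ (κ' (F γ (κ y))))`. `P1`: `κ' F κ - ρ = [κ' (F κ) - F κ] + [F κ - ρ κ]
+ ρ (κ - id)`.

PROOF of `rays_loc`. For each `q` let `G i = L q ∘ F (u q i) ∘ (L q).symm` on `E0 k`: smooth, `G i - tau i`
flat at `0`, commuting near `0` (both compositions are mapped by `χ ∘ (L q).symm` to
`(u q i * u q j) • χ x`, injectivity). `ray_main` gives `K_q`, `r_q`; `K̂_q = (L q).symm ∘ K_q ∘ L q`.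
`exists_cover` (with `G := Unit`, `V = {0}ᶜ`, `v q = (L q).symm (1,0)`, any pairwise disjoint open cones) gives
homogeneous cutoffs `η q`, equal to one near `v q` (hence near all `c • v q`, `c > 0`), with
pairwise disjoint supports. `κ x = x + ∑ᶠ q, η q x • (K̂_q x - x)`: smooth, `κ - id` flat
at `0` (`hom_flat`). Apply `LocData.change`. At `x0 = (L q).symm (s, 0)`, `0 < s` small: `κ = K̂_q` near `x0`
and `ρ (u q i) x0 = x0`, so `F κ - κ ρ` (for `u q i`) is flat at `x0`, hence `κ' F κ - κ' κ ρ` is flat at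
`x0` (`Van.comp_sub`), and `κ' κ ρ = ρ` near `x0`. For the inverse `u⁻¹` (write `f = F' u`, `g = F' u⁻¹`,
`f x0 = x0`, `g (f x) = x`, `f (g x) = x` near `x0` for `x0` small, by injectivity of `χ'`):
`(g - ρ⁻¹) ∘ f = id - ρ⁻¹ f = -ρ⁻¹ (f - ρ)` is flat at `x0`, so
`g - ρ⁻¹ = (that) ∘ g` is flat at `x0` (`Van.comp`, `g x0 = x0`). `s = 0`: `P1`.
-/

open scoped ContDiff Topology

namespace LatLin.B

variable {E : Type*} [NormedAddCommGroup E] [InnerProductSpace ℝ E] [FiniteDimensional ℝ E]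
  {Γ M : Type*} [Group Γ] [TopologicalSpace M] [MulAction Γ M]

private theorem rl_inverse {E : Type*} [NormedAddCommGroup E] [NormedSpace ℝ E] [FiniteDimensional ℝ E]
    {f : E → E} (hf : ContDiff ℝ ∞ f) (h0 : f 0 = 0)
    (hd : HasFDerivAt f (ContinuousLinearMap.id ℝ E) 0) :
    ∃ K : E → E, ContDiff ℝ ∞ K ∧ K 0 = 0 ∧ (∀ᶠ x in 𝓝 (0 : E), f (K x) = x) ∧
      (∀ᶠ x in 𝓝 (0 : E), K (f x) = x) := by
  have : CompleteSpace E := FiniteDimensional.complete ℝ E
  have hn : (∞ : WithTop ℕ∞) ≠ 0 := by simp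
  have hd' : HasFDerivAt f ((ContinuousLinearEquiv.refl ℝ E : E ≃L[ℝ] E) : E →L[ℝ] E) 0 := hd
  set e := (hf.contDiffAt (x := (0 : E))).toOpenPartialHomeomorph f hd' hn with he
  have hef : ∀ x, e x = f x := fun x => rfl
  have hsrc : (0 : E) ∈ e.source := ContDiffAt.mem_toOpenPartialHomeomorph_source _ hd' hn
  have htgt : (0 : E) ∈ e.target := by
    have h1 := ContDiffAt.image_mem_toOpenPartialHomeomorph_target (hf.contDiffAt (x := (0 : E))) hd' hn
    rw [h0] at h1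
    exact h1
  have hsymm0 : e.symm 0 = 0 := by
    have h1 := e.left_inv hsrc
    rw [hef, h0] at h1
    exact h1
  have hcs : ContinuousAt e.symm 0 := e.symm.continuousAt htgt
  have hev : ∀ᶠ x in 𝓝 (0 : E), fderiv ℝ f x ∈ Set.range ((↑) : (E ≃L[ℝ] E) → E →L[ℝ] E) := by
    have h1 : Continuous (fderiv ℝ f) := hf.continuous_fderiv (by simp)
    have h2 : fderiv ℝ f 0 = ((ContinuousLinearEquiv.refl ℝ E : E ≃L[ℝ] E) : E →L[ℝ] E) := hd'.fderiv
    have h3 := ContinuousLinearEquiv.nhds (ContinuousLinearEquiv.refl ℝ E)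
    rw [← h2] at h3
    exact h1.continuousAt h3
  have hsm : ∀ᶠ y in 𝓝 (0 : E), ContDiffAt ℝ ∞ e.symm y := by
    have h1 : ∀ᶠ y in 𝓝 (0 : E), fderiv ℝ f (e.symm y) ∈ Set.range ((↑) : (E ≃L[ℝ] E) → E →L[ℝ] E) := by
      have h2 : Filter.Tendsto e.symm (𝓝 0) (𝓝 0) := by
        have h3 := hcs.tendsto
        rwa [hsymm0] at h3
      exact h2.eventually hev
    filter_upwards [e.open_target.mem_nhds htgt, h1] with y hy hg
    obtain ⟨g, hg⟩ := hg
    refine e.contDiffAt_symm hy (f₀' := g) ?_ hf.contDiffAt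
    rw [hg]
    exact (hf.differentiable (by simp) _).hasFDerivAt
  obtain ⟨R, hR, hball⟩ := Metric.eventually_nhds_iff_ball.1 hsm
  let ξ : ContDiffBump (0 : E) := ⟨R / 3, R / 2, by positivity, by linarith⟩
  have hKev : (fun y => y + ξ y • (e.symm y - y)) =ᶠ[𝓝 0] e.symm := by
    filter_upwards [ξ.eventuallyEq_one] with y hy
    rw [hy]
    simp
  have hK0 : (0 : E) + ξ 0 • (e.symm 0 - 0) = 0 := by
    rw [hsymm0]
    simp
  refine ⟨fun y => y + ξ y • (e.symm y - y), ?_, hK0, ?_, ?_⟩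
  · rw [contDiff_iff_contDiffAt]
    intro y
    by_cases hy : ‖y‖ < R
    · have h1 : ContDiffAt ℝ ∞ e.symm y := hball y (by simpa using hy)
      exact contDiffAt_id.add (ξ.contDiffAt.smul (h1.sub contDiffAt_id))
    · have h1 : (fun z => z + ξ z • (e.symm z - z)) =ᶠ[𝓝 y] id := by
        have h2 : ∀ᶠ z in 𝓝 y, R / 2 < ‖z‖ :=
          continuous_norm.continuousAt.eventually_const_lt (by linarith)
        filter_upwards [h2] with z hz
        have h3 : ξ z = 0 := ξ.zero_of_le_dist (by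
          rw [dist_zero_right]
          exact hz.le)
        rw [h3]
        simp
      exact contDiffAt_id.congr_of_eventuallyEq h1
  · filter_upwards [hKev, e.open_target.mem_nhds htgt] with y hy hy'
    rw [hy]
    exact e.right_inv hy'
  · have h1 : Filter.Tendsto f (𝓝 0) (𝓝 0) := by
      have h2 := hf.continuous.continuousAt (x := (0 : E)) |>.tendsto
      rwa [h0] at h2
    filter_upwards [h1.eventually hKev, e.open_source.mem_nhds hsrc] with y hy hy'
    rw [hy]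
    exact e.left_inv hy'

section flat
variable {E F G : Type*} [NormedAddCommGroup E] [NormedSpace ℝ E] [NormedAddCommGroup F]
  [NormedSpace ℝ F] [NormedAddCommGroup G] [NormedSpace ℝ G]

private theorem rl_add {f g : E → F} {x : E} (hf : ContDiff ℝ ∞ f) (hg : ContDiff ℝ ∞ g)
    (h : FlatAt f x) (h' : FlatAt g x) : FlatAt (fun z => f z + g z) x :=
  flatAt_iff.2 fun m => Van.add hf hg (flatAt_iff.1 h m) (flatAt_iff.1 h' m)

private theorem rl_sub {f g : E → F} {x : E} (hf : ContDiff ℝ ∞ f) (hg : ContDiff ℝ ∞ g)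
    (h : FlatAt f x) (h' : FlatAt g x) : FlatAt (fun z => f z - g z) x :=
  flatAt_iff.2 fun m => Van.sub hf hg (flatAt_iff.1 h m) (flatAt_iff.1 h' m)

private theorem rl_comp {f : F → G} {g : E → F} {x : E} (hf : ContDiff ℝ ∞ f) (hg : ContDiff ℝ ∞ g)
    (h : FlatAt f (g x)) : FlatAt (fun z => f (g z)) x :=
  flatAt_iff.2 fun m => Van.comp hf hg (flatAt_iff.1 h m)

private theorem rl_comp_sub [FiniteDimensional ℝ F] [CompleteSpace G] {f : F → G} {g h : E → F}
    {x : E} (hf : ContDiff ℝ ∞ f) (hg : ContDiff ℝ ∞ g) (hh : ContDiff ℝ ∞ h)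
    (h' : FlatAt (fun z => g z - h z) x) : FlatAt (fun z => f (g z) - f (h z)) x :=
  flatAt_iff.2 fun m => Van.comp_sub hf hg hh (flatAt_iff.1 h' m)

private theorem rl_congr {f g : E → F} {x : E} (hfg : f =ᶠ[𝓝 x] g) (h : FlatAt f x) : FlatAt g x :=
  flatAt_iff.2 fun m => Van.congr hfg (flatAt_iff.1 h m)

private theorem rl_zero (x : E) : FlatAt (fun _ : E => (0 : F)) x := by
  intro j
  rw [iteratedFDeriv_fun_zero]
  rfl

private theorem rl_val {f : E → F} {x : E} (h : FlatAt f x) : f x = 0 := by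
  have h1 := norm_iteratedFDeriv_zero (𝕜 := ℝ) (f := f) (x := x)
  rw [h 0, norm_zero] at h1
  exact norm_eq_zero.1 h1.symm

private theorem rl_fderiv {f : E → F} {x : E} (h : FlatAt f x) : fderiv ℝ f x = 0 := by
  have h1 := (flatAt_iff.1 h 2).der 0 (by norm_num)
  have h2 := norm_iteratedFDeriv_zero (𝕜 := ℝ) (f := fun z => fderiv ℝ f z) (x := x)
  rw [h1, norm_zero] at h2
  exact norm_eq_zero.1 h2.symm

end flat

private theorem rl_id {F : Type*} [NormedAddCommGroup F] [NormedSpace ℝ F] {κ : F → F}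
    (hκ : ContDiff ℝ ∞ κ) (hflat : FlatAt (fun x => κ x - x) 0) :
    κ 0 = 0 ∧ HasFDerivAt κ (ContinuousLinearMap.id ℝ F) 0 := by
  have h0 := rl_val hflat
  rw [sub_zero] at h0
  refine ⟨h0, ?_⟩
  have h1 : HasFDerivAt (fun x => κ x - x) (0 : F →L[ℝ] F) 0 := by
    have h2 : HasFDerivAt (fun x => κ x - x) (fderiv ℝ (fun x => κ x - x) 0) 0 :=
      ((hκ.sub contDiff_id).differentiable (by simp) (0 : F)).hasFDerivAt
    rwa [rl_fderiv hflat] at h2
  have h2 := h1.add (hasFDerivAt_id (𝕜 := ℝ) (0 : F))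
  rw [zero_add] at h2
  refine h2.congr_of_eventuallyEq (Filter.Eventually.of_forall fun x => ?_)
  change κ x = κ x - x + x
  rw [sub_add_cancel]

private theorem rl_smooth_equiv {F G : Type*} [NormedAddCommGroup F] [NormedSpace ℝ F]
    [NormedAddCommGroup G] [NormedSpace ℝ G] (A : F ≃L[ℝ] G) : ContDiff ℝ ∞ (fun x => A x) :=
  A.contDiff

private theorem rl_tend {F G : Type*} [NormedAddCommGroup F] [NormedSpace ℝ F]
    [NormedAddCommGroup G] [NormedSpace ℝ G] {f : F → G} (hf : ContDiff ℝ ∞ f) {x : F} {y : G}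
    (h : f x = y) : Filter.Tendsto f (𝓝 x) (𝓝 y) := by
  have h1 := hf.continuous.continuousAt (x := x) |>.tendsto
  rwa [h] at h1

theorem LocData.change {ρ : Γ →* (E ≃L[ℝ] E)} (D : LocData (M := M) ρ) (hD : P1 D) {κ : E → E}
    (hκ : ContDiff ℝ ∞ κ) (hflat : FlatAt (fun x => κ x - x) 0) :
    ∃ (D' : LocData (M := M) ρ) (κ' : E → E), P1 D' ∧ ContDiff ℝ ∞ κ' ∧
      FlatAt (fun x => κ' x - x) 0 ∧ (∀ᶠ x in 𝓝 (0 : E), κ' (κ x) = x) ∧
      (∀ᶠ x in 𝓝 (0 : E), κ (κ' x) = x) ∧ (∀ x, D'.χ x = D.χ (κ x)) ∧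
      ∀ γ x, D'.F γ x = κ' (D.F γ (κ x)) := by
  have : CompleteSpace E := FiniteDimensional.complete ℝ E
  obtain ⟨hκ0, hκd⟩ := rl_id hκ hflat
  obtain ⟨κ', hκ', hκ'0, h1, h2⟩ := rl_inverse hκ hκ0 hκd
  have hκt := rl_tend hκ hκ0
  have hκ't := rl_tend hκ' hκ'0
  have hκ'flat : FlatAt (fun x => κ' x - x) 0 := by
    have e1 : FlatAt (fun x => κ (κ' x) - κ' x) 0 :=
      rl_comp (f := fun x => κ x - x) (g := κ') (hκ.sub contDiff_id) hκ' (by rw [hκ'0]; exact hflat)
    have e2 := rl_sub (contDiff_const (c := (0 : E))) ((hκ.comp hκ').sub hκ') (rl_zero 0) e1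
    refine rl_congr ?_ e2
    filter_upwards [h1] with x hx
    change (0 : E) - (κ (κ' x) - κ' x) = κ' x - x
    rw [hx]
    abel
  obtain ⟨-, hκ'd⟩ := rl_id hκ' hκ'flat
  have hFκ : ∀ γ, ContDiff ℝ ∞ (fun x => D.F γ (κ x)) := fun γ => (D.F_smooth γ).comp hκ
  have hFκ0 : ∀ γ, D.F γ (κ 0) = 0 := fun γ => by rw [hκ0, D.F_zero]
  have hball : ∀ᶠ x in 𝓝 (0 : E), κ' (κ x) = x ∧ κ x ∈ Metric.ball (0 : E) D.r0 :=
    h2.and (hκt.eventually (Metric.ball_mem_nhds 0 D.r0_pos))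
  obtain ⟨r, hr, hrb⟩ := Metric.eventually_nhds_iff_ball.1 hball
  refine ⟨⟨fun x => D.χ (κ x), r, hr, ?_, ?_, fun γ x => κ' (D.F γ (κ x)),
    fun γ => hκ'.comp (hFκ γ), fun γ => ?_, fun γ => ?_, fun γ => ?_⟩, κ', ?_, hκ', hκ'flat, h2, h1,
    fun x => rfl, fun γ x => rfl⟩
  · intro x hx y hy hxy
    have e1 := D.inj (hrb x hx).2 (hrb y hy).2 hxy
    rw [← (hrb x hx).1, ← (hrb y hy).1, e1]
  · exact D.cont.comp hκ.continuous.continuousOn fun x hx => (hrb x hx).2
  · change κ' (D.F γ (κ 0)) = 0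
    rw [hFκ0, hκ'0]
  · change HasFDerivAt (fun x => κ' (D.F γ (κ x))) (ρ γ : E →L[ℝ] E) 0
    have e1 : HasFDerivAt (D.F γ) (ρ γ : E →L[ℝ] E) (κ 0) := by
      rw [hκ0]
      exact D.F_deriv γ
    have e2 := e1.comp (0 : E) hκd
    have e3 : HasFDerivAt κ' (ContinuousLinearMap.id ℝ E) ((D.F γ ∘ κ) 0) := by
      change HasFDerivAt κ' (ContinuousLinearMap.id ℝ E) (D.F γ (κ 0))
      rw [hFκ0]
      exact hκ'd
    have e4 := e3.comp (0 : E) e2
    rw [ContinuousLinearMap.id_comp, ContinuousLinearMap.comp_id] at e4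
    exact e4
  · change ∀ᶠ y in 𝓝 (0 : E), γ • D.χ (κ y) = D.χ (κ (κ' (D.F γ (κ y))))
    filter_upwards [hκt.eventually (D.F_act γ), (rl_tend (hFκ γ) (hFκ0 γ)).eventually h1] with y hy hy'
    rw [hy, hy']
  · intro γ
    change FlatAt (fun x => κ' (D.F γ (κ x)) - ρ γ x) 0
    have hρ := rl_smooth_equiv (ρ γ)
    have a1 : FlatAt (fun x => κ' (D.F γ (κ x)) - D.F γ (κ x)) 0 :=
      rl_comp (f := fun x => κ' x - x) (g := fun x => D.F γ (κ x)) (hκ'.sub contDiff_id) (hFκ γ)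
        (by rw [hFκ0]; exact hκ'flat)
    have a2 : FlatAt (fun x => D.F γ (κ x) - ρ γ (κ x)) 0 :=
      rl_comp (f := fun x => D.F γ x - ρ γ x) (g := κ) ((D.F_smooth γ).sub hρ) hκ
        (by rw [hκ0]; exact hD γ)
    have a3 : FlatAt (fun x => ρ γ (κ x) - ρ γ x) 0 :=
      rl_comp_sub (f := fun x => ρ γ x) (g := κ) (h := fun x => x) hρ hκ contDiff_id hflat
    have s1 : ContDiff ℝ ∞ (fun x => κ' (D.F γ (κ x)) - D.F γ (κ x)) := (hκ'.comp (hFκ γ)).sub (hFκ γ)
    have s2 : ContDiff ℝ ∞ (fun x => D.F γ (κ x) - ρ γ (κ x)) := (hFκ γ).sub (hρ.comp hκ)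
    have s3 : ContDiff ℝ ∞ (fun x => ρ γ (κ x) - ρ γ x) := (hρ.comp hκ).sub hρ
    have a4 := rl_add (s1.add s2) s3 (rl_add s1 s2 a1 a2) a3
    refine rl_congr (Filter.Eventually.of_forall fun x => ?_) a4
    change κ' (D.F γ (κ x)) - D.F γ (κ x) + (D.F γ (κ x) - ρ γ (κ x)) + (ρ γ (κ x) - ρ γ x) =
      κ' (D.F γ (κ x)) - ρ γ x
    abel

omit [FiniteDimensional ℝ E] in
/-- the germs compose like the group -/
private theorem rl_mul {ρ : Γ →* (E ≃L[ℝ] E)} (D : LocData (M := M) ρ) (γ γ' : Γ) :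
    ∀ᶠ x in 𝓝 (0 : E), D.χ (D.F γ (D.F γ' x)) = (γ * γ') • D.χ x := by
  filter_upwards [D.F_act γ', (rl_tend (D.F_smooth γ') (D.F_zero γ')).eventually (D.F_act γ)] with x h1 h2
  rw [← h2, ← h1, mul_smul]

omit [FiniteDimensional ℝ E] in
private theorem rl_eq {ρ : Γ →* (E ≃L[ℝ] E)} (D : LocData (M := M) ρ) {f g : E → E}
    (hf : ContDiff ℝ ∞ f) (hg : ContDiff ℝ ∞ g) (hf0 : f 0 = 0) (hg0 : g 0 = 0)
    (h : ∀ᶠ x in 𝓝 (0 : E), D.χ (f x) = D.χ (g x)) : ∀ᶠ x in 𝓝 (0 : E), f x = g x := by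
  filter_upwards [h, (rl_tend hf hf0).eventually (Metric.ball_mem_nhds 0 D.r0_pos),
    (rl_tend hg hg0).eventually (Metric.ball_mem_nhds 0 D.r0_pos)] with x h1 h2 h3
  exact D.inj h2 h3 h1

omit [FiniteDimensional ℝ E] in
private theorem rl_comm {ρ : Γ →* (E ≃L[ℝ] E)} (D : LocData (M := M) ρ) (γ γ' : Γ)
    (h : γ * γ' = γ' * γ) : ∀ᶠ x in 𝓝 (0 : E), D.F γ (D.F γ' x) = D.F γ' (D.F γ x) := by
  refine rl_eq D ((D.F_smooth γ).comp (D.F_smooth γ')) ((D.F_smooth γ').comp (D.F_smooth γ)) ?_ ?_ ?_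
  · change D.F γ (D.F γ' 0) = 0
    rw [D.F_zero, D.F_zero]
  · change D.F γ' (D.F γ 0) = 0
    rw [D.F_zero, D.F_zero]
  · filter_upwards [rl_mul D γ γ', rl_mul D γ' γ] with x h1 h2
    change D.χ (D.F γ (D.F γ' x)) = D.χ (D.F γ' (D.F γ x))
    rw [h1, h2, h]

omit [FiniteDimensional ℝ E] in
private theorem rl_inv {ρ : Γ →* (E ≃L[ℝ] E)} (D : LocData (M := M) ρ) (γ γ' : Γ)
    (h : γ * γ' = 1) : ∀ᶠ x in 𝓝 (0 : E), D.F γ (D.F γ' x) = x := by
  refine rl_eq D ((D.F_smooth γ).comp (D.F_smooth γ')) contDiff_id ?_ rfl ?_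
  · change D.F γ (D.F γ' 0) = 0
    rw [D.F_zero, D.F_zero]
  · filter_upwards [rl_mul D γ γ'] with x h1
    change D.χ (D.F γ (D.F γ' x)) = D.χ x
    rw [h1, h, one_smul]

/-- flatness for the inverse germ -/
private theorem rl_flat_inv {f g : E → E} (hf : ContDiff ℝ ∞ f) (hg : ContDiff ℝ ∞ g) {x0 : E}
    (hx : f x0 = x0) (h1 : ∀ᶠ x in 𝓝 x0, g (f x) = x) (h2 : ∀ᶠ x in 𝓝 x0, f (g x) = x)
    (A B : E ≃L[ℝ] E) (hBA : ∀ x, B (A x) = x) (hfl : FlatAt (fun x => f x - A x) x0) :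
    FlatAt (fun x => g x - B x) x0 := by
  have : CompleteSpace E := FiniteDimensional.complete ℝ E
  have hA := rl_smooth_equiv A
  have hB := rl_smooth_equiv B
  have hgx : g x0 = x0 := by
    have h3 := h1.self_of_nhds
    rwa [hx] at h3
  have a1 : FlatAt (fun x => A x - f x) x0 := by
    have e1 := rl_sub (contDiff_const (c := (0 : E))) (hf.sub hA) (rl_zero x0) hfl
    refine rl_congr (Filter.Eventually.of_forall fun x => ?_) e1
    change (0 : E) - (f x - A x) = A x - f x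
    abel
  have a2 : FlatAt (fun x => B (A x) - B (f x)) x0 :=
    rl_comp_sub (f := fun x => B x) (g := fun x => A x) (h := f) hB hA hf a1
  have a3 : FlatAt (fun x => g (f x) - B (f x)) x0 := by
    refine rl_congr ?_ a2
    filter_upwards [h1] with x hx'
    rw [hx', hBA]
  have a4 : FlatAt (fun x => g (f (g x)) - B (f (g x))) x0 :=
    rl_comp (f := fun x => g (f x) - B (f x)) (g := g) ((hg.comp hf).sub (hB.comp hf)) hg
      (by rw [hgx]; exact a3)
  refine rl_congr ?_ a4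
  filter_upwards [h2] with x hx'
  rw [hx']

theorem rays_loc {k : ℕ} (hk : 2 ≤ k) {ρ : Γ →* (E ≃L[ℝ] E)} (R : Rays k ρ)
    (D : LocData (M := M) ρ) (hD : P1 D) :
    ∃ (D' : LocData (M := M) ρ) (κ κ' : E → E), P1 D' ∧ P2 R D' ∧ ContDiff ℝ ∞ κ ∧
      ContDiff ℝ ∞ κ' ∧ FlatAt (fun x => κ x - x) 0 ∧ FlatAt (fun x => κ' x - x) 0 ∧
      (∀ᶠ x in 𝓝 (0 : E), κ' (κ x) = x) ∧ (∀ᶠ x in 𝓝 (0 : E), κ (κ' x) = x) ∧
      (∀ x, D'.χ x = D.χ (κ x)) ∧ ∀ γ x, D'.F γ x = κ' (D.F γ (κ x)) := by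
  have : CompleteSpace E := FiniteDimensional.complete ℝ E
  have := R.fin
  classical
  have := Fintype.ofFinite R.ι
  -- the charts near the rays
  have hmain : ∀ q : R.ι, ∃ (K : E → E) (r : ℝ), 0 < r ∧ ContDiff ℝ ∞ K ∧
      FlatAt (fun x => K x - x) 0 ∧ ∀ i, ∀ s : ℝ, 0 ≤ s → s < r →
        FlatAt (fun x => D.F (R.u q i) (K x) - K (ρ (R.u q i) x)) ((R.L q).symm ((s, 0) : E0 k)) := by
    intro q
    have sL := rl_smooth_equiv (R.L q)
    have sL' := rl_smooth_equiv (R.L q).symm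
    have hG : ∀ i, ContDiff ℝ ∞ (fun x => R.L q (D.F (R.u q i) ((R.L q).symm x))) := fun i =>
      sL.comp ((D.F_smooth (R.u q i)).comp sL')
    have hlin : ∀ i (x : E0 k), R.L q (ρ (R.u q i) ((R.L q).symm x)) = tau i x := by
      intro i x
      rw [R.act, ContinuousLinearEquiv.apply_symm_apply]
    have h0 : (R.L q).symm (0 : E0 k) = 0 := map_zero _
    have hfl : ∀ i, FlatAt (fun x => R.L q (D.F (R.u q i) ((R.L q).symm x)) - tau i x) 0 := by
      intro i
      have a1 : FlatAt (fun x => D.F (R.u q i) ((R.L q).symm x) - ρ (R.u q i) ((R.L q).symm x)) 0 :=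
        rl_comp (f := fun x => D.F (R.u q i) x - ρ (R.u q i) x) (g := fun x => (R.L q).symm x)
          ((D.F_smooth _).sub (rl_smooth_equiv _)) sL' (by rw [h0]; exact hD _)
      have a2 := rl_comp_sub (f := fun x => R.L q x) (g := fun x => D.F (R.u q i) ((R.L q).symm x))
        (h := fun x => ρ (R.u q i) ((R.L q).symm x)) sL ((D.F_smooth _).comp sL')
        ((rl_smooth_equiv _).comp sL') a1
      refine rl_congr (Filter.Eventually.of_forall fun x => ?_) a2
      change R.L q (D.F (R.u q i) ((R.L q).symm x)) - R.L q (ρ (R.u q i) ((R.L q).symm x)) =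
        R.L q (D.F (R.u q i) ((R.L q).symm x)) - tau i x
      rw [hlin]
    have hcm : ∀ i j, ∀ᶠ x in 𝓝 (0 : E0 k),
        R.L q (D.F (R.u q i) ((R.L q).symm (R.L q (D.F (R.u q j) ((R.L q).symm x))))) =
          R.L q (D.F (R.u q j) ((R.L q).symm (R.L q (D.F (R.u q i) ((R.L q).symm x))))) := by
      intro i j
      have h1 := (rl_tend sL' h0).eventually (rl_comm D _ _ (R.comm q i j))
      filter_upwards [h1] with x hx
      simp only [ContinuousLinearEquiv.symm_apply_apply]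
      rw [hx]
    obtain ⟨K, r, hr, hK, hKf, hKr⟩ := ray_main hk
      (fun i x => R.L q (D.F (R.u q i) ((R.L q).symm x))) hG hfl hcm
    refine ⟨fun x => (R.L q).symm (K (R.L q x)), r, hr, sL'.comp (hK.comp sL), ?_, ?_⟩
    · have a1 : FlatAt (fun x => K (R.L q x) - R.L q x) 0 :=
        rl_comp (f := fun x => K x - x) (g := fun x => R.L q x) (hK.sub contDiff_id) sL
          (by rw [map_zero]; exact hKf)
      have a2 : FlatAt (fun x => (R.L q).symm (K (R.L q x)) - (R.L q).symm (R.L q x)) 0 :=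
        rl_comp_sub (f := fun x => (R.L q).symm x) (g := fun x => K (R.L q x))
          (h := fun x => R.L q x) sL' (hK.comp sL) sL a1
      refine rl_congr (Filter.Eventually.of_forall fun x => ?_) a2
      change (R.L q).symm (K (R.L q x)) - (R.L q).symm (R.L q x) = (R.L q).symm (K (R.L q x)) - x
      rw [ContinuousLinearEquiv.symm_apply_apply]
    · intro i s hs hsr
      have htau : ContDiff ℝ ∞ (tau i : E0 k → E0 k) := by
        unfold tau
        fun_prop
      have a1 : FlatAt (fun x => R.L q (D.F (R.u q i) ((R.L q).symm (K x))) - K (tau i x))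
        ((s, 0) : E0 k) := hKr i s hs hsr
      have a2 : FlatAt (fun x => (R.L q).symm (R.L q (D.F (R.u q i) ((R.L q).symm (K x)))) -
          (R.L q).symm (K (tau i x))) ((s, 0) : E0 k) :=
        rl_comp_sub (f := fun x => (R.L q).symm x)
          (g := fun x => R.L q (D.F (R.u q i) ((R.L q).symm (K x)))) (h := fun x => K (tau i x))
          sL' ((hG i).comp hK) (hK.comp htau) a1
      have s2 : ContDiff ℝ ∞ (fun x => (R.L q).symm (R.L q (D.F (R.u q i) ((R.L q).symm (K x)))) -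
          (R.L q).symm (K (tau i x))) := (sL'.comp ((hG i).comp hK)).sub (sL'.comp (hK.comp htau))
      have a3 := rl_comp (f := fun x => (R.L q).symm (R.L q (D.F (R.u q i) ((R.L q).symm (K x)))) -
          (R.L q).symm (K (tau i x))) (g := fun x => R.L q x)
          (x := (R.L q).symm ((s, 0) : E0 k)) s2 sL
          (by rw [ContinuousLinearEquiv.apply_symm_apply]; exact a2)
      refine rl_congr (Filter.Eventually.of_forall fun x => ?_) a3
      change (R.L q).symm (R.L q (D.F (R.u q i) ((R.L q).symm (K (R.L q x))))) -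
          (R.L q).symm (K (tau i (R.L q x))) =
        D.F (R.u q i) ((R.L q).symm (K (R.L q x))) - (R.L q).symm (K (R.L q (ρ (R.u q i) x)))
      rw [ContinuousLinearEquiv.symm_apply_apply, R.act]
  choose K r hr hK hKf hKr using hmain
  -- the cutoffs
  set v : R.ι → E := fun q => (R.L q).symm ((1, 0) : E0 k) with hv
  have hv0 : ∀ q, v q ≠ 0 := by
    intro q h
    have h1 : R.L q (v q) = ((1, 0) : E0 k) := ContinuousLinearEquiv.apply_symm_apply _ _
    rw [h, map_zero] at h1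
    exact zero_ne_one (congrArg Prod.fst h1)
  obtain ⟨-, -, η, -, hηs, -, -, -, hηh, -, -, -, hηd, hη1, -⟩ := exists_cover (G := Unit)
    (fun _ => ({0}ᶜ : Set E)) (fun _ => isOpen_compl_singleton)
    (fun _ x hx t ht => fun h => hx ((smul_eq_zero.1 h).resolve_left ht.ne')) v hv0
    (fun q q' c hc h => R.dist q q' c hc h) (fun _ => ({0}ᶜ : Set E))
    (fun _ => isOpen_compl_singleton)
    (fun _ x hx t ht => fun h => hx ((smul_eq_zero.1 h).resolve_left ht.ne')) hv0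
    (fun x hx => Or.inr ⟨(), hx⟩)
  set κ : E → E := fun x => x + ∑ q, η q x • (K q x - x) with hκdef
  have hterm : ∀ q, ContDiff ℝ ∞ (fun x => η q x • (K q x - x)) ∧
      FlatAt (fun x => η q x • (K q x - x)) 0 := fun q =>
    hom_flat (hηs q) (hηh q) ((hK q).sub contDiff_id) (hKf q)
  have hκs : ContDiff ℝ ∞ κ := contDiff_id.add (ContDiff.sum fun q _ => (hterm q).1)
  have hκf : FlatAt (fun x => κ x - x) 0 := by
    have h1 : FlatAt (fun x => ∑ q, η q x • (K q x - x)) 0 := flatAt_iff.2 fun m =>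
      Van.sum _ (fun q _ => (hterm q).1) fun q _ => flatAt_iff.1 (hterm q).2 m
    refine rl_congr (Filter.Eventually.of_forall fun x => ?_) h1
    change ∑ q, η q x • (K q x - x) = x + ∑ q, η q x • (K q x - x) - x
    abel
  obtain ⟨D', κ', hP1, hκ', hκ'f, hk1, hk2, hχ, hF⟩ := LocData.change D hD hκs hκf
  refine ⟨D', κ, κ', hP1, ?_, hκs, hκ', hκf, hκ'f, hk1, hk2, hχ, hF⟩
  -- near the rays
  have hnear : ∀ q, ∀ s : ℝ, 0 < s → ∀ᶠ x in 𝓝 ((R.L q).symm ((s, 0) : E0 k)), κ x = K q x := by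
    intro q s hs
    have hx0 : (R.L q).symm ((s, 0) : E0 k) = s • v q := by
      rw [hv, ← map_smul, Prod.smul_mk, smul_eq_mul, mul_one, smul_zero]
    rw [hx0]
    have h1 : ∀ᶠ x in 𝓝 (s • v q), η q x = 1 := by
      have h2 : Filter.Tendsto (fun x : E => s⁻¹ • x) (𝓝 (s • v q)) (𝓝 (v q)) := by
        have h3 := (continuous_const_smul (s⁻¹) : Continuous fun x : E => s⁻¹ • x).tendsto (s • v q)
        rwa [smul_smul, inv_mul_cancel₀ hs.ne', one_smul] at h3
      filter_upwards [h2.eventually (hη1 q)] with x hx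
      rw [← hηh q x s⁻¹ (inv_pos.2 hs)]
      exact hx
    have h4 : ∀ᶠ x in 𝓝 (s • v q), x ≠ 0 :=
      isOpen_compl_singleton.eventually_mem (smul_ne_zero hs.ne' (hv0 q))
    filter_upwards [h1, h4] with x hx hx'
    rw [hκdef]
    change x + ∑ q, η q x • (K q x - x) = K q x
    rw [Finset.sum_eq_single q]
    · rw [hx, one_smul]
      abel
    · intro q' _ hq'
      by_cases h5 : η q' x = 0
      · rw [h5, zero_smul]
      · exact absurd (hηd q' q x hx' h5 (by rw [hx]; exact one_ne_zero)) hq'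
    · intro h5
      exact absurd (Finset.mem_univ q) h5
  have hfix : ∀ q i (s : ℝ), ρ (R.u q i) ((R.L q).symm ((s, 0) : E0 k)) =
      (R.L q).symm ((s, 0) : E0 k) := by
    intro q i s
    apply (R.L q).injective
    rw [R.act, ContinuousLinearEquiv.apply_symm_apply]
    simp [tau]
  have htend : ∀ q, Filter.Tendsto (fun s : ℝ => (R.L q).symm ((s, 0) : E0 k)) (𝓝 0) (𝓝 0) := by
    intro q
    have h1 : Continuous fun s : ℝ => (R.L q).symm ((s, 0) : E0 k) := by fun_prop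
    have h2 := h1.tendsto 0
    have h3 : (R.L q).symm ((0, 0) : E0 k) = 0 := map_zero _
    rwa [h3] at h2
  have hplus : ∀ q i, ∀ᶠ s in 𝓝 (0 : ℝ), 0 ≤ s →
      FlatAt (fun x => D'.F (R.u q i) x - ρ (R.u q i) x) ((R.L q).symm ((s, 0) : E0 k)) := by
    intro q i
    filter_upwards [gt_mem_nhds (hr q), (htend q).eventually (eventually_eventually_nhds.2 hk1)] with
      s hs1 hs2 hs0
    rcases hs0.eq_or_lt with h0 | h0
    · rw [← h0]
      have h3 : (R.L q).symm ((0, 0) : E0 k) = 0 := map_zero _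
      rw [h3]
      exact hP1 _
    · set x0 := (R.L q).symm ((s, 0) : E0 k) with hx0
      have sρ := rl_smooth_equiv (ρ (R.u q i))
      have hρt : Filter.Tendsto (fun x => ρ (R.u q i) x) (𝓝 x0) (𝓝 x0) := rl_tend sρ (hfix q i s)
      have a1 := hKr q i s hs0 hs1
      have a2 : FlatAt (fun x => D.F (R.u q i) (κ x) - κ (ρ (R.u q i) x)) x0 := by
        refine rl_congr ?_ a1
        filter_upwards [hnear q s h0, hρt.eventually (hnear q s h0)] with x h1 h2
        rw [h1, h2]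
      have a3 := rl_comp_sub (f := κ') (g := fun x => D.F (R.u q i) (κ x))
        (h := fun x => κ (ρ (R.u q i) x)) hκ' ((D.F_smooth _).comp hκs) (hκs.comp sρ) a2
      refine rl_congr ?_ a3
      filter_upwards [hρt.eventually hs2] with x hx
      rw [hF, hx]
  have hall : ∀ᶠ s in 𝓝 (0 : ℝ), ∀ (q : R.ι) (p : Fin k × Bool), 0 ≤ s →
      FlatAt (fun x => D'.F (R.uB q p) x - ρ (R.uB q p) x) ((R.L q).symm ((s, 0) : E0 k)) := by
    refine Filter.eventually_all.2 fun q => Filter.eventually_all.2 fun p => ?_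
    obtain ⟨i, b⟩ := p
    cases b
    · filter_upwards [hplus q i, (htend q).eventually (eventually_eventually_nhds.2
        (rl_inv D' (R.u q i)⁻¹ (R.u q i) (inv_mul_cancel _))), (htend q).eventually
        (eventually_eventually_nhds.2 (rl_inv D' (R.u q i) (R.u q i)⁻¹ (mul_inv_cancel _)))] with
        s h1 h2 h3 hs0
      have h4 := h1 hs0
      have h5 := rl_val h4
      rw [hfix, sub_eq_zero] at h5
      refine rl_flat_inv (D'.F_smooth _) (D'.F_smooth _) h5 h2 h3 (ρ (R.u q i)) (ρ (R.u q i)⁻¹) ?_ h4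
      intro x
      have h6 : ρ (R.u q i)⁻¹ * ρ (R.u q i) = 1 := by
        rw [← map_mul, inv_mul_cancel, map_one]
      exact DFunLike.congr_fun h6 x
    · exact hplus q i
  obtain ⟨r', hr', hb⟩ := Metric.eventually_nhds_iff_ball.1 hall
  refine ⟨r', hr', fun q p s hs0 hsr => hb s ?_ q p hs0⟩
  rw [Metric.mem_ball, Real.dist_eq, sub_zero, abs_of_nonneg hs0]
  exact hsr

end LatLin.B
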