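import Pool.Agent.Lib.MP_2392aa_gt.B.ZGeo
import Pool.Agent.Lib.MP_2392aa_gt.B.BqBound
import Pool.Agent.Lib.MP_2392aa_gt.B.BranchRay
import Pool.Agent.Lib.MP_2392aa_gt.C.Jet

/-!
MODULE TDataB. The operator for class B.

PROOF. `Q0 = {q : B.R.ι | ‖toE (vec q)‖ < R}` (finite), `v q = toE (vec q)`, `L q = B.R.L q`. `V γ = {x ≠ 0 :
‖ρ γ x‖ < lam ‖x‖}` (`γ : Γ`), `H q = {x : 0 < (L q x).1, ‖(L q x).2‖ < ε₀ (L q x).1}`, `ε₀` small.
`exists_cover` (index type `Q0` as a subtype) gives `F`, `ψ`, `η`. `exists_theta` gives `θ`.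
`ι = Γ ⊕ (Q0 × (Fin k → ℤ))`; `g (inl γ) = γ`, `A (inl γ) = D.F γ`, `w (inl γ) = ψ γ`;
`g (inr (q,b)) = B.R.ub q b`, `A (inr (q,b)) = B.R.br D q b`,
`w (inr (q,b)) = fun x => η q x * θ (fun i => bq (L q x) i - b i)`.
`act x = {inl γ : γ ∈ F, x ∈ closure {ψ γ ≠ 0}} ∪ {inr (q,b) : x ∈ closure {η q ≠ 0}, ∀ i, |b i - bq (L q x) i| ≤ 1}`
(finite: integer points of a box; at most `3^k` points `b` for each `q`).
`Z = ZB k R`, `lam_T = 2 lam`, `ϱ x = min (2 lam ‖x‖) (C₂ infDist x Z)`, `C₂` large, `r` small.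
GEOMETRY: (i) if `x ∈ closure {ψ γ ≠ 0}`, `x ≠ 0`, then `‖ρ γ x‖ ≤ lam ‖x‖` and `infDist x Z ≥ c ‖x‖`
(`η q = 1` near `v q`, so all `ψ γ` vanish near the rays; homogeneity and compactness of the sphere). (ii) if
`x ∈ closure {η q ≠ 0}`, `x ≠ 0`: `x ∈ H q`, `0 < (L q x).1`; if moreover `x ∉ Z` then `(L q x).2 ≠ 0`, and
`c ‖(L q x).2‖ ≤ infDist x Z ≤ C ‖(L q x).2‖` (`dr_coord`, `ZB_dist`, `dr_sep`: `infDist x Z = dr q' x` for some
`q'`; if `q' ≠ q` then `dr q' x ≥ c ‖x‖ - dr q x` …).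
FIELDS: `ϱ_Z`: `infDist_le_dist_of_mem`. `w_smooth`: `weight_smooth`. `w_sum`: on `{x ≠ 0} \ Z`,
`∑_b θ (bq - b) = 1` (`HasSum`, only the `b` of `act` contribute), `∑ η + ∑ ψ = 1`. `act_nhds`: `ψ γ`
with `x` not in the closure vanish near `x`; for `q` with `x ∉ closure {η q ≠ 0}` all `w (inr (q,b))` vanish
near `x`; otherwise `bq ∘ L q` is continuous at `x` and the distance of `bq (L q x) i` to the
integers at distance `> 1` is `> 1 + gap`, so one neighbourhood works for all `b`. `w_bound`: `homog_bound`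
(`ϱ ≤ ‖x‖`) and `weight_bound` with (ii) (`ϱ ≤ C ‖(L q x).2‖` and `‖(L q x).2‖ ≤ C ϱ`). `g_bound`: finitely many `γ ∈ F`;
`branch_ray`. `A_flat`: for `γ ∈ F`: `flat_bound_set` at `0`, and `‖x‖ ≤ C ϱ x` by (i); for `(q,b)`:
`branch_ray` and (ii). `A_le`: for `γ`: `‖F γ x‖ ≤ lam ‖x‖ + C ‖x‖² ≤ 2 lam ‖x‖`, `2 lam ‖x‖ ≤ C₂ infDist`;
for `(q,b)`: `‖A x‖ ≤ C ‖(L q x).2‖ ≤ C₂ infDist x Z`, and `C ‖(L q x).2‖ ≤ C ε₀ C' ‖x‖ ≤ 2 lam ‖x‖`. `A_act`: `F_act` for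
the finitely many `γ ∈ F`; `branch_ray`. `equi`: `w ∘ F γ = ρ γ ∘ w` near `0` for `γ ∈ F` and for all `uB q p`
(finitely many): `br_equi` with the suffix bound of `branch_ray`.
-/

open scoped ContDiff Topology
open Metric

namespace LatLin.B

/-! ### Finite families of constants -/

private theorem fin_up {α : Type*} [Finite α] (f : α → ℝ) : ∃ C : ℝ, 1 ≤ C ∧ ∀ a, f a ≤ C := by
  have := Fintype.ofFinite α
  refine ⟨1 + ∑ a, |f a|, ?_, fun a => ?_⟩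
  · have h : 0 ≤ ∑ a, |f a| := Finset.sum_nonneg fun a _ => abs_nonneg _
    linarith
  · have h : |f a| ≤ ∑ a, |f a| :=
      Finset.single_le_sum (f := fun a => |f a|) (fun a _ => abs_nonneg _) (Finset.mem_univ a)
    have := le_abs_self (f a)
    linarith

private theorem fin_upN {α : Type*} [Finite α] (f : α → ℕ) : ∃ C : ℕ, ∀ a, f a ≤ C := by
  have := Fintype.ofFinite α
  exact ⟨∑ a, f a, fun a => Finset.single_le_sum (fun a _ => Nat.zero_le _) (Finset.mem_univ a)⟩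

private theorem fin_low {α : Type*} [Finite α] (f : α → ℝ) (h : ∀ a, 0 < f a) :
    ∃ r : ℝ, 0 < r ∧ ∀ a, r ≤ f a := by
  obtain ⟨C, hC, hC'⟩ := fin_up fun a => (f a)⁻¹
  have hC0 : 0 < C := by linarith
  refine ⟨C⁻¹, inv_pos.2 hC0, fun a => ?_⟩
  exact inv_le_of_inv_le₀ (h a) (hC' a)

/-! ### Integer points in a box -/

private noncomputable def box {k : ℕ} (t : Fin k → ℝ) : Finset (Fin k → ℤ) :=
  Fintype.piFinset (fun i => Finset.Icc ⌈t i - 1⌉ ⌊t i + 1⌋)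

private theorem mem_box {k : ℕ} (t : Fin k → ℝ) (b : Fin k → ℤ) :
    b ∈ box t ↔ ∀ i, |(b i : ℝ) - t i| ≤ 1 := by
  unfold box
  rw [Fintype.mem_piFinset]
  refine forall_congr' fun i => ?_
  rw [Finset.mem_Icc, Int.ceil_le, Int.le_floor, abs_le]
  constructor
  · rintro ⟨h1, h2⟩
    constructor <;> linarith
  · rintro ⟨h1, h2⟩
    constructor <;> linarith

private theorem card_box {k : ℕ} (t : Fin k → ℝ) : (box t).card ≤ 3 ^ k := by
  unfold box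
  rw [Fintype.card_piFinset]
  calc ∏ i, (Finset.Icc ⌈t i - 1⌉ ⌊t i + 1⌋).card ≤ ∏ _i : Fin k, 3 := by
        refine Finset.prod_le_prod' fun i _ => ?_
        rw [Int.card_Icc]
        have h1 : ⌊t i + 1⌋ ≤ ⌈t i - 1⌉ + 2 := by
          have h2 : (⌊t i + 1⌋ : ℝ) ≤ t i + 1 := Int.floor_le _
          have h3 : t i - 1 ≤ ⌈t i - 1⌉ := Int.le_ceil _
          have h4 : (⌊t i + 1⌋ : ℝ) ≤ ⌈t i - 1⌉ + 2 := by linarith
          exact_mod_cast h4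
        omega
    _ = 3 ^ k := by simp

private theorem box_nhds {k : ℕ} (t : Fin k → ℝ) :
    ∀ᶠ s : Fin k → ℝ in 𝓝 t, ∀ b : Fin k → ℤ, b ∉ box t → ∃ i, 1 ≤ |s i - b i| := by
  have h1 : ∀ i, ∀ᶠ s : Fin k → ℝ in 𝓝 t,
      s i ∈ Set.Ioo ((⌈t i - 1⌉ : ℤ) : ℝ) ((⌊t i + 1⌋ : ℤ) : ℝ) := by
    intro i
    have h2 : t i ∈ Set.Ioo ((⌈t i - 1⌉ : ℤ) : ℝ) ((⌊t i + 1⌋ : ℤ) : ℝ) := by
      constructor
      · have := Int.ceil_lt_add_one (t i - 1)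
        linarith
      · have := Int.lt_floor_add_one (t i + 1)
        linarith
    exact (continuous_apply i).continuousAt.eventually (isOpen_Ioo.mem_nhds h2)
  rw [← Filter.eventually_all] at h1
  filter_upwards [h1] with s hs b hb
  unfold box at hb
  rw [Fintype.mem_piFinset, not_forall] at hb
  obtain ⟨i, hi⟩ := hb
  rw [Finset.mem_Icc, not_and_or, not_le, not_le] at hi
  obtain ⟨h2, h3⟩ := hs i
  refine ⟨i, ?_⟩
  rcases hi with h | h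
  · have h4 : (b i : ℝ) + 1 ≤ ⌈t i - 1⌉ := by exact_mod_cast h
    rw [le_abs]
    left
    linarith
  · have h4 : (⌊t i + 1⌋ : ℝ) + 1 ≤ b i := by exact_mod_cast h
    rw [le_abs]
    right
    linarith

private theorem box_sum {k : ℕ} (θ : (Fin k → ℝ) → ℝ)
    (hθ : ∀ v : Fin k → ℝ, (∃ i, 1 ≤ |v i|) → θ v = 0)
    (hs : ∀ v : Fin k → ℝ, HasSum (fun b : Fin k → ℤ => θ (fun i => v i - b i)) 1)
    (t : Fin k → ℝ) : ∑ b ∈ box t, θ (fun i => t i - b i) = 1 := by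
  have h1 : ∀ b ∉ box t, θ (fun i => t i - b i) = 0 := by
    intro b hb
    exact hθ _ ((box_nhds t).self_of_nhds b hb)
  have h2 : HasSum _ _ := hasSum_sum_of_ne_finset_zero (L := SummationFilter.unconditional _) h1
  exact h2.unique (hs t)

/-! ### Geometry -/

private theorem near_ray {E : Type*} [NormedAddCommGroup E] [NormedSpace ℝ E]
    [FiniteDimensional ℝ E] (v : E) (hv : v ≠ 0) (η : E → ℝ)
    (hh : ∀ x, ∀ t : ℝ, 0 < t → η (t • x) = η x) (h1 : ∀ᶠ x in 𝓝 v, η x = 1) :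
    ∃ c : ℝ, 0 < c ∧ ∀ x, x ≠ 0 → dr v x < c * ‖x‖ → η x = 1 := by
  obtain ⟨e, he, hb⟩ := Metric.eventually_nhds_iff_ball.1 h1
  have hv0 : 0 < ‖v‖ := norm_pos_iff.2 hv
  set c : ℝ := min (1 / 2) (e / (2 * ‖v‖)) with hc
  have hc0 : 0 < c := by positivity
  have hc1 : c ≤ 1 / 2 := min_le_left _ _
  have hc2 : c * (2 * ‖v‖) ≤ e := by
    have h2 : c ≤ e / (2 * ‖v‖) := min_le_right _ _
    rwa [le_div_iff₀ (by positivity)] at h2
  refine ⟨c, hc0, fun x hx hd => ?_⟩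
  obtain ⟨t, ht, hdt⟩ := dr_exists v x
  have hx0 : 0 < ‖x‖ := norm_pos_iff.2 hx
  rw [hdt] at hd
  have h2 : ‖x‖ ≤ ‖x - t • v‖ + t * ‖v‖ := by
    calc ‖x‖ = ‖(x - t • v) + t • v‖ := by rw [sub_add_cancel]
      _ ≤ ‖x - t • v‖ + ‖t • v‖ := norm_add_le _ _
      _ = _ := by rw [norm_smul, Real.norm_of_nonneg ht]
  have h3 : ‖x‖ < 2 * (t * ‖v‖) := by
    have h4 : c * ‖x‖ ≤ 1 / 2 * ‖x‖ := mul_le_mul_of_nonneg_right hc1 hx0.le
    linarith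
  have ht0 : 0 < t := by
    rcases ht.lt_or_eq with h | h
    · exact h
    · rw [← h] at h3
      linarith
  have h4 : t⁻¹ • x ∈ ball v e := by
    rw [mem_ball, dist_eq_norm]
    have h5 : t⁻¹ • x - v = t⁻¹ • (x - t • v) := by
      rw [smul_sub, smul_smul, inv_mul_cancel₀ ht0.ne', one_smul]
    rw [h5, norm_smul, norm_inv, Real.norm_of_nonneg ht, inv_mul_lt_iff₀ ht0]
    have h6 : c * ‖x‖ ≤ c * (2 * (t * ‖v‖)) := mul_le_mul_of_nonneg_left h3.le hc0.le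
    have h7 : c * (2 * (t * ‖v‖)) = t * (c * (2 * ‖v‖)) := by ring
    have h8 : t * (c * (2 * ‖v‖)) ≤ t * e := mul_le_mul_of_nonneg_left hc2 ht
    linarith
  have h5 := hb _ h4
  rwa [hh _ _ (inv_pos.2 ht0)] at h5

private theorem norm_toE_pos {k : ℕ} {q : Fin (k + 1) → ℤ} (hq : Prim q) : 0 < ‖toE q‖ := by
  rw [norm_pos_iff]
  intro h
  obtain ⟨g, hg⟩ := hq
  have h1 : q = 0 := by
    funext i
    have h2 := congrArg (fun v : EE (k + 1) => v i) h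
    have h3 : (q i : ℝ) = 0 := h2
    exact_mod_cast h3
  rw [h1] at hg
  have h2 := congrFun hg 0
  rw [Pi.single_eq_same] at h2
  unfold actZ at h2
  rw [Matrix.mulVec_zero] at h2
  exact zero_ne_one h2

private theorem geo_H {k : ℕ} {Γ : Subgroup (SLZ (k + 1))} {R R' : ℝ} (B : RaysB k Γ R')
    (hR : 1 < R) (K : ℝ) (hK : 0 < K) :
    ∃ C : ℝ, 1 ≤ C ∧ ∀ q : B.R.ι, ‖toE (B.vec q)‖ < R → ∀ x : EE (k + 1),
      C * ‖(B.R.L q x).2‖ < (B.R.L q x).1 →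
      infDist x (ZB k R) ≤ C * ‖(B.R.L q x).2‖ ∧
      ‖(B.R.L q x).2‖ ≤ C * infDist x (ZB k R) ∧ ‖(B.R.L q x).2‖ ≤ K * ‖x‖ := by
  have : Finite B.R.ι := B.R.fin
  obtain ⟨c, hc, hsep⟩ := dr_sep k R
  choose cq hcq hLq using B.dir
  choose C1 hC1 hC1' using fun q => dr_coord (B.R.L q) (toE (B.vec q)) (cq q) (hcq q) (hLq q)
  obtain ⟨C2, hC2, hC2'⟩ := fin_up C1
  obtain ⟨l, hl, hl'⟩ := fin_up fun q => ‖(B.R.L q : EE (k + 1) →L[ℝ] E0 k)‖
  have hl0 : 0 < l := by linarith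
  have hC20 : 0 < C2 := by linarith
  set K2 : ℝ := min K (c / (2 * C2)) with hK2
  have hK20 : 0 < K2 := by positivity
  have hK2K : K2 ≤ K := min_le_left _ _
  have hK2c : C2 * K2 ≤ c / 2 := by
    have h1 : K2 ≤ c / (2 * C2) := min_le_right _ _
    calc C2 * K2 ≤ C2 * (c / (2 * C2)) := mul_le_mul_of_nonneg_left h1 hC20.le
      _ = c / 2 := by field_simp
  obtain ⟨C, hC, hC'⟩ : ∃ C : ℝ, 1 ≤ C ∧ C2 ≤ C ∧ l / K2 ≤ C ∧ 2 * K2 / c ≤ C :=
    ⟨max (max 1 C2) (max (l / K2) (2 * K2 / c)), by simp, by simp, by simp, by simp⟩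
  obtain ⟨hCa, hCb, hCc⟩ := hC'
  have hC0 : 0 < C := by linarith
  refine ⟨C, hC, fun q hq x hx => ?_⟩
  have hy : 0 ≤ ‖(B.R.L q x).2‖ := norm_nonneg _
  have h1 : (B.R.L q x).1 ≤ l * ‖x‖ := by
    calc (B.R.L q x).1 ≤ ‖B.R.L q x‖ := (le_abs_self _).trans (norm_fst_le (B.R.L q x))
      _ ≤ ‖(B.R.L q : EE (k + 1) →L[ℝ] E0 k)‖ * ‖x‖ :=
        (B.R.L q : EE (k + 1) →L[ℝ] E0 k).le_opNorm x
      _ ≤ l * ‖x‖ := mul_le_mul_of_nonneg_right (hl' q) (norm_nonneg _)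
  have h2 : ‖(B.R.L q x).2‖ ≤ K2 * ‖x‖ := by
    have h3 : l / K2 * ‖(B.R.L q x).2‖ ≤ l * ‖x‖ :=
      (mul_le_mul_of_nonneg_right hCb hy).trans (hx.le.trans h1)
    have h4 : l / K2 * ‖(B.R.L q x).2‖ = l * (‖(B.R.L q x).2‖ / K2) := by ring
    rw [h4] at h3
    have h5 := le_of_mul_le_mul_left h3 hl0
    rwa [div_le_iff₀ hK20, mul_comm] at h5
  have h3 := hC1' q x
  have hpos : 0 ≤ (B.R.L q x).1 := (mul_nonneg hC0.le hy).trans hx.le
  have h4 : dr (toE (B.vec q)) x ≤ C2 * ‖(B.R.L q x).2‖ :=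
    (h3.2 hpos).trans (mul_le_mul_of_nonneg_right (hC2' q) hy)
  have h5 := ZB_dist k R hR x
  refine ⟨?_, ?_, h2.trans (mul_le_mul_of_nonneg_right hK2K (norm_nonneg _))⟩
  · exact (h5.2 _ (B.prim q) hq).trans (h4.trans (mul_le_mul_of_nonneg_right hCa hy))
  · obtain ⟨q', hq', hqR, hd⟩ := h5.1
    rw [hd]
    by_cases he : q' = B.vec q
    · rw [he]
      have h6 : 0 ≤ dr (toE (B.vec q)) x := infDist_nonneg
      exact h3.1.trans (mul_le_mul_of_nonneg_right ((hC2' q).trans hCa) h6)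
    · have h6 := hsep q' (B.vec q) hq' (B.prim q) hqR hq he x
      have h7 : C2 * ‖(B.R.L q x).2‖ ≤ c / 2 * ‖x‖ := by
        calc C2 * ‖(B.R.L q x).2‖ ≤ C2 * (K2 * ‖x‖) := mul_le_mul_of_nonneg_left h2 hC20.le
          _ = C2 * K2 * ‖x‖ := by ring
          _ ≤ c / 2 * ‖x‖ := mul_le_mul_of_nonneg_right hK2c (norm_nonneg _)
      have h8 : c / 2 * ‖x‖ ≤ dr (toE q') x := by linarith
      calc ‖(B.R.L q x).2‖ ≤ K2 * ‖x‖ := h2
        _ = 2 * K2 / c * (c / 2 * ‖x‖) := by field_simp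
        _ ≤ 2 * K2 / c * dr (toE q') x := mul_le_mul_of_nonneg_left h8 (by positivity)
        _ ≤ C * dr (toE q') x := mul_le_mul_of_nonneg_right hCc infDist_nonneg

private theorem off_Z {k : ℕ} {Γ : Subgroup (SLZ (k + 1))} {R R' : ℝ} (B : RaysB k Γ R')
    (q : B.R.ι) (hq : ‖toE (B.vec q)‖ < R) (x : EE (k + 1)) (hx : x ∉ ZB k R) :
    ¬ ∃ t : ℝ, 0 ≤ t ∧ B.R.L q x = ((t, 0) : E0 k) := by
  rintro ⟨t, ht, h⟩
  obtain ⟨c, hc, hL⟩ := B.dir q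
  refine hx ⟨B.vec q, B.prim q, hq, t / c, by positivity, ?_⟩
  apply (B.R.L q).injective
  rw [h, map_smul, hL]
  refine Prod.ext ?_ ?_
  · change t = t / c * c
    field_simp
  · change (0 : Fin k → ℝ) = (t / c) • 0
    rw [smul_zero]

theorem exists_TDataB {k : ℕ} (hk : 1 ≤ k) {Γ : Subgroup (SLZ (k + 1))} {R R' lam : ℝ}
    (B : RaysB k Γ R') {M : Type*} [TopologicalSpace M] [MulAction Γ M]
    (D : LocData (M := M) (rhoG Γ)) (h1 : P1 D) (h2 : P2 B.R D) (hR : 1 < R) (hRR : R ≤ R')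
    (hlam : 0 < lam) (hlam' : lam < 1 / 4)
    (hcontr : ∀ x : EE (k + 1), x ≠ 0 → (∃ γ ∈ Γ, ‖rhoZ _ γ x‖ < lam * ‖x‖) ∨
      ∃ q : Fin (k + 1) → ℤ, Prim q ∧ ‖toE q‖ < R ∧ ∃ c : ℝ, 0 < c ∧ x = c • toE q) :
    ∃ T : TData D, T.Z = ZB k R ∧ T.lam = 2 * lam ∧
      (∃ c : ℝ, 0 < c ∧ ∀ x ∈ ball (0 : EE (k + 1)) T.r \ T.Z, c * infDist x T.Z ≤ T.ϱ x) ∧
      ∀ w : EE (k + 1) → EE (k + 1),
        (∀ γ, ∀ᶠ x in 𝓝 (0 : EE (k + 1)), w (D.F γ x) = rhoG Γ γ (w x)) →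
        ∃ s : ℝ, 0 < s ∧ ∀ x ∈ ball (0 : EE (k + 1)) s \ T.Z, ∀ i ∈ T.act x,
          w (T.A i x) = rhoG Γ (T.g i) (w x) := by
  classical
  have hfin : Finite B.R.ι := B.R.fin
  let Q0 : Type := {q : B.R.ι // ‖toE (B.vec q)‖ < R}
  have hfQ : Finite Q0 := Subtype.finite
  let _ : Fintype Q0 := Fintype.ofFinite Q0
  obtain ⟨Z, hZdef⟩ : ∃ Z : Set (EE (k + 1)), Z = ZB k R := ⟨_, rfl⟩
  have hZc : IsClosed Z := hZdef ▸ ZB_closed k R
  have hZ0 : (0 : EE (k + 1)) ∈ Z := hZdef ▸ ZB_zero k R hR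
  have hdist0 : ∀ x : EE (k + 1), infDist x Z ≤ ‖x‖ := fun x => by
    have h3 := infDist_le_dist_of_mem (x := x) hZ0
    rwa [dist_zero_right] at h3
  have hpos : ∀ x, x ∉ Z → 0 < infDist x Z := fun x hx =>
    (hZc.notMem_iff_infDist_pos ⟨0, hZ0⟩).1 hx
  -- branch data
  choose r1 C1 hr1 hC1 hbr1 hbr2 using fun q : Q0 => branch_ray B.R D h1 h2 q.1
  obtain ⟨C0, hC0, hC0'⟩ := fin_up C1
  obtain ⟨r2, hr2, hr2'⟩ := fin_low r1 hr1
  have hC00 : 0 < C0 := by linarith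
  -- geometry
  obtain ⟨Mc, hM, hgeo⟩ := geo_H B hR (lam / C0) (by positivity)
  rw [← hZdef] at hgeo
  have hM0 : 0 < Mc := by linarith
  let V : Γ → Set (EE (k + 1)) := fun γ => {x | ‖rhoG Γ γ x‖ < lam * ‖x‖}
  let v : Q0 → EE (k + 1) := fun q => toE (B.vec q.1)
  let H : Q0 → Set (EE (k + 1)) := fun q =>
    {x | Mc * ‖(B.R.L q.1 x).2‖ < (B.R.L q.1 x).1}
  have hv : ∀ q, v q ≠ 0 := fun q => norm_pos_iff.1 (norm_toE_pos (B.prim q.1))
  have hVo : ∀ γ, IsOpen (V γ) := fun γ =>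
    isOpen_lt ((rhoG Γ γ).continuous.norm) (continuous_const.mul continuous_norm)
  have hVc : ∀ γ x, x ∈ V γ → ∀ t : ℝ, 0 < t → t • x ∈ V γ := by
    intro γ x hx t ht
    change ‖rhoG Γ γ (t • x)‖ < lam * ‖t • x‖
    rw [map_smul, norm_smul, norm_smul, Real.norm_of_nonneg ht.le]
    have hx' : ‖rhoG Γ γ x‖ < lam * ‖x‖ := hx
    calc t * ‖rhoG Γ γ x‖ < t * (lam * ‖x‖) := mul_lt_mul_of_pos_left hx' ht
      _ = lam * (t * ‖x‖) := by ring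
  have hvd : ∀ q q' : Q0, ∀ c : ℝ, 0 < c → v q = c • v q' → q = q' := by
    intro q q' c hc h
    have key : ∀ q : Q0, ∃ e : ℝ, 0 < e ∧ (B.R.L q.1).symm ((1, 0) : E0 k) = e⁻¹ • v q := by
      intro q
      obtain ⟨e, he, hLe⟩ := B.dir q.1
      refine ⟨e, he, ?_⟩
      apply (B.R.L q.1).injective
      rw [ContinuousLinearEquiv.apply_symm_apply, map_smul]
      change ((1, 0) : E0 k) = e⁻¹ • (B.R.L q.1) (toE (B.vec q.1))
      rw [hLe]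
      refine Prod.ext ?_ ?_
      · change (1 : ℝ) = e⁻¹ * e
        field_simp
      · change (0 : Fin k → ℝ) = e⁻¹ • 0
        rw [smul_zero]
    obtain ⟨e, he, e1⟩ := key q
    obtain ⟨e', he', e2⟩ := key q'
    apply Subtype.ext
    refine B.R.dist q.1 q'.1 (e⁻¹ * c * e') (by positivity) ?_
    rw [e1, e2, h, smul_smul, smul_smul]
    congr 1
    field_simp
  have hHo : ∀ q, IsOpen (H q) := fun q =>
    isOpen_lt (continuous_const.mul ((continuous_snd.comp (B.R.L q.1).continuous).norm))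
      (continuous_fst.comp (B.R.L q.1).continuous)
  have hHc : ∀ q x, x ∈ H q → ∀ t : ℝ, 0 < t → t • x ∈ H q := by
    intro q x hx t ht
    have hx' : Mc * ‖(B.R.L q.1 x).2‖ < (B.R.L q.1 x).1 := hx
    change Mc * ‖(B.R.L q.1 (t • x)).2‖ < (B.R.L q.1 (t • x)).1
    rw [map_smul, Prod.smul_snd, Prod.smul_fst, norm_smul, Real.norm_of_nonneg ht.le,
      smul_eq_mul]
    calc Mc * (t * ‖(B.R.L q.1 x).2‖) = t * (Mc * ‖(B.R.L q.1 x).2‖) := by ring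
      _ < t * (B.R.L q.1 x).1 := mul_lt_mul_of_pos_left hx' ht
  have hvH : ∀ q, v q ∈ H q := by
    intro q
    obtain ⟨e, he, hLe⟩ := B.dir q.1
    change Mc * ‖(B.R.L q.1 (toE (B.vec q.1))).2‖ < (B.R.L q.1 (toE (B.vec q.1))).1
    rw [hLe]
    change Mc * ‖(0 : Fin k → ℝ)‖ < e
    rw [norm_zero, mul_zero]
    exact he
  have hcov : ∀ x : EE (k + 1), x ≠ 0 →
      (∃ q : Q0, ∃ c : ℝ, 0 < c ∧ x = c • v q) ∨ ∃ γ, x ∈ V γ := by
    intro x hx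
    rcases hcontr x hx with ⟨γ, hγ, h⟩ | ⟨q, hq, hqR, c, hc, h⟩
    · exact Or.inr ⟨⟨γ, hγ⟩, h⟩
    · obtain ⟨q', hq'⟩ := B.surj q hq (hqR.trans_le hRR)
      refine Or.inl ⟨⟨q', by rw [hq']; exact hqR⟩, c, hc, ?_⟩
      change x = c • toE (B.vec q')
      rw [hq']
      exact h
  obtain ⟨F, ψ, η, a1, a2, a3, a4, a5, a6, a7, a8, a9, a10, a11, a12⟩ :=
    exists_cover V hVo hVc v hv hvd H hHo hHc hvH hcov
  obtain ⟨θ, hθ1, hθ2, hθ3, hθ4⟩ := exists_theta k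
  -- the supports of the weights
  choose cr hcr hcr' using fun q : Q0 => near_ray (v q) (hv q) (η q) (a6 q) (a11 q)
  obtain ⟨c1, hc1, hc1'⟩ := fin_low cr hcr
  have hpsi : ∀ γ x, x ≠ 0 → x ∈ closure {z | ψ γ z ≠ 0} →
      ‖rhoG Γ γ x‖ ≤ lam * ‖x‖ ∧ c1 * ‖x‖ ≤ infDist x Z := by
    intro γ x hx hcl
    constructor
    · have hS : IsClosed {z : EE (k + 1) | ‖rhoG Γ γ z‖ ≤ lam * ‖z‖} :=
        isClosed_le ((rhoG Γ γ).continuous.norm) (continuous_const.mul continuous_norm)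
      have hsub : closure {z | ψ γ z ≠ 0} ⊆ {z : EE (k + 1) | ‖rhoG Γ γ z‖ ≤ lam * ‖z‖} := by
        refine closure_minimal (fun z hz => ?_) hS
        by_cases hz0 : z = 0
        · subst hz0
          change ‖rhoG Γ γ 0‖ ≤ lam * ‖(0 : EE (k + 1))‖
          rw [map_zero, norm_zero, mul_zero]
        · have h3 : ‖rhoG Γ γ z‖ < lam * ‖z‖ := (a7 γ z hz0 hz).1
          exact h3.le
      exact hsub hcl
    · by_contra hlt
      rw [not_le] at hlt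
      obtain ⟨⟨q', hq', hqR, hd⟩, _⟩ := ZB_dist k R hR x
      rw [← hZdef] at hd
      obtain ⟨q, hq⟩ := B.surj q' hq' (hqR.trans_le hRR)
      let q0 : Q0 := ⟨q, by rw [hq]; exact hqR⟩
      have hdc : Continuous (fun z : EE (k + 1) => dr (v q0) z) := continuous_infDist_pt _
      have hx' : dr (v q0) x < c1 * ‖x‖ := by
        change dr (toE (B.vec q)) x < _
        rw [hq, ← hd]
        exact hlt
      have hev : ∀ᶠ z in 𝓝 x, ψ γ z = 0 := by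
        filter_upwards [(isOpen_lt hdc (continuous_const.mul continuous_norm)).mem_nhds hx',
          isOpen_compl_singleton.mem_nhds hx] with z hz hz0
        have hz0' : z ≠ 0 := hz0
        have hz' : dr (v q0) z < c1 * ‖z‖ := hz
        have e1 : η q0 z = 1 := hcr' q0 z hz0'
          (hz'.trans_le (mul_le_mul_of_nonneg_right (hc1' q0) (norm_nonneg _)))
        have e2 := a12 z hz0'
        rw [finsum_eq_sum_of_fintype] at e2
        have e3 : η q0 z ≤ ∑ q, η q z :=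
          Finset.single_le_sum (f := fun q => η q z) (fun q _ => a4 q z) (Finset.mem_univ q0)
        by_contra hne
        have e4 := (a7 γ z hz0' hne).2
        have e5 : ψ γ z ≤ ∑ γ ∈ F, ψ γ z :=
          Finset.single_le_sum (f := fun γ => ψ γ z) (fun γ _ => a3 γ z) e4
        have e6 := (a3 γ z).lt_of_ne' hne
        linarith
      rw [mem_closure_iff_nhds] at hcl
      obtain ⟨z, hz1, hz2⟩ := hcl _ hev
      exact hz2 hz1
  have heta : ∀ (q : Q0) x, x ∉ Z → x ∈ closure {z | η q z ≠ 0} →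
      0 < (B.R.L q.1 x).1 ∧ (B.R.L q.1 x).2 ≠ 0 ∧ infDist x Z ≤ Mc * ‖(B.R.L q.1 x).2‖ ∧
      ‖(B.R.L q.1 x).2‖ ≤ Mc * infDist x Z ∧ ‖(B.R.L q.1 x).2‖ ≤ lam / C0 * ‖x‖ := by
    intro q x hx hcl
    have hx0 : x ≠ 0 := fun h => hx (h ▸ hZ0)
    have e1 : Mc * ‖(B.R.L q.1 x).2‖ < (B.R.L q.1 x).1 := a9 q x hx0 hcl
    have e2 := hgeo q.1 q.2 x e1
    have e3 : 0 < (B.R.L q.1 x).1 := lt_of_le_of_lt (by positivity) e1
    refine ⟨e3, fun h => ?_, e2.1, e2.2.1, e2.2.2⟩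
    exact off_Z B q.1 q.2 x (hZdef ▸ hx) ⟨(B.R.L q.1 x).1, e3.le, Prod.ext rfl h⟩
  -- the scale
  obtain ⟨C2, hC2a, hC2b, hC2c⟩ : ∃ C2 : ℝ, 0 < C2 ∧ 2 * C0 * Mc ≤ C2 ∧ 2 * lam / c1 ≤ C2 :=
    ⟨max (2 * C0 * Mc) (2 * lam / c1), by positivity, le_max_left _ _, le_max_right _ _⟩
  obtain ⟨ϱ, hϱdef⟩ : ∃ ϱ : EE (k + 1) → ℝ, ϱ = fun x => min (2 * lam * ‖x‖) (C2 * infDist x Z) :=
    ⟨_, rfl⟩
  have hϱ1 : ∀ x, ϱ x ≤ 2 * lam * ‖x‖ := fun x => by rw [hϱdef]; exact min_le_left _ _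
  have hϱ2 : ∀ x, ϱ x ≤ C2 * infDist x Z := fun x => by rw [hϱdef]; exact min_le_right _ _
  obtain ⟨cl, hcl0, hcl1, hcl2⟩ : ∃ cl : ℝ, 0 < cl ∧ cl ≤ 2 * lam ∧ cl ≤ C2 :=
    ⟨min (2 * lam) C2, by positivity, min_le_left _ _, min_le_right _ _⟩
  have hlow : ∀ x, cl * infDist x Z ≤ ϱ x := by
    intro x
    rw [hϱdef]
    refine le_min ?_ (mul_le_mul_of_nonneg_right hcl2 infDist_nonneg)
    calc cl * infDist x Z ≤ 2 * lam * infDist x Z :=
          mul_le_mul_of_nonneg_right hcl1 infDist_nonneg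
      _ ≤ 2 * lam * ‖x‖ := mul_le_mul_of_nonneg_left (hdist0 x) (by positivity)
  have hϱ0 : ∀ x, x ∉ Z → 0 < ϱ x := fun x hx =>
    lt_of_lt_of_le (mul_pos hcl0 (hpos x hx)) (hlow x)
  have hϱ3 : ∀ x, ϱ x ≤ ‖x‖ := fun x => (hϱ1 x).trans (by
    have h3 : 2 * lam * ‖x‖ ≤ 1 * ‖x‖ := mul_le_mul_of_nonneg_right (by linarith) (norm_nonneg _)
    linarith)
  obtain ⟨C5, hC5a, hC5b⟩ : ∃ C5 : ℝ, 1 ≤ C5 ∧ C2 * Mc ≤ C5 :=
    ⟨max 1 (C2 * Mc), le_max_left _ _, le_max_right _ _⟩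
  have hC50 : 0 < C5 := by linarith
  have hϱy : ∀ (q : Q0) x, x ∉ Z → x ∈ closure {z | η q z ≠ 0} →
      ϱ x ≤ C5 * ‖(B.R.L q.1 x).2‖ ∧ ‖(B.R.L q.1 x).2‖ ≤ Mc / cl * ϱ x := by
    intro q x hx hcl
    obtain ⟨e0, e1, e2, e3, e4⟩ := heta q x hx hcl
    constructor
    · calc ϱ x ≤ C2 * infDist x Z := hϱ2 x
        _ ≤ C2 * (Mc * ‖(B.R.L q.1 x).2‖) := mul_le_mul_of_nonneg_left e2 hC2a.le
        _ = C2 * Mc * ‖(B.R.L q.1 x).2‖ := by ring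
        _ ≤ C5 * ‖(B.R.L q.1 x).2‖ := mul_le_mul_of_nonneg_right hC5b (norm_nonneg _)
    · calc ‖(B.R.L q.1 x).2‖ ≤ Mc * infDist x Z := e3
        _ = Mc / cl * (cl * infDist x Z) := by field_simp
        _ ≤ Mc / cl * ϱ x := mul_le_mul_of_nonneg_left (hlow x) (by positivity)
  have hϱx : ∀ γ x, x ≠ 0 → x ∈ closure {z | ψ γ z ≠ 0} → ‖x‖ ≤ 1 / (c1 * cl) * ϱ x := by
    intro γ x hx hcl
    calc ‖x‖ = 1 / (c1 * cl) * (cl * (c1 * ‖x‖)) := by field_simp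
      _ ≤ 1 / (c1 * cl) * (cl * infDist x Z) := by
        refine mul_le_mul_of_nonneg_left ?_ (by positivity)
        exact mul_le_mul_of_nonneg_left (hpsi γ x hx hcl).2 hcl0.le
      _ ≤ 1 / (c1 * cl) * ϱ x := mul_le_mul_of_nonneg_left (hlow x) (by positivity)
  -- the radius
  choose C3 hC3 hC3' using fun q : Q0 => hbr2 q 0 2
  obtain ⟨C4, hC4, hC4'⟩ := fin_up C3
  have hev : ∀ᶠ x in 𝓝 (0 : EE (k + 1)), (∀ γ ∈ F, γ • D.χ x = D.χ (D.F γ x) ∧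
      ‖D.F γ x - rhoG Γ γ x‖ ≤ lam * ‖x‖) ∧ C4 * (lam / C0 * ‖x‖) ≤ C0 := by
    refine Filter.Eventually.and ?_ ?_
    · rw [Filter.eventually_all_finset]
      intro γ _
      have h3 := (D.F_deriv γ).isLittleO.def (c := lam) hlam
      filter_upwards [D.F_act γ, h3] with x hx1 hx2
      refine ⟨hx1, ?_⟩
      simpa [D.F_zero] using hx2
    · have hc : Continuous (fun x : EE (k + 1) => C4 * (lam / C0 * ‖x‖)) :=
        continuous_const.mul (continuous_const.mul continuous_norm)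
      have h3 := hc.tendsto 0
      simp only [norm_zero, mul_zero] at h3
      exact h3.eventually (ge_mem_nhds hC00)
  obtain ⟨s, hs, hs'⟩ := Metric.eventually_nhds_iff_ball.1 hev
  obtain ⟨r, hr0, hrs, hr2r, hr1r, hrD⟩ : ∃ r : ℝ, 0 < r ∧ r ≤ s ∧ r ≤ r2 ∧ r ≤ 1 ∧ r ≤ D.r0 :=
    ⟨min (min s r2) (min 1 D.r0), lt_min (lt_min hs hr2) (lt_min one_pos D.r0_pos),
      (min_le_left _ _).trans (min_le_left _ _), (min_le_left _ _).trans (min_le_right _ _),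
      (min_le_right _ _).trans (min_le_left _ _), (min_le_right _ _).trans (min_le_right _ _)⟩
  have hrn : ∀ x ∈ ball (0 : EE (k + 1)) r \ Z, ‖x‖ < r := fun x hx => by
    have := hx.1
    rwa [mem_ball_zero_iff] at this
  have hne : ∀ x ∈ ball (0 : EE (k + 1)) r \ Z, x ≠ 0 := fun x hx h => hx.2 (h ▸ hZ0)
  -- the index type
  let ι : Type := Γ ⊕ (Σ _ : Q0, (Fin k → ℤ))
  let gg : ι → Γ := Sum.elim (fun γ => γ) (fun p => B.R.ub p.1.1 p.2)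
  let AA : ι → EE (k + 1) → EE (k + 1) :=
    Sum.elim (fun γ => D.F γ) (fun p => B.R.br D p.1.1 p.2)
  let ww : ι → EE (k + 1) → ℝ := Sum.elim (fun γ => ψ γ)
    (fun p x => η p.1 x * θ (fun i => bq (B.R.L p.1.1 x) i - p.2 i))
  let aa : EE (k + 1) → Finset ι := fun x =>
    (F.filter (fun γ => x ∈ closure {z | ψ γ z ≠ 0})).disjSum
      ((Finset.univ.filter (fun q : Q0 => x ∈ closure {z | η q z ≠ 0})).sigma
        (fun q => box (bq (B.R.L q.1 x))))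
  have hin1 : ∀ γ x, Sum.inl γ ∈ aa x ↔ γ ∈ F ∧ x ∈ closure {z | ψ γ z ≠ 0} := by
    intro γ x
    exact Finset.inl_mem_disjSum.trans Finset.mem_filter
  have hin2 : ∀ (q : Q0) (b : Fin k → ℤ) x, Sum.inr ⟨q, b⟩ ∈ aa x ↔
      x ∈ closure {z | η q z ≠ 0} ∧ b ∈ box (bq (B.R.L q.1 x)) := by
    intro q b x
    refine Finset.inr_mem_disjSum.trans (Finset.mem_sigma.trans ?_)
    rw [Finset.mem_filter]
    exact ⟨fun h => ⟨h.1.2, h.2⟩, fun h => ⟨⟨Finset.mem_univ _, h.1⟩, h.2⟩⟩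
  have hbox : ∀ (q : Q0) x (b : Fin k → ℤ), b ∈ box (bq (B.R.L q.1 x)) →
      ∀ i, |(b i : ℝ) - bq (B.R.L q.1 x) i| ≤ 2 := fun q x b hb i =>
    ((mem_box _ _).1 hb i).trans (by norm_num)
  have hrq : ∀ (q : Q0), ∀ x ∈ ball (0 : EE (k + 1)) r \ Z, ‖x‖ < r1 q := fun q x hx =>
    (hrn x hx).trans_le (hr2r.trans (hr2' q))
  have hbr : ∀ (q : Q0), ∀ x ∈ ball (0 : EE (k + 1)) r \ Z, x ∈ closure {z | η q z ≠ 0} →
      ∀ b ∈ box (bq (B.R.L q.1 x)),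
        D.χ (B.R.br D q.1 b x) = B.R.ub q.1 b • D.χ x ∧
        ‖rhoG Γ (B.R.ub q.1 b) x‖ ≤ C0 * ‖(B.R.L q.1 x).2‖ ∧
        sz (rhoG Γ (B.R.ub q.1 b)) ≤ C0 * (‖x‖ / ‖(B.R.L q.1 x).2‖) ∧
        (∀ l', l' <:+ bWord b →
          ‖wordMap (fun p => D.F (B.R.uB q.1 p)) l' x‖ ≤ C0 * ‖x‖) := by
    intro q x hx hcl b hb
    obtain ⟨e0, e1, e2, e3, e4⟩ := heta q x hx.2 hcl
    obtain ⟨f1, f2, f3, f4⟩ := hbr1 q x (hrq q x hx) e0.le e1 b (hbox q x b hb)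
    refine ⟨f1, f2.trans (mul_le_mul_of_nonneg_right (hC0' q) (norm_nonneg _)),
      f3.trans (mul_le_mul_of_nonneg_right (hC0' q) (by positivity)), fun l' hl' =>
      (f4 l' hl').trans (mul_le_mul_of_nonneg_right (hC0' q) (norm_nonneg _))⟩
  have hxy : ∀ (q : Q0), ∀ x ∈ ball (0 : EE (k + 1)) r \ Z, x ∈ closure {z | η q z ≠ 0} →
      ‖x‖ / ‖(B.R.L q.1 x).2‖ ≤ C5 * (‖x‖ / ϱ x) := by
    intro q x hx hcl
    obtain ⟨e0, e1, -⟩ := heta q x hx.2 hcl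
    have hy : 0 < ‖(B.R.L q.1 x).2‖ := norm_pos_iff.2 e1
    have hϱp : 0 < ϱ x := hϱ0 x hx.2
    rw [div_le_iff₀ hy]
    calc ‖x‖ = ‖x‖ / ϱ x * ϱ x := by field_simp
      _ ≤ ‖x‖ / ϱ x * (C5 * ‖(B.R.L q.1 x).2‖) :=
        mul_le_mul_of_nonneg_left (hϱy q x hx.2 hcl).1 (by positivity)
      _ = C5 * (‖x‖ / ϱ x) * ‖(B.R.L q.1 x).2‖ := by ring
  -- the fields
  have hwb : ∀ j : ℕ, ∃ (C : ℝ) (c : ℕ), ∀ x ∈ ball (0 : EE (k + 1)) r \ Z, ∀ i ∈ aa x,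
      ‖iteratedFDeriv ℝ j (ww i) x‖ ≤ C * (‖x‖ / ϱ x) ^ c / ϱ x ^ j := by
    intro j
    choose K1 hK1 using fun γ : Γ => homog_bound (ψ γ) (a1 γ) (a5 γ) j
    choose K2 n2 hK2 using fun q : Q0 =>
      weight_bound (B.R.L q.1) (η q) (a2 q) (a6 q) θ hθ1 hθ3 j
    obtain ⟨K3, hK3, hK3'⟩ := fin_up (fun γ : F => K1 γ)
    obtain ⟨K4, hK4, hK4'⟩ := fin_up K2
    obtain ⟨n, hn⟩ := fin_upN n2
    obtain ⟨K5, hK5a, hK5b⟩ : ∃ K5 : ℝ, K3 ≤ K5 ∧ K4 * C5 ^ (n + j) ≤ K5 :=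
      ⟨max K3 (K4 * C5 ^ (n + j)), le_max_left _ _, le_max_right _ _⟩
    have hK50 : 0 ≤ K5 := by linarith
    refine ⟨K5, n, ?_⟩
    intro x hx i hi
    have hx0 : x ≠ 0 := hne x hx
    have hxn : 0 < ‖x‖ := norm_pos_iff.2 hx0
    have hϱp : 0 < ϱ x := hϱ0 x hx.2
    have hone : 1 ≤ ‖x‖ / ϱ x := (one_le_div hϱp).2 (hϱ3 x)
    rcases i with γ | ⟨q, b⟩
    · have hγ := (hin1 γ x).1 hi
      have e1 := hK1 γ x hx0
      have e2 : ‖iteratedFDeriv ℝ j (ψ γ) x‖ ≤ K3 / ‖x‖ ^ j := by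
        rw [le_div_iff₀ (by positivity)]
        exact e1.trans (hK3' ⟨γ, hγ.1⟩)
      calc ‖iteratedFDeriv ℝ j (ψ γ) x‖ ≤ K3 / ‖x‖ ^ j := e2
        _ ≤ K3 / ϱ x ^ j := div_le_div_of_nonneg_left (by linarith) (by positivity)
            (pow_le_pow_left₀ hϱp.le (hϱ3 x) j)
        _ ≤ K5 * (‖x‖ / ϱ x) ^ n / ϱ x ^ j := by
          refine div_le_div_of_nonneg_right ?_ (by positivity)
          calc K3 ≤ K5 * 1 := by linarith
            _ ≤ K5 * (‖x‖ / ϱ x) ^ n := mul_le_mul_of_nonneg_left (one_le_pow₀ hone) hK50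
    · have hq := (hin2 q b x).1 hi
      obtain ⟨e0, e1, e2, e3, e4⟩ := heta q x hx.2 hq.1
      have hy : 0 < ‖(B.R.L q.1 x).2‖ := norm_pos_iff.2 e1
      have e5 := hK2 q x b e1
      have e6 := (hϱy q x hx.2 hq.1).1
      have e7 := hxy q x hx hq.1
      have e8 : 1 / ‖(B.R.L q.1 x).2‖ ≤ C5 / ϱ x := by
        rw [div_le_div_iff₀ hy hϱp]
        linarith
      have e9 : 1 ≤ C5 * (‖x‖ / ϱ x) := by nlinarith
      calc ‖iteratedFDeriv ℝ j (fun z => η q z * θ (fun i => bq (B.R.L q.1 z) i - b i)) x‖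
          ≤ K2 q * (‖x‖ / ‖(B.R.L q.1 x).2‖) ^ n2 q / ‖(B.R.L q.1 x).2‖ ^ j := e5
        _ = K2 q * ((‖x‖ / ‖(B.R.L q.1 x).2‖) ^ n2 q * (1 / ‖(B.R.L q.1 x).2‖) ^ j) := by
          rw [div_pow 1, one_pow]
          ring
        _ ≤ K4 * ((C5 * (‖x‖ / ϱ x)) ^ n * (C5 / ϱ x) ^ j) := by
          refine mul_le_mul (hK4' q) ?_ (by positivity) (by linarith)
          refine mul_le_mul ?_ (pow_le_pow_left₀ (by positivity) e8 j) (by positivity)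
            (by positivity)
          exact (pow_le_pow_left₀ (by positivity) e7 _).trans (pow_le_pow_right₀ e9 (hn q))
        _ = K4 * C5 ^ (n + j) * (‖x‖ / ϱ x) ^ n / ϱ x ^ j := by
          rw [mul_pow, div_pow C5, pow_add]
          ring
        _ ≤ K5 * (‖x‖ / ϱ x) ^ n / ϱ x ^ j := by
          refine div_le_div_of_nonneg_right ?_ (by positivity)
          exact mul_le_mul_of_nonneg_right hK5b (by positivity)
  have hgb : ∃ (C : ℝ) (c : ℕ), ∀ x ∈ ball (0 : EE (k + 1)) r \ Z, ∀ i ∈ aa x,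
      sz (rhoG Γ (gg i)) ≤ C * (‖x‖ / ϱ x) ^ c := by
    obtain ⟨K3, hK3, hK3'⟩ := fin_up (fun γ : F => sz (rhoG Γ γ))
    obtain ⟨K5, hK5a, hK5b⟩ : ∃ K5 : ℝ, K3 ≤ K5 ∧ C0 * C5 ≤ K5 :=
      ⟨max K3 (C0 * C5), le_max_left _ _, le_max_right _ _⟩
    have hK50 : 0 ≤ K5 := by linarith
    refine ⟨K5, 1, ?_⟩
    intro x hx i hi
    have hx0 : x ≠ 0 := hne x hx
    have hϱp : 0 < ϱ x := hϱ0 x hx.2
    have hone : 1 ≤ ‖x‖ / ϱ x := (one_le_div hϱp).2 (hϱ3 x)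
    rw [pow_one]
    rcases i with γ | ⟨q, b⟩
    · have hγ := (hin1 γ x).1 hi
      calc sz (rhoG Γ γ) ≤ K3 := hK3' ⟨γ, hγ.1⟩
        _ ≤ K5 * 1 := by linarith
        _ ≤ K5 * (‖x‖ / ϱ x) := mul_le_mul_of_nonneg_left hone hK50
    · have hq := (hin2 q b x).1 hi
      calc sz (rhoG Γ (B.R.ub q.1 b)) ≤ C0 * (‖x‖ / ‖(B.R.L q.1 x).2‖) :=
            (hbr q x hx hq.1 b hq.2).2.2.1
        _ ≤ C0 * (C5 * (‖x‖ / ϱ x)) := mul_le_mul_of_nonneg_left (hxy q x hx hq.1) hC00.le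
        _ = C0 * C5 * (‖x‖ / ϱ x) := by ring
        _ ≤ K5 * (‖x‖ / ϱ x) := mul_le_mul_of_nonneg_right hK5b (by positivity)
  have hAf : ∀ j N : ℕ, ∃ C : ℝ, ∀ x ∈ ball (0 : EE (k + 1)) r \ Z, ∀ i ∈ aa x,
      ‖iteratedFDeriv ℝ j (fun y => AA i y - rhoG Γ (gg i) y) x‖ ≤ C * ϱ x ^ N := by
    intro j N
    have hsm : ∀ γ : Γ, ContDiff ℝ ∞ (fun y => D.F γ y - rhoG Γ γ y) := fun γ =>
      (D.F_smooth _).sub (rhoG Γ γ).contDiff
    choose K1 hK1 hK1' using fun γ : Γ =>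
      flat_bound_set (fun y => D.F γ y - rhoG Γ γ y) (hsm γ) {0} (fun z hz m => by
        rw [Set.mem_singleton_iff] at hz
        subst hz
        exact h1 γ m) j N 1
    obtain ⟨K3, hK3, hK3'⟩ := fin_up (fun γ : F => K1 γ)
    choose K2 hK2 hK2' using fun q : Q0 => hbr2 q j N
    obtain ⟨K4, hK4, hK4'⟩ := fin_up K2
    obtain ⟨K5, hK5a, hK5b⟩ : ∃ K5 : ℝ, K3 * (1 / (c1 * cl)) ^ N ≤ K5 ∧
        K4 * (Mc / cl) ^ N ≤ K5 :=
      ⟨max (K3 * (1 / (c1 * cl)) ^ N) (K4 * (Mc / cl) ^ N), le_max_left _ _, le_max_right _ _⟩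
    refine ⟨K5, ?_⟩
    intro x hx i hi
    have hϱp : 0 < ϱ x := hϱ0 x hx.2
    rcases i with γ | ⟨q, b⟩
    · have hγ := (hin1 γ x).1 hi
      have e1 := hK1' γ x (ball_subset_ball hr1r hx.1) 0 rfl (mem_ball_self one_pos)
      rw [sub_zero] at e1
      calc ‖iteratedFDeriv ℝ j (fun y => D.F γ y - rhoG Γ γ y) x‖ ≤ K1 γ * ‖x‖ ^ N := e1
        _ ≤ K3 * (1 / (c1 * cl) * ϱ x) ^ N :=
          mul_le_mul (hK3' ⟨γ, hγ.1⟩)
            (pow_le_pow_left₀ (norm_nonneg _) (hϱx γ x (hne x hx) hγ.2) N) (by positivity)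
            (by linarith)
        _ = K3 * (1 / (c1 * cl)) ^ N * ϱ x ^ N := by
          rw [mul_pow]
          ring
        _ ≤ K5 * ϱ x ^ N := mul_le_mul_of_nonneg_right hK5a (by positivity)
    · have hq := (hin2 q b x).1 hi
      obtain ⟨e0, e1, -⟩ := heta q x hx.2 hq.1
      have e5 := hK2' q x (hrq q x hx) e0.le e1 b (hbox q x b hq.2)
      calc ‖iteratedFDeriv ℝ j (fun y => B.R.br D q.1 b y - rhoG Γ (B.R.ub q.1 b) y) x‖
          ≤ K2 q * ‖(B.R.L q.1 x).2‖ ^ N := e5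
        _ ≤ K4 * (Mc / cl * ϱ x) ^ N :=
          mul_le_mul (hK4' q) (pow_le_pow_left₀ (norm_nonneg _) (hϱy q x hx.2 hq.1).2 N)
            (by positivity) (by linarith)
        _ = K4 * (Mc / cl) ^ N * ϱ x ^ N := by
          rw [mul_pow]
          ring
        _ ≤ K5 * ϱ x ^ N := mul_le_mul_of_nonneg_right hK5b (by positivity)
  have hAle : ∀ x ∈ ball (0 : EE (k + 1)) r \ Z, ∀ i ∈ aa x, ‖AA i x‖ ≤ ϱ x := by
    intro x hx i hi
    have hxs : x ∈ ball (0 : EE (k + 1)) s := ball_subset_ball hrs hx.1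
    rw [hϱdef]
    rcases i with γ | ⟨q, b⟩
    · have hγ := (hin1 γ x).1 hi
      have e1 := ((hs' x hxs).1 γ hγ.1).2
      have e2 := hpsi γ x (hne x hx) hγ.2
      have e3 : ‖D.F γ x‖ ≤ 2 * lam * ‖x‖ := by
        calc ‖D.F γ x‖ = ‖(D.F γ x - rhoG Γ γ x) + rhoG Γ γ x‖ := by rw [sub_add_cancel]
          _ ≤ ‖D.F γ x - rhoG Γ γ x‖ + ‖rhoG Γ γ x‖ := norm_add_le _ _
          _ ≤ 2 * lam * ‖x‖ := by linarith [e2.1]
      refine le_min e3 (e3.trans ?_)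
      calc 2 * lam * ‖x‖ = 2 * lam / c1 * (c1 * ‖x‖) := by field_simp
        _ ≤ 2 * lam / c1 * infDist x Z := mul_le_mul_of_nonneg_left e2.2 (by positivity)
        _ ≤ C2 * infDist x Z := mul_le_mul_of_nonneg_right hC2c infDist_nonneg
    · have hq := (hin2 q b x).1 hi
      obtain ⟨e0, e1, e2, e3, e4⟩ := heta q x hx.2 hq.1
      have f1 := (hbr q x hx hq.1 b hq.2).2.1
      have f2 := hC3' q x (hrq q x hx) e0.le e1 b (hbox q x b hq.2)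
      rw [norm_iteratedFDeriv_zero] at f2
      have f3 := (hs' x hxs).2
      have hy : 0 ≤ ‖(B.R.L q.1 x).2‖ := norm_nonneg _
      have f4 : C3 q * ‖(B.R.L q.1 x).2‖ ^ 2 ≤ C0 * ‖(B.R.L q.1 x).2‖ := by
        calc C3 q * ‖(B.R.L q.1 x).2‖ ^ 2 ≤ C4 * ‖(B.R.L q.1 x).2‖ ^ 2 :=
              mul_le_mul_of_nonneg_right (hC4' q) (by positivity)
          _ = C4 * ‖(B.R.L q.1 x).2‖ * ‖(B.R.L q.1 x).2‖ := by ring
          _ ≤ C4 * (lam / C0 * ‖x‖) * ‖(B.R.L q.1 x).2‖ :=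
            mul_le_mul_of_nonneg_right (mul_le_mul_of_nonneg_left e4 (by linarith)) hy
          _ ≤ C0 * ‖(B.R.L q.1 x).2‖ := mul_le_mul_of_nonneg_right f3 hy
      have f5 : ‖B.R.br D q.1 b x‖ ≤ 2 * C0 * ‖(B.R.L q.1 x).2‖ := by
        calc ‖B.R.br D q.1 b x‖ =
              ‖(B.R.br D q.1 b x - rhoG Γ (B.R.ub q.1 b) x) + rhoG Γ (B.R.ub q.1 b) x‖ := by
              rw [sub_add_cancel]
          _ ≤ ‖B.R.br D q.1 b x - rhoG Γ (B.R.ub q.1 b) x‖ + ‖rhoG Γ (B.R.ub q.1 b) x‖ :=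
            norm_add_le _ _
          _ ≤ C0 * ‖(B.R.L q.1 x).2‖ + C0 * ‖(B.R.L q.1 x).2‖ :=
            add_le_add (f2.trans f4) f1
          _ = 2 * C0 * ‖(B.R.L q.1 x).2‖ := by ring
      refine le_min (f5.trans ?_) (f5.trans ?_)
      · calc 2 * C0 * ‖(B.R.L q.1 x).2‖ ≤ 2 * C0 * (lam / C0 * ‖x‖) :=
              mul_le_mul_of_nonneg_left e4 (by positivity)
          _ = 2 * lam * ‖x‖ := by field_simp
      · calc 2 * C0 * ‖(B.R.L q.1 x).2‖ ≤ 2 * C0 * (Mc * infDist x Z) :=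
              mul_le_mul_of_nonneg_left e3 (by positivity)
          _ = 2 * C0 * Mc * infDist x Z := by ring
          _ ≤ C2 * infDist x Z := mul_le_mul_of_nonneg_right hC2b infDist_nonneg
  have hAact : ∀ x ∈ ball (0 : EE (k + 1)) r \ Z, ∀ i ∈ aa x,
      gg i • D.χ x = D.χ (AA i x) := by
    intro x hx i hi
    rcases i with γ | ⟨q, b⟩
    · exact ((hs' x (ball_subset_ball hrs hx.1)).1 γ ((hin1 γ x).1 hi).1).1
    · have hq := (hin2 q b x).1 hi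
      exact (hbr q x hx hq.1 b hq.2).1.symm
  have hcard : ∀ x, (aa x).card ≤ F.card + Fintype.card Q0 * 3 ^ k := by
    intro x
    refine (Finset.card_disjSum _ _).trans_le ?_
    refine add_le_add (Finset.card_filter_le _ _) ?_
    rw [Finset.card_sigma]
    refine (Finset.sum_le_card_nsmul _ _ (3 ^ k) fun q _ => card_box _).trans ?_
    rw [smul_eq_mul]
    exact Nat.mul_le_mul_right _ (Finset.card_le_univ _)
  have hnh : ∀ x ∈ ball (0 : EE (k + 1)) r \ Z, ∀ᶠ y in 𝓝 x, ∀ i, i ∉ aa x → ww i y = 0 := by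
    intro x hx
    have g1 : ∀ᶠ y in 𝓝 x, ∀ γ ∈ F, x ∉ closure {z | ψ γ z ≠ 0} → ψ γ y = 0 := by
      rw [Filter.eventually_all_finset]
      intro γ _
      by_cases hcl : x ∈ closure {z | ψ γ z ≠ 0}
      · exact Filter.Eventually.of_forall fun y h => absurd hcl h
      · filter_upwards [isClosed_closure.isOpen_compl.mem_nhds hcl] with y hy _
        by_contra h
        exact hy (subset_closure h)
    have g2 : ∀ᶠ y in 𝓝 x, ∀ (q : Q0) (b : Fin k → ℤ),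
        ¬ (x ∈ closure {z | η q z ≠ 0} ∧ b ∈ box (bq (B.R.L q.1 x))) →
        η q y * θ (fun i => bq (B.R.L q.1 y) i - b i) = 0 := by
      rw [Filter.eventually_all]
      intro q
      by_cases hcl : x ∈ closure {z | η q z ≠ 0}
      · obtain ⟨e0, e1, -⟩ := heta q x hx.2 hcl
        have hc : ContinuousAt (fun y => bq (B.R.L q.1 y)) x := by
          obtain ⟨_, hb⟩ := bq_bound k 0
          have hb1 : ContinuousAt (bq (k := k)) (B.R.L q.1 x) :=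
            (hb (B.R.L q.1 x) e1).1.continuousAt
          exact ContinuousAt.comp (f := fun y => B.R.L q.1 y) hb1
            (B.R.L q.1).continuous.continuousAt
        filter_upwards [hc.eventually (box_nhds (bq (B.R.L q.1 x)))] with y hy b hb
        have hb' : b ∉ box (bq (B.R.L q.1 x)) := fun h => hb ⟨hcl, h⟩
        rw [hθ3 _ (hy b hb'), mul_zero]
      · filter_upwards [isClosed_closure.isOpen_compl.mem_nhds hcl] with y hy b _
        have h3 : η q y = 0 := by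
          by_contra h
          exact hy (subset_closure h)
        rw [h3, zero_mul]
    filter_upwards [g1, g2, isOpen_compl_singleton.mem_nhds (hne x hx)] with y hy1 hy2 hy0
    intro i hi
    rcases i with γ | ⟨q, b⟩
    · change ψ γ y = 0
      by_cases hγ : γ ∈ F
      · exact hy1 γ hγ fun h => hi ((hin1 γ x).2 ⟨hγ, h⟩)
      · by_contra h
        exact hγ (a7 γ y hy0 h).2
    · exact hy2 q b fun h => hi ((hin2 q b x).2 h)
  have hws : ∀ x ∈ ball (0 : EE (k + 1)) r \ Z, ∑ i ∈ aa x, ww i x = 1 := by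
    intro x hx
    have e1 : ∑ i ∈ aa x, ww i x =
        ∑ γ ∈ F.filter (fun γ => x ∈ closure {z | ψ γ z ≠ 0}), ψ γ x +
        ∑ q ∈ Finset.univ.filter (fun q : Q0 => x ∈ closure {z | η q z ≠ 0}),
          ∑ b ∈ box (bq (B.R.L q.1 x)), η q x * θ (fun i => bq (B.R.L q.1 x) i - b i) := by
      refine (Finset.sum_disjSum _ _ _).trans ?_
      rw [Finset.sum_sigma]
      rfl
    have e2 : ∀ q : Q0, ∑ b ∈ box (bq (B.R.L q.1 x)),
        η q x * θ (fun i => bq (B.R.L q.1 x) i - b i) = η q x := by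
      intro q
      rw [← Finset.mul_sum, box_sum θ hθ3 hθ4, mul_one]
    rw [e1, Finset.sum_filter_of_ne fun γ _ h => subset_closure h,
      Finset.sum_congr rfl fun q _ => e2 q, Finset.sum_filter_of_ne fun q _ h => subset_closure h,
      add_comm, ← finsum_eq_sum_of_fintype]
    exact a12 x (hne x hx)
  have hwsm : ∀ i, ContDiffOn ℝ ∞ (ww i) (ball 0 r \ Z) := by
    intro i
    rcases i with γ | ⟨q, b⟩
    · exact (a1 γ).mono fun x hx => hne x hx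
    · intro x hx
      refine ContDiffAt.contDiffWithinAt ?_
      refine weight_smooth (B.R.L q.1) (η q) (a2 q) (fun z hz hcl => ?_) θ hθ1 b x (hne x hx)
        (off_Z B q.1 q.2 x (hZdef ▸ hx.2))
      have h3 : Mc * ‖(B.R.L q.1 z).2‖ < (B.R.L q.1 z).1 := a9 q z hz hcl
      exact lt_of_le_of_lt (by positivity) h3
  have hwn : ∀ i x, 0 ≤ ww i x := by
    intro i x
    rcases i with γ | ⟨q, b⟩
    · exact a3 γ x
    · exact mul_nonneg (a4 q x) (hθ2 _)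
  have hAs : ∀ i, ContDiff ℝ ∞ (AA i) := by
    intro i
    rcases i with γ | ⟨q, b⟩
    · exact D.F_smooth γ
    · exact br_smooth B.R D q.1 b
  let T : TData D :=
    { ι := ι
      g := gg
      A := AA
      w := ww
      act := aa
      Z := Z
      ϱ := ϱ
      r := r
      lam := 2 * lam
      K := F.card + Fintype.card Q0 * 3 ^ k
      r_pos := hr0
      r_le := hr1r
      r_le' := hrD
      lam_pos := by positivity
      lam_lt := by linarith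
      Z_closed := hZc
      zero_mem := hZ0
      Z_int := hZdef ▸ ZB_int k hk R
      ϱ_pos := fun x hx => hϱ0 x hx.2
      ϱ_le := fun x _ => hϱ1 x
      ϱ_Z := ⟨C2, fun x hx z hz => (hϱ2 x).trans (mul_le_mul_of_nonneg_left
        ((infDist_le_dist_of_mem hz).trans (le_of_eq (dist_eq_norm x z))) hC2a.le)⟩
      A_smooth := hAs
      w_smooth := hwsm
      w_nonneg := hwn
      act_card := fun x _ => hcard x
      act_nhds := hnh
      w_sum := hws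
      w_bound := hwb
      g_bound := hgb
      A_flat := hAf
      A_le := hAle
      A_act := hAact }
  refine ⟨T, hZdef, rfl, ⟨cl, hcl0, fun x _ => hlow x⟩, ?_⟩
  intro w hw
  have g1 : ∀ᶠ x in 𝓝 (0 : EE (k + 1)), ∀ γ ∈ F, w (D.F γ x) = rhoG Γ γ (w x) := by
    rw [Filter.eventually_all_finset]
    exact fun γ _ => hw γ
  have g2 : ∀ᶠ x in 𝓝 (0 : EE (k + 1)), ∀ (q : Q0) (p : Fin k × Bool),
      w (D.F (B.R.uB q.1 p) x) = rhoG Γ (B.R.uB q.1 p) (w x) := by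
    rw [Filter.eventually_all]
    intro q
    rw [Filter.eventually_all]
    exact fun p => hw _
  obtain ⟨s1, hs1, hs1'⟩ := Metric.eventually_nhds_iff_ball.1 g1
  obtain ⟨s2, hs2, hs2'⟩ := Metric.eventually_nhds_iff_ball.1 g2
  refine ⟨min (min s1 r) (s2 / C0), lt_min (lt_min hs1 hr0) (by positivity), ?_⟩
  intro x hx i hi
  have hx1 : ‖x‖ < min (min s1 r) (s2 / C0) := by
    have := hx.1
    rwa [mem_ball_zero_iff] at this
  have hxr : x ∈ ball (0 : EE (k + 1)) r \ Z :=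
    ⟨mem_ball_zero_iff.2 (hx1.trans_le ((min_le_left _ _).trans (min_le_right _ _))), hx.2⟩
  have hxs1 : x ∈ ball (0 : EE (k + 1)) s1 :=
    mem_ball_zero_iff.2 (hx1.trans_le ((min_le_left _ _).trans (min_le_left _ _)))
  have hxs2 : C0 * ‖x‖ < s2 := by
    have h3 := hx1.trans_le (min_le_right _ _)
    rwa [lt_div_iff₀ hC00, mul_comm] at h3
  rcases i with γ | ⟨q, b⟩
  · exact hs1' x hxs1 γ ((hin1 γ x).1 hi).1
  · have hq := (hin2 q b x).1 hi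
    refine br_equi B.R D q.1 w s2 (fun p y hy => hs2' y hy q p) b x fun l' hl' => ?_
    rw [mem_ball_zero_iff]
    exact ((hbr q x hxr hq.1 b hq.2).2.2.2 l' hl').trans_lt hxs2

end LatLin.B
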