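import Pool.Agent.Lib.MP_2392aa_gt.B.EquiB
import Pool.Agent.Lib.MP_2392aa_gt.B.TDataB
import Pool.Agent.Lib.MP_2392aa_gt.B.RaysEx
import Pool.Agent.Lib.MP_2392aa_gt.B.RaysLoc
import Pool.Agent.Lib.MP_2392aa_gt.C.Form
import Pool.Agent.Lib.MP_2392aa_gt.C.Uniq
import Pool.Agent.Lib.MP_2392aa_gt.C.TOp
import Pool.Agent.Lib.MP_2392aa_gt.C.CoreN

/-!
MODULE CoreB. The analytic theorem for finite index subgroups of `SL_n(ℤ)`, `n = k + 1 ≥ 3`.

PROOF. `exists_flat`: we may assume `D.IsFlat` (which is `P1 D`). `conn_B` gives `S`, `Cc` (`ConnPoly.mono`: `Cc ≥ 1`).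
`S` generates `Γ`: connect `1` to any `g ∈ Γ` (take `w` large, `x = 0`). `Lb ≥ 1` bounds `nrm σ`, `nrm σ⁻¹`,
`σ ∈ S`. `lam = 1 / (160 Cc Lb)`. `contract_B` for `lam`: `R0`; `R = max R0 2`, `R' = Lb * R`
(so `4 * (2 lam) * R' ≤ R`). `exists_raysB`, `rays_loc` gives `D'`, `κ`, `κ'`, `P1 D'`, `P2 B.R D'`. `exists_TDataB` gives `T`;
`lin3_of_P2`; `CtxB D' T R R'`. `exists_sol` gives `φ`, `equi_B` the equivariance for `S`, `lin_of_gen`:
`D'.Lin` (`S` as a set of elements of the subgroup type). `D'.Lin → D.Lin`: from `φ'` take `φ' ∘ κ'`; near `0`,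
`D'.F γ (κ' z) = κ' (D.F γ (κ (κ' z))) = κ' (D.F γ z)`. `Unique` for `D'`: `uniq_of_TData` with the last property of
`exists_TDataB`. `D'.Unique → D.Unique`: for `w` take `w ∘ κ`: near `0`
`w (κ (D'.F γ x)) = w (κ (κ' (D.F γ (κ x)))) = w (D.F γ (κ x)) = ρ γ (w (κ x))`; `w ∘ κ = 0` near `0`
gives `w = 0` near `0` (`κ ∘ κ' = id`).
-/

open scoped ContDiff Topology
open Metric Filter

namespace LatLin.B

private theorem cb_gen {k : ℕ} (Γ : Subgroup (SLZ (k + 1))) (S : Finset (SLZ (k + 1))) (C : ℕ)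
    (h : ConnPoly Γ S C) : Subgroup.closure {σ : Γ | (σ : SLZ (k + 1)) ∈ S} = ⊤ := by
  rw [eq_top_iff]
  rintro ⟨g, hg⟩ -
  obtain ⟨m, γ, -, h0, hm, hst, hall⟩ := h.2 (max 2 (nrm (g * 1⁻¹))) 0 0 1 g Γ.one_mem hg
    (le_max_left _ _) (by simp) (by simp) (le_max_right _ _)
  have key : ∀ t, t ≤ m → ∀ hγ : γ t ∈ Γ,
      (⟨γ t, hγ⟩ : Γ) ∈ Subgroup.closure {σ : Γ | (σ : SLZ (k + 1)) ∈ S} := by
    intro t
    induction t with
    | zero =>
      intro _ hγ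
      have h1 : (⟨γ 0, hγ⟩ : Γ) = 1 := Subtype.ext h0
      rw [h1]
      exact Subgroup.one_mem _
    | succ t ih =>
      intro ht hγ
      have hγt := (hall t (by omega)).1
      have h1 := ih (by omega) hγt
      have hs := hst t (by omega)
      have h2 : (⟨γ (t + 1) * (γ t)⁻¹, h.1 _ hs⟩ : Γ) ∈
          Subgroup.closure {σ : Γ | (σ : SLZ (k + 1)) ∈ S} := Subgroup.subset_closure hs
      have h3 := Subgroup.mul_mem _ h2 h1
      have h4 : (⟨γ (t + 1) * (γ t)⁻¹, h.1 _ hs⟩ : Γ) * ⟨γ t, hγt⟩ = ⟨γ (t + 1), hγ⟩ :=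
        Subtype.ext (by simp)
      rwa [h4] at h3
  have h6 : γ m ∈ Γ := by rw [hm]; exact hg
  have h7 := key m le_rfl h6
  have h5 : (⟨γ m, h6⟩ : Γ) = ⟨g, hg⟩ := Subtype.ext hm
  rwa [h5] at h7

private theorem cb_flat {E : Type*} [NormedAddCommGroup E] [NormedSpace ℝ E] {φ : E → E}
    (hφ : ContDiff ℝ ∞ φ) (hf : FlatAt (fun x => φ x - x) 0) :
    φ 0 = 0 ∧ HasFDerivAt φ (ContinuousLinearMap.id ℝ E) 0 := by
  have hf0 : φ 0 = 0 := by
    have h1 := hf 0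
    have h2 : ‖iteratedFDeriv ℝ 0 (fun x => φ x - x) 0‖ = ‖φ 0 - 0‖ := norm_iteratedFDeriv_zero
    rw [h1, norm_zero, sub_zero] at h2
    exact norm_eq_zero.mp h2.symm
  have hd0 : HasFDerivAt φ (ContinuousLinearMap.id ℝ E) 0 := by
    have h1 := hf 1
    have h2 : ‖iteratedFDeriv ℝ 1 (fun x => φ x - x) 0‖ = ‖fderiv ℝ (fun x => φ x - x) 0‖ :=
      norm_iteratedFDeriv_one _
    rw [h1, norm_zero] at h2
    have h3 : fderiv ℝ (fun x => φ x - x) 0 = 0 := norm_eq_zero.mp h2.symm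
    have h4 : DifferentiableAt ℝ φ 0 := hφ.contDiffAt.differentiableAt (by decide)
    have h5 : HasFDerivAt (fun x => φ x - x) (fderiv ℝ φ 0 - ContinuousLinearMap.id ℝ E) 0 :=
      h4.hasFDerivAt.sub (hasFDerivAt_id 0)
    rw [h5.fderiv, sub_eq_zero] at h3
    rw [← h3]
    exact h4.hasFDerivAt
  exact ⟨hf0, hd0⟩

private theorem cb_transport {E : Type*} [NormedAddCommGroup E] [InnerProductSpace ℝ E]
    [FiniteDimensional ℝ E] {Γ M : Type*} [Group Γ] [TopologicalSpace M] [MulAction Γ M]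
    {ρ : Γ →* (E ≃L[ℝ] E)} (D D' : LocData (M := M) ρ) (κ κ' : E → E) (hκ : ContDiff ℝ ∞ κ)
    (hκ' : ContDiff ℝ ∞ κ') (hf : FlatAt (fun x => κ x - x) 0)
    (hf' : FlatAt (fun x => κ' x - x) 0) (h1 : ∀ᶠ x in 𝓝 (0 : E), κ' (κ x) = x)
    (h2 : ∀ᶠ x in 𝓝 (0 : E), κ (κ' x) = x) (hF : ∀ γ x, D'.F γ x = κ' (D.F γ (κ x)))
    (hL : D'.Lin) (hU : D'.Unique) : D.Lin ∧ D.Unique := by
  obtain ⟨hκ0, hκd⟩ := cb_flat hκ hf
  obtain ⟨hκ0', hκd'⟩ := cb_flat hκ' hf'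
  have ht : Tendsto κ (𝓝 0) (𝓝 0) := by
    have := hκ.continuous.tendsto 0
    rwa [hκ0] at this
  have ht' : Tendsto κ' (𝓝 0) (𝓝 0) := by
    have := hκ'.continuous.tendsto 0
    rwa [hκ0'] at this
  constructor
  · obtain ⟨φ, hφ, hφ0, hφd, hφe⟩ := hL
    refine ⟨fun x => φ (κ' x), hφ.comp hκ', ?_, ?_, fun γ => ?_⟩
    · show φ (κ' 0) = 0
      rw [hκ0', hφ0]
    · have h3 : HasFDerivAt φ (ContinuousLinearMap.id ℝ E) (κ' 0) := by rwa [hκ0']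
      have h4 := h3.comp (0 : E) hκd'
      rw [ContinuousLinearMap.id_comp] at h4
      exact h4
    · filter_upwards [h2, ht'.eventually (hφe γ)] with z hz1 hz2
      rw [hF, hz1] at hz2
      exact hz2
  · intro w hw hw0 hwd hwe
    have h3 : ∀ᶠ x in 𝓝 (0 : E), w (κ x) = 0 := by
      refine hU (fun x => w (κ x)) (hw.comp hκ) (by show w (κ 0) = 0; rw [hκ0, hw0]) ?_
        fun γ => ?_
      · have h3 : HasFDerivAt w (0 : E →L[ℝ] E) (κ 0) := by rwa [hκ0]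
        have h4 := h3.comp (0 : E) hκd
        rw [ContinuousLinearMap.zero_comp] at h4
        exact h4
      · have h5 : Tendsto (fun x => D.F γ (κ x)) (𝓝 0) (𝓝 0) := (D.F_tendsto γ).comp ht
        filter_upwards [h5.eventually h2, ht.eventually (hwe γ)] with x hx1 hx2
        rw [hF, hx1, hx2]
    filter_upwards [h2, ht'.eventually h3] with z hz1 hz2
    rw [hz1] at hz2
    exact hz2

private theorem cb_flatcase {k : ℕ} (hk : 2 ≤ k) (Γ : Subgroup (SLZ (k + 1))) [Γ.FiniteIndex]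
    (hNo : NoInv (rhoG Γ)) {M : Type*} [TopologicalSpace M]
    [MulAction Γ M] (D : LocData (M := M) (rhoG Γ)) (hD : D.IsFlat) : D.Lin ∧ D.Unique := by
  have hk1 : 1 ≤ k := by omega
  obtain ⟨S, C0, hC0⟩ := conn_B Γ
  have hconn0 : ConnPoly Γ S C0 := hC0
  have hconn : ConnPoly Γ S (max C0 1) := hconn0.mono (le_max_left _ _)
  set Cc : ℕ := max C0 1 with hCcdef
  have hCc : 1 ≤ Cc := le_max_right _ _
  obtain ⟨Lb, hLb, hS⟩ : ∃ Lb : ℝ, 1 ≤ Lb ∧ ∀ σ ∈ S, nrm σ ≤ Lb ∧ nrm σ⁻¹ ≤ Lb := by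
    have hn : ∀ g : SLZ (k + 1), 0 ≤ nrm g := fun g => norm_nonneg _
    refine ⟨1 + ∑ σ ∈ S, (nrm σ + nrm σ⁻¹), ?_, fun σ hσ => ?_⟩
    · have : 0 ≤ ∑ σ ∈ S, (nrm σ + nrm σ⁻¹) :=
        Finset.sum_nonneg fun σ _ => add_nonneg (hn _) (hn _)
      linarith
    · have h1 : nrm σ + nrm σ⁻¹ ≤ ∑ σ ∈ S, (nrm σ + nrm σ⁻¹) :=
        Finset.single_le_sum (f := fun σ => nrm σ + nrm σ⁻¹)
          (fun σ _ => add_nonneg (hn _) (hn _)) hσ
      have h2 := hn σ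
      have h3 := hn σ⁻¹
      constructor <;> linarith
  have hCcR : (1 : ℝ) ≤ (Cc : ℝ) := by exact_mod_cast hCc
  have hCL : (1 : ℝ) ≤ Cc * Lb := by nlinarith
  have hCLpos : (0 : ℝ) < Cc * Lb := by linarith
  obtain ⟨lam, hlamdef⟩ : ∃ lam : ℝ, lam = 1 / (160 * (Cc * Lb)) := ⟨_, rfl⟩
  have hlam : 0 < lam := by rw [hlamdef]; positivity
  have hlamCL : lam * (160 * (Cc * Lb)) = 1 := by
    rw [hlamdef]
    field_simp
  have hlam4 : lam < 1 / 4 := by nlinarith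
  obtain ⟨R0, hR0, hcontr⟩ := contract_B hk1 Γ lam hlam
  obtain ⟨R, hRdef⟩ : ∃ R : ℝ, R = max R0 2 := ⟨_, rfl⟩
  have hRR0 : R0 ≤ R := by rw [hRdef]; exact le_max_left _ _
  have hR2 : 2 ≤ R := by rw [hRdef]; exact le_max_right _ _
  have hR1 : 1 < R := by linarith
  have hRR : R ≤ Lb * R := by nlinarith
  obtain ⟨B⟩ := exists_raysB (k := k) Γ (Lb * R)
  obtain ⟨D', κ, κ', h1, h2, hκ, hκ', hf, hf', e1, e2, -, hF⟩ := rays_loc hk B.R D hD
  obtain ⟨T, hTZ, hTlam, hlow, huniq⟩ := exists_TDataB hk1 B D' h1 h2 hR1 hRR hlam hlam4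
    (fun x hx => by
      rcases hcontr R hRR0 x hx with h | ⟨q, hq, hq2, c, hc, hxc⟩
      · exact Or.inl h
      · exact Or.inr ⟨q, hq, hq2, c, hc, hxc⟩)
  have hlin3 : Lin3 D' (Lb * R) := lin3_of_P2 hk1 Γ (Lb * R) B D' h1 h2
  have hctx : CtxB D' T R (Lb * R) :=
    { hk := hk1
      flat := h1
      lin3 := hlin3
      hZ := hTZ
      hR := hR1
      hRR := hRR
      two := by
        rw [hTlam]
        have h3 : 8 * (lam * Lb) ≤ 1 := by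
          have h4 : lam * Lb ≤ lam * (Cc * Lb) := by
            apply mul_le_mul_of_nonneg_left _ hlam.le
            nlinarith
          nlinarith
        nlinarith
      low := hlow }
  have hlam20 : 20 * Cc * Lb * T.lam ≤ 1 := by
    rw [hTlam]
    nlinarith
  obtain ⟨s, φ, hsol⟩ := T.exists_sol
  have hequi := equi_B hctx S Cc hCc hconn Lb hLb hS hlam20 le_rfl hsol
  have hLin : D'.Lin := lin_of_gen D' φ hsol.smooth hsol.flat _ (cb_gen Γ S Cc hconn)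
    (fun σ hσ => hequi σ hσ)
  have hUni : D'.Unique := by
    intro w hw h0 hd heq
    obtain ⟨s', hs', hb⟩ := huniq w heq
    exact uniq_of_TData T hNo w hw h0 hd heq s' hs' hb
  exact cb_transport D D' κ κ' hκ hκ' hf hf' e1 e2 hF hLin hUni

theorem core_B {k : ℕ} (hk : 2 ≤ k) (Γ : Subgroup (SLZ (k + 1))) [Γ.FiniteIndex]
    (hNo : NoInv (rhoG Γ)) (hFL : FormLin (rhoG Γ)) {M : Type*} [TopologicalSpace M]
    [MulAction Γ M] (D : LocData (M := M) (rhoG Γ)) : D.Lin ∧ D.Unique := by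
  obtain ⟨D0, hflat, hL0, hU0⟩ := exists_flat D hFL
  obtain ⟨hL, hU⟩ := cb_flatcase hk Γ hNo D0 hflat
  exact ⟨hL0 hL, hU0 hU⟩

end LatLin.B
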