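import Pool.Agent.Lib.MP_2392aa_gt.B.CaseDeep
import Pool.Agent.Lib.MP_2392aa_gt.B.CaseShallow

/-!
MODULE EquiB. The fixed point is equivariant.

PROOF. Let `Lb ≥ 1` bound `nrm σ`, `nrm σ⁻¹` for `σ ∈ S`, `Lb R ≤ R'`. For `σ ∈ S` and `p` `Prim` with `‖p‖ < R` or
`‖σ p‖ < R` both norms are `< R'` (`toE_actZ`, `toE p = ρ σ⁻¹ (toE (σ p))`), finitely many such pairs
(`finite_short`); `ExpB` for `p` and `σ p` by `deep_exc`, `deep_two`. `case_deep` gives `ε` (the minimum) and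
`N0`. `case_shallow` with `ε' = ε / (4 Lb²)`. Fix `N ≥` all `N0`, `N ≥ 1`, and `s1` = the minimum of all radii,
also so small that for `‖x‖ < s1`, `σ ∈ S`: `‖F σ x - ρ σ x‖ ≤ ε ‖x‖ / (2 Lb)`, `‖F σ x‖ ≤ 2 Lb ‖x‖`,
`‖F σ x‖ < T.r`, `F σ` is injective and open on the ball (derivative invertible), and
`EqB D S φ κ s1 N` for some `κ ≥ 0` (`φ - id` and `F σ - ρ σ` are flat: `ord_of_flat`).
CLAIM: `EqB … κ s1 N` implies `EqB … (κ/2) s1 N`. Let `σ ∈ S`, `0 < ‖x‖ < s1`, `x ∉ Z`, `F σ x ∉ Z`. If there is `p`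
`Prim` with (`‖p‖ < R` or `‖σ p‖ < R`) and `dr p x < ε ‖x‖`: then `dr p x > 0`, for otherwise
`x = t • toE p ≠ 0` and if `‖p‖ < R` then `x ∈ Z`; if `‖σ p‖ < R` then by `Lin3` (flat at `t • toE p`, value
zero; `s1` small) `F σ x = ρ σ x = t • toE (σ p) ∈ Z`: contradictions. Use `case_deep`. Otherwise all `q` with
`‖q‖ < R` satisfy `dr q x ≥ ε ‖x‖`, so `infDist x Z ≥ ε ‖x‖` (`ZB_dist`), and for `q` with `‖q‖ < R`,
`p = σ⁻¹ q`: `dr p x ≥ ε ‖x‖`, `dr q (ρ σ x) ≥ dr p x / Lb` (`dr_map` for `σ⁻¹`),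
`dr q (F σ x) ≥ ε ‖x‖ / (2 Lb) ≥ ε ‖F σ x‖ / (4 Lb²)`. Use `case_shallow`. The set of excluded `x` has
empty interior (`Z` closed with empty interior, `F σ` open on the ball), both sides are continuous, so
the inequality holds on the whole ball. Iterate: `κ / 2^l → 0`.
-/

open scoped ContDiff Topology
open Metric

namespace LatLin.B

variable {k : ℕ} {Γ : Subgroup (SLZ (k + 1))} {M : Type*} [TopologicalSpace M] [MulAction Γ M]

private theorem fin_up {α : Type*} (S : Set α) (hS : S.Finite) (f : α → ℝ) :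
    ∃ L : ℝ, 1 ≤ L ∧ ∀ s ∈ S, f s ≤ L := by
  obtain ⟨L, hL⟩ := (hS.image f).bddAbove
  exact ⟨max L 1, le_max_right _ _, fun s hs => (hL ⟨s, hs, rfl⟩).trans (le_max_left _ _)⟩

private theorem fin_upN {α : Type*} (S : Set α) (hS : S.Finite) (f : α → ℕ) :
    ∃ L : ℕ, ∀ s ∈ S, f s ≤ L := by
  obtain ⟨L, hL⟩ := (hS.image f).bddAbove
  exact ⟨L, fun s hs => hL ⟨s, hs, rfl⟩⟩

private theorem fin_lo {α : Type*} (S : Set α) (hS : S.Finite) (f : α → ℝ)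
    (hf : ∀ s ∈ S, 0 < f s) : ∃ L : ℝ, 0 < L ∧ L ≤ 1 ∧ ∀ s ∈ S, L ≤ f s := by
  obtain ⟨B, hB1, hB⟩ := fin_up S hS (fun s => (f s)⁻¹)
  refine ⟨B⁻¹, by positivity, inv_le_one_of_one_le₀ hB1, fun s hs => ?_⟩
  exact inv_le_of_inv_le₀ (hf s hs) (hB s hs)

private theorem small_ev' (a b : ℝ) (hb : 0 < b) :
    ∀ᶠ x in 𝓝 (0 : EE (k + 1)), a * ‖x‖ < b := by
  have h : Continuous fun x : EE (k + 1) => a * ‖x‖ := by fun_prop
  refine (h.tendsto 0).eventually_lt_const ?_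
  simpa using hb

private theorem near_fin' (D : LocData (M := M) (rhoG Γ)) (hD : D.IsFlat) (G : Set Γ)
    (hG : G.Finite) (N : ℕ) : ∃ C : ℝ, 0 ≤ C ∧ ∀ᶠ x in 𝓝 (0 : EE (k + 1)), ∀ γ ∈ G,
      ‖D.F γ x - rhoG Γ γ x‖ ≤ C * ‖x‖ ^ N := by
  have h1 : ∀ γ : Γ, Ord N (fun x => D.F γ x - rhoG Γ γ x) := fun γ =>
    ord_of_flat ((D.F_smooth γ).sub (rhoG Γ γ).contDiff) (hD γ) N
  choose C hC using h1
  obtain ⟨L, hL1, hL⟩ := fin_up G hG C
  refine ⟨L, by linarith, (Filter.eventually_all_finite hG).2 fun γ hγ => ?_⟩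
  filter_upwards [hC γ] with x hx
  exact hx.trans (mul_le_mul_of_nonneg_right (hL γ hγ) (by positivity))

private theorem le_op' {g : EE (k + 1) ≃L[ℝ] EE (k + 1)} {K : ℝ}
    (h : ‖(g : EE (k + 1) →L[ℝ] EE (k + 1))‖ ≤ K) (x : EE (k + 1)) : ‖g x‖ ≤ K * ‖x‖ :=
  ((g : EE (k + 1) →L[ℝ] EE (k + 1)).le_opNorm x).trans
    (mul_le_mul_of_nonneg_right h (norm_nonneg _))

/-- the differences of the equivariance equation vanish to all orders -/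
private theorem defect_ord' (D : LocData (M := M) (rhoG Γ)) (hD : D.IsFlat) (S : Set Γ)
    (hS : S.Finite) (φ : EE (k + 1) → EE (k + 1)) (hφ : ContDiff ℝ ∞ φ)
    (hf : FlatAt (fun x => φ x - x) 0) (N : ℕ) :
    ∃ κ : ℝ, 0 ≤ κ ∧ ∀ᶠ x in 𝓝 (0 : EE (k + 1)), ∀ σ ∈ S,
      ‖φ (D.F σ x) - rhoG Γ σ (φ x)‖ ≤ κ * ‖x‖ ^ N := by
  obtain ⟨L, hL1, hL⟩ := fin_up S hS
    (fun σ => ‖(rhoG Γ σ : EE (k + 1) →L[ℝ] EE (k + 1))‖)
  obtain ⟨C, hC⟩ := ord_of_flat (hφ.sub contDiff_id) hf N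
  obtain ⟨C2, hC2, h2⟩ := near_fin' D hD S hS N
  obtain ⟨C3, hC3, h3⟩ := near_fin' D hD S hS 1
  have hFt : ∀ᶠ x in 𝓝 (0 : EE (k + 1)), ∀ σ ∈ S,
      ‖φ (D.F σ x) - D.F σ x‖ ≤ C * ‖D.F σ x‖ ^ N :=
    (Filter.eventually_all_finite hS).2 fun σ _ => (D.F_tendsto σ).eventually hC
  refine ⟨|C| * (L + C3) ^ N + C2 + L * |C|, by positivity, ?_⟩
  filter_upwards [hC, h2, h3, hFt] with x a1 a2 a3 a4 σ hσ
  have b1 := a4 σ hσ
  have b2 := a2 σ hσ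
  have b3 := a3 σ hσ
  rw [pow_one] at b3
  have hr := le_op' (hL σ hσ)
  have b4 : ‖D.F σ x‖ ≤ (L + C3) * ‖x‖ := by
    have := norm_add_le (D.F σ x - rhoG Γ σ x) (rhoG Γ σ x)
    rw [sub_add_cancel] at this
    have := hr x
    linarith
  have b5 : ‖φ (D.F σ x) - D.F σ x‖ ≤ |C| * (L + C3) ^ N * ‖x‖ ^ N := by
    refine b1.trans ?_
    calc C * ‖D.F σ x‖ ^ N ≤ |C| * ((L + C3) * ‖x‖) ^ N := by
          gcongr
          exact le_abs_self _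
      _ = _ := by rw [mul_pow, mul_assoc]
  have b6 : ‖rhoG Γ σ (φ x - x)‖ ≤ L * |C| * ‖x‖ ^ N := by
    refine (hr _).trans ?_
    rw [mul_assoc]
    refine mul_le_mul_of_nonneg_left (a1.trans ?_) (by linarith)
    exact mul_le_mul_of_nonneg_right (le_abs_self _) (by positivity)
  have e : φ (D.F σ x) - rhoG Γ σ (φ x) =
      (φ (D.F σ x) - D.F σ x) + (D.F σ x - rhoG Γ σ x) - rhoG Γ σ (φ x - x) := by
    rw [map_sub]
    abel
  rw [e]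
  refine (norm_sub_le _ _).trans ?_
  have := norm_add_le (φ (D.F σ x) - D.F σ x) (D.F σ x - rhoG Γ σ x)
  nlinarith

/-- the maps of the action are open near the fixed point -/
private theorem open_ev (D : LocData (M := M) (rhoG Γ)) (σ : Γ) :
    ∀ᶠ y in 𝓝 (0 : EE (k + 1)), Filter.map (D.F σ) (𝓝 y) = 𝓝 (D.F σ y) := by
  have hinf : (∞ : WithTop ℕ∞) ≠ 0 := by decide
  have hfd : ∀ᶠ z in 𝓝 (0 : EE (k + 1)), ∃ L : EE (k + 1) ≃L[ℝ] EE (k + 1),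
      (L : EE (k + 1) →L[ℝ] EE (k + 1)) = fderiv ℝ (D.F σ) z := by
    have hc : ContinuousAt (fderiv ℝ (D.F σ)) 0 :=
      ((D.F_smooth σ).continuous_fderiv hinf).continuousAt
    have h1 : fderiv ℝ (D.F σ) 0 = (rhoG Γ σ : EE (k + 1) →L[ℝ] EE (k + 1)) :=
      (D.F_deriv σ).fderiv
    have h2 : Set.range ((↑) : (EE (k + 1) ≃L[ℝ] EE (k + 1)) →
        EE (k + 1) →L[ℝ] EE (k + 1)) ∈ 𝓝 (fderiv ℝ (D.F σ) 0) := by
      rw [h1]
      exact ContinuousLinearEquiv.nhds _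
    filter_upwards [hc h2] with z hz
    exact hz
  filter_upwards [hfd] with z hz
  obtain ⟨L, hL⟩ := hz
  have h3 : HasStrictFDerivAt (D.F σ) (L : EE (k + 1) →L[ℝ] EE (k + 1)) z := by
    rw [hL]
    exact (D.F_smooth σ).contDiffAt.hasStrictFDerivAt hinf
  exact h3.map_nhds_eq_of_equiv

private theorem actZ_inv_cancel {n : ℕ} (g : SLZ n) (q : Fin n → ℤ) :
    actZ g (actZ g⁻¹ q) = q := by
  have hm : ∀ a b : SLZ n, actZ (a * b) q = actZ a (actZ b q) := by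
    intro a b
    simp [actZ, Matrix.mulVec_mulVec]
  rw [← hm, mul_inv_cancel]
  simp [actZ]

theorem equi_B {D : LocData (M := M) (rhoG Γ)} {T : TData D} {R R' : ℝ} (h : CtxB D T R R')
    (S : Finset (SLZ (k + 1))) (Cc : ℕ) (hCc : 1 ≤ Cc) (hconn : ConnPoly Γ S Cc) (Lb : ℝ)
    (hLb : 1 ≤ Lb) (hS : ∀ σ ∈ S, nrm σ ≤ Lb ∧ nrm σ⁻¹ ≤ Lb) (hlam : 20 * Cc * Lb * T.lam ≤ 1)
    (hR : Lb * R ≤ R') {s : ℝ} {φ : EE (k + 1) → EE (k + 1)} (hφ : T.IsSol s φ) :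
    ∀ σ : Γ, (σ : SLZ (k + 1)) ∈ S → ∀ᶠ x in 𝓝 (0 : EE (k + 1)),
      φ (D.F σ x) = rhoG Γ σ (φ x) := by
  classical
  have hLb0 : 0 < Lb := by linarith
  have hR0 : 0 < R := by have := h.hR; linarith
  have hRR := h.hRR
  set SG : Set Γ := {σ | (σ : SLZ (k + 1)) ∈ S} with hSG
  have hSGf : SG.Finite := S.finite_toSet.preimage (Subtype.val_injective.injOn)
  have hle : ∀ σ ∈ SG, ∀ x, ‖rhoG Γ σ x‖ ≤ Lb * ‖x‖ := fun σ hσ x =>
    le_op' (g := rhoG Γ σ) (hS σ hσ).1 x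
  have hinv0 : ∀ (g : SLZ (k + 1)) (x : EE (k + 1)), rhoZ (k + 1) g⁻¹ (rhoZ (k + 1) g x) = x := by
    intro g x
    change (rhoZ (k + 1) g⁻¹ * rhoZ (k + 1) g) x = x
    rw [← map_mul, inv_mul_cancel, map_one]
    rfl
  have hle' : ∀ σ ∈ SG, ∀ x, ‖x‖ ≤ Lb * ‖rhoG Γ σ x‖ := by
    intro σ hσ x
    have h1 := le_op' (g := rhoZ (k + 1) (σ : SLZ (k + 1))⁻¹) (hS σ hσ).2
      (rhoZ (k + 1) (σ : SLZ (k + 1)) x)
    rw [hinv0] at h1
    exact h1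
  -- expansions
  have hexp : ∀ p : Fin (k + 1) → ℤ, Prim p → ‖toE p‖ < R' → ExpB D φ (toE p) := by
    intro p hp hp1
    by_cases h1 : ‖toE p‖ < R
    · exact deep_exc h hφ p hp h1
    · exact deep_two h hφ p hp (not_lt.1 h1) hp1
  -- the pairs
  set Q : Set (Γ × (Fin (k + 1) → ℤ)) := {a | a.1 ∈ SG ∧ Prim a.2 ∧
    (‖toE a.2‖ < R ∨ ‖toE (actZ (a.1 : SLZ (k + 1)) a.2)‖ < R)} with hQ
  have hQn : ∀ a ∈ Q, ‖toE a.2‖ < R' ∧ ‖toE (actZ (a.1 : SLZ (k + 1)) a.2)‖ < R' := by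
    rintro ⟨σ, p⟩ ⟨hσ, hp, h1⟩
    simp only at hσ hp h1 ⊢
    have h2 := hle σ hσ (toE p)
    have h3 := hle' σ hσ (toE p)
    have e : rhoG Γ σ (toE p) = toE (actZ (σ : SLZ (k + 1)) p) := (toE_actZ _ _).symm
    rw [e] at h2 h3
    rcases h1 with h1 | h1
    · refine ⟨by linarith, ?_⟩
      have := mul_lt_mul_of_pos_left h1 hLb0
      linarith
    · refine ⟨?_, by linarith⟩
      have := mul_lt_mul_of_pos_left h1 hLb0
      linarith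
  have hQf : Q.Finite := by
    refine (hSGf.prod (finite_short (n := k + 1) R')).subset ?_
    intro a ha
    exact ⟨ha.1, (hQn a ha).1⟩
  have hd : ∀ a : Γ × (Fin (k + 1) → ℤ), ∃ (ε : ℝ) (N0 : ℕ), 0 < ε ∧ (a ∈ Q → ∀ N ≥ N0,
      ∃ s1 : ℝ, 0 < s1 ∧ ∀ (κ s2 : ℝ), 0 ≤ κ → s2 ≤ s1 →
      EqB D S φ κ s2 N → ∀ x : EE (k + 1), ‖x‖ < s2 → 0 < dr (toE a.2) x →
        dr (toE a.2) x < ε * ‖x‖ →
        ‖φ (D.F a.1 x) - rhoG Γ a.1 (φ x)‖ ≤ κ / 2 * ‖x‖ ^ N) := by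
    intro a
    by_cases ha : a ∈ Q
    · obtain ⟨h1, h2⟩ := hQn a ha
      obtain ⟨ε, N0, hε, h3⟩ := case_deep h.flat h.lin3 S Cc hCc hconn a.1 a.2 ha.2.1 h1 h2
        (hexp _ ha.2.1 h1) (hexp _ (ha.2.1.act _) h2)
      exact ⟨ε, N0, hε, fun _ => h3⟩
    · exact ⟨1, 0, one_pos, fun h => absurd h ha⟩
  choose εd Nd hεd hNd using hd
  obtain ⟨ε, hε, hε1, hεQ⟩ := fin_lo Q hQf εd (fun a _ => hεd a)
  obtain ⟨Nd', hNd'⟩ := fin_upN Q hQf Nd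
  have hε' : 0 < ε / (4 * Lb ^ 2) := by positivity
  have hs : ∀ σ : Γ, ∃ N0 : ℕ, σ ∈ SG → ∀ N ≥ N0, ∃ s1 : ℝ, 0 < s1 ∧ ∀ (κ s2 : ℝ), 0 ≤ κ →
      s2 ≤ s1 → EqB D S φ κ s2 N → ∀ x : EE (k + 1), ‖x‖ < s2 → x ∉ T.Z → D.F σ x ∉ T.Z →
        ε / (4 * Lb ^ 2) * ‖x‖ ≤ infDist x T.Z →
        ε / (4 * Lb ^ 2) * ‖D.F σ x‖ ≤ infDist (D.F σ x) T.Z →
        ‖φ (D.F σ x) - rhoG Γ σ (φ x)‖ ≤ κ / 2 * ‖x‖ ^ N := by
    intro σ
    by_cases hσ : σ ∈ SG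
    · obtain ⟨N0, h3⟩ := case_shallow h S Cc hCc hconn hφ σ Lb hLb (hS σ hσ).1 hlam _ hε'
      exact ⟨N0, fun _ => h3⟩
    · exact ⟨0, fun h => absurd h hσ⟩
  choose Ns hNs using hs
  obtain ⟨Ns', hNs'⟩ := fin_upN SG hSGf Ns
  obtain ⟨N, hN1, hN2⟩ : ∃ N : ℕ, Nd' ≤ N ∧ Ns' ≤ N :=
    ⟨max Nd' Ns', le_max_left _ _, le_max_right _ _⟩
  -- radii
  have hrd : ∀ a : Γ × (Fin (k + 1) → ℤ), ∃ s1 : ℝ, 0 < s1 ∧ (a ∈ Q → ∀ (κ s2 : ℝ), 0 ≤ κ →
      s2 ≤ s1 → EqB D S φ κ s2 N → ∀ x : EE (k + 1), ‖x‖ < s2 → 0 < dr (toE a.2) x →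
        dr (toE a.2) x < ε * ‖x‖ →
        ‖φ (D.F a.1 x) - rhoG Γ a.1 (φ x)‖ ≤ κ / 2 * ‖x‖ ^ N) := by
    intro a
    by_cases ha : a ∈ Q
    · obtain ⟨s1, hs1, h1⟩ := hNd a ha N ((hNd' a ha).trans hN1)
      refine ⟨s1, hs1, fun _ κ s2 hκ hs2 hE x hx hx1 hx2 => h1 κ s2 hκ hs2 hE x hx hx1 ?_⟩
      exact hx2.trans_le (mul_le_mul_of_nonneg_right (hεQ a ha) (norm_nonneg _))
    · exact ⟨1, one_pos, fun h => absurd h ha⟩
  choose rd hrd0 hrd using hrd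
  have hrl : ∀ a : Γ × (Fin (k + 1) → ℤ), ∃ r : ℝ, 0 < r ∧ (a ∈ Q → ∀ x : EE (k + 1),
      ‖x‖ < r → dr (toE a.2) x = 0 → D.F a.1 x = rhoG Γ a.1 x) := by
    intro a
    by_cases ha : a ∈ Q
    · obtain ⟨r, hr, h1⟩ := lin3_bound h.lin3 a.1 a.2 ha.2.1 (hQn a ha).1 (hQn a ha).2
      obtain ⟨C, hC, h2⟩ := h1 1
      refine ⟨r, hr, fun _ x hx hx0 => ?_⟩
      have h3 := h2 x hx
      rw [hx0, pow_one, mul_zero] at h3
      exact sub_eq_zero.1 (norm_le_zero_iff.1 h3)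
    · exact ⟨1, one_pos, fun h => absurd h ha⟩
  choose rl hrl0 hrl using hrl
  have hrs : ∀ σ : Γ, ∃ s1 : ℝ, 0 < s1 ∧ (σ ∈ SG → ∀ (κ s2 : ℝ), 0 ≤ κ →
      s2 ≤ s1 → EqB D S φ κ s2 N → ∀ x : EE (k + 1), ‖x‖ < s2 → x ∉ T.Z → D.F σ x ∉ T.Z →
        ε / (4 * Lb ^ 2) * ‖x‖ ≤ infDist x T.Z →
        ε / (4 * Lb ^ 2) * ‖D.F σ x‖ ≤ infDist (D.F σ x) T.Z →
        ‖φ (D.F σ x) - rhoG Γ σ (φ x)‖ ≤ κ / 2 * ‖x‖ ^ N) := by
    intro σ
    by_cases hσ : σ ∈ SG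
    · obtain ⟨s1, hs1, h1⟩ := hNs σ hσ N ((hNs' σ hσ).trans hN2)
      exact ⟨s1, hs1, fun _ => h1⟩
    · exact ⟨1, one_pos, fun h => absurd h hσ⟩
  choose rs hrs0 hrs using hrs
  obtain ⟨r1, hr1, -, hr1Q⟩ := fin_lo Q hQf rd (fun a _ => hrd0 a)
  obtain ⟨r2, hr2, -, hr2Q⟩ := fin_lo Q hQf rl (fun a _ => hrl0 a)
  obtain ⟨r3, hr3, -, hr3Q⟩ := fin_lo SG hSGf rs (fun a _ => hrs0 a)
  obtain ⟨κ, hκ, hdef⟩ := defect_ord' D h.flat SG hSGf φ hφ.smooth hφ.flat N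
  obtain ⟨C2, hC2, hn2⟩ := near_fin' D h.flat SG hSGf 2
  have hop : ∀ᶠ y in 𝓝 (0 : EE (k + 1)), ∀ σ ∈ SG,
      Filter.map (D.F σ) (𝓝 y) = 𝓝 (D.F σ y) :=
    (Filter.eventually_all_finite hSGf).2 fun σ _ => open_ev D σ
  have ev : ∀ᶠ x in 𝓝 (0 : EE (k + 1)),
      (∀ σ ∈ SG, ‖φ (D.F σ x) - rhoG Γ σ (φ x)‖ ≤ κ * ‖x‖ ^ N) ∧
      (∀ σ ∈ SG, ‖D.F σ x - rhoG Γ σ x‖ ≤ C2 * ‖x‖ ^ 2) ∧
      (∀ σ ∈ SG, Filter.map (D.F σ) (𝓝 x) = 𝓝 (D.F σ x)) ∧ C2 * ‖x‖ < ε / (2 * Lb) := by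
    filter_upwards [hdef, hn2, hop, small_ev' (k := k) C2 (ε / (2 * Lb)) (by positivity)]
      with x a1 a2 a3 a4
    exact ⟨a1, a2, a3, a4⟩
  obtain ⟨r4, hr4, hball⟩ := Metric.eventually_nhds_iff_ball.1 ev
  obtain ⟨s1, hs1, hs11, hs12, hs13, hs14⟩ : ∃ s1 : ℝ, 0 < s1 ∧ s1 ≤ r1 ∧ s1 ≤ r2 ∧ s1 ≤ r3 ∧
      s1 ≤ r4 := by
    refine ⟨min (min r1 r2) (min r3 r4), by positivity, ?_, ?_, ?_, ?_⟩
    · exact (min_le_left _ _).trans (min_le_left _ _)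
    · exact (min_le_left _ _).trans (min_le_right _ _)
    · exact (min_le_right _ _).trans (min_le_left _ _)
    · exact (min_le_right _ _).trans (min_le_right _ _)
  have hZi : interior T.Z = ∅ := T.Z_int
  have hZc : IsClosed T.Z := T.Z_closed
  -- the halving step
  have step : ∀ κ : ℝ, 0 ≤ κ → EqB D S φ κ s1 N → EqB D S φ (κ / 2) s1 N := by
    intro κ hκ hyp
    have good : ∀ σ ∈ SG, ∀ x : EE (k + 1), ‖x‖ < s1 → x ∉ T.Z → D.F σ x ∉ T.Z →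
        ‖φ (D.F σ x) - rhoG Γ σ (φ x)‖ ≤ κ / 2 * ‖x‖ ^ N := by
      intro σ hσ x hx hxZ hyZ
      obtain ⟨-, hn, -, hc⟩ := hball x (mem_ball_zero_iff.2 (hx.trans_le hs14))
      have hx0 : x ≠ 0 := fun h0 => hxZ (h0 ▸ T.zero_mem)
      have hxpos : 0 < ‖x‖ := norm_pos_iff.2 hx0
      by_cases hcase : ∃ p, (σ, p) ∈ Q ∧ dr (toE p) x < ε * ‖x‖
      · obtain ⟨p, hp, hpd⟩ := hcase
        have hdp : 0 < dr (toE p) x := by
          have hnn : 0 ≤ dr (toE p) x := infDist_nonneg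
          rcases hnn.eq_or_lt with h0 | h0
          · exfalso
            obtain ⟨t, ht, h1⟩ := dr_exists (toE p) x
            rw [← h0] at h1
            have h2 : x = t • toE p := sub_eq_zero.1 (norm_eq_zero.1 h1.symm)
            rcases hp.2.2 with h3 | h3
            · apply hxZ
              rw [h.hZ]
              exact ⟨p, hp.2.1, h3, t, ht, h2⟩
            · apply hyZ
              rw [h.hZ]
              have h4 := hrl (σ, p) hp x (hx.trans_le (hs12.trans (hr2Q _ hp))) h0.symm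
              refine ⟨_, hp.2.1.act (σ : SLZ (k + 1)), h3, t, ht, ?_⟩
              simp only at h4
              rw [h4, toE_actZ, h2]
              exact map_smul (rhoZ (k + 1) (σ : SLZ (k + 1))) t (toE p)
          · exact h0
        exact hrd (σ, p) hp κ s1 hκ (hs11.trans (hr1Q _ hp)) hyp x hx hdp hpd
      · push Not at hcase
        have hnσ := hn σ hσ
        have hsm : ‖D.F σ x - rhoG Γ σ x‖ ≤ ε / (2 * Lb) * ‖x‖ := by
          refine hnσ.trans ?_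
          have := mul_le_mul_of_nonneg_right hc.le hxpos.le
          calc C2 * ‖x‖ ^ 2 = C2 * ‖x‖ * ‖x‖ := by ring
            _ ≤ _ := this
        have hεLb : ε / (2 * Lb) ≤ Lb := by
          rw [div_le_iff₀ (by positivity)]
          nlinarith
        have hF2 : ‖D.F σ x‖ ≤ 2 * Lb * ‖x‖ := by
          have h1 := norm_add_le (D.F σ x - rhoG Γ σ x) (rhoG Γ σ x)
          rw [sub_add_cancel] at h1
          have h2 := hle σ hσ x
          have h3 := mul_le_mul_of_nonneg_right hεLb hxpos.le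
          linarith
        have hεε : ε / (4 * Lb ^ 2) ≤ ε := by
          rw [div_le_iff₀ (by positivity)]
          have h1 : (1 : ℝ) ≤ 4 * Lb ^ 2 := by nlinarith
          exact le_mul_of_one_le_right hε.le h1
        refine hrs σ hσ κ s1 hκ (hs13.trans (hr3Q _ hσ)) hyp x hx hxZ hyZ ?_ ?_
        · rw [h.hZ]
          obtain ⟨⟨q, hq1, hq2, hq3⟩, -⟩ := ZB_dist k R h.hR x
          rw [hq3]
          have h1 := hcase q ⟨hσ, hq1, Or.inl hq2⟩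
          have h2 := mul_le_mul_of_nonneg_right hεε hxpos.le
          linarith
        · rw [h.hZ]
          obtain ⟨⟨q, hq1, hq2, hq3⟩, -⟩ := ZB_dist k R h.hR (D.F σ x)
          rw [hq3]
          have hcan := actZ_inv_cancel (σ : SLZ (k + 1)) q
          have h1 := hcase (actZ (σ : SLZ (k + 1))⁻¹ q) ⟨hσ, hq1.act _, Or.inr (by
            simp only
            rw [hcan]
            exact hq2)⟩
          have h2 := dr_map (rhoZ (k + 1) (σ : SLZ (k + 1))⁻¹) (toE q)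
            (rhoZ (k + 1) (σ : SLZ (k + 1)) x)
          rw [hinv0, ← toE_actZ] at h2
          have h3 : ‖((rhoZ (k + 1) (σ : SLZ (k + 1))⁻¹ : EE (k + 1) ≃L[ℝ] EE (k + 1)) :
              EE (k + 1) →L[ℝ] EE (k + 1))‖ ≤ Lb := (hS σ hσ).2
          have h4 := dr_add (toE q) (D.F σ x) (rhoG Γ σ x - D.F σ x)
          rw [add_sub_cancel, norm_sub_rev] at h4
          have h5 : 0 ≤ dr (toE q) (rhoZ (k + 1) (σ : SLZ (k + 1)) x) := infDist_nonneg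
          have h6 := mul_le_mul_of_nonneg_right h3 h5
          have h7 : ε * ‖x‖ ≤ Lb * dr (toE q) (rhoG Γ σ x) := h1.trans (h2.trans h6)
          have h8 : ε / Lb * ‖x‖ ≤ dr (toE q) (rhoG Γ σ x) := by
            rw [div_mul_eq_mul_div, div_le_iff₀ hLb0]
            linarith
          have h9 : ε / Lb * ‖x‖ = ε / (2 * Lb) * ‖x‖ + ε / (2 * Lb) * ‖x‖ := by
            field_simp
            ring
          have h10 : ε / (4 * Lb ^ 2) * ‖D.F σ x‖ ≤ ε / (4 * Lb ^ 2) * (2 * Lb * ‖x‖) :=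
            mul_le_mul_of_nonneg_left hF2 hε'.le
          have h11 : ε / (4 * Lb ^ 2) * (2 * Lb * ‖x‖) = ε / (2 * Lb) * ‖x‖ := by
            field_simp
            ring
          linarith
    intro σ hσ y hy
    set f : EE (k + 1) → ℝ := fun x => ‖φ (D.F σ x) - rhoG Γ σ (φ x)‖ with hf
    set g : EE (k + 1) → ℝ := fun x => κ / 2 * ‖x‖ ^ N with hg
    have hfc : Continuous f := by
      have h1 : Continuous φ := hφ.smooth.continuous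
      have h2 : Continuous (D.F σ) := (D.F_smooth σ).continuous
      have h3 : Continuous (rhoG Γ σ) := (rhoG Γ σ).continuous
      exact ((h1.comp h2).sub (h3.comp h1)).norm
    have hgc : Continuous g := by fun_prop
    have hcl : IsClosed {x | f x ≤ g x} := isClosed_le hfc hgc
    have hyc : y ∈ closure {x | f x ≤ g x} := by
      rw [mem_closure_iff_nhds]
      intro U hU
      have hU' : interior U ∩ ball (0 : EE (k + 1)) s1 ∈ 𝓝 y :=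
        Filter.inter_mem (interior_mem_nhds.2 hU) (isOpen_ball.mem_nhds hy)
      -- a point outside of Z
      obtain ⟨z, hz, hzZ⟩ : ∃ z ∈ interior U ∩ ball (0 : EE (k + 1)) s1, z ∉ T.Z := by
        by_contra hcon
        push Not at hcon
        have h1 : interior U ∩ ball (0 : EE (k + 1)) s1 ⊆ interior T.Z :=
          interior_maximal (fun z hz => hcon z hz) (isOpen_interior.inter isOpen_ball)
        have h2 := h1 (mem_of_mem_nhds hU')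
        rw [hZi] at h2
        exact h2
      have hV : (interior U ∩ ball (0 : EE (k + 1)) s1) ∩ T.Zᶜ ∈ 𝓝 z :=
        ((isOpen_interior.inter isOpen_ball).inter hZc.isOpen_compl).mem_nhds ⟨hz, hzZ⟩
      obtain ⟨-, -, hopz, -⟩ := hball z (ball_subset_ball hs14 hz.2)
      have hW : D.F σ '' ((interior U ∩ ball (0 : EE (k + 1)) s1) ∩ T.Zᶜ) ∈ 𝓝 (D.F σ z) := by
        rw [← hopz σ hσ]
        exact Filter.image_mem_map hV
      obtain ⟨w, hw, hwZ⟩ : ∃ w ∈ (interior U ∩ ball (0 : EE (k + 1)) s1) ∩ T.Zᶜ,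
          D.F σ w ∉ T.Z := by
        by_contra hcon
        push Not at hcon
        have h1 : D.F σ '' ((interior U ∩ ball (0 : EE (k + 1)) s1) ∩ T.Zᶜ) ⊆ T.Z := by
          rintro _ ⟨w, hw, rfl⟩
          exact hcon w hw
        have h2 : D.F σ z ∈ interior T.Z := mem_interior_iff_mem_nhds.2 (Filter.mem_of_superset hW h1)
        rw [hZi] at h2
        exact h2
      exact ⟨w, interior_subset hw.1.1, good σ hσ w (mem_ball_zero_iff.1 hw.1.2) hw.2 hwZ⟩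
    rw [hcl.closure_eq] at hyc
    exact hyc
  -- iteration
  have iter : ∀ n : ℕ, EqB D S φ (κ / 2 ^ n) s1 N := by
    intro n
    induction n with
    | zero =>
      intro σ hσ x hx
      rw [pow_zero, div_one]
      exact (hball x (ball_subset_ball hs14 hx)).1 σ hσ
    | succ n ih =>
      have h := step (κ / 2 ^ n) (by positivity) ih
      rwa [div_div, ← pow_succ] at h
  intro σ hσ
  filter_upwards [ball_mem_nhds (0 : EE (k + 1)) hs1] with x hx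
  have ht : Filter.Tendsto (fun n : ℕ => κ / 2 ^ n * ‖x‖ ^ N) Filter.atTop
      (𝓝 (0 * ‖x‖ ^ N)) := by
    refine Filter.Tendsto.mul_const _ ?_
    have h1 : Filter.Tendsto (fun n : ℕ => κ * (1 / 2 : ℝ) ^ n) Filter.atTop (𝓝 (κ * 0)) :=
      (tendsto_pow_atTop_nhds_zero_of_lt_one (by norm_num) (by norm_num)).const_mul _
    rw [mul_zero] at h1
    refine h1.congr fun n => ?_
    rw [one_div, inv_pow, div_eq_mul_inv]
  rw [zero_mul] at ht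
  have h0 : ‖φ (D.F σ x) - rhoG Γ σ (φ x)‖ ≤ 0 :=
    ge_of_tendsto ht (Filter.Eventually.of_forall fun n => iter n σ hσ x hx)
  exact sub_eq_zero.1 (norm_le_zero_iff.1 h0)

end LatLin.B
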