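import Mathlib

/-!
MP_2392aa_gt, class B: the linear action of `SL_n(ℤ)` on Euclidean space. Definitions.
-/

open scoped ContDiff Topology

namespace LatLin.B

/-- Euclidean space -/
abbrev EE (n : ℕ) : Type := EuclideanSpace ℝ (Fin n)

/-- the special linear group over the integers -/
abbrev SLZ (n : ℕ) : Type := Matrix.SpecialLinearGroup (Fin n) ℤ

/-- the linear action of `SL_n(ℤ)` on Euclidean space -/
noncomputable def rhoZ (n : ℕ) : SLZ n →* (EE n ≃L[ℝ] EE n) where
  toFun g := ((EuclideanSpace.equiv (Fin n) ℝ).toLinearEquiv.trans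
    ((Matrix.SpecialLinearGroup.toLin' (Matrix.SpecialLinearGroup.map (Int.castRingHom ℝ) g)).trans
      (EuclideanSpace.equiv (Fin n) ℝ).toLinearEquiv.symm)).toContinuousLinearEquiv
  map_one' := by
    ext x i
    simp
    rfl
  map_mul' g h := by
    ext x i
    simp
    rfl

theorem rhoZ_apply {n : ℕ} (g : SLZ n) (x : EE n) (i : Fin n) :
    rhoZ n g x i = ∑ j, ((g : Matrix (Fin n) (Fin n) ℤ) i j : ℝ) * x j := by
  change (Matrix.SpecialLinearGroup.toLin'
    ((Matrix.SpecialLinearGroup.map (Int.castRingHom ℝ)) g)) (fun j => x j) i = _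
  simp [Matrix.SpecialLinearGroup.toLin'_apply, Matrix.mulVec, dotProduct]

/-- the action on integer vectors -/
def actZ {n : ℕ} (g : SLZ n) (q : Fin n → ℤ) : Fin n → ℤ :=
  (g : Matrix (Fin n) (Fin n) ℤ).mulVec q

/-- an integer vector as a vector of Euclidean space -/
noncomputable def toE {n : ℕ} (q : Fin n → ℤ) : EE n := WithLp.toLp 2 (fun i => (q i : ℝ))

/-- primitive vectors: the orbit of the first basis vector -/
def Prim {k : ℕ} (q : Fin (k + 1) → ℤ) : Prop := ∃ g : SLZ (k + 1), actZ g q = Pi.single 0 1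

end LatLin.B
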