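import Pool.Agent.Lib.MP_2392aa_gt.C.Ifc
import Pool.Agent.Lib.MP_2392aa_gt.B.GroupDefs
import Pool.Agent.Lib.MP_2392aa_gt.B.Prep
import Pool.Agent.Lib.MP_2392aa_gt.B.ConnB

/-!
MP_2392aa_gt, class B: rays of short primitive vectors, definitions.
-/

open scoped ContDiff Topology
open Metric

namespace LatLin.B

/-- the linear representation of a subgroup of `SL_n(ℤ)` -/
noncomputable def rhoG {k : ℕ} (Γ : Subgroup (SLZ (k + 1))) :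
    Γ →* (EE (k + 1) ≃L[ℝ] EE (k + 1)) := (rhoZ (k + 1)).comp Γ.subtype

/-- the closed ray of a vector -/
def ray {E : Type*} [NormedAddCommGroup E] [NormedSpace ℝ E] (v : E) : Set E :=
  {x | ∃ t : ℝ, 0 ≤ t ∧ x = t • v}

/-- the distance to the ray of `v` -/
noncomputable def dr {E : Type*} [NormedAddCommGroup E] [NormedSpace ℝ E] (v x : E) : ℝ :=
  infDist x (ray v)

/-- the union of the rays of the primitive vectors of norm less than `R` -/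
def ZB (k : ℕ) (R : ℝ) : Set (EE (k + 1)) :=
  {x | ∃ q : Fin (k + 1) → ℤ, Prim q ∧ ‖toE q‖ < R ∧ x ∈ ray (toE q)}

/-- the rays of all primitive vectors of norm less than `R'`, with unipotents of `Γ` -/
structure RaysB (k : ℕ) (Γ : Subgroup (SLZ (k + 1))) (R' : ℝ) where
  R : Rays k (rhoG Γ)
  N : ℕ
  vec : R.ι → (Fin (k + 1) → ℤ)
  prim : ∀ q, Prim (vec q)
  short : ∀ q, ‖toE (vec q)‖ < R'
  surj : ∀ v : Fin (k + 1) → ℤ, Prim v → ‖toE v‖ < R' → ∃ q, vec q = v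
  inj : Function.Injective vec
  dir : ∀ q, ∃ c : ℝ, 0 < c ∧ R.L q (toE (vec q)) = ((c, 0) : E0 k)
  clos : ∀ (q : R.ι) (g : Γ), g ∈ Subgroup.closure (Set.range (R.u q)) ↔
    ∃ l : Fin (k + 1) → ℤ, ∑ i, l i * vec q i = 0 ∧
      ((g : SLZ (k + 1)) : Matrix (Fin (k + 1)) (Fin (k + 1)) ℤ) =
        1 + (N : ℤ) • Matrix.vecMulVec (vec q) l

/-- connectivity with polynomial bounds (the conclusion of `conn_B`) -/
def ConnPoly {k : ℕ} (Γ : Subgroup (SLZ (k + 1))) (S : Finset (SLZ (k + 1))) (C : ℕ) : Prop :=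
  (∀ s ∈ S, s ∈ Γ) ∧
    ∀ (X w : ℝ) (x : EE (k + 1)) (g g' : SLZ (k + 1)), g ∈ Γ → g' ∈ Γ → 2 ≤ X →
      ‖rhoZ _ g x‖ ≤ w → ‖rhoZ _ g' x‖ ≤ w → nrm (g' * g⁻¹) ≤ X →
      ∃ (m : ℕ) (γ : ℕ → SLZ (k + 1)), (m : ℝ) ≤ X ^ C ∧ γ 0 = g ∧ γ m = g' ∧
        (∀ t < m, γ (t + 1) * (γ t)⁻¹ ∈ S) ∧
        ∀ t ≤ m, γ t ∈ Γ ∧ ‖rhoZ _ (γ t) x‖ ≤ C * w ∧ nrm (γ t * g⁻¹) ≤ X ^ C ∧
          nrm (g * (γ t)⁻¹) ≤ X ^ C

variable {k : ℕ} {Γ : Subgroup (SLZ (k + 1))} {M : Type*} [TopologicalSpace M] [MulAction Γ M]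

/-- elements mapping short primitive vectors to short primitive vectors are linear to infinite
order along their rays -/
def Lin3 (D : LocData (M := M) (rhoG Γ)) (R' : ℝ) : Prop :=
  ∀ (γ : Γ) (p : Fin (k + 1) → ℤ), Prim p → ‖toE p‖ < R' →
    ‖toE (actZ (γ : SLZ (k + 1)) p)‖ < R' → ∃ r : ℝ, 0 < r ∧ ∀ t : ℝ, 0 ≤ t → t < r →
      FlatAt (fun x => D.F γ x - rhoG Γ γ x) (t • toE p)

/-- `g` moves `x` to the small vector `a` -/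
def Good (D : LocData (M := M) (rhoG Γ)) (x : EE (k + 1)) (δ C : ℝ) (c N : ℕ) (CN : ℝ) (g : Γ)
    (a : EE (k + 1)) : Prop :=
  D.χ a = g • D.χ x ∧ ‖rhoG Γ g x‖ ≤ C * δ ∧ sz (rhoG Γ g) ≤ C * (‖x‖ / δ) ^ c ∧
    ‖a - rhoG Γ g x‖ ≤ CN * δ ^ N ∧ ‖a‖ ≤ C * δ

/-- near the ray of `p` the value of `φ` is a convex combination of values at the scale of the
distance to the ray -/
def ExpB (D : LocData (M := M) (rhoG Γ)) (φ : EE (k + 1) → EE (k + 1)) (p : EE (k + 1)) : Prop :=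
  ∃ (C ε s1 : ℝ) (c : ℕ), 1 ≤ C ∧ 0 < ε ∧ 0 < s1 ∧ ∀ N : ℕ, ∃ CN : ℝ, 0 ≤ CN ∧
    ∀ x : EE (k + 1), ‖x‖ < s1 → 0 < dr p x → dr p x < ε * ‖x‖ →
      φ x ∈ convexHull ℝ {v | ∃ (g : Γ) (a : EE (k + 1)),
        Good D x (dr p x) C c N CN g a ∧ v = (rhoG Γ g)⁻¹ (φ a)}

/-- the situation of the equivariance argument -/
structure CtxB (D : LocData (M := M) (rhoG Γ)) (T : TData D) (R R' : ℝ) : Prop where
  hk : 1 ≤ k
  flat : D.IsFlat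
  lin3 : Lin3 D R'
  hZ : T.Z = ZB k R
  hR : 1 < R
  hRR : R ≤ R'
  two : 4 * T.lam * R' ≤ R
  low : ∃ c : ℝ, 0 < c ∧ ∀ x ∈ ball (0 : EE (k + 1)) T.r \ T.Z, c * infDist x T.Z ≤ T.ϱ x

/-- equivariance up to `κ ‖x‖^N` on the ball of radius `s` -/
def EqB (D : LocData (M := M) (rhoG Γ)) (S : Finset (SLZ (k + 1)))
    (φ : EE (k + 1) → EE (k + 1)) (κ s : ℝ) (N : ℕ) : Prop :=
  ∀ σ : Γ, (σ : SLZ (k + 1)) ∈ S → ∀ y ∈ ball (0 : EE (k + 1)) s,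
    ‖φ (D.F σ y) - rhoG Γ σ (φ y)‖ ≤ κ * ‖y‖ ^ N

end LatLin.B
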