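import Pool.Agent.Lib.MP_2392aa_gt.B.ZGeo
import Pool.Agent.Lib.MP_2392aa_gt.C.Track

/-!
MODULE PairB. Comparison of two expansions along a chain.

PROOF of `pair_cost`. Let `x, a, a', g, h, c, B, e` be given, `X = B^2 ≥ 2`. `nrm (h g⁻¹) ≤ nrm h * nrm g⁻¹ ≤ X`
(`sz_rhoG`). The connectivity property with `w = c` gives `m ≤ X^Cc` and `γ 0 = g, …, γ m = h` in `Γ` (as
elements of the subgroup type: define `δ t : Γ`; the values `γ t` for `t > m` are irrelevant, put `δ t = h`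
there) with `‖ρ (δ t) x‖ ≤ Cc c`, `nrm (γ t g⁻¹) ≤ X^Cc`, `nrm (g (γ t)⁻¹) ≤ X^Cc`. `track` with
`S := {s : Γ | (s : SLZ) ∈ S}` (finite), `x`, `x0 := a`, `c := Cc c`, `K := X^(2 Cc)`
(`‖ρ (δ l (δ k)⁻¹)‖ ≤ nrm (γ l g⁻¹) nrm (g (γ k)⁻¹)`), `ε := e`, exponent `N2`; its smallness
hypotheses follow from the assumptions (`m ≤ X^Cc`; `2 (Cc c) < s1 ≤ r1`). `xs m = a'` by injectivity of `χ`
on `ball 0 D.r0`. `chain_cost` with `κ`, radius `s1`; `‖(ρ (δ (t+1)))⁻¹‖ = nrm (γ (t+1))⁻¹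
≤ nrm g⁻¹ * nrm (g (γ (t+1))⁻¹) ≤ B X^Cc`, `‖xs t‖ ≤ 2 Cc c`, `m ≤ X^Cc`.
PROOF of `convex_bound`: the set of `v` with `‖v - z‖ ≤ t` is convex (twice), `ℓ` is linear.
-/

open scoped ContDiff Topology
open Metric

namespace LatLin.B

theorem convex_bound {E : Type*} [NormedAddCommGroup E] [NormedSpace ℝ E] (A B : Set E)
    (ℓ : E →L[ℝ] E) (t : ℝ) (h : ∀ a ∈ A, ∀ b ∈ B, ‖b - ℓ a‖ ≤ t) (a b : E)
    (ha : a ∈ convexHull ℝ A) (hb : b ∈ convexHull ℝ B) : ‖b - ℓ a‖ ≤ t := by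
  have h1 : ∀ a ∈ A, ∀ b ∈ convexHull ℝ B, ‖b - ℓ a‖ ≤ t := by
    intro a ha b hb
    have h2 : convexHull ℝ B ⊆ closedBall (ℓ a) t :=
      convexHull_min (fun b hb => by
        rw [mem_closedBall, dist_eq_norm]
        exact h a ha b hb) (convex_closedBall _ _)
    have h3 := h2 hb
    rwa [mem_closedBall, dist_eq_norm] at h3
  have h2 : convexHull ℝ A ⊆ (ℓ : E →ₗ[ℝ] E) ⁻¹' closedBall b t :=
    convexHull_min (fun a ha => by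
      rw [Set.mem_preimage, mem_closedBall, dist_eq_norm, norm_sub_rev]
      exact h1 a ha b hb) ((convex_closedBall _ _).linear_preimage _)
  have h3 := h2 ha
  rw [Set.mem_preimage, mem_closedBall, dist_eq_norm, norm_sub_rev] at h3
  exact h3

theorem ConnPoly.mono {k : ℕ} {Γ : Subgroup (SLZ (k + 1))} {S : Finset (SLZ (k + 1))} {C C' : ℕ}
    (h : ConnPoly Γ S C) (hC : C ≤ C') : ConnPoly Γ S C' := by
  obtain ⟨h1, h2⟩ := h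
  refine ⟨h1, ?_⟩
  intro X w x g g' hg hg' hX hw hw' hn
  obtain ⟨m, γ, hm, h0, hmm, hs, ht⟩ := h2 X w x g g' hg hg' hX hw hw' hn
  have hw0 : 0 ≤ w := (norm_nonneg _).trans hw
  have hXp : X ^ C ≤ X ^ C' := pow_le_pow_right₀ (by linarith) hC
  have hCw : (C : ℝ) * w ≤ C' * w := by
    have : (C : ℝ) ≤ C' := by exact_mod_cast hC
    exact mul_le_mul_of_nonneg_right this hw0
  refine ⟨m, γ, hm.trans hXp, h0, hmm, hs, fun t htm => ?_⟩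
  obtain ⟨a1, a2, a3, a4⟩ := ht t htm
  exact ⟨a1, a2.trans hCw, a3.trans hXp, a4.trans hXp⟩

private theorem rhoG_nrm {k : ℕ} (Γ : Subgroup (SLZ (k + 1))) (g : Γ) :
    ‖((rhoG Γ g : EE (k + 1) ≃L[ℝ] EE (k + 1)) : EE (k + 1) →L[ℝ] EE (k + 1))‖ =
      nrm (g : SLZ (k + 1)) := rfl

private theorem rhoG_inv_nrm {k : ℕ} (Γ : Subgroup (SLZ (k + 1))) (g : Γ) :
    ‖(((rhoG Γ g)⁻¹ : EE (k + 1) ≃L[ℝ] EE (k + 1)) : EE (k + 1) →L[ℝ] EE (k + 1))‖ =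
      nrm ((g : SLZ (k + 1))⁻¹) := by
  rw [← map_inv]
  rfl

theorem pair_cost {k : ℕ} (Γ : Subgroup (SLZ (k + 1))) (S : Finset (SLZ (k + 1))) (Cc : ℕ)
    (hconn : ConnPoly Γ S Cc) {M : Type*} [TopologicalSpace M] [MulAction Γ M]
    (D : LocData (M := M) (rhoG Γ)) (hD : D.IsFlat) :
    ∃ r1 : ℝ, 0 < r1 ∧ r1 ≤ D.r0 ∧ r1 ≤ 1 ∧ ∀ N2 : ℕ, ∃ C2 : ℝ, 0 ≤ C2 ∧
      ∀ (φ : EE (k + 1) → EE (k + 1)) (κ s1 : ℝ) (N : ℕ), 0 ≤ κ → s1 ≤ r1 →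
        EqB D S φ κ s1 N →
        ∀ (x a a' : EE (k + 1)) (g h : Γ) (c B e : ℝ), 0 < c → 2 ≤ B → 0 ≤ e →
          ‖rhoG Γ g x‖ ≤ c → ‖rhoG Γ h x‖ ≤ c → sz (rhoG Γ g) ≤ B → sz (rhoG Γ h) ≤ B →
          ‖a - rhoG Γ g x‖ ≤ e → D.χ a = g • D.χ x → a' ∈ ball (0 : EE (k + 1)) D.r0 →
          D.χ a' = h • D.χ x → 2 * (Cc * c) < s1 →
          (B ^ 2) ^ (2 * Cc) * (e + (B ^ 2) ^ Cc * C2 * (2 * (Cc * c)) ^ N2) ≤ Cc * c →
          ‖(rhoG Γ h)⁻¹ (φ a') - (rhoG Γ g)⁻¹ (φ a)‖ ≤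
            (B ^ 2) ^ Cc * (B * (B ^ 2) ^ Cc) * (κ * (2 * (Cc * c)) ^ N) := by
  have hSf : ({s : Γ | (s : SLZ (k + 1)) ∈ S}).Finite := by
    have h1 : ({s : Γ | (s : SLZ (k + 1)) ∈ S}) =
        (fun s : Γ => (s : SLZ (k + 1))) ⁻¹' (S : Set (SLZ (k + 1))) := rfl
    rw [h1]
    exact (Finset.finite_toSet S).preimage (Subtype.val_injective.injOn)
  obtain ⟨r1, hr1, hr1D, hr11, htrack⟩ := track D hD {s : Γ | (s : SLZ (k + 1)) ∈ S} hSf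
  refine ⟨r1, hr1, hr1D, hr11, fun N2 => ?_⟩
  obtain ⟨C2, hC20, hC2⟩ := htrack N2
  refine ⟨C2, hC20, ?_⟩
  intro φ κ s1 N hκ hs1 hEq x a a' g h c B e hc hB he hgx hhx hszg hszh hae hχa ha' hχa' hcs hsm
  have hB0 : (0 : ℝ) ≤ B := by linarith
  set X : ℝ := B ^ 2 with hX
  have hX2 : 2 ≤ X := by nlinarith
  have hX1 : 1 ≤ X := by linarith
  have hX0 : 0 ≤ X := by linarith
  have hg1 : nrm (g : SLZ (k + 1)) ≤ B ∧ nrm ((g : SLZ (k + 1))⁻¹) ≤ B := by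
    rw [sz_rhoG] at hszg
    exact ⟨(le_max_left _ _).trans hszg, (le_max_right _ _).trans hszg⟩
  have hh1 : nrm (h : SLZ (k + 1)) ≤ B ∧ nrm ((h : SLZ (k + 1))⁻¹) ≤ B := by
    rw [sz_rhoG] at hszh
    exact ⟨(le_max_left _ _).trans hszh, (le_max_right _ _).trans hszh⟩
  have hn0 : ∀ q : SLZ (k + 1), 0 ≤ nrm q := fun q => norm_nonneg _
  have hhg : nrm ((h : SLZ (k + 1)) * (g : SLZ (k + 1))⁻¹) ≤ X := by
    refine (nrm_mul _ _).trans ?_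
    rw [hX, sq]
    exact mul_le_mul hh1.1 hg1.2 (hn0 _) hB0
  obtain ⟨m, γ, hm, hγ0, hγm, hγs, hγt⟩ := hconn.2 X c x (g : SLZ (k + 1)) (h : SLZ (k + 1))
    g.2 h.2 hX2 hgx hhx hhg
  let δ : ℕ → Γ := fun t => if ht : t ≤ m then ⟨γ t, (hγt t ht).1⟩ else h
  have hδ : ∀ t, t ≤ m → ((δ t : Γ) : SLZ (k + 1)) = γ t := by
    intro t ht
    have : δ t = ⟨γ t, (hγt t ht).1⟩ := dif_pos ht
    rw [this]
  have hδ0 : δ 0 = g := by
    apply Subtype.ext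
    rw [hδ 0 (Nat.zero_le _), hγ0]
  have hδm : δ m = h := by
    apply Subtype.ext
    rw [hδ m le_rfl, hγm]
  have hstep : ∀ t < m, δ (t + 1) * (δ t)⁻¹ ∈ {s : Γ | (s : SLZ (k + 1)) ∈ S} := by
    intro t ht
    have h1 := hγs t ht
    rw [← hδ (t + 1) ht, ← hδ t ht.le] at h1
    exact h1
  have hpos : ∀ t ≤ m, ‖rhoG Γ (δ t) x‖ ≤ Cc * c := by
    intro t ht
    have h1 := (hγt t ht).2.1
    rw [← hδ t ht] at h1
    exact h1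
  have hK : ∀ i l, i ≤ l → l ≤ m →
      ‖(rhoG Γ (δ l * (δ i)⁻¹) : EE (k + 1) →L[ℝ] EE (k + 1))‖ ≤ X ^ (2 * Cc) := by
    intro i l hil hlm
    rw [rhoG_nrm]
    have e1 : ((δ l * (δ i)⁻¹ : Γ) : SLZ (k + 1)) =
        (γ l * (g : SLZ (k + 1))⁻¹) * ((g : SLZ (k + 1)) * (γ i)⁻¹) := by
      rw [Subgroup.coe_mul, Subgroup.coe_inv, hδ l hlm, hδ i (hil.trans hlm)]
      group
    rw [e1]
    refine (nrm_mul _ _).trans ?_
    rw [two_mul, pow_add]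
    exact mul_le_mul (hγt l hlm).2.2.1 (hγt i (hil.trans hlm)).2.2.2 (hn0 _) (by positivity)
  have hcc : 0 ≤ (Cc : ℝ) * c := by positivity
  have hbd : X ^ (2 * Cc) * (e + m * C2 * (2 * (Cc * c)) ^ N2) ≤ Cc * c := by
    refine le_trans ?_ hsm
    refine mul_le_mul_of_nonneg_left ?_ (by positivity)
    have h1 : (m : ℝ) * C2 * (2 * (Cc * c)) ^ N2 ≤ X ^ Cc * C2 * (2 * (Cc * c)) ^ N2 := by
      refine mul_le_mul_of_nonneg_right ?_ (by positivity)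
      exact mul_le_mul_of_nonneg_right hm hC20
    linarith
  obtain ⟨xs, hxs0, hxs1, hxs2⟩ := hC2 x a m δ (Cc * c) (X ^ (2 * Cc)) e he
    (one_le_pow₀ hX1) hstep hpos hK (by rw [hδ0]; exact hae) (by rw [hδ0]; exact hχa)
    (lt_of_lt_of_le hcs hs1) hbd
  have hball : ∀ t ≤ m, xs t ∈ ball (0 : EE (k + 1)) s1 := by
    intro t ht
    rw [mem_ball_zero_iff]
    exact lt_of_le_of_lt (hxs2 t ht).2.1 hcs
  have hxm : xs m = a' := by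
    refine D.inj ?_ ha' ?_
    · exact ball_subset_ball (hs1.trans hr1D) (hball m le_rfl)
    · rw [(hxs2 m le_rfl).2.2, hδm, hχa']
  have hcost := chain_cost D φ {s : Γ | (s : SLZ (k + 1)) ∈ S} κ s1 N
    (fun s hs y hy => hEq s hs y hy) m δ hstep xs hxs1 hball
  rw [hxm, hxs0, hδ0, hδm] at hcost
  refine hcost.trans ?_
  have hterm : ∀ t ∈ Finset.range m,
      ‖(((rhoG Γ (δ (t + 1)))⁻¹ : EE (k + 1) ≃L[ℝ] EE (k + 1)) :
        EE (k + 1) →L[ℝ] EE (k + 1))‖ * (κ * ‖xs t‖ ^ N) ≤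
      (B * X ^ Cc) * (κ * (2 * (Cc * c)) ^ N) := by
    intro t ht
    have ht' : t < m := Finset.mem_range.1 ht
    have h1 : ‖(((rhoG Γ (δ (t + 1)))⁻¹ : EE (k + 1) ≃L[ℝ] EE (k + 1)) :
        EE (k + 1) →L[ℝ] EE (k + 1))‖ ≤ B * X ^ Cc := by
      rw [rhoG_inv_nrm, hδ (t + 1) ht']
      have e1 : (γ (t + 1))⁻¹ = (g : SLZ (k + 1))⁻¹ * ((g : SLZ (k + 1)) * (γ (t + 1))⁻¹) := by
        group
      rw [e1]
      refine (nrm_mul _ _).trans ?_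
      exact mul_le_mul hg1.2 (hγt (t + 1) ht').2.2.2 (hn0 _) hB0
    have h2 : κ * ‖xs t‖ ^ N ≤ κ * (2 * (Cc * c)) ^ N :=
      mul_le_mul_of_nonneg_left
        (pow_le_pow_left₀ (norm_nonneg _) (hxs2 t ht'.le).2.1 N) hκ
    exact mul_le_mul h1 h2 (by positivity) (by positivity)
  refine (Finset.sum_le_sum hterm).trans ?_
  rw [Finset.sum_const, Finset.card_range, nsmul_eq_mul, ← mul_assoc]
  refine mul_le_mul_of_nonneg_right ?_ (by positivity)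
  exact mul_le_mul_of_nonneg_right hm (by positivity)

end LatLin.B
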