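import Pool.Agent.Lib.MP_2392aa_gt.B.VanRay

/-!
MODULE RayCL. Change of coordinates by a function `σ`.

Given commuting germs `F i`, flat perturbations of `tau i`, and a smooth function `σ` with
`σ - s` flat at `0`, use `Σ x = (σ x, fun j => σ (F j x) - σ x)` as a new coordinate system.

PROOF. `Σ` is smooth and `Σ - id` is flat at `0`: first component by hypothesis; second:
`σ (F j x) - σ x - x.2 j = [σ (F j x) - (F j x).1] + [(F j x).1 - (tau j x).1] - [σ x - x.1]`, each
bracket flat (`Van.comp`, `F j 0 = 0` because `F j - tau j` is flat). `fderiv Σ 0 = id`, so the inverse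
function theorem (`ContDiffAt.toOpenPartialHomeomorph`, `ContDiffAt.to_localInverse`) gives a local
inverse `κ` smooth near `0`; with a bump function `ξ` (`ContDiffBump`, equal to one near `0`, support
in the domain of smoothness) put `K x = x + ξ x • (κ x - x)`: smooth everywhere, equal to `κ` near `0`.
`K - id` is flat: near `0`, `K z - z = - (Σ (K z) - K z)`, use `Van.comp`.
`q i j x = ξ' x * (σ (F i (F j (κ x))) - σ (F i (κ x)) - σ (F j (κ x)) + σ (κ x))` with a bump `ξ'`; flat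
since `σ (F i (F j x)) - (F i (F j x)).1` is flat and the differences of first components of linear
maps cancel: `(tau i (tau j x)).1 - (tau i x).1 - (tau j x).1 + x.1 = 0`.
Near `0`: `Σ (F i x) = (σ (F i x), σ (F j (F i x)) - σ (F i x)) = NF q i (Σ x)`, using the
commutation `F j (F i x) = F i (F j x)` and `q i j (Σ x) = D_i D_j σ x`.
Commutation of `NF q i`: near `0` they are conjugate to `F i` by `Σ`. Choose `r` small.
-/

open scoped ContDiff Topology

namespace LatLin.B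

/-- the coordinates defined by a function -/
def SigMap {k : ℕ} (F : Fin k → E0 k → E0 k) (σ : E0 k → ℝ) (x : E0 k) : E0 k :=
  (σ x, fun j => σ (F j x) - σ x)

private theorem cl_inverse {E : Type*} [NormedAddCommGroup E] [NormedSpace ℝ E] [FiniteDimensional ℝ E]
    {f : E → E} (hf : ContDiff ℝ ∞ f) (h0 : f 0 = 0)
    (hd : HasFDerivAt f (ContinuousLinearMap.id ℝ E) 0) :
    ∃ K : E → E, ContDiff ℝ ∞ K ∧ K 0 = 0 ∧ (∀ᶠ x in 𝓝 (0 : E), f (K x) = x) ∧
      (∀ᶠ x in 𝓝 (0 : E), K (f x) = x) := by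
  have : CompleteSpace E := FiniteDimensional.complete ℝ E
  have hn : (∞ : WithTop ℕ∞) ≠ 0 := by simp
  have hd' : HasFDerivAt f ((ContinuousLinearEquiv.refl ℝ E : E ≃L[ℝ] E) : E →L[ℝ] E) 0 := hd
  set e := (hf.contDiffAt (x := (0 : E))).toOpenPartialHomeomorph f hd' hn with he
  have hef : ∀ x, e x = f x := fun x => rfl
  have hsrc : (0 : E) ∈ e.source := ContDiffAt.mem_toOpenPartialHomeomorph_source _ hd' hn
  have htgt : (0 : E) ∈ e.target := by
    have h1 := ContDiffAt.image_mem_toOpenPartialHomeomorph_target (hf.contDiffAt (x := (0 : E))) hd' hn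
    rw [h0] at h1
    exact h1
  have hsymm0 : e.symm 0 = 0 := by
    have h1 := e.left_inv hsrc
    rw [hef, h0] at h1
    exact h1
  have hcs : ContinuousAt e.symm 0 := e.symm.continuousAt htgt
  have hev : ∀ᶠ x in 𝓝 (0 : E), fderiv ℝ f x ∈ Set.range ((↑) : (E ≃L[ℝ] E) → E →L[ℝ] E) := by
    have h1 : Continuous (fderiv ℝ f) := hf.continuous_fderiv (by simp)
    have h2 : fderiv ℝ f 0 = ((ContinuousLinearEquiv.refl ℝ E : E ≃L[ℝ] E) : E →L[ℝ] E) := hd'.fderiv
    have h3 := ContinuousLinearEquiv.nhds (ContinuousLinearEquiv.refl ℝ E)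
    rw [← h2] at h3
    exact h1.continuousAt h3
  have hsm : ∀ᶠ y in 𝓝 (0 : E), ContDiffAt ℝ ∞ e.symm y := by
    have h1 : ∀ᶠ y in 𝓝 (0 : E), fderiv ℝ f (e.symm y) ∈ Set.range ((↑) : (E ≃L[ℝ] E) → E →L[ℝ] E) := by
      have h2 : Filter.Tendsto e.symm (𝓝 0) (𝓝 0) := by
        have h3 := hcs.tendsto
        rwa [hsymm0] at h3
      exact h2.eventually hev
    filter_upwards [e.open_target.mem_nhds htgt, h1] with y hy hg
    obtain ⟨g, hg⟩ := hg
    refine e.contDiffAt_symm hy (f₀' := g) ?_ hf.contDiffAt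
    rw [hg]
    exact (hf.differentiable (by simp) _).hasFDerivAt
  obtain ⟨R, hR, hball⟩ := Metric.eventually_nhds_iff_ball.1 hsm
  let ξ : ContDiffBump (0 : E) := ⟨R / 3, R / 2, by positivity, by linarith⟩
  have hKev : (fun y => y + ξ y • (e.symm y - y)) =ᶠ[𝓝 0] e.symm := by
    filter_upwards [ξ.eventuallyEq_one] with y hy
    rw [hy]
    simp
  have hK0 : (0 : E) + ξ 0 • (e.symm 0 - 0) = 0 := by
    rw [hsymm0]
    simp
  refine ⟨fun y => y + ξ y • (e.symm y - y), ?_, hK0, ?_, ?_⟩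
  · rw [contDiff_iff_contDiffAt]
    intro y
    by_cases hy : ‖y‖ < R
    · have h1 : ContDiffAt ℝ ∞ e.symm y := hball y (by simpa using hy)
      exact contDiffAt_id.add (ξ.contDiffAt.smul (h1.sub contDiffAt_id))
    · have h1 : (fun z => z + ξ z • (e.symm z - z)) =ᶠ[𝓝 y] id := by
        have h2 : ∀ᶠ z in 𝓝 y, R / 2 < ‖z‖ :=
          continuous_norm.continuousAt.eventually_const_lt (by linarith)
        filter_upwards [h2] with z hz
        have h3 : ξ z = 0 := ξ.zero_of_le_dist (by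
          rw [dist_zero_right]
          exact hz.le)
        rw [h3]
        simp
      exact contDiffAt_id.congr_of_eventuallyEq h1
  · filter_upwards [hKev, e.open_target.mem_nhds htgt] with y hy hy'
    rw [hy]
    exact e.right_inv hy'
  · have h1 : Filter.Tendsto f (𝓝 0) (𝓝 0) := by
      have h2 := hf.continuous.continuousAt (x := (0 : E)) |>.tendsto
      rwa [h0] at h2
    filter_upwards [h1.eventually hKev, e.open_source.mem_nhds hsrc] with y hy hy'
    rw [hy]
    exact e.left_inv hy'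

section flat
variable {E F G : Type*} [NormedAddCommGroup E] [NormedSpace ℝ E] [NormedAddCommGroup F]
  [NormedSpace ℝ F] [NormedAddCommGroup G] [NormedSpace ℝ G]

private theorem fl_add {f g : E → F} {x : E} (hf : ContDiff ℝ ∞ f) (hg : ContDiff ℝ ∞ g)
    (h : FlatAt f x) (h' : FlatAt g x) : FlatAt (fun z => f z + g z) x :=
  flatAt_iff.2 fun m => Van.add hf hg (flatAt_iff.1 h m) (flatAt_iff.1 h' m)

private theorem fl_sub {f g : E → F} {x : E} (hf : ContDiff ℝ ∞ f) (hg : ContDiff ℝ ∞ g)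
    (h : FlatAt f x) (h' : FlatAt g x) : FlatAt (fun z => f z - g z) x :=
  flatAt_iff.2 fun m => Van.sub hf hg (flatAt_iff.1 h m) (flatAt_iff.1 h' m)

private theorem fl_comp {f : F → G} {g : E → F} {x : E} (hf : ContDiff ℝ ∞ f) (hg : ContDiff ℝ ∞ g)
    (h : FlatAt f (g x)) : FlatAt (fun z => f (g z)) x :=
  flatAt_iff.2 fun m => Van.comp hf hg (flatAt_iff.1 h m)

private theorem fl_comp_sub [FiniteDimensional ℝ F] [CompleteSpace G] {f : F → G} {g h : E → F}
    {x : E} (hf : ContDiff ℝ ∞ f) (hg : ContDiff ℝ ∞ g) (hh : ContDiff ℝ ∞ h)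
    (h' : FlatAt (fun z => g z - h z) x) : FlatAt (fun z => f (g z) - f (h z)) x :=
  flatAt_iff.2 fun m => Van.comp_sub hf hg hh (flatAt_iff.1 h' m)

private theorem fl_congr {f g : E → F} {x : E} (hfg : f =ᶠ[𝓝 x] g) (h : FlatAt f x) : FlatAt g x :=
  flatAt_iff.2 fun m => Van.congr hfg (flatAt_iff.1 h m)

private theorem fl_zero (x : E) : FlatAt (fun _ : E => (0 : F)) x := by
  intro j
  rw [iteratedFDeriv_fun_zero]
  rfl

private theorem fl_val {f : E → F} {x : E} (h : FlatAt f x) : f x = 0 := by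
  have h1 := norm_iteratedFDeriv_zero (𝕜 := ℝ) (f := f) (x := x)
  rw [h 0, norm_zero] at h1
  exact norm_eq_zero.1 h1.symm

private theorem fl_fderiv {f : E → F} {x : E} (h : FlatAt f x) : fderiv ℝ f x = 0 := by
  have h1 := (flatAt_iff.1 h 2).der 0 (by norm_num)
  have h2 := norm_iteratedFDeriv_zero (𝕜 := ℝ) (f := fun z => fderiv ℝ f z) (x := x)
  rw [h1, norm_zero] at h2
  exact norm_eq_zero.1 h2.symm

private theorem fl_pair {k : ℕ} {f : E → E0 k} {x : E} (hf : ContDiff ℝ ∞ f)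
    (h1 : FlatAt (fun z => (f z).1) x) (h2 : ∀ j, FlatAt (fun z => (f z).2 j) x) : FlatAt f x := by
  refine flatAt_iff.2 fun m => ?_
  have hf1 : ContDiff ℝ ∞ (fun z => (f z).1) := contDiff_fst.comp hf
  have hf2 : ∀ j, ContDiff ℝ ∞ (fun z => (f z).2 j) := fun j =>
    (contDiff_apply ℝ ℝ j).comp (contDiff_snd.comp hf)
  obtain ⟨C, hC⟩ := (flatAt_iff.1 h1 m).bigO hf1
  choose D hD using fun j => (flatAt_iff.1 (h2 j) m).bigO (hf2 j)
  refine van_of_bigO hf (|C| + ∑ j, |D j|) ?_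
  have hD' : ∀ᶠ z in 𝓝 x, ∀ j, ‖(f z).2 j‖ ≤ D j * ‖z - x‖ ^ m := Filter.eventually_all.2 hD
  filter_upwards [hC, hD'] with z hz hz'
  have hp : 0 ≤ ‖z - x‖ ^ m := by positivity
  have hs : 0 ≤ ∑ j, |D j| := Finset.sum_nonneg fun _ _ => abs_nonneg _
  rw [Prod.norm_def]
  refine max_le ?_ ?_
  · refine hz.trans ?_
    refine mul_le_mul_of_nonneg_right ?_ hp
    linarith [le_abs_self C]
  · rw [pi_norm_le_iff_of_nonneg (by positivity)]
    intro j
    refine (hz' j).trans ?_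
    refine mul_le_mul_of_nonneg_right ?_ hp
    have h3 : |D j| ≤ ∑ j, |D j| :=
      Finset.single_le_sum (f := fun j => |D j|) (fun _ _ => abs_nonneg _) (Finset.mem_univ j)
    linarith [le_abs_self (D j), abs_nonneg C]

end flat

theorem rayCL {k : ℕ} (F : Fin k → E0 k → E0 k) (hF : ∀ i, ContDiff ℝ ∞ (F i))
    (hflat : ∀ i, FlatAt (fun x => F i x - tau i x) 0)
    (hcomm : ∀ i j, ∀ᶠ x in 𝓝 (0 : E0 k), F i (F j x) = F j (F i x))
    (σ : E0 k → ℝ) (hσ : ContDiff ℝ ∞ σ) (hσflat : FlatAt (fun x => σ x - x.1) 0) :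
    ∃ (r : ℝ) (_ : 0 < r) (S : NSys k r) (K : E0 k → E0 k),
      ContDiff ℝ ∞ K ∧ FlatAt (fun x => K x - x) 0 ∧
      FlatAt (fun x => SigMap F σ x - x) 0 ∧
      (∀ᶠ x in 𝓝 (0 : E0 k), SigMap F σ (K x) = x) ∧
      (∀ᶠ x in 𝓝 (0 : E0 k), K (SigMap F σ x) = x) ∧
      (∀ i, ∀ᶠ x in 𝓝 (0 : E0 k), SigMap F σ (F i x) = NF S.q i (SigMap F σ x)) ∧
      (∀ i j, ∀ᶠ x in 𝓝 (0 : E0 k), S.q i j (SigMap F σ x) =
        σ (F i (F j x)) - σ (F i x) - σ (F j x) + σ x) := by
  have htau : ∀ i : Fin k, ContDiff ℝ ∞ (tau i : E0 k → E0 k) := by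
    intro i
    unfold tau
    fun_prop
  have hfst : ContDiff ℝ ∞ (fun x : E0 k => x.1) := contDiff_fst
  have hsnd : ∀ j, ContDiff ℝ ∞ (fun x : E0 k => x.2 j) := fun j =>
    (contDiff_apply ℝ ℝ j).comp contDiff_snd
  have hF0 : ∀ i, F i 0 = 0 := by
    intro i
    have h1 := fl_val (hflat i)
    have h2 : tau i (0 : E0 k) = 0 := by
      simp [tau]
    rw [h2, sub_zero] at h1
    exact h1
  -- the derivative of σ
  have hD : ∀ j, FlatAt (fun x => σ (F j x) - σ x - x.2 j) 0 := by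
    intro j
    have a1 : FlatAt (fun x => σ (F j x) - (F j x).1) 0 :=
      fl_comp (f := fun x => σ x - x.1) (g := F j) (hσ.sub hfst) (hF j) (by rw [hF0]; exact hσflat)
    have a2 : FlatAt (fun x => (F j x).1 - (tau j x).1) 0 :=
      fl_comp_sub (f := fun x : E0 k => x.1) hfst (hF j) (htau j) (hflat j)
    have s1 : ContDiff ℝ ∞ (fun x => σ (F j x) - (F j x).1) := (hσ.comp (hF j)).sub (hfst.comp (hF j))
    have s2 : ContDiff ℝ ∞ (fun x => (F j x).1 - (tau j x).1) := (hfst.comp (hF j)).sub (hfst.comp (htau j))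
    have a3 := fl_sub (s1.add s2) (hσ.sub hfst) (fl_add s1 s2 a1 a2) hσflat
    refine fl_congr (Filter.Eventually.of_forall fun x => ?_) a3
    change σ (F j x) - (F j x).1 + ((F j x).1 - (x.1 + x.2 j)) - (σ x - x.1) = σ (F j x) - σ x - x.2 j
    ring
  have hDs : ∀ j, ContDiff ℝ ∞ (fun x => σ (F j x) - σ x - x.2 j) := fun j =>
    ((hσ.comp (hF j)).sub hσ).sub (hsnd j)
  have hSs : ContDiff ℝ ∞ (SigMap F σ) := by
    refine hσ.prodMk ?_
    rw [contDiff_pi]
    intro j
    exact (hσ.comp (hF j)).sub hσ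
  have hSflat : FlatAt (fun x => SigMap F σ x - x) 0 :=
    fl_pair (hSs.sub contDiff_id) hσflat hD
  have hS0 : SigMap F σ 0 = 0 := by
    have h1 := fl_val hSflat
    rwa [sub_zero] at h1
  have hSd : HasFDerivAt (SigMap F σ) (ContinuousLinearMap.id ℝ (E0 k)) 0 := by
    have h1 : HasFDerivAt (fun x => SigMap F σ x - x) (0 : E0 k →L[ℝ] E0 k) 0 := by
      have h2 := ((hSs.sub contDiff_id).differentiable (by simp) (0 : E0 k)).hasFDerivAt
      have h3 : fderiv ℝ (fun x => SigMap F σ x - x) 0 = 0 := fl_fderiv hSflat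
      have h4 : (fun x => SigMap F σ x - id x) = fun x => SigMap F σ x - x := rfl
      change HasFDerivAt (fun x => SigMap F σ x - x) (fderiv ℝ (fun x => SigMap F σ x - x) 0) 0 at h2
      rwa [h3] at h2
    have h2 := h1.add (hasFDerivAt_id (𝕜 := ℝ) (0 : E0 k))
    rw [zero_add] at h2
    refine h2.congr_of_eventuallyEq (Filter.Eventually.of_forall fun x => ?_)
    change SigMap F σ x = SigMap F σ x - x + x
    rw [sub_add_cancel]
  obtain ⟨K, hK, hK0, hSK, hKS⟩ := cl_inverse hSs hS0 hSd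
  have hKflat : FlatAt (fun x => K x - x) 0 := by
    have h1 : FlatAt (fun x => SigMap F σ (K x) - K x) 0 :=
      fl_comp (f := fun x => SigMap F σ x - x) (g := K) (hSs.sub contDiff_id) hK (by rw [hK0]; exact hSflat)
    have h2 := fl_sub (contDiff_const (c := (0 : E0 k))) ((hSs.comp hK).sub hK) (fl_zero 0) h1
    refine fl_congr ?_ h2
    filter_upwards [hSK] with x hx
    change (0 : E0 k) - (SigMap F σ (K x) - K x) = K x - x
    rw [hx]
    abel
  -- the functions q
  set q : Fin k → Fin k → E0 k → ℝ := fun i j x =>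
    σ (F i (F j (K x))) - σ (F i (K x)) - σ (F j (K x)) + σ (K x) with hq
  have hqs : ∀ i j, ContDiff ℝ ∞ (q i j) := fun i j =>
    (((hσ.comp ((hF i).comp ((hF j).comp hK))).sub (hσ.comp ((hF i).comp hK))).sub
      (hσ.comp ((hF j).comp hK))).add (hσ.comp hK)
  have hqf : ∀ i j, FlatAt (q i j) 0 := by
    intro i j
    have b1 : FlatAt (fun x => σ (F i (F j x)) - σ (F j x) - (F j x).2 i) 0 :=
      fl_comp (f := fun x => σ (F i x) - σ x - x.2 i) (g := F j) (hDs i) (hF j) (by rw [hF0]; exact hD i)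
    have b2 : FlatAt (fun x => (F j x).2 i - (tau j x).2 i) 0 :=
      fl_comp_sub (f := fun x : E0 k => x.2 i) (hsnd i) (hF j) (htau j) (hflat j)
    have s1 : ContDiff ℝ ∞ (fun x => σ (F i (F j x)) - σ (F j x) - (F j x).2 i) :=
      ((hσ.comp ((hF i).comp (hF j))).sub (hσ.comp (hF j))).sub ((hsnd i).comp (hF j))
    have s2 : ContDiff ℝ ∞ (fun x => (F j x).2 i - (tau j x).2 i) :=
      ((hsnd i).comp (hF j)).sub ((hsnd i).comp (htau j))
    have b3 := fl_sub (s1.add s2) (hDs i) (fl_add s1 s2 b1 b2) (hD i)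
    have b4 : FlatAt (fun x => σ (F i (F j x)) - σ (F i x) - σ (F j x) + σ x) 0 := by
      refine fl_congr (Filter.Eventually.of_forall fun x => ?_) b3
      change σ (F i (F j x)) - σ (F j x) - (F j x).2 i + ((F j x).2 i - x.2 i) -
        (σ (F i x) - σ x - x.2 i) = σ (F i (F j x)) - σ (F i x) - σ (F j x) + σ x
      ring
    exact fl_comp (f := fun x => σ (F i (F j x)) - σ (F i x) - σ (F j x) + σ x) (g := K)
      ((((hσ.comp ((hF i).comp (hF j))).sub (hσ.comp (hF i))).sub (hσ.comp (hF j))).add hσ) hK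
      (by rw [hK0]; exact b4)
  have hqS : ∀ i j, ∀ᶠ x in 𝓝 (0 : E0 k), q i j (SigMap F σ x) =
      σ (F i (F j x)) - σ (F i x) - σ (F j x) + σ x := by
    intro i j
    filter_upwards [hKS] with x hx
    rw [hq]
    simp only [hx]
  have hNF : ∀ i, ∀ᶠ x in 𝓝 (0 : E0 k), SigMap F σ (F i x) = NF q i (SigMap F σ x) := by
    intro i
    have h1 : ∀ᶠ x in 𝓝 (0 : E0 k), ∀ j, q i j (SigMap F σ x) =
      σ (F i (F j x)) - σ (F i x) - σ (F j x) + σ x := Filter.eventually_all.2 (hqS i)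
    have h2 : ∀ᶠ x in 𝓝 (0 : E0 k), ∀ j, F i (F j x) = F j (F i x) := Filter.eventually_all.2 (hcomm i)
    filter_upwards [h1, h2] with x hx hx'
    refine Prod.ext ?_ ?_
    · change σ (F i x) = σ x + (σ (F i x) - σ x)
      ring
    · funext j
      change σ (F j (F i x)) - σ (F i x) = σ (F j x) - σ x + q i j (SigMap F σ x)
      rw [hx j, hx' j]
      ring
  have hFt : ∀ i, Filter.Tendsto (F i) (𝓝 0) (𝓝 0) := by
    intro i
    have h1 := (hF i).continuous.continuousAt (x := (0 : E0 k)) |>.tendsto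
    rwa [hF0] at h1
  have hKt : Filter.Tendsto K (𝓝 0) (𝓝 0) := by
    have h1 := hK.continuous.continuousAt (x := (0 : E0 k)) |>.tendsto
    rwa [hK0] at h1
  have hcm : ∀ᶠ x in 𝓝 (0 : E0 k), ∀ i j, NF q i (NF q j x) = NF q j (NF q i x) := by
    have h1 : ∀ᶠ z in 𝓝 (0 : E0 k), ∀ i j, NF q i (NF q j (SigMap F σ z)) = NF q j (NF q i (SigMap F σ z)) := by
      refine Filter.eventually_all.2 fun i => Filter.eventually_all.2 fun j => ?_
      filter_upwards [hNF i, hNF j, (hFt j).eventually (hNF i), (hFt i).eventually (hNF j), hcomm i j] with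
        z h1 h2 h3 h4 h5
      rw [← h1, ← h2, ← h3, ← h4, h5]
    filter_upwards [hKt.eventually h1, hSK] with x hx hx' i j
    have h2 := hx i j
    rwa [hx'] at h2
  obtain ⟨r, hr, hball⟩ := Metric.eventually_nhds_iff_ball.1 hcm
  exact ⟨r, hr, ⟨q, hqs, hqf, fun i j x hx => hball x (by simpa using hx) i j⟩, K, hK, hKflat, hSflat,
    hSK, hKS, hNF, hqS⟩

end LatLin.B
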