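import Pool.Agent.Lib.MP_2392aa_gt.B.SlabBasic

/-!
MODULE SlabA. Slow Euclid towards a primitive vector `r` inside the slab.

Let `|z i| ≤ ρ`, `|ev z r| ≤ ρ`, `|r l| ≤ X`, `r` primitive. There are at most `∑ |r l|` moves
from the standard family to a family containing `r` or `-r`, inside `Slab z ρ X`.

PROOF. State: a family `f` (reached from `std n`) and integers `ν` with `∑ j, ν j • f j = r`, and
* (a) `∀ i j l, 0 ≤ (ν i * f i l) * (ν j * f j l)` (for fixed `l` all `ν j * f j l` have the same
  weak sign; hence `∑ j, |ν j * f j l| = |r l| ≤ X`),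
* (b) all `f i` in `Slab z ρ X`.
Initially `f = std n`, `ν = r`. Put `x j = ev z (f j)`, so `∑ ν j * x j = ev z r`.
Strong induction on `∑ |ν j|`.
If exactly one `ν i` is nonzero: `ν i • f i = r`, with `∑ a l * r l = 1` this gives
`ν i * (∑ a l * f i l) = 1`, so `ν i = ± 1` and `f i = ± r`. (`ν = 0` is impossible.)
Otherwise choose `i ≠ j` with `ν i ≠ 0`, `ν j ≠ 0` as follows: if there are `i, j` with
`ν i * x i > 0 > ν j * x j` take these, otherwise any. By symmetry let `|ν j| ≤ |ν i|`.
Put `σ = sign (ν i) * sign (ν j)` and make the move `f j := f j + σ • f i`,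
`ν i := ν i - σ * ν j` (the sum `∑ ν • f` is unchanged; `|ν i|` decreases by `|ν j| ≥ 1`).
New value `x j' = x j + σ x i`. In the first case `x j` and `σ x i` have opposite signs, so
`|x j'| ≤ max (|x i|) (|x j|) ≤ ρ`. In the second case all `ν l * x l` have the same weak sign, so
`|ν j| |x j'| ≤ |ν j| |x j| + |ν j| |x i| ≤ |ν j x j| + |ν i x i| ≤ |∑ ν l x l| ≤ ρ`, `|ν j| ≥ 1`.
(a) is preserved: `σ ν j = (|ν j| / |ν i|) ν i` and `ν i - σ ν j = (1 - |ν j| / |ν i|) ν i`, so the
new products are nonnegative combinations of the old ones (multiply by `|ν i|` to stay in `ℤ`).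
The entries of the changed member: `ν j ≠ 0`, so by (a) for the NEW state
`|f j' l| ≤ |ν j * f j' l| ≤ |r l| ≤ X`.
-/

namespace LatLin.B

private theorem ev_add {n : ℕ} (z : Fin n → ℝ) (v w : Fin n → ℤ) : ev z (v + w) = ev z v + ev z w := by
  unfold ev
  rw [← Finset.sum_add_distrib]
  refine Finset.sum_congr rfl fun l _ => ?_
  rw [Pi.add_apply]
  push_cast
  ring

private theorem ev_smul {n : ℕ} (z : Fin n → ℝ) (c : ℤ) (v : Fin n → ℤ) : ev z (c • v) = c * ev z v := by
  unfold ev
  rw [Finset.mul_sum]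
  refine Finset.sum_congr rfl fun l _ => ?_
  rw [Pi.smul_apply, smul_eq_mul]
  push_cast
  ring

/-- members of the same weak sign are bounded by the sum -/
private theorem le_abs_sum {n : ℕ} (p : Fin n → ℤ) (h : ∀ a b, 0 ≤ p a * p b) (k : Fin n) : |p k| ≤ |∑ a, p a| := by
  by_cases h0 : p k = 0
  · rw [h0, abs_zero]
    exact abs_nonneg _
  have h1 : p k * p k ≤ p k * ∑ a, p a := by
    rw [Finset.mul_sum]
    exact Finset.single_le_sum (f := fun a => p k * p a) (fun a _ => h k a) (Finset.mem_univ k)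
  have h2 : |p k| * |p k| ≤ |p k| * |∑ a, p a| := by
    rw [← abs_mul, ← abs_mul, abs_of_nonneg (mul_self_nonneg (p k))]
    exact h1.trans (le_abs_self _)
  exact le_of_mul_le_mul_left h2 (abs_pos.mpr h0)

private theorem add_le_abs_sum {n : ℕ} (y : Fin n → ℝ) (h : ∀ a b, 0 ≤ y a * y b) {i j : Fin n} (hij : i ≠ j) :
    |y i| + |y j| ≤ |∑ a, y a| := by
  have h12 : |y i| + |y j| = |y i + y j| := by
    rcases mul_nonneg_iff.mp (h i j) with ⟨h1, h2⟩ | ⟨h1, h2⟩
    · rw [abs_of_nonneg h1, abs_of_nonneg h2, abs_of_nonneg (add_nonneg h1 h2)]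
    · rw [abs_of_nonpos h1, abs_of_nonpos h2, abs_of_nonpos (add_nonpos h1 h2)]
      ring
  rw [h12]
  by_cases h0 : y i + y j = 0
  · rw [h0, abs_zero]
    exact abs_nonneg _
  have h1 : (y i + y j) * (y i + y j) ≤ (y i + y j) * ∑ a, y a := by
    rw [Finset.mul_sum]
    have h3 : (y i + y j) * (y i + y j) = ∑ a ∈ {i, j}, (y i + y j) * y a := by
      rw [Finset.sum_pair hij]
      ring
    rw [h3]
    refine Finset.sum_le_sum_of_subset_of_nonneg (Finset.subset_univ _) fun a _ _ => ?_
    rw [add_mul]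
    exact add_nonneg (h i a) (h j a)
  have h2 : |y i + y j| * |y i + y j| ≤ |y i + y j| * |∑ a, y a| := by
    rw [← abs_mul, ← abs_mul, abs_of_nonneg (mul_self_nonneg (y i + y j))]
    exact h1.trans (le_abs_self _)
  exact le_of_mul_le_mul_left h2 (abs_pos.mpr h0)

private theorem opp_le {u v ρ : ℝ} (h : u * v < 0) (hu : |u| ≤ ρ) (hv : |v| ≤ ρ) : |u + v| ≤ ρ := by
  rw [abs_le] at hu hv ⊢
  rcases mul_neg_iff.mp h with ⟨h1, h2⟩ | ⟨h1, h2⟩
  · constructor <;> linarith [hu.1, hu.2, hv.1, hv.2]
  · constructor <;> linarith [hu.1, hu.2, hv.1, hv.2]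

private theorem choose_pair {n : ℕ} (ν : Fin n → ℤ) (y : Fin n → ℝ) (hy : ∀ k, ν k = 0 → y k = 0)
    (h2 : ∃ i j, i ≠ j ∧ ν i ≠ 0 ∧ ν j ≠ 0) :
    ∃ i j, i ≠ j ∧ ν i ≠ 0 ∧ ν j ≠ 0 ∧ (ν j).natAbs ≤ (ν i).natAbs ∧ (y i * y j < 0 ∨ ∀ a b, 0 ≤ y a * y b) := by
  by_cases hneg : ∃ i j, y i * y j < 0
  · obtain ⟨i, j, hij⟩ := hneg
    have hi : ν i ≠ 0 := by
      intro h
      rw [hy i h, zero_mul] at hij
      exact lt_irrefl _ hij
    have hj : ν j ≠ 0 := by
      intro h
      rw [hy j h, mul_zero] at hij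
      exact lt_irrefl _ hij
    have hne : i ≠ j := by
      rintro rfl
      exact absurd hij (not_lt.mpr (mul_self_nonneg _))
    rcases le_total (ν j).natAbs (ν i).natAbs with hle | hle
    · exact ⟨i, j, hne, hi, hj, hle, Or.inl hij⟩
    · exact ⟨j, i, hne.symm, hj, hi, hle, Or.inl (by rwa [mul_comm])⟩
  · push Not at hneg
    obtain ⟨i, j, hne, hi, hj⟩ := h2
    rcases le_total (ν j).natAbs (ν i).natAbs with hle | hle
    · exact ⟨i, j, hne, hi, hj, hle, Or.inr hneg⟩
    · exact ⟨j, i, hne.symm, hj, hi, hle, Or.inr hneg⟩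

private theorem sign_facts {a b : ℤ} (ha : a ≠ 0) (hb : b ≠ 0) (hle : b.natAbs ≤ a.natAbs) :
    ∃ σ : ℤ, (σ = 1 ∨ σ = -1) ∧ |a| * (σ * b) = |b| * a ∧ (a - σ * b).natAbs + b.natAbs = a.natAbs ∧
      ((σ = 1 ∧ 0 < a * b) ∨ (σ = -1 ∧ a * b < 0)) := by
  rcases lt_or_gt_of_ne ha with ha' | ha' <;> rcases lt_or_gt_of_ne hb with hb' | hb'
  · refine ⟨1, Or.inl rfl, ?_, by omega, Or.inl ⟨rfl, mul_pos_of_neg_of_neg ha' hb'⟩⟩
    rw [abs_of_neg ha', abs_of_neg hb']
    ring
  · refine ⟨-1, Or.inr rfl, ?_, by omega, Or.inr ⟨rfl, mul_neg_of_neg_of_pos ha' hb'⟩⟩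
    rw [abs_of_neg ha', abs_of_pos hb']
    ring
  · refine ⟨-1, Or.inr rfl, ?_, by omega, Or.inr ⟨rfl, mul_neg_of_pos_of_neg ha' hb'⟩⟩
    rw [abs_of_pos ha', abs_of_neg hb']
    ring
  · refine ⟨1, Or.inl rfl, ?_, by omega, Or.inl ⟨rfl, mul_pos ha' hb'⟩⟩
    rw [abs_of_pos ha', abs_of_pos hb']
    ring

private theorem stepAux {n : ℕ} (z : Fin n → ℝ) (ρ X : ℝ) (r : Fin n → ℤ)
    (hr : |ev z r| ≤ ρ) (hrX : ∀ l, |(r l : ℝ)| ≤ X)
    (hprim : ∃ a : Fin n → ℤ, ∑ l, a l * r l = 1) (N : ℕ) :
    ∀ (f : Fin n → Fin n → ℤ) (ν : Fin n → ℤ) (m₀ : ℕ), ∑ j, (ν j).natAbs = N →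
      MReach (Slab z ρ X) m₀ (std n) f → (∀ l, ∑ j, ν j * f j l = r l) →
      (∀ i j l, 0 ≤ (ν i * f i l) * (ν j * f j l)) →
      ∃ (m : ℕ) (g : Fin n → Fin n → ℤ), m ≤ m₀ + N ∧ MReach (Slab z ρ X) m (std n) g ∧
        ∃ i, g i = r ∨ g i = -r := by
  induction N using Nat.strong_induction_on with
  | _ N IH =>
  intro f ν m₀ hN hf hsum hsign
  by_cases h2 : ∃ i j, i ≠ j ∧ ν i ≠ 0 ∧ ν j ≠ 0
  · -- the Euclidean step
    obtain ⟨i, j, hij, hi, hj, hle, hy⟩ := choose_pair ν (fun k => (ν k : ℝ) * ev z (f k))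
      (fun k hk => by simp [hk]) h2
    obtain ⟨σ, hσ, hσ1, hσ2, hσ3⟩ := sign_facts hi hj hle
    set f' : Fin n → Fin n → ℤ := mv j i σ f with hf'
    set ν' : Fin n → ℤ := Function.update ν i (ν i - σ * ν j) with hν'
    have hf'j : f' j = f j + σ • f i := by
      rw [hf']
      exact Function.update_self _ _ _
    have hf'k : ∀ k, k ≠ j → f' k = f k := by
      intro k hk
      rw [hf']
      exact Function.update_of_ne hk _ _
    have hν'i : ν' i = ν i - σ * ν j := by
      rw [hν']
      exact Function.update_self _ _ _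
    have hν'k : ∀ k, k ≠ i → ν' k = ν k := by
      intro k hk
      rw [hν']
      exact Function.update_of_ne hk _ _
    have hsum' : ∀ l, ∑ k, ν' k * f' k l = r l := by
      intro l
      rw [← hsum l]
      have h3 : ∀ k, ν' k * f' k l = ν k * f k l + (if k = i then - (σ * ν j * f i l) else 0) +
          (if k = j then ν j * (σ * f i l) else 0) := by
        intro k
        by_cases hki : k = i
        · subst hki
          rw [hν'i, hf'k k hij, if_pos rfl, if_neg hij]
          ring
        · by_cases hkj : k = j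
          · subst hkj
            rw [hν'k k hki, hf'j, if_neg hki, if_pos rfl, Pi.add_apply, Pi.smul_apply, smul_eq_mul]
            ring
          · rw [hν'k k hki, hf'k k hkj, if_neg hki, if_neg hkj]
            ring
      rw [Finset.sum_congr rfl fun k _ => h3 k, Finset.sum_add_distrib, Finset.sum_add_distrib,
        Finset.sum_ite_eq' Finset.univ i, Finset.sum_ite_eq' Finset.univ j, if_pos (Finset.mem_univ _),
        if_pos (Finset.mem_univ _)]
      ring
    have hcomb : ∀ l k, ∃ A B : ℤ, 0 ≤ A ∧ 0 ≤ B ∧ |ν i| * (ν' k * f' k l) = A * (ν k * f k l) + B * (ν i * f i l) := by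
      intro l k
      by_cases hki : k = i
      · subst hki
        refine ⟨|ν k| - |ν j|, 0, ?_, le_rfl, ?_⟩
        · rw [sub_nonneg, Int.abs_eq_natAbs, Int.abs_eq_natAbs]
          exact_mod_cast hle
        · rw [hν'i, hf'k k hij]
          linear_combination (- f k l) * hσ1
      · by_cases hkj : k = j
        · subst hkj
          refine ⟨|ν i|, |ν k|, abs_nonneg _, abs_nonneg _, ?_⟩
          rw [hν'k k hki, hf'j, Pi.add_apply, Pi.smul_apply, smul_eq_mul]
          linear_combination (f i l) * hσ1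
        · refine ⟨|ν i|, 0, abs_nonneg _, le_rfl, ?_⟩
          rw [hν'k k hki, hf'k k hkj]
          ring
    have hsign' : ∀ a b l, 0 ≤ (ν' a * f' a l) * (ν' b * f' b l) := by
      intro a b l
      obtain ⟨A, B, hA, hB, hAB⟩ := hcomb l a
      obtain ⟨A', B', hA', hB', hAB'⟩ := hcomb l b
      have hpos : 0 < |ν i| * |ν i| := mul_pos (abs_pos.mpr hi) (abs_pos.mpr hi)
      have h4 : 0 ≤ (|ν i| * |ν i|) * ((ν' a * f' a l) * (ν' b * f' b l)) := by
        have h5 : (|ν i| * |ν i|) * ((ν' a * f' a l) * (ν' b * f' b l)) =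
            (|ν i| * (ν' a * f' a l)) * (|ν i| * (ν' b * f' b l)) := by ring
        rw [h5, hAB, hAB']
        have h6 : (A * (ν a * f a l) + B * (ν i * f i l)) * (A' * (ν b * f b l) + B' * (ν i * f i l)) =
            A * A' * ((ν a * f a l) * (ν b * f b l)) + A * B' * ((ν a * f a l) * (ν i * f i l)) +
            B * A' * ((ν i * f i l) * (ν b * f b l)) + B * B' * ((ν i * f i l) * (ν i * f i l)) := by ring
        rw [h6]
        have := mul_nonneg (mul_nonneg hA hA') (hsign a b l)
        have := mul_nonneg (mul_nonneg hA hB') (hsign a i l)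
        have := mul_nonneg (mul_nonneg hB hA') (hsign i b l)
        have := mul_nonneg (mul_nonneg hB hB') (hsign i i l)
        linarith
      exact nonneg_of_mul_nonneg_right h4 hpos
    -- the new member lies in the slab
    have hD : Slab z ρ X (f j + σ • f i) := by
      constructor
      · rw [ev_add, ev_smul]
        have hxi := (hf.target i).1
        have hxj := (hf.target j).1
        have hσabs : |(σ : ℝ)| = 1 := by
          rcases hσ with h | h <;> rw [h] <;> simp
        rcases hy with hy | hy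
        · apply opp_le _ hxj
          · rw [abs_mul, hσabs, one_mul]
            exact hxi
          · have h7 : ((ν i : ℝ) * (ν j : ℝ)) * (ev z (f i) * ev z (f j)) < 0 := by
              have h8 : ((ν i : ℝ) * (ν j : ℝ)) * (ev z (f i) * ev z (f j)) =
                (ν i : ℝ) * ev z (f i) * ((ν j : ℝ) * ev z (f j)) := by ring
              rw [h8]
              exact hy
            rcases hσ3 with ⟨hs, hp⟩ | ⟨hs, hp⟩
            · have hp' : (0 : ℝ) < (ν i : ℝ) * (ν j : ℝ) := by exact_mod_cast hp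
              have h9 : ev z (f i) * ev z (f j) < 0 := by
                by_contra hcon
                exact absurd h7 (not_lt.mpr (mul_nonneg hp'.le (not_lt.mp hcon)))
              rw [hs]
              push_cast
              linarith
            · have hp' : (ν i : ℝ) * (ν j : ℝ) < 0 := by exact_mod_cast hp
              have h9 : 0 < ev z (f i) * ev z (f j) := by
                by_contra hcon
                exact absurd h7 (not_lt.mpr (mul_nonneg_of_nonpos_of_nonpos hp'.le (not_lt.mp hcon)))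
              rw [hs]
              push_cast
              linarith
        · have hsumy : ∑ k, (ν k : ℝ) * ev z (f k) = ev z r := by
            unfold ev
            have h10 : ∀ k, (ν k : ℝ) * ∑ l, (f k l : ℝ) * z l = ∑ l, (ν k : ℝ) * (f k l : ℝ) * z l := by
              intro k
              rw [Finset.mul_sum]
              exact Finset.sum_congr rfl fun l _ => by ring
            rw [Finset.sum_congr rfl fun k _ => h10 k, Finset.sum_comm]
            refine Finset.sum_congr rfl fun l _ => ?_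
            rw [← hsum l]
            push_cast
            rw [Finset.sum_mul]
          have h11 := add_le_abs_sum _ hy hij
          rw [hsumy] at h11
          have hνj : (1 : ℝ) ≤ |(ν j : ℝ)| := by exact_mod_cast Int.one_le_abs hj
          have hνij : |(ν j : ℝ)| ≤ |(ν i : ℝ)| := by
            have h12 : |ν j| ≤ |ν i| := by
              rw [Int.abs_eq_natAbs, Int.abs_eq_natAbs]
              exact_mod_cast hle
            exact_mod_cast h12
          have h13 : |ev z (f j) + σ * ev z (f i)| ≤ |ev z (f j)| + |ev z (f i)| := by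
            refine (abs_add_le _ _).trans ?_
            rw [abs_mul, hσabs, one_mul]
          have h14 : |ev z (f j)| + |ev z (f i)| ≤ |(ν j : ℝ)| * (|ev z (f j)| + |ev z (f i)|) := by
            have := add_nonneg (abs_nonneg (ev z (f j))) (abs_nonneg (ev z (f i)))
            nlinarith
          have h15 : |(ν j : ℝ)| * (|ev z (f j)| + |ev z (f i)|) ≤
              |(ν i : ℝ) * ev z (f i)| + |(ν j : ℝ) * ev z (f j)| := by
            rw [abs_mul, abs_mul]
            have := mul_le_mul_of_nonneg_right hνij (abs_nonneg (ev z (f i)))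
            linarith
          exact h13.trans (h14.trans (h15.trans (h11.trans hr)))
      · intro l
        have h16 := le_abs_sum (fun k => ν' k * f' k l) (fun a b => hsign' a b l) j
        rw [hsum' l] at h16
        rw [hν'k j hij.symm, hf'j, abs_mul] at h16
        have h17 : |(f j + σ • f i) l| ≤ |r l| := by
          refine le_trans ?_ h16
          exact le_mul_of_one_le_left (abs_nonneg _) (Int.one_le_abs hj)
        have h18 : |(((f j + σ • f i) l : ℤ) : ℝ)| ≤ |(r l : ℝ)| := by exact_mod_cast h17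
        exact h18.trans (hrX l)
    have hN' : ∑ k, (ν' k).natAbs < N := by
      rw [← hN]
      refine Finset.sum_lt_sum (fun k _ => ?_) ⟨i, Finset.mem_univ i, ?_⟩
      · by_cases hki : k = i
        · subst hki
          rw [hν'i]
          omega
        · rw [hν'k k hki]
      · rw [hν'i]
        have : 0 < (ν j).natAbs := Int.natAbs_pos.mpr hj
        omega
    obtain ⟨m, g, hm, hg, hgi⟩ := IH _ hN' f' ν' (m₀ + 1) rfl (MReach.step j i σ hf hij.symm hσ hD) hsum' hsign'
    exact ⟨m, g, by omega, hg, hgi⟩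
  · -- at most one coefficient is nonzero
    push Not at h2
    obtain ⟨a, ha⟩ := hprim
    obtain ⟨i, hi⟩ : ∃ i, ν i ≠ 0 := by
      by_contra hcon
      push Not at hcon
      have h3 : ∀ l, r l = 0 := by
        intro l
        rw [← hsum l]
        exact Finset.sum_eq_zero fun j _ => by rw [hcon j, zero_mul]
      rw [Finset.sum_eq_zero fun l _ => by rw [h3 l, mul_zero]] at ha
      exact absurd ha (by norm_num)
    have hone : ∀ l, r l = ν i * f i l := by
      intro l
      rw [← hsum l]
      refine Finset.sum_eq_single i (fun j _ hj => ?_) (fun h => absurd (Finset.mem_univ i) h)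
      rw [h2 i j hj.symm hi, zero_mul]
    have hunit : ν i * ∑ l, a l * f i l = 1 := by
      rw [Finset.mul_sum, ← ha]
      exact Finset.sum_congr rfl fun l _ => by rw [hone l]; ring
    refine ⟨m₀, f, by omega, hf, i, ?_⟩
    rcases Int.eq_one_or_neg_one_of_mul_eq_one hunit with h | h
    · left
      funext l
      rw [hone l, h, one_mul]
    · right
      funext l
      rw [Pi.neg_apply, hone l, h]
      ring

private theorem slab_smul {n : ℕ} {z : Fin n → ℝ} {ρ X : ℝ} {v : Fin n → ℤ} (h : Slab z ρ X v) {ε : ℤ}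
    (hε : ε = 1 ∨ ε = -1) : Slab z ρ X (ε • v) := by
  rcases hε with rfl | rfl
  · rw [one_smul]
    exact h
  · constructor
    · rw [ev_smul]
      push_cast
      rw [neg_one_mul, abs_neg]
      exact h.1
    · intro l
      rw [Pi.smul_apply, smul_eq_mul]
      push_cast
      rw [neg_one_mul, abs_neg]
      exact h.2 l

private theorem slab_neg {n : ℕ} {z : Fin n → ℝ} {ρ X : ℝ} {v : Fin n → ℤ} (h : Slab z ρ X v) : Slab z ρ X (-v) := by
  have h1 := slab_smul h (ε := -1) (Or.inr rfl)
  rwa [neg_one_smul] at h1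

private theorem slab_add {n : ℕ} {z : Fin n → ℝ} {ρ X : ℝ} {v w : Fin n → ℤ} (h : Slab z ρ X v) (h' : Slab z ρ X w) :
    Slab z (2 * ρ) (2 * X) (v + w) := by
  constructor
  · rw [ev_add]
    exact (abs_add_le _ _).trans (by linarith [h.1, h'.1])
  · intro l
    rw [Pi.add_apply]
    push_cast
    exact (abs_add_le _ _).trans (by linarith [h.2 l, h'.2 l])

private theorem slab_two {n : ℕ} {z : Fin n → ℝ} {ρ X : ℝ} {v : Fin n → ℤ} (h : Slab z ρ X v) :
    Slab z (2 * ρ) (2 * X) v := by
  constructor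
  · have h1 := h.1
    have h2 := abs_nonneg (ev z v)
    linarith
  · intro l
    have h1 := h.2 l
    have h2 := abs_nonneg (v l : ℝ)
    linarith

private theorem rot {n : ℕ} {z : Fin n → ℝ} {ρ X : ℝ} {f : Fin n → Fin n → ℤ} (hf : ∀ i, Slab z ρ X (f i))
    {p q : Fin n} (hpq : p ≠ q) {ε : ℤ} (hε : ε = 1 ∨ ε = -1) :
    ∃ g, MReach (Slab z (2 * ρ) (2 * X)) 3 f g ∧ g p = ε • f q ∧ g q = -(ε • f p) ∧ ∀ k, Slab z ρ X (g k) := by
  have hεε : ε * ε = 1 := by
    rcases hε with rfl | rfl <;> norm_num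
  have hε' : -ε = 1 ∨ -ε = -1 := by
    rcases hε with rfl | rfl
    · exact Or.inr rfl
    · exact Or.inl (by norm_num)
  have e1 : mv p q ε f p = f p + ε • f q := Function.update_self _ _ _
  have e1' : ∀ k, k ≠ p → mv p q ε f k = f k := fun k hk => Function.update_of_ne hk _ _
  have e2 : mv q p (-ε) (mv p q ε f) q = -(ε • f p) := by
    have h : mv q p (-ε) (mv p q ε f) q = mv p q ε f q + (-ε) • mv p q ε f p := Function.update_self _ _ _
    rw [h, e1, e1' q hpq.symm, smul_add, smul_smul, neg_mul, hεε, neg_smul, neg_smul, one_smul]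
    abel
  have e2' : ∀ k, k ≠ q → mv q p (-ε) (mv p q ε f) k = mv p q ε f k := fun k hk => Function.update_of_ne hk _ _
  have e3 : mv p q ε (mv q p (-ε) (mv p q ε f)) p = ε • f q := by
    have h : mv p q ε (mv q p (-ε) (mv p q ε f)) p =
      mv q p (-ε) (mv p q ε f) p + ε • mv q p (-ε) (mv p q ε f) q := Function.update_self _ _ _
    rw [h, e2, e2' p hpq, e1, smul_neg, smul_smul, hεε, one_smul]
    abel
  have e3' : ∀ k, k ≠ p → mv p q ε (mv q p (-ε) (mv p q ε f)) k = mv q p (-ε) (mv p q ε f) k :=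
    fun k hk => Function.update_of_ne hk _ _
  refine ⟨mv p q ε (mv q p (-ε) (mv p q ε f)), ?_, e3, ?_, ?_⟩
  · refine MReach.step p q ε (MReach.step q p (-ε) (MReach.step p q ε (MReach.refl f fun i => slab_two (hf i))
      hpq hε ?_) hpq.symm hε' ?_) hpq hε ?_
    · exact slab_add (hf p) (slab_smul (hf q) hε)
    · have h : mv q p (-ε) (mv p q ε f) q = mv p q ε f q + (-ε) • mv p q ε f p := Function.update_self _ _ _
      rw [← h, e2]
      exact slab_two (slab_neg (slab_smul (hf p) hε))
    · have h : mv p q ε (mv q p (-ε) (mv p q ε f)) p =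
        mv q p (-ε) (mv p q ε f) p + ε • mv q p (-ε) (mv p q ε f) q := Function.update_self _ _ _
      rw [← h, e3]
      exact slab_two (slab_smul (hf q) hε)
  · rw [e3' q hpq.symm, e2]
  · intro k
    by_cases hkp : k = p
    · subst hkp
      rw [e3]
      exact slab_smul (hf q) hε
    · by_cases hkq : k = q
      · subst hkq
        rw [e3' k hkp, e2]
        exact slab_neg (slab_smul (hf p) hε)
      · rw [e3' k hkp, e2' k hkq, e1' k hkp]
        exact hf k

theorem stepA {n : ℕ} (z : Fin n → ℝ) (ρ X : ℝ) (r : Fin n → ℤ) (hX : 1 ≤ X)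
    (hz : ∀ i, |z i| ≤ ρ) (hr : |ev z r| ≤ ρ) (hrX : ∀ l, |(r l : ℝ)| ≤ X)
    (hprim : ∃ a : Fin n → ℤ, ∑ l, a l * r l = 1) :
    ∃ (m : ℕ) (f : Fin n → Fin n → ℤ), (m : ℝ) ≤ n * X ∧ MReach (Slab z ρ X) m (std n) f ∧
      ∃ i, f i = r ∨ f i = -r := by
  have hstd : ∀ (i : Fin n) (l : Fin n), std n i l = if l = i then 1 else 0 := by
    intro i l
    unfold std
    rw [Pi.single_apply]
  have hS : ∀ i, Slab z ρ X (std n i) := by
    intro i
    constructor
    · have h1 : ev z (std n i) = z i := by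
        unfold ev
        rw [Finset.sum_eq_single i]
        · rw [hstd, if_pos rfl]
          push_cast
          ring
        · intro l _ hl
          rw [hstd, if_neg hl]
          push_cast
          ring
        · intro h
          exact absurd (Finset.mem_univ i) h
      rw [h1]
      exact hz i
    · intro l
      rw [hstd]
      split_ifs
      · simpa using hX
      · simp
        linarith
  obtain ⟨m, g, hm, hg, hgi⟩ := stepAux z ρ X r hr hrX hprim (∑ j, (r j).natAbs) (std n) r 0 rfl (MReach.refl _ hS)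
    (by
      intro l
      rw [Finset.sum_eq_single l]
      · rw [hstd, if_pos rfl, mul_one]
      · intro j _ hj
        rw [hstd, if_neg (Ne.symm hj), mul_zero]
      · intro h
        exact absurd (Finset.mem_univ l) h)
    (by
      intro i j l
      by_cases hij : i = j
      · subst hij
        exact mul_self_nonneg _
      · have h1 : std n i l = 0 ∨ std n j l = 0 := by
          by_cases hli : l = i
          · right
            rw [hstd, if_neg (fun h => hij (hli.symm.trans h))]
          · left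
            rw [hstd, if_neg hli]
        rcases h1 with h | h
        · rw [h, mul_zero, zero_mul]
        · rw [h, mul_zero, mul_zero])
  refine ⟨m, g, ?_, hg, hgi⟩
  have h2 : (m : ℝ) ≤ ∑ j, ((r j).natAbs : ℝ) := by
    have h3 : m ≤ ∑ j, (r j).natAbs := by omega
    exact_mod_cast h3
  refine h2.trans ?_
  have h4 : ∑ j, ((r j).natAbs : ℝ) ≤ ∑ _j : Fin n, X := by
    refine Finset.sum_le_sum fun j _ => ?_
    have h5 : ((r j).natAbs : ℝ) = |(r j : ℝ)| := by
      rw [← Int.cast_abs, Int.abs_eq_natAbs, Int.cast_natCast]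
    rw [h5]
    exact hrX j
  refine h4.trans ?_
  rw [Finset.sum_const, Finset.card_univ, Fintype.card_fin, nsmul_eq_mul]

/-- bringing `± r` to the position `i0` as `r`. If it sits at `i ≠ i0`: three moves
`(a, b) → (a + b, b) → (a + b, -a) → (b, -a)` (positions `i0, i`), or
`(a, b) → (a - b, b) → (a - b, a) → (-b, a)`. If `f i0 = -r`: rotate twice with any other index. -/
theorem rotate {n : ℕ} (hn : 2 ≤ n) (z : Fin n → ℝ) (ρ X : ℝ) (f : Fin n → Fin n → ℤ)
    (hf : ∀ i, Slab z ρ X (f i)) (r : Fin n → ℤ) (i0 i : Fin n) (hi : f i = r ∨ f i = -r) :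
    ∃ (m : ℕ) (g : Fin n → Fin n → ℤ), m ≤ 6 ∧ MReach (Slab z (2 * ρ) (2 * X)) m f g ∧
      g i0 = r := by
  by_cases hii : i = i0
  · subst hii
    rcases hi with hi | hi
    · exact ⟨0, f, by omega, MReach.refl f fun k => slab_two (hf k), hi⟩
    · obtain ⟨j, hj⟩ : ∃ j : Fin n, i ≠ j := by
        by_cases h0 : i = ⟨0, by omega⟩
        · exact ⟨⟨1, by omega⟩, by rw [h0]; intro h; exact absurd (congrArg Fin.val h) (by norm_num)⟩
        · exact ⟨⟨0, by omega⟩, h0⟩
      obtain ⟨g, hg, hg1, hg2, hg3⟩ := rot hf hj (ε := 1) (Or.inl rfl)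
      obtain ⟨g', hg', hg1', -, -⟩ := rot hg3 hj (ε := 1) (Or.inl rfl)
      refine ⟨3 + 3, g', by omega, hg.trans hg', ?_⟩
      rw [hg1', hg2, hi, one_smul, one_smul, neg_neg]
  · have hii' : i0 ≠ i := fun h => hii h.symm
    rcases hi with hi | hi
    · obtain ⟨g, hg, hg1, -, -⟩ := rot hf hii' (ε := 1) (Or.inl rfl)
      exact ⟨3, g, by omega, hg, by rw [hg1, hi, one_smul]⟩
    · obtain ⟨g, hg, hg1, -, -⟩ := rot hf hii' (ε := -1) (Or.inr rfl)
      exact ⟨3, g, by omega, hg, by rw [hg1, hi, neg_one_smul, neg_neg]⟩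

end LatLin.B
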