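import Pool.Agent.Lib.MP_2392aa_gt.B.SlabDefs

/-!
MODULE SlabBasic. Elementary properties of `MReach` (all by induction on the relation).

* `trans`: induction on the second relation.
* `mono`: induction.
* `target`, `source`: every member of the last (first) family satisfies `D`; for a move use
  `Function.update` (member `i` is the new one, the others are old).
* `map`: `L ∘ mv i j c g = mv i j c (L ∘ g)`.
* `cons`: `Fin.cons r (mv i j c g) = mv i.succ j.succ c (Fin.cons r g)`.
* `line`: from `Fin.cons r f` to `Fin.cons r g` with `g i = f i + a i • r`: induction on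
  `∑ i, |a i|`: if some `a i ≠ 0` let `σ = sign (a i)`, first go to `f' = update f i (f i + σ • r)`,
  `a' = update a i (a i - σ)`; this is the move `mv i.succ 0 σ`.
* `det`: the matrix with rows `f` has determinant one: a move multiplies by a transvection, or use
  `Matrix.det_updateRow_add_smul_self`; start: the matrix with rows `std n` is `1`.
-/

namespace LatLin.B

variable {n : ℕ} {V W : Type*} [AddCommGroup V] [AddCommGroup W]

theorem MReach.trans {D : V → Prop} {a b : ℕ} {f g h : Fin n → V} (h1 : MReach D a f g)
    (h2 : MReach D b g h) : MReach D (a + b) f h := by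
  induction h2 with
  | refl f' hf => simpa using h1
  | step i j c h3 hij hc hD ih =>
    exact MReach.step i j c (ih h1) hij hc hD

theorem MReach.mono {D D' : V → Prop} (hD : ∀ v, D v → D' v) {m : ℕ} {f g : Fin n → V}
    (h : MReach D m f g) : MReach D' m f g := by
  induction h with
  | refl f' hf => exact MReach.refl f' (fun i => hD _ (hf i))
  | step i j c h3 hij hc hD3 ih =>
    exact MReach.step i j c ih hij hc (hD _ hD3)

theorem MReach.target {D : V → Prop} {m : ℕ} {f g : Fin n → V} (h : MReach D m f g) :
    ∀ i, D (g i) := by
  induction h with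
  | refl f' hf => exact hf
  | @step m f' g' i j c h3 hij hc hD3 ih =>
    intro k
    unfold mv
    by_cases hk : k = i
    · subst hk
      rw [Function.update_self]
      exact hD3
    · rw [Function.update_of_ne hk]
      exact ih k

theorem MReach.source {D : V → Prop} {m : ℕ} {f g : Fin n → V} (h : MReach D m f g) :
    ∀ i, D (f i) := by
  induction h with
  | refl f' hf => exact hf
  | step i j c h3 hij hc hD3 ih => exact ih

theorem MReach.map (L : V →+ W) {D : V → Prop} {D' : W → Prop} (hD : ∀ v, D v → D' (L v))
    {m : ℕ} {f g : Fin n → V} (h : MReach D m f g) :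
    MReach D' m (fun i => L (f i)) (fun i => L (g i)) := by
  induction h with
  | refl f' hf => exact MReach.refl _ (fun i => hD _ (hf i))
  | @step m f' g' i j c h3 hij hc hD3 ih =>
    have e : (fun k => L (mv i j c g' k)) = mv i j c (fun k => L (g' k)) := by
      funext k
      unfold mv
      by_cases hk : k = i
      · subst hk
        rw [Function.update_self, Function.update_self, map_add, map_zsmul]
      · rw [Function.update_of_ne hk, Function.update_of_ne hk]
    rw [e]
    refine MReach.step i j c ih hij hc ?_
    have := hD _ hD3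
    rw [map_add, map_zsmul] at this
    exact this

theorem MReach.cons {D : V → Prop} {m : ℕ} {f g : Fin n → V} (h : MReach D m f g) {r : V}
    (hr : D r) : MReach D m (Fin.cons r f : Fin (n + 1) → V) (Fin.cons r g) := by
  induction h with
  | refl f' hf =>
    refine MReach.refl _ (fun i => ?_)
    refine Fin.cases ?_ (fun k => ?_) i
    · simpa using hr
    · simpa using hf k
  | @step m f' g' i j c h3 hij hc hD3 ih =>
    have e : (Fin.cons r (mv i j c g') : Fin (n + 1) → V) =
        mv i.succ j.succ c (Fin.cons r g' : Fin (n + 1) → V) := by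
      funext k
      unfold mv
      refine Fin.cases ?_ (fun l => ?_) k
      · rw [Function.update_of_ne (Fin.succ_ne_zero i).symm]
        simp
      · by_cases hl : l = i
        · subst hl
          simp
        · rw [Function.update_of_ne (fun e => hl (Fin.succ_injective _ e))]
          simp [Function.update_of_ne hl]
    rw [e]
    refine MReach.step i.succ j.succ c ih (fun e => hij (Fin.succ_injective _ e)) hc ?_
    simpa using hD3

private theorem SlabBasic_line {D : V → Prop} {r : V} (hr : D r) (f : Fin n → V) :
    ∀ (N : ℕ) (a : Fin n → ℤ), (∑ i, (a i).natAbs) = N →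
    (∀ i, ∀ t : ℤ, (0 ≤ t ∧ t ≤ a i) ∨ (a i ≤ t ∧ t ≤ 0) → D (f i + t • r)) →
    MReach D N (Fin.cons r f : Fin (n + 1) → V) (Fin.cons r (fun i => f i + a i • r)) := by
  intro N
  induction N with
  | zero =>
    intro a ha hD
    have h0 : ∀ i, a i = 0 := by
      intro i
      have := (Finset.sum_eq_zero_iff_of_nonneg (fun i _ => Nat.zero_le _)).1 ha i
        (Finset.mem_univ i)
      exact Int.natAbs_eq_zero.1 this
    have e : (fun i => f i + a i • r) = f := by
      funext i
      rw [h0 i]
      simp
    rw [e]
    refine MReach.refl _ (fun i => ?_)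
    refine Fin.cases ?_ (fun k => ?_) i
    · simpa using hr
    · have := hD k 0 (by rw [h0 k]; simp)
      simpa using this
  | succ N ih =>
    intro a ha hD
    obtain ⟨i, hi⟩ : ∃ i, a i ≠ 0 := by
      by_contra hcon
      push Not at hcon
      have : (∑ i, (a i).natAbs) = 0 := Finset.sum_eq_zero (fun i _ => by rw [hcon i]; rfl)
      omega
    obtain ⟨σ, hσ, hσ1, hσ2⟩ : ∃ σ : ℤ, (σ = 1 ∨ σ = -1) ∧ (a i - σ).natAbs + 1 = (a i).natAbs ∧
        (∀ t : ℤ, (0 ≤ t ∧ t ≤ a i - σ) ∨ (a i - σ ≤ t ∧ t ≤ 0) →
          (0 ≤ t ∧ t ≤ a i) ∨ (a i ≤ t ∧ t ≤ 0)) := by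
      rcases lt_or_gt_of_ne hi with h | h
      · refine ⟨-1, Or.inr rfl, by omega, fun t ht => by omega⟩
      · refine ⟨1, Or.inl rfl, by omega, fun t ht => by omega⟩
    have hsum : (∑ k, ((Function.update a i (a i - σ)) k).natAbs) = N := by
      have h1 : (∑ k, (a k).natAbs) = (a i).natAbs + ∑ k ∈ Finset.univ.erase i, (a k).natAbs :=
        (Finset.add_sum_erase _ _ (Finset.mem_univ i)).symm
      have h2 : (∑ k, ((Function.update a i (a i - σ)) k).natAbs) =
          (a i - σ).natAbs + ∑ k ∈ Finset.univ.erase i, (a k).natAbs := by
        rw [← Finset.add_sum_erase _ _ (Finset.mem_univ i), Function.update_self]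
        congr 1
        refine Finset.sum_congr rfl (fun k hk => ?_)
        rw [Function.update_of_ne (Finset.ne_of_mem_erase hk)]
      omega
    have hih := ih (Function.update a i (a i - σ)) hsum (by
      intro k t ht
      by_cases hk : k = i
      · subst hk
        rw [Function.update_self] at ht
        exact hD k t (hσ2 t ht)
      · rw [Function.update_of_ne hk] at ht
        exact hD k t ht)
    have e : (Fin.cons r (fun i => f i + a i • r) : Fin (n + 1) → V) =
        mv i.succ 0 σ (Fin.cons r (fun k => f k + (Function.update a i (a i - σ)) k • r) :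
          Fin (n + 1) → V) := by
      funext k
      unfold mv
      refine Fin.cases ?_ (fun l => ?_) k
      · rw [Function.update_of_ne (Fin.succ_ne_zero i).symm]
        simp
      · by_cases hl : l = i
        · subst hl
          rw [Function.update_self]
          simp only [Fin.cons_succ, Fin.cons_zero, Function.update_self]
          rw [add_assoc, ← add_smul]
          congr 2
          ring
        · rw [Function.update_of_ne (fun e => hl (Fin.succ_injective _ e))]
          simp only [Fin.cons_succ]
          rw [Function.update_of_ne hl]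
    rw [e]
    refine MReach.step i.succ 0 σ hih (Fin.succ_ne_zero i) hσ ?_
    simp only [Fin.cons_succ, Fin.cons_zero, Function.update_self]
    have hh : f i + (a i - σ) • r + σ • r = f i + a i • r := by
      rw [add_assoc, ← add_smul]
      congr 2
      ring
    rw [hh]
    exact hD i (a i) (by omega)

theorem MReach.line {D : V → Prop} {r : V} (hr : D r) (f : Fin n → V) (a : Fin n → ℤ)
    (hD : ∀ i, ∀ t : ℤ, (0 ≤ t ∧ t ≤ a i) ∨ (a i ≤ t ∧ t ≤ 0) → D (f i + t • r)) :
    MReach D (∑ i, (a i).natAbs) (Fin.cons r f : Fin (n + 1) → V)
      (Fin.cons r (fun i => f i + a i • r)) :=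
  SlabBasic_line hr f _ a rfl hD

private theorem SlabBasic_det {D : (Fin n → ℤ) → Prop} {m : ℕ} {f g : Fin n → Fin n → ℤ}
    (h : MReach D m f g) : (Matrix.of g).det = (Matrix.of f).det := by
  induction h with
  | refl f' hf => rfl
  | @step m f' g' i j c h3 hij hc hD3 ih =>
    rw [← ih]
    have := Matrix.det_updateRow_add_smul_self (Matrix.of g') hij c
    exact this

theorem MReach.det {D : (Fin n → ℤ) → Prop} {m : ℕ} {f : Fin n → Fin n → ℤ}
    (h : MReach D m (std n) f) : (Matrix.of f).det = 1 := by
  rw [SlabBasic_det h]
  have e : (Matrix.of (std n) : Matrix (Fin n) (Fin n) ℤ) = 1 := by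
    ext i j
    simp [std, Matrix.one_apply, Pi.single_apply, eq_comm]
  rw [e, Matrix.det_one]

end LatLin.B
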