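import Mathlib

/-!
MP_2392aa_gt, class B (lattices commensurable with `SL_n(ℤ)`): slab connectivity.

A *move* on a family `f : Fin n → V` of vectors adds `±` one member to another one. `MReach D m f g`
says that `g` is obtained from `f` by `m` moves through families all of whose members satisfy `D`.
-/

namespace LatLin.B

/-- add `c • f j` to the member number `i` -/
def mv {n : ℕ} {V : Type*} [AddCommGroup V] (i j : Fin n) (c : ℤ) (f : Fin n → V) : Fin n → V :=
  Function.update f i (f i + c • f j)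

/-- `m` unit moves from `f` to `g` through families whose members satisfy `D` -/
inductive MReach {n : ℕ} {V : Type*} [AddCommGroup V] (D : V → Prop) :
    ℕ → (Fin n → V) → (Fin n → V) → Prop
  | refl (f : Fin n → V) (h : ∀ i, D (f i)) : MReach D 0 f f
  | step {m : ℕ} {f g : Fin n → V} (i j : Fin n) (c : ℤ) (h : MReach D m f g) (hij : i ≠ j)
      (hc : c = 1 ∨ c = -1) (hD : D (g i + c • g j)) : MReach D (m + 1) f (mv i j c g)

/-- the value at the integer vector `v` of the linear form with coefficients `z` -/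
def ev {n : ℕ} (z : Fin n → ℝ) (v : Fin n → ℤ) : ℝ := ∑ l, (v l : ℝ) * z l

/-- the slab of integer vectors with small value and bounded coordinates -/
def Slab {n : ℕ} (z : Fin n → ℝ) (ρ X : ℝ) (v : Fin n → ℤ) : Prop :=
  |ev z v| ≤ ρ ∧ ∀ l, |(v l : ℝ)| ≤ X

/-- the standard family -/
def std (n : ℕ) : Fin n → Fin n → ℤ := fun i => Pi.single i 1

/-- slab connectivity in dimension `n` -/
def SlabConn (n : ℕ) : Prop :=
  ∃ C : ℕ, ∀ (X ρ : ℝ) (z : Fin n → ℝ) (A : Matrix (Fin n) (Fin n) ℤ), 2 ≤ X → 0 ≤ ρ →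
    A.det = 1 → (∀ i j, |(A i j : ℝ)| ≤ X) → (∀ i, |z i| ≤ ρ) → (∀ i, |ev z (A i)| ≤ ρ) →
    ∃ m : ℕ, (m : ℝ) ≤ X ^ C ∧ MReach (Slab z (C * ρ) (X ^ C)) m (std n) (fun i => A i)

end LatLin.B
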