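import Pool.Agent.Lib.MP_2392aa_gt.B.SlabBasic

/-!
MODULE SlabRed. Reduction modulo a vector `r` after every move.

Given moves `f → g` in `D` and representatives `f i + c i • r` with `|z| ≤ ε = |z r|`, `0 < ε`,
there are at most `2 m` moves of the families `Fin.cons r _` from the representatives of `f` to
representatives of `g`, all with `|z| ≤ 2 ε` and all of the form `u + c • r` with `D u`.

PROOF. Induction on the relation. `refl`: nothing to do. Step `mv i j c` of `g`: by induction we are
at `g̃ l = g l + c' l • r`, `|z (g̃ l)| ≤ ε`. Make the move `mv i.succ j.succ c`: the new member is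
`g̃ i + c • g̃ j = (g i + c • g j) + (c' i + c * c' j) • r`, with `|z| ≤ 2 ε`. Then there is
`k ∈ {-1, 0, 1}` such that adding `k • r` gives `|z| ≤ ε` (`z r = ± ε`); if `k ≠ 0` make the move
`mv i.succ 0 k`.
-/

namespace LatLin.B

private theorem red_k {x ρ : ℝ} (hx : |x| ≤ 2 * |ρ|) :
    ∃ k : ℤ, (k = 0 ∨ k = 1 ∨ k = -1) ∧ |x + k * ρ| ≤ |ρ| := by
  by_cases h : |x| ≤ |ρ|
  · exact ⟨0, Or.inl rfl, by simpa using h⟩
  · push Not at h
    rcases le_total 0 ρ with hρ | hρ <;> rcases le_total 0 x with hx0 | hx0
    · refine ⟨-1, Or.inr (Or.inr rfl), ?_⟩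
      rw [abs_of_nonneg hρ] at *
      rw [abs_of_nonneg hx0] at *
      push_cast
      rw [abs_le]
      constructor <;> linarith
    · refine ⟨1, Or.inr (Or.inl rfl), ?_⟩
      rw [abs_of_nonneg hρ] at *
      rw [abs_of_nonpos hx0] at *
      push_cast
      rw [abs_le]
      constructor <;> linarith
    · refine ⟨1, Or.inr (Or.inl rfl), ?_⟩
      rw [abs_of_nonpos hρ] at *
      rw [abs_of_nonneg hx0] at *
      push_cast
      rw [abs_le]
      constructor <;> linarith
    · refine ⟨-1, Or.inr (Or.inr rfl), ?_⟩
      rw [abs_of_nonpos hρ] at *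
      rw [abs_of_nonpos hx0] at *
      push_cast
      rw [abs_le]
      constructor <;> linarith

private theorem red_mv_succ {n : ℕ} {V : Type*} [AddCommGroup V] (i j : Fin n) (c : ℤ) (r : V)
    (f : Fin n → V) : mv i.succ j.succ c (Fin.cons r f : Fin (n + 1) → V) =
      Fin.cons r (mv i j c f) := by
  funext l
  refine Fin.cases ?_ (fun l => ?_) l
  · rw [mv, Function.update_of_ne (Fin.succ_ne_zero i).symm]
    rfl
  · by_cases hl : l = i
    · subst hl
      rw [mv, Function.update_self, Fin.cons_succ, Fin.cons_succ, Fin.cons_succ, mv,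
        Function.update_self]
    · rw [mv, Function.update_of_ne (fun h => hl (Fin.succ_injective _ h)), Fin.cons_succ,
        Fin.cons_succ, mv, Function.update_of_ne hl]

private theorem red_mv_zero {n : ℕ} {V : Type*} [AddCommGroup V] (i : Fin n) (c : ℤ) (r : V)
    (f : Fin n → V) : mv i.succ 0 c (Fin.cons r f : Fin (n + 1) → V) =
      Fin.cons r (Function.update f i (f i + c • r)) := by
  funext l
  refine Fin.cases ?_ (fun l => ?_) l
  · rw [mv, Function.update_of_ne (Fin.succ_ne_zero i).symm]
    rfl
  · by_cases hl : l = i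
    · subst hl
      rw [mv, Function.update_self, Fin.cons_succ, Fin.cons_succ, Fin.cons_zero,
        Function.update_self]
    · rw [mv, Function.update_of_ne (fun h => hl (Fin.succ_injective _ h)), Fin.cons_succ,
        Fin.cons_succ, Function.update_of_ne hl]

private theorem red_upd {n : ℕ} {V : Type*} [AddCommGroup V] (i j : Fin n) (c : ℤ) (r : V)
    (g : Fin n → V) (c' : Fin n → ℤ) : mv i j c (fun l => g l + c' l • r) =
      fun l => mv i j c g l + (Function.update c' i (c' i + c * c' j)) l • r := by
  funext l
  by_cases hl : l = i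
  · subst hl
    rw [mv, Function.update_self, Function.update_self, mv, Function.update_self, smul_add,
      add_smul, mul_smul]
    abel
  · rw [mv, Function.update_of_ne hl, Function.update_of_ne hl, mv, Function.update_of_ne hl]

private theorem red_upd2 {n : ℕ} {V : Type*} [AddCommGroup V] (i : Fin n) (k : ℤ) (r : V)
    (g : Fin n → V) (c' : Fin n → ℤ) :
    Function.update (fun l => g l + c' l • r) i ((g i + c' i • r) + k • r) =
      fun l => g l + (Function.update c' i (c' i + k)) l • r := by
  funext l
  by_cases hl : l = i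
  · subst hl
    rw [Function.update_self, Function.update_self, add_smul, add_assoc]
  · rw [Function.update_of_ne hl, Function.update_of_ne hl]

theorem reduce {n : ℕ} {V : Type*} [AddCommGroup V] (z : V →+ ℝ) (r : V) (hr : z r ≠ 0)
    {D : V → Prop} (hD0 : D 0) {m : ℕ} {f g : Fin n → V} (h : MReach D m f g) (c : Fin n → ℤ)
    (hc : ∀ i, |z (f i + c i • r)| ≤ |z r|) :
    ∃ (m' : ℕ) (c' : Fin n → ℤ), m' ≤ 2 * m ∧ (∀ i, |z (g i + c' i • r)| ≤ |z r|) ∧
      MReach (fun v => |z v| ≤ 2 * |z r| ∧ ∃ (u : V) (k : ℤ), D u ∧ v = u + k • r) m'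
        (Fin.cons r (fun i => f i + c i • r) : Fin (n + 1) → V)
        (Fin.cons r (fun i => g i + c' i • r)) := by
  have hpos := abs_nonneg (z r)
  induction h with
  | refl f h =>
    refine ⟨0, c, le_rfl, hc, MReach.refl _ fun i => ?_⟩
    refine Fin.cases ?_ (fun l => ?_) i
    · refine ⟨?_, 0, 1, hD0, ?_⟩
      · rw [Fin.cons_zero]
        linarith
      · rw [Fin.cons_zero, one_smul, zero_add]
    · refine ⟨?_, f l, c l, h l, ?_⟩
      · rw [Fin.cons_succ]
        have := hc l
        linarith
      · rw [Fin.cons_succ]
  | @step m f g i j e h hij he hD ih =>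
    obtain ⟨m', c', hm', hc', hR⟩ := ih hc
    have hnew : (g i + c' i • r) + e • (g j + c' j • r) =
        (g i + e • g j) + (c' i + e * c' j) • r := by
      rw [smul_add, add_smul, mul_smul]
      abel
    have hz2 : |z ((g i + c' i • r) + e • (g j + c' j • r))| ≤ 2 * |z r| := by
      rw [map_add, map_zsmul, zsmul_eq_mul]
      have h1 := hc' i
      have h2 := hc' j
      have h3 : |(e : ℝ) * z (g j + c' j • r)| ≤ |z r| := by
        rw [abs_mul]
        have : |(e : ℝ)| = 1 := by
          rcases he with he | he <;> rw [he] <;> simp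
        rw [this, one_mul]
        exact h2
      have h4 := abs_add_le (z (g i + c' i • r)) ((e : ℝ) * z (g j + c' j • r))
      linarith
    set c₁ : Fin n → ℤ := Function.update c' i (c' i + e * c' j) with hc₁
    have hstep1 : MReach (fun v => |z v| ≤ 2 * |z r| ∧ ∃ (u : V) (k : ℤ), D u ∧ v = u + k • r)
        (m' + 1) (Fin.cons r (fun i => f i + c i • r) : Fin (n + 1) → V)
        (Fin.cons r (fun l => mv i j e g l + c₁ l • r)) := by
      have h1 := MReach.step i.succ j.succ e hR (fun h => hij (Fin.succ_injective _ h)) he
        (by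
          rw [Fin.cons_succ, Fin.cons_succ]
          exact ⟨hz2, _, _, hD, hnew⟩)
      rw [red_mv_succ, red_upd] at h1
      exact h1
    have hval : ∀ l, l ≠ i → mv i j e g l + c₁ l • r = g l + c' l • r := by
      intro l hl
      rw [mv, Function.update_of_ne hl, hc₁, Function.update_of_ne hl]
    have hvali : mv i j e g i + c₁ i • r = (g i + c' i • r) + e • (g j + c' j • r) := by
      rw [mv, Function.update_self, hc₁, Function.update_self, hnew]
    obtain ⟨k, hk, hkx⟩ := red_k hz2
    by_cases hk0 : k = 0
    · refine ⟨m' + 1, c₁, by omega, fun l => ?_, hstep1⟩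
      by_cases hl : l = i
      · subst hl
        rw [hvali]
        rw [hk0] at hkx
        simpa using hkx
      · rw [hval l hl]
        exact hc' l
    · have hk1 : k = 1 ∨ k = -1 := by
        rcases hk with h | h | h
        · exact absurd h hk0
        · exact Or.inl h
        · exact Or.inr h
      have hzk : |z (mv i j e g i + c₁ i • r + k • r)| ≤ |z r| := by
        rw [hvali, map_add, map_zsmul, zsmul_eq_mul]
        exact hkx
      refine ⟨m' + 2, Function.update c₁ i (c₁ i + k), by omega, fun l => ?_, ?_⟩
      · by_cases hl : l = i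
        · subst hl
          rw [Function.update_self, add_smul, ← add_assoc]
          exact hzk
        · rw [Function.update_of_ne hl, hval l hl]
          exact hc' l
      · have h1 := MReach.step i.succ 0 k hstep1 (Fin.succ_ne_zero i) hk1
          (by
            rw [Fin.cons_succ, Fin.cons_zero]
            refine ⟨by linarith, g i + e • g j, c' i + e * c' j + k, hD, ?_⟩
            rw [hvali, hnew, add_smul (c' i + e * c' j) k r, ← add_assoc])
        rw [red_mv_zero, red_upd2] at h1
        exact h1

end LatLin.B
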