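import Pool.Agent.Lib.MP_2392aa_gt.B.RayDefs

/-!
MODULE Van. Calculus of the order of vanishing at a point (all functions smooth).

* `Van.bigO`: Taylor formula `map_add_eq_sum_add_integral_iteratedFDeriv` (file TaylorIntegral), or
  induction on `m` with the mean value inequality (`‖fderiv f z‖ ≤ C ‖z - x‖ ^ (m-1)`,
  `norm_iteratedFDeriv_fderiv`).
* `van_of_bigO` (the converse): induction on `m`. If `f = O(‖z - x‖^(m+1))` then `Van m f x` by
  induction, so the Taylor formula of order `m` along `x + t v` gives
  `t^m A(v,…,v) / m! = O(t^(m+1))`, `A = iteratedFDeriv ℝ m f x`, hence `A(v,…,v) = 0` for all `v`.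
  `A` is symmetric (`ContDiffAt.iteratedFDeriv_comp_perm`), hence `A = 0` by polarization
  (`van_polar`): differentiate `A(v,…,v) = 0`, or expand `A(v + t w, …)`, or use the polarization
  formula over subsets.
-/

open scoped ContDiff Topology

namespace LatLin.B

variable {E F : Type*} [NormedAddCommGroup E] [NormedSpace ℝ E] [NormedAddCommGroup F]
  [NormedSpace ℝ F]

theorem van_polar (m : ℕ) (A : ContinuousMultilinearMap ℝ (fun _ : Fin m => E) F)
    (hsym : ∀ (σ : Equiv.Perm (Fin m)) (v : Fin m → E), A (v ∘ σ) = A v)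
    (hdiag : ∀ v : E, A (fun _ => v) = 0) : A = 0 := by
  have key : ∀ k : ℕ, ∀ x : Fin m → E, (∀ i j : Fin m, k ≤ i.val → k ≤ j.val → x i = x j) → A x = 0 := by
    intro k
    induction k with
    | zero =>
      intro x hx
      by_cases hm : m = 0
      · subst hm
        rw [Subsingleton.elim x (fun _ => 0)]
        exact hdiag 0
      · have : x = fun _ => x ⟨0, by omega⟩ := by
          funext i
          exact hx _ _ (Nat.zero_le _) (Nat.zero_le _)
        rw [this]
        exact hdiag _
    | succ k ih =>
      intro x hx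
      by_cases hk : k < m
      swap
      · exact ih x (fun i j hi _ => absurd (lt_of_le_of_lt hi i.2) (by omega))
      by_cases hk' : k + 1 < m
      swap
      · refine ih x (fun i j hi hj => ?_)
        have h1 : i = j := Fin.ext (by omega)
        rw [h1]
      set u := x ⟨k, hk⟩ with hu
      set w := x ⟨k + 1, hk'⟩ with hw
      set y : Fin m → E := Function.update x ⟨k, hk⟩ w with hy
      set d : Fin m → E := fun i => if k ≤ i.val then u else 0 with hd
      have hyw : ∀ i : Fin m, k ≤ i.val → y i = w := by
        intro i hi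
        rw [hy]
        by_cases h : i = ⟨k, hk⟩
        · rw [h, Function.update_self]
        · rw [Function.update_of_ne h, hw]
          have : i.val ≠ k := fun h' => h (Fin.ext h')
          exact hx _ _ (by omega) (by simp)
      have hyx : Function.update y ⟨k, hk⟩ u = x := by
        rw [hy, Function.update_idem, hu, Function.update_eq_self]
      have hg : ∀ t : ℝ, A (y + t • d) = 0 := by
        intro t
        apply ih
        intro i j hi hj
        simp only [Pi.add_apply, Pi.smul_apply, hyw i hi, hyw j hj, hd, hi, hj, if_true]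
      have hder : HasDerivAt (fun t : ℝ => A (y + t • d)) (A.linearDeriv y d) 0 := by
        have h1 : HasDerivAt (fun t : ℝ => y + t • d) d 0 := by
          have h2 := ((hasDerivAt_id (0 : ℝ)).smul_const d).const_add y
          simpa using h2
        have h3 : HasFDerivAt A (A.linearDeriv y) (y + (0 : ℝ) • d) := by
          rw [zero_smul, add_zero]
          exact A.hasFDerivAt y
        exact h3.comp_hasDerivAt (0 : ℝ) h1
      have hz : A.linearDeriv y d = 0 := by
        have h1 : (fun t : ℝ => A (y + t • d)) = fun _ => 0 := funext hg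
        rw [h1] at hder
        exact hder.unique (hasDerivAt_const _ _)
      rw [ContinuousMultilinearMap.linearDeriv_apply] at hz
      have hterm : ∀ i : Fin m, A (Function.update y i (d i)) = if k ≤ i.val then A x else 0 := by
        intro i
        by_cases hi : k ≤ i.val
        · rw [if_pos hi]
          have h1 : Function.update y i (d i) =
              (Function.update y ⟨k, hk⟩ u) ∘ (Equiv.swap i ⟨k, hk⟩) := by
            funext j
            simp only [Function.comp_apply, hd, hi, if_true]
            by_cases hj : j = i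
            · subst hj
              rw [Function.update_self, Equiv.swap_apply_left, Function.update_self]
            · rw [Function.update_of_ne hj]
              by_cases hj' : j = ⟨k, hk⟩
              · subst hj'
                rw [Equiv.swap_apply_right]
                have h2 : i ≠ ⟨k, hk⟩ := fun h => hj h.symm
                rw [Function.update_of_ne h2, hyw i hi, hyw ⟨k, hk⟩ le_rfl]
              · rw [Equiv.swap_apply_of_ne_of_ne hj hj', Function.update_of_ne hj']
          rw [h1, hsym, hyx]
        · rw [if_neg hi]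
          apply A.map_coord_zero i
          simp [hd, hi]
      simp only [hterm] at hz
      rw [← Finset.sum_filter, Finset.sum_const, ← Nat.cast_smul_eq_nsmul ℝ] at hz
      rcases smul_eq_zero.1 hz with h1 | h1
      · exfalso
        rw [Nat.cast_eq_zero, Finset.card_eq_zero] at h1
        have h2 : (⟨k, hk⟩ : Fin m) ∈ Finset.univ.filter (fun i : Fin m => k ≤ i.val) := by simp
        rw [h1] at h2
        simp at h2
      · exact h1
  ext x
  exact key m x (fun i j hi _ => absurd i.2 (by omega))

private theorem iter_diff {f : E → F} (hf : ContDiff ℝ ∞ f) (n : ℕ) (x : E) :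
    DifferentiableAt ℝ (iteratedFDeriv ℝ n f) x :=
  (hf.differentiable_iteratedFDeriv (m := n) (mod_cast ENat.natCast_lt_top n)) x

private theorem iter_adj {f : E → F} (hf : ContDiff ℝ ∞ f) (n : ℕ) : ∀ (i : Fin n) (x : E) (v : Fin (n + 1) → E),
    iteratedFDeriv ℝ (n + 1) f x (v ∘ Equiv.swap i.castSucc i.succ) = iteratedFDeriv ℝ (n + 1) f x v := by
  induction n with
  | zero => intro i; exact i.elim0
  | succ n ih =>
    intro i x v
    refine Fin.cases ?_ (fun j => ?_) i
    · -- the swap of the first two
      set g : E → F := fun y => iteratedFDeriv ℝ n f y (Fin.tail (Fin.tail v)) with hg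
      have hgs : ContDiff ℝ ∞ g := by
        have h1 : ContDiff ℝ ∞ (iteratedFDeriv ℝ n f) := by
          apply hf.iteratedFDeriv_right
          exact_mod_cast le_top
        exact (ContinuousMultilinearMap.apply ℝ (fun _ : Fin n => E) F (Fin.tail (Fin.tail v))).contDiff.comp h1
      have h2 : ∀ w : Fin (n + 2) → E, Fin.tail (Fin.tail w) = Fin.tail (Fin.tail v) →
          iteratedFDeriv ℝ (n + 2) f x w = fderiv ℝ (fderiv ℝ g) x (w 0) (w 1) := by
        intro w hw
        rw [(iter_diff hf (n + 1) x).iteratedFDeriv_succ_apply_left']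
        have h3 : (fun y => iteratedFDeriv ℝ (n + 1) f y (Fin.tail w)) = fun y => fderiv ℝ g y (w 1) := by
          funext y
          rw [(iter_diff hf n y).iteratedFDeriv_succ_apply_left', hw]
          rfl
        rw [h3]
        have h4 : DifferentiableAt ℝ (fderiv ℝ g) x :=
          (hgs.fderiv_right (m := ∞) (by simp)).differentiable (by simp) x
        rw [fderiv_clm_apply h4 (differentiableAt_const _)]
        simp
      have hsymm : IsSymmSndFDerivAt ℝ g x := hgs.contDiffAt.isSymmSndFDerivAt (by
        rw [minSmoothness_of_isRCLikeNormedField]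
        exact ENat.LEInfty.out)
      rw [h2 v rfl, h2 (v ∘ _)]
      · have e0 : (v ∘ (Equiv.swap (0 : Fin (n + 1)).castSucc (0 : Fin (n + 1)).succ)) 0 = v 1 := by
          simp
        have e1 : (v ∘ (Equiv.swap (0 : Fin (n + 1)).castSucc (0 : Fin (n + 1)).succ)) 1 = v 0 := by
          simp
        rw [e0, e1]
        exact hsymm (v 1) (v 0)
      · funext j
        simp only [Fin.tail, Function.comp_apply]
        rw [Equiv.swap_apply_of_ne_of_ne]
        · simp [Fin.ext_iff]
        · simp [Fin.ext_iff]
    · rw [(iter_diff hf (n + 1) x).iteratedFDeriv_succ_apply_left',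
        (iter_diff hf (n + 1) x).iteratedFDeriv_succ_apply_left']
      have h1 : Fin.tail (v ∘ Equiv.swap j.succ.castSucc j.succ.succ) =
          Fin.tail v ∘ Equiv.swap j.castSucc j.succ := by
        funext a
        simp only [Fin.tail, Function.comp_apply]
        congr 1
        have h3 : j.succ.castSucc = j.castSucc.succ := rfl
        rw [h3]
        by_cases ha : a = j.castSucc
        · subst ha
          rw [Equiv.swap_apply_left, Equiv.swap_apply_left]
        · by_cases hb : a = j.succ
          · subst hb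
            rw [Equiv.swap_apply_right, Equiv.swap_apply_right]
          · rw [Equiv.swap_apply_of_ne_of_ne ha hb, Equiv.swap_apply_of_ne_of_ne]
            · exact fun h => ha (Fin.succ_injective _ h)
            · exact fun h => hb (Fin.succ_injective _ h)
      have h2 : (v ∘ Equiv.swap j.succ.castSucc j.succ.succ) 0 = v 0 := by
        simp only [Function.comp_apply]
        rw [Equiv.swap_apply_of_ne_of_ne]
        · simp [Fin.ext_iff]
        · simp [Fin.ext_iff]
      rw [h1, h2]
      congr 2
      funext y
      exact ih j y (Fin.tail v)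

private theorem iter_symm {f : E → F} (hf : ContDiff ℝ ∞ f) (m : ℕ) (x : E) (σ : Equiv.Perm (Fin m))
    (v : Fin m → E) : iteratedFDeriv ℝ m f x (v ∘ σ) = iteratedFDeriv ℝ m f x v := by
  cases m with
  | zero => rw [Subsingleton.elim (v ∘ σ) v]
  | succ n =>
    have h1 : σ ∈ Submonoid.closure (Set.range fun i : Fin n => Equiv.swap i.castSucc i.succ) := by
      rw [Equiv.Perm.mclosure_swap_castSucc_succ]
      trivial
    induction h1 using Submonoid.closure_induction generalizing v with
    | mem τ hτ =>
      obtain ⟨i, rfl⟩ := hτ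
      exact iter_adj hf n i x v
    | one => rfl
    | mul τ ρ _ _ h3 h4 =>
      have h5 : v ∘ ⇑(τ * ρ) = (v ∘ τ) ∘ ρ := rfl
      rw [h5, h4, h3]

private theorem taylor_bound [CompleteSpace F] {f : E → F} (hf : ContDiff ℝ ∞ f) (n : ℕ) (x : E) :
    ∃ C : ℝ, 0 ≤ C ∧ ∃ r : ℝ, 0 < r ∧ ∀ y : E, ‖y‖ < r →
      ‖f (x + y) - ∑ k ∈ Finset.range (n + 1), ((k.factorial : ℝ))⁻¹ • iteratedFDeriv ℝ k f x (fun _ => y)‖
        ≤ C * ‖y‖ ^ (n + 1) := by
  have hc : Continuous (fun z => ‖iteratedFDeriv ℝ (n + 1) f z‖) :=
    (hf.continuous_iteratedFDeriv (m := n + 1) (by exact_mod_cast le_top)).norm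
  have h1 : ∀ᶠ z in 𝓝 x, ‖iteratedFDeriv ℝ (n + 1) f z‖ < ‖iteratedFDeriv ℝ (n + 1) f x‖ + 1 :=
    hc.continuousAt.eventually_lt continuousAt_const (by linarith)
  obtain ⟨r, hr, hr'⟩ := Metric.eventually_nhds_iff.1 h1
  set M := ‖iteratedFDeriv ℝ (n + 1) f x‖ + 1 with hM
  have hM0 : 0 ≤ M := by positivity
  refine ⟨((n.factorial : ℝ))⁻¹ * M, by positivity, r, hr, fun y hy => ?_⟩
  have h2 := map_add_eq_sum_add_integral_iteratedFDeriv (f := f) (x := x) (y := y) (n := n)
    (fun t _ => (hf.of_le (by exact_mod_cast le_top)).contDiffAt)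
  rw [h2, add_sub_cancel_left, norm_smul, norm_inv, Real.norm_natCast, mul_assoc]
  refine mul_le_mul_of_nonneg_left ?_ (by positivity)
  have h3 : ∀ t ∈ Set.uIoc (0 : ℝ) 1, ‖(1 - t) ^ n • iteratedFDeriv ℝ (n + 1) f (x + t • y) (fun _ => y)‖
      ≤ M * ‖y‖ ^ (n + 1) := by
    intro t ht
    rw [Set.uIoc_of_le zero_le_one] at ht
    have ht0 : 0 ≤ 1 - t := by linarith [ht.2]
    have ht1 : 1 - t ≤ 1 := by linarith [ht.1]
    rw [norm_smul, norm_pow, Real.norm_of_nonneg ht0]
    have h4 : (1 - t) ^ n ≤ 1 := pow_le_one₀ ht0 ht1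
    have h5 : ‖iteratedFDeriv ℝ (n + 1) f (x + t • y) (fun _ => y)‖ ≤ M * ‖y‖ ^ (n + 1) := by
      refine (ContinuousMultilinearMap.le_opNorm _ _).trans ?_
      rw [Finset.prod_const, Finset.card_univ, Fintype.card_fin]
      refine mul_le_mul_of_nonneg_right ?_ (by positivity)
      apply le_of_lt
      apply hr'
      rw [dist_eq_norm, add_sub_cancel_left, norm_smul, Real.norm_of_nonneg ht.1.le]
      calc t * ‖y‖ ≤ 1 * ‖y‖ := mul_le_mul_of_nonneg_right ht.2 (norm_nonneg _)
        _ = ‖y‖ := one_mul _
        _ < r := hy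
    calc (1 - t) ^ n * ‖iteratedFDeriv ℝ (n + 1) f (x + t • y) (fun _ => y)‖
        ≤ 1 * (M * ‖y‖ ^ (n + 1)) := mul_le_mul h4 h5 (norm_nonneg _) zero_le_one
      _ = M * ‖y‖ ^ (n + 1) := one_mul _
  have h6 := intervalIntegral.norm_integral_le_of_norm_le_const h3
  simpa using h6

theorem Van.bigO [CompleteSpace F] {m : ℕ} {f : E → F} {x : E} (hf : ContDiff ℝ ∞ f)
    (h : Van m f x) : ∃ C : ℝ, ∀ᶠ z in 𝓝 x, ‖f z‖ ≤ C * ‖z - x‖ ^ m := by
  cases m with
  | zero =>
    refine ⟨‖f x‖ + 1, ?_⟩
    have h1 : ∀ᶠ z in 𝓝 x, ‖f z‖ < ‖f x‖ + 1 :=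
      hf.continuous.norm.continuousAt.eventually_lt continuousAt_const (by linarith)
    filter_upwards [h1] with z hz
    simpa using hz.le
  | succ n =>
    obtain ⟨C, hC, r, hr, hb⟩ := taylor_bound hf n x
    refine ⟨C, ?_⟩
    filter_upwards [Metric.ball_mem_nhds x hr] with z hz
    rw [Metric.mem_ball, dist_eq_norm] at hz
    have h1 := hb (z - x) hz
    rw [add_sub_cancel] at h1
    rw [Finset.sum_eq_zero, sub_zero] at h1
    · exact h1
    · intro k hk
      rw [h k (Finset.mem_range.1 hk)]
      simp

theorem van_of_bigO [CompleteSpace F] {m : ℕ} {f : E → F} {x : E} (hf : ContDiff ℝ ∞ f) (C : ℝ)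
    (h : ∀ᶠ z in 𝓝 x, ‖f z‖ ≤ C * ‖z - x‖ ^ m) : Van m f x := by
  induction m generalizing C with
  | zero => intro j hj; exact absurd hj (by omega)
  | succ m ih =>
    have hV : Van m f x := by
      apply ih |C|
      filter_upwards [h, Metric.ball_mem_nhds x one_pos] with z hz hz1
      rw [Metric.mem_ball, dist_eq_norm] at hz1
      calc ‖f z‖ ≤ C * ‖z - x‖ ^ (m + 1) := hz
        _ ≤ |C| * ‖z - x‖ ^ (m + 1) := mul_le_mul_of_nonneg_right (le_abs_self C) (by positivity)
        _ ≤ |C| * ‖z - x‖ ^ m := by
            refine mul_le_mul_of_nonneg_left ?_ (abs_nonneg C)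
            exact pow_le_pow_of_le_one (norm_nonneg _) hz1.le (Nat.le_succ m)
    have hA : iteratedFDeriv ℝ m f x = 0 := by
      apply van_polar m _ (fun σ v => iter_symm hf m x σ v)
      intro v
      obtain ⟨C1, hC1, r, hr, hb⟩ := taylor_bound hf m x
      obtain ⟨r', hr', hb'⟩ := Metric.eventually_nhds_iff.1 h
      set A := iteratedFDeriv ℝ m f x (fun _ => v) with hAdef
      set K := ((m.factorial : ℝ)) * ((C1 + |C|) * ‖v‖ ^ (m + 1)) with hK
      have hK0 : 0 ≤ K := by positivity
      have hN : (0 : ℝ) < ‖v‖ + 1 := by positivity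
      set R := min r r' / (‖v‖ + 1) with hR
      have hR0 : 0 < R := div_pos (lt_min hr hr') hN
      -- the estimate
      have est : ∀ t : ℝ, 0 < t → t < R → ‖A‖ ≤ K * t := by
        intro t ht ht'
        have h1 : ‖t • v‖ < min r r' := by
          rw [norm_smul, Real.norm_of_nonneg ht.le]
          calc t * ‖v‖ ≤ t * (‖v‖ + 1) := mul_le_mul_of_nonneg_left (by linarith) ht.le
            _ < R * (‖v‖ + 1) := mul_lt_mul_of_pos_right ht' hN
            _ = min r r' := div_mul_cancel₀ _ hN.ne'
        have h2 := hb (t • v) (lt_of_lt_of_le h1 (min_le_left _ _))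
        have h3 : ‖f (x + t • v)‖ ≤ |C| * ‖t • v‖ ^ (m + 1) := by
          have h4 := hb' (y := x + t • v) (by
            rw [dist_eq_norm, add_sub_cancel_left]
            exact lt_of_lt_of_le h1 (min_le_right _ _))
          rw [add_sub_cancel_left] at h4
          exact h4.trans (mul_le_mul_of_nonneg_right (le_abs_self C) (by positivity))
        rw [Finset.sum_range_succ, Finset.sum_eq_zero, zero_add] at h2
        · have h5 : iteratedFDeriv ℝ m f x (fun _ => t • v) = t ^ m • A := by
            have := (iteratedFDeriv ℝ m f x).map_smul_univ (fun _ => t) (fun _ => v)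
            rw [this, Finset.prod_const, Finset.card_univ, Fintype.card_fin]
          rw [h5] at h2
          have h6 : ‖((m.factorial : ℝ))⁻¹ • (t ^ m • A)‖ ≤ (C1 + |C|) * ‖t • v‖ ^ (m + 1) := by
            calc ‖((m.factorial : ℝ))⁻¹ • (t ^ m • A)‖
                = ‖f (x + t • v) - (f (x + t • v) - ((m.factorial : ℝ))⁻¹ • (t ^ m • A))‖ := by
                  rw [sub_sub_cancel]
              _ ≤ ‖f (x + t • v)‖ + ‖f (x + t • v) - ((m.factorial : ℝ))⁻¹ • (t ^ m • A)‖ := norm_sub_le _ _
              _ ≤ |C| * ‖t • v‖ ^ (m + 1) + C1 * ‖t • v‖ ^ (m + 1) := add_le_add h3 h2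
              _ = (C1 + |C|) * ‖t • v‖ ^ (m + 1) := by ring
          rw [norm_smul, norm_smul, norm_smul, norm_inv, Real.norm_natCast, norm_pow,
            Real.norm_of_nonneg ht.le, mul_pow] at h6
          have hfac : (0 : ℝ) < (m.factorial : ℝ) := by exact_mod_cast m.factorial_pos
          have htm : 0 < t ^ m := pow_pos ht m
          have h7 : t ^ m * ‖A‖ ≤ t ^ m * (K * t) := by
            have h8 := mul_le_mul_of_nonneg_left h6 hfac.le
            rw [← mul_assoc, mul_inv_cancel₀ hfac.ne', one_mul] at h8
            refine h8.trans (le_of_eq ?_)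
            rw [hK]
            ring
          exact le_of_mul_le_mul_left h7 htm
        · intro k hk
          rw [hV k (Finset.mem_range.1 hk)]
          simp
      have hA0 : ‖A‖ ≤ 0 := by
        refine le_of_forall_pos_le_add fun ε hε => ?_
        rw [zero_add]
        set t := min (R / 2) (ε / (K + 1)) with ht
        have ht0 : 0 < t := lt_min (by linarith) (by positivity)
        have ht1 : t < R := lt_of_le_of_lt (min_le_left _ _) (by linarith)
        calc ‖A‖ ≤ K * t := est t ht0 ht1
          _ ≤ (K + 1) * t := mul_le_mul_of_nonneg_right (by linarith) ht0.le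
          _ ≤ (K + 1) * (ε / (K + 1)) := mul_le_mul_of_nonneg_left (min_le_right _ _) (by positivity)
          _ = ε := by field_simp
      exact norm_le_zero_iff.1 hA0
    intro j hj
    rcases Nat.lt_succ_iff_lt_or_eq.1 hj with h1 | h1
    · exact hV j h1
    · rw [h1]
      exact hA

end LatLin.B
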