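import Pool.Agent.Lib.MP_2392aa_gt.B.Van

/-!
MODULE VanOps. Operations on the order of vanishing.

* `comp`: `norm_iteratedFDeriv_comp_le` with the constant `0` for the outer function (or `bigO`).
* `mul`, `smul`: `norm_iteratedFDeriv_mul_le`, `norm_iteratedFDeriv_smul_le` (Leibniz).
* `comp_sub`: `m = 0` is trivial; otherwise `g x = h x` and `‖f (g z) - f (h z)‖ ≤ L ‖g z - h z‖` near
  `x` (`f` is Lipschitz near `g x`, `ContDiffAt.exists_lipschitzOnWith`), then `Van.bigO` and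
  `van_of_bigO`.
* `der`: `norm_iteratedFDeriv_fderiv`.
* `dir`: `fun z => fderiv ℝ f z v` is the composition of `fderiv ℝ f` with a continuous linear map.
-/

open scoped ContDiff Topology

namespace LatLin.B

variable {E F G : Type*} [NormedAddCommGroup E] [NormedSpace ℝ E] [NormedAddCommGroup F]
  [NormedSpace ℝ F] [NormedAddCommGroup G] [NormedSpace ℝ G]

private theorem nat_le_inf (j : ℕ) : ((j : ℕ) : WithTop ℕ∞) ≤ ∞ := by
  exact_mod_cast le_top

theorem Van.mono {m m' : ℕ} (hm : m' ≤ m) {f : E → F} {x : E} (h : Van m f x) : Van m' f x :=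
  fun j hj => h j (hj.trans_le hm)

theorem flatAt_iff {f : E → F} {x : E} : FlatAt f x ↔ ∀ m, Van m f x :=
  ⟨fun h _ j _ => h j, fun h j => h (j + 1) j (Nat.lt_succ_self j)⟩

theorem Van.congr {m : ℕ} {f g : E → F} {x : E} (hfg : f =ᶠ[𝓝 x] g) (h : Van m f x) :
    Van m g x := by
  intro j hj
  rw [← (hfg.iteratedFDeriv ℝ j).eq_of_nhds]
  exact h j hj

theorem Van.add {m : ℕ} {f g : E → F} {x : E} (hf : ContDiff ℝ ∞ f) (hg : ContDiff ℝ ∞ g)
    (h : Van m f x) (h' : Van m g x) : Van m (fun z => f z + g z) x := by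
  intro j hj
  have h1 := fun_iteratedFDeriv_add_apply (x := x) (hf.of_le (nat_le_inf j)).contDiffAt
    (hg.of_le (nat_le_inf j)).contDiffAt
  rw [h1, h j hj, h' j hj, add_zero]

theorem Van.sub {m : ℕ} {f g : E → F} {x : E} (hf : ContDiff ℝ ∞ f) (hg : ContDiff ℝ ∞ g)
    (h : Van m f x) (h' : Van m g x) : Van m (fun z => f z - g z) x := by
  intro j hj
  have h1 := fun_iteratedFDeriv_sub_apply (x := x) (hf.of_le (nat_le_inf j)).contDiffAt
    (hg.of_le (nat_le_inf j)).contDiffAt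
  rw [h1, h j hj, h' j hj, sub_zero]

theorem Van.sum {m : ℕ} {ι : Type*} (s : Finset ι) {f : ι → E → F} {x : E}
    (hf : ∀ i ∈ s, ContDiff ℝ ∞ (f i)) (h : ∀ i ∈ s, Van m (f i) x) :
    Van m (fun z => ∑ i ∈ s, f i z) x := by
  intro j hj
  rw [iteratedFDeriv_fun_sum_apply fun i hi => ((hf i hi).of_le (nat_le_inf j)).contDiffAt]
  exact Finset.sum_eq_zero fun i hi => h i hi j hj

private theorem leib_zero {a b : ℕ} {f : E → G} {g : E → F} {x : E} (h : Van a f x)
    (h' : Van b g x) {j : ℕ} (hj : j < a + b) :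
    ∑ i ∈ Finset.range (j + 1), (j.choose i : ℝ) * ‖iteratedFDeriv ℝ i f x‖ *
      ‖iteratedFDeriv ℝ (j - i) g x‖ = 0 := by
  refine Finset.sum_eq_zero fun i hi => ?_
  by_cases hia : i < a
  · rw [h i hia, norm_zero, mul_zero, zero_mul]
  · rw [Finset.mem_range] at hi
    rw [h' (j - i) (by omega), norm_zero, mul_zero]

theorem Van.mul {a b : ℕ} {f g : E → ℝ} {x : E} (hf : ContDiff ℝ ∞ f) (hg : ContDiff ℝ ∞ g)
    (h : Van a f x) (h' : Van b g x) : Van (a + b) (fun z => f z * g z) x := by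
  intro j hj
  have h1 := norm_iteratedFDeriv_mul_le hf hg x (nat_le_inf j)
  rw [leib_zero h h' hj] at h1
  exact norm_le_zero_iff.1 h1

theorem Van.smul {a b : ℕ} {f : E → ℝ} {g : E → F} {x : E} (hf : ContDiff ℝ ∞ f)
    (hg : ContDiff ℝ ∞ g) (h : Van a f x) (h' : Van b g x) :
    Van (a + b) (fun z => f z • g z) x := by
  intro j hj
  have h1 := norm_iteratedFDeriv_smul_le hf hg x (nat_le_inf j)
  rw [leib_zero h h' hj] at h1
  exact norm_le_zero_iff.1 h1

theorem Van.comp {m : ℕ} {f : F → G} {g : E → F} {x : E} (hf : ContDiff ℝ ∞ f)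
    (hg : ContDiff ℝ ∞ g) (h : Van m f (g x)) : Van m (fun z => f (g z)) x := by
  intro j hj
  set D : ℝ := 1 + ∑ i ∈ Finset.range (j + 1), ‖iteratedFDeriv ℝ i g x‖ with hD
  have hs : 0 ≤ ∑ i ∈ Finset.range (j + 1), ‖iteratedFDeriv ℝ i g x‖ :=
    Finset.sum_nonneg fun _ _ => norm_nonneg _
  have h1 := norm_iteratedFDeriv_comp_le (n := j) (C := 0) (D := D) hf hg (nat_le_inf j) x
    (fun i hi => by rw [h i (hi.trans_lt hj), norm_zero])
    (fun i h1i hi => by
      have h2 : ‖iteratedFDeriv ℝ i g x‖ ≤ ∑ i ∈ Finset.range (j + 1), ‖iteratedFDeriv ℝ i g x‖ :=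
        Finset.single_le_sum (f := fun i => ‖iteratedFDeriv ℝ i g x‖)
          (fun _ _ => norm_nonneg _) (Finset.mem_range.2 (Nat.lt_succ_of_le hi))
      have h3 : 1 ≤ D := by rw [hD]; linarith
      calc ‖iteratedFDeriv ℝ i g x‖ ≤ D := by rw [hD]; linarith
        _ = D ^ 1 := (pow_one D).symm
        _ ≤ D ^ i := pow_le_pow_right₀ h3 h1i)
  rw [mul_zero, zero_mul] at h1
  exact norm_le_zero_iff.1 h1

theorem Van.comp_sub [FiniteDimensional ℝ F] [CompleteSpace G] {m : ℕ} {f : F → G} {g h : E → F}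
    {x : E} (hf : ContDiff ℝ ∞ f) (hg : ContDiff ℝ ∞ g) (hh : ContDiff ℝ ∞ h)
    (h' : Van m (fun z => g z - h z) x) : Van m (fun z => f (g z) - f (h z)) x := by
  rcases Nat.eq_zero_or_pos m with rfl | hm
  · intro j hj
    exact absurd hj (Nat.not_lt_zero j)
  have hgh : g x = h x := by
    have h1 := h' 0 hm
    have h2 : ‖iteratedFDeriv ℝ 0 (fun z => g z - h z) x‖ = 0 := by rw [h1, norm_zero]
    rw [norm_iteratedFDeriv_zero, norm_eq_zero, sub_eq_zero] at h2
    exact h2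
  have : CompleteSpace F := FiniteDimensional.complete ℝ F
  obtain ⟨C, hC⟩ := h'.bigO (hg.sub hh)
  obtain ⟨K, t, ht, hK⟩ := ((hf.of_le (nat_le_inf 1)).contDiffAt
    (x := g x)).exists_lipschitzOnWith
  refine van_of_bigO ((hf.comp hg).sub (hf.comp hh)) (K * C) ?_
  have h3 : ∀ᶠ z in 𝓝 x, g z ∈ t := hg.continuous.continuousAt ht
  have h4 : ∀ᶠ z in 𝓝 x, h z ∈ t := by
    refine hh.continuous.continuousAt ?_
    rw [← hgh]
    exact ht
  filter_upwards [hC, h3, h4] with z hz hgz hhz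
  have h5 := hK.dist_le_mul _ hgz _ hhz
  rw [dist_eq_norm, dist_eq_norm] at h5
  calc ‖f (g z) - f (h z)‖ ≤ K * ‖g z - h z‖ := h5
    _ ≤ K * (C * ‖z - x‖ ^ m) := mul_le_mul_of_nonneg_left hz K.2
    _ = K * C * ‖z - x‖ ^ m := by ring

theorem Van.der {m : ℕ} {f : E → F} {x : E} (h : Van (m + 1) f x) :
    Van m (fun z => fderiv ℝ f z) x := by
  intro j hj
  have h1 := norm_iteratedFDeriv_fderiv (𝕜 := ℝ) (f := f) (x := x) (n := j)
  rw [h (j + 1) (Nat.succ_lt_succ hj), norm_zero] at h1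
  exact norm_eq_zero.1 h1

theorem Van.dir {m : ℕ} {f : E → F} {x : E} (hf : ContDiff ℝ ∞ f) (h : Van (m + 1) f x)
    (v : E) : Van m (fun z => fderiv ℝ f z v) x := by
  intro j hj
  have hd : ContDiff ℝ ∞ (fderiv ℝ f) := hf.fderiv_right (m := ∞) le_rfl
  have h1 := norm_iteratedFDeriv_clm_apply_const (c := v) (x := x) hd.contDiffAt (nat_le_inf j)
  have h2 : iteratedFDeriv ℝ j (fderiv ℝ f) x = 0 := Van.der h j hj
  rw [h2, norm_zero, mul_zero] at h1
  exact norm_le_zero_iff.1 h1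

end LatLin.B
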