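import Pool.Agent.Lib.MP_2392aa_gt.B.GeoDefs
import Pool.Agent.Lib.MP_2392aa_gt.B.ContrB

/-!
MODULE ZGeo. Elementary geometry of rays.

* `dr_exists`: the ray is closed and nonempty, `E` is proper.
* `dr_map`: `‖g x - t • g v‖ ≤ ‖g‖ ‖x - t • v‖`.
* `ZB_*`: finite union of closed rays (`finite_short`); interior empty: each ray lies in a line, a
  proper subspace (`k + 1 ≥ 2`).
* `dr_sep`: for two vectors with distinct directions `dr v + dr w` is continuous, positive and homogeneous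
  of degree one on `E \ {0}`; compactness of the sphere; finitely many pairs; `Prim.eq_of_smul`.
* `dr_coord`: `(L x).2 = (L (x - t • v)).2`; and `x - ((L x).1 / c) • v` has `L`-image `(0, (L x).2)`.
* `dr_deep`: with `x = t • v + e`, `‖e‖ < ε' ‖x‖`: `L x = (t c, 0) + L e`.
* `short_image`: `x = t • p + e`, `‖e‖ < ε ‖x‖`, so `t ‖p‖ ≥ (1 - ε) ‖x‖` and
  `t ‖γ p‖ ≤ ‖γ x‖ + nrm γ * ε ‖x‖`; multiply.
* `finite_nrm`: entries are bounded integers.
-/

open scoped ContDiff Topology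
open Metric

namespace LatLin.B

section
variable {E : Type*} [NormedAddCommGroup E] [NormedSpace ℝ E] [FiniteDimensional ℝ E]

private theorem zg_zero_mem {E : Type*} [NormedAddCommGroup E] [NormedSpace ℝ E] (v : E) :
    (0 : E) ∈ ray v := ⟨0, le_rfl, (zero_smul ℝ v).symm⟩

private theorem zg_dr_nonneg {E : Type*} [NormedAddCommGroup E] [NormedSpace ℝ E] (v x : E) :
    0 ≤ dr v x := infDist_nonneg

theorem ray_closed (v : E) : IsClosed (ray v) := by
  by_cases hv : v = 0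
  · have h1 : ray v = {0} := by
      ext x
      constructor
      · rintro ⟨t, ht, rfl⟩
        rw [hv, smul_zero]
        exact Set.mem_singleton _
      · intro hx
        rw [Set.mem_singleton_iff] at hx
        exact ⟨0, le_rfl, by rw [hx, zero_smul]⟩
    rw [h1]
    exact isClosed_singleton
  · have h1 : ray v = (fun t : ℝ => t • v) '' Set.Ici 0 := by
      ext x
      constructor
      · rintro ⟨t, ht, rfl⟩
        exact ⟨t, ht, rfl⟩
      · rintro ⟨t, ht, rfl⟩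
        exact ⟨t, ht, rfl⟩
    rw [h1]
    exact (isClosedEmbedding_smul_left hv).isClosedMap _ isClosed_Ici

theorem dr_exists (v x : E) : ∃ t : ℝ, 0 ≤ t ∧ dr v x = ‖x - t • v‖ := by
  obtain ⟨y, ⟨t, ht, rfl⟩, h⟩ := (ray_closed v).exists_infDist_eq_dist ⟨0, zg_zero_mem v⟩ x
  refine ⟨t, ht, ?_⟩
  rw [← dist_eq_norm]
  exact h

theorem dr_le (v x : E) : dr v x ≤ ‖x‖ := by
  have h1 := infDist_le_dist_of_mem (x := x) (zg_zero_mem v)
  rw [dist_zero_right] at h1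
  exact h1

theorem dr_le_of (v x : E) (t : ℝ) (ht : 0 ≤ t) : dr v x ≤ ‖x - t • v‖ := by
  rw [← dist_eq_norm]
  exact infDist_le_dist_of_mem ⟨t, ht, rfl⟩

theorem dr_add (v x e : E) : dr v (x + e) ≤ dr v x + ‖e‖ := by
  have h1 := infDist_le_infDist_add_dist (s := ray v) (x := x + e) (y := x)
  rw [dist_eq_norm, add_sub_cancel_left] at h1
  exact h1

theorem dr_map (g : E ≃L[ℝ] E) (v x : E) : dr (g v) (g x) ≤ ‖(g : E →L[ℝ] E)‖ * dr v x := by
  obtain ⟨t, ht, h⟩ := dr_exists v x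
  rw [h]
  refine (dr_le_of (g v) (g x) t ht).trans ?_
  rw [← map_smul, ← map_sub]
  exact (g : E →L[ℝ] E).le_opNorm _

theorem dr_coord {k : ℕ} (L : E ≃L[ℝ] E0 k) (v : E) (c : ℝ) (hc : 0 < c)
    (hL : L v = ((c, 0) : E0 k)) : ∃ C : ℝ, 1 ≤ C ∧ ∀ x,
      ‖(L x).2‖ ≤ C * dr v x ∧ (0 ≤ (L x).1 → dr v x ≤ C * ‖(L x).2‖) := by
  set A : ℝ := ‖(L : E →L[ℝ] E0 k)‖ with hA
  set B : ℝ := ‖(L.symm : E0 k →L[ℝ] E)‖ with hB
  have hA0 : 0 ≤ A := norm_nonneg _
  have hB0 : 0 ≤ B := norm_nonneg _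
  refine ⟨1 + A + B, by linarith, fun x => ⟨?_, fun hx => ?_⟩⟩
  · obtain ⟨t, ht, h⟩ := dr_exists v x
    have h1 : (L x).2 = (L (x - t • v)).2 := by
      rw [map_sub, map_smul, hL]
      simp
    have h2 : ‖(L (x - t • v)).2‖ ≤ ‖L (x - t • v)‖ := norm_snd_le _
    have h3 : ‖L (x - t • v)‖ ≤ A * ‖x - t • v‖ := (L : E →L[ℝ] E0 k).le_opNorm _
    rw [h1, h]
    refine h2.trans (h3.trans ?_)
    exact mul_le_mul_of_nonneg_right (by linarith) (norm_nonneg _)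
  · have h1 : L (x - ((L x).1 / c) • v) = ((0, (L x).2) : E0 k) := by
      rw [map_sub, map_smul, hL]
      refine Prod.ext ?_ ?_
      · show (L x).1 - (L x).1 / c * c = 0
        rw [div_mul_cancel₀ _ hc.ne', sub_self]
      · show (L x).2 - ((L x).1 / c) • (0 : Fin k → ℝ) = (L x).2
        rw [smul_zero, sub_zero]
    have h2 : x - ((L x).1 / c) • v = L.symm ((0, (L x).2) : E0 k) := by
      rw [← h1, L.symm_apply_apply]
    refine (dr_le_of v x ((L x).1 / c) (div_nonneg hx hc.le)).trans ?_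
    rw [h2]
    have h3 : ‖L.symm ((0, (L x).2) : E0 k)‖ ≤ B * ‖((0, (L x).2) : E0 k)‖ :=
      (L.symm : E0 k →L[ℝ] E).le_opNorm _
    have h4 : ‖((0, (L x).2) : E0 k)‖ = ‖(L x).2‖ := by
      rw [Prod.norm_mk, norm_zero]
      exact max_eq_right (norm_nonneg _)
    rw [h4] at h3
    exact h3.trans (mul_le_mul_of_nonneg_right (by linarith) (norm_nonneg _))

theorem dr_deep {k : ℕ} (L : E ≃L[ℝ] E0 k) (v : E) (c : ℝ) (hc : 0 < c)
    (hL : L v = ((c, 0) : E0 k)) (ε : ℝ) (hε : 0 < ε) : ∃ ε' : ℝ, 0 < ε' ∧ ∀ x, x ≠ 0 →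
      dr v x < ε' * ‖x‖ → 0 < (L x).1 ∧ ‖(L x).2‖ < ε * (L x).1 := by
  set A : ℝ := 1 + ‖(L : E →L[ℝ] E0 k)‖ with hA
  set B : ℝ := 1 + ‖(L.symm : E0 k →L[ℝ] E)‖ with hB
  have hA0 : 1 ≤ A := by
    have := norm_nonneg (L : E →L[ℝ] E0 k)
    linarith
  have hB0 : 1 ≤ B := by
    have := norm_nonneg (L.symm : E0 k →L[ℝ] E)
    linarith
  set η : ℝ := ε / (1 + ε) with hη
  have hη0 : 0 < η := by positivity
  have hη1 : η * (1 + ε) = ε := div_mul_cancel₀ _ (by positivity)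
  have hη2 : η < 1 := by
    rw [hη, div_lt_one (by positivity)]
    linarith
  have hε'' : A * B * (η / (2 * A * B)) = η / 2 := by
    field_simp
  refine ⟨η / (2 * A * B), by positivity, fun x hx h => ?_⟩
  obtain ⟨t, ht, h1⟩ := dr_exists v x
  set e : E := x - t • v with he
  set ε' : ℝ := η / (2 * A * B) with hε'
  have hxn : 0 < ‖x‖ := norm_pos_iff.2 hx
  rw [h1] at h
  have hLe : ‖L e‖ ≤ A * ‖e‖ := by
    refine ((L : E →L[ℝ] E0 k).le_opNorm e).trans ?_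
    exact mul_le_mul_of_nonneg_right (by linarith) (norm_nonneg _)
  have hLx : L x = ((t * c, 0) : E0 k) + L e := by
    have h2 : x = t • v + e := by
      rw [he]
      abel
    conv_lhs => rw [h2]
    rw [map_add, map_smul, hL]
    congr 1
    refine Prod.ext rfl ?_
    show t • (0 : Fin k → ℝ) = 0
    rw [smul_zero]
  have hA' : A * ‖e‖ < A * ε' * ‖x‖ := by
    have := mul_lt_mul_of_pos_left h (by linarith : 0 < A)
    linarith
  have hxB : ‖x‖ ≤ B * ‖L x‖ := by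
    have h2 : x = L.symm (L x) := (L.symm_apply_apply x).symm
    conv_lhs => rw [h2]
    refine ((L.symm : E0 k →L[ℝ] E).le_opNorm (L x)).trans ?_
    exact mul_le_mul_of_nonneg_right (by linarith) (norm_nonneg _)
  have htc : 0 ≤ t * c := mul_nonneg ht hc.le
  have hLx2 : ‖L x‖ ≤ t * c + A * ‖e‖ := by
    rw [hLx]
    refine (norm_add_le _ _).trans (add_le_add (le_of_eq ?_) hLe)
    rw [Prod.norm_mk, norm_zero, Real.norm_eq_abs, abs_of_nonneg htc]
    exact max_eq_left htc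
  have h3 : ‖x‖ ≤ B * (t * c) + η / 2 * ‖x‖ := by
    have h4 : B * ‖L x‖ ≤ B * (t * c + A * ε' * ‖x‖) :=
      mul_le_mul_of_nonneg_left (by linarith) (by linarith)
    have h5 : B * (t * c + A * ε' * ‖x‖) = B * (t * c) + A * B * ε' * ‖x‖ := by ring
    rw [h5, hε''] at h4
    linarith
  have h4 : ‖x‖ ≤ 2 * B * (t * c) := by
    have h5 : η / 2 * ‖x‖ ≤ 1 / 2 * ‖x‖ := mul_le_mul_of_nonneg_right (by linarith) hxn.le
    linarith
  have htc' : 0 < t * c := by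
    rcases htc.eq_or_lt with h5 | h5
    · rw [← h5, mul_zero] at h4
      linarith
    · exact h5
  have h5 : ‖L e‖ < η * (t * c) := by
    have h6 : A * ε' * ‖x‖ ≤ A * ε' * (2 * B * (t * c)) :=
      mul_le_mul_of_nonneg_left h4 (by positivity)
    have h7 : A * ε' * (2 * B * (t * c)) = 2 * (A * B * ε') * (t * c) := by ring
    rw [h7, hε''] at h6
    linarith
  have h6 : ‖(L e).1‖ ≤ ‖L e‖ := norm_fst_le _
  have h7 : ‖(L e).2‖ ≤ ‖L e‖ := norm_snd_le _
  rw [Real.norm_eq_abs] at h6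
  have h8 : (L x).1 = t * c + (L e).1 := by rw [hLx]; rfl
  have h9 : (L x).2 = (L e).2 := by
    rw [hLx]
    show 0 + (L e).2 = (L e).2
    rw [zero_add]
  have h10 := neg_abs_le (L e).1
  have h11 : η * (t * c) < t * c := by
    have := mul_lt_mul_of_pos_right hη2 htc'
    linarith
  have h12 : ε * (t * c) = η * (t * c) + ε * (η * (t * c)) := by
    calc ε * (t * c) = η * (1 + ε) * (t * c) := by rw [hη1]
      _ = _ := by ring
  refine ⟨by rw [h8]; linarith, ?_⟩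
  rw [h9, h8]
  have h13 : ε * |(L e).1| ≤ ε * (η * (t * c)) :=
    mul_le_mul_of_nonneg_left (by linarith) hε.le
  have h14 : ε * (t * c + (L e).1) = ε * (t * c) + ε * (L e).1 := by ring
  have h15 : -(ε * |(L e).1|) ≤ ε * (L e).1 := by
    have := mul_le_mul_of_nonneg_left h10 hε.le
    linarith
  rw [h14]
  linarith

end

private theorem zg_ZB_eq (k : ℕ) (R : ℝ) : ZB k R =
    ⋃ q ∈ {q : Fin (k + 1) → ℤ | Prim q ∧ ‖toE q‖ < R}, ray (toE q) := by
  ext x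
  simp only [ZB, Set.mem_setOf_eq, Set.mem_iUnion, exists_prop]
  constructor
  · rintro ⟨q, h1, h2, h3⟩
    exact ⟨q, ⟨h1, h2⟩, h3⟩
  · rintro ⟨q, ⟨h1, h2⟩, h3⟩
    exact ⟨q, h1, h2, h3⟩

private theorem zg_fin (k : ℕ) (R : ℝ) : {q : Fin (k + 1) → ℤ | Prim q ∧ ‖toE q‖ < R}.Finite :=
  (finite_short (n := k + 1) R).subset fun _ h => h.2

theorem ZB_closed (k : ℕ) (R : ℝ) : IsClosed (ZB k R) := by
  rw [zg_ZB_eq]
  exact (zg_fin k R).isClosed_biUnion fun q _ => ray_closed (toE q)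

theorem ZB_zero (k : ℕ) (R : ℝ) (hR : 1 < R) : (0 : EE (k + 1)) ∈ ZB k R := by
  refine ⟨Pi.single 0 1, ⟨1, ?_⟩, ?_, zg_zero_mem _⟩
  · show ((1 : SLZ (k + 1)) : Matrix (Fin (k + 1)) (Fin (k + 1)) ℤ).mulVec (Pi.single 0 1) = _
    rw [Matrix.SpecialLinearGroup.coe_one, Matrix.one_mulVec]
  · have h1 : (toE (Pi.single 0 1 : Fin (k + 1) → ℤ)) = EuclideanSpace.single 0 (1 : ℝ) := by
      ext i
      by_cases hi : i = 0
      · subst hi
        simp [toE]
      · simp [toE, hi]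
    rw [h1, EuclideanSpace.norm_single, norm_one]
    exact hR

theorem ZB_int (k : ℕ) (hk : 1 ≤ k) (R : ℝ) : interior (ZB k R) = ∅ := by
  refine MeasureTheory.Measure.interior_eq_empty_of_null
    (μ := (MeasureTheory.volume : MeasureTheory.Measure (EE (k + 1)))) ?_
  rw [zg_ZB_eq, MeasureTheory.measure_biUnion_null_iff (zg_fin k R).countable]
  intro q _
  have h1 : ray (toE q) ⊆ (Submodule.span ℝ {toE q} : Submodule ℝ (EE (k + 1))) := by
    rintro x ⟨t, _, rfl⟩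
    exact Submodule.smul_mem _ _ (Submodule.mem_span_singleton_self _)
  refine MeasureTheory.measure_mono_null h1 (MeasureTheory.Measure.addHaar_submodule _ _ ?_)
  intro h2
  have h3 : Module.finrank ℝ (Submodule.span ℝ {toE q} : Submodule ℝ (EE (k + 1))) ≤ 1 :=
    (finrank_span_le_card _).trans (by simp)
  rw [h2, finrank_top, finrank_euclideanSpace_fin] at h3
  omega

theorem ZB_dist (k : ℕ) (R : ℝ) (hR : 1 < R) (x : EE (k + 1)) :
    (∃ q : Fin (k + 1) → ℤ, Prim q ∧ ‖toE q‖ < R ∧ infDist x (ZB k R) = dr (toE q) x) ∧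
      ∀ q : Fin (k + 1) → ℤ, Prim q → ‖toE q‖ < R → infDist x (ZB k R) ≤ dr (toE q) x := by
  have h2 : ∀ q : Fin (k + 1) → ℤ, Prim q → ‖toE q‖ < R →
      infDist x (ZB k R) ≤ dr (toE q) x := fun q hq hqR =>
    infDist_le_infDist_of_subset (fun y hy => ⟨q, hq, hqR, hy⟩) ⟨0, zg_zero_mem _⟩
  refine ⟨?_, h2⟩
  obtain ⟨y, ⟨q, hq, hqR, hy⟩, h⟩ := (ZB_closed k R).exists_infDist_eq_dist ⟨0, ZB_zero k R hR⟩ x
  refine ⟨q, hq, hqR, le_antisymm (h2 q hq hqR) ?_⟩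
  rw [h]
  exact infDist_le_dist_of_mem hy

private theorem zg_scale {k : ℕ} (v : EE (k + 1)) {x : EE (k + 1)} (hx : x ≠ 0) :
    ‖x‖ * dr v (‖x‖⁻¹ • x) ≤ dr v x := by
  have hxn : 0 < ‖x‖ := norm_pos_iff.2 hx
  obtain ⟨t, ht, h⟩ := dr_exists v x
  rw [h]
  have h1 := dr_le_of v (‖x‖⁻¹ • x) (‖x‖⁻¹ * t) (by positivity)
  rw [mul_smul, ← smul_sub, norm_smul, norm_inv, norm_norm] at h1
  have h2 := mul_le_mul_of_nonneg_left h1 hxn.le
  rw [← mul_assoc, mul_inv_cancel₀ hxn.ne', one_mul] at h2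
  exact h2

theorem dr_sep (k : ℕ) (R : ℝ) : ∃ c : ℝ, 0 < c ∧ ∀ p q : Fin (k + 1) → ℤ, Prim p → Prim q →
    ‖toE p‖ < R → ‖toE q‖ < R → p ≠ q → ∀ x : EE (k + 1),
      c * ‖x‖ ≤ dr (toE p) x + dr (toE q) x := by
  have key : ∀ pq ∈ ({q : Fin (k + 1) → ℤ | Prim q ∧ ‖toE q‖ < R} ×ˢ
      {q : Fin (k + 1) → ℤ | Prim q ∧ ‖toE q‖ < R}), ∀ᶠ c in 𝓝[>] (0 : ℝ), pq.1 ≠ pq.2 →
        ∀ x : EE (k + 1), c * ‖x‖ ≤ dr (toE pq.1) x + dr (toE pq.2) x := by
    rintro ⟨p, q⟩ ⟨⟨hp, _⟩, ⟨hq, _⟩⟩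
    by_cases hpq : p = q
    · exact Filter.Eventually.of_forall fun c h => absurd hpq h
    have hcont : Continuous fun x : EE (k + 1) => dr (toE p) x + dr (toE q) x :=
      (continuous_infDist_pt _).add (continuous_infDist_pt _)
    have hpos : ∀ x ∈ sphere (0 : EE (k + 1)) 1, 0 < dr (toE p) x + dr (toE q) x := by
      intro x hx
      have hx1 : ‖x‖ = 1 := by simpa using hx
      have h1 := zg_dr_nonneg (toE p) x
      have h2 := zg_dr_nonneg (toE q) x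
      rcases (add_nonneg h1 h2).eq_or_lt with h3 | h3
      · exfalso
        have h4 : dr (toE p) x = 0 := by linarith
        have h5 : dr (toE q) x = 0 := by linarith
        obtain ⟨t, ht, h6⟩ := dr_exists (toE p) x
        obtain ⟨s, hs, h7⟩ := dr_exists (toE q) x
        rw [h4] at h6
        rw [h5] at h7
        have h8 : x = t • toE p := sub_eq_zero.1 (norm_eq_zero.1 h6.symm)
        have h9 : x = s • toE q := sub_eq_zero.1 (norm_eq_zero.1 h7.symm)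
        have ht0 : 0 < t := by
          rcases ht.eq_or_lt with h | h
          · rw [h8, ← h, zero_smul, norm_zero] at hx1
            norm_num at hx1
          · exact h
        have hs0 : 0 < s := by
          rcases hs.eq_or_lt with h | h
          · rw [h9, ← h, zero_smul, norm_zero] at hx1
            norm_num at hx1
          · exact h
        refine hpq (Prim.eq_of_smul hp hq (s / t) (by positivity) ?_)
        have h10 : t • toE p = s • toE q := h8.symm.trans h9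
        rw [div_eq_inv_mul, mul_smul, ← h10, smul_smul, inv_mul_cancel₀ ht0.ne', one_smul]
      · exact h3
    obtain ⟨c, hc, h⟩ := (isCompact_sphere (0 : EE (k + 1)) 1).exists_forall_le'
      hcont.continuousOn hpos
    have hle : ∀ x : EE (k + 1), c * ‖x‖ ≤ dr (toE p) x + dr (toE q) x := by
      intro x
      by_cases hx : x = 0
      · rw [hx, norm_zero, mul_zero]
        exact add_nonneg (zg_dr_nonneg _ _) (zg_dr_nonneg _ _)
      have hxn : 0 < ‖x‖ := norm_pos_iff.2 hx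
      have h1 := h (‖x‖⁻¹ • x) (by
        rw [mem_sphere_zero_iff_norm, norm_smul, norm_inv, norm_norm, inv_mul_cancel₀ hxn.ne'])
      have h2 := zg_scale (toE p) hx
      have h3 := zg_scale (toE q) hx
      have h4 := mul_le_mul_of_nonneg_left h1 hxn.le
      rw [mul_add] at h4
      linarith
    filter_upwards [Ioo_mem_nhdsGT hc] with c' hc' _ x
    exact (mul_le_mul_of_nonneg_right hc'.2.le (norm_nonneg x)).trans (hle x)
  have h1 := (Filter.eventually_all_finite ((zg_fin k R).prod (zg_fin k R))).2 key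
  obtain ⟨c, hc, hc0⟩ := (h1.and self_mem_nhdsWithin).exists
  exact ⟨c, hc0, fun p q hp hq hpR hqR hne x => hc (p, q) ⟨⟨hp, hpR⟩, ⟨hq, hqR⟩⟩ hne x⟩

private theorem zg_nrm_nonneg {n : ℕ} (g : SLZ n) : 0 ≤ nrm g := norm_nonneg _

private theorem zg_le_nrm {n : ℕ} (g : SLZ n) (v : EE n) : ‖rhoZ n g v‖ ≤ nrm g * ‖v‖ :=
  ContinuousLinearMap.le_opNorm ((rhoZ n g : EE n ≃L[ℝ] EE n) : EE n →L[ℝ] EE n) v

private theorem zg_entry_le {n : ℕ} (g : SLZ n) (i j : Fin n) :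
    |((g : Matrix (Fin n) (Fin n) ℤ) i j : ℝ)| ≤ nrm g := by
  have h1 : rhoZ n g (EuclideanSpace.single j (1 : ℝ)) i =
      ((g : Matrix (Fin n) (Fin n) ℤ) i j : ℝ) := by
    rw [rhoZ_apply]
    simp [Pi.single_apply]
  rw [← h1]
  have h2 := PiLp.norm_apply_le (rhoZ n g (EuclideanSpace.single j (1 : ℝ))) i
  rw [Real.norm_eq_abs] at h2
  refine h2.trans ((zg_le_nrm g _).trans ?_)
  rw [EuclideanSpace.norm_single, norm_one, mul_one]

theorem short_image {k : ℕ} (γ : SLZ (k + 1)) (p : Fin (k + 1) → ℤ) (ε μ : ℝ)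
    (x : EE (k + 1)) (hx : x ≠ 0) (h : dr (toE p) x < ε * ‖x‖)
    (hμ : ‖rhoZ _ γ x‖ ≤ μ * ‖x‖) :
    (1 - ε) * ‖toE (actZ γ p)‖ ≤ (μ + nrm γ * ε) * ‖toE p‖ := by
  have hxn : 0 < ‖x‖ := norm_pos_iff.2 hx
  have hn0 : 0 ≤ nrm γ := zg_nrm_nonneg γ
  have hμ0 : 0 ≤ μ := by
    by_contra hneg
    push Not at hneg
    have h1 := mul_neg_of_neg_of_pos hneg hxn
    have h2 := norm_nonneg (rhoZ _ γ x)
    linarith
  have hε0 : 0 < ε := by
    by_contra hneg
    push Not at hneg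
    have h1 := mul_nonpos_of_nonpos_of_nonneg hneg hxn.le
    have h2 := zg_dr_nonneg (toE p) x
    linarith
  rcases le_or_gt 1 ε with hε1 | hε1
  · have h1 : (1 - ε) * ‖toE (actZ γ p)‖ ≤ 0 :=
      mul_nonpos_of_nonpos_of_nonneg (by linarith) (norm_nonneg _)
    refine h1.trans ?_
    positivity
  obtain ⟨t, ht, h1⟩ := dr_exists (toE p) x
  set e : EE (k + 1) := x - t • toE p with he
  rw [h1] at h
  have hxe : t • toE p = x - e := by
    rw [he]
    abel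
  have h2 : (1 - ε) * ‖x‖ ≤ t * ‖toE p‖ := by
    have h3 : ‖x - e‖ = t * ‖toE p‖ := by
      rw [← hxe, norm_smul, Real.norm_eq_abs, abs_of_nonneg ht]
    rw [← h3]
    have h4 := norm_sub_norm_le x e
    linarith
  have ht0 : 0 < t := by
    rcases ht.eq_or_lt with h3 | h3
    · rw [← h3, zero_mul] at h2
      have := mul_pos (by linarith : 0 < 1 - ε) hxn
      linarith
    · exact h3
  have h3 : t * ‖toE (actZ γ p)‖ ≤ (μ + nrm γ * ε) * ‖x‖ := by
    have h4 : t • toE (actZ γ p) = rhoZ _ γ x - rhoZ _ γ e := by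
      rw [toE_actZ, ← map_smul, hxe, map_sub]
    have h5 : t * ‖toE (actZ γ p)‖ = ‖rhoZ _ γ x - rhoZ _ γ e‖ := by
      rw [← h4, norm_smul, Real.norm_eq_abs, abs_of_nonneg ht]
    rw [h5]
    have h6 := norm_sub_le (rhoZ _ γ x) (rhoZ _ γ e)
    have h7 := zg_le_nrm γ e
    have h8 : nrm γ * ‖e‖ ≤ nrm γ * (ε * ‖x‖) := mul_le_mul_of_nonneg_left h.le hn0
    calc ‖rhoZ _ γ x - rhoZ _ γ e‖ ≤ μ * ‖x‖ + nrm γ * (ε * ‖x‖) := by linarith
      _ = _ := by ring
  have h4 : t * ((1 - ε) * ‖toE (actZ γ p)‖) ≤ t * ((μ + nrm γ * ε) * ‖toE p‖) := by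
    have h5 := mul_le_mul_of_nonneg_left h3 (by linarith : 0 ≤ 1 - ε)
    have h6 := mul_le_mul_of_nonneg_left h2 (by positivity : 0 ≤ μ + nrm γ * ε)
    calc t * ((1 - ε) * ‖toE (actZ γ p)‖) = (1 - ε) * (t * ‖toE (actZ γ p)‖) := by ring
      _ ≤ (1 - ε) * ((μ + nrm γ * ε) * ‖x‖) := h5
      _ = (μ + nrm γ * ε) * ((1 - ε) * ‖x‖) := by ring
      _ ≤ (μ + nrm γ * ε) * (t * ‖toE p‖) := h6
      _ = _ := by ring
  exact le_of_mul_le_mul_left h4 ht0

theorem finite_nrm (n : ℕ) (B : ℝ) : {g : SLZ n | nrm g ≤ B}.Finite := by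
  have h1 : (Set.Icc (fun _ _ => -⌈B⌉) (fun _ _ => ⌈B⌉) : Set (Fin n → Fin n → ℤ)).Finite :=
    Set.finite_Icc _ _
  have h2 : Function.Injective (fun g : SLZ n => ((g : Matrix (Fin n) (Fin n) ℤ) :
      Fin n → Fin n → ℤ)) := fun g h hgh => Subtype.ext hgh
  refine (h1.preimage h2.injOn).subset ?_
  intro g hg
  have h3 : ∀ i j, |((g : Matrix (Fin n) (Fin n) ℤ) i j : ℝ)| ≤ B :=
    fun i j => (zg_entry_le g i j).trans hg
  constructor
  · intro i j
    have h4 := (abs_le.1 (h3 i j)).1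
    have h5 : (-((g : Matrix (Fin n) (Fin n) ℤ) i j) : ℤ) ≤ ⌈B⌉ := by
      rw [← Int.cast_le (R := ℝ)]
      push_cast
      exact (by linarith : -((g : Matrix (Fin n) (Fin n) ℤ) i j : ℝ) ≤ B).trans (Int.le_ceil _)
    show -⌈B⌉ ≤ (g : Matrix (Fin n) (Fin n) ℤ) i j
    linarith
  · intro i j
    have h4 := (abs_le.1 (h3 i j)).2
    show (g : Matrix (Fin n) (Fin n) ℤ) i j ≤ ⌈B⌉
    rw [← Int.cast_le (R := ℝ)]
    exact h4.trans (Int.le_ceil _)

theorem nrm_mul {n : ℕ} (g h : SLZ n) : nrm (g * h) ≤ nrm g * nrm h := by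
  refine ContinuousLinearMap.opNorm_le_bound _ (mul_nonneg (zg_nrm_nonneg g) (zg_nrm_nonneg h))
    fun v => ?_
  have h1 : ((rhoZ n (g * h) : EE n ≃L[ℝ] EE n) : EE n →L[ℝ] EE n) v =
      rhoZ n g (rhoZ n h v) := by
    rw [map_mul]
    rfl
  rw [h1, mul_assoc]
  exact (zg_le_nrm g _).trans (mul_le_mul_of_nonneg_left (zg_le_nrm h v) (zg_nrm_nonneg g))

theorem sz_rhoG {k : ℕ} (Γ : Subgroup (SLZ (k + 1))) (g : Γ) :
    sz (rhoG Γ g) = max (nrm (g : SLZ (k + 1))) (nrm ((g : SLZ (k + 1))⁻¹)) := by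
  have h1 : rhoG Γ g = rhoZ (k + 1) (g : SLZ (k + 1)) := rfl
  unfold sz
  rw [h1, ← map_inv]
  rfl

theorem one_le_nrm {k : ℕ} (g : SLZ (k + 1)) : 1 ≤ nrm g * nrm g⁻¹ ∧ 1 ≤ nrm g := by
  constructor
  · have h1 : (rhoZ (k + 1) g) ((rhoZ (k + 1) g⁻¹) (EuclideanSpace.single 0 (1 : ℝ))) =
        EuclideanSpace.single 0 (1 : ℝ) := by
      have h2 : (rhoZ (k + 1) g * rhoZ (k + 1) g⁻¹) = 1 := by
        rw [← map_mul, mul_inv_cancel, map_one]
      exact congrArg (fun f : EE (k + 1) ≃L[ℝ] EE (k + 1) => f (EuclideanSpace.single 0 (1 : ℝ))) h2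
    have h3 := zg_le_nrm g ((rhoZ (k + 1) g⁻¹) (EuclideanSpace.single 0 (1 : ℝ)))
    have h4 := zg_le_nrm g⁻¹ (EuclideanSpace.single 0 (1 : ℝ))
    rw [h1] at h3
    rw [EuclideanSpace.norm_single, norm_one] at h3 h4
    rw [mul_one] at h4
    exact h3.trans (mul_le_mul_of_nonneg_left h4 (zg_nrm_nonneg g))
  · obtain ⟨j, hj⟩ : ∃ j, (g : Matrix (Fin (k + 1)) (Fin (k + 1)) ℤ) 0 j ≠ 0 := by
      by_contra hcon
      push Not at hcon
      have h1 := Matrix.det_eq_zero_of_row_eq_zero (A := (g : Matrix (Fin (k + 1)) (Fin (k + 1)) ℤ))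
        0 hcon
      rw [Matrix.SpecialLinearGroup.det_coe] at h1
      exact one_ne_zero h1
    have h1 : (1 : ℝ) ≤ |((g : Matrix (Fin (k + 1)) (Fin (k + 1)) ℤ) 0 j : ℝ)| := by
      have h2 := Int.one_le_abs hj
      exact_mod_cast h2
    exact h1.trans (zg_entry_le g 0 j)

end LatLin.B
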